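import Pool.Agent.NE.EvA

set_option autoImplicit false

open MeasureTheory Set
open scoped ENNReal ContDiff

namespace Pool.Agent.NE

/-- The boundary of the cube `[-1, 1]^N`. -/
def bdry (N : ℕ) : Set (Fin N → ℝ) := {x | (∀ i, |x i| ≤ 1) ∧ ∃ i, |x i| = 1}

lemma isCompact_bdry (N : ℕ) : IsCompact (bdry N) := by
  have hsub : bdry N ⊆ Icc (-1 : Fin N → ℝ) 1 := by
    intro x hx
    constructor
    · intro i; have := (abs_le.1 (hx.1 i)).1; simpa using this
    · intro i; have := (abs_le.1 (hx.1 i)).2; simpa using this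
  refine IsCompact.of_isClosed_subset isCompact_Icc ?_ hsub
  have e : bdry N = (⋂ i, {x : Fin N → ℝ | |x i| ≤ 1}) ∩ (⋃ i, {x : Fin N → ℝ | |x i| = 1}) := by
    ext x; simp [bdry]
  rw [e]
  refine IsClosed.inter (isClosed_iInter fun i => ?_) (isClosed_iUnion_of_finite fun i => ?_)
  · exact isClosed_le (continuous_apply i).abs continuous_const
  · exact isClosed_eq (continuous_apply i).abs continuous_const

/-- A continuous map on the boundary of the cube that is invariant under a nontrivial change of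
signs of the coordinates is not homotopic to the identity by the linear homotopy. -/
theorem no_sym {N : ℕ} (s : Fin N → ℝ) (hs : ∀ i, s i = 1 ∨ s i = -1) (hs' : ∃ i, s i = -1)
    (f : (Fin N → ℝ) → (Fin N → ℝ)) (hf : ContinuousOn f (bdry N))
    (hsym : ∀ x ∈ bdry N, f (fun i => s i * x i) = f x)
    (hh : ∀ x ∈ bdry N, ∀ t ∈ Icc (0 : ℝ) 1, (1 - t) • x + t • f x ≠ 0) : False := by
  classical
  have hK := isCompact_bdry N
  -- the symmetry preserves the boundary
  have habs : ∀ i (a : ℝ), |s i * a| = |a| := by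
    intro i a
    rcases hs i with h | h <;> simp [h]
  have hsb : ∀ x ∈ bdry N, (fun i => s i * x i) ∈ bdry N := by
    rintro x ⟨h1, i, hi⟩
    exact ⟨fun j => by rw [habs]; exact h1 j, i, by rw [habs]; exact hi⟩
  have hss : ∀ i, s i * s i = 1 := by
    intro i
    rcases hs i with h | h <;> simp [h]
  -- lower bound for the homotopy
  obtain ⟨i0, hi0⟩ := hs'
  have hne : (Icc (0 : ℝ) 1 ×ˢ bdry N).Nonempty :=
    ⟨(0, 1), ⟨by norm_num, by norm_num⟩, fun i => by simp, i0, by simp⟩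
  have hcont : ContinuousOn (fun z : ℝ × (Fin N → ℝ) => ‖(1 - z.1) • z.2 + z.1 • f z.2‖)
      (Icc (0 : ℝ) 1 ×ˢ bdry N) := by
    have h2 : ContinuousOn (fun z : ℝ × (Fin N → ℝ) => f z.2) (Icc (0 : ℝ) 1 ×ˢ bdry N) :=
      hf.comp continuousOn_snd (fun z hz => hz.2)
    exact (((continuousOn_const.sub continuousOn_fst).smul continuousOn_snd).add
      (continuousOn_fst.smul h2)).norm
  obtain ⟨z0, hz0, hmin⟩ := (isCompact_Icc.prod hK).exists_isMinOn hne hcont
  set m : ℝ := ‖(1 - z0.1) • z0.2 + z0.1 • f z0.2‖ with hm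
  have hmpos : 0 < m := norm_pos_iff.2 (hh z0.2 hz0.2 z0.1 hz0.1)
  have hlow : ∀ x ∈ bdry N, ∀ t ∈ Icc (0 : ℝ) 1, m ≤ ‖(1 - t) • x + t • f x‖ := by
    intro x hx t ht
    exact hmin (show (t, x) ∈ Icc (0 : ℝ) 1 ×ˢ bdry N from ⟨ht, hx⟩)
  -- extension and smooth approximation
  obtain ⟨F, hF⟩ := ContinuousMap.exists_restrict_eq (s := bdry N) hK.isClosed
    (⟨(bdry N).domRestrict f, continuousOn_iff_continuous_domRestrict.1 hf⟩ : C(bdry N, Fin N → ℝ))
  have hFf : ∀ x ∈ bdry N, F x = f x := by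
    intro x hx
    exact congrArg (fun g : C(bdry N, Fin N → ℝ) => g ⟨x, hx⟩) hF
  obtain ⟨Q0, hQ0, hQF, -⟩ := F.continuous.exists_contDiff_approx ⊤
    (ε := fun _ => m / 2) continuous_const (fun _ => by positivity)
  -- symmetrisation
  set S : (Fin N → ℝ) → (Fin N → ℝ) := fun x i => s i * x i with hS
  have hSd : ContDiff ℝ ∞ S := by
    rw [contDiff_pi]
    intro i
    exact contDiff_const.mul (contDiff_apply ℝ ℝ i)
  have hSS : ∀ x, S (S x) = x := by
    intro x; funext i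
    simp only [hS]
    rw [← mul_assoc, hss, one_mul]
  set Q : (Fin N → ℝ) → (Fin N → ℝ) := fun x => (1 / 2 : ℝ) • (Q0 x + Q0 (S x)) with hQ
  have hQd : ContDiff ℝ ∞ Q := by
    have h := hQ0.add (hQ0.comp hSd)
    exact h.const_smul (1 / 2 : ℝ)
  have hQs : ∀ x, Q (S x) = Q x := by
    intro x
    simp only [hQ, hSS]
    rw [add_comm]
  have hQf : ∀ x ∈ bdry N, ‖Q x - f x‖ ≤ m / 2 := by
    intro x hx
    have h1 : ‖Q0 x - f x‖ ≤ m / 2 := by
      have := (hQF x).le
      rwa [dist_eq_norm, hFf x hx] at this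
    have h2 : ‖Q0 (S x) - f x‖ ≤ m / 2 := by
      have := (hQF (S x)).le
      rw [dist_eq_norm, hFf (S x) (hsb x hx)] at this
      rwa [show f (S x) = f x from hsym x hx] at this
    have e : Q x - f x = (1 / 2 : ℝ) • ((Q0 x - f x) + (Q0 (S x) - f x)) := by
      simp only [hQ]
      funext i
      simp only [Pi.smul_apply, Pi.add_apply, Pi.sub_apply, smul_eq_mul]
      ring
    rw [e, norm_smul]
    have := norm_add_le (Q0 x - f x) (Q0 (S x) - f x)
    rw [Real.norm_eq_abs, abs_of_pos (by norm_num : (0 : ℝ) < 1 / 2)]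
    linarith
  refine no_sym_smooth s hs ⟨i0, hi0⟩ Q hQd hQs (ε := m / 2) (by positivity) ?_
  intro x hx1 hx2 t ht
  have hx : x ∈ bdry N := ⟨hx1, hx2⟩
  have e : (1 - t) • x + t • Q x = ((1 - t) • x + t • f x) + t • (Q x - f x) := by
    rw [smul_sub]; abel
  rw [e]
  have h1 := hlow x hx t ht
  have h2 : ‖t • (Q x - f x)‖ ≤ m / 2 := by
    rw [norm_smul, Real.norm_eq_abs, abs_of_nonneg ht.1]
    calc t * ‖Q x - f x‖ ≤ 1 * ‖Q x - f x‖ :=
          mul_le_mul_of_nonneg_right ht.2 (norm_nonneg _)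
      _ ≤ m / 2 := by rw [one_mul]; exact hQf x hx
  have h3 := norm_sub_norm_le ((1 - t) • x + t • f x) (-(t • (Q x - f x)))
  rw [norm_neg, sub_neg_eq_add] at h3
  linarith

end Pool.Agent.NE
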