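import Pool.Agent.NE.Tools
import Pool.Agent.NE.EvB

set_option autoImplicit false

open MeasureTheory Set
open scoped ENNReal ContDiff

namespace Pool.Agent.NE

/-- A continuous tangent vector field on the unit sphere of `ℝⁿ × ℝ` that is even has a zero. -/
theorem even_field_zero {n : ℕ} (T1 : E n × ℝ → E n) (T2 : E n × ℝ → ℝ)
    (h1 : ContinuousOn T1 {z | ‖z.1‖ ^ 2 + z.2 ^ 2 = 1})
    (h2 : ContinuousOn T2 {z | ‖z.1‖ ^ 2 + z.2 ^ 2 = 1})
    (he1 : ∀ z : E n × ℝ, ‖z.1‖ ^ 2 + z.2 ^ 2 = 1 → T1 (-z) = T1 z)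
    (he2 : ∀ z : E n × ℝ, ‖z.1‖ ^ 2 + z.2 ^ 2 = 1 → T2 (-z) = T2 z)
    (ht : ∀ z : E n × ℝ, ‖z.1‖ ^ 2 + z.2 ^ 2 = 1 → inner ℝ (T1 z) z.1 + T2 z * z.2 = 0) :
    ∃ z : E n × ℝ, ‖z.1‖ ^ 2 + z.2 ^ 2 = 1 ∧ T1 z = 0 ∧ T2 z = 0 := by
  classical
  by_contra hcon
  push Not at hcon
  -- coordinates
  let a : (Fin (n + 1) → ℝ) → E n := fun x => WithLp.toLp 2 (fun i : Fin n => x i.succ)
  let r : (Fin (n + 1) → ℝ) → ℝ := fun x => Real.sqrt (‖a x‖ ^ 2 + x 0 ^ 2)
  let u : (Fin (n + 1) → ℝ) → E n × ℝ := fun x => ((r x)⁻¹ • a x, (r x)⁻¹ * x 0)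
  let f : (Fin (n + 1) → ℝ) → (Fin (n + 1) → ℝ) :=
    fun x => Fin.cons (T2 (u x)) (fun i => T1 (u x) i)
  have ha : Continuous a := by
    refine (PiLp.continuous_toLp 2 _).comp ?_
    exact continuous_pi fun i => continuous_apply i.succ
  have hr : Continuous r := by
    exact Real.continuous_sqrt.comp ((ha.norm.pow 2).add ((continuous_apply 0).pow 2))
  have hr2 : ∀ x, r x ^ 2 = ‖a x‖ ^ 2 + x 0 ^ 2 := fun x => Real.sq_sqrt (by positivity)
  have hrpos : ∀ x ∈ bdry (n + 1), 0 < r x := by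
    rintro x ⟨-, i, hi⟩
    apply Real.sqrt_pos.2
    have hxi : x i ≠ 0 := by
      intro h; rw [h] at hi; simp at hi
    rcases Fin.eq_zero_or_eq_succ i with h0 | ⟨j, hj⟩
    · subst h0
      have : 0 < x 0 ^ 2 := by positivity
      have := sq_nonneg ‖a x‖
      linarith
    · subst hj
      have hne : a x ≠ 0 := by
        intro h
        apply hxi
        have := congrArg (fun v : E n => v j) h
        simpa [a] using this
      have : 0 < ‖a x‖ ^ 2 := by
        have := norm_pos_iff.2 hne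
        positivity
      have := sq_nonneg (x 0)
      linarith
  have hus : ∀ x ∈ bdry (n + 1), ‖(u x).1‖ ^ 2 + (u x).2 ^ 2 = 1 := by
    intro x hx
    have hp := hrpos x hx
    simp only [u]
    rw [norm_smul, Real.norm_eq_abs, abs_of_pos (inv_pos.2 hp), mul_pow, mul_pow, ← mul_add,
      ← hr2 x, inv_pow, inv_mul_cancel₀ (by positivity)]
  have huc : ContinuousOn u (bdry (n + 1)) := by
    have hinv : ContinuousOn (fun x => (r x)⁻¹) (bdry (n + 1)) :=
      hr.continuousOn.inv₀ (fun x hx => (hrpos x hx).ne')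
    exact (hinv.smul ha.continuousOn).prodMk (hinv.mul (continuous_apply 0).continuousOn)
  have hmaps : MapsTo u (bdry (n + 1)) {z | ‖z.1‖ ^ 2 + z.2 ^ 2 = 1} := fun x hx => hus x hx
  have hfc : ContinuousOn f (bdry (n + 1)) := by
    rw [continuousOn_pi]
    intro i
    refine Fin.cases ?_ (fun j => ?_) i
    · have h : ContinuousOn (fun x => T2 (u x)) (bdry (n + 1)) := h2.comp huc hmaps
      simpa only [f, Fin.cons_zero] using h
    · have h := h1.comp huc hmaps
      have h' : ContinuousOn (fun x => (T1 (u x)) j) (bdry (n + 1)) := by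
        have hc : Continuous (fun v : E n => v j) := by fun_prop
        exact hc.comp_continuousOn h
      simpa only [f, Fin.cons_succ] using h'
  have han : ∀ x, a (fun i => (-1 : ℝ) * x i) = - a x := by
    intro x
    ext i
    simp [a]
  have hrn : ∀ x, r (fun i => (-1 : ℝ) * x i) = r x := by
    intro x
    simp only [r, han]
    simp
  have hun : ∀ x, u (fun i => (-1 : ℝ) * x i) = - u x := by
    intro x
    simp only [u, hrn, han]
    ext <;> simp
  refine no_sym (N := n + 1) (fun _ => -1) (fun _ => Or.inr rfl) ⟨0, rfl⟩ f hfc ?_ ?_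
  · intro x hx
    simp only [f]
    rw [hun x, he1 _ (hus x hx), he2 _ (hus x hx)]
  · intro x hx t ht' h0
    have hp := hrpos x hx
    have e0 : (1 - t) * x 0 + t * T2 (u x) = 0 := by
      have := congrFun h0 0
      simpa [f] using this
    have e1 : (1 - t) • a x + t • T1 (u x) = 0 := by
      ext i
      have := congrFun h0 i.succ
      simpa [f, a] using this
    have h3 : inner ℝ ((1 - t) • a x + t • T1 (u x)) (a x) +
        ((1 - t) * x 0 + t * T2 (u x)) * x 0 = 0 := by
      rw [e0, e1]; simp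
    rw [inner_add_left, real_inner_smul_left, real_inner_smul_left, real_inner_self_eq_norm_sq] at h3
    have h4 : inner ℝ (T1 (u x)) (a x) + T2 (u x) * x 0 = 0 := by
      have h := ht (u x) (hus x hx)
      have e : inner ℝ (T1 (u x)) (u x).1 = (r x)⁻¹ * inner ℝ (T1 (u x)) (a x) := by
        simp only [u]
        rw [real_inner_smul_right]
      have e' : T2 (u x) * (u x).2 = (r x)⁻¹ * (T2 (u x) * x 0) := by
        simp only [u]; ring
      rw [e, e', ← mul_add] at h
      rcases mul_eq_zero.1 h with h | h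
      · exact absurd h (inv_ne_zero hp.ne')
      · exact h
    have h5 : (1 - t) * r x ^ 2 = 0 := by
      rw [hr2]
      linear_combination h3 - t * h4
    have ht1 : t = 1 := by
      rcases mul_eq_zero.1 h5 with h | h
      · linarith
      · exact absurd h (by positivity)
    subst ht1
    refine hcon (u x) (hus x hx) ?_ ?_
    · simpa using e1
    · simpa using e0

end Pool.Agent.NE
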