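import Pool.Agent.NE.Defs

set_option autoImplicit false

open MeasureTheory Set
open scoped ENNReal ContDiff

namespace Pool.Agent.NE

/-- Weak gradients are unique: an element of `H¹(Ω)` is determined by its function. -/
theorem H1_eq_zero {n : ℕ} {Ω : Set (E n)} (hΩ : IsOpen Ω) (p : H1 Ω) (h : p.1.1 = 0) :
    p = 0 := by
  obtain ⟨⟨u, G⟩, hp⟩ := p
  simp only at h
  subst h
  have hG : LocallyIntegrableOn (G : E n → E n) Ω volume :=
    locallyIntegrableOn_of_locallyIntegrable_restrict
      ((Lp.memLp G).locallyIntegrable (by norm_num))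
  have key : ∀ᵐ x ∂(volume : Measure (E n)), x ∈ Ω → (G : E n → E n) x = 0 := by
    refine hΩ.ae_eq_zero_of_integral_contDiff_smul_eq_zero hG ?_
    intro φ h1 h2 h3
    have hint : Integrable (fun x => φ x • (G : E n → E n) x) (volume.restrict Ω) := by
      have hm : MemLp φ 2 (volume.restrict Ω) :=
        (h1.continuous.memLp_of_hasCompactSupport h2).restrict Ω
      exact memLp_one_iff_integrable.1 (MemLp.smul (Lp.memLp G) hm)
    have hset : ∫ x, φ x • (G : E n → E n) x = ∫ x in Ω, φ x • (G : E n → E n) x := by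
      symm
      apply setIntegral_eq_integral_of_forall_compl_eq_zero
      intro x hx
      have : φ x = 0 := by
        by_contra hne
        exact hx (h3 (subset_tsupport φ hne))
      simp [this]
    rw [hset]
    apply ext_inner_right ℝ
    intro v
    have hh := hp φ h1 h2 h3 v
    have e0 : ∫ x in Ω, ((0 : Lp ℝ 2 (volume.restrict Ω)) : E n → ℝ) x * fderiv ℝ φ x v = 0 := by
      rw [integral_eq_zero_of_ae]
      filter_upwards [Lp.coeFn_zero ℝ 2 (volume.restrict Ω)] with x hx
      rw [hx]; simp
    simp only at hh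
    rw [e0] at hh
    have e1 : ∫ x in Ω, inner ℝ ((G : E n → E n) x) v * φ x = 0 := by linarith
    rw [inner_zero_left]
    have e2 : inner ℝ (∫ x in Ω, φ x • (G : E n → E n) x) v
        = ∫ x in Ω, inner ℝ (φ x • (G : E n → E n) x) v := by
      rw [real_inner_comm, ← integral_inner hint]
      apply integral_congr_ae
      filter_upwards with x
      rw [real_inner_comm]
    rw [e2, ← e1]
    apply integral_congr_ae
    filter_upwards with x
    rw [real_inner_smul_left]
    ring
  have hG0 : G = 0 := by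
    rw [Lp.eq_zero_iff_ae_eq_zero]
    have := (ae_restrict_iff' hΩ.measurableSet).2 key
    filter_upwards [this] with x hx
    exact hx
  subst hG0
  rfl

/-- The constant function `1`. -/
theorem exists_one {n : ℕ} {Ω : Set (E n)} (hv : volume Ω ≠ ⊤) :
    ∃ e : H1 Ω, e.1.2 = 0 ∧ ∀ᵐ x ∂(volume.restrict Ω), (e.1.1 : E n → ℝ) x = 1 := by
  have : IsFiniteMeasure (volume.restrict Ω) := ⟨by
    rw [Measure.restrict_apply_univ]; exact lt_top_iff_ne_top.2 hv⟩
  have hm : MemLp (fun _ : E n => (1 : ℝ)) 2 (volume.restrict Ω) := memLp_const 1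
  refine ⟨⟨(hm.toLp _, 0), ?_⟩, rfl, hm.coeFn_toLp⟩
  intro φ h1 h2 h3 v
  have e1 : ∫ x in Ω, ((hm.toLp _ : Lp ℝ 2 (volume.restrict Ω)) : E n → ℝ) x * fderiv ℝ φ x v
      = ∫ x in Ω, fderiv ℝ φ x v := by
    apply integral_congr_ae
    filter_upwards [hm.coeFn_toLp] with x hx
    rw [hx]; simp
  have e2 : ∫ x in Ω, inner ℝ (((0 : Lp (E n) 2 (volume.restrict Ω)) : E n → E n) x) v * φ x
      = 0 := by
    rw [integral_eq_zero_of_ae]
    filter_upwards [Lp.coeFn_zero (E n) 2 (volume.restrict Ω)] with x hx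
    rw [hx]; simp
  have e3 : ∫ x in Ω, fderiv ℝ φ x v = ∫ x, fderiv ℝ φ x v := by
    apply setIntegral_eq_integral_of_forall_compl_eq_zero
    intro x hx
    have hx' : x ∉ tsupport φ := fun hh => hx (h3 hh)
    have : fderiv ℝ φ x = 0 := by
      have := support_fderiv_subset ℝ (f := φ)
      by_contra hne
      exact hx' (this hne)
    rw [this]; rfl
  have hc : Continuous (fun x => fderiv ℝ φ x v) :=
    (h1.continuous_fderiv (by simp)).clm_apply continuous_const
  have hs : HasCompactSupport (fun x => fderiv ℝ φ x v) := h2.fderiv_apply (𝕜 := ℝ) v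
  have hi : Integrable (fun x => fderiv ℝ φ x v) (volume : Measure (E n)) :=
    hc.integrable_of_hasCompactSupport hs
  have hi2 : Integrable φ (volume : Measure (E n)) :=
    h1.continuous.integrable_of_hasCompactSupport h2
  have e4 : ∫ x, fderiv ℝ φ x v = 0 := by
    have := integral_mul_fderiv_eq_neg_fderiv_mul_of_integrable (μ := (volume : Measure (E n)))
      (f := fun _ : E n => (1 : ℝ)) (g := φ) (v := v) (by simp) (by simpa using hi)
      (by simpa using hi2) (fun x _ => differentiableAt_const _)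
      (fun x _ => (h1.differentiable (by simp)).differentiableAt)
    simpa using this
  change ∫ x in Ω, ((hm.toLp _ : Lp ℝ 2 (volume.restrict Ω)) : E n → ℝ) x * fderiv ℝ φ x v
    = - ∫ x in Ω, inner ℝ (((0 : Lp (E n) 2 (volume.restrict Ω)) : E n → E n) x) v * φ x
  rw [e1, e2, e3, e4]; simp

end Pool.Agent.NE
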