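import Pool.Agent.NE.Defs

set_option autoImplicit false

open MeasureTheory Set Filter Topology
open scoped ENNReal ContDiff Gradient Convolution

namespace Pool.Agent.NE

namespace DensAux

set_option linter.unusedSectionVars false

variable {n : ℕ} {F : Type*} [NormedAddCommGroup F] [NormedSpace ℝ F]

/-- The homothety with centre `c` and ratio `t`. -/
noncomputable def hom (c : E n) (t : ℝ) (y : E n) : E n := t • y + (c - t • c)

lemma hom_cont (c : E n) (t : ℝ) : Continuous (hom c t) := by unfold hom; fun_prop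

lemma hom_inv (c : E n) {t : ℝ} (ht : 0 < t) (y : E n) : hom c t⁻¹ (hom c t y) = y := by
  unfold hom
  have : t⁻¹ * t = 1 := inv_mul_cancel₀ ht.ne'
  rw [smul_add, smul_sub, smul_smul, smul_smul, this, one_smul, one_smul]
  abel

lemma hom_inv' (c : E n) {t : ℝ} (ht : 0 < t) (y : E n) : hom c t (hom c t⁻¹ y) = y := by
  have := hom_inv c (inv_pos.mpr ht) y
  rwa [inv_inv] at this

lemma hom_sub (c : E n) (t : ℝ) (y : E n) : hom c t y - c = t • (y - c) := by
  unfold hom
  rw [smul_sub]
  abel

lemma map_hom (c : E n) {t : ℝ} (ht : 0 < t) :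
    Measure.map (hom c t) (volume : Measure (E n)) = ENNReal.ofReal ((t ^ n)⁻¹) • volume := by
  have h1 : hom c t = (fun z : E n => z + (c - t • c)) ∘ (fun y : E n => t • y) := rfl
  rw [h1, ← Measure.map_map (measurable_add_const _) (measurable_const_smul t),
    Measure.map_addHaar_smul volume ht.ne', Measure.map_smul, map_add_right_eq_self]
  rw [finrank_euclideanSpace_fin, abs_of_pos (by positivity)]

lemma integral_hom (c : E n) {t : ℝ} (ht : 0 < t) (h : E n → F) :
    ∫ y, h (hom c t y) = (t ^ n)⁻¹ • ∫ w, h w := by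
  have h1 : ∀ y, h (hom c t y) = (fun z => h (z + (c - t • c))) (t • y) := fun y => rfl
  simp_rw [h1]
  rw [Measure.integral_comp_smul volume (fun z => h (z + (c - t • c))) t,
    integral_add_right_eq_self h, finrank_euclideanSpace_fin, abs_of_pos (by positivity)]

/-- constant bounding the dilations -/
noncomputable def KK (n : ℕ) : ℝ≥0∞ := (ENNReal.ofReal (2 ^ n)) ^ (1 / 2 : ℝ)

lemma KK_ne_top (n : ℕ) : KK n ≠ ⊤ :=
  ENNReal.rpow_ne_top_of_nonneg (by norm_num) ENNReal.ofReal_ne_top

lemma memLp_hom (c : E n) {t : ℝ} (ht : 0 < t) {f : E n → F} (hf : MemLp f 2 volume) :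
    MemLp (f ∘ hom c t) 2 volume := by
  refine MemLp.comp_of_map ?_ (hom_cont c t).measurable.aemeasurable
  rw [map_hom c ht]
  exact hf.smul_measure ENNReal.ofReal_ne_top

lemma eLpNorm_hom_le (c : E n) {t : ℝ} (ht : 1 / 2 ≤ t) {f : E n → F} (hf : MemLp f 2 volume) :
    eLpNorm (f ∘ hom c t) 2 volume ≤ KK n * eLpNorm f 2 volume := by
  have ht0 : 0 < t := by linarith
  have h1 : AEStronglyMeasurable f (Measure.map (hom c t) volume) := by
    rw [map_hom c ht0]
    exact hf.1.smul_measure _
  rw [← eLpNorm_map_measure h1 (hom_cont c t).measurable.aemeasurable, map_hom c ht0,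
    eLpNorm_smul_measure_of_ne_top (by norm_num)]
  have h2 : ENNReal.ofReal ((t ^ n)⁻¹) ≤ ENNReal.ofReal (2 ^ n) := by
    apply ENNReal.ofReal_le_ofReal
    rw [← inv_pow]
    apply pow_le_pow_left₀ (by positivity)
    rw [inv_le_comm₀ ht0 (by norm_num)]
    linarith
  rw [smul_eq_mul, KK]
  have h3 : (1 / 2 : ℝ≥0∞).toReal = 1 / 2 := by norm_num
  rw [h3]
  exact mul_le_mul' (ENNReal.rpow_le_rpow h2 (by norm_num)) le_rfl

section Young

variable (b : ContDiffBump (0 : E n))

/-- the kernel -/
noncomputable def rho : E n → ℝ := b.normed volume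

lemma rho_nonneg (x : E n) : 0 ≤ rho b x := b.nonneg_normed x

lemma rho_contDiff : ContDiff ℝ ∞ (rho b) := b.contDiff_normed

lemma rho_compact : HasCompactSupport (rho b) := b.hasCompactSupport_normed

lemma rho_lintegral : ∫⁻ x, ENNReal.ofReal (rho b x) = 1 := by
  rw [← ofReal_integral_eq_lintegral_ofReal]
  · rw [rho, b.integral_normed]; simp
  · exact b.integrable_normed
  · exact Eventually.of_forall (rho_nonneg b)

lemma rho_lintegral_sub (x : E n) : ∫⁻ y, ENNReal.ofReal (rho b (x - y)) = 1 := by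
  rw [lintegral_sub_left_eq_self (fun y => ENNReal.ofReal (rho b y)) x]
  exact rho_lintegral b

/-- Jensen: the square of the average is at most the average of the squares. -/
lemma sq_lintegral_rho_mul_le {g : E n → ℝ≥0∞} (hg : AEMeasurable g) (x : E n) :
    (∫⁻ y, ENNReal.ofReal (rho b (x - y)) * g y) ^ 2 ≤
      ∫⁻ y, ENNReal.ofReal (rho b (x - y)) * g y ^ 2 := by
  have hm : Measurable (fun y : E n => ENNReal.ofReal (rho b (x - y))) :=
    ENNReal.measurable_ofReal.comp
      (((rho_contDiff b).continuous.comp (continuous_const.sub continuous_id)).measurable)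
  have key := ENNReal.lintegral_mul_le_Lp_mul_Lq volume Real.HolderConjugate.two_two
    (f := fun y => ENNReal.ofReal (rho b (x - y)) ^ (1 / 2 : ℝ))
    (g := fun y => ENNReal.ofReal (rho b (x - y)) ^ (1 / 2 : ℝ) * g y)
    (hm.pow_const _).aemeasurable ((hm.pow_const _).aemeasurable.mul hg)
  have e1 : ∀ y, ((fun y => ENNReal.ofReal (rho b (x - y)) ^ (1 / 2 : ℝ)) *
      (fun y => ENNReal.ofReal (rho b (x - y)) ^ (1 / 2 : ℝ) * g y)) y =
      ENNReal.ofReal (rho b (x - y)) * g y := by
    intro y
    simp only [Pi.mul_apply]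
    rw [← mul_assoc, ← ENNReal.rpow_add_of_nonneg _ _ (by norm_num) (by norm_num)]
    norm_num
  have e2 : ∀ y, (ENNReal.ofReal (rho b (x - y)) ^ (1 / 2 : ℝ)) ^ (2 : ℝ) =
      ENNReal.ofReal (rho b (x - y)) := by
    intro y
    rw [← ENNReal.rpow_mul]; norm_num
  have e3 : ∀ y, (ENNReal.ofReal (rho b (x - y)) ^ (1 / 2 : ℝ) * g y) ^ (2 : ℝ) =
      ENNReal.ofReal (rho b (x - y)) * g y ^ 2 := by
    intro y
    rw [ENNReal.mul_rpow_of_nonneg _ _ (by norm_num), e2]
    norm_num
  simp_rw [e1, e2, e3] at key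
  rw [rho_lintegral_sub, ENNReal.one_rpow, one_mul] at key
  calc (∫⁻ y, ENNReal.ofReal (rho b (x - y)) * g y) ^ 2
      ≤ ((∫⁻ y, ENNReal.ofReal (rho b (x - y)) * g y ^ 2) ^ (1 / 2 : ℝ)) ^ 2 := by gcongr
    _ = ∫⁻ y, ENNReal.ofReal (rho b (x - y)) * g y ^ 2 := by
        rw [← ENNReal.rpow_two, ← ENNReal.rpow_mul]; norm_num

/-- the mollified function -/
noncomputable def moll (h : E n → F) : E n → F :=
  (rho b) ⋆[ContinuousLinearMap.lsmul ℝ ℝ, volume] h

lemma moll_eq (h : E n → F) (x : E n) : moll b h x = ∫ y, rho b (x - y) • h y := by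
  rw [moll, convolution_lsmul_swap]

lemma enorm_moll_le (h : E n → F) (x : E n) :
    ‖moll b h x‖ₑ ≤ ∫⁻ y, ENNReal.ofReal (rho b (x - y)) * ‖h y‖ₑ := by
  rw [moll_eq]
  refine (enorm_integral_le_lintegral_enorm _).trans_eq (lintegral_congr fun y => ?_)
  rw [enorm_smul, Real.enorm_of_nonneg (rho_nonneg b _)]

lemma lintegral_moll_le {h : E n → F} (hh : AEStronglyMeasurable h volume) :
    ∫⁻ x, ‖moll b h x‖ₑ ^ 2 ≤ ∫⁻ x, ‖h x‖ₑ ^ 2 := by
  have hGm : AEMeasurable (fun y => ‖h y‖ₑ) := hh.enorm
  calc ∫⁻ x, ‖moll b h x‖ₑ ^ 2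
      ≤ ∫⁻ x, ∫⁻ y, ENNReal.ofReal (rho b (x - y)) * ‖h y‖ₑ ^ 2 := by
        refine lintegral_mono fun x => ?_
        refine le_trans ?_ (sq_lintegral_rho_mul_le b hGm x)
        gcongr
        exact enorm_moll_le b h x
    _ = ∫⁻ y, ∫⁻ x, ENNReal.ofReal (rho b (x - y)) * ‖h y‖ₑ ^ 2 := by
        rw [lintegral_lintegral_swap]
        have m1 : AEMeasurable (fun z : E n × E n => ENNReal.ofReal (rho b (z.1 - z.2)))
            (volume.prod volume) := (ENNReal.measurable_ofReal.comp
            ((rho_contDiff b).continuous.comp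
            (continuous_fst.sub continuous_snd)).measurable).aemeasurable
        have m2 : AEMeasurable (fun z : E n × E n => ‖h z.2‖ₑ ^ 2) (volume.prod volume) :=
          (hGm.pow_const 2).comp_snd
        exact m1.mul m2
    _ = ∫⁻ y, ‖h y‖ₑ ^ 2 := by
        refine lintegral_congr fun y => ?_
        rw [lintegral_mul_const]
        · rw [lintegral_sub_right_eq_self (fun x => ENNReal.ofReal (rho b x)) y, rho_lintegral,
            one_mul]
        · exact ENNReal.measurable_ofReal.comp ((rho_contDiff b).continuous.comp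
            (continuous_id.sub continuous_const)).measurable

lemma eLpNorm_moll_le {h : E n → F} (hh : AEStronglyMeasurable h volume) :
    eLpNorm (moll b h) 2 volume ≤ eLpNorm h 2 volume := by
  rw [eLpNorm_eq_lintegral_rpow_enorm_toReal (by norm_num) (by norm_num),
    eLpNorm_eq_lintegral_rpow_enorm_toReal (by norm_num) (by norm_num)]
  gcongr ?_ ^ _
  have := lintegral_moll_le b hh
  simp only [ENNReal.toReal_ofNat, ENNReal.rpow_ofNat]
  exact this

lemma moll_contDiff {h : E n → F} (hh : LocallyIntegrable h volume) :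
    ContDiff ℝ ∞ (moll b h) :=
  (rho_compact b).contDiff_convolution_left _ (rho_contDiff b) hh

lemma moll_sub {h k : E n → F} (hh : LocallyIntegrable h volume)
    (hk : LocallyIntegrable k volume) : moll b (h - k) = moll b h - moll b k := by
  have e1 : ∀ x, Integrable (fun y => rho b (x - y) • h y) := fun x =>
    hh.integrable_smul_left_of_hasCompactSupport
      ((rho_contDiff b).continuous.comp (continuous_const.sub continuous_id))
      ((rho_compact b).comp_homeomorph (Homeomorph.subLeft x))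
  have e2 : ∀ x, Integrable (fun y => rho b (x - y) • k y) := fun x =>
    hk.integrable_smul_left_of_hasCompactSupport
      ((rho_contDiff b).continuous.comp (continuous_const.sub continuous_id))
      ((rho_compact b).comp_homeomorph (Homeomorph.subLeft x))
  funext x
  rw [Pi.sub_apply, moll_eq, moll_eq, moll_eq, ← integral_sub (e1 x) (e2 x)]
  simp only [Pi.sub_apply, smul_sub]

end Young

/-- the full operator -/
noncomputable def op (b : ContDiffBump (0 : E n)) (c : E n) (t : ℝ) (f : E n → F) : E n → F :=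
  moll b (f ∘ hom c t)

lemma op_sub (b : ContDiffBump (0 : E n)) (c : E n) {t : ℝ} (ht : 0 < t) {f g : E n → F}
    (hf : MemLp f 2 volume) (hg : MemLp g 2 volume) :
    op b c t (f - g) = op b c t f - op b c t g := by
  unfold op
  rw [← moll_sub b ((memLp_hom c ht hf).locallyIntegrable (by norm_num))
    ((memLp_hom c ht hg).locallyIntegrable (by norm_num))]
  rfl

lemma eLpNorm_op_le (b : ContDiffBump (0 : E n)) (c : E n) {t : ℝ} (ht : 1 / 2 ≤ t)
    {f : E n → F} (hf : MemLp f 2 volume) :
    eLpNorm (op b c t f) 2 volume ≤ KK n * eLpNorm f 2 volume :=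
  (eLpNorm_moll_le b (memLp_hom c (by linarith) hf).1).trans (eLpNorm_hom_le c ht hf)

/-- uniform convergence on the ball for continuous functions with compact support -/
lemma op_unif [CompleteSpace F] {g : E n → F} (hg : Continuous g) (hgc : HasCompactSupport g) (c : E n) {R : ℝ}
    (hR : 0 < R) {δ : ℝ} (hδ : 0 < δ) :
    ∃ η : ℝ, 0 < η ∧ ∀ (t : ℝ) (b : ContDiffBump (0 : E n)), 1 - η < t → t < 1 → b.rOut < η →
      ∀ x ∈ Metric.ball c R, ‖op b c t g x - g x‖ ≤ δ := by
  obtain ⟨r, hr, hr'⟩ := Metric.uniformContinuous_iff.mp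
    (hgc.uniformContinuous_of_continuous hg) δ hδ
  refine ⟨min 1 (r / (R + 3)), by positivity, fun t b ht1 ht2 hb x hx => ?_⟩
  have hη1 : 1 - t < r / (R + 3) := by
    have := min_le_right 1 (r / (R + 3)); linarith
  have hη2 : b.rOut < r / (R + 3) := lt_of_lt_of_le hb (min_le_right _ _)
  have hη3 : b.rOut < 1 := lt_of_lt_of_le hb (min_le_left _ _)
  rw [← dist_eq_norm]
  refine dist_convolution_le hδ.le (R := b.rOut) ?_ (rho_nonneg b) b.integral_normed ?_ ?_
  · rw [rho, b.support_normed_eq]
  · exact (hg.comp (hom_cont c t)).aestronglyMeasurable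
  · intro y hy
    refine (hr' ?_).le
    rw [dist_eq_norm]
    have e1 : hom c t y - x = (y - x) - (1 - t) • (y - c) := by
      unfold hom
      rw [sub_smul, one_smul, smul_sub]
      abel
    rw [e1]
    have hyx : ‖y - x‖ < b.rOut := by rwa [Metric.mem_ball, dist_eq_norm] at hy
    have hxc : ‖x - c‖ < R := by rwa [Metric.mem_ball, dist_eq_norm] at hx
    have hyc : ‖y - c‖ ≤ R + 1 := by
      calc ‖y - c‖ = ‖(y - x) + (x - c)‖ := by rw [sub_add_sub_cancel]
        _ ≤ ‖y - x‖ + ‖x - c‖ := norm_add_le _ _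
        _ ≤ R + 1 := by linarith
    calc ‖(y - x) - (1 - t) • (y - c)‖ ≤ ‖y - x‖ + ‖(1 - t) • (y - c)‖ := norm_sub_le _ _
      _ = ‖y - x‖ + (1 - t) * ‖y - c‖ := by
          rw [norm_smul, Real.norm_of_nonneg (by linarith)]
      _ ≤ r / (R + 3) + r / (R + 3) * (R + 1) := by
          have : (1 - t) * ‖y - c‖ ≤ r / (R + 3) * (R + 1) := by
            apply mul_le_mul hη1.le hyc (norm_nonneg _) (by positivity)
          linarith
      _ = r * ((R + 2) / (R + 3)) := by field_simp; ring
      _ < r * 1 := by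
          apply mul_lt_mul_of_pos_left _ hr
          rw [div_lt_one (by linarith)]
          linarith
      _ = r := mul_one r

/-- `L²` convergence on the ball. -/
lemma op_conv [CompleteSpace F] {f : E n → F} (hf : MemLp f 2 volume) (c : E n) {R : ℝ}
    (hR : 0 < R) {δ : ℝ≥0∞} (hδ : δ ≠ 0) :
    ∃ η : ℝ, 0 < η ∧ ∀ (t : ℝ) (b : ContDiffBump (0 : E n)), 1 - η < t → t < 1 → b.rOut < η →
      eLpNorm (op b c t f - f) 2 (volume.restrict (Metric.ball c R)) ≤ δ := by
  set B := Metric.ball c R with hB
  have hV : (volume.restrict B) univ ≠ ⊤ := by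
    rw [Measure.restrict_apply_univ]
    exact measure_ball_lt_top.ne
  set V : ℝ≥0∞ := (volume.restrict B) univ ^ (ENNReal.toReal 2)⁻¹ with hVdef
  have hVt : V ≠ ⊤ := ENNReal.rpow_ne_top_of_nonneg (by norm_num) hV
  set d : ℝ≥0∞ := min δ 1 / 3 with hd
  have hd0 : d ≠ 0 := by
    rw [hd]
    simp [hδ]
  have hdt : d ≠ ⊤ := by
    rw [hd]
    exact ENNReal.div_ne_top (ne_top_of_le_ne_top ENNReal.one_ne_top (min_le_right _ _))
      (by norm_num)
  have hd3 : d + d + d ≤ δ := by
    have : d + d + d = min δ 1 := by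
      rw [hd]
      exact ENNReal.add_thirds _
    rw [this]
    exact min_le_left _ _
  have hK0 : KK n + 1 ≠ 0 := by simp
  have hKt : KK n + 1 ≠ ⊤ := by simp [KK_ne_top]
  have hV0 : V + 1 ≠ 0 := by simp
  have hVt' : V + 1 ≠ ⊤ := by simp [hVt]
  obtain ⟨g, hg1, hg2, hg3, hg4⟩ := hf.exists_hasCompactSupport_eLpNorm_sub_le (by norm_num)
    (ε := d / (KK n + 1)) (by simp [hd0, hKt])
  have hq0 : d / (V + 1) ≠ 0 := by simp [hd0, hVt']
  have hqt : d / (V + 1) ≠ ⊤ := ENNReal.div_ne_top hdt hV0
  obtain ⟨η, hη, H⟩ := op_unif hg3 hg1 c hR (δ := (d / (V + 1)).toReal)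
    (ENNReal.toReal_pos hq0 hqt)
  refine ⟨min η (1 / 2), by positivity, fun t b ht1 ht2 hb => ?_⟩
  have ht3 : 1 - η < t := by linarith [min_le_left η (1 / 2)]
  have ht4 : 1 / 2 ≤ t := by linarith [min_le_right η (1 / 2)]
  have ht0 : 0 < t := by linarith
  have hb' : b.rOut < η := lt_of_lt_of_le hb (min_le_left _ _)
  have hfg : MemLp (f - g) 2 volume := hf.sub hg4
  have e1 : op b c t f - f = (op b c t (f - g) + (op b c t g - g)) + (g - f) := by
    rw [op_sub b c ht0 hf hg4]
    abel
  have m1 : AEStronglyMeasurable (op b c t (f - g)) (volume.restrict B) :=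
    (moll_contDiff b ((memLp_hom c ht0 hfg).locallyIntegrable
      (by norm_num))).continuous.aestronglyMeasurable
  have m2 : AEStronglyMeasurable (op b c t g - g) (volume.restrict B) :=
    ((moll_contDiff b ((memLp_hom c ht0 hg4).locallyIntegrable
      (by norm_num))).continuous.sub hg3).aestronglyMeasurable
  have m3 : AEStronglyMeasurable (g - f) (volume.restrict B) :=
    (hg4.1.sub hf.1).restrict
  have b1 : eLpNorm (op b c t (f - g)) 2 (volume.restrict B) ≤ d := by
    refine (eLpNorm_mono_measure _ Measure.restrict_le_self).trans ?_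
    refine (eLpNorm_op_le b c ht4 hfg).trans ?_
    calc KK n * eLpNorm (f - g) 2 volume ≤ (KK n + 1) * (d / (KK n + 1)) :=
          mul_le_mul' le_self_add hg2
      _ = d := ENNReal.mul_div_cancel hK0 hKt
  have b2 : eLpNorm (op b c t g - g) 2 (volume.restrict B) ≤ d := by
    have hb2 : ∀ᵐ x ∂(volume.restrict B), ‖(op b c t g - g) x‖ ≤ (d / (V + 1)).toReal := by
      refine (ae_restrict_iff' measurableSet_ball).mpr (Eventually.of_forall fun x hx => ?_)
      exact H t b ht3 ht2 hb' x hx
    refine (eLpNorm_le_of_ae_bound hb2).trans ?_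
    rw [ENNReal.ofReal_toReal hqt]
    calc V * (d / (V + 1)) ≤ (V + 1) * (d / (V + 1)) := mul_le_mul' le_self_add le_rfl
      _ = d := ENNReal.mul_div_cancel hV0 hVt'
  have b3 : eLpNorm (g - f) 2 (volume.restrict B) ≤ d := by
    refine (eLpNorm_mono_measure _ Measure.restrict_le_self).trans ?_
    rw [eLpNorm_sub_comm]
    refine hg2.trans ?_
    refine ENNReal.div_le_of_le_mul ?_
    calc d = d * 1 := (mul_one d).symm
      _ ≤ d * (KK n + 1) := mul_le_mul' le_rfl le_add_self
  rw [e1]
  calc eLpNorm ((op b c t (f - g) + (op b c t g - g)) + (g - f)) 2 (volume.restrict B)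
      ≤ eLpNorm (op b c t (f - g) + (op b c t g - g)) 2 (volume.restrict B)
        + eLpNorm (g - f) 2 (volume.restrict B) :=
        eLpNorm_add_le (m1.add m2) m3 (by norm_num)
    _ ≤ (eLpNorm (op b c t (f - g)) 2 (volume.restrict B)
        + eLpNorm (op b c t g - g) 2 (volume.restrict B))
        + eLpNorm (g - f) 2 (volume.restrict B) := by
        gcongr
        exact eLpNorm_add_le m1 m2 (by norm_num)
    _ ≤ (d + d) + d := by gcongr
    _ ≤ δ := hd3

/-- An `L²` bound gives a bound for the integral of the square. -/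
lemma integral_sq_le {μ : Measure (E n)} {f : E n → F} (hf : MemLp f 2 μ) {δ : ℝ} (hδ : 0 ≤ δ)
    (h : eLpNorm f 2 μ ≤ ENNReal.ofReal δ) : ∫ x, ‖f x‖ ^ 2 ∂μ ≤ δ ^ 2 := by
  rw [hf.eLpNorm_eq_integral_rpow_norm (by norm_num) (by norm_num)] at h
  simp only [ENNReal.toReal_ofNat, Real.rpow_ofNat] at h
  have h0 : 0 ≤ ∫ x, ‖f x‖ ^ 2 ∂μ := integral_nonneg fun x => by positivity
  have h1 := (ENNReal.ofReal_le_ofReal_iff hδ).mp h
  calc ∫ x, ‖f x‖ ^ 2 ∂μ = ((∫ x, ‖f x‖ ^ 2 ∂μ) ^ (2⁻¹ : ℝ)) ^ 2 := by
        rw [← Real.rpow_natCast, ← Real.rpow_mul h0]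
        norm_num
    _ ≤ δ ^ 2 := by
        have : 0 ≤ (∫ x, ‖f x‖ ^ 2 ∂μ) ^ (2⁻¹ : ℝ) := Real.rpow_nonneg h0 _
        gcongr

/-- The gradient of the regularisation. -/
lemma fderiv_op (b : ContDiffBump (0 : E n)) (c : E n) {R : ℝ} (hR : 0 < R) {t : ℝ} (ht : 0 < t)
    (ht1 : t < 1) (hb : t * b.rOut ≤ R * (1 - t)) {u : E n → ℝ} {G : E n → E n}
    (hu0 : MemLp u 2 (volume.restrict (Metric.ball c R)))
    (hG0 : MemLp G 2 (volume.restrict (Metric.ball c R)))
    (hw : IsWeakGrad (Metric.ball c R) u G) (x : E n)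
    (hx : x ∈ Metric.ball c R) (v : E n) :
    fderiv ℝ (op b c t ((Metric.ball c R).indicator u)) x v =
      t * inner ℝ (op b c t ((Metric.ball c R).indicator G) x) v := by
  set B := Metric.ball c R with hB
  have hBm : MeasurableSet B := measurableSet_ball
  set ρ := rho b with hρ
  have hρs : ContDiff ℝ ∞ ρ := rho_contDiff b
  have hρc : HasCompactSupport ρ := rho_compact b
  have hu : MemLp (B.indicator u) 2 volume :=
    (memLp_indicator_iff_restrict hBm).mpr hu0
  have hG : MemLp (B.indicator G) 2 volume :=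
    (memLp_indicator_iff_restrict hBm).mpr hG0
  have hul : LocallyIntegrable (B.indicator u ∘ hom c t) volume :=
    (memLp_hom c ht hu).locallyIntegrable (by norm_num)
  have hGl : LocallyIntegrable (B.indicator G ∘ hom c t) volume :=
    (memLp_hom c ht hG).locallyIntegrable (by norm_num)
  -- the test function
  set ψ : E n → ℝ := fun w => ρ (x - hom c t⁻¹ w) with hψ
  have hhs : ContDiff ℝ ∞ (hom c t⁻¹) := by
    unfold hom
    exact (contDiff_id.const_smul _).add contDiff_const
  have hψs : ContDiff ℝ ∞ ψ := hρs.comp (contDiff_const.sub hhs)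
  have hxc : ‖x - c‖ < R := by rwa [hB, Metric.mem_ball, dist_eq_norm] at hx
  have hψ0 : ∀ w, ψ w ≠ 0 → w ∈ Metric.closedBall c (t * (‖x - c‖ + b.rOut)) := by
    intro w hw
    have h1 : x - hom c t⁻¹ w ∈ Function.support ρ := hw
    rw [hρ, rho, b.support_normed_eq, mem_ball_zero_iff] at h1
    have h2 : t⁻¹ • (w - c) = (x - c) - (x - hom c t⁻¹ w) := by
      rw [← hom_sub]
      abel
    have h3 : t⁻¹ * ‖w - c‖ ≤ ‖x - c‖ + b.rOut := by
      calc t⁻¹ * ‖w - c‖ = ‖t⁻¹ • (w - c)‖ := by
            rw [norm_smul, Real.norm_of_nonneg (inv_nonneg.mpr ht.le)]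
        _ = ‖(x - c) - (x - hom c t⁻¹ w)‖ := by rw [h2]
        _ ≤ ‖x - c‖ + ‖x - hom c t⁻¹ w‖ := norm_sub_le _ _
        _ ≤ ‖x - c‖ + b.rOut := by linarith
    rw [Metric.mem_closedBall, dist_eq_norm]
    calc ‖w - c‖ = t * (t⁻¹ * ‖w - c‖) := by field_simp
      _ ≤ t * (‖x - c‖ + b.rOut) := by gcongr
  have hψt : tsupport ψ ⊆ Metric.closedBall c (t * (‖x - c‖ + b.rOut)) :=
    closure_minimal (fun w hw => hψ0 w hw) Metric.isClosed_closedBall
  have hlt : t * (‖x - c‖ + b.rOut) < R := by nlinarith
  have hψB : tsupport ψ ⊆ B := hψt.trans (Metric.closedBall_subset_ball hlt)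
  have hψc : HasCompactSupport ψ :=
    HasCompactSupport.of_support_subset_isCompact (isCompact_closedBall c _)
      (subset_closure.trans hψt)
  have hψd : ∀ w, fderiv ℝ ψ w v = - t⁻¹ * fderiv ℝ ρ (x - hom c t⁻¹ w) v := by
    intro w
    have h1 : HasFDerivAt ρ (fderiv ℝ ρ (x - hom c t⁻¹ w)) (x - hom c t⁻¹ w) :=
      (hρs.differentiable (by simp)).differentiableAt.hasFDerivAt
    have h2 : HasFDerivAt (fun w : E n => x - hom c t⁻¹ w)
        (-(t⁻¹ • ContinuousLinearMap.id ℝ (E n))) w := by
      have h3 : HasFDerivAt (hom c t⁻¹) (t⁻¹ • ContinuousLinearMap.id ℝ (E n)) w := by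
        unfold hom
        exact ((hasFDerivAt_id w).const_smul t⁻¹).add_const _
      exact h3.const_sub x
    have h3 := h1.comp w h2
    have h4 : fderiv ℝ ψ w = (fderiv ℝ ρ (x - hom c t⁻¹ w)).comp
        (-(t⁻¹ • ContinuousLinearMap.id ℝ (E n))) := h3.fderiv
    rw [h4]
    simp
  have hweak := hw ψ hψs hψc hψB v
  -- left side
  have h := hρc.hasFDerivAt_convolution_left (ContinuousLinearMap.lsmul ℝ ℝ)
    (hρs.of_le (by simp)) hul x
  have hf1 : fderiv ℝ (op b c t (B.indicator u)) x =
    (fderiv ℝ ρ ⋆[(ContinuousLinearMap.lsmul ℝ ℝ).precompL (E n), volume]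
      (B.indicator u ∘ hom c t)) x := h.fderiv
  have hex : ConvolutionExistsAt (fderiv ℝ ρ) (B.indicator u ∘ hom c t) x
      ((ContinuousLinearMap.lsmul ℝ ℝ : ℝ →L[ℝ] ℝ →L[ℝ] ℝ).precompL (E n)) volume :=
    (hρc.fderiv ℝ).convolutionExists_left _ (hρs.continuous_fderiv (by simp)) hul x
  rw [hf1, convolution_eq_swap, ContinuousLinearMap.integral_apply hex.integrable_swap]
  have e1 : ∀ y, (((ContinuousLinearMap.lsmul ℝ ℝ : ℝ →L[ℝ] ℝ →L[ℝ] ℝ).precompL (E n))
      (fderiv ℝ ρ (x - y)) ((B.indicator u ∘ hom c t) y)) v =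
      (fun w => -t * (B.indicator (fun w => u w * fderiv ℝ ψ w v)) w)
        (hom c t y) := by
    intro y
    rw [ContinuousLinearMap.precompL_apply]
    simp only [Function.comp, ContinuousLinearMap.lsmul_apply, smul_eq_mul]
    by_cases hy : hom c t y ∈ B
    · rw [indicator_of_mem hy, indicator_of_mem hy, hψd, hom_inv c ht]
      field_simp
    · rw [indicator_of_notMem hy, indicator_of_notMem hy]
      simp
  rw [integral_congr_ae (Eventually.of_forall e1),
    integral_hom c ht (fun w => -t * (B.indicator (fun w => u w * fderiv ℝ ψ w v)) w),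
    integral_const_mul, integral_indicator hBm, hweak]
  -- right side
  have hint : Integrable (fun y => ρ (x - y) • (B.indicator G ∘ hom c t) y) :=
    hGl.integrable_smul_left_of_hasCompactSupport
      (hρs.continuous.comp (continuous_const.sub continuous_id))
      (hρc.comp_homeomorph (Homeomorph.subLeft x))
  have e2 : inner ℝ (op b c t (B.indicator G) x) v =
      ∫ y, inner ℝ (ρ (x - y) • (B.indicator G ∘ hom c t) y) v := by
    rw [op, moll_eq, real_inner_comm, ← integral_inner hint]
    simp_rw [real_inner_comm v]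
  have e3 : ∀ y, inner ℝ (ρ (x - y) • (B.indicator G ∘ hom c t) y) v =
      (fun w => (B.indicator (fun w => inner ℝ (G w) v * ψ w)) w)
        (hom c t y) := by
    intro y
    simp only [Function.comp]
    rw [real_inner_smul_left]
    by_cases hy : hom c t y ∈ B
    · rw [indicator_of_mem hy, indicator_of_mem hy]
      simp only [hψ]
      rw [hom_inv c ht]
      ring
    · rw [indicator_of_notMem hy, indicator_of_notMem hy]
      simp
  rw [e2, integral_congr_ae (Eventually.of_forall e3),
    integral_hom c ht (fun w => (B.indicator (fun w => inner ℝ (G w) v * ψ w)) w),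
    integral_indicator hBm]
  simp only [smul_eq_mul]
  ring

end DensAux

open DensAux in
/-- Smooth functions are dense in `H¹` of a ball. -/
theorem dens {n : ℕ} {R : ℝ} (hR : 0 < R) (c : E n) (p : H1 (Metric.ball c R)) {ε : ℝ}
    (hε : 0 < ε) :
    ∃ φ : E n → ℝ, ContDiff ℝ ∞ φ ∧ HasCompactSupport φ ∧
      ∫ x in Metric.ball c R, (p.1.1 x - φ x) ^ 2 < ε ∧
      ∫ x in Metric.ball c R, ‖p.1.2 x - ∇ φ x‖ ^ 2 < ε := by
  obtain ⟨⟨pu, pG⟩, hp⟩ := p
  simp only
  have hu0 : MemLp (pu : E n → ℝ) 2 (volume.restrict (Metric.ball c R)) := Lp.memLp pu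
  have hG0 : MemLp (pG : E n → E n) 2 (volume.restrict (Metric.ball c R)) := Lp.memLp pG
  have hw : IsWeakGrad (Metric.ball c R) (pu : E n → ℝ) (pG : E n → E n) := hp
  generalize (pu : E n → ℝ) = u at *
  generalize (pG : E n → E n) = G at *
  clear hp
  have hBm : MeasurableSet (Metric.ball c R) := measurableSet_ball
  have hu : MemLp ((Metric.ball c R).indicator u) 2 volume :=
    (memLp_indicator_iff_restrict hBm).mpr hu0
  have hG : MemLp ((Metric.ball c R).indicator G) 2 volume :=
    (memLp_indicator_iff_restrict hBm).mpr hG0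
  set δ : ℝ := Real.sqrt (ε / 2) with hδ
  have hδ0 : 0 < δ := by positivity
  have hδε : δ ^ 2 < ε := by
    rw [hδ, Real.sq_sqrt (by positivity)]
    linarith
  obtain ⟨η1, hη1, H1⟩ := op_conv hu c hR (δ := ENNReal.ofReal δ) (by simp [hδ0])
  obtain ⟨η2, hη2, H2⟩ := op_conv hG c hR (δ := ENNReal.ofReal (δ / 2)) (by simp [hδ0])
  -- the norm of `G`
  set NG : ℝ := (eLpNorm ((Metric.ball c R).indicator G) 2 volume).toReal with hNG
  have hNG0 : 0 ≤ NG := ENNReal.toReal_nonneg
  set η : ℝ := min (min η1 η2) (min (1 / 2) (δ / 2 / (NG + 1))) with hη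
  have hηpos : 0 < η := by positivity
  have hηa : η ≤ η1 := (min_le_left _ _).trans (min_le_left _ _)
  have hηb : η ≤ η2 := (min_le_left _ _).trans (min_le_right _ _)
  have hηc : η ≤ 1 / 2 := (min_le_right _ _).trans (min_le_left _ _)
  have hηd : η ≤ δ / 2 / (NG + 1) := (min_le_right _ _).trans (min_le_right _ _)
  set t : ℝ := 1 - η / 2 with ht
  have ht1 : t < 1 := by linarith
  have ht0 : 0 < t := by linarith
  have ht2 : 1 - η < t := by linarith
  -- the bump
  set r : ℝ := min (η / 2) (R * (1 - t)) with hr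
  have hr0 : 0 < r := by
    have : 0 < R * (1 - t) := mul_pos hR (by linarith)
    positivity
  let b : ContDiffBump (0 : E n) := ⟨r / 2, r, by positivity, by linarith⟩
  have hb1 : b.rOut < η := by
    have : r ≤ η / 2 := min_le_left _ _
    change r < η
    linarith
  have hb2 : t * b.rOut ≤ R * (1 - t) := by
    have h1 : r ≤ R * (1 - t) := min_le_right _ _
    change t * r ≤ R * (1 - t)
    nlinarith
  have hops : ContDiff ℝ ∞ (op b c t ((Metric.ball c R).indicator u)) :=
    moll_contDiff b ((memLp_hom c ht0 hu).locallyIntegrable (by norm_num))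
  have hopc : HasCompactSupport (op b c t ((Metric.ball c R).indicator u)) := by
    refine HasCompactSupport.convolution _ (rho_compact b) ?_
    refine HasCompactSupport.of_support_subset_isCompact (isCompact_closedBall c (R / t)) ?_
    intro y hy
    have h1 : hom c t y ∈ Metric.ball c R := by
      by_contra h
      exact hy (indicator_of_notMem h _)
    rw [Metric.mem_ball, dist_eq_norm, hom_sub, norm_smul, Real.norm_of_nonneg ht0.le] at h1
    rw [Metric.mem_closedBall, dist_eq_norm, le_div_iff₀ ht0]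
    linarith
  refine ⟨op b c t ((Metric.ball c R).indicator u), ?_, ?_, ?_, ?_⟩
  · exact moll_contDiff b ((memLp_hom c ht0 hu).locallyIntegrable (by norm_num))
  · exact hopc
  · have m1 : MemLp (op b c t ((Metric.ball c R).indicator u) - (Metric.ball c R).indicator u) 2
        (volume.restrict (Metric.ball c R)) :=
      ((hops.continuous.memLp_of_hasCompactSupport hopc).sub hu).restrict _
    have h1 := integral_sq_le m1 hδ0.le (H1 t b (by linarith) ht1 (by linarith))
    refine lt_of_le_of_lt (le_of_eq ?_) (lt_of_le_of_lt h1 hδε)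
    refine setIntegral_congr_fun hBm fun x hx => ?_
    simp only [Pi.sub_apply]
    rw [indicator_of_mem hx, Real.norm_eq_abs, sq_abs]
    ring
  · have mo : MemLp (op b c t ((Metric.ball c R).indicator G)) 2
        (volume.restrict (Metric.ball c R)) := by
      refine ⟨(moll_contDiff b ((memLp_hom c ht0 hG).locallyIntegrable
        (by norm_num))).continuous.aestronglyMeasurable, ?_⟩
      refine lt_of_le_of_lt (eLpNorm_mono_measure _ Measure.restrict_le_self) ?_
      refine lt_of_le_of_lt (eLpNorm_op_le b c (by linarith) hG) ?_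
      exact ENNReal.mul_lt_top (KK_ne_top n).lt_top hG.2
    have mG : MemLp ((Metric.ball c R).indicator G) 2 (volume.restrict (Metric.ball c R)) :=
      hG.restrict _
    have m1 : MemLp (op b c t ((Metric.ball c R).indicator G) - (Metric.ball c R).indicator G) 2
        (volume.restrict (Metric.ball c R)) := mo.sub mG
    set k : E n → E n := t • (op b c t ((Metric.ball c R).indicator G)
      - (Metric.ball c R).indicator G) - (1 - t) • (Metric.ball c R).indicator G with hk
    have mk : MemLp k 2 (volume.restrict (Metric.ball c R)) :=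
      (m1.const_smul t).sub (mG.const_smul (1 - t))
    have hkb : eLpNorm k 2 (volume.restrict (Metric.ball c R)) ≤ ENNReal.ofReal δ := by
      calc eLpNorm k 2 (volume.restrict (Metric.ball c R))
          ≤ eLpNorm (t • (op b c t ((Metric.ball c R).indicator G)
              - (Metric.ball c R).indicator G)) 2 (volume.restrict (Metric.ball c R))
            + eLpNorm ((1 - t) • (Metric.ball c R).indicator G) 2
              (volume.restrict (Metric.ball c R)) :=
            eLpNorm_sub_le (m1.const_smul t).1 (mG.const_smul (1 - t)).1 (by norm_num)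
        _ = ENNReal.ofReal t * eLpNorm (op b c t ((Metric.ball c R).indicator G)
              - (Metric.ball c R).indicator G) 2 (volume.restrict (Metric.ball c R))
            + ENNReal.ofReal (1 - t) * eLpNorm ((Metric.ball c R).indicator G) 2
              (volume.restrict (Metric.ball c R)) := by
            rw [eLpNorm_const_smul, eLpNorm_const_smul, Real.enorm_of_nonneg ht0.le,
              Real.enorm_of_nonneg (by linarith)]
        _ ≤ 1 * ENNReal.ofReal (δ / 2) + ENNReal.ofReal (1 - t) * ENNReal.ofReal NG := by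
            gcongr
            · rw [← ENNReal.ofReal_one]
              exact ENNReal.ofReal_le_ofReal ht1.le
            · exact H2 t b (by linarith) ht1 (by linarith)
            · rw [hNG, ENNReal.ofReal_toReal hG.2.ne]
              exact eLpNorm_mono_measure _ Measure.restrict_le_self
        _ = ENNReal.ofReal (δ / 2 + (1 - t) * NG) := by
            rw [one_mul, ← ENNReal.ofReal_mul (by linarith), ENNReal.ofReal_add (by positivity)
              (mul_nonneg (by linarith) hNG0)]
        _ ≤ ENNReal.ofReal δ := by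
            apply ENNReal.ofReal_le_ofReal
            have h1 : (1 - t) * NG ≤ δ / 2 := by
              calc (1 - t) * NG ≤ (δ / 2 / (NG + 1)) * (NG + 1) := by
                    apply mul_le_mul (by linarith) (by linarith) hNG0 (by positivity)
                _ = δ / 2 := by field_simp
            linarith
    have h1 := integral_sq_le mk hδ0.le hkb
    refine lt_of_le_of_lt (le_of_eq ?_) (lt_of_le_of_lt h1 hδε)
    refine setIntegral_congr_fun hBm fun x hx => ?_
    have hgrad : ∇ (op b c t ((Metric.ball c R).indicator u)) x =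
        t • op b c t ((Metric.ball c R).indicator G) x := by
      refine ext_inner_right ℝ fun v => ?_
      rw [gradient, InnerProductSpace.toDual_symm_apply, real_inner_smul_left]
      exact fderiv_op b c hR ht0 ht1 hb2 hu0 hG0 hw x hx v
    simp only [hk]
    rw [hgrad, ← norm_neg]
    congr 2
    simp only [Pi.sub_apply, Pi.smul_apply]
    rw [indicator_of_mem hx]
    module

end Pool.Agent.NE
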