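import Pool.Agent.NE.BallP
import Pool.Agent.NE.Dens
import Pool.Agent.NE.Basic

set_option autoImplicit false

open MeasureTheory Set
open scoped ENNReal ContDiff Gradient

namespace Pool.Agent.NE

lemma bh_norm_sq {α F : Type*} [MeasurableSpace α] [NormedAddCommGroup F] [InnerProductSpace ℝ F]
    {m : Measure α} (u : Lp F 2 m) : ‖u‖ ^ 2 = ∫ x, ‖u x‖ ^ 2 ∂m := by
  rw [← real_inner_self_eq_norm_sq, L2.inner_def]
  exact integral_congr_ae (Filter.Eventually.of_forall fun x => real_inner_self_eq_norm_sq _)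

/-- Sharp Poincare inequality in `H¹` of the ball. -/
lemma bh_poincare {n : ℕ} (hn : 1 ≤ n) {R μ : ℝ} {g dg : ℝ → ℝ} (hg : IsProfile n R μ g dg)
    (c : E n) (e : H1 (Metric.ball c R))
    (he : ∀ᵐ x ∂(volume.restrict (Metric.ball c R)), (e.1.1 : E n → ℝ) x = 1)
    (p : H1 (Metric.ball c R)) (hp : inner ℝ e.1.1 p.1.1 = 0) :
    μ * ‖p.1.1‖ ^ 2 ≤ ‖p.1.2‖ ^ 2 := by
  have happ : ∀ k : ℕ, ∃ (f : Lp ℝ 2 (volume.restrict (Metric.ball c R))) (G : Lp (E n) 2 (volume.restrict (Metric.ball c R))),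
      ‖p.1.1 - f‖ ^ 2 < 1 / ((k : ℝ) + 1) ∧ ‖p.1.2 - G‖ ^ 2 < 1 / ((k : ℝ) + 1) ∧
      μ * (‖f‖ ^ 2 - (inner ℝ e.1.1 f) ^ 2 / volume.real (Metric.ball c R)) ≤ ‖G‖ ^ 2 := by
    intro k
    obtain ⟨φ, h1, h2, h3, h4⟩ := dens hg.R_pos c p (ε := 1 / ((k : ℝ) + 1)) (by positivity)
    have hgc : Continuous (∇ φ) := by
      unfold gradient
      exact (LinearIsometryEquiv.continuous _).comp (h1.continuous_fderiv (by simp))
    have hgs : HasCompactSupport (∇ φ) := by
      have := h2.fderiv (𝕜 := ℝ)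
      unfold gradient
      exact this.comp_left (g := (InnerProductSpace.toDual ℝ (E n)).symm) (by simp)
    have hf : MemLp φ 2 (volume.restrict (Metric.ball c R)) := (h1.continuous.memLp_of_hasCompactSupport h2).restrict (Metric.ball c R)
    have hG : MemLp (∇ φ) 2 (volume.restrict (Metric.ball c R)) := (hgc.memLp_of_hasCompactSupport hgs).restrict (Metric.ball c R)
    have hf2 := hf.coeFn_toLp
    have hG2 := hG.coeFn_toLp
    refine ⟨hf.toLp φ, hG.toLp (∇ φ), ?_, ?_, ?_⟩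
    · rw [bh_norm_sq]
      refine lt_of_eq_of_lt (integral_congr_ae ?_) h3
      filter_upwards [Lp.coeFn_sub p.1.1 (hf.toLp φ), hf2] with x hx hx2
      rw [hx, Pi.sub_apply, hx2, Real.norm_eq_abs, sq_abs]
    · rw [bh_norm_sq]
      refine lt_of_eq_of_lt (integral_congr_ae ?_) h4
      filter_upwards [Lp.coeFn_sub p.1.2 (hG.toLp (∇ φ)), hG2] with x hx hx2
      rw [hx, Pi.sub_apply, hx2]
    · have hP := ballP hn hg c φ h1
      have e1 : ‖hf.toLp φ‖ ^ 2 = ∫ x in Metric.ball c R, φ x ^ 2 := by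
        rw [bh_norm_sq]
        refine integral_congr_ae ?_
        filter_upwards [hf2] with x hx2
        rw [hx2, Real.norm_eq_abs, sq_abs]
      have e2 : ‖hG.toLp (∇ φ)‖ ^ 2 = ∫ x in Metric.ball c R, ‖∇ φ x‖ ^ 2 := by
        rw [bh_norm_sq]
        refine integral_congr_ae ?_
        filter_upwards [hG2] with x hx2
        rw [hx2]
      have e3 : inner ℝ e.1.1 (hf.toLp φ) = ∫ x in Metric.ball c R, φ x := by
        rw [L2.inner_def]
        refine integral_congr_ae ?_
        filter_upwards [hf2, he] with x hx2 hx3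
        rw [hx2, hx3]
        simp
      rw [e1, e2, e3]
      exact hP
  choose f G hf hG hfG using happ
  have hlim0 : Filter.Tendsto (fun k : ℕ => 1 / ((k : ℝ) + 1)) Filter.atTop (nhds 0) :=
    tendsto_one_div_add_atTop_nhds_zero_nat
  have sq0 : ∀ {Z : Type} [NormedAddCommGroup Z] (x : Z) (y : ℕ → Z),
      (∀ k, ‖x - y k‖ ^ 2 < 1 / ((k : ℝ) + 1)) → Filter.Tendsto y Filter.atTop (nhds x) := by
    intro Z _ x y h
    rw [tendsto_iff_norm_sub_tendsto_zero]
    have h1 : Filter.Tendsto (fun k => ‖x - y k‖ ^ 2) Filter.atTop (nhds 0) :=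
      squeeze_zero (fun k => by positivity) (fun k => (h k).le) hlim0
    have h2 := h1.sqrt
    simp only [Real.sqrt_zero] at h2
    refine h2.congr fun k => ?_
    rw [Real.sqrt_sq (norm_nonneg _), norm_sub_rev]
  have hft := sq0 p.1.1 f hf
  have hGt := sq0 p.1.2 G hG
  have hL : Filter.Tendsto (fun k => μ * (‖f k‖ ^ 2 - (inner ℝ e.1.1 (f k)) ^ 2 / volume.real (Metric.ball c R)))
      Filter.atTop (nhds (μ * (‖p.1.1‖ ^ 2 - (inner ℝ e.1.1 p.1.1) ^ 2 / volume.real (Metric.ball c R)))) := by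
    apply Filter.Tendsto.const_mul
    apply Filter.Tendsto.sub
    · exact (hft.norm).pow 2
    · apply Filter.Tendsto.div_const
      exact (Filter.Tendsto.inner tendsto_const_nhds hft).pow 2
  have hR : Filter.Tendsto (fun k => ‖G k‖ ^ 2) Filter.atTop (nhds (‖p.1.2‖ ^ 2)) :=
    hGt.norm.pow 2
  have := le_of_tendsto_of_tendsto' hL hR hfG
  rw [hp] at this
  simpa using this

/-- The first nonzero Neumann eigenvalue of a ball is at least the number `μ` of the profile. -/
theorem ball_h1 {n : ℕ} (hn : 1 ≤ n) {R μ : ℝ} {g dg : ℝ → ℝ} (hg : IsProfile n R μ g dg)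
    (c : E n) : ENNReal.ofReal μ ≤ neumann (Metric.ball c R) 1 := by
  obtain ⟨e, -, he⟩ := exists_one (Ω := Metric.ball c R) measure_ball_lt_top.ne
  unfold neumann
  refine le_iInf₂ fun V hV => ?_
  -- a nonzero element of `V` with mean zero
  let F : H1 (Metric.ball c R) →ₗ[ℝ] ℝ :=
    { toFun := fun p => inner ℝ e.1.1 p.1.1
      map_add' := fun p q => by
        change inner ℝ e.1.1 (p.1.1 + q.1.1) = _
        rw [inner_add_right]
      map_smul' := fun t p => by
        change inner ℝ e.1.1 (t • p.1.1) = _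
        rw [inner_smul_right]; simp }
  have hfd : FiniteDimensional ℝ V := FiniteDimensional.of_finrank_pos (by omega)
  have hker : LinearMap.ker (F.domRestrict V) ≠ ⊥ := by
    intro hbot
    have h1 := LinearMap.finrank_range_add_finrank_ker (K := ℝ) (V := V) (V₂ := ℝ) (F.domRestrict V)
    rw [hbot, finrank_bot, hV] at h1
    have h2 : Module.finrank ℝ (LinearMap.range (F.domRestrict V)) ≤ Module.finrank ℝ ℝ :=
      Submodule.finrank_le _
    rw [Module.finrank_self] at h2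
    omega
  obtain ⟨q, hq, hq0⟩ := Submodule.exists_mem_ne_zero_of_ne_bot hker
  have hq1 : inner ℝ e.1.1 q.1.1.1 = 0 := hq
  have hqne : q.1 ≠ 0 := fun h => hq0 (Subtype.ext h)
  refine le_trans ?_ (le_iSup₂_of_le q.1 q.2 (le_iSup_of_le hqne le_rfl))
  apply ENNReal.ofReal_le_ofReal
  have hne : q.1.1.1 ≠ 0 := fun h => hqne (H1_eq_zero Metric.isOpen_ball q.1 h)
  have hpos : 0 < ‖q.1.1.1‖ ^ 2 := by
    have := norm_pos_iff.2 hne
    positivity
  rw [le_div_iff₀ hpos]
  exact bh_poincare hn hg c e he q.1 hq1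

end Pool.Agent.NE
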