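import Pool.Agent.NE.OneR

set_option autoImplicit false

open MeasureTheory Set
open scoped ENNReal ContDiff Topology

namespace Pool.Agent.NE

namespace BallPAux

section core

variable {S : Type*} [TopologicalSpace S] [CompactSpace S] [MeasurableSpace S] [BorelSpace S]
  [SecondCountableTopology S] {σ : Measure S} [IsFiniteMeasure σ]

omit [MeasurableSpace S] [BorelSpace S] [SecondCountableTopology S] in
lemma bdd (F : ℝ → S → ℝ) (hF : Continuous (Function.uncurry F)) (a b : ℝ) :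
    ∃ C, 0 ≤ C ∧ ∀ r ∈ Icc a b, ∀ θ, |F r θ| ≤ C := by
  obtain ⟨C, hC⟩ := (isCompact_Icc.prod isCompact_univ : IsCompact (Icc a b ×ˢ (univ : Set S)))
    |>.exists_bound_of_continuousOn hF.continuousOn
  refine ⟨max C 0, le_max_right _ _, fun r hr θ => ?_⟩
  exact (hC (r, θ) ⟨hr, mem_univ _⟩).trans (le_max_left _ _)

lemma cont_slice (F : ℝ → S → ℝ) (hF : Continuous (Function.uncurry F)) (r : ℝ) :
    Continuous (F r) := hF.comp (by fun_prop : Continuous fun θ : S => (r, θ))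

lemma integrable_slice (F : ℝ → S → ℝ) (hF : Continuous (Function.uncurry F)) (r : ℝ) :
    Integrable (F r) σ := by
  obtain ⟨C, -, hC⟩ := bdd F hF r r
  exact Integrable.of_bound (cont_slice F hF r).aestronglyMeasurable C
    (Filter.Eventually.of_forall fun θ => hC r ⟨le_refl _, le_refl _⟩ θ)

lemma cont_int (F : ℝ → S → ℝ) (hF : Continuous (Function.uncurry F)) :
    Continuous (fun r => ∫ θ, F r θ ∂σ) := by
  have := continuous_parametric_integral_of_continuous (μ := σ) hF (isCompact_univ)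
  simpa using this

lemma deriv_int (F D : ℝ → S → ℝ) (hF : Continuous (Function.uncurry F))
    (hD : Continuous (Function.uncurry D)) (h : ∀ r θ, HasDerivAt (fun r => F r θ) (D r θ) r)
    (r : ℝ) : HasDerivAt (fun r => ∫ θ, F r θ ∂σ) (∫ θ, D r θ ∂σ) r := by
  obtain ⟨C, -, hC⟩ := bdd D hD (r - 1) (r + 1)
  exact (hasDerivAt_integral_of_dominated_loc_of_deriv_le (F := F) (F' := D) (bound := fun _ => C)
    (s := Icc (r - 1) (r + 1)) (Icc_mem_nhds (by linarith) (by linarith))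
    (Filter.Eventually.of_forall fun x => (cont_slice F hF x).aestronglyMeasurable)
    (integrable_slice F hF r) (cont_slice D hD r).aestronglyMeasurable
    (Filter.Eventually.of_forall fun θ x hx => hC x hx θ) (integrable_const _)
    (Filter.Eventually.of_forall fun θ x _ => h x θ)).2

lemma integrable_prod (F : ℝ → S → ℝ) (hF : Measurable (Function.uncurry F)) {R C : ℝ}
    (hR : 0 ≤ R) (hC : ∀ r ∈ Ioc 0 R, ∀ θ, |F r θ| ≤ C) :
    Integrable (Function.uncurry F) ((volume.restrict (uIoc 0 R)).prod σ) := by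
  rw [uIoc_of_le hR]
  have : IsFiniteMeasure (volume.restrict (Ioc 0 R)) := ⟨by simp⟩
  refine Integrable.of_bound hF.aestronglyMeasurable C ?_
  have h1 : ∀ᵐ r ∂(volume.restrict (Ioc 0 R)), r ∈ Ioc 0 R := ae_restrict_mem measurableSet_Ioc
  have h2 : ∀ᵐ z ∂((volume.restrict (Ioc 0 R)).prod σ), z.1 ∈ Ioc 0 R :=
    Measure.quasiMeasurePreserving_fst.ae h1
  filter_upwards [h2] with z hz
  exact hC z.1 hz z.2

lemma int_sq_sub_mean (f : S → ℝ) (hf : Continuous f) (hσ : 0 < σ.real univ) :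
    ∫ θ, (f θ - (∫ θ, f θ ∂σ) / σ.real univ) ^ 2 ∂σ =
      ∫ θ, f θ ^ 2 ∂σ - (∫ θ, f θ ∂σ) ^ 2 / σ.real univ := by
  have i1 : Integrable f σ := integrable_slice (fun _ => f) (by fun_prop) 0
  have i2 : Integrable (fun θ => f θ ^ 2) σ := integrable_slice (fun _ θ => f θ ^ 2)
    (by fun_prop) 0
  set m := (∫ θ, f θ ∂σ) / σ.real univ with hm
  have e : ∀ θ, (f θ - m) ^ 2 = f θ ^ 2 - (2 * m) * f θ + m ^ 2 := fun θ => by ring
  simp only [e]
  have h1 : Integrable (fun θ => f θ ^ 2 - (2 * m) * f θ) σ := i2.sub (i1.const_mul _)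
  rw [integral_add h1 (integrable_const _),
    integral_sub i2 (i1.const_mul _), integral_const_mul, integral_const, smul_eq_mul]
  rw [hm]
  field_simp
  ring

theorem core {n : ℕ} (hn : 1 ≤ n) {R μ : ℝ} {g dg : ℝ → ℝ}
    (h : CapProfile n 0 (fun r => r) (fun _ => 1) R μ g dg) (hσ : 0 < σ.real univ)
    (Φ D Q : ℝ → S → ℝ) (hΦ : Continuous (Function.uncurry Φ))
    (hD : Continuous (Function.uncurry D)) (hQ : Continuous (Function.uncurry Q))
    (hd : ∀ r θ, HasDerivAt (fun r => Φ r θ) (D r θ) r) (c₀ : ℝ) (h0 : ∀ θ, Φ 0 θ = c₀)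
    (hs : ∀ r, 0 < r → (n - 1 : ℝ) * (∫ θ, Φ r θ ^ 2 ∂σ - (∫ θ, Φ r θ ∂σ) ^ 2 / σ.real univ) ≤
      r ^ 2 * ∫ θ, (Q r θ - D r θ ^ 2) ∂σ) :
    μ * ((∫ r in (0 : ℝ)..R, (∫ θ, Φ r θ ^ 2 ∂σ) * r ^ (n - 1)) -
      (∫ r in (0 : ℝ)..R, (∫ θ, Φ r θ ∂σ) * r ^ (n - 1)) ^ 2 /
        (∫ r in (0 : ℝ)..R, σ.real univ * r ^ (n - 1))) ≤
      ∫ r in (0 : ℝ)..R, (∫ θ, Q r θ ∂σ) * r ^ (n - 1) := by
  have hR := h.R_pos
  set s := σ.real univ with hsdef
  have hn1 : (0 : ℝ) ≤ n - 1 := by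
    have : (1 : ℝ) ≤ n := by exact_mod_cast hn
    linarith
  -- the spherical means
  set Pb : ℝ → ℝ := fun r => (∫ θ, Φ r θ ∂σ) / s with hPb
  set dPb : ℝ → ℝ := fun r => (∫ θ, D r θ ∂σ) / s with hdPb
  have cPb : Continuous Pb := (cont_int Φ hΦ).div_const _
  have cdPb : Continuous dPb := (cont_int D hD).div_const _
  have dPbd : ∀ r, HasDerivAt Pb (dPb r) r := fun r => (deriv_int Φ D hΦ hD hd r).div_const _
  set ψ : ℝ → S → ℝ := fun r θ => Φ r θ - Pb r with hψ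
  set δ : ℝ → S → ℝ := fun r θ => D r θ - dPb r with hδ
  have cψ : Continuous (Function.uncurry ψ) := hΦ.sub (cPb.comp continuous_fst)
  have cδ : Continuous (Function.uncurry δ) := hD.sub (cdPb.comp continuous_fst)
  have ψd : ∀ r θ, HasDerivAt (fun r => ψ r θ) (δ r θ) r := fun r θ => (hd r θ).sub (dPbd r)
  have ψ0 : ∀ θ, ψ 0 θ = 0 := by
    intro θ
    simp only [hψ, hPb, h0]
    rw [integral_const, smul_eq_mul, ← hsdef]
    field_simp
    ring
  -- spherical identities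
  have iψ : ∀ r, ∫ θ, ψ r θ ^ 2 ∂σ = ∫ θ, Φ r θ ^ 2 ∂σ - (∫ θ, Φ r θ ∂σ) ^ 2 / s := fun r =>
    int_sq_sub_mean (Φ r) (cont_slice Φ hΦ r) hσ
  have iδ : ∀ r, ∫ θ, δ r θ ^ 2 ∂σ = ∫ θ, D r θ ^ 2 ∂σ - (∫ θ, D r θ ∂σ) ^ 2 / s := fun r =>
    int_sq_sub_mean (D r) (cont_slice D hD r) hσ
  have cΦ2 : Continuous (Function.uncurry (fun r θ => Φ r θ ^ 2)) := hΦ.pow 2
  have cD2 : Continuous (Function.uncurry (fun r θ => D r θ ^ 2)) := hD.pow 2
  have cψ2 : Continuous (Function.uncurry (fun r θ => ψ r θ ^ 2)) := cψ.pow 2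
  have cδ2 : Continuous (Function.uncurry (fun r θ => δ r θ ^ 2)) := cδ.pow 2
  -- the integrand
  set H : ℝ → S → ℝ := fun r θ => δ r θ ^ 2 + (n - 1) * (ψ r θ / r) ^ 2 with hH
  have mH : Measurable (Function.uncurry H) := by
    have m1 : Measurable (Function.uncurry δ) := cδ.measurable
    have m2 : Measurable (Function.uncurry ψ) := cψ.measurable
    exact (m1.pow_const 2).add (((m2.div measurable_fst).pow_const 2).const_mul _)
  obtain ⟨C, hC0, hC⟩ := bdd δ cδ 0 R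
  have hψC : ∀ r ∈ Ioc 0 R, ∀ θ, |ψ r θ| ≤ C * r := by
    intro r hr θ
    have := Convex.norm_image_sub_le_of_norm_hasDerivWithin_le (f := fun r => ψ r θ)
      (f' := fun r => δ r θ) (C := C) (s := Icc 0 R) (x := 0) (y := r)
      (fun x _ => (ψd x θ).hasDerivWithinAt) (fun x hx => hC x hx θ) (convex_Icc 0 R)
      ⟨le_refl _, hR.le⟩ ⟨hr.1.le, hr.2⟩
    simpa [ψ0, abs_of_pos hr.1] using this
  have hHC : ∀ r ∈ Ioc 0 R, ∀ θ, |H r θ| ≤ C ^ 2 + (n - 1) * C ^ 2 := by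
    intro r hr θ
    have a1 : δ r θ ^ 2 ≤ C ^ 2 := by
      rw [← sq_abs]
      exact pow_le_pow_left₀ (abs_nonneg _) (hC r ⟨hr.1.le, hr.2⟩ θ) 2
    have a2 : (ψ r θ / r) ^ 2 ≤ C ^ 2 := by
      rw [← sq_abs, abs_div, abs_of_pos hr.1]
      refine pow_le_pow_left₀ (by have := hr.1; positivity) ?_ 2
      rw [div_le_iff₀ hr.1]
      exact hψC r hr θ
    have a3 : 0 ≤ H r θ := by
      simp only [hH]
      have := mul_nonneg hn1 (sq_nonneg (ψ r θ / r))
      positivity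
    rw [abs_of_nonneg a3]
    exact add_le_add a1 (mul_le_mul_of_nonneg_left a2 hn1)
  -- pointwise inequality in r
  have key : ∀ r ∈ Ioc 0 R, (∫ θ, H r θ ∂σ) + s * dPb r ^ 2 ≤ ∫ θ, Q r θ ∂σ := by
    intro r hr
    have b1 : ∫ θ, H r θ ∂σ = ∫ θ, δ r θ ^ 2 ∂σ + (n - 1) * (∫ θ, ψ r θ ^ 2 ∂σ) / r ^ 2 := by
      have i2 : Integrable (fun θ => (n - 1 : ℝ) * (ψ r θ / r) ^ 2) σ := by
        have : (fun θ => (n - 1 : ℝ) * (ψ r θ / r) ^ 2) =
            fun θ => ((n - 1 : ℝ) / r ^ 2) * (ψ r θ ^ 2) := by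
          funext θ; rw [div_pow]; ring
        rw [this]
        exact (integrable_slice _ cψ2 r).const_mul _
      simp only [hH]
      rw [integral_add (integrable_slice _ cδ2 r) i2]
      congr 1
      have : (fun θ => (n - 1 : ℝ) * (ψ r θ / r) ^ 2) =
            fun θ => ((n - 1 : ℝ) / r ^ 2) * (ψ r θ ^ 2) := by
          funext θ; rw [div_pow]; ring
      rw [this, integral_const_mul]
      ring
    have b2 : ∫ θ, (Q r θ - D r θ ^ 2) ∂σ = ∫ θ, Q r θ ∂σ - ∫ θ, D r θ ^ 2 ∂σ :=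
      integral_sub (integrable_slice _ hQ r) (integrable_slice _ cD2 r)
    have b3 := hs r hr.1
    rw [← iψ, b2] at b3
    have b4 : (n - 1 : ℝ) * (∫ θ, ψ r θ ^ 2 ∂σ) / r ^ 2 ≤
        ∫ θ, Q r θ ∂σ - ∫ θ, D r θ ^ 2 ∂σ := by
      rw [div_le_iff₀ (by have := hr.1; positivity)]
      linarith
    have b5 : s * dPb r ^ 2 = (∫ θ, D r θ ∂σ) ^ 2 / s := by
      simp only [hdPb]
      field_simp
    rw [b1, iδ r, b5]
    linarith
  -- Fubini for H
  set H' : ℝ → S → ℝ := fun r θ => H r θ * r ^ (n - 1) with hH'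
  have mH' : Measurable (Function.uncurry H') := mH.mul (measurable_fst.pow_const _)
  have hH'C : ∀ r ∈ Ioc 0 R, ∀ θ, |H' r θ| ≤ (C ^ 2 + (n - 1) * C ^ 2) * R ^ (n - 1) := by
    intro r hr θ
    simp only [hH']
    rw [abs_mul, abs_of_nonneg (pow_nonneg hr.1.le _)]
    exact mul_le_mul (hHC r hr θ) (pow_le_pow_left₀ hr.1.le hr.2 _) (pow_nonneg hr.1.le _)
      ((abs_nonneg _).trans (hHC r hr θ))
  have iH' := integrable_prod (σ := σ) H' mH' hR.le hH'C
  have fub1 : ∫ r in (0 : ℝ)..R, (∫ θ, H r θ ∂σ) * r ^ (n - 1) =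
      ∫ θ, (∫ r in (0 : ℝ)..R, H r θ * r ^ (n - 1)) ∂σ := by
    rw [← intervalIntegral_integral_swap iH']
    simp only [hH', integral_mul_const]
  set G : ℝ → S → ℝ := fun r θ => ψ r θ ^ 2 * r ^ (n - 1) with hG
  have cG : Continuous (Function.uncurry G) := cψ2.mul (continuous_fst.pow _)
  obtain ⟨CG, -, hCG⟩ := bdd G cG 0 R
  have iG := integrable_prod (σ := σ) G cG.measurable hR.le
    (fun r hr θ => hCG r ⟨hr.1.le, hr.2⟩ θ)
  have fub2 : ∫ r in (0 : ℝ)..R, (∫ θ, ψ r θ ^ 2 ∂σ) * r ^ (n - 1) =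
      ∫ θ, (∫ r in (0 : ℝ)..R, ψ r θ ^ 2 * r ^ (n - 1)) ∂σ := by
    rw [← intervalIntegral_integral_swap iG]
    simp only [hG, integral_mul_const]
  -- Hardy on every ray
  have har : ∀ θ, μ * ∫ r in (0 : ℝ)..R, ψ r θ ^ 2 * r ^ (n - 1) ≤
      ∫ r in (0 : ℝ)..R, H r θ * r ^ (n - 1) := by
    intro θ
    have c1 : Continuous (fun r => ψ r θ) := cψ.comp (by fun_prop : Continuous fun r : ℝ => (r, θ))
    have c2 : Continuous (fun r => δ r θ) := cδ.comp (by fun_prop : Continuous fun r : ℝ => (r, θ))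
    exact hardy hn h (fun r => ψ r θ) (fun r => δ r θ) c1.continuousOn (fun r _ => ψd r θ)
      c2.continuousOn (ψ0 θ)
  have e1 : μ * ∫ r in (0 : ℝ)..R, (∫ θ, ψ r θ ^ 2 ∂σ) * r ^ (n - 1) ≤
      ∫ r in (0 : ℝ)..R, (∫ θ, H r θ ∂σ) * r ^ (n - 1) := by
    rw [fub1, fub2, ← integral_const_mul]
    have j1 : Integrable (fun θ => ∫ r in (0 : ℝ)..R, ψ r θ ^ 2 * r ^ (n - 1)) σ := by
      have := iG.integral_prod_right
      simpa [hG, Function.uncurry, uIoc_of_le hR.le, intervalIntegral.integral_of_le hR.le]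
        using this
    have j2 : Integrable (fun θ => ∫ r in (0 : ℝ)..R, H r θ * r ^ (n - 1)) σ := by
      have := iH'.integral_prod_right
      simpa [hH', Function.uncurry, uIoc_of_le hR.le, intervalIntegral.integral_of_le hR.le]
        using this
    exact integral_mono (j1.const_mul μ) j2 har
  -- radial part
  set I0 := ∫ r in (0 : ℝ)..R, r ^ (n - 1) with hI0
  have hI0pos : 0 < I0 := by
    rw [hI0]
    apply intervalIntegral.intervalIntegral_pos_of_pos_on _ _ hR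
    · exact (continuous_id.pow _).intervalIntegrable _ _
    · intro x hx
      exact pow_pos hx.1 _
  set I1 := ∫ r in (0 : ℝ)..R, Pb r * r ^ (n - 1) with hI1
  set I2 := ∫ r in (0 : ℝ)..R, Pb r ^ 2 * r ^ (n - 1) with hI2
  have k0 : IntervalIntegrable (fun r : ℝ => r ^ (n - 1)) volume 0 R :=
    (continuous_id.pow _).intervalIntegrable _ _
  have k1 : IntervalIntegrable (fun r : ℝ => Pb r * r ^ (n - 1)) volume 0 R :=
    (cPb.mul (continuous_id.pow _)).intervalIntegrable _ _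
  have k2 : IntervalIntegrable (fun r : ℝ => Pb r ^ 2 * r ^ (n - 1)) volume 0 R :=
    ((cPb.pow 2).mul (continuous_id.pow _)).intervalIntegrable _ _
  have rad : μ * (I2 - I1 ^ 2 / I0) ≤ ∫ r in (0 : ℝ)..R, dPb r ^ 2 * r ^ (n - 1) := by
    have z : ∫ r in (0 : ℝ)..R, (Pb r - I1 / I0) * r ^ (n - 1) = 0 := by
      have : ∀ r : ℝ, (Pb r - I1 / I0) * r ^ (n - 1) =
        Pb r * r ^ (n - 1) - (I1 / I0) * r ^ (n - 1) := fun r => by ring
      simp only [this]
      rw [intervalIntegral.integral_sub k1 (k0.const_mul _),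
        intervalIntegral.integral_const_mul, ← hI0, ← hI1]
      field_simp
      ring
    have := radial hn h (fun r => Pb r - I1 / I0) dPb (cPb.sub continuous_const).continuousOn
      (fun r _ => by simpa using (dPbd r).sub_const (I1 / I0)) cdPb.continuousOn z
    refine le_trans (le_of_eq ?_) this
    congr 1
    have e : ∀ r : ℝ, (Pb r - I1 / I0) ^ 2 * r ^ (n - 1) =
        Pb r ^ 2 * r ^ (n - 1) - (2 * (I1 / I0)) * (Pb r * r ^ (n - 1)) +
          (I1 / I0) ^ 2 * r ^ (n - 1) := fun r => by ring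
    simp only [e]
    rw [intervalIntegral.integral_add (k2.sub (k1.const_mul _)) (k0.const_mul _),
      intervalIntegral.integral_sub k2 (k1.const_mul _),
      intervalIntegral.integral_const_mul, intervalIntegral.integral_const_mul,
      ← hI0, ← hI1, ← hI2]
    field_simp
    ring
  -- assemble
  have cH : IntervalIntegrable (fun r => (∫ θ, H r θ ∂σ) * r ^ (n - 1)) volume 0 R := by
    rw [intervalIntegrable_iff_integrableOn_Ioc_of_le hR.le]
    have := iH'.integral_prod_left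
    simpa [hH', Function.uncurry, uIoc_of_le hR.le, integral_mul_const, IntegrableOn] using this
  have cd : IntervalIntegrable (fun r => dPb r ^ 2 * r ^ (n - 1)) volume 0 R :=
    ((cdPb.pow 2).mul (continuous_id.pow _)).intervalIntegrable _ _
  have cQ : IntervalIntegrable (fun r => (∫ θ, Q r θ ∂σ) * r ^ (n - 1)) volume 0 R :=
    ((cont_int Q hQ).mul (continuous_id.pow _)).intervalIntegrable _ _
  have tot : (∫ r in (0 : ℝ)..R, (∫ θ, H r θ ∂σ) * r ^ (n - 1)) +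
      s * (∫ r in (0 : ℝ)..R, dPb r ^ 2 * r ^ (n - 1)) ≤
      ∫ r in (0 : ℝ)..R, (∫ θ, Q r θ ∂σ) * r ^ (n - 1) := by
    rw [← intervalIntegral.integral_const_mul, ← intervalIntegral.integral_add cH (cd.const_mul _)]
    refine intervalIntegral.integral_mono_on_of_le_Ioo hR.le (cH.add (cd.const_mul _)) cQ ?_
    intro r hr
    have h1 := key r ⟨hr.1, hr.2.le⟩
    have h2 : (0 : ℝ) ≤ r ^ (n - 1) := pow_nonneg hr.1.le _
    have h3 := mul_le_mul_of_nonneg_right h1 h2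
    linarith
  have f1 : ∫ r in (0 : ℝ)..R, (∫ θ, ψ r θ ^ 2 ∂σ) * r ^ (n - 1) =
      (∫ r in (0 : ℝ)..R, (∫ θ, Φ r θ ^ 2 ∂σ) * r ^ (n - 1)) - s * I2 := by
    have k3 : IntervalIntegrable (fun r : ℝ => (∫ θ, Φ r θ ^ 2 ∂σ) * r ^ (n - 1)) volume 0 R :=
      ((cont_int _ cΦ2).mul (continuous_id.pow _)).intervalIntegrable _ _
    rw [hI2, ← intervalIntegral.integral_const_mul,
      ← intervalIntegral.integral_sub k3 (k2.const_mul _)]
    congr 1
    funext r
    rw [iψ]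
    simp only [hPb]
    field_simp
  have f2 : ∫ r in (0 : ℝ)..R, (∫ θ, Φ r θ ∂σ) * r ^ (n - 1) = s * I1 := by
    rw [hI1, ← intervalIntegral.integral_const_mul]
    congr 1
    funext r
    simp only [hPb]
    field_simp
  have f3 : ∫ r in (0 : ℝ)..R, s * r ^ (n - 1) = s * I0 := by
    rw [intervalIntegral.integral_const_mul]
  rw [f2, f3]
  have f4 : (s * I1) ^ 2 / (s * I0) = s * (I1 ^ 2 / I0) := by
    field_simp
  rw [f4]
  rw [f1] at e1
  have f5 := mul_le_mul_of_nonneg_left rad hσ.le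
  linarith

end core

end BallPAux

end Pool.Agent.NE
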