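import Pool.Agent.NE.Tools

set_option autoImplicit false

open MeasureTheory Set
open scoped ENNReal

namespace Pool.Agent.NE

lemma polar_radial (k : ℕ) (g : ℝ → ℝ) :
    ∫ x : Ioi (0 : ℝ), g x.1 ∂(Measure.volumeIoiPow k) = ∫ r in Ioi (0 : ℝ), g r * r ^ k := by
  simp only [Measure.volumeIoiPow, ENNReal.ofReal]
  rw [integral_withDensity_eq_integral_smul,
    integral_subtype_comap measurableSet_Ioi fun a ↦ Real.toNNReal (a ^ k) • g a,
    setIntegral_congr_fun measurableSet_Ioi fun x hx ↦ ?_]
  · rw [NNReal.smul_def, Real.coe_toNNReal _ (pow_nonneg hx.out.le _), smul_eq_mul, mul_comm]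
  · exact (measurable_subtype_coe.pow_const _).real_toNNReal

lemma polar_aux {n : ℕ} (hn : 1 ≤ n) {R : ℝ} (hR : 0 < R) (f : E n → ℝ)
    (hf : ContinuousOn f (Metric.closedBall 0 R)) :
    Integrable (fun p : Metric.sphere (0 : E n) 1 × Ioi (0 : ℝ) =>
        (Metric.ball (0 : E n) R).indicator f (p.2.1 • (p.1 : E n)))
        ((volume : Measure (E n)).toSphere.prod (Measure.volumeIoiPow (n - 1))) ∧
    ∫ x in Metric.ball (0 : E n) R, f x =
      ∫ p : Metric.sphere (0 : E n) 1 × Ioi (0 : ℝ),
        (Metric.ball (0 : E n) R).indicator f (p.2.1 • (p.1 : E n))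
        ∂((volume : Measure (E n)).toSphere.prod (Measure.volumeIoiPow (n - 1))) := by
  haveI : Nonempty (Fin n) := ⟨⟨0, hn⟩⟩
  have hdim : Module.finrank ℝ (E n) = n := by simp
  have hmp := (volume : Measure (E n)).measurePreserving_homeomorphUnitSphereProd
  rw [hdim] at hmp
  have hemb := (Homeomorph.measurableEmbedding (homeomorphUnitSphereProd (E n)))
  set g : E n → ℝ := (Metric.ball (0 : E n) R).indicator f with hg
  have hint : Integrable g := by
    rw [hg, integrable_indicator_iff measurableSet_ball]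
    exact (hf.integrableOn_compact (isCompact_closedBall 0 R)).mono_set Metric.ball_subset_closedBall
  have hkey : ∀ x : ({(0 : E n)}ᶜ : Set (E n)),
      g ((homeomorphUnitSphereProd (E n) x).2.1 • ((homeomorphUnitSphereProd (E n) x).1 : E n))
        = g x.1 := by
    intro x
    have hx : (x.1 : E n) ≠ 0 := x.2
    have hx' : ‖(x.1 : E n)‖ ≠ 0 := norm_ne_zero_iff.2 hx
    congr 1
    simp [smul_smul, hx']
  have hint2 : Integrable (fun x : ({(0 : E n)}ᶜ : Set (E n)) => g x.1)
      ((volume : Measure (E n)).comap (↑)) := by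
    have h1 : IntegrableOn g ({(0 : E n)}ᶜ : Set (E n)) := hint.integrableOn
    have h2 := (integrableOn_iff_comap_subtypeVal (μ := (volume : Measure (E n))) (f := g)
      (measurableSet_singleton (0 : E n)).compl).1 h1
    exact h2
  refine ⟨?_, ?_⟩
  · rw [← hmp.integrable_comp_emb hemb]
    refine hint2.congr (Filter.Eventually.of_forall fun x => ?_)
    exact (hkey x).symm
  · calc ∫ x in Metric.ball (0 : E n) R, f x = ∫ x, g x := by
          rw [hg, integral_indicator measurableSet_ball]
      _ = ∫ x : ({(0 : E n)}ᶜ : Set (E n)), g x.1 ∂((volume : Measure (E n)).comap (↑)) := by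
          rw [integral_subtype_comap (measurableSet_singleton _).compl g,
            restrict_compl_singleton]
      _ = ∫ x : ({(0 : E n)}ᶜ : Set (E n)),
            (fun p : Metric.sphere (0 : E n) 1 × Ioi (0 : ℝ) => g (p.2.1 • (p.1 : E n)))
              (homeomorphUnitSphereProd (E n) x) ∂((volume : Measure (E n)).comap (↑)) := by
          refine integral_congr_ae (Filter.Eventually.of_forall fun x => ?_)
          exact (hkey x).symm
      _ = _ := hmp.integral_comp hemb
            (fun p : Metric.sphere (0 : E n) 1 × Ioi (0 : ℝ) => g (p.2.1 • (p.1 : E n)))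

lemma polar_norm {n : ℕ} (θ : Metric.sphere (0 : E n) 1) {r : ℝ} (hr : 0 < r) :
    ‖r • (θ : E n)‖ = r := by
  have h : ‖(θ : E n)‖ = 1 := by simpa using θ.2
  rw [norm_smul, h, Real.norm_of_nonneg hr.le, mul_one]

lemma polar_ind {n : ℕ} {R : ℝ} (hR : 0 < R) (h : ℝ → ℝ) :
    ∫ r in Ioi (0 : ℝ), (Iio R).indicator h r = ∫ r in (0 : ℝ)..R, h r := by
  rw [intervalIntegral.integral_of_le hR.le, integral_indicator measurableSet_Iio,
    Measure.restrict_restrict measurableSet_Iio, integral_Ioc_eq_integral_Ioo]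
  congr 2
  ext x
  simp [and_comm]

/-- Polar coordinates on a ball. -/
theorem polar_ball {n : ℕ} (hn : 1 ≤ n) {R : ℝ} (hR : 0 < R) (f : E n → ℝ)
    (hf : ContinuousOn f (Metric.closedBall 0 R)) :
    ∫ x in Metric.ball (0 : E n) R, f x =
      ∫ θ : Metric.sphere (0 : E n) 1, (∫ r in (0 : ℝ)..R, f (r • (θ : E n)) * r ^ (n - 1))
        ∂(volume : Measure (E n)).toSphere := by
  obtain ⟨h1, h2⟩ := polar_aux hn hR f hf
  rw [h2, integral_prod _ h1]
  refine integral_congr_ae (Filter.Eventually.of_forall fun θ => ?_)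
  simp only
  rw [polar_radial (n - 1) (fun r => (Metric.ball (0 : E n) R).indicator f (r • (θ : E n))),
    ← polar_ind (n := n) hR]
  refine setIntegral_congr_fun measurableSet_Ioi fun r hr => ?_
  have hr' : 0 < r := hr
  by_cases hrR : r < R
  · have hm : r • (θ : E n) ∈ Metric.ball (0 : E n) R := by
      rw [mem_ball_zero_iff, polar_norm θ hr']; exact hrR
    simp [indicator_of_mem hm, indicator_of_mem (show r ∈ Iio R from hrR)]
  · have hm : r • (θ : E n) ∉ Metric.ball (0 : E n) R := by
      rw [mem_ball_zero_iff, polar_norm θ hr']; exact hrR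
    simp [indicator_of_notMem hm, indicator_of_notMem (show r ∉ Iio R from hrR)]

/-- Polar coordinates on a ball, the other order of integration. -/
theorem polar_ball' {n : ℕ} (hn : 1 ≤ n) {R : ℝ} (hR : 0 < R) (f : E n → ℝ)
    (hf : ContinuousOn f (Metric.closedBall 0 R)) :
    ∫ x in Metric.ball (0 : E n) R, f x =
      ∫ r in (0 : ℝ)..R, (∫ θ : Metric.sphere (0 : E n) 1, f (r • (θ : E n))
        ∂(volume : Measure (E n)).toSphere) * r ^ (n - 1) := by
  obtain ⟨h1, h2⟩ := polar_aux hn hR f hf
  rw [h2, integral_prod_symm _ h1]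
  rw [polar_radial (n - 1) (fun r => ∫ θ : Metric.sphere (0 : E n) 1,
    (Metric.ball (0 : E n) R).indicator f (r • (θ : E n)) ∂(volume : Measure (E n)).toSphere),
    ← polar_ind (n := n) hR]
  refine setIntegral_congr_fun measurableSet_Ioi fun r hr => ?_
  have hr' : 0 < r := hr
  by_cases hrR : r < R
  · have hm : ∀ θ : Metric.sphere (0 : E n) 1, r • (θ : E n) ∈ Metric.ball (0 : E n) R := by
      intro θ
      rw [mem_ball_zero_iff, polar_norm θ hr']; exact hrR
    have he : (fun θ : Metric.sphere (0 : E n) 1 =>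
        (Metric.ball (0 : E n) R).indicator f (r • (θ : E n))) =
        fun θ : Metric.sphere (0 : E n) 1 => f (r • (θ : E n)) := by
      funext θ
      exact indicator_of_mem (hm θ) f
    simp only [he, indicator_of_mem (show r ∈ Iio R from hrR)]
  · have hm : ∀ θ : Metric.sphere (0 : E n) 1, r • (θ : E n) ∉ Metric.ball (0 : E n) R := by
      intro θ
      rw [mem_ball_zero_iff, polar_norm θ hr']; exact hrR
    have he : (fun θ : Metric.sphere (0 : E n) 1 =>
        (Metric.ball (0 : E n) R).indicator f (r • (θ : E n))) = fun _ => 0 := by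
      funext θ
      exact indicator_of_notMem (hm θ) f
    simp [he, indicator_of_notMem (show r ∉ Iio R from hrR)]

end Pool.Agent.NE
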