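import Pool.Agent.NE.SphP
import Pool.Agent.NE.Polar
import Pool.Agent.NE.BallPAux

set_option autoImplicit false

open MeasureTheory Set
open scoped ENNReal ContDiff Gradient

namespace Pool.Agent.NE

namespace BallPAux

lemma continuous_gradient {n : ℕ} (φ : E n → ℝ) (hφ : ContDiff ℝ ∞ φ) : Continuous (∇ φ) := by
  have h1 : Continuous (fderiv ℝ φ) := hφ.continuous_fderiv (by simp)
  exact (InnerProductSpace.toDual ℝ (E n)).symm.continuous.comp h1

lemma gradient_comp {n : ℕ} (φ : E n → ℝ) (hφ : ContDiff ℝ ∞ φ) (c : E n) (r : ℝ) (x : E n) :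
    ∇ (fun x => φ (r • x + c)) x = r • ∇ φ (r • x + c) := by
  have h1 : DifferentiableAt ℝ φ (r • x + c) := hφ.differentiable (by simp) _
  have h2 : HasFDerivAt (fun x : E n => r • x + c) (r • ContinuousLinearMap.id ℝ (E n)) x :=
    ((hasFDerivAt_id x).const_smul r).add_const c
  have h3 := h1.hasFDerivAt.comp x h2
  have h4 : fderiv ℝ (fun x => φ (r • x + c)) x = r • fderiv ℝ φ (r • x + c) := by
    rw [show (fun x => φ (r • x + c)) = φ ∘ (fun x : E n => r • x + c) from rfl, h3.fderiv]
    ext v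
    simp
  simp only [gradient]
  rw [h4, map_smul]

lemma hasDerivAt_ray {n : ℕ} (φ : E n → ℝ) (hφ : ContDiff ℝ ∞ φ) (c θ : E n) (r : ℝ) :
    HasDerivAt (fun r : ℝ => φ (r • θ + c)) (inner ℝ (∇ φ (r • θ + c)) θ) r := by
  have h1 : DifferentiableAt ℝ φ (r • θ + c) := hφ.differentiable (by simp) _
  have h2 : HasDerivAt (fun r : ℝ => r • θ + c) θ r := by
    have := ((hasDerivAt_id r).smul_const θ).add_const c
    simpa using this
  have h3 := h1.hasFDerivAt.comp_hasDerivAt r h2
  have h4 : fderiv ℝ φ (r • θ + c) θ = inner ℝ (∇ φ (r • θ + c)) θ := by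
    simp [gradient]
  rw [← h4]
  exact h3

end BallPAux

open BallPAux

/-- Sharp Poincare inequality on a ball for smooth functions. -/
theorem ballP {n : ℕ} (hn : 1 ≤ n) {R μ : ℝ} {g dg : ℝ → ℝ} (hg : IsProfile n R μ g dg) (c : E n)
    (φ : E n → ℝ) (hφ : ContDiff ℝ ∞ φ) :
    μ * ((∫ x in Metric.ball c R, φ x ^ 2) -
        (∫ x in Metric.ball c R, φ x) ^ 2 / volume.real (Metric.ball c R)) ≤
      ∫ x in Metric.ball c R, ‖∇ φ x‖ ^ 2 := by
  have hR := hg.R_pos
  have : Nonempty (Fin n) := ⟨⟨0, hn⟩⟩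
  have : Nontrivial (E n) := inferInstance
  set σ := (volume : Measure (E n)).toSphere with hσdef
  have hσ : 0 < σ.real univ := by
    rw [measureReal_def, ENNReal.toReal_pos_iff]
    refine ⟨?_, measure_lt_top _ _⟩
    rw [pos_iff_ne_zero, ne_eq, Measure.measure_univ_eq_zero]
    exact Measure.toSphere_ne_zero _
  -- translation
  have tr : ∀ F : E n → ℝ, ∫ x in Metric.ball c R, F x = ∫ x in Metric.ball (0 : E n) R, F (x + c) := by
    intro F
    have := (measurePreserving_add_right (volume : Measure (E n)) c).setIntegral_preimage_emb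
      (measurableEmbedding_addRight c) F (Metric.ball c R)
    rw [← this]
    congr 2
    ext x
    simp [dist_eq_norm]
  have hgc := continuous_gradient φ hφ
  have hφc := hφ.continuous
  have cF : Continuous (fun x => φ (x + c)) := by fun_prop
  have cF2 : Continuous (fun x => φ (x + c) ^ 2) := by fun_prop
  have cG : Continuous (fun x => ‖∇ φ (x + c)‖ ^ 2) :=
    ((hgc.comp (continuous_id.add continuous_const)).norm).pow 2
  have p1 := polar_ball' hn hR _ cF.continuousOn
  have p2 := polar_ball' hn hR _ cF2.continuousOn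
  have p3 := polar_ball' hn hR _ cG.continuousOn
  have p0 := polar_ball' (n := n) hn hR (fun _ => (1 : ℝ)) continuousOn_const
  have v0 : volume.real (Metric.ball c R) = ∫ r in (0 : ℝ)..R, σ.real univ * r ^ (n - 1) := by
    have : volume.real (Metric.ball c R) = ∫ _x in Metric.ball c R, (1 : ℝ) := by
      simp
    rw [this, tr, p0]
    simp [hσdef]
  rw [tr (fun x => φ x ^ 2), tr φ, tr (fun x => ‖∇ φ x‖ ^ 2), p1, p2, p3, v0]
  have cpt : Continuous (fun z : ℝ × Metric.sphere (0 : E n) 1 => z.1 • (z.2 : E n) + c) := by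
    fun_prop
  refine core (σ := σ) hn hg.cap hσ (fun r θ => φ (r • (θ : E n) + c))
    (fun r θ => inner ℝ (∇ φ (r • (θ : E n) + c)) (θ : E n))
    (fun r θ => ‖∇ φ (r • (θ : E n) + c)‖ ^ 2) (hφc.comp cpt)
    ((hgc.comp cpt).inner (continuous_subtype_val.comp continuous_snd))
    (((hgc.comp cpt).norm).pow 2) (fun r θ => hasDerivAt_ray φ hφ c θ r) (φ c)
    (fun θ => by simp) ?_
  intro r hr
  have hfr : ContDiff ℝ ∞ (fun x : E n => φ (r • x + c)) :=
    hφ.comp ((contDiff_const_smul r).add contDiff_const)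
  have h1 := sphP hn (fun x : E n => φ (r • x + c)) hfr
  simp only [gradient_comp φ hφ c r] at h1
  refine h1.trans (le_of_eq ?_)
  rw [← integral_const_mul]
  congr 1
  funext θ
  rw [norm_smul, inner_smul_left, mul_pow, Real.norm_eq_abs, sq_abs]
  simp only [conj_trivial]
  ring

end Pool.Agent.NE
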