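import Pool.Agent.NE.Defs

set_option autoImplicit false

open MeasureTheory Set
open scoped ENNReal ContDiff

namespace Pool.Agent.NE

/-- The radial vector field `G(y) = g(|y|) y / |y|`. -/
noncomputable def Gf {n : ℕ} (g : ℝ → ℝ) (y : E n) : E n := (g ‖y‖ / ‖y‖) • y

/-- The fold along the hyperplane `⟨p, x⟩ = q` onto the half space `⟨p, x⟩ ≥ q` (identity if
`p = 0`, since then we divide by zero). -/
noncomputable def fold {n : ℕ} (p : E n) (q : ℝ) (x : E n) : E n :=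
  x + (2 * max (q - inner ℝ p x) 0 / ‖p‖ ^ 2) • p

/-- The density `|∇⟨G, ξ⟩|²` at the point `y`. -/
noncomputable def qa {n : ℕ} (g dg : ℝ → ℝ) (y ξ : E n) : ℝ :=
  dg ‖y‖ ^ 2 * (inner ℝ y ξ / ‖y‖) ^ 2 +
    (g ‖y‖ / ‖y‖) ^ 2 * (‖ξ‖ ^ 2 - (inner ℝ y ξ / ‖y‖) ^ 2)

/-- Bilinear form of a matrix. -/
def bf {n : ℕ} (A : Matrix (Fin n) (Fin n) ℝ) (ξ η : E n) : ℝ := ∑ i, ∑ j, A i j * ξ i * η j

/-- One-dimensional profile on `[0, R]` for the warping function `s` (`s = r` for Euclidean space,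
`s = sin r` for the sphere, `c = s'`, `κ = 0` or `1`). -/
structure CapProfile (n : ℕ) (κ : ℝ) (s c : ℝ → ℝ) (R μ : ℝ) (g dg : ℝ → ℝ) : Prop where
  R_pos : 0 < R
  κ_nonneg : 0 ≤ κ
  s_zero : s 0 = 0
  c_zero : c 0 = 1
  s_deriv : ∀ r, HasDerivAt s (c r) r
  c_deriv : ∀ r, HasDerivAt c (-(κ * s r)) r
  c_pos : ∀ r ∈ Ico 0 R, 0 < c r
  μ_pos : 0 < μ
  μ_ge : n * κ ≤ μ
  g_zero : g 0 = 0
  dg_at_zero : dg 0 = 1
  dg_at_R : dg R = 0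
  g_cont : ContinuousOn g (Icc 0 R)
  dg_cont : ContinuousOn dg (Icc 0 R)
  g_deriv : ∀ r ∈ Ioo 0 R, HasDerivAt g (dg r) r
  ode : ∀ r ∈ Ioo 0 R, HasDerivAt dg
    (-((n - 1 : ℝ) * (c r / s r) * dg r) - (μ - (n - 1) / s r ^ 2) * g r) r
  g_pos : ∀ r ∈ Ioc 0 R, 0 < g r
  dg_pos : ∀ r ∈ Ico 0 R, 0 < dg r
  dg_anti : AntitoneOn dg (Icc 0 R)
  ratio_anti : AntitoneOn (fun r => g r / s r) (Ioc 0 R)

/-- Euclidean profile on `[0, ∞)`, constant after `R`. -/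
structure IsProfile (n : ℕ) (R μ : ℝ) (g dg : ℝ → ℝ) : Prop where
  R_pos : 0 < R
  μ_pos : 0 < μ
  g_zero : g 0 = 0
  g_cont : ContinuousOn g (Ici 0)
  g_deriv : ∀ r, 0 < r → HasDerivAt g (dg r) r
  dg_cont : ContinuousOn dg (Ici 0)
  g_pos : ∀ r, 0 < r → 0 < g r
  g_const : ∀ r, R ≤ r → g r = g R
  dg_zero : ∀ r, R ≤ r → dg r = 0
  dg_nonneg : ∀ r, 0 ≤ r → 0 ≤ dg r
  dg_le_one : ∀ r, 0 ≤ r → dg r ≤ 1
  dg_anti : AntitoneOn dg (Ici 0)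
  ratio_anti : AntitoneOn (fun r => g r / r) (Ioi 0)
  cap : CapProfile n 0 (fun r => r) (fun _ => 1) R μ g dg

/-- Abstract inf-sup values of the pair of forms `‖D u‖²`, `‖ι u‖²`. -/
noncomputable def lam {H X Y : Type*} [AddCommGroup H] [Module ℝ H] [NormedAddCommGroup X]
    [InnerProductSpace ℝ X] [NormedAddCommGroup Y] [InnerProductSpace ℝ Y]
    (ι : H →ₗ[ℝ] X) (D : H →ₗ[ℝ] Y) (k : ℕ) : ℝ≥0∞ :=
  ⨅ (V : Submodule ℝ H) (_ : Module.finrank ℝ V = k + 1),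
    ⨆ (p : H) (_ : p ∈ V) (_ : p ≠ 0), ENNReal.ofReal (‖D p‖ ^ 2 / ‖ι p‖ ^ 2)

end Pool.Agent.NE
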