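import Pool.Agent.NE.DefsE
import Pool.Agent.NE.Basic
import Pool.Agent.NE.Tools

set_option autoImplicit false

open MeasureTheory Set
open scoped ENNReal ContDiff

namespace Pool.Agent.NE

lemma norm_sq_sum {α F : Type*} [MeasurableSpace α] {m : Measure α} [NormedAddCommGroup F]
    [InnerProductSpace ℝ F] {k : ℕ} (w : Fin k → Lp F 2 m) (f : Fin k → α → F)
    (hf : ∀ i, (w i : α → F) =ᵐ[m] f i) (a : Fin k → ℝ) :
    ‖∑ i, a i • w i‖ ^ 2 = ∫ x, ‖∑ i, a i • f i x‖ ^ 2 ∂m := by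
  rw [← real_inner_self_eq_norm_sq, L2.inner_def]
  apply integral_congr_ae
  have h1 : ∀ᵐ x ∂m, ∀ i, (a i • w i : Lp F 2 m) x = a i • f i x := by
    rw [ae_all_iff]
    intro i
    filter_upwards [Lp.coeFn_smul (a i) (w i), hf i] with x hx hx'
    rw [hx, Pi.smul_apply, hx']
  have h2 : ((∑ i, a i • w i : Lp F 2 m) : α → F) =ᵐ[m] ∑ i, ((a i • w i : Lp F 2 m) : α → F) :=
    Lp.coeFn_finsetSum _ _
  filter_upwards [h1, h2] with x hx hx'
  have : (∑ i, a i • w i : Lp F 2 m) x = ∑ i, a i • f i x := by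
    rw [hx', Finset.sum_apply]
    exact Finset.sum_congr rfl (fun i _ => hx i)
  rw [this]
  exact real_inner_self_eq_norm_sq _

/-- The inf-sup over tuples of functions equals the inf-sup over subspaces. -/
theorem bridge {α F H : Type*} [MeasurableSpace α] {m : Measure α} [NormedAddCommGroup F]
    [InnerProductSpace ℝ F] [AddCommGroup H] [Module ℝ H] (ι : H →ₗ[ℝ] Lp ℝ 2 m)
    (D : H →ₗ[ℝ] Lp F 2 m) (hinj : Function.Injective ι)
    (W : (α → ℝ) → (α → F) → Prop) (hW : ∀ p : H, W (ι p) (D p))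
    (hex : ∀ (u : α → ℝ) (G : α → F), MemLp u 2 m → MemLp G 2 m → W u G →
      ∃ p : H, (ι p : α → ℝ) =ᵐ[m] u ∧ (D p : α → F) =ᵐ[m] G) (k : ℕ) :
    (⨅ (u : Fin (k + 1) → α → ℝ) (G : Fin (k + 1) → α → F)
      (_ : ∀ i, MemLp (u i) 2 m ∧ MemLp (G i) 2 m ∧ W (u i) (G i))
      (_ : ∀ a : Fin (k + 1) → ℝ, a ≠ 0 → ∫ x, (∑ i, a i * u i x) ^ 2 ∂m ≠ 0),
      ⨆ (a : Fin (k + 1) → ℝ) (_ : a ≠ 0),
        ENNReal.ofReal ((∫ x, ‖∑ i, a i • G i x‖ ^ 2 ∂m) / ∫ x, (∑ i, a i * u i x) ^ 2 ∂m)) =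
    lam ι D k := by
  have hmass : ∀ (w : Fin (k + 1) → Lp ℝ 2 m) (f : Fin (k + 1) → α → ℝ)
      (_ : ∀ i, (w i : α → ℝ) =ᵐ[m] f i) (a : Fin (k + 1) → ℝ),
      ‖∑ i, a i • w i‖ ^ 2 = ∫ x, (∑ i, a i * f i x) ^ 2 ∂m := by
    intro w f hf a
    rw [norm_sq_sum w f hf a]
    simp only [Real.norm_eq_abs, sq_abs, smul_eq_mul]
  have c1 : ∀ (a : Fin (k + 1) → ℝ) (P : Fin (k + 1) → H),
      ι (∑ i, a i • P i) = ∑ i, a i • ι (P i) := by
    intro a P
    simp
  have c2 : ∀ (a : Fin (k + 1) → ℝ) (P : Fin (k + 1) → H),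
      D (∑ i, a i • P i) = ∑ i, a i • D (P i) := by
    intro a P
    simp
  unfold lam
  apply le_antisymm
  · refine le_iInf₂ (fun V hV => ?_)
    have hfin : Module.Finite ℝ V := Module.finite_of_finrank_pos (by omega)
    let b : Module.Basis (Fin (k + 1)) ℝ V := Module.finBasisOfFinrankEq ℝ V hV
    set P : Fin (k + 1) → H := fun i => (b i : H) with hP
    have hli : LinearIndependent ℝ P := by
      have := b.linearIndependent.map' V.subtype (Submodule.ker_subtype V)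
      exact this
    have hne : ∀ a : Fin (k + 1) → ℝ, a ≠ 0 → (∑ i, a i • P i) ≠ 0 := by
      intro a ha h0
      apply ha
      funext i
      exact Fintype.linearIndependent_iff.mp hli a h0 i
    refine iInf₂_le_of_le (fun i => (ι (P i) : α → ℝ)) (fun i => (D (P i) : α → F)) ?_
    refine iInf₂_le_of_le (fun i => ⟨Lp.memLp _, Lp.memLp _, hW _⟩) ?_ ?_
    · intro a ha h0
      rw [← hmass (fun i => ι (P i)) _ (fun i => Filter.EventuallyEq.rfl) a, ← c1] at h0
      have h1 : ‖ι (∑ i, a i • P i)‖ = 0 := by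
        simpa using h0
      apply hne a ha
      apply hinj
      rw [norm_eq_zero.mp h1, map_zero]
    · refine iSup₂_le (fun a ha => ?_)
      rw [← hmass (fun i => ι (P i)) _ (fun i => Filter.EventuallyEq.rfl) a, ← c1,
        ← norm_sq_sum (fun i => D (P i)) _ (fun i => Filter.EventuallyEq.rfl) a, ← c2]
      have hmem : (∑ i, a i • P i) ∈ V :=
        Submodule.sum_mem _ (fun i _ => Submodule.smul_mem _ _ (b i).2)
      exact le_iSup_of_le (∑ i, a i • P i) (le_iSup₂_of_le hmem (hne a ha) le_rfl)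
  · refine le_iInf₂ (fun u G => le_iInf₂ (fun h hind => ?_))
    choose P hP1 hP2 using fun i => hex (u i) (G i) (h i).1 (h i).2.1 (h i).2.2
    have m1 : ∀ a : Fin (k + 1) → ℝ, ‖ι (∑ i, a i • P i)‖ ^ 2 =
        ∫ x, (∑ i, a i * u i x) ^ 2 ∂m := by
      intro a
      rw [c1, hmass _ u hP1 a]
    have m2 : ∀ a : Fin (k + 1) → ℝ, ‖D (∑ i, a i • P i)‖ ^ 2 =
        ∫ x, ‖∑ i, a i • G i x‖ ^ 2 ∂m := by
      intro a
      rw [c2, norm_sq_sum _ G hP2 a]
    have hli : LinearIndependent ℝ P := by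
      rw [Fintype.linearIndependent_iff]
      intro a h0
      by_contra hne
      push Not at hne
      have ha : a ≠ 0 := by
        intro h1
        obtain ⟨i, hi⟩ := hne
        exact hi (by rw [h1]; rfl)
      apply hind a ha
      rw [← m1, h0]
      simp
    refine iInf₂_le_of_le (Submodule.span ℝ (Set.range P)) ?_ ?_
    · rw [finrank_span_eq_card hli, Fintype.card_fin]
    · refine iSup_le (fun p => iSup₂_le (fun hp hp0 => ?_))
      rw [Submodule.mem_span_range_iff_exists_fun] at hp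
      obtain ⟨a, rfl⟩ := hp
      have ha : a ≠ 0 := by
        rintro rfl
        apply hp0
        simp
      rw [m1, m2]
      exact le_iSup₂_of_le a ha le_rfl

theorem neumann_eq_st {n : ℕ} {Ω : Set (E n)} (hΩ : IsOpen Ω) (k : ℕ) :
    St.neumann Ω k = neumann Ω k := by
  have hiff : ∀ (u : E n → ℝ) (G : E n → E n), St.IsWeakGrad Ω u G ↔ IsWeakGrad Ω u G := by
    intro u G
    constructor
    · intro h φ h1 h2 h3 v
      exact h φ ⟨h1, h2, h3⟩ v
    · intro h φ h1 v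
      exact h φ h1.1 h1.2.1 h1.2.2 v
  have hc : ∀ (u u' : E n → ℝ) (G G' : E n → E n), u =ᵐ[volume.restrict Ω] u' →
      G =ᵐ[volume.restrict Ω] G' → IsWeakGrad Ω u G → IsWeakGrad Ω u' G' := by
    intro u u' G G' hu hG h φ h1 h2 h3 v
    have e1 : ∫ x in Ω, u' x * fderiv ℝ φ x v = ∫ x in Ω, u x * fderiv ℝ φ x v := by
      apply integral_congr_ae
      filter_upwards [hu] with x hx
      rw [hx]
    have e2 : ∫ x in Ω, inner ℝ (G' x) v * φ x = ∫ x in Ω, inner ℝ (G x) v * φ x := by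
      apply integral_congr_ae
      filter_upwards [hG] with x hx
      rw [hx]
    rw [e1, e2]
    exact h φ h1 h2 h3 v
  have h1 := bridge (m := volume.restrict Ω) ((LinearMap.fst ℝ _ _).comp (H1 Ω).subtype)
    ((LinearMap.snd ℝ _ _).comp (H1 Ω).subtype)
    ((injective_iff_map_eq_zero _).mpr (fun p hp => H1_eq_zero hΩ p hp))
    (fun u G => St.IsWeakGrad Ω u G)
    (fun p => (hiff _ _).mpr p.2)
    (fun u G hu hG h => ⟨⟨(hu.toLp u, hG.toLp G), hc _ _ _ _ hu.coeFn_toLp.symm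
      hG.coeFn_toLp.symm ((hiff _ _).mp h)⟩, hu.coeFn_toLp, hG.coeFn_toLp⟩) k
  exact h1

end Pool.Agent.NE
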