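import Pool.Agent.NE.SLip

set_option autoImplicit false

open MeasureTheory Set
open scoped ENNReal ContDiff

namespace Pool.Agent.NE

/-- Weak gradients on the sphere are unique. -/
theorem H1S_eq_zero {n : ℕ} {Ω : Set (Sph n)} (hΩ : IsOpen Ω) (p : H1S Ω) (h : p.1.1 = 0) :
    p = 0 := by
  obtain ⟨⟨u, G⟩, hp⟩ := p
  simp only at h
  subst h
  obtain ⟨U, hU, hUΩ⟩ := isOpen_induced_iff.1 hΩ
  have hemb : MeasurableEmbedding (Subtype.val : Sph n → E (n + 1)) :=
    MeasurableEmbedding.subtype_coe Metric.isClosed_sphere.measurableSet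
  set G' : E (n + 1) → E (n + 1) := Function.extend Subtype.val (G : Sph n → E (n + 1)) 0 with hG'
  have hG'x : ∀ x : Sph n, G' (x : E (n + 1)) = (G : Sph n → E (n + 1)) x := fun x =>
    Subtype.val_injective.extend_apply _ _ x
  set ν : Measure (E (n + 1)) := ((surf n).restrict Ω).map Subtype.val with hν
  have hGi : Integrable (G : Sph n → E (n + 1)) ((surf n).restrict Ω) :=
    (Lp.memLp G).integrable (by norm_num)
  have hG'i : Integrable G' ν := by
    rw [hν, hemb.integrable_map_iff]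
    exact hGi.congr (Filter.Eventually.of_forall fun x => (hG'x x).symm)
  have key : ∀ᵐ x ∂ν, x ∈ U → G' x = 0 := by
    refine hU.ae_eq_zero_of_integral_contDiff_smul_eq_zero
      (hG'i.locallyIntegrable.locallyIntegrableOn U) ?_
    intro φ h1 h2 h3
    have hts : tsupport (fun x : Sph n => φ x) ⊆ Ω := by
      refine (tsupport_comp_subset_preimage φ continuous_subtype_val).trans ?_
      rw [← hUΩ]
      exact preimage_mono h3
    have hm : MemLp (fun x : Sph n => φ x) 2 ((surf n).restrict Ω) :=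
      ((h1.continuous.comp continuous_subtype_val).memLp_of_hasCompactSupport
        (HasCompactSupport.of_compactSpace _)).restrict Ω
    have hint : Integrable (fun x : Sph n => φ x • (G : Sph n → E (n + 1)) x)
        ((surf n).restrict Ω) := memLp_one_iff_integrable.1 (MemLp.smul (Lp.memLp G) hm)
    rw [hν, hemb.integral_map]
    have e3 : ∫ x : Sph n, φ (x : E (n + 1)) • G' (x : E (n + 1)) ∂((surf n).restrict Ω) =
        ∫ x : Sph n, φ (x : E (n + 1)) • (G : Sph n → E (n + 1)) x ∂((surf n).restrict Ω) :=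
      integral_congr_ae (Filter.Eventually.of_forall fun x => by simp only [hG'x])
    rw [e3]
    apply ext_inner_right ℝ
    intro v
    have hh := hp.2 φ h1 hts v
    have e0 : ∫ x in Ω, ((0 : Lp ℝ 2 ((surf n).restrict Ω)) : Sph n → ℝ) x * sdiv φ v x
        ∂(surf n) = 0 := by
      rw [integral_eq_zero_of_ae]
      filter_upwards [Lp.coeFn_zero ℝ 2 ((surf n).restrict Ω)] with x hx
      rw [hx]; simp
    simp only at hh
    rw [e0] at hh
    have e1 : ∫ x in Ω, inner ℝ ((G : Sph n → E (n + 1)) x) v * φ x ∂(surf n) = 0 := by linarith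
    rw [inner_zero_left]
    have e2 : inner ℝ (∫ x in Ω, φ x • (G : Sph n → E (n + 1)) x ∂(surf n)) v
        = ∫ x in Ω, inner ℝ (φ x • (G : Sph n → E (n + 1)) x) v ∂(surf n) := by
      rw [real_inner_comm, ← integral_inner hint]
      apply integral_congr_ae
      filter_upwards with x
      rw [real_inner_comm]
    rw [e2, ← e1]
    apply integral_congr_ae
    filter_upwards with x
    rw [real_inner_smul_left]
    ring
  have hG0 : G = 0 := by
    rw [Lp.eq_zero_iff_ae_eq_zero]
    rw [hν, hemb.ae_map_iff] at key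
    have hΩm : ∀ᵐ x ∂((surf n).restrict Ω), x ∈ Ω := ae_restrict_mem hΩ.measurableSet
    filter_upwards [key, hΩm] with x hx hx2
    rw [← hG'x]
    refine hx ?_
    rw [← hUΩ] at hx2
    exact hx2
  subst hG0
  rfl

/-- The constant function `1`. -/
theorem exists_oneS {n : ℕ} {Ω : Set (Sph n)} :
    ∃ e : H1S Ω, e.1.2 = 0 ∧ ∀ᵐ x ∂((surf n).restrict Ω), (e.1.1 : Sph n → ℝ) x = 1 := by
  have hm : MemLp (fun _ : Sph n => (1 : ℝ)) 2 ((surf n).restrict Ω) := memLp_const 1
  have hw : IsWeakGradS Ω (fun _ : Sph n => (1 : ℝ)) (fun _ => 0) := by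
    have h1 := weakGrad_of_lip (n := n) (Ω := Ω) (fun _ : E (n + 1) => (1 : ℝ))
      (fun _ _ _ => rfl) (C := 0) (LipschitzWith.const 1).lipschitzOnWith
    simpa using h1
  refine ⟨⟨(hm.toLp _, 0), ?_, ?_⟩, rfl, hm.coeFn_toLp⟩
  · filter_upwards [Lp.coeFn_zero (E (n + 1)) 2 ((surf n).restrict Ω)] with x hx
    change inner ℝ ((0 : Lp (E (n + 1)) 2 ((surf n).restrict Ω)) x) (x : E (n + 1)) = 0
    rw [hx]; simp
  · intro φ h1 h2 v
    have e1 : ∫ x in Ω, ((hm.toLp _ : Lp ℝ 2 ((surf n).restrict Ω)) : Sph n → ℝ) x * sdiv φ v x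
        ∂(surf n) = ∫ x in Ω, (1 : ℝ) * sdiv φ v x ∂(surf n) := by
      apply integral_congr_ae
      filter_upwards [hm.coeFn_toLp] with x hx
      rw [hx]
    have e2 : ∫ x in Ω, inner ℝ (((0 : Lp (E (n + 1)) 2 ((surf n).restrict Ω)) :
        Sph n → E (n + 1)) x) v * φ x ∂(surf n) =
        ∫ x in Ω, inner ℝ (0 : E (n + 1)) v * φ x ∂(surf n) := by
      apply integral_congr_ae
      filter_upwards [Lp.coeFn_zero (E (n + 1)) 2 ((surf n).restrict Ω)] with x hx
      rw [hx]; simp
    change ∫ x in Ω, ((hm.toLp _ : Lp ℝ 2 ((surf n).restrict Ω)) : Sph n → ℝ) x * sdiv φ v x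
        ∂(surf n) = - ∫ x in Ω, inner ℝ (((0 : Lp (E (n + 1)) 2 ((surf n).restrict Ω)) :
        Sph n → E (n + 1)) x) v * φ x ∂(surf n)
    rw [e1, e2]
    exact hw.2 φ h1 h2 v

end Pool.Agent.NE
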