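import Pool.Agent.NE.DefsS
import Pool.Agent.NE.BridgeE
import Pool.Agent.NE.SBasic

set_option autoImplicit false

open MeasureTheory Set
open scoped ENNReal ContDiff

namespace Pool.Agent.NE

theorem neumannS_eq_st {n : ℕ} {Ω : Set (Sph n)} (hΩ : IsOpen Ω) (k : ℕ) :
    St.neumannS Ω k = neumannS Ω k := by
  have hiff : ∀ (u : Sph n → ℝ) (G : Sph n → E (n + 1)),
      St.IsWeakGradS Ω u G ↔ IsWeakGradS Ω u G := by
    intro u G
    constructor
    · intro h
      exact ⟨h.1, fun φ h1 h2 v => h.2 φ ⟨h1, h2⟩ v⟩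
    · intro h
      exact ⟨h.1, fun φ h1 v => h.2 φ h1.1 h1.2 v⟩
  have hc : ∀ (u u' : Sph n → ℝ) (G G' : Sph n → E (n + 1)), u =ᵐ[(surf n).restrict Ω] u' →
      G =ᵐ[(surf n).restrict Ω] G' → IsWeakGradS Ω u G → IsWeakGradS Ω u' G' := by
    intro u u' G G' hu hG h
    refine ⟨?_, fun φ h1 h2 v => ?_⟩
    · filter_upwards [hG, h.1] with x hx hx'
      rw [← hx]
      exact hx'
    have e1 : ∫ x in Ω, u' x * sdiv φ v x ∂(surf n) = ∫ x in Ω, u x * sdiv φ v x ∂(surf n) := by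
      apply integral_congr_ae
      filter_upwards [hu] with x hx
      rw [hx]
    have e2 : ∫ x in Ω, inner ℝ (G' x) v * φ x ∂(surf n) =
        ∫ x in Ω, inner ℝ (G x) v * φ x ∂(surf n) := by
      apply integral_congr_ae
      filter_upwards [hG] with x hx
      rw [hx]
    rw [e1, e2]
    exact h.2 φ h1 h2 v
  have h1 := bridge (m := (surf n).restrict Ω) ((LinearMap.fst ℝ _ _).comp (H1S Ω).subtype)
    ((LinearMap.snd ℝ _ _).comp (H1S Ω).subtype)
    ((injective_iff_map_eq_zero _).mpr (fun p hp => H1S_eq_zero hΩ p hp))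
    (fun u G => St.IsWeakGradS Ω u G)
    (fun p => (hiff _ _).mpr p.2)
    (fun u G hu hG h => ⟨⟨(hu.toLp u, hG.toLp G), hc _ _ _ _ hu.coeFn_toLp.symm
      hG.coeFn_toLp.symm ((hiff _ _).mp h)⟩, hu.coeFn_toLp, hG.coeFn_toLp⟩) k
  exact h1

end Pool.Agent.NE
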