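import Pool.Agent.NE.Field

set_option autoImplicit false

open MeasureTheory Set
open scoped ENNReal ContDiff

namespace Pool.Agent.NE

variable {n : ℕ} {R μ : ℝ} {g dg : ℝ → ℝ}

namespace CentreAux

open Filter Topology

theorem Gf_cont (hg : IsProfile n R μ g dg) : Continuous (Gf g : E n → E n) := by
  have h : LipschitzWith 1 (Gf g : E n → E n) := by
    refine LipschitzWith.of_dist_le_mul fun y z => ?_
    rw [dist_eq_norm, dist_eq_norm, NNReal.coe_one, one_mul]
    exact Gf_lip hg y z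
  exact h.continuous

theorem Gd_cont (hg : IsProfile n R μ g dg) (δ : ℝ) : Continuous (Gd g δ : E n → E n) := by
  unfold Gd
  exact (Gf_cont hg).add (continuous_id.const_smul δ)

theorem field_cont (hg : IsProfile n R μ g dg) (δ : ℝ) (p : E n) (q : ℝ) (A : E n) :
    Continuous (fun x : E n => Gd g δ (fold p q x - A)) :=
  (Gd_cont hg δ).comp ((fold_lip p q).continuous.sub continuous_const)

/-- bound of the perturbed field on a ball -/
theorem Gd_bound (hg : IsProfile n R μ g dg) {δ L : ℝ} (hδ0 : 0 ≤ δ) (hδ1 : δ ≤ 1) {p : E n}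
    {q : ℝ} (hq : q ≤ 0) {A x : E n} (hA : ‖A‖ ≤ 3 * L) (hx : ‖x‖ ≤ L) :
    ‖Gd g δ (fold p q x - A)‖ ≤ g R + 6 * L := by
  unfold Gd
  have h1 := Gf_bound hg (fold p q x - A)
  have h2 : ‖fold p q x - A‖ ≤ 6 * L := by
    refine (norm_sub_le _ _).trans ?_
    have := fold_bound (p := p) hq x
    linarith
  have h3 : ‖δ • (fold p q x - A)‖ ≤ 6 * L := by
    rw [norm_smul, Real.norm_eq_abs, abs_of_nonneg hδ0]
    exact (mul_le_of_le_one_left (norm_nonneg _) hδ1).trans h2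
  exact (norm_add_le _ _).trans (add_le_add h1 h3)

/-- a point outside the ball of radius `3 L` cannot be a centre -/
theorem centre_bound {Ω : Set (E n)} (hΩ : MeasurableSet Ω)
    (hfin : volume Ω ≠ ⊤) (hpos : volume Ω ≠ 0) (hg : IsProfile n R μ g dg) {L : ℝ}
    (hL : ∀ x ∈ Ω, ‖x‖ ≤ L) {δ : ℝ} (hδ : 0 < δ) {p : E n} {q : ℝ} (hq : q ≤ 0)
    {A : E n} (hA : ∫ x in Ω, Gd g δ (fold p q x - A) = 0) : ‖A‖ ≤ 3 * L := by
  by_contra hcon
  rw [not_le] at hcon
  have hL0 : 0 ≤ L := by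
    by_contra h
    have : Ω = ∅ := by
      ext x
      simp only [mem_empty_iff_false, iff_false]
      intro hx
      have := hL x hx
      have := norm_nonneg x
      linarith
    rw [this] at hpos
    exact hpos measure_empty
  have hApos : 0 < ‖A‖ := lt_of_le_of_lt (by positivity) hcon
  set c := ‖A‖ * (‖A‖ - 3 * L) with hc
  have hc0 : 0 < c := mul_pos hApos (by linarith)
  have hpt : ∀ x ∈ Ω, inner ℝ A (Gd g δ (fold p q x - A)) ≤ -(δ * c) := by
    intro x hx
    have h1 : inner ℝ A (fold p q x - A) ≤ -c := by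
      rw [inner_sub_right, real_inner_self_eq_norm_sq]
      have h2 := real_inner_le_norm A (fold p q x)
      have h3 := fold_bound (p := p) hq x
      have h4 := hL x hx
      have h5 : ‖A‖ * ‖fold p q x‖ ≤ ‖A‖ * (3 * L) :=
        mul_le_mul_of_nonneg_left (by linarith) hApos.le
      rw [hc]
      nlinarith
    unfold Gd Gf
    rw [inner_add_right, real_inner_smul_right, real_inner_smul_right]
    have h6 : 0 ≤ g ‖fold p q x - A‖ / ‖fold p q x - A‖ := by
      rcases (norm_nonneg (fold p q x - A)).eq_or_lt with h7 | h7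
      · rw [← h7, div_zero]
      · exact div_nonneg (hg.g_pos _ h7).le h7.le
    have h8 : g ‖fold p q x - A‖ / ‖fold p q x - A‖ * inner ℝ A (fold p q x - A) ≤ 0 :=
      mul_nonpos_of_nonneg_of_nonpos h6 (by linarith)
    have h9 : δ * inner ℝ A (fold p q x - A) ≤ δ * (-c) := mul_le_mul_of_nonneg_left h1 hδ.le
    linarith
  have hint : IntegrableOn (fun x => Gd g δ (fold p q x - A)) Ω := by
    refine Measure.integrableOn_of_bounded (M := g R + δ * (3 * L + ‖A‖)) hfin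
      (field_cont hg δ p q A).aestronglyMeasurable ?_
    refine (ae_restrict_iff' hΩ).2 (Eventually.of_forall fun x hx => ?_)
    unfold Gd
    refine (norm_add_le _ _).trans (add_le_add (Gf_bound hg _) ?_)
    rw [norm_smul, Real.norm_eq_abs, abs_of_nonneg hδ.le]
    refine mul_le_mul_of_nonneg_left ((norm_sub_le _ _).trans ?_) hδ.le
    have := fold_bound (p := p) hq x
    have := hL x hx
    linarith
  have h1 : ∫ x in Ω, inner ℝ A (Gd g δ (fold p q x - A)) = 0 := by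
    rw [integral_inner hint A, hA, inner_zero_right]
  have h2 : ∫ x in Ω, inner ℝ A (Gd g δ (fold p q x - A)) ≤ ∫ x in Ω, -(δ * c) := by
    refine setIntegral_mono_on (hint.const_inner A) ?_ hΩ hpt
    exact integrableOn_const hfin
  rw [h1, setIntegral_const, smul_eq_mul] at h2
  have h3 : 0 < volume.real Ω := by
    rw [measureReal_def]
    exact ENNReal.toReal_pos hpos hfin
  have h4 : 0 < δ * c := mul_pos hδ hc0
  nlinarith

theorem compact_par (L : ℝ) : IsCompact ({z : (E n × ℝ) × E n | (‖z.1.1‖ ^ 2 + z.1.2 ^ 2 = 1 ∧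
    z.1.2 ≤ 0) ∧ ‖z.2‖ ≤ L}) := by
  refine Metric.isCompact_of_isClosed_isBounded ?_ ?_
  · refine IsClosed.inter (IsClosed.inter ?_ ?_) ?_
    · exact isClosed_eq (f := fun z : (E n × ℝ) × E n => ‖z.1.1‖ ^ 2 + z.1.2 ^ 2)
        (by fun_prop) continuous_const
    · exact isClosed_le (f := fun z : (E n × ℝ) × E n => z.1.2) (by fun_prop) continuous_const
    · exact isClosed_le (f := fun z : (E n × ℝ) × E n => ‖z.2‖) (by fun_prop) continuous_const
  · refine (Metric.isBounded_closedBall (x := (0 : (E n × ℝ) × E n)) (r := max 1 L)).subset ?_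
    rintro ⟨⟨p, q⟩, A⟩ ⟨⟨h1, h2⟩, h3⟩
    simp only at h1 h2 h3
    rw [mem_closedBall_zero_iff, Prod.norm_def, Prod.norm_def]
    refine max_le (max_le ?_ ?_) (h3.trans (le_max_right _ _))
    · refine le_trans ?_ (le_max_left _ _)
      have := norm_nonneg p
      change ‖p‖ ≤ 1
      nlinarith [sq_nonneg q]
    · refine le_trans ?_ (le_max_left _ _)
      change ‖q‖ ≤ 1
      rw [Real.norm_eq_abs]
      exact abs_le_one_iff_mul_self_le_one.2 (by nlinarith [sq_nonneg ‖p‖])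

theorem fold_tendsto {p : ℕ → E n} {q : ℕ → ℝ} {P : E n} {Q : ℝ}
    (hlim : Tendsto (fun k => (p k, q k)) atTop (𝓝 (P, Q)))
    (h : ∀ k, ‖p k‖ ^ 2 + q k ^ 2 = 1 ∧ q k ≤ 0) (hP : ‖P‖ ^ 2 + Q ^ 2 = 1 ∧ Q ≤ 0) (x : E n) :
    Tendsto (fun k => fold (p k) (q k) x) atTop (𝓝 (fold P Q x)) := by
  have hc : Tendsto (fun z : E n × ℝ => fold z.1 z.2 x)
    (𝓝[{z : E n × ℝ | ‖z.1‖ ^ 2 + z.2 ^ 2 = 1 ∧ z.2 ≤ 0}] (P, Q)) (𝓝 (fold P Q x)) :=
    fold_cont x (P, Q) hP
  have h2 : Tendsto (fun k => (p k, q k)) atTop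
      (𝓝[{z : E n × ℝ | ‖z.1‖ ^ 2 + z.2 ^ 2 = 1 ∧ z.2 ≤ 0}] (P, Q)) :=
    tendsto_nhdsWithin_iff.2 ⟨hlim, Eventually.of_forall h⟩
  have h3 := Tendsto.comp hc h2
  exact h3

end CentreAux

open CentreAux Filter Topology in
/-- The topological lemma: fold and centre making all components of the field orthogonal to the
constants and to `u`. -/
theorem exists_centre {Ω : Set (E n)} (hΩ : MeasurableSet Ω) (hb : Bornology.IsBounded Ω)
    (hpos : volume Ω ≠ 0) (hg : IsProfile n R μ g dg) (u : E n → ℝ) (hu : IntegrableOn u Ω) :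
    ∃ (p : E n) (q : ℝ) (A : E n), ∫ x in Ω, Gf g (fold p q x - A) = 0 ∧
      ∫ x in Ω, u x • Gf g (fold p q x - A) = 0 := by
  have hfin : volume Ω ≠ ⊤ := hb.measure_lt_top.ne
  obtain ⟨L, hL⟩ := hb.exists_norm_le
  have hδ : ∀ k : ℕ, 0 < (1 : ℝ) / (k + 1) := fun k => by positivity
  have hδ1 : ∀ k : ℕ, (1 : ℝ) / (k + 1) ≤ 1 := fun k => by
    rw [div_le_one (by positivity)]
    linarith [(Nat.cast_nonneg k : (0 : ℝ) ≤ k)]
  choose p q A hpq hq hA hu' using fun k : ℕ => exists_field hΩ hb hpos hg u hu (hδ k)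
  have hAk : ∀ k, ‖A k‖ ≤ 3 * L := fun k =>
    centre_bound hΩ hfin hpos hg hL (hδ k) (hq k) (hA k)
  obtain ⟨⟨⟨P, Q⟩, B⟩, hmem, φ, hφ, hlim⟩ := (compact_par (n := n) (3 * L)).tendsto_subseq
    (x := fun k => ((p k, q k), A k)) (fun k => ⟨⟨hpq k, hq k⟩, hAk k⟩)
  refine ⟨P, Q, B, ?_⟩
  obtain ⟨⟨hP, hQ⟩, hB⟩ := hmem
  have hlim1 : Tendsto (fun k => (p (φ k), q (φ k))) atTop (𝓝 (P, Q)) :=
    (continuous_fst.tendsto _).comp hlim
  have hlim2 : Tendsto (fun k => A (φ k)) atTop (𝓝 B) := (continuous_snd.tendsto _).comp hlim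
  have hδlim : Tendsto (fun k => (1 : ℝ) / ((φ k : ℕ) + 1)) atTop (𝓝 0) :=
    (tendsto_one_div_add_atTop_nhds_zero_nat (𝕜 := ℝ)).comp hφ.tendsto_atTop
  have hpt : ∀ x : E n, Tendsto (fun k => Gd g ((1 : ℝ) / ((φ k : ℕ) + 1))
      (fold (p (φ k)) (q (φ k)) x - A (φ k))) atTop (𝓝 (Gf g (fold P Q x - B))) := by
    intro x
    have h1 : Tendsto (fun k => fold (p (φ k)) (q (φ k)) x) atTop (𝓝 (fold P Q x)) :=
      fold_tendsto hlim1 (fun k => ⟨hpq _, hq _⟩) ⟨hP, hQ⟩ x
    have h3 := h1.sub hlim2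
    have h4 : Tendsto (fun k => Gf g (fold (p (φ k)) (q (φ k)) x - A (φ k))) atTop
      (𝓝 (Gf g (fold P Q x - B))) := ((Gf_cont hg).tendsto (fold P Q x - B)).comp h3
    have h5 := h4.add (hδlim.smul h3)
    rw [zero_smul, add_zero] at h5
    exact h5
  have hae : ∀ᵐ x ∂(volume.restrict Ω), x ∈ Ω := ae_restrict_mem hΩ
  constructor
  · have h1 := tendsto_integral_of_dominated_convergence (μ := volume.restrict Ω)
      (F := fun (k : ℕ) x => Gd g ((1 : ℝ) / ((φ k : ℕ) + 1))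
        (fold (p (φ k)) (q (φ k)) x - A (φ k)))
      (f := fun x => Gf g (fold P Q x - B)) (fun _ => g R + 6 * L)
      (fun k => (field_cont hg _ _ _ _).aestronglyMeasurable)
      (integrableOn_const hfin)
      (fun k => hae.mono fun x hx => Gd_bound hg (hδ _).le (hδ1 _) (hq _) (hAk _) (hL x hx))
      (Eventually.of_forall hpt)
    have h2 : (fun k : ℕ => ∫ x in Ω, Gd g ((1 : ℝ) / ((φ k : ℕ) + 1))
        (fold (p (φ k)) (q (φ k)) x - A (φ k))) = fun _ => 0 := funext fun k => hA (φ k)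
    rw [h2] at h1
    exact tendsto_nhds_unique tendsto_const_nhds h1 |>.symm
  · have h1 := tendsto_integral_of_dominated_convergence (μ := volume.restrict Ω)
      (F := fun (k : ℕ) x => u x • Gd g ((1 : ℝ) / ((φ k : ℕ) + 1))
        (fold (p (φ k)) (q (φ k)) x - A (φ k)))
      (f := fun x => u x • Gf g (fold P Q x - B)) (fun x => ‖u x‖ * (g R + 6 * L))
      (fun k => hu.aestronglyMeasurable.smul (field_cont hg _ _ _ _).aestronglyMeasurable)
      (hu.norm.mul_const _)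
      (fun k => hae.mono fun x hx => by
        rw [norm_smul]
        exact mul_le_mul_of_nonneg_left
          (Gd_bound hg (hδ _).le (hδ1 _) (hq _) (hAk _) (hL x hx)) (norm_nonneg _))
      (Eventually.of_forall fun x => (hpt x).const_smul (u x))
    have h2 : (fun k : ℕ => ∫ x in Ω, u x • Gd g ((1 : ℝ) / ((φ k : ℕ) + 1))
        (fold (p (φ k)) (q (φ k)) x - A (φ k))) = fun _ => 0 := funext fun k => hu' (φ k)
    rw [h2] at h1
    exact tendsto_nhds_unique tendsto_const_nhds h1 |>.symm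

end Pool.Agent.NE
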