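import Pool.Agent.NE.Tools

set_option autoImplicit false

open MeasureTheory Set
open scoped ENNReal

namespace Pool.Agent.NE

variable {n : ℕ} {κ R μ : ℝ} {s c g dg : ℝ → ℝ}

/-- Upper linear bound. -/
lemma oneD_upper {R : ℝ} {f df : ℝ → ℝ}
    (hf : ContinuousOn f (Icc 0 R)) (hd : ∀ r ∈ Ioo 0 R, HasDerivAt f (df r) r)
    (hdf : ContinuousOn df (Icc 0 R)) (hf0 : f 0 = 0) :
    ∃ C : ℝ, 0 ≤ C ∧ ∀ r ∈ Icc 0 R, |f r| ≤ C * r := by
  obtain ⟨C, hC⟩ := (isCompact_Icc.exists_bound_of_continuousOn hdf)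
  refine ⟨max C 0, le_max_right _ _, fun r hr => ?_⟩
  have h1 : ∫ x in (0 : ℝ)..r, df x = f r - f 0 := by
    apply intervalIntegral.integral_eq_sub_of_hasDerivAt_of_le hr.1
    · exact hf.mono (Icc_subset_Icc_right hr.2)
    · intro x hx
      exact hd x ⟨hx.1, hx.2.trans_le hr.2⟩
    · apply ContinuousOn.intervalIntegrable
      rw [uIcc_of_le hr.1]
      exact hdf.mono (Icc_subset_Icc_right hr.2)
  rw [hf0, sub_zero] at h1
  rw [← h1]
  have h2 := intervalIntegral.norm_integral_le_of_norm_le_const (a := (0 : ℝ)) (b := r)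
    (f := df) (C := max C 0) (by
      intro x hx
      rw [uIoc_of_le hr.1] at hx
      exact (hC x ⟨hx.1.le, hx.2.trans hr.2⟩).trans (le_max_left _ _))
  rw [Real.norm_eq_abs, sub_zero, abs_of_nonneg hr.1] at h2
  exact h2

/-- Lower linear bound. -/
lemma oneD_lower {R : ℝ} (hR : 0 < R) {f df : ℝ → ℝ}
    (hf : ContinuousOn f (Icc 0 R)) (hd : ∀ r ∈ Ioo 0 R, HasDerivAt f (df r) r)
    (hdf : ContinuousOn df (Icc 0 R)) (hf0 : f 0 = 0) (hpos : ∀ r ∈ Ico 0 R, 0 < df r) :
    ∃ a : ℝ, 0 < a ∧ ∀ r ∈ Icc 0 R, a * r ≤ f r := by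
  have hsub : Icc (0 : ℝ) (R / 2) ⊆ Icc 0 R := Icc_subset_Icc_right (by linarith)
  obtain ⟨x0, hx0, hmin⟩ := isCompact_Icc.exists_isMinOn (s := Icc (0 : ℝ) (R / 2))
    ⟨0, by constructor <;> linarith⟩ (hdf.mono hsub)
  have hm : 0 < df x0 := hpos x0 ⟨hx0.1, by linarith [hx0.2]⟩
  have hmono : StrictMonoOn f (Icc 0 R) := by
    apply strictMonoOn_of_deriv_pos (convex_Icc 0 R) hf
    intro x hx
    rw [interior_Icc] at hx
    rw [(hd x hx).deriv]
    exact hpos x ⟨hx.1.le, hx.2⟩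
  have h1 : ∀ r ∈ Icc 0 (R / 2), df x0 * r ≤ f r := by
    intro r hr
    have h1 : ∫ x in (0 : ℝ)..r, df x = f r - f 0 := by
      apply intervalIntegral.integral_eq_sub_of_hasDerivAt_of_le hr.1
      · exact hf.mono (Icc_subset_Icc_right (by linarith [hr.2]))
      · intro x hx
        exact hd x ⟨hx.1, by linarith [hx.2, hr.2]⟩
      · apply ContinuousOn.intervalIntegrable
        rw [uIcc_of_le hr.1]
        exact hdf.mono (Icc_subset_Icc_right (by linarith [hr.2]))
    rw [hf0, sub_zero] at h1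
    rw [← h1]
    have h2 : ∫ x in (0 : ℝ)..r, df x0 = df x0 * r := by
      simp [mul_comm]
    rw [← h2]
    apply intervalIntegral.integral_mono_on hr.1
    · exact intervalIntegrable_const
    · apply ContinuousOn.intervalIntegrable
      rw [uIcc_of_le hr.1]
      exact hdf.mono (Icc_subset_Icc_right (by linarith [hr.2]))
    · intro x hx
      exact hmin (show x ∈ Icc (0 : ℝ) (R / 2) from ⟨hx.1, hx.2.trans hr.2⟩)
  refine ⟨df x0 / 2, by positivity, fun r hr => ?_⟩
  rcases le_or_gt r (R / 2) with h | h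
  · have := h1 r ⟨hr.1, h⟩
    nlinarith [hr.1]
  · have h2 := h1 (R / 2) ⟨by linarith, le_refl _⟩
    have h3 : f (R / 2) < f r := hmono ⟨by linarith, by linarith⟩ hr h
    nlinarith [hr.2]

lemma oneD_s_cont (h : CapProfile n κ s c R μ g dg) : Continuous s :=
  continuous_iff_continuousAt.2 fun r => (h.s_deriv r).continuousAt

lemma oneD_c_cont (h : CapProfile n κ s c R μ g dg) : Continuous c :=
  continuous_iff_continuousAt.2 fun r => (h.c_deriv r).continuousAt

lemma oneD_s_lower (h : CapProfile n κ s c R μ g dg) :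
    ∃ a : ℝ, 0 < a ∧ ∀ r ∈ Icc 0 R, a * r ≤ s r :=
  oneD_lower h.R_pos (oneD_s_cont h).continuousOn (fun r _ => h.s_deriv r) (oneD_c_cont h).continuousOn
    h.s_zero h.c_pos

lemma oneD_g_lower (h : CapProfile n κ s c R μ g dg) :
    ∃ a : ℝ, 0 < a ∧ ∀ r ∈ Icc 0 R, a * r ≤ g r :=
  oneD_lower h.R_pos h.g_cont h.g_deriv h.dg_cont h.g_zero h.dg_pos

lemma oneD_s_pos (h : CapProfile n κ s c R μ g dg) {r : ℝ} (hr : r ∈ Ioc 0 R) : 0 < s r := by
  obtain ⟨a, ha, h1⟩ := oneD_s_lower h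
  exact lt_of_lt_of_le (mul_pos ha hr.1) (h1 r ⟨hr.1.le, hr.2⟩)

/-- Integrability of `(f / s)²`. -/
lemma oneD_ratio_integrable (h : CapProfile n κ s c R μ g dg) {f df : ℝ → ℝ}
    (hf : ContinuousOn f (Icc 0 R)) (hd : ∀ r ∈ Ioo 0 R, HasDerivAt f (df r) r)
    (hdf : ContinuousOn df (Icc 0 R)) (hf0 : f 0 = 0) :
    IntervalIntegrable (fun r => (f r / s r) ^ 2 * s r ^ (n - 1)) volume 0 R := by
  rw [intervalIntegrable_iff_integrableOn_Ioc_of_le h.R_pos.le]
  obtain ⟨C, hC0, hC⟩ := oneD_upper hf hd hdf hf0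
  obtain ⟨a, ha, hs⟩ := oneD_s_lower h
  obtain ⟨K, hK⟩ := isCompact_Icc.exists_bound_of_continuousOn
    (s := Icc (0 : ℝ) R) (f := fun r => s r ^ (n - 1)) ((oneD_s_cont h).pow _).continuousOn
  have hcont : ContinuousOn (fun r => (f r / s r) ^ 2 * s r ^ (n - 1)) (Ioc 0 R) := by
    apply ContinuousOn.mul
    · apply ContinuousOn.pow
      apply ContinuousOn.div (hf.mono Ioc_subset_Icc_self) (oneD_s_cont h).continuousOn
      intro r hr
      exact (oneD_s_pos h hr).ne'
    · exact ((oneD_s_cont h).pow _).continuousOn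
  refine IntegrableOn.of_bound (by simp) (hcont.aestronglyMeasurable measurableSet_Ioc)
    ((C / a) ^ 2 * K) ?_
  · rw [ae_restrict_iff' measurableSet_Ioc]
    refine Filter.Eventually.of_forall fun r hr => ?_
    have h1 := hC r ⟨hr.1.le, hr.2⟩
    have h2 := hs r ⟨hr.1.le, hr.2⟩
    have h3 := hK r ⟨hr.1.le, hr.2⟩
    have h4 := oneD_s_pos h hr
    rw [norm_mul, norm_pow, norm_div, Real.norm_eq_abs (f r), Real.norm_eq_abs (s r),
      abs_of_pos h4]
    have h5 : |f r| / s r ≤ C / a := by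
      rw [div_le_div_iff₀ h4 ha]
      nlinarith [hr.1, abs_nonneg (f r)]
    have h6 : 0 ≤ |f r| / s r := by positivity
    have h7 : (|f r| / s r) ^ 2 ≤ (C / a) ^ 2 := by gcongr
    exact mul_le_mul h7 h3 (norm_nonneg _) (by positivity)

/-- The derivative of `s^{n-1} g'`. -/
lemma oneD_flux_deriv (h : CapProfile n κ s c R μ g dg) {r : ℝ} (hr : r ∈ Ioo 0 R) (hn : 1 ≤ n) :
    HasDerivAt (fun r => s r ^ (n - 1) * dg r)
      (-((μ - (n - 1) / s r ^ 2) * g r) * s r ^ (n - 1)) r := by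
  have hs : 0 < s r := oneD_s_pos h ⟨hr.1, hr.2.le⟩
  have h1 := ((h.s_deriv r).pow (n - 1)).mul (h.ode r hr)
  refine h1.congr_deriv ?_
  obtain ⟨m, rfl⟩ : ∃ m, n = m + 1 := ⟨n - 1, by omega⟩
  rcases Nat.eq_zero_or_pos m with rfl | hm
  · simp
  · obtain ⟨k, rfl⟩ : ∃ k, m = k + 1 := ⟨m - 1, by omega⟩
    simp only [Nat.add_sub_cancel, Nat.cast_add, Nat.cast_one, Pi.pow_apply]
    field_simp
    ring

/-- Energy identity of the profile. -/
theorem energy (hn : 1 ≤ n) (h : CapProfile n κ s c R μ g dg) :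
    ∫ r in (0 : ℝ)..R, (dg r ^ 2 + (n - 1) * (g r / s r) ^ 2) * s r ^ (n - 1) =
      μ * ∫ r in (0 : ℝ)..R, g r ^ 2 * s r ^ (n - 1) := by
  have hi1 : IntervalIntegrable (fun r => dg r ^ 2 * s r ^ (n - 1)) volume 0 R := by
    apply ContinuousOn.intervalIntegrable
    rw [uIcc_of_le h.R_pos.le]
    exact (h.dg_cont.pow 2).mul ((oneD_s_cont h).pow _).continuousOn
  have hi2 := oneD_ratio_integrable h h.g_cont h.g_deriv h.dg_cont h.g_zero
  have hi3 : IntervalIntegrable (fun r => g r ^ 2 * s r ^ (n - 1)) volume 0 R := by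
    apply ContinuousOn.intervalIntegrable
    rw [uIcc_of_le h.R_pos.le]
    exact (h.g_cont.pow 2).mul ((oneD_s_cont h).pow _).continuousOn
  have hi : IntervalIntegrable (fun r => dg r ^ 2 * s r ^ (n - 1) +
      (n - 1) * ((g r / s r) ^ 2 * s r ^ (n - 1))) volume 0 R := hi1.add (hi2.const_mul _)
  have key : ∫ r in (0 : ℝ)..R, (dg r ^ 2 * s r ^ (n - 1) +
      (n - 1) * ((g r / s r) ^ 2 * s r ^ (n - 1)) - μ * (g r ^ 2 * s r ^ (n - 1))) =
      s R ^ (n - 1) * dg R * g R - s 0 ^ (n - 1) * dg 0 * g 0 := by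
    apply intervalIntegral.integral_eq_sub_of_hasDerivAt_of_le
      (f := fun r => s r ^ (n - 1) * dg r * g r) h.R_pos.le
    · exact ((((oneD_s_cont h).pow _).continuousOn).mul h.dg_cont).mul h.g_cont
    · intro r hr
      have hs : 0 < s r := oneD_s_pos h ⟨hr.1, hr.2.le⟩
      have h1 := (oneD_flux_deriv h hr hn).mul (h.g_deriv r hr)
      refine h1.congr_deriv ?_
      field_simp
      ring
    · exact hi.sub (hi3.const_mul _)
  rw [h.dg_at_R, h.g_zero] at key
  simp only [mul_zero, zero_mul, sub_zero] at key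
  rw [intervalIntegral.integral_sub hi (hi3.const_mul _), intervalIntegral.integral_const_mul,
    sub_eq_zero] at key
  rw [← key]
  apply intervalIntegral.integral_congr
  intro r _
  simp only
  ring

/-- One-dimensional Hardy type inequality (Picone's identity with the profile). -/
theorem hardy (hn : 1 ≤ n) (h : CapProfile n κ s c R μ g dg) (f df : ℝ → ℝ)
    (hf : ContinuousOn f (Icc 0 R)) (hd : ∀ r ∈ Ioo 0 R, HasDerivAt f (df r) r)
    (hdf : ContinuousOn df (Icc 0 R)) (hf0 : f 0 = 0) :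
    μ * ∫ r in (0 : ℝ)..R, f r ^ 2 * s r ^ (n - 1) ≤
      ∫ r in (0 : ℝ)..R, (df r ^ 2 + (n - 1) * (f r / s r) ^ 2) * s r ^ (n - 1) := by
  have hi1 : IntervalIntegrable (fun r => df r ^ 2 * s r ^ (n - 1)) volume 0 R := by
    apply ContinuousOn.intervalIntegrable
    rw [uIcc_of_le h.R_pos.le]
    exact (hdf.pow 2).mul ((oneD_s_cont h).pow _).continuousOn
  have hi2 := oneD_ratio_integrable h hf hd hdf hf0
  have hi3 : IntervalIntegrable (fun r => f r ^ 2 * s r ^ (n - 1)) volume 0 R := by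
    apply ContinuousOn.intervalIntegrable
    rw [uIcc_of_le h.R_pos.le]
    exact (hf.pow 2).mul ((oneD_s_cont h).pow _).continuousOn
  have hi : IntervalIntegrable (fun r => df r ^ 2 * s r ^ (n - 1) +
      (n - 1) * ((f r / s r) ^ 2 * s r ^ (n - 1))) volume 0 R := hi1.add (hi2.const_mul _)
  obtain ⟨C, hC0, hC⟩ := oneD_upper hf hd hdf hf0
  obtain ⟨a, ha, hg⟩ := oneD_g_lower h
  obtain ⟨K, hK⟩ := isCompact_Icc.exists_bound_of_continuousOn
    (s := Icc (0 : ℝ) R) (f := fun r => s r ^ (n - 1) * dg r)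
    ((((oneD_s_cont h).pow _).continuousOn).mul h.dg_cont)
  have hgne : ∀ r ∈ Ioc 0 R, g r ≠ 0 := fun r hr => (h.g_pos r hr).ne'
  have hcont : ContinuousOn (fun r => s r ^ (n - 1) * dg r * (f r ^ 2 / g r)) (Icc 0 R) := by
    intro r hr
    rcases eq_or_lt_of_le hr.1 with h0 | h0
    · subst h0
      have hz : s 0 ^ (n - 1) * dg 0 * (f 0 ^ 2 / g 0) = 0 := by rw [hf0]; simp
      rw [ContinuousWithinAt, hz]
      apply squeeze_zero_norm' (a := fun r => K * (C ^ 2 / a) * r)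
      · filter_upwards [self_mem_nhdsWithin] with x hx
        rcases eq_or_lt_of_le hx.1 with h0 | h0
        · subst h0
          rw [hz]
          simp
        · have h1 := hC x hx
          have h2 := hg x hx
          have h3 := hK x hx
          have h4 : 0 < g x := h.g_pos x ⟨h0, hx.2⟩
          rw [norm_mul, norm_div, norm_pow, Real.norm_eq_abs (f x), Real.norm_eq_abs (g x),
            abs_of_pos h4, mul_assoc]
          apply mul_le_mul h3 _ (by positivity) ((norm_nonneg _).trans h3)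
          rw [div_le_iff₀ h4]
          have h5 : |f x| ^ 2 ≤ (C * x) ^ 2 := by gcongr
          have h6 : C ^ 2 / a * x * (a * x) ≤ C ^ 2 / a * x * g x := by gcongr
          have h7 : C ^ 2 / a * x * (a * x) = (C * x) ^ 2 := by field_simp
          linarith
      · have : Filter.Tendsto (fun r : ℝ => K * (C ^ 2 / a) * r) (nhds 0)
            (nhds (K * (C ^ 2 / a) * 0)) := by
          exact (continuous_const.mul continuous_id).tendsto 0
        rw [mul_zero] at this
        exact this.mono_left nhdsWithin_le_nhds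
    · have hr' : r ∈ Ioc 0 R := ⟨h0, hr.2⟩
      apply ContinuousWithinAt.mul
      · exact (((oneD_s_cont h).pow _).continuousOn.mul h.dg_cont) r hr
      · exact ((hf.pow 2) r hr).div (h.g_cont r hr) (hgne r hr')
  have key : s R ^ (n - 1) * dg R * (f R ^ 2 / g R) - s 0 ^ (n - 1) * dg 0 * (f 0 ^ 2 / g 0) ≤
      ∫ r in (0 : ℝ)..R, (df r ^ 2 * s r ^ (n - 1) +
      (n - 1) * ((f r / s r) ^ 2 * s r ^ (n - 1)) - μ * (f r ^ 2 * s r ^ (n - 1))) := by
    apply intervalIntegral.sub_le_integral_of_hasDeriv_right_of_le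
      (g := fun r => s r ^ (n - 1) * dg r * (f r ^ 2 / g r))
      (g' := fun r => -((μ - (n - 1) / s r ^ 2) * g r) * s r ^ (n - 1) * (f r ^ 2 / g r) +
        s r ^ (n - 1) * dg r * ((2 * f r * df r * g r - f r ^ 2 * dg r) / g r ^ 2))
      h.R_pos.le hcont
    · intro r hr
      have h1 := (oneD_flux_deriv h hr hn)
      have h2 := ((hd r hr).pow 2).div (h.g_deriv r hr) (hgne r ⟨hr.1, hr.2.le⟩)
      have h3 := h1.mul h2
      refine (h3.congr_deriv ?_).hasDerivWithinAt
      simp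
    · have := (hi.sub (hi3.const_mul μ))
      rw [intervalIntegrable_iff_integrableOn_Icc_of_le h.R_pos.le] at this
      exact this
    · intro r hr
      have hs : 0 < s r := oneD_s_pos h ⟨hr.1, hr.2.le⟩
      have hgp : 0 < g r := h.g_pos r ⟨hr.1, hr.2.le⟩
      have e1 : (df r ^ 2 * s r ^ (n - 1) +
          (n - 1) * ((f r / s r) ^ 2 * s r ^ (n - 1)) - μ * (f r ^ 2 * s r ^ (n - 1))) -
          (-((μ - (n - 1) / s r ^ 2) * g r) * s r ^ (n - 1) * (f r ^ 2 / g r) +
        s r ^ (n - 1) * dg r * ((2 * f r * df r * g r - f r ^ 2 * dg r) / g r ^ 2)) =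
          s r ^ (n - 1) * (df r - dg r / g r * f r) ^ 2 := by
        field_simp
        ring
      have e2 : 0 ≤ s r ^ (n - 1) * (df r - dg r / g r * f r) ^ 2 := by positivity
      linarith
  rw [h.dg_at_R, hf0] at key
  simp only [mul_zero, zero_mul, sub_zero, ne_eq, OfNat.ofNat_ne_zero, not_false_eq_true,
    zero_pow, zero_div] at key
  rw [intervalIntegral.integral_sub hi (hi3.const_mul _), intervalIntegral.integral_const_mul] at key
  have e3 : ∫ r in (0 : ℝ)..R, (df r ^ 2 + (n - 1) * (f r / s r) ^ 2) * s r ^ (n - 1) =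
      ∫ r in (0 : ℝ)..R, (df r ^ 2 * s r ^ (n - 1) +
      (n - 1) * ((f r / s r) ^ 2 * s r ^ (n - 1))) := by
    apply intervalIntegral.integral_congr
    intro r _
    simp only
    ring
  rw [e3]
  linarith

end Pool.Agent.NE
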