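import Pool.Agent.NE.Iso
import Pool.Agent.NE.OneD

set_option autoImplicit false

open MeasureTheory Set
open scoped ENNReal

namespace Pool.Agent.NE

variable {n : ℕ} {R μ : ℝ} {g dg : ℝ → ℝ}

namespace CompAux

theorem g_mono (hg : IsProfile n R μ g dg) : MonotoneOn g (Ici 0) := by
  refine monotoneOn_of_deriv_nonneg (convex_Ici 0) hg.g_cont ?_ ?_
  · intro x hx
    rw [interior_Ici] at hx
    exact (hg.g_deriv x hx).differentiableAt.differentiableWithinAt
  · intro x hx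
    rw [interior_Ici] at hx
    rw [(hg.g_deriv x hx).deriv]
    exact hg.dg_nonneg x (le_of_lt hx)

theorem g_nonneg (hg : IsProfile n R μ g dg) {r : ℝ} (hr : 0 ≤ r) : 0 ≤ g r := by
  have := g_mono hg (mem_Ici.2 le_rfl) (mem_Ici.2 hr) hr
  rwa [hg.g_zero] at this

theorem g_le_gR (hg : IsProfile n R μ g dg) {r : ℝ} (hr : 0 ≤ r) : g r ≤ g R := by
  rcases le_total r R with h | h
  · exact g_mono hg (mem_Ici.2 hr) (mem_Ici.2 hg.R_pos.le) h
  · rw [hg.g_const r h]

theorem g_le_self (hg : IsProfile n R μ g dg) {r : ℝ} (hr : 0 ≤ r) : g r ≤ r := by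
  have hm : MonotoneOn (fun r => r - g r) (Ici 0) := by
    refine monotoneOn_of_deriv_nonneg (convex_Ici 0) (continuousOn_id.sub hg.g_cont) ?_ ?_
    · intro x hx
      rw [interior_Ici] at hx
      exact ((hasDerivAt_id x).sub (hg.g_deriv x hx)).differentiableAt.differentiableWithinAt
    · intro x hx
      rw [interior_Ici] at hx
      have h := ((hasDerivAt_id x).sub (hg.g_deriv x hx)).deriv
      have h' : deriv (fun r => r - g r) x = 1 - dg x := h
      rw [h']
      linarith [hg.dg_le_one x (le_of_lt hx)]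
  have := hm (mem_Ici.2 le_rfl) (mem_Ici.2 hr) hr
  simp only [hg.g_zero] at this
  linarith

theorem ratio_le_one (hg : IsProfile n R μ g dg) {r : ℝ} (hr : 0 ≤ r) : g r / r ≤ 1 := by
  rcases hr.eq_or_lt with rfl | h
  · simp
  · rw [div_le_one h]
    exact g_le_self hg hr

theorem ratio_nonneg (hg : IsProfile n R μ g dg) {r : ℝ} (hr : 0 ≤ r) : 0 ≤ g r / r :=
  div_nonneg (g_nonneg hg hr) hr

theorem cont_g (hg : IsProfile n R μ g dg) : Continuous fun y : E n => g ‖y‖ :=
  hg.g_cont.comp_continuous continuous_norm fun y => norm_nonneg y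

theorem cont_dg (hg : IsProfile n R μ g dg) : Continuous fun y : E n => dg ‖y‖ :=
  hg.dg_cont.comp_continuous continuous_norm fun y => norm_nonneg y

theorem meas_t (ξ : E n) : Measurable fun y : E n => inner ℝ y ξ / ‖y‖ :=
  (continuous_id.inner continuous_const).measurable.div continuous_norm.measurable

theorem abs_t_le (ξ y : E n) : |inner ℝ y ξ / ‖y‖| ≤ ‖ξ‖ := by
  rw [abs_div, abs_norm]
  rcases (norm_nonneg y).eq_or_lt with h | h
  · rw [← h, div_zero]
    exact norm_nonneg ξ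
  · rw [div_le_iff₀ h, mul_comm]
    exact abs_real_inner_le_norm y ξ

theorem t_sq_le (ξ y : E n) : (inner ℝ y ξ / ‖y‖) ^ 2 ≤ ‖ξ‖ ^ 2 := by
  rw [← sq_abs]
  have := abs_t_le ξ y
  gcongr

theorem integrable_of_bdd {α : Type*} [MeasurableSpace α] {ρ : Measure α} [IsFiniteMeasure ρ]
    {f : α → ℝ} (hf : Measurable f) (C : ℝ) (hC : ∀ y, |f y| ≤ C) : Integrable f ρ :=
  Integrable.mono' (integrable_const C) hf.aestronglyMeasurable
    (Filter.Eventually.of_forall hC)

/-- The basic comparison. -/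
theorem le_two {ν : Measure (E n)} (hν : ν ≤ (2 : ℝ≥0∞) • volume) {f : E n → ℝ}
    (hi : Integrable f ν) (hB : IntegrableOn f (Metric.ball 0 R))
    (h0 : ∀ᵐ y ∂(volume : Measure (E n)), y ≠ 0)
    (h1 : ∀ y ∈ Metric.ball (0 : E n) R, y ≠ 0 → 0 ≤ f y) (h2 : ∀ y ∉ Metric.ball (0 : E n) R, f y ≤ 0) :
    ∫ y, f y ∂ν ≤ 2 * ∫ y in Metric.ball (0 : E n) R, f y := by
  have hm : MeasurableSet (Metric.ball (0 : E n) R) := measurableSet_ball
  rw [← integral_add_compl hm hi]
  have h3 : ∫ y in (Metric.ball (0 : E n) R)ᶜ, f y ∂ν ≤ 0 :=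
    setIntegral_nonpos hm.compl fun y hy => h2 y hy
  have h4 : ν.restrict (Metric.ball (0 : E n) R) ≤
      (2 : ℝ≥0∞) • (volume : Measure (E n)).restrict (Metric.ball (0 : E n) R) := by
    rw [← Measure.restrict_smul]
    exact Measure.restrict_mono le_rfl hν
  have h5 : ∫ y in Metric.ball (0 : E n) R, f y ∂ν ≤
      ∫ y, f y ∂((2 : ℝ≥0∞) • (volume : Measure (E n)).restrict (Metric.ball (0 : E n) R)) := by
    refine integral_mono_measure h4 ?_ (hB.smul_measure (by simp))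
    refine Measure.ae_smul_measure ?_ _
    have h6 : ∀ᵐ y ∂(volume : Measure (E n)), y ∈ Metric.ball (0 : E n) R → 0 ≤ f y := by
      filter_upwards [h0] with y hy hyB
      exact h1 y hyB hy
    exact (ae_restrict_iff' hm).2 h6
  rw [integral_smul_measure] at h5
  have : (2 : ℝ≥0∞).toReal = 2 := by simp
  rw [this, smul_eq_mul] at h5
  linarith

/-- Integration of radial functions over a ball. -/
theorem radial (hn : 1 ≤ n) (hR : 0 < R) (F : ℝ → ℝ) :
    ∫ y in Metric.ball (0 : E n) R, F ‖y‖ =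
      n * (volume : Measure (E n)).real (Metric.ball 0 1) *
        ∫ r in (0 : ℝ)..R, F r * r ^ (n - 1) := by
  have hne : Nonempty (Fin n) := ⟨⟨0, hn⟩⟩
  have hm : MeasurableSet (Metric.ball (0 : E n) R) := measurableSet_ball
  rw [← integral_indicator hm]
  have e : ((Metric.ball (0 : E n) R).indicator fun y => F ‖y‖) =
      fun y => (Iio R).indicator F ‖y‖ := by
    funext y
    by_cases h : ‖y‖ < R
    · rw [indicator_of_mem (by simpa using h), indicator_of_mem (by exact h)]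
    · rw [indicator_of_notMem (by simpa using h), indicator_of_notMem (by exact h)]
  rw [e, integral_fun_norm_addHaar]
  have e2 : ∫ y in Ioi (0 : ℝ), y ^ (Module.finrank ℝ (E n) - 1) • (Iio R).indicator F y =
      ∫ r in (0 : ℝ)..R, F r * r ^ (n - 1) := by
    have e3 : (fun y : ℝ => y ^ (Module.finrank ℝ (E n) - 1) • (Iio R).indicator F y) =
        (Iio R).indicator fun r => F r * r ^ (n - 1) := by
      funext y
      by_cases h : y < R
      · rw [indicator_of_mem (by exact h), indicator_of_mem (by exact h)]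
        simp [mul_comm]
      · rw [indicator_of_notMem (by exact h), indicator_of_notMem (by exact h)]
        simp
    rw [e3, setIntegral_indicator measurableSet_Iio, Ioi_inter_Iio,
      intervalIntegral.integral_of_le hR.le, integral_Ioc_eq_integral_Ioo]
  rw [e2]
  simp only [nsmul_eq_mul, smul_eq_mul, finrank_euclideanSpace, Fintype.card_fin]
  ring

end CompAux

open CompAux

/-- Comparison of the two forms of a folded measure with the forms of the ball. -/
theorem comp (hn : 1 ≤ n) (hg : IsProfile n R μ g dg) (ν : Measure (E n))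
    (hν : ν ≤ (2 : ℝ≥0∞) • volume) (hu : ν univ = 2 * volume (Metric.ball (0 : E n) R)) :
    ∃ (b0 : ℝ) (N : Matrix (Fin n) (Fin n) ℝ), 0 < b0 ∧ N.IsSymm ∧ N.trace = 0 ∧
      (∀ ξ, ∫ y, qa g dg y ξ ∂ν ≤ μ * b0 * ‖ξ‖ ^ 2 - (g R / R) ^ 2 * bf N ξ ξ) ∧
      (∀ ξ, b0 * ‖ξ‖ ^ 2 + g R ^ 2 * bf N ξ ξ ≤ ∫ y, (inner ℝ (Gf g y) ξ) ^ 2 ∂ν) ∧
      (∀ ξ, ξ ≠ 0 → 0 < ∫ y, (inner ℝ (Gf g y) ξ) ^ 2 ∂ν) := by
  have hR := hg.R_pos
  have hn0 : (0 : ℝ) < n := by exact_mod_cast hn
  have hne : Nonempty (Fin n) := ⟨⟨0, hn⟩⟩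
  set B := Metric.ball (0 : E n) R with hB
  have hBm : MeasurableSet B := measurableSet_ball
  have hBfin : volume B ≠ ⊤ := measure_ball_lt_top.ne
  have hBpos : 0 < volume B := Metric.measure_ball_pos _ _ hR
  have hνfin : IsFiniteMeasure ν := ⟨by rw [hu]; exact ENNReal.mul_lt_top (by simp) hBfin.lt_top⟩
  have hBf : IsFiniteMeasure ((volume : Measure (E n)).restrict B) :=
    ⟨by rw [Measure.restrict_apply_univ]; exact hBfin.lt_top⟩
  have hνreal : ν.real univ = 2 * (volume : Measure (E n)).real B := by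
    rw [measureReal_def, hu, ENNReal.toReal_mul]
    simp [measureReal_def]
  have hνac : ν ≪ volume := by
    refine Measure.AbsolutelyContinuous.trans (Measure.absolutelyContinuous_of_le hν) ?_
    exact Measure.smul_absolutelyContinuous
  have hae0 : ∀ᵐ y ∂(volume : Measure (E n)), y ≠ 0 := by
    rw [ae_iff]
    simp
  -- `t`
  set t : E n → E n → ℝ := fun ξ y => inner ℝ y ξ / ‖y‖ with ht
  have htm : ∀ ξ, Measurable (t ξ) := fun ξ => meas_t ξ
  have ht2 : ∀ ξ y, t ξ y ^ 2 ≤ ‖ξ‖ ^ 2 := fun ξ y => t_sq_le ξ y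
  have ht2i : ∀ (ρ : Measure (E n)) [IsFiniteMeasure ρ] (ξ : E n),
      Integrable (fun y => t ξ y ^ 2) ρ := by
    intro ρ _ ξ
    refine integrable_of_bdd ((htm ξ).pow_const 2) (‖ξ‖ ^ 2) fun y => ?_
    rw [abs_of_nonneg (sq_nonneg _)]
    exact ht2 ξ y
  -- the matrix
  set th : Fin n → E n → ℝ := fun i y => y i / ‖y‖ with hth
  have hthm : ∀ i, Measurable (th i) := fun i => by
    have : Measurable fun y : E n => y i := by fun_prop
    exact this.div continuous_norm.measurable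
  have hthb : ∀ i y, |th i y| ≤ 1 := by
    intro i y
    simp only [hth, abs_div, abs_norm]
    refine div_le_one_of_le₀ ?_ (norm_nonneg y)
    simpa using PiLp.norm_apply_le y i
  have hthi : ∀ (ρ : Measure (E n)) [IsFiniteMeasure ρ] (i j : Fin n),
      Integrable (fun y => th i y * th j y) ρ := by
    intro ρ _ i j
    refine integrable_of_bdd ((hthm i).mul (hthm j)) 1 fun y => ?_
    rw [abs_mul]
    have h1 := hthb i y
    have h2 := hthb j y
    have h3 := abs_nonneg (th i y)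
    have h4 := abs_nonneg (th j y)
    nlinarith
  set N : Matrix (Fin n) (Fin n) ℝ := Matrix.of fun i j =>
    ∫ y, th i y * th j y ∂ν - 2 * ∫ y in B, th i y * th j y with hN
  have hsum : ∀ ξ y, t ξ y ^ 2 = ∑ i, ∑ j, th i y * th j y * (ξ i * ξ j) := by
    intro ξ y
    have e : t ξ y = ∑ i, th i y * ξ i := by
      simp only [ht, hth, PiLp.inner_apply, RCLike.inner_apply, conj_trivial]
      rw [Finset.sum_div]
      refine Finset.sum_congr rfl fun i _ => ?_
      ring
    rw [e, sq, Finset.sum_mul_sum]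
    refine Finset.sum_congr rfl fun i _ => Finset.sum_congr rfl fun j _ => ?_
    ring
  have hint : ∀ (ρ : Measure (E n)) [IsFiniteMeasure ρ] (ξ : E n),
      ∫ y, t ξ y ^ 2 ∂ρ = ∑ i, ∑ j, (∫ y, th i y * th j y ∂ρ) * (ξ i * ξ j) := by
    intro ρ _ ξ
    simp_rw [hsum ξ]
    rw [integral_finsetSum _ fun i _ => integrable_finsetSum _ fun j _ =>
      (hthi ρ i j).mul_const _]
    refine Finset.sum_congr rfl fun i _ => ?_
    rw [integral_finsetSum _ fun j _ => (hthi ρ i j).mul_const _]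
    refine Finset.sum_congr rfl fun j _ => ?_
    rw [integral_mul_const]
  have hbf : ∀ ξ, bf N ξ ξ = (∫ y, t ξ y ^ 2 ∂ν) - 2 * ∫ y in B, t ξ y ^ 2 := by
    intro ξ
    rw [hint ν ξ, hint (volume.restrict B) ξ]
    simp only [bf, hN, Matrix.of_apply]
    rw [Finset.mul_sum, ← Finset.sum_sub_distrib]
    refine Finset.sum_congr rfl fun i _ => ?_
    rw [Finset.mul_sum, ← Finset.sum_sub_distrib]
    refine Finset.sum_congr rfl fun j _ => ?_
    ring
  -- constant
  set b0 : ℝ := 2 / n * ∫ y in B, g ‖y‖ ^ 2 with hb0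
  have hgc := cont_g (n := n) hg
  have hdgc := cont_dg (n := n) hg
  have hgb : ∀ y : E n, |g ‖y‖| ≤ g R := by
    intro y
    rw [abs_of_nonneg (g_nonneg hg (norm_nonneg y))]
    exact g_le_gR hg (norm_nonneg y)
  have hgi : IntegrableOn (fun y : E n => g ‖y‖ ^ 2) B := by
    refine integrable_of_bdd (hgc.measurable.pow_const 2) (g R ^ 2) fun y => ?_
    rw [abs_pow]
    have := hgb y
    have := abs_nonneg (g ‖y‖)
    gcongr
  have hgR : 0 < g R := hg.g_pos R hR
  have hb0pos : 0 < b0 := by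
    have h1 : 0 < ∫ y in B, g ‖y‖ ^ 2 := by
      rw [integral_pos_iff_support_of_nonneg (fun y => sq_nonneg _) hgi]
      rw [Measure.restrict_apply' hBm]
      have h2 : Function.support (fun y : E n => g ‖y‖ ^ 2) ∩ B = B \ {0} := by
        ext y
        simp only [mem_inter_iff, Function.mem_support, mem_sdiff, mem_singleton_iff]
        constructor
        · rintro ⟨h1, h2⟩
          refine ⟨h2, fun h => h1 ?_⟩
          rw [h, norm_zero, hg.g_zero]
          norm_num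
        · rintro ⟨h1, h2⟩
          refine ⟨?_, h1⟩
          have := hg.g_pos ‖y‖ (norm_pos_iff.2 h2)
          positivity
      rw [h2, measure_sdiff_null (by simp)]
      exact hBpos
    rw [hb0]
    positivity
  -- the ratio
  have hrm : Measurable fun y : E n => g ‖y‖ / ‖y‖ :=
    hgc.measurable.div continuous_norm.measurable
  have hrb : ∀ y : E n, |g ‖y‖ / ‖y‖| ≤ 1 := by
    intro y
    rw [abs_of_nonneg (ratio_nonneg hg (norm_nonneg y))]
    exact ratio_le_one hg (norm_nonneg y)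
  have hdb : ∀ y : E n, |dg ‖y‖| ≤ 1 := by
    intro y
    rw [abs_of_nonneg (hg.dg_nonneg _ (norm_nonneg y))]
    exact hg.dg_le_one _ (norm_nonneg y)
  have hr2i : ∀ (ρ : Measure (E n)) [IsFiniteMeasure ρ],
      Integrable (fun y => (g ‖y‖ / ‖y‖) ^ 2) ρ := by
    intro ρ _
    refine integrable_of_bdd (hrm.pow_const 2) 1 fun y => ?_
    rw [abs_pow]
    exact pow_le_one₀ (abs_nonneg _) (hrb y)
  have hd2i : ∀ (ρ : Measure (E n)) [IsFiniteMeasure ρ],
      Integrable (fun y : E n => dg ‖y‖ ^ 2) ρ := by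
    intro ρ _
    refine integrable_of_bdd (hdgc.measurable.pow_const 2) 1 fun y => ?_
    rw [abs_pow]
    exact pow_le_one₀ (abs_nonneg _) (hdb y)
  have hqi : ∀ (ρ : Measure (E n)) [IsFiniteMeasure ρ] (ξ : E n),
      Integrable (fun y => qa g dg y ξ) ρ := by
    intro ρ _ ξ
    refine integrable_of_bdd (f := fun y => qa g dg y ξ) ?_ (‖ξ‖ ^ 2 + ‖ξ‖ ^ 2) fun y => ?_
    · unfold qa
      exact ((hdgc.measurable.pow_const 2).mul ((htm ξ).pow_const 2)).add
        ((hrm.pow_const 2).mul (measurable_const.sub ((htm ξ).pow_const 2)))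
    · have h1 := ht2 ξ y
      have h2 : dg ‖y‖ ^ 2 ≤ 1 := by
        rw [← sq_abs]; exact pow_le_one₀ (abs_nonneg _) (hdb y)
      have h3 : (g ‖y‖ / ‖y‖) ^ 2 ≤ 1 := by
        rw [← sq_abs]; exact pow_le_one₀ (abs_nonneg _) (hrb y)
      have h4 : (0 : ℝ) ≤ t ξ y ^ 2 := sq_nonneg _
      have h5 : (0 : ℝ) ≤ dg ‖y‖ ^ 2 := sq_nonneg _
      have h6 : (0 : ℝ) ≤ (g ‖y‖ / ‖y‖) ^ 2 := sq_nonneg _
      have h7 : qa g dg y ξ = dg ‖y‖ ^ 2 * t ξ y ^ 2 +
        (g ‖y‖ / ‖y‖) ^ 2 * (‖ξ‖ ^ 2 - t ξ y ^ 2) := rfl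
      rw [h7, abs_of_nonneg (by nlinarith [mul_nonneg h5 h4, mul_nonneg h6 (sub_nonneg.2 h1)])]
      nlinarith [mul_nonneg h5 h4, mul_nonneg h6 (sub_nonneg.2 h1)]
  refine ⟨b0, N, hb0pos, ?_, ?_, ?_, ?_, ?_⟩
  · -- symmetry
    ext i j
    simp only [hN, Matrix.transpose_apply, Matrix.of_apply]
    simp_rw [mul_comm (th j _) (th i _)]
  · -- trace
    have h1 : N.trace = (∫ y, (1 : ℝ) ∂ν) - 2 * ∫ y in B, (1 : ℝ) := by
      have key : ∀ (ρ : Measure (E n)) [IsFiniteMeasure ρ], ρ ≪ volume →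
          ∑ i, ∫ y, th i y * th i y ∂ρ = ∫ y, (1 : ℝ) ∂ρ := by
        intro ρ _ hρ
        rw [← integral_finsetSum _ fun i _ => hthi ρ i i]
        refine integral_congr_ae ?_
        have h0 : ∀ᵐ y ∂ρ, y ≠ 0 := hρ.ae_le hae0
        filter_upwards [h0] with y hy
        have h2 : ‖y‖ ≠ 0 := norm_ne_zero_iff.2 hy
        have h3 : ∑ i, y i ^ 2 = ‖y‖ ^ 2 := by
          rw [EuclideanSpace.norm_sq_eq]
          simp
        have h4 : ∑ i, th i y * th i y = (∑ i, y i ^ 2) / ‖y‖ ^ 2 := by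
          rw [Finset.sum_div]
          refine Finset.sum_congr rfl fun i _ => ?_
          simp only [hth]
          ring
        rw [h4, h3, div_self (pow_ne_zero 2 h2)]
      rw [← key ν hνac, ← key (volume.restrict B) Measure.restrict_le_self.absolutelyContinuous,
        Finset.mul_sum, ← Finset.sum_sub_distrib]
      rfl
    rw [h1]
    simp only [integral_const, smul_eq_mul, mul_one]
    rw [hνreal]
    simp [measureReal_def]
  · -- first form
    intro ξ
    set ar : E n → ℝ := fun y => (g R / R) ^ 2 * (‖ξ‖ ^ 2 - t ξ y ^ 2) with har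
    have hari : ∀ (ρ : Measure (E n)) [IsFiniteMeasure ρ], Integrable ar ρ := by
      intro ρ _
      exact ((integrable_const _).sub (ht2i ρ ξ)).const_mul _
    have h1 := le_two (R := R) hν (f := fun y => qa g dg y ξ - ar y)
      ((hqi ν ξ).sub (hari ν)) ((hqi (volume.restrict B) ξ).sub (hari (volume.restrict B))) hae0
      (fun y hy hy0 => by
        rw [mem_ball_zero_iff] at hy
        have h2 := ht2 ξ y
        have h3 : (0 : ℝ) ≤ t ξ y ^ 2 := sq_nonneg _
        have e : qa g dg y ξ - ar y = dg ‖y‖ ^ 2 * t ξ y ^ 2 +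
            ((g ‖y‖ / ‖y‖) ^ 2 - (g R / R) ^ 2) * (‖ξ‖ ^ 2 - t ξ y ^ 2) := by
          simp only [qa, har, ht]
          ring
        rw [e]
        have h0 : 0 < ‖y‖ := norm_pos_iff.2 hy0
        have h4 : g R / R ≤ g ‖y‖ / ‖y‖ :=
          hg.ratio_anti (mem_Ioi.2 h0) (mem_Ioi.2 hR) hy.le
        have h5 : 0 ≤ g R / R := by positivity
        have h6 : 0 ≤ (g ‖y‖ / ‖y‖) ^ 2 - (g R / R) ^ 2 := by
          nlinarith
        have := mul_nonneg h6 (sub_nonneg.2 h2)
        positivity)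
      (fun y hy => by
        rw [mem_ball_zero_iff, not_lt] at hy
        have h2 := ht2 ξ y
        have e : qa g dg y ξ - ar y = dg ‖y‖ ^ 2 * t ξ y ^ 2 +
            ((g ‖y‖ / ‖y‖) ^ 2 - (g R / R) ^ 2) * (‖ξ‖ ^ 2 - t ξ y ^ 2) := by
          simp only [qa, har, ht]
          ring
        have h0 : 0 < ‖y‖ := hR.trans_le hy
        rw [e, hg.dg_zero _ hy, hg.g_const _ hy]
        have h4 : g R / ‖y‖ ≤ g R / R := by gcongr
        have h5 : 0 ≤ g R / ‖y‖ := by positivity
        have h6 : 0 ≤ (g R / R) ^ 2 - (g R / ‖y‖) ^ 2 := by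
          nlinarith
        have := mul_nonneg h6 (sub_nonneg.2 h2)
        linarith)
    have e1 : ∫ y, (qa g dg y ξ - ar y) ∂ν = (∫ y, qa g dg y ξ ∂ν) - ∫ y, ar y ∂ν :=
      integral_sub (hqi ν ξ) (hari ν)
    have e2 : ∫ y in B, (qa g dg y ξ - ar y) = (∫ y in B, qa g dg y ξ) - ∫ y in B, ar y :=
      integral_sub (hqi (volume.restrict B) ξ) (hari (volume.restrict B))
    have e3 : ∀ (ρ : Measure (E n)) [IsFiniteMeasure ρ], ∫ y, ar y ∂ρ =
        (g R / R) ^ 2 * (ρ.real univ * ‖ξ‖ ^ 2 - ∫ y, t ξ y ^ 2 ∂ρ) := by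
      intro ρ _
      simp only [har]
      rw [integral_const_mul, integral_sub (integrable_const _) (ht2i ρ ξ), integral_const,
        smul_eq_mul]
    have e4 : ∫ y in B, qa g dg y ξ = ‖ξ‖ ^ 2 / n *
        ∫ y in B, (dg ‖y‖ ^ 2 + (n - 1) * (g ‖y‖ / ‖y‖) ^ 2) := by
      have i0 : IntegrableOn (fun y : E n => dg ‖y‖ ^ 2 - (g ‖y‖ / ‖y‖) ^ 2) B :=
        (hd2i (volume.restrict B)).sub (hr2i (volume.restrict B))
      have i1 := iso hn R (fun r => dg r ^ 2 - (g r / r) ^ 2) i0 ξ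
      have i2 : ∫ y in B, qa g dg y ξ = (∫ y in B, (dg ‖y‖ ^ 2 - (g ‖y‖ / ‖y‖) ^ 2) *
          (inner ℝ y ξ / ‖y‖) ^ 2) + ∫ y in B, ‖ξ‖ ^ 2 * (g ‖y‖ / ‖y‖) ^ 2 := by
        rw [← integral_add]
        · refine integral_congr_ae (Filter.Eventually.of_forall fun y => ?_)
          simp only [qa]
          ring
        · refine integrable_of_bdd (f := fun y : E n => (dg ‖y‖ ^ 2 - (g ‖y‖ / ‖y‖) ^ 2) *
            (inner ℝ y ξ / ‖y‖) ^ 2) ?_ (2 * ‖ξ‖ ^ 2) fun y => ?_
          · exact ((hdgc.measurable.pow_const 2).sub (hrm.pow_const 2)).mul ((htm ξ).pow_const 2)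
          · rw [abs_mul, abs_of_nonneg (sq_nonneg (inner ℝ y ξ / ‖y‖))]
            have h2 := t_sq_le ξ y
            have h3 : |dg ‖y‖ ^ 2 - (g ‖y‖ / ‖y‖) ^ 2| ≤ 2 := by
              have h5 : dg ‖y‖ ^ 2 ≤ 1 := by
                rw [← sq_abs]; exact pow_le_one₀ (abs_nonneg _) (hdb y)
              have h6 : (g ‖y‖ / ‖y‖) ^ 2 ≤ 1 := by
                rw [← sq_abs]; exact pow_le_one₀ (abs_nonneg _) (hrb y)
              rw [abs_le]
              constructor <;> nlinarith [sq_nonneg (dg ‖y‖), sq_nonneg (g ‖y‖ / ‖y‖)]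
            gcongr
        · exact (hr2i (volume.restrict B)).const_mul _
      have i3 : ∫ y in B, (dg ‖y‖ ^ 2 - (g ‖y‖ / ‖y‖) ^ 2) =
          (∫ y in B, dg ‖y‖ ^ 2) - ∫ y in B, (g ‖y‖ / ‖y‖) ^ 2 :=
        integral_sub (hd2i (volume.restrict B)) (hr2i (volume.restrict B))
      have i4 : ∫ y in B, (dg ‖y‖ ^ 2 + (n - 1) * (g ‖y‖ / ‖y‖) ^ 2) =
          (∫ y in B, dg ‖y‖ ^ 2) + (n - 1) * ∫ y in B, (g ‖y‖ / ‖y‖) ^ 2 := by
        rw [integral_add (hd2i (volume.restrict B)) ((hr2i (volume.restrict B)).const_mul _),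
          integral_const_mul]
      rw [i2, i1, integral_const_mul, i3, i4]
      field_simp
      ring
    have e5 : ∫ y in B, (dg ‖y‖ ^ 2 + (n - 1) * (g ‖y‖ / ‖y‖) ^ 2) =
        μ * ∫ y in B, g ‖y‖ ^ 2 := by
      have j1 := radial hn hR (fun r => dg r ^ 2 + (n - 1) * (g r / r) ^ 2)
      have j2 := radial hn hR (fun r => g r ^ 2)
      have j3 := energy hn hg.cap
      rw [j1, j2, j3]
      ring
    rw [e1, e2, e3 ν, e3 (volume.restrict B), e4, e5, hνreal] at h1
    rw [hbf ξ]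
    have e6 : (volume.restrict B).real univ = (volume : Measure (E n)).real B := by
      simp [measureReal_def]
    rw [e6] at h1
    have e7 : μ * b0 * ‖ξ‖ ^ 2 = 2 * (‖ξ‖ ^ 2 / n * (μ * ∫ y in B, g ‖y‖ ^ 2)) := by
      rw [hb0]
      ring
    rw [e7]
    nlinarith
  · intro ξ
    have hin : ∀ y : E n, (inner ℝ (Gf g y) ξ) ^ 2 = g ‖y‖ ^ 2 * t ξ y ^ 2 := by
      intro y
      simp only [Gf, ht, real_inner_smul_left]
      ring
    simp_rw [hin]
    have hgt : ∀ (ρ : Measure (E n)) [IsFiniteMeasure ρ],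
        Integrable (fun y => g ‖y‖ ^ 2 * t ξ y ^ 2) ρ := by
      intro ρ _
      refine integrable_of_bdd (f := fun y => g ‖y‖ ^ 2 * t ξ y ^ 2) ?_ (g R ^ 2 * ‖ξ‖ ^ 2)
        fun y => ?_
      · exact (hgc.measurable.pow_const 2).mul ((htm ξ).pow_const 2)
      · rw [abs_of_nonneg (by positivity)]
        have h2 := ht2 ξ y
        have h3 : g ‖y‖ ^ 2 ≤ g R ^ 2 := by
          rw [← sq_abs]
          have := hgb y
          have := abs_nonneg (g ‖y‖)
          gcongr
        gcongr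
    have hgB : IntegrableOn (fun y => g R ^ 2 * t ξ y ^ 2 - g ‖y‖ ^ 2 * t ξ y ^ 2) B :=
      ((ht2i (volume.restrict B) ξ).const_mul _).sub (hgt (volume.restrict B))
    have h1 := le_two (R := R) hν (f := fun y => g R ^ 2 * t ξ y ^ 2 - g ‖y‖ ^ 2 * t ξ y ^ 2)
      (((ht2i ν ξ).const_mul _).sub (hgt ν)) hgB hae0
      (fun y hy hy0 => by
        have h3 : g ‖y‖ ^ 2 ≤ g R ^ 2 := by
          rw [← sq_abs (g ‖y‖)]
          have := hgb y
          have := abs_nonneg (g ‖y‖)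
          gcongr
        nlinarith [mul_nonneg (sub_nonneg.2 h3) (sq_nonneg (t ξ y))])
      (fun y hy => by
        rw [mem_ball_zero_iff, not_lt] at hy
        rw [hg.g_const _ hy, sub_self])
    have e1 : ∫ y, (g R ^ 2 * t ξ y ^ 2 - g ‖y‖ ^ 2 * t ξ y ^ 2) ∂ν =
        (g R ^ 2 * ∫ y, t ξ y ^ 2 ∂ν) - ∫ y, g ‖y‖ ^ 2 * t ξ y ^ 2 ∂ν := by
      rw [integral_sub ((ht2i ν ξ).const_mul _) (hgt ν), integral_const_mul]
    have e2 : ∫ y in B, (g R ^ 2 * t ξ y ^ 2 - g ‖y‖ ^ 2 * t ξ y ^ 2) =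
        (g R ^ 2 * ∫ y in B, t ξ y ^ 2) - ∫ y in B, g ‖y‖ ^ 2 * t ξ y ^ 2 := by
      rw [integral_sub ((ht2i (volume.restrict B) ξ).const_mul _) (hgt (volume.restrict B)),
        integral_const_mul]
    have e3 : ∫ y in B, g ‖y‖ ^ 2 * t ξ y ^ 2 = ‖ξ‖ ^ 2 / n * ∫ y in B, g ‖y‖ ^ 2 :=
      iso hn R (fun r => g r ^ 2) hgi ξ
    rw [e1, e2, e3] at h1
    rw [hbf ξ]
    have e7 : b0 * ‖ξ‖ ^ 2 = 2 * (‖ξ‖ ^ 2 / n * ∫ y in B, g ‖y‖ ^ 2) := by
      rw [hb0]
      ring
    rw [e7]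
    nlinarith
  · intro ξ hξ
    have hin : ∀ y : E n, (inner ℝ (Gf g y) ξ) ^ 2 = g ‖y‖ ^ 2 * t ξ y ^ 2 := by
      intro y
      simp only [Gf, ht, real_inner_smul_left]
      ring
    have hgt : Integrable (fun y => (inner ℝ (Gf g y) ξ) ^ 2) ν := by
      simp_rw [hin]
      refine integrable_of_bdd (f := fun y => g ‖y‖ ^ 2 * t ξ y ^ 2) ?_ (g R ^ 2 * ‖ξ‖ ^ 2)
        fun y => ?_
      · exact (hgc.measurable.pow_const 2).mul ((htm ξ).pow_const 2)
      · rw [abs_of_nonneg (by positivity)]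
        have h2 := ht2 ξ y
        have h3 : g ‖y‖ ^ 2 ≤ g R ^ 2 := by
          rw [← sq_abs]
          have := hgb y
          have := abs_nonneg (g ‖y‖)
          gcongr
        gcongr
    rw [integral_pos_iff_support_of_nonneg (fun y => sq_nonneg _) hgt, pos_iff_ne_zero]
    intro h0
    have hsub : (volume : Measure (E n)) {y | inner ℝ y ξ = (0 : ℝ)} = 0 := by
      have h1 := Measure.addHaar_submodule (volume : Measure (E n)) (LinearMap.ker (innerₛₗ ℝ ξ))
        (by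
          intro htop
          have h2 : ξ ∈ LinearMap.ker (innerₛₗ ℝ ξ) := by rw [htop]; trivial
          rw [LinearMap.mem_ker] at h2
          simp at h2
          exact hξ h2)
      convert h1 using 2
      ext y
      simp [real_inner_comm]
    have h2 : (univ : Set (E n)) ⊆ Function.support (fun y => (inner ℝ (Gf g y) ξ) ^ 2) ∪
        {y | inner ℝ y ξ = (0 : ℝ)} := by
      intro y _
      by_cases hy : inner ℝ y ξ = (0 : ℝ)
      · exact Or.inr hy
      · left
        have hy0 : y ≠ 0 := by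
          rintro rfl
          exact hy (inner_zero_left _)
        have h3 : 0 < ‖y‖ := norm_pos_iff.2 hy0
        have h4 := hg.g_pos _ h3
        simp only [Function.mem_support]
        rw [hin]
        simp only [ht]
        positivity
    have h3 : ν univ = 0 := by
      refine measure_mono_null h2 (measure_union_null h0 (hνac hsub))
    rw [hu] at h3
    simp only [mul_eq_zero] at h3
    rcases h3 with h3 | h3
    · norm_num at h3
    · exact hBpos.ne' h3

end Pool.Agent.NE
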