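import Mathlib

/-!
The Sobolev space `H¹(Ω)` of an open subset of Euclidean space and the Neumann eigenvalues of `Ω`,
defined by the variational formula.
-/

set_option autoImplicit false

open MeasureTheory Set
open scoped ENNReal ContDiff

namespace Pool.Agent.NE

/-- Euclidean `n`-space. -/
abbrev E (n : ℕ) := EuclideanSpace ℝ (Fin n)

/-- `G` is the weak (distributional) gradient of `u` on the open set `Ω`: for every smooth function
`φ` with compact support in `Ω` and every direction `v`, `∫_Ω u ∂_v φ = - ∫_Ω ⟨G, v⟩ φ`. -/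
def IsWeakGrad {n : ℕ} (Ω : Set (E n)) (u : E n → ℝ) (G : E n → E n) : Prop :=
  ∀ φ : E n → ℝ, ContDiff ℝ ∞ φ → HasCompactSupport φ → tsupport φ ⊆ Ω → ∀ v : E n,
    ∫ x in Ω, u x * fderiv ℝ φ x v = - ∫ x in Ω, inner ℝ (G x) v * φ x

lemma integrable_mul_fderiv {n : ℕ} {Ω : Set (E n)} {u : E n → ℝ}
    (hu : MemLp u 2 (volume.restrict Ω)) {φ : E n → ℝ} (h1 : ContDiff ℝ ∞ φ)
    (h2 : HasCompactSupport φ) (v : E n) :
    Integrable (fun x => u x * fderiv ℝ φ x v) (volume.restrict Ω) := by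
  have hc : Continuous (fun x => fderiv ℝ φ x v) :=
    (h1.continuous_fderiv (by simp)).clm_apply continuous_const
  have hs : HasCompactSupport (fun x => fderiv ℝ φ x v) := h2.fderiv_apply (𝕜 := ℝ) v
  have hm : MemLp (fun x => fderiv ℝ φ x v) 2 (volume.restrict Ω) :=
    (hc.memLp_of_hasCompactSupport hs).restrict Ω
  exact hu.integrable_mul hm

lemma integrable_inner_mul {n : ℕ} {Ω : Set (E n)} {G : E n → E n}
    (hG : MemLp G 2 (volume.restrict Ω)) {φ : E n → ℝ} (h1 : ContDiff ℝ ∞ φ)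
    (h2 : HasCompactSupport φ) (v : E n) :
    Integrable (fun x => inner ℝ (G x) v * φ x) (volume.restrict Ω) := by
  have hm : MemLp φ 2 (volume.restrict Ω) :=
    (h1.continuous.memLp_of_hasCompactSupport h2).restrict Ω
  have hg : MemLp (fun x => inner ℝ (G x) v) 2 (volume.restrict Ω) := by
    have := hG.inner_const (𝕜 := ℝ) v
    simpa using this
  exact hg.integrable_mul hm

/-- The Sobolev space `H¹(Ω)`, realised as the space of all pairs `(u, ∇u)` with `u ∈ L²(Ω)` and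
`∇u ∈ L²(Ω)` the weak gradient of `u`. -/
noncomputable def H1 {n : ℕ} (Ω : Set (E n)) :
    Submodule ℝ (Lp ℝ 2 (volume.restrict Ω) × Lp (E n) 2 (volume.restrict Ω)) where
  carrier := {p | IsWeakGrad Ω p.1 p.2}
  zero_mem' := by
    intro φ h1 h2 h3 v
    have e1 : ∫ x in Ω, (0 : Lp ℝ 2 (volume.restrict Ω)) x * fderiv ℝ φ x v = 0 := by
      rw [integral_eq_zero_of_ae]
      filter_upwards [Lp.coeFn_zero ℝ 2 (volume.restrict Ω)] with x hx
      rw [hx]; simp
    have e2 : ∫ x in Ω, inner ℝ ((0 : Lp (E n) 2 (volume.restrict Ω)) x) v * φ x = 0 := by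
      rw [integral_eq_zero_of_ae]
      filter_upwards [Lp.coeFn_zero (E n) 2 (volume.restrict Ω)] with x hx
      rw [hx]; simp
    change ∫ x in Ω, (0 : Lp ℝ 2 (volume.restrict Ω)) x * fderiv ℝ φ x v =
      - ∫ x in Ω, inner ℝ ((0 : Lp (E n) 2 (volume.restrict Ω)) x) v * φ x
    rw [e1, e2]; simp
  add_mem' := by
    rintro ⟨u, G⟩ ⟨u', G'⟩ h h' φ h1 h2 h3 v
    have e1 : ∫ x in Ω, (u + u' : Lp ℝ 2 (volume.restrict Ω)) x * fderiv ℝ φ x v =
        ∫ x in Ω, (u x * fderiv ℝ φ x v + u' x * fderiv ℝ φ x v) := by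
      apply integral_congr_ae
      filter_upwards [Lp.coeFn_add u u'] with x hx
      rw [hx]; simp [add_mul]
    have e2 : ∫ x in Ω, inner ℝ ((G + G' : Lp (E n) 2 (volume.restrict Ω)) x) v * φ x =
        ∫ x in Ω, (inner ℝ (G x) v * φ x + inner ℝ (G' x) v * φ x) := by
      apply integral_congr_ae
      filter_upwards [Lp.coeFn_add G G'] with x hx
      rw [hx]; simp [add_mul, inner_add_left]
    change ∫ x in Ω, (u + u' : Lp ℝ 2 (volume.restrict Ω)) x * fderiv ℝ φ x v =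
      - ∫ x in Ω, inner ℝ ((G + G' : Lp (E n) 2 (volume.restrict Ω)) x) v * φ x
    rw [e1, e2, integral_add (integrable_mul_fderiv (Lp.memLp u) h1 h2 v)
      (integrable_mul_fderiv (Lp.memLp u') h1 h2 v),
      integral_add (integrable_inner_mul (Lp.memLp G) h1 h2 v)
      (integrable_inner_mul (Lp.memLp G') h1 h2 v)]
    have := h φ h1 h2 h3 v
    have h' := h' φ h1 h2 h3 v
    simp only at this h'
    rw [this, h']; ring
  smul_mem' := by
    rintro t ⟨u, G⟩ h φ h1 h2 h3 v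
    have e1 : ∫ x in Ω, (t • u : Lp ℝ 2 (volume.restrict Ω)) x * fderiv ℝ φ x v =
        ∫ x in Ω, t * (u x * fderiv ℝ φ x v) := by
      apply integral_congr_ae
      filter_upwards [Lp.coeFn_smul t u] with x hx
      rw [hx]; simp [mul_assoc]
    have e2 : ∫ x in Ω, inner ℝ ((t • G : Lp (E n) 2 (volume.restrict Ω)) x) v * φ x =
        ∫ x in Ω, t * (inner ℝ (G x) v * φ x) := by
      apply integral_congr_ae
      filter_upwards [Lp.coeFn_smul t G] with x hx
      rw [hx]; simp [mul_assoc, inner_smul_left]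
    change ∫ x in Ω, (t • u : Lp ℝ 2 (volume.restrict Ω)) x * fderiv ℝ φ x v =
      - ∫ x in Ω, inner ℝ ((t • G : Lp (E n) 2 (volume.restrict Ω)) x) v * φ x
    rw [e1, e2, integral_const_mul, integral_const_mul]
    have := h φ h1 h2 h3 v
    simp only at this
    rw [this]; ring

/-- The Neumann eigenvalue `μ_k(Ω)`, `k = 0, 1, 2, …`: the infimum, over all linear subspaces `V` of
`H¹(Ω)` of dimension `k + 1`, of the supremum over nonzero `u ∈ V` of the Rayleigh quotient
`∫_Ω |∇u|² / ∫_Ω u²`. -/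
noncomputable def neumann {n : ℕ} (Ω : Set (E n)) (k : ℕ) : ℝ≥0∞ :=
  ⨅ (V : Submodule ℝ (H1 Ω)) (_ : Module.finrank ℝ V = k + 1),
    ⨆ (p : H1 Ω) (_ : p ∈ V) (_ : p ≠ 0), ENNReal.ofReal (‖p.1.2‖ ^ 2 / ‖p.1.1‖ ^ 2)

end Pool.Agent.NE
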