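import Mathlib

/-!
# Neumann eigenvalues of open subsets of `ℝⁿ` and of `Sⁿ`

Definitions used in the statements: weak gradients, the Sobolev space `H¹(Ω)` and the Neumann
eigenvalues `μ_k(Ω)` (variational formula).
-/

set_option autoImplicit false

open MeasureTheory
open scoped ENNReal ContDiff

namespace Pool.Agent.NE.St

/-- Euclidean `n`-space. -/
abbrev E (n : ℕ) := EuclideanSpace ℝ (Fin n)

/-- Lebesgue measure of `ℝⁿ`. -/
noncomputable def vol (n : ℕ) : Measure (E n) := volume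

/-- The directional derivative `∂_v φ (x)`. -/
noncomputable def dd {n : ℕ} (φ : E n → ℝ) (v x : E n) : ℝ := fderiv ℝ φ x v

/-- `φ` is a smooth function with compact support in `Ω`. -/
def IsTest {n : ℕ} (Ω : Set (E n)) (φ : E n → ℝ) : Prop :=
  ContDiff ℝ ∞ φ ∧ HasCompactSupport φ ∧ tsupport φ ⊆ Ω

/-- `G` is the weak gradient of `u` on the open set `Ω`: for every smooth function `φ` with compact
support in `Ω` and every direction `v`, `∫_Ω u ∂_v φ = - ∫_Ω ⟨G, v⟩ φ`. -/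
def IsWeakGrad {n : ℕ} (Ω : Set (E n)) (u : E n → ℝ) (G : E n → E n) : Prop :=
  ∀ φ : E n → ℝ, IsTest Ω φ → ∀ v : E n,
    ∫ x in Ω, u x * dd φ v x ∂(vol n) = - ∫ x in Ω, inner ℝ (G x) v * φ x ∂(vol n)

/-- `u ∈ H¹(Ω)` with weak gradient `G`: both are square integrable on `Ω`. -/
def InH1 {n : ℕ} (Ω : Set (E n)) (u : E n → ℝ) (G : E n → E n) : Prop :=
  MemLp u 2 ((vol n).restrict Ω) ∧ MemLp G 2 ((vol n).restrict Ω) ∧ IsWeakGrad Ω u G

/-- `∫_Ω (∑ a_i u_i)²`. -/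
noncomputable def mass {n k : ℕ} (Ω : Set (E n)) (u : Fin k → E n → ℝ) (a : Fin k → ℝ) : ℝ :=
  ∫ x in Ω, (∑ i, a i * u i x) ^ 2 ∂(vol n)

/-- `∫_Ω |∑ a_i G_i|²`. -/
noncomputable def energy {n k : ℕ} (Ω : Set (E n)) (G : Fin k → E n → E n) (a : Fin k → ℝ) : ℝ :=
  ∫ x in Ω, ‖∑ i, a i • G i x‖ ^ 2 ∂(vol n)

/-- The Neumann eigenvalue `μ_k(Ω)`, `k = 0, 1, 2, …`: the infimum, over all `(k + 1)`-tuples of
functions `u_i ∈ H¹(Ω)`, with weak gradients `G_i`, that are linearly independent in `L²(Ω)`, of the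
supremum of the Rayleigh quotient over all nonzero elements `∑ a_i u_i` of their span. -/
noncomputable def neumann {n : ℕ} (Ω : Set (E n)) (k : ℕ) : ℝ≥0∞ :=
  ⨅ (u : Fin (k + 1) → E n → ℝ) (G : Fin (k + 1) → E n → E n) (_ : ∀ i, InH1 Ω (u i) (G i))
    (_ : ∀ a, a ≠ 0 → mass Ω u a ≠ 0),
    ⨆ (a : Fin (k + 1) → ℝ) (_ : a ≠ 0), ENNReal.ofReal (energy Ω G a / mass Ω u a)

end Pool.Agent.NE.St
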