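import Pool.Agent.NE.DefsE

/-!
# Neumann eigenvalues of open subsets of the sphere `S^n`

Definitions used in the statement for the sphere: weak gradients, the Sobolev space `H¹(Ω)` and the
Neumann eigenvalues `μ_k(Ω)` (variational formula) of an open set `Ω ⊆ S^n`.
-/

set_option autoImplicit false

open MeasureTheory
open scoped ENNReal ContDiff

namespace Pool.Agent.NE.St

/-- The unit sphere `S^n` of `ℝ^{n+1}`. -/
abbrev Sph (n : ℕ) := Metric.sphere (0 : E (n + 1)) 1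

/-- The surface measure of `S^n`. -/
noncomputable def surf (n : ℕ) : Measure (Sph n) := (vol (n + 1)).toSphere

/-- The component `v - ⟨x, v⟩ x` of `v` tangential to the sphere at `x`. -/
noncomputable def tan {n : ℕ} (x v : E n) : E n := v - inner ℝ x v • x

/-- For a smooth function `φ` on `ℝ^{n+1}` and a vector `v`, the divergence on `S^n` of the tangential
vector field `φ · (v - ⟨x, v⟩ x)`. -/
noncomputable def sdiv {n : ℕ} (φ : E (n + 1) → ℝ) (v x : E (n + 1)) : ℝ :=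
  dd φ (tan x v) x - n * (inner ℝ x v * φ x)

/-- `φ` is a smooth function on `ℝ^{n+1}` whose restriction to `S^n` has its support in `Ω`. -/
def IsTestS {n : ℕ} (Ω : Set (Sph n)) (φ : E (n + 1) → ℝ) : Prop :=
  ContDiff ℝ ∞ φ ∧ tsupport (fun x : Sph n => φ x) ⊆ Ω

/-- `∫_Ω f` with respect to the surface measure. -/
noncomputable def intS {n : ℕ} (Ω : Set (Sph n)) (f : Sph n → ℝ) : ℝ := ∫ x in Ω, f x ∂(surf n)

/-- `G` is the weak gradient of `u` on the open set `Ω` of `S^n`: it is tangential, and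
`∫_Ω u div X = - ∫_Ω ⟨G, X⟩` for all vector fields `X = φ · (v - ⟨x, v⟩ x)`, where `v` is a fixed vector
of `ℝ^{n+1}` and `φ` is a smooth function whose restriction to the sphere has its support in `Ω`
(here `⟨G, X⟩ = ⟨G, v⟩ φ` because `G` is tangential). -/
def IsWeakGradS {n : ℕ} (Ω : Set (Sph n)) (u : Sph n → ℝ) (G : Sph n → E (n + 1)) : Prop :=
  (∀ᵐ x ∂(surf n).restrict Ω, inner ℝ (G x) (x : E (n + 1)) = 0) ∧
  ∀ φ : E (n + 1) → ℝ, IsTestS Ω φ → ∀ v : E (n + 1),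
    intS Ω (fun x => u x * sdiv φ v x) = - intS Ω (fun x => inner ℝ (G x) v * φ x)

/-- `u ∈ H¹(Ω)` with weak gradient `G`: both are square integrable on `Ω`. -/
def InH1S {n : ℕ} (Ω : Set (Sph n)) (u : Sph n → ℝ) (G : Sph n → E (n + 1)) : Prop :=
  MemLp u 2 ((surf n).restrict Ω) ∧ MemLp G 2 ((surf n).restrict Ω) ∧ IsWeakGradS Ω u G

/-- `∫_Ω (∑ a_i u_i)²`. -/
noncomputable def massS {n k : ℕ} (Ω : Set (Sph n)) (u : Fin k → Sph n → ℝ) (a : Fin k → ℝ) : ℝ :=
  intS Ω (fun x => (∑ i, a i * u i x) ^ 2)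

/-- `∫_Ω |∑ a_i G_i|²`. -/
noncomputable def energyS {n k : ℕ} (Ω : Set (Sph n)) (G : Fin k → Sph n → E (n + 1))
    (a : Fin k → ℝ) : ℝ :=
  intS Ω (fun x => ‖∑ i, a i • G i x‖ ^ 2)

/-- The Neumann eigenvalue `μ_k(Ω)`, `k = 0, 1, 2, …`, of `Ω ⊆ S^n`: the infimum, over all
`(k + 1)`-tuples of functions `u_i ∈ H¹(Ω)`, with weak gradients `G_i`, that are linearly independent
in `L²(Ω)`, of the supremum of the Rayleigh quotient over all nonzero elements `∑ a_i u_i` of their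
span. -/
noncomputable def neumannS {n : ℕ} (Ω : Set (Sph n)) (k : ℕ) : ℝ≥0∞ :=
  ⨅ (u : Fin (k + 1) → Sph n → ℝ) (G : Fin (k + 1) → Sph n → E (n + 1))
    (_ : ∀ i, InH1S Ω (u i) (G i)) (_ : ∀ a, a ≠ 0 → massS Ω u a ≠ 0),
    ⨆ (a : Fin (k + 1) → ℝ) (_ : a ≠ 0), ENNReal.ofReal (energyS Ω G a / massS Ω u a)

end Pool.Agent.NE.St
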