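import Pool.Agent.NE.Defs
import Pool.Agent.NE.Dens

set_option autoImplicit false

open MeasureTheory Set Filter Topology
open scoped ENNReal ContDiff Gradient Convolution

namespace Pool.Agent.NE

namespace DensAux

/-- The gradient of the regularisation. -/
lemma fderiv_opC {n : ℕ} (b : ContDiffBump (0 : E n)) (c : E n) {B : Set (E n)} (hBm : MeasurableSet B)
    {t : ℝ} (ht : 0 < t) {u : E n → ℝ} {G : E n → E n}
    (hu0 : MemLp u 2 (volume.restrict B)) (hG0 : MemLp G 2 (volume.restrict B))
    (hw : IsWeakGrad B u G) (x : E n) (hx : ∀ w, ‖x - hom c t⁻¹ w‖ ≤ b.rOut → w ∈ B) (v : E n) :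
    fderiv ℝ (op b c t (B.indicator u)) x v = t * inner ℝ (op b c t (B.indicator G) x) v := by
  set ρ := rho b with hρ
  have hρs : ContDiff ℝ ∞ ρ := rho_contDiff b
  have hρc : HasCompactSupport ρ := rho_compact b
  have hu : MemLp (B.indicator u) 2 volume :=
    (memLp_indicator_iff_restrict hBm).mpr hu0
  have hG : MemLp (B.indicator G) 2 volume :=
    (memLp_indicator_iff_restrict hBm).mpr hG0
  have hul : LocallyIntegrable (B.indicator u ∘ hom c t) volume :=
    (memLp_hom c ht hu).locallyIntegrable (by norm_num)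
  have hGl : LocallyIntegrable (B.indicator G ∘ hom c t) volume :=
    (memLp_hom c ht hG).locallyIntegrable (by norm_num)
  -- the test function
  set ψ : E n → ℝ := fun w => ρ (x - hom c t⁻¹ w) with hψ
  have hhs : ContDiff ℝ ∞ (hom c t⁻¹) := by
    unfold hom
    exact (contDiff_id.const_smul _).add contDiff_const
  have hψs : ContDiff ℝ ∞ ψ := hρs.comp (contDiff_const.sub hhs)
  have hψ0 : ∀ w, ψ w ≠ 0 → w ∈ Metric.closedBall c (t * (‖x - c‖ + b.rOut)) := by
    intro w hw
    have h1 : x - hom c t⁻¹ w ∈ Function.support ρ := hw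
    rw [hρ, rho, b.support_normed_eq, mem_ball_zero_iff] at h1
    have h2 : t⁻¹ • (w - c) = (x - c) - (x - hom c t⁻¹ w) := by
      rw [← hom_sub]
      abel
    have h3 : t⁻¹ * ‖w - c‖ ≤ ‖x - c‖ + b.rOut := by
      calc t⁻¹ * ‖w - c‖ = ‖t⁻¹ • (w - c)‖ := by
            rw [norm_smul, Real.norm_of_nonneg (inv_nonneg.mpr ht.le)]
        _ = ‖(x - c) - (x - hom c t⁻¹ w)‖ := by rw [h2]
        _ ≤ ‖x - c‖ + ‖x - hom c t⁻¹ w‖ := norm_sub_le _ _
        _ ≤ ‖x - c‖ + b.rOut := by linarith
    rw [Metric.mem_closedBall, dist_eq_norm]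
    calc ‖w - c‖ = t * (t⁻¹ * ‖w - c‖) := by field_simp
      _ ≤ t * (‖x - c‖ + b.rOut) := by gcongr
  have hψt : tsupport ψ ⊆ Metric.closedBall c (t * (‖x - c‖ + b.rOut)) :=
    closure_minimal (fun w hw => hψ0 w hw) Metric.isClosed_closedBall
  have hψB : tsupport ψ ⊆ B := by
    have hcl : IsClosed {w : E n | ‖x - hom c t⁻¹ w‖ ≤ b.rOut} :=
      isClosed_le ((continuous_const.sub (hom_cont c t⁻¹)).norm) continuous_const
    refine (closure_minimal (fun w hw => ?_) hcl).trans (fun w hw => hx w hw)
    have h1 : x - hom c t⁻¹ w ∈ Function.support ρ := hw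
    rw [hρ, rho, b.support_normed_eq, mem_ball_zero_iff] at h1
    exact h1.le
  have hψc : HasCompactSupport ψ :=
    HasCompactSupport.of_support_subset_isCompact (isCompact_closedBall c _)
      (subset_closure.trans hψt)
  have hψd : ∀ w, fderiv ℝ ψ w v = - t⁻¹ * fderiv ℝ ρ (x - hom c t⁻¹ w) v := by
    intro w
    have h1 : HasFDerivAt ρ (fderiv ℝ ρ (x - hom c t⁻¹ w)) (x - hom c t⁻¹ w) :=
      (hρs.differentiable (by simp)).differentiableAt.hasFDerivAt
    have h2 : HasFDerivAt (fun w : E n => x - hom c t⁻¹ w)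
        (-(t⁻¹ • ContinuousLinearMap.id ℝ (E n))) w := by
      have h3 : HasFDerivAt (hom c t⁻¹) (t⁻¹ • ContinuousLinearMap.id ℝ (E n)) w := by
        unfold hom
        exact ((hasFDerivAt_id w).const_smul t⁻¹).add_const _
      exact h3.const_sub x
    have h3 := h1.comp w h2
    have h4 : fderiv ℝ ψ w = (fderiv ℝ ρ (x - hom c t⁻¹ w)).comp
        (-(t⁻¹ • ContinuousLinearMap.id ℝ (E n))) := h3.fderiv
    rw [h4]
    simp
  have hweak := hw ψ hψs hψc hψB v
  -- left side
  have h := hρc.hasFDerivAt_convolution_left (ContinuousLinearMap.lsmul ℝ ℝ)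
    (hρs.of_le (by simp)) hul x
  have hf1 : fderiv ℝ (op b c t (B.indicator u)) x =
    (fderiv ℝ ρ ⋆[(ContinuousLinearMap.lsmul ℝ ℝ).precompL (E n), volume]
      (B.indicator u ∘ hom c t)) x := h.fderiv
  have hex : ConvolutionExistsAt (fderiv ℝ ρ) (B.indicator u ∘ hom c t) x
      ((ContinuousLinearMap.lsmul ℝ ℝ : ℝ →L[ℝ] ℝ →L[ℝ] ℝ).precompL (E n)) volume :=
    (hρc.fderiv ℝ).convolutionExists_left _ (hρs.continuous_fderiv (by simp)) hul x
  rw [hf1, convolution_eq_swap, ContinuousLinearMap.integral_apply hex.integrable_swap]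
  have e1 : ∀ y, (((ContinuousLinearMap.lsmul ℝ ℝ : ℝ →L[ℝ] ℝ →L[ℝ] ℝ).precompL (E n))
      (fderiv ℝ ρ (x - y)) ((B.indicator u ∘ hom c t) y)) v =
      (fun w => -t * (B.indicator (fun w => u w * fderiv ℝ ψ w v)) w)
        (hom c t y) := by
    intro y
    rw [ContinuousLinearMap.precompL_apply]
    simp only [Function.comp, ContinuousLinearMap.lsmul_apply, smul_eq_mul]
    by_cases hy : hom c t y ∈ B
    · rw [indicator_of_mem hy, indicator_of_mem hy, hψd, hom_inv c ht]
      field_simp
    · rw [indicator_of_notMem hy, indicator_of_notMem hy]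
      simp
  rw [integral_congr_ae (Eventually.of_forall e1),
    integral_hom c ht (fun w => -t * (B.indicator (fun w => u w * fderiv ℝ ψ w v)) w),
    integral_const_mul, integral_indicator hBm, hweak]
  -- right side
  have hint : Integrable (fun y => ρ (x - y) • (B.indicator G ∘ hom c t) y) :=
    hGl.integrable_smul_left_of_hasCompactSupport
      (hρs.continuous.comp (continuous_const.sub continuous_id))
      (hρc.comp_homeomorph (Homeomorph.subLeft x))
  have e2 : inner ℝ (op b c t (B.indicator G) x) v =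
      ∫ y, inner ℝ (ρ (x - y) • (B.indicator G ∘ hom c t) y) v := by
    rw [op, moll_eq, real_inner_comm, ← integral_inner hint]
    simp_rw [real_inner_comm v]
  have e3 : ∀ y, inner ℝ (ρ (x - y) • (B.indicator G ∘ hom c t) y) v =
      (fun w => (B.indicator (fun w => inner ℝ (G w) v * ψ w)) w)
        (hom c t y) := by
    intro y
    simp only [Function.comp]
    rw [real_inner_smul_left]
    by_cases hy : hom c t y ∈ B
    · rw [indicator_of_mem hy, indicator_of_mem hy]
      simp only [hψ]
      rw [hom_inv c ht]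
      ring
    · rw [indicator_of_notMem hy, indicator_of_notMem hy]
      simp
  rw [e2, integral_congr_ae (Eventually.of_forall e3),
    integral_hom c ht (fun w => (B.indicator (fun w => inner ℝ (G w) v * ψ w)) w),
    integral_indicator hBm]
  simp only [smul_eq_mul]
  ring

end DensAux

open DensAux in
/-- Smooth functions are dense in `H¹` of a bounded convex open set. -/
theorem densC {n : ℕ} {K : Set (E n)} (hK : IsOpen K) (hc : Convex ℝ K)
    (hb : Bornology.IsBounded K) (hne : K.Nonempty) (p : H1 K) {ε : ℝ} (hε : 0 < ε) :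
    ∃ φ : E n → ℝ, ContDiff ℝ ∞ φ ∧ HasCompactSupport φ ∧
      ∫ x in K, (p.1.1 x - φ x) ^ 2 < ε ∧ ∫ x in K, ‖p.1.2 x - ∇ φ x‖ ^ 2 < ε := by
  obtain ⟨c, hcK⟩ := hne
  obtain ⟨r0, hr0, hr0K⟩ := Metric.isOpen_iff.mp hK c hcK
  obtain ⟨R, hR, hKR⟩ : ∃ R : ℝ, 0 < R ∧ K ⊆ Metric.ball c R := by
    obtain ⟨R, hR⟩ := hb.subset_ball c
    exact ⟨max R 1, by positivity, hR.trans (Metric.ball_subset_ball (le_max_left _ _))⟩
  obtain ⟨⟨pu, pG⟩, hp⟩ := p
  simp only
  have hu0 : MemLp (pu : E n → ℝ) 2 (volume.restrict K) := Lp.memLp pu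
  have hG0 : MemLp (pG : E n → E n) 2 (volume.restrict K) := Lp.memLp pG
  have hw : IsWeakGrad K (pu : E n → ℝ) (pG : E n → E n) := hp
  generalize (pu : E n → ℝ) = u at *
  generalize (pG : E n → E n) = G at *
  clear hp
  have hBm : MeasurableSet K := hK.measurableSet
  have hu : MemLp (K.indicator u) 2 volume :=
    (memLp_indicator_iff_restrict hBm).mpr hu0
  have hG : MemLp (K.indicator G) 2 volume :=
    (memLp_indicator_iff_restrict hBm).mpr hG0
  set δ : ℝ := Real.sqrt (ε / 2) with hδ
  have hδ0 : 0 < δ := by positivity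
  have hδε : δ ^ 2 < ε := by
    rw [hδ, Real.sq_sqrt (by positivity)]
    linarith
  obtain ⟨η1, hη1, H1'⟩ := op_conv hu c hR (δ := ENNReal.ofReal δ) (by simp [hδ0])
  obtain ⟨η2, hη2, H2'⟩ := op_conv hG c hR (δ := ENNReal.ofReal (δ / 2)) (by simp [hδ0])
  have hres : volume.restrict K ≤ volume.restrict (Metric.ball c R) :=
    Measure.restrict_mono hKR le_rfl
  have H1 : ∀ (t : ℝ) (b : ContDiffBump (0 : E n)), 1 - η1 < t → t < 1 → b.rOut < η1 →
      eLpNorm (op b c t (K.indicator u) - K.indicator u) 2 (volume.restrict K) ≤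
        ENNReal.ofReal δ := fun t b h1 h2 h3 =>
    (eLpNorm_mono_measure _ hres).trans (H1' t b h1 h2 h3)
  have H2 : ∀ (t : ℝ) (b : ContDiffBump (0 : E n)), 1 - η2 < t → t < 1 → b.rOut < η2 →
      eLpNorm (op b c t (K.indicator G) - K.indicator G) 2 (volume.restrict K) ≤
        ENNReal.ofReal (δ / 2) := fun t b h1 h2 h3 =>
    (eLpNorm_mono_measure _ hres).trans (H2' t b h1 h2 h3)
  -- the norm of `G`
  set NG : ℝ := (eLpNorm (K.indicator G) 2 volume).toReal with hNG
  have hNG0 : 0 ≤ NG := ENNReal.toReal_nonneg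
  set η : ℝ := min (min η1 η2) (min (1 / 2) (δ / 2 / (NG + 1))) with hη
  have hηpos : 0 < η := by positivity
  have hηa : η ≤ η1 := (min_le_left _ _).trans (min_le_left _ _)
  have hηb : η ≤ η2 := (min_le_left _ _).trans (min_le_right _ _)
  have hηc : η ≤ 1 / 2 := (min_le_right _ _).trans (min_le_left _ _)
  have hηd : η ≤ δ / 2 / (NG + 1) := (min_le_right _ _).trans (min_le_right _ _)
  set t : ℝ := 1 - η / 2 with ht
  have ht1 : t < 1 := by linarith
  have ht0 : 0 < t := by linarith
  have ht2 : 1 - η < t := by linarith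
  -- the bump
  set r : ℝ := min (η / 2) (r0 * (1 - t) / 2) with hr
  have hrpos : 0 < r := by
    have : 0 < r0 * (1 - t) := mul_pos hr0 (by linarith)
    positivity
  let b : ContDiffBump (0 : E n) := ⟨r / 2, r, by positivity, by linarith⟩
  have hb1 : b.rOut < η := by
    have : r ≤ η / 2 := min_le_left _ _
    change r < η
    linarith
  have hxK : ∀ x ∈ K, ∀ w, ‖x - hom c t⁻¹ w‖ ≤ b.rOut → w ∈ K := by
    intro x hx w hw
    set y := hom c t⁻¹ w with hy
    have hwy : w = hom c t y := (hom_inv' c ht0 w).symm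
    have h1t : 0 < 1 - t := by linarith
    have h2 : c + (t / (1 - t)) • (y - x) ∈ K := by
      apply hr0K
      rw [Metric.mem_ball, dist_eq_norm, add_sub_cancel_left, norm_smul,
        Real.norm_of_nonneg (by positivity), norm_sub_rev]
      have h3 : ‖x - y‖ ≤ r := hw
      have h4 : r ≤ r0 * (1 - t) / 2 := min_le_right _ _
      calc t / (1 - t) * ‖x - y‖ ≤ t / (1 - t) * (r0 * (1 - t) / 2) := by gcongr; linarith
        _ = t * r0 / 2 := by field_simp
        _ < r0 := by nlinarith
    have h3 : w = t • x + (1 - t) • (c + (t / (1 - t)) • (y - x)) := by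
      rw [hwy]
      unfold hom
      have h4 : (1 - t) * (t / (1 - t)) = t := by field_simp
      rw [smul_add, smul_smul, h4]
      module
    rw [h3]
    exact hc hx h2 ht0.le h1t.le (by ring)
  have hops : ContDiff ℝ ∞ (op b c t (K.indicator u)) :=
    moll_contDiff b ((memLp_hom c ht0 hu).locallyIntegrable (by norm_num))
  have hopc : HasCompactSupport (op b c t (K.indicator u)) := by
    refine HasCompactSupport.convolution _ (rho_compact b) ?_
    refine HasCompactSupport.of_support_subset_isCompact (isCompact_closedBall c (R / t)) ?_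
    intro y hy
    have h1 : hom c t y ∈ Metric.ball c R := by
      apply hKR
      by_contra h
      exact hy (indicator_of_notMem h _)
    rw [Metric.mem_ball, dist_eq_norm, hom_sub, norm_smul, Real.norm_of_nonneg ht0.le] at h1
    rw [Metric.mem_closedBall, dist_eq_norm, le_div_iff₀ ht0]
    linarith
  refine ⟨op b c t (K.indicator u), ?_, ?_, ?_, ?_⟩
  · exact moll_contDiff b ((memLp_hom c ht0 hu).locallyIntegrable (by norm_num))
  · exact hopc
  · have m1 : MemLp (op b c t (K.indicator u) - K.indicator u) 2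
        (volume.restrict K) :=
      ((hops.continuous.memLp_of_hasCompactSupport hopc).sub hu).restrict _
    have h1 := integral_sq_le m1 hδ0.le (H1 t b (by linarith) ht1 (by linarith))
    refine lt_of_le_of_lt (le_of_eq ?_) (lt_of_le_of_lt h1 hδε)
    refine setIntegral_congr_fun hBm fun x hx => ?_
    simp only [Pi.sub_apply]
    rw [indicator_of_mem hx, Real.norm_eq_abs, sq_abs]
    ring
  · have mo : MemLp (op b c t (K.indicator G)) 2
        (volume.restrict K) := by
      refine ⟨(moll_contDiff b ((memLp_hom c ht0 hG).locallyIntegrable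
        (by norm_num))).continuous.aestronglyMeasurable, ?_⟩
      refine lt_of_le_of_lt (eLpNorm_mono_measure _ Measure.restrict_le_self) ?_
      refine lt_of_le_of_lt (eLpNorm_op_le b c (by linarith) hG) ?_
      exact ENNReal.mul_lt_top (KK_ne_top n).lt_top hG.2
    have mG : MemLp (K.indicator G) 2 (volume.restrict K) :=
      hG.restrict _
    have m1 : MemLp (op b c t (K.indicator G) - K.indicator G) 2
        (volume.restrict K) := mo.sub mG
    set k : E n → E n := t • (op b c t (K.indicator G)
      - K.indicator G) - (1 - t) • K.indicator G with hk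
    have mk : MemLp k 2 (volume.restrict K) :=
      (m1.const_smul t).sub (mG.const_smul (1 - t))
    have hkb : eLpNorm k 2 (volume.restrict K) ≤ ENNReal.ofReal δ := by
      calc eLpNorm k 2 (volume.restrict K)
          ≤ eLpNorm (t • (op b c t (K.indicator G)
              - K.indicator G)) 2 (volume.restrict K)
            + eLpNorm ((1 - t) • K.indicator G) 2
              (volume.restrict K) :=
            eLpNorm_sub_le (m1.const_smul t).1 (mG.const_smul (1 - t)).1 (by norm_num)
        _ = ENNReal.ofReal t * eLpNorm (op b c t (K.indicator G)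
              - K.indicator G) 2 (volume.restrict K)
            + ENNReal.ofReal (1 - t) * eLpNorm (K.indicator G) 2
              (volume.restrict K) := by
            rw [eLpNorm_const_smul, eLpNorm_const_smul, Real.enorm_of_nonneg ht0.le,
              Real.enorm_of_nonneg (by linarith)]
        _ ≤ 1 * ENNReal.ofReal (δ / 2) + ENNReal.ofReal (1 - t) * ENNReal.ofReal NG := by
            gcongr
            · rw [← ENNReal.ofReal_one]
              exact ENNReal.ofReal_le_ofReal ht1.le
            · exact H2 t b (by linarith) ht1 (by linarith)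
            · rw [hNG, ENNReal.ofReal_toReal hG.2.ne]
              exact eLpNorm_mono_measure _ Measure.restrict_le_self
        _ = ENNReal.ofReal (δ / 2 + (1 - t) * NG) := by
            rw [one_mul, ← ENNReal.ofReal_mul (by linarith), ENNReal.ofReal_add (by positivity)
              (mul_nonneg (by linarith) hNG0)]
        _ ≤ ENNReal.ofReal δ := by
            apply ENNReal.ofReal_le_ofReal
            have h1 : (1 - t) * NG ≤ δ / 2 := by
              calc (1 - t) * NG ≤ (δ / 2 / (NG + 1)) * (NG + 1) := by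
                    apply mul_le_mul (by linarith) (by linarith) hNG0 (by positivity)
                _ = δ / 2 := by field_simp
            linarith
    have h1 := integral_sq_le mk hδ0.le hkb
    refine lt_of_le_of_lt (le_of_eq ?_) (lt_of_le_of_lt h1 hδε)
    refine setIntegral_congr_fun hBm fun x hx => ?_
    have hgrad : ∇ (op b c t (K.indicator u)) x =
        t • op b c t (K.indicator G) x := by
      refine ext_inner_right ℝ fun v => ?_
      rw [gradient, InnerProductSpace.toDual_symm_apply, real_inner_smul_left]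
      exact fderiv_opC b c hBm ht0 hu0 hG0 hw x (hxK x hx) v
    simp only [hk]
    rw [hgrad, ← norm_neg]
    congr 2
    simp only [Pi.sub_apply, Pi.smul_apply]
    rw [indicator_of_mem hx]
    module

end Pool.Agent.NE
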