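import Mathlib

set_option autoImplicit false

open MeasureTheory Set ProbabilityTheory
open scoped ENNReal

namespace Pool.Agent.NE

namespace EfronAux

variable {α β : Type*} [MeasurableSpace α] [MeasurableSpace β]

theorem sq_int_le {γ : Measure β} [IsProbabilityMeasure γ] {h : β → ℝ} (hh : MemLp h 2 γ) :
    (∫ x, h x ∂γ) ^ 2 ≤ ∫ x, h x ^ 2 ∂γ := by
  have h1 := variance_eq_sub hh
  have h2 := variance_nonneg h γ
  rw [h1] at h2
  have h3 : γ[h ^ 2] = ∫ x, h x ^ 2 ∂γ := rfl
  rw [h3] at h2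
  linarith

theorem ae_memLp {μ : Measure α} {γ : Measure β} [IsProbabilityMeasure μ]
    [IsProbabilityMeasure γ] {h : α × β → ℝ} (hh : MemLp h 2 (μ.prod γ)) :
    ∀ᵐ z ∂μ, MemLp (fun s => h (z, s)) 2 γ := by
  have h1 : Integrable (fun p => h p ^ 2) (μ.prod γ) := hh.integrable_sq
  have h2 := h1.prod_right_ae
  have h3 := hh.aestronglyMeasurable.prodMk_left
  filter_upwards [h2, h3] with z hz hz'
  exact (memLp_two_iff_integrable_sq hz').mpr hz

theorem int_sq {μ : Measure α} {γ : Measure β} [IsProbabilityMeasure μ]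
    [IsProbabilityMeasure γ] {h : α × β → ℝ} (hh : MemLp h 2 (μ.prod γ)) :
    Integrable (fun z => ∫ s, h (z, s) ^ 2 ∂γ) μ :=
  hh.integrable_sq.integral_prod_left

theorem memLp_int {μ : Measure α} {γ : Measure β} [IsProbabilityMeasure μ]
    [IsProbabilityMeasure γ] {h : α × β → ℝ} (hh : MemLp h 2 (μ.prod γ)) :
    MemLp (fun z => ∫ s, h (z, s) ∂γ) 2 μ := by
  have hm : AEStronglyMeasurable (fun z => ∫ s, h (z, s) ∂γ) μ :=
    hh.aestronglyMeasurable.integral_prod_right'
  refine (memLp_two_iff_integrable_sq hm).mpr ?_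
  refine (int_sq hh).mono' (hm.pow 2) ?_
  filter_upwards [ae_memLp hh] with z hz
  rw [Real.norm_of_nonneg (sq_nonneg _)]
  exact sq_int_le hz

theorem int_sub_sq {γ : Measure β} [IsProbabilityMeasure γ] {f : β → ℝ} (hf : MemLp f 2 γ)
    (a : ℝ) : ∫ y, (f y - a) ^ 2 ∂γ = ∫ y, f y ^ 2 ∂γ - 2 * a * ∫ y, f y ∂γ + a ^ 2 := by
  have h1 : Integrable f γ := hf.integrable one_le_two
  have h2 : Integrable (fun y => f y ^ 2) γ := hf.integrable_sq
  have h3 : Integrable (fun y => 2 * a * f y) γ := h1.const_mul _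
  have h4 : Integrable (fun y => f y ^ 2 - 2 * a * f y) γ := h2.sub h3
  calc ∫ y, (f y - a) ^ 2 ∂γ = ∫ y, ((f y ^ 2 - 2 * a * f y) + a ^ 2) ∂γ := by
        refine integral_congr_ae (Filter.Eventually.of_forall fun y => ?_)
        simp only
        ring
    _ = ∫ y, (f y ^ 2 - 2 * a * f y) ∂γ + ∫ _ : β, a ^ 2 ∂γ :=
        integral_add h4 (integrable_const _)
    _ = _ := by
        rw [integral_sub h2 h3, integral_const_mul]
        simp

/-- The two-factor case. -/
theorem tens {μ : Measure α} {γ : Measure β} [IsProbabilityMeasure μ]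
    [IsProbabilityMeasure γ] {G : α × β → ℝ} (hG : MemLp G 2 (μ.prod γ)) :
    ∫ p, G p ^ 2 ∂(μ.prod γ) - (∫ p, G p ∂(μ.prod γ)) ^ 2 ≤
      ∫ y, (∫ x, G (x, y) ^ 2 ∂μ - (∫ x, G (x, y) ∂μ) ^ 2) ∂γ +
        ∫ x, (∫ y, G (x, y) ^ 2 ∂γ - (∫ y, G (x, y) ∂γ) ^ 2) ∂μ := by
  have hsw : MemLp (fun p : β × α => G (p.2, p.1)) 2 (γ.prod μ) :=
    hG.comp_measurePreserving Measure.measurePreserving_swap
  have hm := memLp_int hsw
  have hl := memLp_int hG
  have hI : Integrable G (μ.prod γ) := hG.integrable one_le_two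
  set m : β → ℝ := fun y => ∫ x, G (x, y) ∂μ with hmdef
  set l : α → ℝ := fun x => ∫ y, G (x, y) ∂γ with hldef
  set c : ℝ := ∫ p, G p ∂(μ.prod γ) with hc
  have hcm : ∫ y, m y ∂γ = c := by rw [hc, integral_prod_symm G hI]
  have hcl : ∫ x, l x ∂μ = c := by rw [hc, integral_prod G hI]
  have hG2 : ∫ p, G p ^ 2 ∂(μ.prod γ) = ∫ x, ∫ y, G (x, y) ^ 2 ∂γ ∂μ :=
    integral_prod _ hG.integrable_sq
  have hG2' : ∫ p, G p ^ 2 ∂(μ.prod γ) = ∫ y, ∫ x, G (x, y) ^ 2 ∂μ ∂γ :=
    integral_prod_symm _ hG.integrable_sq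
  rw [integral_sub (int_sq hsw) hm.integrable_sq, integral_sub (int_sq hG) hl.integrable_sq,
    ← hG2]
  have e1 : ∫ y, ∫ x, G (x, y) ^ 2 ∂μ ∂γ = ∫ p, G p ^ 2 ∂(μ.prod γ) := hG2'.symm
  rw [e1]
  -- remaining: `∫ m² + ∫ l² ≤ ∫ G² + c²`
  have hK : MemLp (fun p : α × β => G p - l p.1) 2 (μ.prod γ) := by
    refine hG.sub ?_
    exact hl.comp_measurePreserving measurePreserving_fst
  have hK2 : Integrable (fun p : α × β => (G p - l p.1) ^ 2) (μ.prod γ) := hK.integrable_sq
  have hsw' : MemLp (fun p : β × α => G (p.2, p.1) - l p.2) 2 (γ.prod μ) :=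
    hK.comp_measurePreserving Measure.measurePreserving_swap
  -- `(m y - c)² ≤ ∫ (G (x, y) - l x)²`
  have hJ : ∀ᵐ y ∂γ, (m y - c) ^ 2 ≤ ∫ x, (G (x, y) - l x) ^ 2 ∂μ := by
    filter_upwards [ae_memLp hsw', ae_memLp hsw] with y hy hy'
    have h1 : m y - c = ∫ x, (G (x, y) - l x) ∂μ := by
      rw [integral_sub (hy'.integrable one_le_two) (hl.integrable one_le_two), hcl]
    rw [h1]
    exact sq_int_le hy
  have hmc : MemLp (fun y => m y - c) 2 γ := hm.sub (memLp_const c)
  have h2 : ∫ y, (m y - c) ^ 2 ∂γ ≤ ∫ y, ∫ x, (G (x, y) - l x) ^ 2 ∂μ ∂γ :=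
    integral_mono_ae hmc.integrable_sq (int_sq hsw') hJ
  have h3 : ∫ y, ∫ x, (G (x, y) - l x) ^ 2 ∂μ ∂γ = ∫ x, ∫ y, (G (x, y) - l x) ^ 2 ∂γ ∂μ := by
    rw [← integral_prod_symm (fun p : α × β => (G p - l p.1) ^ 2) hK2,
      integral_prod (fun p : α × β => (G p - l p.1) ^ 2) hK2]
  have h4 : ∫ x, ∫ y, (G (x, y) - l x) ^ 2 ∂γ ∂μ =
      ∫ x, (∫ y, G (x, y) ^ 2 ∂γ - l x ^ 2) ∂μ := by
    refine integral_congr_ae ?_
    filter_upwards [ae_memLp hG] with x hx
    rw [int_sub_sq hx]
    change _ - 2 * l x * l x + l x ^ 2 = _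
    ring
  have h5 : ∫ y, (m y - c) ^ 2 ∂γ = ∫ y, m y ^ 2 ∂γ - c ^ 2 := by
    rw [int_sub_sq hm, hcm]
    ring
  rw [integral_sub (int_sq hG) hl.integrable_sq, ← hG2] at h4
  have h6 : ∫ x, (fun z => ∫ s, G (z, s) ∂γ) x ^ 2 ∂μ = ∫ x, l x ^ 2 ∂μ := rfl
  linarith

/-- resampling one coordinate preserves the product measure -/
theorem mp_update {n : ℕ} (γ : Measure ℝ) [IsProbabilityMeasure γ] (i : Fin n) :
    MeasurePreserving (fun p : (Fin n → ℝ) × ℝ => Function.update p.1 i p.2)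
      ((Measure.pi fun _ : Fin n => γ).prod γ) (Measure.pi fun _ : Fin n => γ) := by
  have hmeas : Measurable (fun p : (Fin n → ℝ) × ℝ => Function.update p.1 i p.2) := by
    rw [measurable_pi_iff]
    intro j
    by_cases hj : j = i
    · subst hj
      simpa using measurable_snd
    · simp only [Function.update_of_ne hj]
      exact (measurable_pi_apply j).comp measurable_fst
  refine ⟨hmeas, ?_⟩
  refine (Measure.pi_eq fun s hs => ?_).symm
  rw [Measure.map_apply hmeas (MeasurableSet.univ_pi hs)]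
  have h1 : (fun p : (Fin n → ℝ) × ℝ => Function.update p.1 i p.2) ⁻¹' (Set.univ.pi s) =
      (Set.univ.pi (Function.update s i Set.univ)) ×ˢ (s i) := by
    ext p
    simp only [Set.mem_preimage, Set.mem_pi, Set.mem_univ, true_implies, Set.mem_prod]
    constructor
    · intro h
      refine ⟨fun j => ?_, by simpa using h i⟩
      by_cases hj : j = i
      · subst hj; simp
      · have := h j
        rw [Function.update_of_ne hj] at this ⊢
        exact this
    · rintro ⟨h, h'⟩ j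
      by_cases hj : j = i
      · subst hj; simpa using h'
      · have := h j
        rw [Function.update_of_ne hj] at this ⊢
        exact this
  rw [h1, Measure.prod_prod, Measure.pi_pi]
  rw [← Finset.mul_prod_erase _ _ (Finset.mem_univ i), ← Finset.mul_prod_erase _ _ (Finset.mem_univ i)]
  have h2 : ∏ j ∈ Finset.univ.erase i, γ (Function.update s i Set.univ j) =
      ∏ j ∈ Finset.univ.erase i, γ (s j) := by
    refine Finset.prod_congr rfl fun j hj => ?_
    rw [Function.update_of_ne (Finset.ne_of_mem_erase hj)]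
  rw [h2]
  simp [mul_comm]

end EfronAux

open EfronAux in
/-- The Efron-Stein inequality (tensorisation of the variance). -/
theorem efron {n : ℕ} (γ : Measure ℝ) [IsProbabilityMeasure γ] (F : (Fin n → ℝ) → ℝ)
    (hm : Measurable F) (hF : MemLp F 2 (Measure.pi fun _ : Fin n => γ)) :
    ∫ x, F x ^ 2 ∂(Measure.pi fun _ : Fin n => γ) -
        (∫ x, F x ∂(Measure.pi fun _ : Fin n => γ)) ^ 2 ≤
      ∑ i, ∫ x, (∫ t, F (Function.update x i t) ^ 2 ∂γ - (∫ t, F (Function.update x i t) ∂γ) ^ 2)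
        ∂(Measure.pi fun _ : Fin n => γ) := by
  induction n with
  | zero =>
    rw [Measure.pi_of_empty]
    simp
  | succ n ih =>
    set π' := Measure.pi fun _ : Fin (n + 1) => γ with hπ'
    set π := Measure.pi fun _ : Fin n => γ with hπ
    have hmp : MeasurePreserving (MeasurableEquiv.piFinSuccAbove (fun _ : Fin (n + 1) => ℝ) 0)
        π' (γ.prod π) := measurePreserving_piFinSuccAbove (fun _ => γ) 0
    have hmp' := hmp.symm
    have hcons : ∀ p : ℝ × (Fin n → ℝ),
        (MeasurableEquiv.piFinSuccAbove (fun _ : Fin (n + 1) => ℝ) 0).symm p =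
          (Fin.cons p.1 p.2 : Fin (n + 1) → ℝ) := by
      intro p
      simp [MeasurableEquiv.piFinSuccAbove]
      rfl
    have hcm : MeasurePreserving (fun p : ℝ × (Fin n → ℝ) =>
        (Fin.cons p.1 p.2 : Fin (n + 1) → ℝ)) (γ.prod π) π' := by
      have : (fun p : ℝ × (Fin n → ℝ) => (Fin.cons p.1 p.2 : Fin (n + 1) → ℝ)) =
          (MeasurableEquiv.piFinSuccAbove (fun _ : Fin (n + 1) => ℝ) 0).symm :=
        funext fun p => (hcons p).symm
      rw [this]; exact hmp'
    have hint : ∀ f : (Fin (n + 1) → ℝ) → ℝ,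
        ∫ z, f z ∂π' = ∫ p : ℝ × (Fin n → ℝ), f (Fin.cons p.1 p.2) ∂(γ.prod π) := by
      intro f
      rw [← hmp'.integral_comp' f]
      simp_rw [hcons]
    set G : ℝ × (Fin n → ℝ) → ℝ := fun p => F (Fin.cons p.1 p.2) with hG
    have hGL : MemLp G 2 (γ.prod π) := hF.comp_measurePreserving hcm
    have hGm : Measurable G := hm.comp hcm.measurable
    -- the resampled functions
    have hV : ∀ i : Fin (n + 1), Integrable (fun z => ∫ t, F (Function.update z i t) ^ 2 ∂γ -
        (∫ t, F (Function.update z i t) ∂γ) ^ 2) π' := by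
      intro i
      have h1 : MemLp (fun p : (Fin (n + 1) → ℝ) × ℝ => F (Function.update p.1 i p.2)) 2
          (π'.prod γ) := hF.comp_measurePreserving (mp_update γ i)
      exact (int_sq h1).sub (memLp_int h1).integrable_sq
    have h0 := tens hGL
    rw [hint (fun z => F z ^ 2), hint F, Fin.sum_univ_succ]
    refine h0.trans (add_le_add (le_of_eq ?_) ?_)
    · -- the coordinate `0`
      rw [hint]
      have hint0 : Integrable (fun p : ℝ × (Fin n → ℝ) =>
          ∫ t, F (Function.update (Fin.cons p.1 p.2 : Fin (n + 1) → ℝ) 0 t) ^ 2 ∂γ -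
          (∫ t, F (Function.update (Fin.cons p.1 p.2 : Fin (n + 1) → ℝ) 0 t) ∂γ) ^ 2)
          (γ.prod π) := hcm.integrable_comp_of_integrable (hV 0)
      rw [integral_prod _ hint0]
      simp only [Fin.update_cons_zero, integral_const, probReal_univ, smul_eq_mul, one_mul]
      rfl
    · -- the other coordinates
      have hVj : ∀ j : Fin n, Integrable (fun p : ℝ × (Fin n → ℝ) =>
          ∫ t, G (p.1, Function.update p.2 j t) ^ 2 ∂γ -
          (∫ t, G (p.1, Function.update p.2 j t) ∂γ) ^ 2) (γ.prod π) := by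
        intro j
        have h1 := hcm.integrable_comp_of_integrable (hV j.succ)
        refine h1.congr (Filter.Eventually.of_forall fun p => ?_)
        simp only [Function.comp_def, hG, Fin.cons_update]
      have hstep : ∀ᵐ t ∂γ, ∫ x, G (t, x) ^ 2 ∂π - (∫ x, G (t, x) ∂π) ^ 2 ≤
          ∑ j, ∫ x, (∫ s, G (t, Function.update x j s) ^ 2 ∂γ -
            (∫ s, G (t, Function.update x j s) ∂γ) ^ 2) ∂π := by
        filter_upwards [ae_memLp hGL] with t ht
        exact ih (fun x => G (t, x)) (hGm.comp measurable_prodMk_left) ht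
      have hR : Integrable (fun t => ∑ j, ∫ x, (∫ s, G (t, Function.update x j s) ^ 2 ∂γ -
            (∫ s, G (t, Function.update x j s) ∂γ) ^ 2) ∂π) γ :=
        integrable_finsetSum _ fun j _ => (hVj j).integral_prod_left
      refine (integral_mono_ae ((int_sq hGL).sub (memLp_int hGL).integrable_sq) hR hstep).trans
        (le_of_eq ?_)
      rw [integral_finsetSum _ fun j _ => (hVj j).integral_prod_left]
      refine Finset.sum_congr rfl fun j _ => ?_
      rw [hint, ← integral_prod _ (hVj j)]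
      simp only [hG, Fin.cons_update]

end Pool.Agent.NE
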