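import Mathlib

set_option autoImplicit false

open MeasureTheory Set
open scoped ENNReal ContDiff

namespace Pool.Agent.NE

open Filter Topology in
theorem ld_local {N : ℕ} (Q : (Fin N → ℝ) → (Fin N → ℝ)) (hQ : ContDiff ℝ ∞ Q)
    (x : Fin N → ℝ) (hx : (fderiv ℝ Q x).det ≠ 0) (U : Set (Fin N → ℝ)) (hU : U ∈ 𝓝 x) :
    ∃ V : Set (Fin N → ℝ), IsOpen V ∧ x ∈ V ∧ V ⊆ U ∧ InjOn Q V ∧
      ∀ z ∈ V, 0 < (fderiv ℝ Q x).det * (fderiv ℝ Q z).det := by
  have hs : HasStrictFDerivAt Q (fderiv ℝ Q x) x :=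
    hQ.contDiffAt.hasStrictFDerivAt (by simp)
  set A := (fderiv ℝ Q x).toContinuousLinearEquivOfDetNeZero hx with hA
  have hs' : HasStrictFDerivAt Q (A : (Fin N → ℝ) →L[ℝ] (Fin N → ℝ)) x := by
    rw [hA, ContinuousLinearMap.coe_toContinuousLinearEquivOfDetNeZero]
    exact hs
  set e := hs'.toOpenPartialHomeomorph Q with he
  have h1 : e.source ∈ 𝓝 x := e.open_source.mem_nhds hs'.mem_toOpenPartialHomeomorph_source
  have hc : Continuous fun z => (fderiv ℝ Q x).det * (fderiv ℝ Q z).det :=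
    continuous_const.mul (ContinuousLinearMap.continuous_det.comp (hQ.continuous_fderiv (by simp)))
  have h2 : {z | 0 < (fderiv ℝ Q x).det * (fderiv ℝ Q z).det} ∈ 𝓝 x := by
    refine (isOpen_lt continuous_const hc).mem_nhds ?_
    exact mul_self_pos.2 hx
  obtain ⟨V, hV, hVo, hxV⟩ := mem_nhds_iff.1 (inter_mem (inter_mem hU h1) h2)
  refine ⟨V, hVo, hxV, fun z hz => (hV hz).1.1, ?_, fun z hz => (hV hz).2⟩
  exact e.injOn.mono fun z hz => (hV hz).1.2

open Filter Topology in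
/-- The degree integral near a regular value is the signed number of preimages. -/
theorem local_degree {N : ℕ} (Q : (Fin N → ℝ) → (Fin N → ℝ)) (hQ : ContDiff ℝ ∞ Q)
    {ε : ℝ} (hε : 0 < ε)
    (hb : ∀ x : Fin N → ℝ, (∀ i, |x i| ≤ 1) → (∃ i, |x i| = 1) → ε ≤ ‖Q x‖)
    (y : Fin N → ℝ) (hy : ‖y‖ < ε)
    (hreg : ∀ x : Fin N → ℝ, (∀ i, |x i| ≤ 1) → Q x = y → (fderiv ℝ Q x).det ≠ 0) :
    ∃ (P : Finset (Fin N → ℝ)) (φ : (Fin N → ℝ) → ℝ),
      (∀ x, x ∈ P ↔ (∀ i, |x i| ≤ 1) ∧ Q x = y) ∧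
      ContDiff ℝ ∞ φ ∧ (∀ z, ε ≤ ‖z‖ → φ z = 0) ∧ ∫ z, φ z = 1 ∧
      ∫ x in Icc (-1 : Fin N → ℝ) 1, φ (Q x) * (fderiv ℝ Q x).det =
        ∑ x ∈ P, ((SignType.sign ((fderiv ℝ Q x).det) : ℤ) : ℝ) := by
  classical
  have hQc : Continuous Q := hQ.continuous
  have hK : ∀ x : Fin N → ℝ, x ∈ Icc (-1 : Fin N → ℝ) 1 ↔ ∀ i, |x i| ≤ 1 := by
    intro x
    simp only [mem_Icc, Pi.le_def, abs_le]
    constructor
    · rintro ⟨h1, h2⟩ i
      exact ⟨h1 i, h2 i⟩
    · intro h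
      exact ⟨fun i => (h i).1, fun i => (h i).2⟩
  set K : Set (Fin N → ℝ) := Icc (-1 : Fin N → ℝ) 1 with hKdef
  have hKc : IsCompact K := isCompact_Icc
  set S : Set (Fin N → ℝ) := K ∩ Q ⁻¹' {y} with hS
  have hSc : IsCompact S := hKc.inter_right (isClosed_singleton.preimage hQc)
  set U0 : Set (Fin N → ℝ) := {x | ∀ i, |x i| < 1} with hU0
  have hU0o : IsOpen U0 := by
    have : U0 = ⋂ i, {x : Fin N → ℝ | |x i| < 1} := by
      ext x
      simp [hU0]
    rw [this]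
    exact isOpen_iInter_of_finite fun i =>
      isOpen_lt (continuous_abs.comp (continuous_apply i)) continuous_const
  have hU0K : U0 ⊆ K := fun x hx => (hK x).2 fun i => (hx i).le
  have hSU : ∀ x ∈ S, x ∈ U0 := by
    rintro x ⟨hxK, hxy⟩ i
    refine lt_of_le_of_ne ((hK x).1 hxK i) fun h => ?_
    have h1 := hb x ((hK x).1 hxK) ⟨i, h⟩
    rw [show Q x = y from hxy] at h1
    linarith
  have hSdet : ∀ x ∈ S, (fderiv ℝ Q x).det ≠ 0 := fun x hx => hreg x ((hK x).1 hx.1) hx.2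
  -- neighbourhoods
  have hV : ∀ x : Fin N → ℝ, ∃ V : Set (Fin N → ℝ), IsOpen V ∧ x ∈ V ∧ (x ∈ S →
      V ⊆ U0 ∧ InjOn Q V ∧ ∀ z ∈ V, 0 < (fderiv ℝ Q x).det * (fderiv ℝ Q z).det) := by
    intro x
    by_cases hx : x ∈ S
    · obtain ⟨V, h1, h2, h3, h4, h5⟩ := ld_local Q hQ x (hSdet x hx) U0
        (hU0o.mem_nhds (hSU x hx))
      exact ⟨V, h1, h2, fun _ => ⟨h3, h4, h5⟩⟩
    · exact ⟨univ, isOpen_univ, mem_univ x, fun h => absurd h hx⟩
  choose V hVo hxV hVS using hV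
  obtain ⟨P, hPS, hSP⟩ := hSc.elim_nhds_subcover V fun x _ => (hVo x).mem_nhds (hxV x)
  have hP : ∀ x, x ∈ P ↔ x ∈ S := by
    intro x
    refine ⟨hPS x, fun hx => ?_⟩
    obtain ⟨x', hx'P, hxx'⟩ : ∃ x' ∈ P, x ∈ V x' := by
      simpa using hSP hx
    have h1 := (hVS x' (hPS x' hx'P)).2.1
    have h2 : Q x = Q x' := by
      rw [show Q x = y from hx.2, show Q x' = y from (hPS x' hx'P).2]
    rw [h1 hxx' (hxV x') h2]
    exact hx'P
  -- disjoint neighbourhoods
  obtain ⟨D, hD, hDd⟩ := (P.finite_toSet).t2_separation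
  set W : (Fin N → ℝ) → Set (Fin N → ℝ) := fun x => V x ∩ D x with hW
  have hWo : ∀ x, IsOpen (W x) := fun x => (hVo x).inter (hD x).2
  have hxW : ∀ x, x ∈ W x := fun x => ⟨hxV x, (hD x).1⟩
  have hWd : (P : Set (Fin N → ℝ)).Pairwise (Function.onFun Disjoint W) := by
    intro a ha b hb' hab
    exact (hDd ha hb' hab).mono inter_subset_right inter_subset_right
  have hWU : ∀ x ∈ P, W x ⊆ K := fun x hx => inter_subset_left.trans
    ((hVS x ((hP x).1 hx)).1.trans hU0K)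
  have hWi : ∀ x ∈ P, InjOn Q (W x) := fun x hx =>
    (hVS x ((hP x).1 hx)).2.1.mono inter_subset_left
  have hWs : ∀ x ∈ P, ∀ z ∈ W x, 0 < (fderiv ℝ Q x).det * (fderiv ℝ Q z).det := fun x hx z hz =>
    (hVS x ((hP x).1 hx)).2.2 z hz.1
  have himg : ∀ x ∈ P, Q '' W x ∈ 𝓝 y := by
    intro x hx
    have hxS := (hP x).1 hx
    have hs : HasStrictFDerivAt Q (fderiv ℝ Q x) x :=
      hQ.contDiffAt.hasStrictFDerivAt (by simp)
    have hs' : HasStrictFDerivAt Q (((fderiv ℝ Q x).toContinuousLinearEquivOfDetNeZero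
        (hSdet x hxS) : (Fin N → ℝ) ≃L[ℝ] (Fin N → ℝ)) : (Fin N → ℝ) →L[ℝ] (Fin N → ℝ)) x := by
      rw [ContinuousLinearMap.coe_toContinuousLinearEquivOfDetNeZero]
      exact hs
    have h1 := hs'.map_nhds_eq_of_equiv
    rw [show Q x = y from hxS.2] at h1
    rw [← h1]
    exact image_mem_map ((hWo x).mem_nhds (hxW x))
  -- the rest of the cube
  set R : Set (Fin N → ℝ) := K \ ⋃ x ∈ P, W x with hR
  have hUo : IsOpen (⋃ x ∈ P, W x) := isOpen_biUnion fun x _ => hWo x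
  have hRc : IsCompact R := hKc.diff hUo
  have hyR : y ∉ Q '' R := by
    rintro ⟨z, hz, hzy⟩
    have h1 : z ∈ P := (hP z).2 ⟨hz.1, hzy⟩
    exact hz.2 (mem_biUnion h1 (hxW z))
  have hRn : (Q '' R)ᶜ ∈ 𝓝 y := (hRc.image hQc).isClosed.isOpen_compl.mem_nhds hyR
  have hballn : {z : Fin N → ℝ | ‖z‖ < ε} ∈ 𝓝 y :=
    (isOpen_lt continuous_norm continuous_const).mem_nhds hy
  have hPn : (⋂ x ∈ P, Q '' W x) ∈ 𝓝 y := (biInter_finset_mem P).2 himg
  obtain ⟨r, hr, hrT⟩ := Metric.mem_nhds_iff.1 (inter_mem (inter_mem hballn hRn) hPn)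
  -- the bump function
  let f : ContDiffBump y := ⟨r / 2, r, by positivity, by linarith⟩
  set φ := f.normed volume with hφ
  have hφ0 : ∀ z, z ∉ Metric.ball y r → φ z = 0 := by
    intro z hz
    have h1 : Function.support φ = Metric.ball y f.rOut := f.support_normed_eq
    have h2 : z ∉ Function.support φ := by
      rw [h1]
      exact hz
    exact Function.notMem_support.1 h2
  have hφc : ContDiff ℝ ∞ φ := f.contDiff_normed
  have hφi : ∫ z, φ z = 1 := f.integral_normed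
  refine ⟨P, φ, ?_, hφc, ?_, hφi, ?_⟩
  · intro x
    rw [hP x, hS]
    constructor
    · rintro ⟨h1, h2⟩
      exact ⟨(hK x).1 h1, h2⟩
    · rintro ⟨h1, h2⟩
      exact ⟨(hK x).2 h1, h2⟩
  · intro z hz
    refine hφ0 z fun h => ?_
    have := (hrT h).1.1
    exact absurd this (not_lt.2 hz)
  · set F : (Fin N → ℝ) → ℝ := fun x => φ (Q x) * (fderiv ℝ Q x).det with hF
    have hFc : Continuous F := (hφc.continuous.comp hQc).mul
      (ContinuousLinearMap.continuous_det.comp (hQ.continuous_fderiv (by simp)))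
    have hFK : IntegrableOn F K := hFc.continuousOn.integrableOn_compact hKc
    have hsub : (⋃ x ∈ P, W x) ⊆ K := iUnion₂_subset hWU
    have e1 : ∫ x in K, F x = ∫ x in ⋃ x ∈ P, W x, F x := by
      refine setIntegral_eq_of_subset_of_forall_sdiff_eq_zero hKc.measurableSet hsub ?_
      intro z hz
      have h1 : φ (Q z) = 0 := by
        refine hφ0 _ fun h => ?_
        exact (hrT h).1.2 ⟨z, hz, rfl⟩
      rw [hF]
      simp only
      rw [h1, zero_mul]
    rw [e1, integral_biUnion_finset P (fun x _ => (hWo x).measurableSet) hWd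
      (fun x hx => hFK.mono_set (hWU x hx))]
    refine Finset.sum_congr rfl fun x hx => ?_
    have e2 := integral_image_eq_integral_abs_det_fderiv_smul (volume : Measure (Fin N → ℝ))
      (hWo x).measurableSet (f := Q) (f' := fun z => fderiv ℝ Q z)
      (fun z _ => ((hQ.differentiable (by simp)) z).hasFDerivAt.hasFDerivWithinAt)
      (hWi x hx) φ
    have e3 : ∫ z in Q '' W x, φ z = 1 := by
      rw [setIntegral_eq_integral_of_forall_compl_eq_zero, hφi]
      intro z hz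
      refine hφ0 z fun h => hz ?_
      have := (hrT h).2
      exact mem_iInter₂.1 this x hx
    rw [e3] at e2
    have e4 : ∫ z in W x, F z = ∫ z in W x,
        ((SignType.sign ((fderiv ℝ Q x).det) : ℤ) : ℝ) * (|(fderiv ℝ Q z).det| • φ (Q z)) := by
      refine setIntegral_congr_fun (hWo x).measurableSet fun z hz => ?_
      have h1 := hWs x hx z hz
      simp only [hF, smul_eq_mul]
      rcases lt_trichotomy (fderiv ℝ Q x).det 0 with h2 | h2 | h2
      · have h3 : (fderiv ℝ Q z).det < 0 := by nlinarith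
        rw [sign_neg h2, abs_of_neg h3]
        simp
        ring
      · rw [h2, zero_mul] at h1
        exact absurd h1 (lt_irrefl _)
      · have h3 : 0 < (fderiv ℝ Q z).det := by
          by_contra h4
          have := mul_nonpos_of_nonneg_of_nonpos h2.le (not_lt.1 h4)
          linarith
        rw [sign_pos h2, abs_of_pos h3]
        simp
        ring
    rw [e4, integral_const_mul, ← e2, mul_one]

end Pool.Agent.NE
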