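import Pool.Agent.NE.EvA1
import Pool.Agent.NE.EvA2

set_option autoImplicit false

open MeasureTheory Set
open scoped ENNReal ContDiff

namespace Pool.Agent.NE

/-- A smooth map of the cube that is invariant under a nontrivial change of signs of the coordinates
is not homotopic to the identity through maps without zeros on the boundary. -/
theorem no_sym_smooth {N : ℕ} (s : Fin N → ℝ) (hs : ∀ i, s i = 1 ∨ s i = -1)
    (hs' : ∃ i, s i = -1) (Q : (Fin N → ℝ) → (Fin N → ℝ)) (hQ : ContDiff ℝ ∞ Q)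
    (hsym : ∀ x : Fin N → ℝ, Q (fun i => s i * x i) = Q x) {ε : ℝ} (hε : 0 < ε)
    (hh : ∀ x : Fin N → ℝ, (∀ i, |x i| ≤ 1) → (∃ i, |x i| = 1) → ∀ t ∈ Icc (0 : ℝ) 1,
      ε ≤ ‖(1 - t) • x + t • Q x‖) : False := by
  classical
  obtain ⟨i0, hi0⟩ := hs'
  have hN : 1 ≤ N := by
    have := i0.pos
    omega
  have habs : ∀ i, |s i| = 1 := by
    intro i
    rcases hs i with h | h <;> rw [h] <;> norm_num
  have hss : ∀ i, s i * s i = 1 := by
    intro i
    rcases hs i with h | h <;> rw [h] <;> norm_num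
  -- ε ≤ 1
  have hε1 : ε ≤ 1 := by
    have h1 := hh (fun _ => (1 : ℝ)) (fun i => by norm_num) ⟨i0, by norm_num⟩ 0
      ⟨le_rfl, zero_le_one⟩
    refine h1.trans ?_
    have h2 : ((1 : ℝ) - 0) • (fun _ : Fin N => (1 : ℝ)) + (0 : ℝ) • Q (fun _ => 1) =
        fun _ => (1 : ℝ) := by
      ext i
      simp
    rw [h2]
    refine (pi_norm_le_iff_of_nonneg zero_le_one).2 fun i => by norm_num
  have hb : ∀ x : Fin N → ℝ, (∀ i, |x i| ≤ 1) → (∃ i, |x i| = 1) → ε ≤ ‖Q x‖ := by
    intro x h1 h2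
    have h3 := hh x h1 h2 1 ⟨zero_le_one, le_rfl⟩
    simpa using h3
  -- a regular value
  set crit : Set (Fin N → ℝ) := {x | (fderiv ℝ Q x).det = 0} with hcrit
  have hnull : volume (Q '' crit) = 0 :=
    addHaar_image_eq_zero_of_det_fderivWithin_eq_zero volume
      (fun x _ => ((hQ.differentiable (by simp)) x).hasFDerivAt.hasFDerivWithinAt)
      (fun x hx => hx)
  obtain ⟨y, hyb, hyc⟩ : ∃ y ∈ Metric.ball (0 : Fin N → ℝ) ε, y ∉ Q '' crit := by
    by_contra h
    push Not at h
    have h1 : volume (Metric.ball (0 : Fin N → ℝ) ε) ≤ volume (Q '' crit) := measure_mono h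
    rw [hnull] at h1
    exact absurd (Metric.measure_ball_pos volume (0 : Fin N → ℝ) hε) (not_lt.2 h1)
  have hreg : ∀ x : Fin N → ℝ, (∀ i, |x i| ≤ 1) → Q x = y → (fderiv ℝ Q x).det ≠ 0 :=
    fun x _ hxy h0 => hyc ⟨x, h0, hxy⟩
  obtain ⟨P, φ, hP, hφc, hφ0, hφi, hint⟩ := local_degree Q hQ hε hb y (by simpa using hyb) hreg
  have hdeg := deg_integral hN Q hQ hε hh φ (hφc.of_le (by simp)) hφ0
  have hK1 : ∫ x in Icc (-1 : Fin N → ℝ) 1, φ x = 1 := by
    rw [setIntegral_eq_integral_of_forall_compl_eq_zero, hφi]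
    intro z hz
    refine hφ0 z ?_
    by_contra h
    push Not at h
    refine hz ?_
    have h1 : ∀ i, |z i| ≤ 1 := fun i => by
      have := norm_le_pi_norm z i
      rw [Real.norm_eq_abs] at this
      linarith
    exact ⟨fun i => (abs_le.1 (h1 i)).1, fun i => (abs_le.1 (h1 i)).2⟩
  rw [hint, hK1] at hdeg
  -- the symmetry
  set S : (Fin N → ℝ) →L[ℝ] (Fin N → ℝ) :=
    ContinuousLinearMap.pi fun i => s i • ContinuousLinearMap.proj i with hS
  have hSa : ∀ x : Fin N → ℝ, S x = fun i => s i * x i := by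
    intro x
    ext i
    simp [hS]
  have hQS : ∀ x, fderiv ℝ Q x = (fderiv ℝ Q (S x)).comp S := by
    intro x
    have h1 : HasFDerivAt (fun x => Q (S x)) ((fderiv ℝ Q (S x)).comp S) x :=
      ((hQ.differentiable (by simp)) (S x)).hasFDerivAt.comp x S.hasFDerivAt
    have h2 : (fun x => Q (S x)) = Q := by
      funext x
      rw [hSa x, hsym x]
    rw [h2] at h1
    exact h1.fderiv
  have hfix : ∀ x ∈ P, S x ≠ x := by
    intro x hx h
    have hdet := hreg x ((hP x).1 hx).1 ((hP x).1 hx).2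
    have h1 := hQS x
    rw [h] at h1
    have h2 : fderiv ℝ Q x (Pi.single i0 1) = 0 := by
      have h3 : S (Pi.single i0 1) = -Pi.single i0 1 := by
        rw [hSa]
        ext j
        by_cases hj : j = i0
        · subst hj
          simp [hi0]
        · simp [hj]
      have h4 : fderiv ℝ Q x (Pi.single i0 1) = fderiv ℝ Q x (S (Pi.single i0 1)) := by
        conv_lhs => rw [h1]
        rfl
      rw [h3, map_neg] at h4
      ext j
      have h5 := congrFun h4 j
      simp only [Pi.neg_apply] at h5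
      simp only [Pi.zero_apply]
      linarith
    have h6 : (fderiv ℝ Q x).toContinuousLinearEquivOfDetNeZero hdet (Pi.single i0 1) =
        (fderiv ℝ Q x).toContinuousLinearEquivOfDetNeZero hdet 0 := by
      rw [map_zero, ContinuousLinearMap.toContinuousLinearEquivOfDetNeZero_apply]
      exact h2
    have h7 := ((fderiv ℝ Q x).toContinuousLinearEquivOfDetNeZero hdet).injective h6
    have h8 := congrFun h7 i0
    simp at h8
  have hSP : ∀ x ∈ P, S x ∈ P := by
    intro x hx
    obtain ⟨h1, h2⟩ := (hP x).1 hx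
    refine (hP _).2 ⟨fun i => ?_, ?_⟩
    · rw [hSa]
      simp only
      rw [abs_mul, habs i, one_mul]
      exact h1 i
    · rw [hSa, hsym, h2]
  have hSS : ∀ x, S (S x) = x := by
    intro x
    rw [hSa, hSa]
    ext i
    simp only
    rw [← mul_assoc, hss, one_mul]
  -- parity
  have hZ : ∑ x ∈ P, ((SignType.sign ((fderiv ℝ Q x).det) : SignType) : ℤ) = 1 := by
    exact_mod_cast hdeg
  have hZ2 : ∑ x ∈ P, (1 : ZMod 2) = 1 := by
    have h1 := congrArg (Int.cast : ℤ → ZMod 2) hZ
    rw [Int.cast_sum, Int.cast_one] at h1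
    have h9 : ∀ x ∈ P, (1 : ZMod 2) =
        (((SignType.sign ((fderiv ℝ Q x).det) : SignType) : ℤ) : ZMod 2) := by
      intro x hx
      have hdet := hreg x ((hP x).1 hx).1 ((hP x).1 hx).2
      rcases lt_or_gt_of_ne hdet with h2 | h2
      · rw [sign_neg h2]
        decide
      · rw [sign_pos h2]
        decide
    rw [Finset.sum_congr rfl h9, h1]
  have hZ0 : ∑ x ∈ P, (1 : ZMod 2) = 0 := by
    refine Finset.sum_involution (fun x _ => S x) (fun x _ => by decide) (fun x hx _ => hfix x hx)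
      (fun x hx => hSP x hx) (fun x _ => hSS x)
  rw [hZ0] at hZ2
  exact absurd hZ2 (by decide)

end Pool.Agent.NE
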