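import Mathlib
import Pool.Agent.H42.DegInt

set_option autoImplicit false

open MeasureTheory Set
open scoped ENNReal ContDiff

namespace Pool.Agent.NE

/-- The homotopy from the identity to `Q`. -/
noncomputable def evH {N : ℕ} (Q : (Fin N → ℝ) → (Fin N → ℝ)) (u : Fin (N + 1) → ℝ) :
    Fin N → ℝ :=
  (1 - u 0) • (fun k : Fin N => u k.succ) + u 0 • Q (fun k : Fin N => u k.succ)

/-- The projection to the last coordinates. -/
noncomputable def evT (N : ℕ) : (Fin (N + 1) → ℝ) →L[ℝ] (Fin N → ℝ) :=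
  ContinuousLinearMap.pi fun k => ContinuousLinearMap.proj k.succ

theorem evT_apply {N : ℕ} (u : Fin (N + 1) → ℝ) : evT N u = fun k => u k.succ := by
  ext k
  simp [evT]

theorem evH_eq {N : ℕ} (Q : (Fin N → ℝ) → (Fin N → ℝ)) :
    evH Q = fun u => (1 - u 0) • evT N u + u 0 • Q (evT N u) := by
  funext u
  rw [evT_apply]
  rfl

theorem evH_contDiff {N : ℕ} {Q : (Fin N → ℝ) → (Fin N → ℝ)} (hQ : ContDiff ℝ ∞ Q) :
    ContDiff ℝ ∞ (evH Q) := by
  rw [evH_eq]
  have h0 : ContDiff ℝ ∞ fun u : Fin (N + 1) → ℝ => u 0 := contDiff_apply ℝ ℝ 0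
  exact ((contDiff_const.sub h0).smul (evT N).contDiff).add (h0.smul (hQ.comp (evT N).contDiff))

theorem evH_fderiv {N : ℕ} {Q : (Fin N → ℝ) → (Fin N → ℝ)} (hQ : ContDiff ℝ ∞ Q)
    (u : Fin (N + 1) → ℝ) (k : Fin N) :
    fderiv ℝ (evH Q) u (Pi.single k.succ 1) = (1 - u 0) • (Pi.single k (1 : ℝ) : Fin N → ℝ) +
      u 0 • fderiv ℝ Q (fun j => u j.succ) (Pi.single k 1) := by
  have h0 : HasFDerivAt (fun u : Fin (N + 1) → ℝ => u 0)
      (ContinuousLinearMap.proj 0 : (Fin (N + 1) → ℝ) →L[ℝ] ℝ) u :=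
    (ContinuousLinearMap.proj 0 : (Fin (N + 1) → ℝ) →L[ℝ] ℝ).hasFDerivAt
  have hT : HasFDerivAt (fun u => evT N u) (evT N) u := (evT N).hasFDerivAt
  have hQ1 : HasFDerivAt (fun u => Q (evT N u)) ((fderiv ℝ Q (evT N u)).comp (evT N)) u :=
    ((hQ.differentiable (by simp)) (evT N u)).hasFDerivAt.comp u hT
  have h1 := ((h0.const_sub 1).fun_smul hT).fun_add (h0.fun_smul hQ1)
  rw [evH_eq, h1.fderiv]
  have hTs : evT N (Pi.single k.succ 1) = Pi.single k 1 := by
    rw [evT_apply]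
    ext j
    by_cases hj : j = k
    · subst hj
      simp
    · simp [hj]
  have hp : (ContinuousLinearMap.proj 0 : (Fin (N + 1) → ℝ) →L[ℝ] ℝ) (Pi.single k.succ 1) = 0 := by
    simp
  simp only [_root_.add_apply, _root_.smul_apply, ContinuousLinearMap.smulRight_apply,
    _root_.neg_apply, hp, neg_zero, zero_smul, add_zero, ContinuousLinearMap.comp_apply, hTs,
    evT_apply]

theorem evdet {N : ℕ} (A : (Fin N → ℝ) →L[ℝ] (Fin N → ℝ)) :
    Matrix.det (fun k j : Fin N => A (Pi.single k 1) j) = A.det := by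
  have h1 : (fun k j : Fin N => A (Pi.single k 1) j) =
      (LinearMap.toMatrix' ((A : (Fin N → ℝ) →L[ℝ] (Fin N → ℝ)) :
        (Fin N → ℝ) →ₗ[ℝ] (Fin N → ℝ))).transpose := by
    ext k j
    simp [LinearMap.toMatrix'_apply, Matrix.transpose_apply]
  rw [h1]
  rw [Matrix.det_transpose, LinearMap.det_toMatrix']

/-- The degree integral of a smooth map which is homotopic to the identity through maps that do not
vanish on the boundary of the cube. -/
theorem deg_integral {N : ℕ} (hN : 1 ≤ N) (Q : (Fin N → ℝ) → (Fin N → ℝ)) (hQ : ContDiff ℝ ∞ Q)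
    {ε : ℝ} (hε : 0 < ε)
    (hh : ∀ x : Fin N → ℝ, (∀ i, |x i| ≤ 1) → (∃ i, |x i| = 1) → ∀ t ∈ Icc (0 : ℝ) 1,
      ε ≤ ‖(1 - t) • x + t • Q x‖)
    (φ : (Fin N → ℝ) → ℝ) (hφ : ContDiff ℝ 1 φ) (hs : ∀ y, ε ≤ ‖y‖ → φ y = 0) :
    ∫ x in Icc (-1 : Fin N → ℝ) 1, φ (Q x) * (fderiv ℝ Q x).det =
      ∫ x in Icc (-1 : Fin N → ℝ) 1, φ x := by
  set a : Fin (N + 1) → ℝ := Fin.cons 0 (fun _ => -1) with ha
  set b : Fin (N + 1) → ℝ := Fin.cons 1 (fun _ => 1) with hb
  have hab : a ≤ b := by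
    intro i
    refine Fin.cases ?_ (fun k => ?_) i
    · simp [ha, hb]
    · simp [ha, hb]
  have key := Pool.Agent.H42.Deg.hom_inv (evH Q) φ a b hab
    (fun x _ => ((evH_contDiff hQ).of_le (by norm_cast)).contDiffAt) hφ (by
      intro x hx i hi h
      obtain ⟨k, rfl⟩ := Fin.exists_succ_eq.mpr hi
      refine hs _ (hh _ (fun j => ?_) ⟨k, ?_⟩ (x 0) ?_)
      · have h1 := hx.1 j.succ
        have h2 := hx.2 j.succ
        simp only [ha, hb, Fin.cons_succ] at h1 h2
        exact abs_le.2 ⟨h1, h2⟩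
      · rcases h with h | h
        · rw [h]
          simp [ha]
        · rw [h]
          simp [hb]
      · have h1 := hx.1 0
        have h2 := hx.2 0
        simp only [ha, hb, Fin.cons_zero] at h1 h2
        exact ⟨h1, h2⟩)
  have ea : a ∘ Fin.succ = (-1 : Fin N → ℝ) := by
    funext k
    simp [ha]
  have eb : b ∘ Fin.succ = (1 : Fin N → ℝ) := by
    funext k
    simp [hb]
  have ea0 : a 0 = 0 := by simp [ha]
  have eb0 : b 0 = 1 := by simp [hb]
  rw [ea, eb, ea0, eb0] at key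
  have eta_app : ∀ (u : Fin (N + 1) → ℝ),
      Pool.Agent.H42.Deg.eta (evH Q) φ u (fun k => Pi.single k.succ 1) =
        φ (evH Q u) * Matrix.det (fun k : Fin N => fderiv ℝ (evH Q) u (Pi.single k.succ 1)) := by
    intro u
    rfl
  have h1 : ∀ y : Fin N → ℝ,
      Pool.Agent.H42.Deg.eta (evH Q) φ (Fin.cons 1 y) (fun k => Pi.single k.succ 1) =
        φ (Q y) * (fderiv ℝ Q y).det := by
    intro y
    rw [eta_app, ← evdet]
    have e1 : evH Q (Fin.cons 1 y) = Q y := by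
      simp [evH]
    rw [e1]
    congr 2
    funext k
    rw [evH_fderiv hQ]
    simp
  have h0 : ∀ y : Fin N → ℝ,
      Pool.Agent.H42.Deg.eta (evH Q) φ (Fin.cons 0 y) (fun k => Pi.single k.succ 1) = φ y := by
    intro y
    rw [eta_app]
    have e1 : evH Q (Fin.cons 0 y) = y := by
      simp [evH]
    have e2 : (fun k : Fin N => fderiv ℝ (evH Q) (Fin.cons 0 y) (Pi.single k.succ 1)) =
        (1 : Matrix (Fin N) (Fin N) ℝ) := by
      funext k
      rw [evH_fderiv hQ]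
      simp only [Fin.cons_zero, sub_zero, one_smul, zero_smul, add_zero]
      ext j
      rw [Matrix.one_apply, Pi.single_apply]
      simp only [eq_comm]
    rw [e1, e2, Matrix.det_one, mul_one]
  simp_rw [h1, h0] at key
  exact key

end Pool.Agent.NE
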