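import Pool.Agent.NE.Tools

set_option autoImplicit false

open MeasureTheory Set
open scoped ENNReal

namespace Pool.Agent.NE

variable {n : ℕ}

lemma fold_zero (q : ℝ) (x : E n) : fold (0 : E n) q x = x := by
  simp [fold]

theorem fold_lip (p : E n) (q : ℝ) : LipschitzWith 1 (fold p q) := by
  apply LipschitzWith.of_dist_le_mul
  intro x y
  rw [dist_eq_norm, dist_eq_norm, NNReal.coe_one, one_mul]
  by_cases hp : p = 0
  · subst hp; rw [fold_zero, fold_zero]
  have hp0 : 0 < ‖p‖ := norm_pos_iff.mpr hp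
  have hsq : ‖fold p q x - fold p q y‖ ^ 2 ≤ ‖x - y‖ ^ 2 := by
    set a := max (q - inner ℝ p x) 0 with ha
    set b := max (q - inner ℝ p y) 0 with hb
    have e : fold p q x - fold p q y = (x - y) + (2 * (a - b) / ‖p‖ ^ 2) • p := by
      simp only [fold, ← ha, ← hb]
      have : (2 * (a - b) / ‖p‖ ^ 2) = 2 * a / ‖p‖ ^ 2 - 2 * b / ‖p‖ ^ 2 := by ring
      rw [this, sub_smul]; abel
    rw [e, norm_add_sq_real, inner_smul_right, norm_smul, mul_pow, Real.norm_eq_abs, sq_abs]
    have h1 : inner ℝ (x - y) p = inner ℝ p x - inner ℝ p y := by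
      rw [real_inner_comm, inner_sub_right]
    rw [h1]
    have h2 : (2 * (a - b) / ‖p‖ ^ 2) ^ 2 * ‖p‖ ^ 2 = 4 * (a - b) ^ 2 / ‖p‖ ^ 2 := by
      field_simp; ring
    rw [h2]
    have h3 : 0 ≤ (a - b) * (((q - inner ℝ p x) - (q - inner ℝ p y)) - (a - b)) := by
      have ha1 : q - inner ℝ p x ≤ a := le_max_left _ _
      have ha2 : 0 ≤ a := le_max_right _ _
      have hb1 : q - inner ℝ p y ≤ b := le_max_left _ _
      have hb2 : 0 ≤ b := le_max_right _ _
      have ha3 : a * (a - (q - inner ℝ p x)) = 0 := by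
        rcases le_total (q - inner ℝ p x) 0 with h | h
        · rw [ha, max_eq_right h]; ring
        · rw [ha, max_eq_left h]; ring
      have hb3 : b * (b - (q - inner ℝ p y)) = 0 := by
        rcases le_total (q - inner ℝ p y) 0 with h | h
        · rw [hb, max_eq_right h]; ring
        · rw [hb, max_eq_left h]; ring
      nlinarith [mul_nonneg ha2 (sub_nonneg.mpr hb1), mul_nonneg hb2 (sub_nonneg.mpr ha1)]
    have h4 : 2 * (2 * (a - b) / ‖p‖ ^ 2 * (inner ℝ p x - inner ℝ p y)) +
        4 * (a - b) ^ 2 / ‖p‖ ^ 2 =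
        -(4 * ((a - b) * (((q - inner ℝ p x) - (q - inner ℝ p y)) - (a - b))) / ‖p‖ ^ 2) := by
      field_simp; ring
    have h5 : 0 ≤ 4 * ((a - b) * (((q - inner ℝ p x) - (q - inner ℝ p y)) - (a - b))) /
      ‖p‖ ^ 2 := by positivity
    linarith
  exact le_of_sq_le_sq hsq (norm_nonneg _)

/-- The linear part of the reflection. -/
noncomputable def reflL (p : E n) : E n ≃ₗᵢ[ℝ] E n :=
  ((ℝ ∙ p).reflection).trans (LinearIsometryEquiv.neg ℝ)

lemma reflL_apply (p : E n) (v : E n) : reflL p v = v - (2 * inner ℝ p v / ‖p‖ ^ 2) • p := by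
  have h : reflL p v = -((ℝ ∙ p).reflection v) := rfl
  rw [h, Submodule.reflection_singleton_apply]
  simp only [RCLike.ofReal_real_eq_id, id_eq]
  rw [two_nsmul, ← add_smul]
  have : inner ℝ p v / ‖p‖ ^ 2 + inner ℝ p v / ‖p‖ ^ 2 = 2 * inner ℝ p v / ‖p‖ ^ 2 := by ring
  rw [this]
  abel

lemma hyperplane_null {p : E n} (hp : p ≠ 0) (q : ℝ) :
    volume {x : E n | inner ℝ p x = q} = 0 := by
  classical
  -- a point of the hyperplane
  set x0 : E n := (q / ‖p‖ ^ 2) • p with hx0
  have hp0 : ‖p‖ ≠ 0 := norm_ne_zero_iff.mpr hp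
  have hx0' : inner ℝ p x0 = q := by
    rw [hx0, inner_smul_right, real_inner_self_eq_norm_sq]
    field_simp
  set K : Submodule ℝ (E n) := LinearMap.ker (innerSL ℝ p).toLinearMap with hK
  have hKne : K ≠ ⊤ := by
    intro h
    have : p ∈ K := by rw [h]; trivial
    rw [hK, LinearMap.mem_ker] at this
    have h2 : inner ℝ p p = (0 : ℝ) := by simpa using this
    rw [real_inner_self_eq_norm_sq] at h2
    exact hp0 (by simpa using h2)
  have h0 : volume (K : Set (E n)) = 0 := Measure.addHaar_submodule volume K hKne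
  have h1 : {x : E n | inner ℝ p x = q} = (fun x => x + (-x0)) ⁻¹' (K : Set (E n)) := by
    ext x
    simp only [mem_ofPred_eq, mem_preimage, SetLike.mem_coe, hK, LinearMap.mem_ker]
    have : (innerSL ℝ p).toLinearMap (x + -x0) = inner ℝ p x - q := by
      change inner ℝ p (x + -x0) = _
      rw [inner_add_right, inner_neg_right, hx0']; ring
    rw [this, sub_eq_zero]
  rw [h1, measure_preimage_add_right, h0]

lemma fold_of_ge {p : E n} {q : ℝ} {x : E n} (h : q ≤ inner ℝ p x) : fold p q x = x := by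
  unfold fold
  rw [max_eq_right (by linarith)]
  simp

lemma fold_of_le {p : E n} {q : ℝ} {x : E n} (h : inner ℝ p x ≤ q) :
    fold p q x = reflL p x + (2 * q / ‖p‖ ^ 2) • p := by
  unfold fold
  rw [max_eq_left (by linarith), reflL_apply, sub_add, ← sub_smul]
  have : 2 * (q - inner ℝ p x) / ‖p‖ ^ 2 =
    -(2 * inner ℝ p x / ‖p‖ ^ 2 - 2 * q / ‖p‖ ^ 2) := by ring
  rw [this, neg_smul, ← sub_eq_add_neg]

/-- At almost every point the derivative of the fold is a linear isometry. -/
theorem fold_deriv (p : E n) (q : ℝ) : ∀ᵐ x : E n, ∃ L : E n ≃ₗᵢ[ℝ] E n,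
    HasFDerivAt (fold p q) (L.toContinuousLinearEquiv : E n →L[ℝ] E n) x := by
  by_cases hp : p = 0
  · refine Filter.Eventually.of_forall fun x => ⟨LinearIsometryEquiv.refl ℝ (E n), ?_⟩
    have : fold p q = id := by
      funext x; rw [hp, fold_zero]; rfl
    rw [this]
    exact hasFDerivAt_id x
  have hnull := hyperplane_null hp q
  have hae : ∀ᵐ x : E n, ¬ (inner ℝ p x = q) := by
    rw [ae_iff]; simpa using hnull
  filter_upwards [hae] with x hx
  rcases lt_or_gt_of_ne hx with h | h
  · refine ⟨reflL p, ?_⟩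
    have h1 : HasFDerivAt (fun y : E n => reflL p y + (2 * q / ‖p‖ ^ 2) • p)
        ((reflL p).toContinuousLinearEquiv : E n →L[ℝ] E n) x :=
      ((reflL p).toContinuousLinearEquiv : E n →L[ℝ] E n).hasFDerivAt.add_const _
    refine h1.congr_of_eventuallyEq ?_
    have h2 : ∀ᶠ y in nhds x, inner ℝ p y < q :=
      (isOpen_lt (continuous_const.inner continuous_id) continuous_const).mem_nhds h
    filter_upwards [h2] with y hy
    exact fold_of_le hy.le
  · refine ⟨LinearIsometryEquiv.refl ℝ (E n), ?_⟩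
    refine (hasFDerivAt_id x).congr_of_eventuallyEq ?_
    have h2 : ∀ᶠ y in nhds x, q < inner ℝ p y :=
      (isOpen_lt continuous_const (continuous_const.inner continuous_id)).mem_nhds h
    filter_upwards [h2] with y hy
    exact fold_of_ge hy.le

theorem map_fold_le {Ω : Set (E n)} (hΩ : MeasurableSet Ω) (p : E n) (q : ℝ) (A : E n) :
    (volume.restrict Ω).map (fun x => fold p q x - A) ≤ (2 : ℝ≥0∞) • volume := by
  have hF : Measurable (fun x => fold p q x - A) :=
    ((fold_lip p q).continuous.sub continuous_const).measurable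
  refine Measure.le_iff.mpr fun S hS => ?_
  rw [Measure.map_apply hF hS]
  have h1 : (fun x => fold p q x - A) ⁻¹' S ⊆
      ((fun x => x + (-A)) ⁻¹' S) ∪
        ((reflL p) ⁻¹' ((fun x => x + ((2 * q / ‖p‖ ^ 2) • p - A)) ⁻¹' S)) := by
    intro x hx
    rw [mem_preimage] at hx
    rcases le_total q (inner ℝ p x) with h | h
    · left
      rw [fold_of_ge h] at hx
      rw [mem_preimage, ← sub_eq_add_neg]; exact hx
    · right
      rw [fold_of_le h] at hx
      rw [mem_preimage, mem_preimage, ← add_sub_assoc]; exact hx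
  calc (volume.restrict Ω) ((fun x => fold p q x - A) ⁻¹' S)
      ≤ volume ((fun x => fold p q x - A) ⁻¹' S) := Measure.restrict_apply_le _ _
    _ ≤ volume (((fun x => x + (-A)) ⁻¹' S) ∪
        ((reflL p) ⁻¹' ((fun x => x + ((2 * q / ‖p‖ ^ 2) • p - A)) ⁻¹' S))) := measure_mono h1
    _ ≤ _ := measure_union_le _ _
    _ = volume S + volume S := by
        rw [measure_preimage_add_right,
          (reflL p).measurePreserving.measure_preimage
            ((measurable_add_const _) hS).nullMeasurableSet,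
          measure_preimage_add_right]
    _ = ((2 : ℝ≥0∞) • volume) S := by
        rw [Measure.smul_apply, smul_eq_mul, two_mul]

/-- Equivariance of the fold under the reflection `y ↦ y - 2 ⟨p, y⟩ p`. -/
theorem fold_neg {p : E n} (hp : ‖p‖ = 1) (x : E n) :
    fold (-p) 0 x = fold p 0 x - (2 * inner ℝ p (fold p 0 x)) • p := by
  have hpp : inner ℝ p p = (1 : ℝ) := by rw [real_inner_self_eq_norm_sq, hp]; norm_num
  unfold fold
  rw [inner_neg_left, norm_neg, hp]
  simp only [inner_add_right, inner_smul_right, hpp]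
  rcases le_total (inner ℝ p x) 0 with h | h
  · rw [max_eq_right (by linarith), max_eq_left (by linarith)]
    simp only [one_pow, div_one, mul_zero, zero_smul, add_zero, mul_one, zero_sub]
    rw [add_sub_assoc, ← sub_smul]
    have : 2 * -inner ℝ p x - 2 * (inner ℝ p x + 2 * -inner ℝ p x) = 0 := by ring
    rw [this]; simp
  · rw [max_eq_left (by linarith), max_eq_right (by linarith)]
    simp only [one_pow, div_one, mul_zero, zero_smul, add_zero, mul_one, zero_sub,
      neg_neg, smul_neg]
    rw [sub_eq_add_neg]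

theorem fold_cont (x : E n) :
    ContinuousOn (fun z : E n × ℝ => fold z.1 z.2 x) {z | ‖z.1‖ ^ 2 + z.2 ^ 2 = 1 ∧ z.2 ≤ 0} := by
  rintro ⟨p, q⟩ ⟨h1, h2⟩
  simp only at h1 h2
  by_cases hp : p = 0
  · subst hp
    have hq : q = -1 := by
      have : q ^ 2 = 1 := by simpa using h1
      rcases (sq_eq_one_iff.mp this) with h | h
      · linarith
      · exact h
    subst hq
    apply ContinuousAt.continuousWithinAt
    have hev : ∀ᶠ z : E n × ℝ in nhds ((0 : E n), (-1 : ℝ)), z.2 - inner ℝ z.1 x < 0 := by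
      have hc : Continuous (fun z : E n × ℝ => z.2 - inner ℝ z.1 x) :=
        continuous_snd.sub (continuous_fst.inner continuous_const)
      exact (isOpen_lt hc continuous_const).mem_nhds (by simp)
    have hc : ContinuousAt (fun _ : E n × ℝ => x) ((0 : E n), (-1 : ℝ)) := continuousAt_const
    refine hc.congr ?_
    filter_upwards [hev] with z hz
    rw [fold_of_ge (by linarith)]
  · apply ContinuousAt.continuousWithinAt
    unfold fold
    have hp0 : ‖p‖ ^ 2 ≠ 0 := pow_ne_zero _ (norm_ne_zero_iff.mpr hp)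
    have c1 : ContinuousAt (fun z : E n × ℝ => 2 * max (z.2 - inner ℝ z.1 x) 0) (p, q) :=
      (continuous_const.mul ((continuous_snd.sub
        (continuous_fst.inner continuous_const)).max continuous_const)).continuousAt
    have c2 : ContinuousAt (fun z : E n × ℝ => ‖z.1‖ ^ 2) (p, q) :=
      ((continuous_fst.norm).pow 2).continuousAt
    have c3 : ContinuousAt (fun z : E n × ℝ => z.1) (p, q) := continuous_fst.continuousAt
    exact continuousAt_const.add ((c1.div c2 hp0).smul c3)

theorem fold_bound {p : E n} {q : ℝ} (hq : q ≤ 0) (x : E n) : ‖fold p q x‖ ≤ 3 * ‖x‖ := by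
  by_cases hp : p = 0
  · subst hp; rw [fold_zero]; nlinarith [norm_nonneg x]
  have hp0 : 0 < ‖p‖ := norm_pos_iff.mpr hp
  unfold fold
  have h1 : max (q - inner ℝ p x) 0 ≤ ‖p‖ * ‖x‖ := by
    apply max_le
    · have := abs_real_inner_le_norm p x
      have h3 := neg_abs_le (inner ℝ p x)
      linarith
    · positivity
  have h0 : 0 ≤ max (q - inner ℝ p x) 0 := le_max_right _ _
  have h2 : ‖(2 * max (q - inner ℝ p x) 0 / ‖p‖ ^ 2) • p‖ ≤ 2 * ‖x‖ := by
    rw [norm_smul, Real.norm_eq_abs, abs_of_nonneg (by positivity)]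
    rw [div_mul_eq_mul_div, div_le_iff₀ (by positivity)]
    nlinarith [mul_le_mul_of_nonneg_right h1 hp0.le]
  calc _ ≤ ‖x‖ + ‖(2 * max (q - inner ℝ p x) 0 / ‖p‖ ^ 2) • p‖ := norm_add_le _ _
    _ ≤ _ := by linarith

end Pool.Agent.NE
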