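import Pool.Agent.NE.GfLem
import Pool.Agent.NE.FoldLem
import Pool.Agent.NE.Even

set_option autoImplicit false

open MeasureTheory Set
open scoped ENNReal ContDiff

namespace Pool.Agent.NE

variable {n : ℕ} {R μ : ℝ} {g dg : ℝ → ℝ}

/-- The perturbed field `G_δ(y) = G(y) + δ y`. -/
noncomputable def Gd (g : ℝ → ℝ) (δ : ℝ) (y : E n) : E n := Gf g y + δ • y

/-! ## The perturbed field -/

lemma Gd_inner (hg : IsProfile n R μ g dg) (δ : ℝ) (y z : E n) :
    δ * ‖y - z‖ ^ 2 ≤ inner ℝ (Gd g δ y - Gd g δ z) (y - z) := by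
  have h : Gd g δ y - Gd g δ z = (Gf g y - Gf g z) + δ • (y - z) := by
    simp only [Gd, smul_sub]; abel
  rw [h, inner_add_left, real_inner_smul_left, real_inner_self_eq_norm_sq]
  have := Gf_mono hg y z
  linarith

lemma Gd_lip (hg : IsProfile n R μ g dg) {δ : ℝ} (hδ : 0 < δ) (y z : E n) :
    ‖Gd g δ y - Gd g δ z‖ ≤ (1 + δ) * ‖y - z‖ := by
  have h : Gd g δ y - Gd g δ z = (Gf g y - Gf g z) + δ • (y - z) := by
    simp only [Gd, smul_sub]; abel
  rw [h]
  refine (norm_add_le _ _).trans ?_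
  rw [norm_smul, Real.norm_eq_abs, abs_of_pos hδ, add_mul, one_mul]
  exact add_le_add (Gf_lip hg y z) le_rfl

lemma Gd_zero (g : ℝ → ℝ) (δ : ℝ) : Gd g δ (0 : E n) = 0 := by simp [Gd, Gf]

lemma Gd_norm (hg : IsProfile n R μ g dg) {δ : ℝ} (hδ : 0 < δ) (y : E n) :
    ‖Gd g δ y‖ ≤ (1 + δ) * ‖y‖ := by
  have h := Gd_lip hg hδ y 0
  rwa [Gd_zero, sub_zero, sub_zero] at h

lemma Gd_isom (g : ℝ → ℝ) (δ : ℝ) (L : E n ≃ₗᵢ[ℝ] E n) (y : E n) :
    Gd g δ (L y) = L (Gd g δ y) := by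
  rw [Gd, Gd, map_add, map_smul, Gf_isom]

lemma Gd_cont (hg : IsProfile n R μ g dg) {δ : ℝ} (hδ : 0 < δ) :
    Continuous (Gd g δ : E n → E n) := by
  have : LipschitzWith (Real.toNNReal (1 + δ)) (Gd g δ : E n → E n) := by
    refine LipschitzWith.of_dist_le_mul fun y z => ?_
    rw [dist_eq_norm, dist_eq_norm, Real.coe_toNNReal _ (by linarith)]
    exact Gd_lip hg hδ y z
  exact this.continuous

/-! ## Zeros of strongly monotone maps -/

lemma mono_unique {F : Type*} [NormedAddCommGroup F] [InnerProductSpace ℝ F]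
    (Z : F → F) {c : ℝ}
    (h2 : ∀ A B, inner ℝ (Z A - Z B) (A - B) ≤ -(c * ‖A - B‖ ^ 2)) {A B : F}
    (hB : Z B = 0) : c * ‖A - B‖ ≤ ‖Z A‖ := by
  have h := h2 A B
  rw [hB, sub_zero] at h
  have h3 := abs_real_inner_le_norm (Z A) (A - B)
  rw [abs_le] at h3
  rcases eq_or_lt_of_le (norm_nonneg (A - B)) with h0 | h0
  · rw [← h0, mul_zero]; exact norm_nonneg _
  · have h4 : c * ‖A - B‖ * ‖A - B‖ ≤ ‖Z A‖ * ‖A - B‖ := by nlinarith
    exact le_of_mul_le_mul_right h4 h0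

lemma mono_exists {F : Type*} [NormedAddCommGroup F] [InnerProductSpace ℝ F] [CompleteSpace F]
    (Z : F → F) {L c : ℝ} (hL : 0 < L) (hc : 0 < c)
    (h1 : ∀ A B, ‖Z A - Z B‖ ≤ L * ‖A - B‖)
    (h2 : ∀ A B, inner ℝ (Z A - Z B) (A - B) ≤ -(c * ‖A - B‖ ^ 2)) : ∃ A, Z A = 0 := by
  set τ : ℝ := c / L ^ 2 with hτ
  have hτ0 : 0 < τ := by positivity
  set k : ℝ := 1 - c ^ 2 / L ^ 2 with hk
  have hk1 : k < 1 := by
    have : 0 < c ^ 2 / L ^ 2 := by positivity
    linarith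
  set Φ : F → F := fun A => A + τ • Z A with hΦ
  have hK : LipschitzWith (Real.toNNReal (Real.sqrt k)) Φ := by
    refine LipschitzWith.of_dist_le_mul fun A B => ?_
    rw [dist_eq_norm, dist_eq_norm, Real.coe_toNNReal _ (Real.sqrt_nonneg _)]
    have e : Φ A - Φ B = (A - B) + τ • (Z A - Z B) := by
      simp only [hΦ, smul_sub]; abel
    have e2 : ‖Φ A - Φ B‖ ^ 2 ≤ k * ‖A - B‖ ^ 2 := by
      rw [e, norm_add_sq_real, real_inner_smul_right, norm_smul, mul_pow, Real.norm_eq_abs, sq_abs,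
        real_inner_comm]
      have a1 := h2 A B
      have a2 : ‖Z A - Z B‖ ^ 2 ≤ (L * ‖A - B‖) ^ 2 :=
        pow_le_pow_left₀ (norm_nonneg _) (h1 A B) 2
      have a3 : τ * inner ℝ (Z A - Z B) (A - B) ≤ τ * -(c * ‖A - B‖ ^ 2) :=
        mul_le_mul_of_nonneg_left a1 hτ0.le
      have a4 : τ ^ 2 * ‖Z A - Z B‖ ^ 2 ≤ τ ^ 2 * (L * ‖A - B‖) ^ 2 :=
        mul_le_mul_of_nonneg_left a2 (by positivity)
      have a5 : τ * (c * ‖A - B‖ ^ 2) = c ^ 2 / L ^ 2 * ‖A - B‖ ^ 2 := by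
        rw [hτ]; ring
      have a6 : τ ^ 2 * (L * ‖A - B‖) ^ 2 = c ^ 2 / L ^ 2 * ‖A - B‖ ^ 2 := by
        rw [hτ]; field_simp
      rw [hk]
      nlinarith
    have e3 : k ≤ Real.sqrt k ^ 2 := by
      rcases le_total 0 k with h | h
      · rw [Real.sq_sqrt h]
      · exact h.trans (sq_nonneg _)
    refine abs_le_of_sq_le_sq' ?_ (by positivity) |>.2
    rw [mul_pow]
    exact e2.trans (mul_le_mul_of_nonneg_right e3 (sq_nonneg _))
  have hC : ContractingWith (Real.toNNReal (Real.sqrt k)) Φ := by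
    refine ⟨?_, hK⟩
    rw [Real.toNNReal_lt_one]
    rw [Real.sqrt_lt' one_pos]
    simpa using hk1
  have hfix := hC.fixedPoint_isFixedPt
  refine ⟨ContractingWith.fixedPoint Φ hC, ?_⟩
  have h3 : Φ (ContractingWith.fixedPoint Φ hC) = ContractingWith.fixedPoint Φ hC := hfix
  simp only [hΦ, add_eq_left] at h3
  exact (smul_eq_zero.1 h3).resolve_left hτ0.ne'

/-! ## Integrals -/

/-- the closed half sphere -/
def Dom (n : ℕ) : Set (E n × ℝ) := {z | ‖z.1‖ ^ 2 + z.2 ^ 2 = 1 ∧ z.2 ≤ 0}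

lemma intOn {Ω : Set (E n)} (hb : Bornology.IsBounded Ω) {f : E n → E n} (hf : Continuous f) :
    Integrable f (volume.restrict Ω) :=
  (hf.continuousOn.integrableOn_compact hb.isCompact_closure).mono_set subset_closure

lemma cont_int {Ω : Set (E n)} (hΩ : MeasurableSet Ω) (hb : Bornology.IsBounded Ω)
    (hg : IsProfile n R μ g dg) {δ : ℝ} (hδ : 0 < δ) (w : E n → ℝ) (hw : IntegrableOn w Ω)
    (Af : E n × ℝ → E n) (hA : ContinuousOn Af (Dom n)) :
    ContinuousOn (fun z : E n × ℝ => ∫ x in Ω, w x • Gd g δ (fold z.1 z.2 x - Af z)) (Dom n) := by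
  intro z₀ hz₀
  obtain ⟨R₀, hR₀⟩ := hb.exists_norm_le
  have hev : ∀ᶠ z in nhdsWithin z₀ (Dom n), ‖Af z‖ < ‖Af z₀‖ + 1 :=
    ((hA z₀ hz₀).norm).eventually_lt_const (by linarith)
  refine continuousWithinAt_of_dominated (bound := fun x => ‖w x‖ * ((1 + δ) *
    (3 * R₀ + (‖Af z₀‖ + 1)))) ?_ ?_ ?_ ?_
  · refine Filter.Eventually.of_forall fun z => ?_
    exact hw.aestronglyMeasurable.smul
      ((Gd_cont hg hδ).comp ((fold_lip z.1 z.2).continuous.sub continuous_const)).aestronglyMeasurable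
  · filter_upwards [hev, self_mem_nhdsWithin] with z hz hzD
    refine (ae_restrict_iff' hΩ).2 (Filter.Eventually.of_forall fun x hx => ?_)
    rw [norm_smul]
    refine mul_le_mul_of_nonneg_left ?_ (norm_nonneg _)
    refine (Gd_norm hg hδ _).trans (mul_le_mul_of_nonneg_left ?_ (by linarith))
    refine (norm_sub_le _ _).trans (add_le_add ?_ hz.le)
    exact (fold_bound hzD.2 x).trans (by have := hR₀ x hx; linarith)
  · exact hw.norm.mul_const _
  · refine Filter.Eventually.of_forall fun x => ?_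
    refine ContinuousWithinAt.const_smul ?_ (w x)
    exact (Gd_cont hg hδ).continuousAt.comp_continuousWithinAt
      ((fold_cont x z₀ hz₀).sub (hA z₀ hz₀))

/-- reflection in the hyperplane orthogonal to a unit vector -/
lemma exists_refl {p : E n} (hp : ‖p‖ = 1) : ∃ σ : E n ≃ₗᵢ[ℝ] E n,
    ∀ y, σ y = y - (2 * inner ℝ p y) • p := by
  refine ⟨(Submodule.span ℝ {p})ᗮ.reflection, fun y => ?_⟩
  rw [Submodule.reflection_orthogonal_apply, Submodule.reflection_singleton_apply, hp]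
  simp only [RCLike.ofReal_real_eq_id, id_eq, one_pow, div_one]
  rw [neg_sub, mul_smul, two_smul, two_smul]

/-- The topological lemma for the perturbed field. -/
theorem exists_field {Ω : Set (E n)} (hΩ : MeasurableSet Ω) (hb : Bornology.IsBounded Ω)
    (hpos : volume Ω ≠ 0) (hg : IsProfile n R μ g dg) (u : E n → ℝ) (hu : IntegrableOn u Ω)
    {δ : ℝ} (hδ : 0 < δ) :
    ∃ (p : E n) (q : ℝ) (A : E n), ‖p‖ ^ 2 + q ^ 2 = 1 ∧ q ≤ 0 ∧
      ∫ x in Ω, Gd g δ (fold p q x - A) = 0 ∧ ∫ x in Ω, u x • Gd g δ (fold p q x - A) = 0 := by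
  have hfin : volume Ω ≠ ⊤ := hb.measure_lt_top.ne
  set m : ℝ := (volume Ω).toReal with hm
  have hm0 : 0 < m := ENNReal.toReal_pos hpos hfin
  have : IsFiniteMeasure (volume.restrict Ω) := ⟨by
    rw [Measure.restrict_apply_univ]; exact hfin.lt_top⟩
  set Z : E n × ℝ → E n → E n := fun z A => ∫ x in Ω, Gd g δ (fold z.1 z.2 x - A) with hZ
  have hcont : ∀ (z : E n × ℝ) (A : E n), Continuous (fun x => Gd g δ (fold z.1 z.2 x - A)) :=
    fun z A => (Gd_cont hg hδ).comp ((fold_lip z.1 z.2).continuous.sub continuous_const)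
  have hint : ∀ (z : E n × ℝ) (A : E n),
      Integrable (fun x => Gd g δ (fold z.1 z.2 x - A)) (volume.restrict Ω) :=
    fun z A => intOn hb (hcont z A)
  have hZsub : ∀ z A B, Z z A - Z z B =
      ∫ x in Ω, (Gd g δ (fold z.1 z.2 x - A) - Gd g δ (fold z.1 z.2 x - B)) := by
    intro z A B
    rw [integral_sub (hint z A) (hint z B)]
  have hc : 0 < δ * m := by positivity
  have h1 : ∀ z A B, ‖Z z A - Z z B‖ ≤ ((1 + δ) * m) * ‖A - B‖ := by
    intro z A B
    rw [hZsub]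
    have h := norm_setIntegral_le_of_norm_le_const (C := (1 + δ) * ‖A - B‖) hfin.lt_top
      (f := fun x => Gd g δ (fold z.1 z.2 x - A) - Gd g δ (fold z.1 z.2 x - B))
      (fun x _ => by
        refine (Gd_lip hg hδ _ _).trans (le_of_eq ?_)
        congr 1
        rw [← norm_neg]
        congr 1
        abel)
    refine h.trans (le_of_eq ?_)
    rw [Measure.real, ← hm]
    ring
  have h2 : ∀ z A B, inner ℝ (Z z A - Z z B) (A - B) ≤ -((δ * m) * ‖A - B‖ ^ 2) := by
    intro z A B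
    have hI : ∫ x in Ω, inner ℝ (A - B)
        (Gd g δ (fold z.1 z.2 x - A) - Gd g δ (fold z.1 z.2 x - B)) =
        inner ℝ (A - B) (∫ x in Ω, (Gd g δ (fold z.1 z.2 x - A) - Gd g δ (fold z.1 z.2 x - B))) :=
      integral_inner ((hint z A).sub (hint z B)) (A - B)
    rw [hZsub, real_inner_comm, ← hI]
    have h3 : ∫ x in Ω, (-(δ * ‖A - B‖ ^ 2)) = -((δ * m) * ‖A - B‖ ^ 2) := by
      rw [setIntegral_const, Measure.real, ← hm, smul_eq_mul]
      ring
    rw [← h3]
    refine integral_mono (((hint z A).sub (hint z B)).const_inner _) (integrable_const _)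
      fun x => ?_
    have h4 := Gd_inner hg δ (fold z.1 z.2 x - A) (fold z.1 z.2 x - B)
    have h5 : fold z.1 z.2 x - A - (fold z.1 z.2 x - B) = -(A - B) := by abel
    rw [h5, norm_neg, inner_neg_right, real_inner_comm] at h4
    linarith
  have hex : ∀ z, ∃ A, Z z A = 0 := fun z =>
    mono_exists (Z z) (by positivity) hc (h1 z) (h2 z)
  choose Af hAf using hex
  have huniq : ∀ z A, Z z A = 0 → A = Af z := by
    intro z A h
    have h3 := mono_unique (Z z) (h2 z) (A := A) (hAf z)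
    rw [h, norm_zero] at h3
    have h4 : ‖A - Af z‖ ≤ 0 := by
      by_contra h5
      push Not at h5
      have := mul_pos hc h5
      linarith
    exact sub_eq_zero.1 (norm_le_zero_iff.1 h4)
  have hZc : ∀ A, ContinuousOn (fun z => Z z A) (Dom n) := by
    intro A
    have h := cont_int hΩ hb hg hδ (fun _ => (1 : ℝ)) (integrable_const _) (fun _ => A)
      continuousOn_const
    simpa only [one_smul] using h
  have hAc : ContinuousOn Af (Dom n) := by
    intro z₀ hz₀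
    rw [ContinuousWithinAt, tendsto_iff_norm_sub_tendsto_zero]
    have h3 : Filter.Tendsto (fun z => (δ * m)⁻¹ * ‖Z z (Af z₀)‖) (nhdsWithin z₀ (Dom n))
        (nhds ((δ * m)⁻¹ * ‖Z z₀ (Af z₀)‖)) := ((hZc (Af z₀) z₀ hz₀).norm).const_mul _
    rw [hAf z₀, norm_zero, mul_zero] at h3
    refine squeeze_zero (fun _ => norm_nonneg _) (fun z => ?_) h3
    have h4 := mono_unique (Z z) (h2 z) (A := Af z₀) (hAf z)
    rw [← norm_neg, neg_sub]
    rw [← div_eq_inv_mul, le_div_iff₀ hc]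
    linarith
  set V : E n × ℝ → E n := fun z => ∫ x in Ω, u x • Gd g δ (fold z.1 z.2 x - Af z) with hV
  have hVc : ContinuousOn V (Dom n) := cont_int hΩ hb hg hδ u hu Af hAc
  -- equivariance on the equator
  have hsym : ∀ p : E n, ‖p‖ = 1 → V (-p, 0) = V (p, 0) - (2 * inner ℝ p (V (p, 0))) • p := by
    intro p hp
    obtain ⟨σ, hσ⟩ := exists_refl hp
    have hf : ∀ x, fold (-p) 0 x = σ (fold p 0 x) := fun x => by rw [fold_neg hp, hσ]
    have hA : Af (-p, 0) = σ (Af (p, 0)) := by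
      refine (huniq _ _ ?_).symm
      have e : ∀ x, Gd g δ (fold (-p) 0 x - σ (Af (p, 0))) =
          σ (Gd g δ (fold p 0 x - Af (p, 0))) := by
        intro x
        rw [hf, ← map_sub, Gd_isom]
      change ∫ x in Ω, Gd g δ (fold (-p) 0 x - σ (Af (p, 0))) = 0
      simp only [e]
      have e2 := σ.toContinuousLinearEquiv.integral_comp_comm (μ := volume.restrict Ω)
        (fun x => Gd g δ (fold p 0 x - Af (p, 0)))
      refine e2.trans ?_
      have e3 : ∫ x in Ω, Gd g δ (fold p 0 x - Af (p, 0)) = 0 := hAf (p, 0)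
      rw [e3]
      exact map_zero _
    have e : ∀ x, u x • Gd g δ (fold (-p) 0 x - Af (-p, 0)) =
        σ (u x • Gd g δ (fold p 0 x - Af (p, 0))) := by
      intro x
      rw [hA, hf, ← map_sub, Gd_isom, map_smul]
    have e1 : V (-p, 0) = ∫ x in Ω, σ (u x • Gd g δ (fold p 0 x - Af (p, 0))) := by
      simp only [hV]
      simp only [e]
    rw [e1, ← hσ]
    exact σ.toContinuousLinearEquiv.integral_comp_comm (μ := volume.restrict Ω)
        (fun x => u x • Gd g δ (fold p 0 x - Af (p, 0)))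
  -- the tangent field
  set t1 : E n × ℝ → E n := fun z => V z - (inner ℝ (V z) z.1 / (1 - z.2)) • z.1 with ht1
  set t2 : E n × ℝ → ℝ := fun z => inner ℝ (V z) z.1 with ht2
  have ht1c : ContinuousOn t1 (Dom n) := by
    have ha : ContinuousOn (fun z : E n × ℝ => inner ℝ (V z) z.1) (Dom n) :=
      hVc.inner continuous_fst.continuousOn
    have hb' : ContinuousOn (fun z : E n × ℝ => 1 - z.2) (Dom n) :=
      (continuous_const.sub continuous_snd).continuousOn
    have hq : ContinuousOn (fun z : E n × ℝ => inner ℝ (V z) z.1 / (1 - z.2)) (Dom n) := by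
      refine ha.div hb' fun z hz => ?_
      have := hz.2
      have : 0 < 1 - z.2 := by linarith
      exact this.ne'
    have hfst : ContinuousOn (fun z : E n × ℝ => z.1) (Dom n) := continuous_fst.continuousOn
    exact hVc.sub (hq.smul hfst)
  have ht2c : ContinuousOn t2 (Dom n) := hVc.inner continuous_fst.continuousOn
  have htan : ∀ z ∈ Dom n, inner ℝ (t1 z) z.1 + t2 z * z.2 = 0 := by
    intro z hz
    have h3 := hz.1
    have h4 : (1 : ℝ) - z.2 ≠ 0 := by
      have := hz.2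
      have : 0 < 1 - z.2 := by linarith
      exact this.ne'
    have h5 : ‖z.1‖ ^ 2 = (1 - z.2) * (1 + z.2) := by linarith [h3]
    simp only [ht1, ht2]
    rw [inner_sub_left, real_inner_smul_left, real_inner_self_eq_norm_sq, h5]
    field_simp
    ring
  have hD0 : ∀ z ∈ Dom n, z.2 = 0 → ‖z.1‖ = 1 := by
    intro z hz h0
    have h3 := hz.1
    rw [h0] at h3
    have h4 : ‖z.1‖ ^ 2 = 1 := by linarith
    nlinarith [norm_nonneg z.1]
  have heq : ∀ z ∈ Dom n, z.2 = 0 → t1 (-z) = t1 z ∧ t2 (-z) = t2 z := by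
    rintro ⟨p, q⟩ hz h0
    have hp := hD0 _ hz h0
    simp only at h0 hp
    subst h0
    have e0 : -(p, (0 : ℝ)) = (-p, 0) := by simp
    rw [e0]
    simp only [ht1, ht2]
    rw [hsym p hp]
    have h6 : inner ℝ p p = (1 : ℝ) := by rw [real_inner_self_eq_norm_sq, hp]; norm_num
    have h7 : inner ℝ (V (p, 0) - (2 * inner ℝ p (V (p, 0))) • p) (-p) =
        inner ℝ (V (p, 0)) p := by
      rw [inner_neg_right, inner_sub_left, real_inner_smul_left, h6, real_inner_comm p]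
      ring
    rw [h7]
    refine ⟨?_, rfl⟩
    rw [sub_zero, div_one, smul_neg, real_inner_comm p (V (p, 0)), two_mul, add_smul]
    abel
  set T1 : E n × ℝ → E n := fun z => if z.2 ≤ 0 then t1 z else t1 (-z) with hT1
  set T2 : E n × ℝ → ℝ := fun z => if z.2 ≤ 0 then t2 z else t2 (-z) with hT2
  have hS : {z : E n × ℝ | ‖z.1‖ ^ 2 + z.2 ^ 2 = 1} = Dom n ∪ (fun z => -z) ⁻¹' (Dom n) := by
    ext z
    simp only [Dom, mem_ofPred_eq, mem_union, mem_preimage, Prod.fst_neg, norm_neg, Prod.snd_neg,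
      neg_sq]
    constructor
    · intro h
      rcases le_total z.2 0 with h0 | h0
      · exact Or.inl ⟨h, h0⟩
      · exact Or.inr ⟨h, by linarith⟩
    · rintro (h | h) <;> exact h.1
  have hDc : IsClosed (Dom n) := by
    refine IsClosed.inter ?_ ?_
    · exact isClosed_eq (by fun_prop) continuous_const
    · exact isClosed_le continuous_snd continuous_const
  have hDc' : IsClosed ((fun z : E n × ℝ => -z) ⁻¹' (Dom n)) := hDc.preimage continuous_neg
  have hneg1 : ∀ z ∈ (fun z : E n × ℝ => -z) ⁻¹' (Dom n), T1 z = t1 (-z) ∧ T2 z = t2 (-z) := by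
    intro z hz
    have hz2 : -z.2 ≤ 0 := hz.2
    simp only [hT1, hT2]
    by_cases h0 : z.2 ≤ 0
    · have h00 : z.2 = 0 := by linarith
      rw [if_pos h0, if_pos h0]
      have hz' : z ∈ Dom n := by
        refine ⟨?_, h0⟩
        have := hz.1
        simpa using this
      exact ⟨(heq z hz' h00).1.symm, (heq z hz' h00).2.symm⟩
    · rw [if_neg h0, if_neg h0]
      exact ⟨rfl, rfl⟩
  have hc1 : ContinuousOn T1 {z | ‖z.1‖ ^ 2 + z.2 ^ 2 = 1} := by
    rw [hS]
    refine ContinuousOn.union_of_isClosed ?_ ?_ hDc hDc'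
    · exact ht1c.congr fun z hz => by simp only [hT1]; rw [if_pos hz.2]
    · exact (ht1c.comp continuous_neg.continuousOn (mapsTo_preimage _ _)).congr
        fun z hz => (hneg1 z hz).1
  have hc2 : ContinuousOn T2 {z | ‖z.1‖ ^ 2 + z.2 ^ 2 = 1} := by
    rw [hS]
    refine ContinuousOn.union_of_isClosed ?_ ?_ hDc hDc'
    · exact ht2c.congr fun z hz => by simp only [hT2]; rw [if_pos hz.2]
    · exact (ht2c.comp continuous_neg.continuousOn (mapsTo_preimage _ _)).congr
        fun z hz => (hneg1 z hz).2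
  have hev : ∀ z : E n × ℝ, ‖z.1‖ ^ 2 + z.2 ^ 2 = 1 → T1 (-z) = T1 z ∧ T2 (-z) = T2 z := by
    intro z hz
    have hz' : ‖(-z).1‖ ^ 2 + (-z).2 ^ 2 = 1 := by simpa using hz
    rcases le_total z.2 0 with h0 | h0
    · have hzD : z ∈ Dom n := ⟨hz, h0⟩
      have h3 := hneg1 (-z) (by simpa using hzD)
      rw [neg_neg] at h3
      rw [h3.1, h3.2]
      simp only [hT1, hT2]
      rw [if_pos h0, if_pos h0]
      exact ⟨rfl, rfl⟩
    · have hzD : -z ∈ Dom n := ⟨hz', by simpa using h0⟩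
      have h3 := hneg1 z hzD
      rw [h3.1, h3.2]
      simp only [hT1, hT2]
      have h0' : (-z).2 ≤ 0 := by simpa using h0
      rw [if_pos h0', if_pos h0']
      exact ⟨rfl, rfl⟩
  have ht : ∀ z : E n × ℝ, ‖z.1‖ ^ 2 + z.2 ^ 2 = 1 → inner ℝ (T1 z) z.1 + T2 z * z.2 = 0 := by
    intro z hz
    rcases le_total z.2 0 with h0 | h0
    · simp only [hT1, hT2]
      rw [if_pos h0, if_pos h0]
      exact htan z ⟨hz, h0⟩
    · have hz' : ‖(-z).1‖ ^ 2 + (-z).2 ^ 2 = 1 := by simpa using hz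
      have hzD : -z ∈ Dom n := ⟨hz', by simpa using h0⟩
      have h3 := hneg1 z hzD
      rw [h3.1, h3.2]
      have h4 := htan (-z) hzD
      rw [Prod.fst_neg, Prod.snd_neg, inner_neg_right] at h4
      linarith
  obtain ⟨z, hz, hz1, hz2⟩ := even_field_zero T1 T2 hc1 hc2 (fun z hz => (hev z hz).1)
    (fun z hz => (hev z hz).2) ht
  have key : ∀ z ∈ Dom n, t1 z = 0 → t2 z = 0 → V z = 0 := by
    intro z _ h3 h4
    simp only [ht1, ht2] at h3 h4
    rw [h4, zero_div, zero_smul, sub_zero] at h3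
    exact h3
  have fin : ∀ z ∈ Dom n, t1 z = 0 → t2 z = 0 → ∃ (p : E n) (q : ℝ) (A : E n),
      ‖p‖ ^ 2 + q ^ 2 = 1 ∧ q ≤ 0 ∧
      ∫ x in Ω, Gd g δ (fold p q x - A) = 0 ∧ ∫ x in Ω, u x • Gd g δ (fold p q x - A) = 0 :=
    fun z hz h3 h4 => ⟨z.1, z.2, Af z, hz.1, hz.2, hAf z, key z hz h3 h4⟩
  rcases le_total z.2 0 with h0 | h0
  · refine fin z ⟨hz, h0⟩ ?_ ?_
    · simp only [hT1] at hz1
      rwa [if_pos h0] at hz1
    · simp only [hT2] at hz2
      rwa [if_pos h0] at hz2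
  · have hz' : ‖(-z).1‖ ^ 2 + (-z).2 ^ 2 = 1 := by simpa using hz
    have hzD : -z ∈ Dom n := ⟨hz', by simpa using h0⟩
    have h3 := hneg1 z hzD
    exact fin (-z) hzD (h3.1.symm.trans hz1) (h3.2.symm.trans hz2)

end Pool.Agent.NE
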