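import Mathlib

set_option autoImplicit false

open MeasureTheory Set ProbabilityTheory
open scoped ENNReal

namespace Pool.Agent.NE

namespace G1

open Filter Topology

/-- The standard Gaussian density. -/
noncomputable def p (x : ℝ) : ℝ := gaussianPDFReal 0 1 x

lemma p_eq (x : ℝ) : p x = (√(2 * Real.pi))⁻¹ * Real.exp (-(1/2) * x ^ 2) := by
  unfold p
  rw [gaussianPDFReal]
  norm_num
  left
  ring_nf

lemma p_pos (x : ℝ) : 0 < p x := gaussianPDFReal_pos 0 1 x (by norm_num)

lemma p_fun : p = fun x => (√(2 * Real.pi))⁻¹ * Real.exp (-(1/2) * x ^ 2) := by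
  funext x; exact p_eq x

lemma p_neg (x : ℝ) : p (-x) = p x := by
  rw [p_eq, p_eq]; simp

lemma hasDerivAt_p (x : ℝ) : HasDerivAt p (-(x * p x)) x := by
  rw [p_fun]
  have h1 : HasDerivAt (fun y : ℝ => -(1/2) * y ^ 2) (-x) x := by
    have := (hasDerivAt_pow 2 x).const_mul (-(1/2) : ℝ)
    refine this.congr_deriv ?_
    norm_num
    ring
  have h2 := (h1.exp).const_mul ((√(2 * Real.pi))⁻¹)
  refine h2.congr_deriv ?_
  ring

lemma continuous_p : Continuous p :=
  continuous_iff_continuousAt.2 fun x => (hasDerivAt_p x).continuousAt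

lemma integrable_p : Integrable p := integrable_gaussianPDFReal 0 1

lemma integrable_xp : Integrable (fun x => x * p x) := by
  have h := (integrable_mul_exp_neg_mul_sq (b := 1/2) (by norm_num)).const_mul
    ((√(2 * Real.pi))⁻¹)
  refine h.congr (Filter.Eventually.of_forall fun x => ?_)
  simp only [p_eq]
  ring

lemma integrable_x2p : Integrable (fun x => x ^ 2 * p x) := by
  have h := (integrable_rpow_mul_exp_neg_mul_sq (b := 1/2) (by norm_num) (s := 2)
    (by norm_num)).const_mul ((√(2 * Real.pi))⁻¹)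
  refine h.congr (Filter.Eventually.of_forall fun x => ?_)
  simp only [p_eq]
  have : x ^ (2 : ℝ) = x ^ 2 := by
    rw [show (2 : ℝ) = ((2 : ℕ) : ℝ) by norm_num, Real.rpow_natCast]
  rw [this]
  ring

lemma integrable_of_le {f : ℝ → ℝ} (hf : Continuous f) {C : ℝ}
    (h : ∀ x, |f x| ≤ C * (1 + x ^ 2) * p x) : Integrable f := by
  have h1 : Integrable (fun x => C * (p x + x ^ 2 * p x)) :=
    (integrable_p.add integrable_x2p).const_mul C
  refine h1.mono' hf.aestronglyMeasurable (Filter.Eventually.of_forall fun x => ?_)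
  rw [Real.norm_eq_abs]
  refine (h x).trans (le_of_eq ?_)
  ring

lemma one_add_abs_le (x : ℝ) : 1 + |x| ≤ 2 * (1 + x ^ 2) := by
  nlinarith [sq_nonneg (|x| - 1), sq_abs x, abs_nonneg x]

lemma integrable_lin {f : ℝ → ℝ} (hf : Continuous f) {C : ℝ} (hC : 0 ≤ C)
    (h : ∀ x, |f x| ≤ C * (1 + |x|)) : Integrable (fun x => f x * p x) := by
  refine integrable_of_le (C := 2 * C) (hf.mul continuous_p) fun x => ?_
  rw [abs_mul, abs_of_pos (p_pos x)]
  refine mul_le_mul_of_nonneg_right ((h x).trans ?_) (p_pos x).le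
  have := mul_le_mul_of_nonneg_left (one_add_abs_le x) hC
  linarith

lemma tendsto_p : Tendsto p atTop (𝓝 0) := by
  rw [p_fun]
  have h1 : Tendsto (fun x : ℝ => (1/2) * x ^ 2) atTop atTop :=
    (tendsto_pow_atTop (two_ne_zero)).const_mul_atTop (by norm_num)
  have h2 : Tendsto (fun x : ℝ => Real.exp (-((1/2) * x ^ 2))) atTop (𝓝 0) :=
    Real.tendsto_exp_neg_atTop_nhds_zero.comp h1
  have h3 := h2.const_mul ((√(2 * Real.pi))⁻¹)
  simp only [mul_zero] at h3
  refine h3.congr fun x => ?_
  simp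

lemma tail_xp (x : ℝ) : ∫ t in Ioi x, t * p t = p x := by
  have h := integral_Ioi_of_hasDerivAt_of_tendsto' (a := x) (f := fun t => - p t)
    (f' := fun t => t * p t) (m := 0) (fun t _ => by
      have := (hasDerivAt_p t).neg
      rw [neg_neg] at this
      exact this) integrable_xp.integrableOn (by simpa using tendsto_p.neg)
  rw [h]; simp

lemma tail {f : ℝ → ℝ} {C : ℝ} (hC : 0 ≤ C)
    (h : ∀ x, |f x| ≤ C * (1 + |x|)) {x : ℝ} (hx : 1 ≤ x) :
    |∫ t in Ioi x, f t * p t| ≤ 2 * C * p x := by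
  rw [← Real.norm_eq_abs, ← tail_xp x, ← integral_const_mul]
  refine norm_integral_le_of_norm_le ((integrable_xp.integrableOn).const_mul (2 * C)) ?_
  refine (ae_restrict_iff' measurableSet_Ioi).2 (Filter.Eventually.of_forall fun t ht => ?_)
  have ht' : x < t := ht
  rw [Real.norm_eq_abs, abs_mul, abs_of_pos (p_pos t), ← mul_assoc]
  refine mul_le_mul_of_nonneg_right ((h t).trans ?_) (p_pos t).le
  rw [abs_of_pos (by linarith)]
  nlinarith

lemma exists_prim {f : ℝ → ℝ} (hf : Continuous f) {C : ℝ} (hC : 0 ≤ C)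
    (h : ∀ x, |f x| ≤ C * (1 + |x|)) (h0 : ∫ x, f x * p x = 0) :
    ∃ (G : ℝ → ℝ) (K : ℝ), 0 ≤ K ∧ (∀ x, HasDerivAt G (f x * p x) x) ∧
      ∀ x, |G x| ≤ K * p x := by
  have hint : Integrable (fun x => f x * p x) := integrable_lin hf hC h
  have hcont : Continuous (fun x => f x * p x) := hf.mul continuous_p
  set G : ℝ → ℝ := fun x => ∫ t in Iic x, f t * p t with hG
  have hG' : ∀ x, G x = G 0 + ∫ t in (0:ℝ)..x, f t * p t := by
    intro x
    have := intervalIntegral.integral_Iic_sub_Iic (a := 0) (b := x) (f := fun t => f t * p t)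
      (μ := volume) hint.integrableOn hint.integrableOn
    simp only [hG]
    linarith
  have hd : ∀ x, HasDerivAt G (f x * p x) x := by
    intro x
    have h1 : HasDerivAt (fun x => G 0 + ∫ t in (0:ℝ)..x, f t * p t) (f x * p x) x := by
      have h2 := (hcont.integral_hasStrictDerivAt 0 x).hasDerivAt
      exact h2.const_add _
    have h3 : G = fun x => G 0 + ∫ t in (0:ℝ)..x, f t * p t := funext hG'
    rw [h3]
    exact h1
  have htail : ∀ x, G x = - ∫ t in Ioi x, f t * p t := by
    intro x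
    have := intervalIntegral.integral_Iic_add_Ioi (b := x) (f := fun t => f t * p t)
      (μ := volume) hint.integrableOn hint.integrableOn
    rw [h0] at this
    simp only [hG]
    linarith
  set M := ∫ t, |f t * p t| with hM
  have hM0 : 0 ≤ M := integral_nonneg fun t => abs_nonneg _
  have hGM : ∀ x, |G x| ≤ M := by
    intro x
    simp only [hG]
    rw [← Real.norm_eq_abs]
    refine (norm_integral_le_integral_norm _).trans ?_
    exact setIntegral_le_integral hint.norm (Filter.Eventually.of_forall fun t => norm_nonneg _)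
  refine ⟨G, max (2 * C) (M / p 1), le_trans (by positivity) (le_max_left _ _), hd, fun x => ?_⟩
  rcases le_or_gt 1 x with hx | hx
  · rw [htail, abs_neg]
    exact (tail hC h hx).trans (mul_le_mul_of_nonneg_right (le_max_left _ _) (p_pos x).le)
  rcases le_or_gt x (-1) with hx' | hx'
  · have h1 : G x = ∫ t in Ioi (-x), f (-t) * p t := by
      have := integral_comp_neg_Ioi (-x) (fun t => f t * p t)
      simp only [p_neg, neg_neg] at this
      rw [this]
    rw [h1]
    have h2 := tail (f := fun t => f (-t)) hC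
      (fun t => by simpa using h (-t)) (x := -x) (by linarith)
    rw [p_neg] at h2
    exact h2.trans (mul_le_mul_of_nonneg_right (le_max_left _ _) (p_pos x).le)
  · have h1 : p 1 ≤ p x := by
      rw [p_eq, p_eq]
      refine mul_le_mul_of_nonneg_left (Real.exp_le_exp.2 ?_) (by positivity)
      have : x ^ 2 ≤ 1 := by nlinarith
      linarith
    have h2 : M ≤ M / p 1 * p x := by
      rw [div_mul_eq_mul_div, le_div_iff₀ (p_pos 1)]
      exact mul_le_mul_of_nonneg_left h1 hM0
    exact (hGM x).trans (h2.trans (mul_le_mul_of_nonneg_right (le_max_right _ _) (p_pos x).le))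

end G1

open G1 in
/-- One-dimensional Gaussian Poincare inequality. -/
theorem gauss1 (F DF : ℝ → ℝ) (hF : ∀ x, HasDerivAt F (DF x) x) (hc : Continuous DF) {C : ℝ}
    (hC : ∀ x, |F x| ≤ C * (1 + |x|)) (hC' : ∀ x, |DF x| ≤ C) :
    ∫ x, F x ^ 2 ∂(gaussianReal 0 1) - (∫ x, F x ∂(gaussianReal 0 1)) ^ 2 ≤
      ∫ x, DF x ^ 2 ∂(gaussianReal 0 1) := by
  have hC0 : 0 ≤ C := (abs_nonneg _).trans (hC' 0)
  have hFc : Continuous F := continuous_iff_continuousAt.2 fun x => (hF x).continuousAt
  have hint : ∀ f : ℝ → ℝ, ∫ x, f x ∂(gaussianReal 0 1) = ∫ x, p x * f x := by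
    intro f
    rw [integral_gaussianReal_eq_integral_smul (by norm_num)]
    rfl
  rw [hint, hint, hint]
  set m := ∫ x, p x * F x with hm
  have hp1 : ∫ x, p x = 1 := integral_gaussianPDFReal_eq_one 0 (by norm_num)
  set f : ℝ → ℝ := fun x => F x - m with hf
  have hfc : Continuous f := hFc.sub continuous_const
  set C1 := C + |m| with hC1
  have hC10 : 0 ≤ C1 := by positivity
  have hfb : ∀ x, |f x| ≤ C1 * (1 + |x|) := by
    intro x
    have h1 : |f x| ≤ |F x| + |m| := abs_sub _ _
    have h2 := hC x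
    nlinarith [abs_nonneg x, abs_nonneg m]
  have hFp : Integrable (fun x => F x * p x) := integrable_lin hFc hC0 hC
  have hf0 : ∫ x, f x * p x = 0 := by
    have h1 : ∀ x, f x * p x = F x * p x - m * p x := fun x => by simp only [hf]; ring
    simp only [h1]
    rw [integral_sub hFp (integrable_p.const_mul m), integral_const_mul, hp1, hm]
    simp only [mul_comm (p _) (F _)]
    ring
  obtain ⟨G, K, hK, hG, hGK⟩ := exists_prim hfc hC10 hfb hf0
  have hGc : Continuous G := continuous_iff_continuousAt.2 fun x => (hG x).continuousAt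
  have hfd : ∀ x, HasDerivAt f (DF x) x := fun x => (hF x).sub_const m
  -- the potential
  set U : ℝ → ℝ := fun x => -(2 * f x * G x + x * G x ^ 2 / p x) with hU
  have hUd : ∀ x, HasDerivAt U ((DF x ^ 2 - f x ^ 2) * p x -
      ((DF x + G x / p x) ^ 2 + (f x + x * (G x / p x)) ^ 2) * p x) x := by
    intro x
    have hpx := (p_pos x).ne'
    have h1 := ((hfd x).const_mul 2).mul (hG x)
    have h2 := (((hasDerivAt_id x).mul ((hG x).pow 2)).div (hasDerivAt_p x) hpx)
    have h3 := (h1.add h2).neg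
    refine (h3.congr_deriv ?_).congr_of_eventuallyEq (Filter.Eventually.of_forall fun y => ?_)
    · simp only [id, Pi.mul_apply, Pi.pow_apply]
      field_simp
      ring
    · simp only [hU, id, Pi.mul_apply, Pi.pow_apply, Pi.neg_apply, Pi.add_apply, Pi.div_apply]
  have hGp : ∀ x, |G x / p x| ≤ K := by
    intro x
    rw [abs_div, abs_of_pos (p_pos x), div_le_iff₀ (p_pos x)]
    exact hGK x
  have hpc := continuous_p
  have hpne : ∀ x, p x ≠ 0 := fun x => (p_pos x).ne'
  have hUc : Continuous U := continuous_iff_continuousAt.2 fun x => (hUd x).continuousAt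
  have hUi : Integrable U := by
    refine integrable_of_le (C := 4 * C1 * K + 2 * K ^ 2) hUc fun x => ?_
    have h1 : U x = -(2 * f x * (G x / p x) + x * (G x / p x) ^ 2) * p x := by
      simp only [hU]
      field_simp [hpne x]
    rw [h1, abs_mul, abs_of_pos (p_pos x), abs_neg]
    refine mul_le_mul_of_nonneg_right ?_ (p_pos x).le
    have h2 := hGp x
    have h3 := hfb x
    have h4 := one_add_abs_le x
    calc |2 * f x * (G x / p x) + x * (G x / p x) ^ 2|
        ≤ |2 * f x * (G x / p x)| + |x * (G x / p x) ^ 2| := abs_add_le _ _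
      _ = 2 * (|f x| * |G x / p x|) + |x| * |G x / p x| ^ 2 := by
          rw [abs_mul, abs_mul, abs_mul, abs_pow, abs_two]; ring
      _ ≤ 2 * ((C1 * (1 + |x|)) * K) + |x| * K ^ 2 := by
          have := mul_le_mul h3 h2 (abs_nonneg _) (by positivity)
          have h5 : |G x / p x| ^ 2 ≤ K ^ 2 := pow_le_pow_left₀ (abs_nonneg _) h2 2
          have := mul_le_mul_of_nonneg_left h5 (abs_nonneg x)
          linarith
      _ ≤ (4 * C1 * K + 2 * K ^ 2) * (1 + x ^ 2) := by
          have h6 : C1 * K * (1 + |x|) ≤ C1 * K * (2 * (1 + x ^ 2)) :=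
            mul_le_mul_of_nonneg_left h4 (by positivity)
          have h7 : K ^ 2 * |x| ≤ K ^ 2 * (2 * (1 + x ^ 2)) :=
            mul_le_mul_of_nonneg_left (by linarith) (by positivity)
          nlinarith
  have hI1 : Integrable (fun x => DF x ^ 2 * p x) := by
    refine integrable_of_le (C := C ^ 2) ((hc.pow 2).mul hpc) fun x => ?_
    rw [abs_mul, abs_of_pos (p_pos x)]
    refine mul_le_mul_of_nonneg_right ?_ (p_pos x).le
    rw [abs_pow]
    have h5 : |DF x| ^ 2 ≤ C ^ 2 := pow_le_pow_left₀ (abs_nonneg _) (hC' x) 2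
    nlinarith [sq_nonneg x, sq_nonneg C]
  have sq_bd : ∀ (a c : ℝ), 0 ≤ c → ∀ x, |a| ≤ c * (1 + |x|) → |a ^ 2| ≤ 2 * c ^ 2 * (1 + x ^ 2) := by
    intro a c hc0 x ha
    rw [abs_pow]
    have h1 : |a| ^ 2 ≤ (c * (1 + |x|)) ^ 2 := pow_le_pow_left₀ (abs_nonneg _) ha 2
    have h2 : (1 + |x|) ^ 2 ≤ 2 * (1 + x ^ 2) := by
      nlinarith [sq_nonneg (|x| - 1), sq_abs x]
    have h3 : c ^ 2 * (1 + |x|) ^ 2 ≤ c ^ 2 * (2 * (1 + x ^ 2)) :=
      mul_le_mul_of_nonneg_left h2 (by positivity)
    calc |a| ^ 2 ≤ (c * (1 + |x|)) ^ 2 := h1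
      _ = c ^ 2 * (1 + |x|) ^ 2 := by ring
      _ ≤ _ := by linarith
  have hI2 : Integrable (fun x => f x ^ 2 * p x) := by
    refine integrable_of_le (C := 2 * C1 ^ 2) ((hfc.pow 2).mul hpc) fun x => ?_
    rw [abs_mul, abs_of_pos (p_pos x)]
    exact mul_le_mul_of_nonneg_right (sq_bd _ C1 hC10 x (hfb x)) (p_pos x).le
  have hI3 : Integrable (fun x => (DF x + G x / p x) ^ 2 * p x) := by
    refine integrable_of_le (C := 2 * (C + K) ^ 2)
      (((hc.add (hGc.div hpc hpne)).pow 2).mul hpc) fun x => ?_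
    rw [abs_mul, abs_of_pos (p_pos x)]
    refine mul_le_mul_of_nonneg_right (sq_bd _ (C + K) (by positivity) x ?_) (p_pos x).le
    have h1 := abs_add_le (DF x) (G x / p x)
    have h2 := hC' x
    have h3 := hGp x
    have h4 : 0 ≤ (C + K) * |x| := by positivity
    nlinarith
  have hI4 : Integrable (fun x => (f x + x * (G x / p x)) ^ 2 * p x) := by
    refine integrable_of_le (C := 2 * (C1 + K) ^ 2)
      (((hfc.add (continuous_id.mul (hGc.div hpc hpne))).pow 2).mul hpc) fun x => ?_
    rw [abs_mul, abs_of_pos (p_pos x)]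
    refine mul_le_mul_of_nonneg_right (sq_bd _ (C1 + K) (by positivity) x ?_) (p_pos x).le
    have h1 := abs_add_le (f x) (x * (G x / p x))
    rw [abs_mul] at h1
    have h2 := hfb x
    have h3 := mul_le_mul_of_nonneg_left (hGp x) (abs_nonneg x)
    nlinarith
  have hI12 : Integrable (fun x => (DF x ^ 2 - f x ^ 2) * p x) := by
    refine (hI1.sub hI2).congr (Filter.Eventually.of_forall fun x => ?_)
    simp only [Pi.sub_apply]; ring
  have hI34 : Integrable (fun x => ((DF x + G x / p x) ^ 2 + (f x + x * (G x / p x)) ^ 2) * p x) := by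
    refine (hI3.add hI4).congr (Filter.Eventually.of_forall fun x => ?_)
    simp only [Pi.add_apply]; ring
  have hz := integral_eq_zero_of_hasDerivAt_of_integrable hUd (hI12.sub hI34) hUi
  rw [integral_sub hI12 hI34] at hz
  have hpos : 0 ≤ ∫ x, ((DF x + G x / p x) ^ 2 + (f x + x * (G x / p x)) ^ 2) * p x :=
    integral_nonneg fun x => mul_nonneg (by positivity) (p_pos x).le
  have hmain : 0 ≤ ∫ x, (DF x ^ 2 - f x ^ 2) * p x := by linarith
  have e1 : ∫ x, (DF x ^ 2 - f x ^ 2) * p x = (∫ x, p x * DF x ^ 2) - ∫ x, f x ^ 2 * p x := by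
    rw [← integral_sub (by simpa only [mul_comm] using hI1) hI2]
    congr 1; funext x; ring
  have hF2 : Integrable (fun x => p x * F x ^ 2) := by
    refine integrable_of_le (C := 2 * C ^ 2) (hpc.mul (hFc.pow 2)) fun x => ?_
    rw [mul_comm, abs_mul, abs_of_pos (p_pos x)]
    exact mul_le_mul_of_nonneg_right (sq_bd _ C hC0 x (hC x)) (p_pos x).le
  have e2 : ∫ x, f x ^ 2 * p x = (∫ x, p x * F x ^ 2) - m ^ 2 := by
    have h1 : ∀ x, f x ^ 2 * p x = p x * F x ^ 2 - (2 * m * (F x * p x) - m ^ 2 * p x) := by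
      intro x; simp only [hf]; ring
    simp only [h1]
    have h3 : Integrable (fun x => 2 * m * (F x * p x) - m ^ 2 * p x) :=
      (hFp.const_mul (2 * m)).sub (integrable_p.const_mul (m ^ 2))
    rw [integral_sub hF2 h3,
      integral_sub (hFp.const_mul (2 * m)) (integrable_p.const_mul (m ^ 2)),
      integral_const_mul, integral_const_mul, hp1]
    have h2 : ∫ x, F x * p x = m := by rw [hm]; simp only [mul_comm (p _) (F _)]
    rw [h2]; ring
  rw [e1, e2] at hmain
  linarith

end Pool.Agent.NE
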