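import Pool.Agent.NE.Gauss1
import Pool.Agent.NE.Efron

set_option autoImplicit false

open MeasureTheory Set ProbabilityTheory
open scoped ENNReal

namespace Pool.Agent.NE

/-- Replacing one coordinate by an independent copy preserves a product measure. -/
theorem gaussN_mp {n : ℕ} (γ : Measure ℝ) [IsProbabilityMeasure γ] (i : Fin n) :
    MeasurePreserving (fun p : (Fin n → ℝ) × ℝ => Function.update p.1 i p.2)
      ((Measure.pi fun _ : Fin n => γ).prod γ) (Measure.pi fun _ : Fin n => γ) := by
  have hmeas : Measurable (fun p : (Fin n → ℝ) × ℝ => Function.update p.1 i p.2) := by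
    refine measurable_pi_iff.2 fun j => ?_
    by_cases hj : j = i
    · subst hj
      simpa using measurable_snd
    · simp only [Function.update_of_ne hj]
      exact (measurable_pi_apply j).comp measurable_fst
  refine ⟨hmeas, ?_⟩
  symm
  refine Measure.pi_eq fun s hs => ?_
  rw [Measure.map_apply hmeas (MeasurableSet.univ_pi hs)]
  have hset : (fun p : (Fin n → ℝ) × ℝ => Function.update p.1 i p.2) ⁻¹' (Set.univ.pi s) =
      (Set.univ.pi (Function.update s i Set.univ)) ×ˢ (s i) := by
    ext ⟨x, t⟩
    simp only [Set.mem_preimage, Set.mem_pi, Set.mem_univ, true_implies, Set.mem_prod]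
    constructor
    · intro h
      refine ⟨fun j => ?_, ?_⟩
      · by_cases hj : j = i
        · subst hj; simp
        · have := h j
          rw [Function.update_of_ne hj] at this
          rw [Function.update_of_ne hj]
          exact this
      · simpa using h i
    · rintro ⟨h1, h2⟩ j
      by_cases hj : j = i
      · subst hj; simpa using h2
      · have := h1 j
        rw [Function.update_of_ne hj] at this
        rw [Function.update_of_ne hj]
        exact this
  rw [hset, Measure.prod_prod, Measure.pi_pi, ← Finset.mul_prod_erase Finset.univ _ (Finset.mem_univ i),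
    ← Finset.mul_prod_erase Finset.univ (fun j => γ (s j)) (Finset.mem_univ i)]
  simp only [Function.update_self, measure_univ, one_mul]
  rw [mul_comm]
  congr 1
  refine Finset.prod_congr rfl fun j hj => ?_
  rw [Function.update_of_ne (Finset.ne_of_mem_erase hj)]

theorem gaussN_nonneg {n : ℕ} {F : (Fin n → ℝ) → ℝ} {C : ℝ}
    (hC : ∀ x, |F x| ≤ C * (1 + ‖x‖)) : 0 ≤ C := by
  have h := hC 0
  simp only [norm_zero, add_zero, mul_one] at h
  exact (abs_nonneg _).trans h

theorem gaussN_memLp {n : ℕ} (F : (Fin n → ℝ) → ℝ) (hm : Measurable F) {C : ℝ}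
    (hC : ∀ x, |F x| ≤ C * (1 + ‖x‖)) :
    MemLp F 2 (Measure.pi fun _ : Fin n => gaussianReal 0 1) := by
  have hC0 := gaussN_nonneg hC
  have h1 : ∀ i : Fin n, MemLp (fun x : Fin n → ℝ => |x i|) 2
      (Measure.pi fun _ : Fin n => gaussianReal 0 1) := by
    intro i
    have h := (memLp_id_gaussianReal (μ := 0) (v := 1) 2).norm
    have h2 := h.comp_measurePreserving
      (measurePreserving_eval (fun _ : Fin n => gaussianReal 0 1) i)
    exact h2
  have h2 : MemLp (fun x : Fin n → ℝ => C * (1 + ∑ i, |x i|)) 2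
      (Measure.pi fun _ : Fin n => gaussianReal 0 1) :=
    ((memLp_const (1 : ℝ)).add (memLp_finsetSum _ fun i _ => h1 i)).const_mul C
  refine h2.mono hm.aestronglyMeasurable (Filter.Eventually.of_forall fun x => ?_)
  have h3 : ‖x‖ ≤ ∑ i, |x i| := by
    refine (pi_norm_le_iff_of_nonneg (Finset.sum_nonneg fun i _ => abs_nonneg _)).2 fun i => ?_
    exact Finset.single_le_sum (f := fun i => |x i|) (fun i _ => abs_nonneg _) (Finset.mem_univ i)
  have h4 : 0 ≤ ∑ i, |x i| := Finset.sum_nonneg fun i _ => abs_nonneg _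
  rw [Real.norm_eq_abs, Real.norm_eq_abs, abs_of_nonneg (a := C * (1 + ∑ i, |x i|)) (by positivity)]
  refine (hC x).trans ?_
  gcongr

theorem gaussN_update_bound {n : ℕ} (x : Fin n → ℝ) (i : Fin n) (t : ℝ) :
    1 + ‖Function.update x i t‖ ≤ (1 + ‖x‖) * (1 + |t|) := by
  have h : ‖Function.update x i t‖ ≤ ‖x‖ + |t| := by
    refine (pi_norm_le_iff_of_nonneg (by positivity)).2 fun j => ?_
    by_cases hj : j = i
    · subst hj
      simp only [Function.update_self, Real.norm_eq_abs]
      have := norm_nonneg x
      linarith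
    · rw [Function.update_of_ne hj]
      have := norm_le_pi_norm x j
      have := abs_nonneg t
      linarith
  have h1 := norm_nonneg x
  have h2 := abs_nonneg t
  nlinarith [mul_nonneg h1 h2]

/-- The Gaussian Poincare inequality for functions which are differentiable along all lines
parallel to a coordinate axis and not contained in it. -/
theorem gaussN {n : ℕ} (hn : 2 ≤ n) (F : (Fin n → ℝ) → ℝ) (DF : Fin n → (Fin n → ℝ) → ℝ)
    (hm : Measurable F) (hDm : ∀ i, Measurable (DF i)) {C : ℝ}
    (hC : ∀ x, |F x| ≤ C * (1 + ‖x‖)) (hC' : ∀ i x, |DF i x| ≤ C)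
    (hd : ∀ i x, (∃ j, j ≠ i ∧ x j ≠ 0) →
      (∀ t, HasDerivAt (fun t => F (Function.update x i t)) (DF i (Function.update x i t)) t) ∧
      Continuous (fun t => DF i (Function.update x i t))) :
    ∫ x, F x ^ 2 ∂(Measure.pi fun _ : Fin n => gaussianReal 0 1) -
        (∫ x, F x ∂(Measure.pi fun _ : Fin n => gaussianReal 0 1)) ^ 2 ≤
      ∑ i, ∫ x, DF i x ^ 2 ∂(Measure.pi fun _ : Fin n => gaussianReal 0 1) := by
  have hC0 := gaussN_nonneg hC
  refine (efron (gaussianReal 0 1) F hm (gaussN_memLp F hm hC)).trans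
    (Finset.sum_le_sum fun i _ => ?_)
  have hupd : ∀ x : Fin n → ℝ, Measurable (fun t : ℝ => Function.update x i t) := fun x =>
    measurable_update x
  have hbound : ∀ x t, |F (Function.update x i t)| ≤ (C * (1 + ‖x‖)) * (1 + |t|) := by
    intro x t
    refine (hC _).trans ?_
    rw [mul_assoc]
    exact mul_le_mul_of_nonneg_left (gaussN_update_bound x i t) hC0
  -- the sections are in L²
  have hsec : ∀ x : Fin n → ℝ, MemLp (fun t => F (Function.update x i t)) 2
      (gaussianReal 0 1) := by
    intro x
    have h := (memLp_id_gaussianReal (μ := 0) (v := 1) 2).norm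
    have h2 : MemLp (fun t : ℝ => (C * (1 + ‖x‖)) * (1 + |t|)) 2 (gaussianReal 0 1) :=
      ((memLp_const (1 : ℝ)).add h).const_mul _
    refine h2.mono (hm.comp (hupd x)).aestronglyMeasurable
      (Filter.Eventually.of_forall fun t => ?_)
    have h4 : 0 ≤ (C * (1 + ‖x‖)) * (1 + |t|) := by positivity
    rw [Real.norm_eq_abs, Real.norm_eq_abs, abs_of_nonneg h4]
    exact hbound x t
  have hvar : ∀ x : Fin n → ℝ, 0 ≤ ∫ t, F (Function.update x i t) ^ 2 ∂(gaussianReal 0 1) -
      (∫ t, F (Function.update x i t) ∂(gaussianReal 0 1)) ^ 2 := by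
    intro x
    have h := variance_nonneg (fun t => F (Function.update x i t)) (gaussianReal 0 1)
    rw [variance_eq_sub (hsec x)] at h
    exact h
  -- the square of the derivative
  have hmp := gaussN_mp (gaussianReal 0 1) i
  have hmD : Measurable (fun p : (Fin n → ℝ) × ℝ => DF i (Function.update p.1 i p.2) ^ 2) :=
    ((hDm i).comp hmp.measurable).pow_const 2
  have hiD : Integrable (fun p : (Fin n → ℝ) × ℝ => DF i (Function.update p.1 i p.2) ^ 2)
      ((Measure.pi fun _ : Fin n => gaussianReal 0 1).prod (gaussianReal 0 1)) := by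
    refine Integrable.of_bound hmD.aestronglyMeasurable (C ^ 2)
      (Filter.Eventually.of_forall fun p => ?_)
    rw [Real.norm_eq_abs, abs_of_nonneg (sq_nonneg _), ← sq_abs]
    exact pow_le_pow_left₀ (abs_nonneg _) (hC' i _) 2
  have hae : ∀ᵐ x ∂(Measure.pi fun _ : Fin n => gaussianReal 0 1), ∃ j, j ≠ i ∧ x j ≠ 0 := by
    obtain ⟨j, hj⟩ : ∃ j : Fin n, j ≠ i := by
      by_cases hi : i = ⟨0, by omega⟩
      · exact ⟨⟨1, by omega⟩, by rw [hi]; simp [Fin.ext_iff]⟩
      · exact ⟨⟨0, by omega⟩, fun h => hi h.symm⟩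
    have hna : (gaussianReal 0 1) {(0 : ℝ)} = 0 := by
      have := nullSingletonClass_gaussianReal (μ := 0) (v := 1) one_ne_zero
      exact measure_singleton 0
    have h0 : ∀ᵐ t ∂(gaussianReal 0 1), t ≠ 0 := by
      rw [ae_iff]
      simpa using hna
    have h1 := (measurePreserving_eval (fun _ : Fin n => gaussianReal 0 1)
      j).quasiMeasurePreserving.ae h0
    filter_upwards [h1] with x hx
    exact ⟨j, hj, hx⟩
  calc ∫ x, (∫ t, F (Function.update x i t) ^ 2 ∂(gaussianReal 0 1) -
          (∫ t, F (Function.update x i t) ∂(gaussianReal 0 1)) ^ 2)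
        ∂(Measure.pi fun _ : Fin n => gaussianReal 0 1)
      ≤ ∫ x, (∫ t, DF i (Function.update x i t) ^ 2 ∂(gaussianReal 0 1))
          ∂(Measure.pi fun _ : Fin n => gaussianReal 0 1) := by
        refine integral_mono_of_nonneg (Filter.Eventually.of_forall hvar)
          hiD.integral_prod_left ?_
        filter_upwards [hae] with x hx
        obtain ⟨h1, h2⟩ := hd i x hx
        refine gauss1 (fun t => F (Function.update x i t)) (fun t => DF i (Function.update x i t))
          h1 h2 (C := C * (1 + ‖x‖)) (hbound x) fun t => ?_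
        refine (hC' i _).trans ?_
        have := norm_nonneg x
        nlinarith
    _ = ∫ p, DF i (Function.update p.1 i p.2) ^ 2
          ∂((Measure.pi fun _ : Fin n => gaussianReal 0 1).prod (gaussianReal 0 1)) :=
        (integral_prod _ hiD).symm
    _ = ∫ x, DF i x ^ 2 ∂(Measure.pi fun _ : Fin n => gaussianReal 0 1) := by
        rw [← hmp.map_eq, integral_map hmp.measurable.aemeasurable]
        · rw [hmp.map_eq]
        · rw [hmp.map_eq]
          exact ((hDm i).pow_const 2).aestronglyMeasurable

end Pool.Agent.NE
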