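import Pool.Agent.NE.Tools

set_option autoImplicit false

open MeasureTheory Set
open scoped ENNReal

namespace Pool.Agent.NE

variable {n : ℕ} {R μ : ℝ} {g dg : ℝ → ℝ}

theorem Gf_g_mono (hg : IsProfile n R μ g dg) : MonotoneOn g (Ici 0) := by
  refine monotoneOn_of_deriv_nonneg (convex_Ici 0) hg.g_cont ?_ ?_
  · intro x hx
    rw [interior_Ici] at hx
    exact (hg.g_deriv x hx).differentiableAt.differentiableWithinAt
  · intro x hx
    rw [interior_Ici] at hx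
    rw [(hg.g_deriv x hx).deriv]
    exact hg.dg_nonneg x (le_of_lt hx)

theorem Gf_g_nonneg (hg : IsProfile n R μ g dg) {r : ℝ} (hr : 0 ≤ r) : 0 ≤ g r := by
  rw [← hg.g_zero]
  exact Gf_g_mono hg (mem_Ici.2 le_rfl) (mem_Ici.2 hr) hr

theorem Gf_g_le (hg : IsProfile n R μ g dg) {r : ℝ} (hr : 0 ≤ r) : g r ≤ g R := by
  rcases le_total r R with h | h
  · exact Gf_g_mono hg (mem_Ici.2 hr) (mem_Ici.2 hg.R_pos.le) h
  · rw [hg.g_const r h]

theorem Gf_g_lip (hg : IsProfile n R μ g dg) {r s : ℝ} (hr : 0 ≤ r) (hrs : r ≤ s) :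
    g s - g r ≤ s - r := by
  have h : AntitoneOn (fun x => g x - x) (Ici 0) := by
    refine antitoneOn_of_deriv_nonpos (convex_Ici 0) (hg.g_cont.sub continuousOn_id) ?_ ?_
    · intro x hx
      rw [interior_Ici] at hx
      exact ((hg.g_deriv x hx).sub (hasDerivAt_id x)).differentiableAt.differentiableWithinAt
    · intro x hx
      rw [interior_Ici] at hx
      have h1 : HasDerivAt (fun x => g x - x) (dg x - 1) x :=
        (hg.g_deriv x hx).sub (hasDerivAt_id x)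
      rw [h1.deriv]
      have := hg.dg_le_one x (le_of_lt hx)
      linarith
  have := h (mem_Ici.2 hr) (mem_Ici.2 (hr.trans hrs)) hrs
  simp only at this
  linarith

theorem Gf_g_le_self (hg : IsProfile n R μ g dg) {r : ℝ} (hr : 0 ≤ r) : g r ≤ r := by
  have := Gf_g_lip hg le_rfl hr
  rw [hg.g_zero] at this
  linarith

theorem Gf_norm (hg : IsProfile n R μ g dg) (y : E n) : ‖Gf g y‖ = g ‖y‖ := by
  rw [Gf, norm_smul, Real.norm_eq_abs, abs_div, abs_norm,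
    abs_of_nonneg (Gf_g_nonneg hg (norm_nonneg y))]
  by_cases hy : ‖y‖ = 0
  · rw [hy, hg.g_zero]; simp
  · field_simp

theorem Gf_bound (hg : IsProfile n R μ g dg) (y : E n) : ‖Gf g y‖ ≤ g R := by
  rw [Gf_norm hg]
  exact Gf_g_le hg (norm_nonneg y)

/-- the monotonicity of `g` in symmetric form -/
theorem Gf_sq (hg : IsProfile n R μ g dg) {r s : ℝ} (hr : 0 ≤ r) (hs : 0 ≤ s) :
    (g r - g s) ^ 2 ≤ (r - s) ^ 2 := by
  rcases le_total r s with h | h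
  · have h1 := Gf_g_lip hg hr h
    have h2 := Gf_g_mono hg (mem_Ici.2 hr) (mem_Ici.2 hs) h
    nlinarith
  · have h1 := Gf_g_lip hg hs h
    have h2 := Gf_g_mono hg (mem_Ici.2 hs) (mem_Ici.2 hr) h
    nlinarith

theorem Gf_mul (hg : IsProfile n R μ g dg) {r s : ℝ} (hr : 0 ≤ r) (hs : 0 ≤ s) :
    0 ≤ (g r - g s) * (r - s) := by
  rcases le_total r s with h | h
  · have h2 := Gf_g_mono hg (mem_Ici.2 hr) (mem_Ici.2 hs) h
    nlinarith
  · have h2 := Gf_g_mono hg (mem_Ici.2 hs) (mem_Ici.2 hr) h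
    nlinarith

theorem Gf_lip (hg : IsProfile n R μ g dg) (y z : E n) : ‖Gf g y - Gf g z‖ ≤ ‖y - z‖ := by
  have hr := norm_nonneg y
  have hs := norm_nonneg z
  have ha := Gf_g_nonneg hg hr
  have hb := Gf_g_nonneg hg hs
  have ha' := Gf_g_le_self hg hr
  have hb' := Gf_g_le_self hg hs
  have hab := Gf_sq hg hr hs
  have hin : inner ℝ (Gf g y) (Gf g z) = (g ‖y‖ / ‖y‖) * (g ‖z‖ / ‖z‖) * inner ℝ y z := by
    simp only [Gf, inner_smul_left, inner_smul_right, RCLike.conj_to_real]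
    ring
  have h1 : ‖Gf g y - Gf g z‖ ^ 2 = g ‖y‖ ^ 2 - 2 * ((g ‖y‖ / ‖y‖) * (g ‖z‖ / ‖z‖) * inner ℝ y z)
      + g ‖z‖ ^ 2 := by
    rw [norm_sub_sq_real, Gf_norm hg, Gf_norm hg, hin]
  have h2 : ‖y - z‖ ^ 2 = ‖y‖ ^ 2 - 2 * inner ℝ y z + ‖z‖ ^ 2 := norm_sub_sq_real y z
  have hcs : inner ℝ y z ≤ ‖y‖ * ‖z‖ := real_inner_le_norm y z
  refine abs_le_of_sq_le_sq' ?_ (norm_nonneg _) |>.2
  rw [h1, h2]
  -- the ratios are in [0, 1]
  set p := g ‖y‖ / ‖y‖ with hp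
  set q := g ‖z‖ / ‖z‖ with hq
  have hp0 : 0 ≤ p := div_nonneg ha hr
  have hq0 : 0 ≤ q := div_nonneg hb hs
  have hp1 : p ≤ 1 := div_le_one_of_le₀ ha' hr
  have hq1 : q ≤ 1 := div_le_one_of_le₀ hb' hs
  have hpr : p * ‖y‖ = g ‖y‖ := by
    by_cases hy : ‖y‖ = 0
    · rw [hy, hg.g_zero]; simp
    · rw [hp]; field_simp
  have hqs : q * ‖z‖ = g ‖z‖ := by
    by_cases hy : ‖z‖ = 0
    · rw [hy, hg.g_zero]; simp
    · rw [hq]; field_simp
  have hpq : p * q ≤ 1 := mul_le_one₀ hp1 hq0 hq1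
  have h3 : 0 ≤ (1 - p * q) * (‖y‖ * ‖z‖ - inner ℝ y z) :=
    mul_nonneg (by linarith) (by linarith)
  have h4 : p * q * (‖y‖ * ‖z‖) = g ‖y‖ * g ‖z‖ := by rw [← hpr, ← hqs]; ring
  nlinarith

theorem Gf_mono (hg : IsProfile n R μ g dg) (y z : E n) :
    0 ≤ inner ℝ (Gf g y - Gf g z) (y - z) := by
  have hr := norm_nonneg y
  have hs := norm_nonneg z
  have ha := Gf_g_nonneg hg hr
  have hb := Gf_g_nonneg hg hs
  have hcs : inner ℝ y z ≤ ‖y‖ * ‖z‖ := real_inner_le_norm y z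
  have hm := Gf_mul hg hr hs
  have h1 : inner ℝ (Gf g y - Gf g z) (y - z) =
      (g ‖y‖ / ‖y‖) * (‖y‖ ^ 2 - inner ℝ y z) + (g ‖z‖ / ‖z‖) * (‖z‖ ^ 2 - inner ℝ y z) := by
    simp only [Gf, inner_sub_left, inner_sub_right, inner_smul_left, RCLike.conj_to_real,
      real_inner_self_eq_norm_sq, real_inner_comm y z]
    ring
  rw [h1]
  set p := g ‖y‖ / ‖y‖ with hp
  set q := g ‖z‖ / ‖z‖ with hq
  have hp0 : 0 ≤ p := div_nonneg ha hr
  have hq0 : 0 ≤ q := div_nonneg hb hs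
  have hpr : p * ‖y‖ = g ‖y‖ := by
    by_cases hy : ‖y‖ = 0
    · rw [hy, hg.g_zero]; simp
    · rw [hp]; field_simp
  have hqs : q * ‖z‖ = g ‖z‖ := by
    by_cases hy : ‖z‖ = 0
    · rw [hy, hg.g_zero]; simp
    · rw [hq]; field_simp
  have h3 : 0 ≤ (p + q) * (‖y‖ * ‖z‖ - inner ℝ y z) :=
    mul_nonneg (by linarith) (by linarith)
  nlinarith

theorem Gf_inner_nonneg (hg : IsProfile n R μ g dg) (y : E n) : 0 ≤ inner ℝ (Gf g y) y := by
  rw [Gf, inner_smul_left, real_inner_self_eq_norm_sq, RCLike.conj_to_real]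
  exact mul_nonneg (div_nonneg (Gf_g_nonneg hg (norm_nonneg y)) (norm_nonneg y)) (sq_nonneg _)

theorem Gf_isom (L : E n ≃ₗᵢ[ℝ] E n) (y : E n) : Gf g (L y) = L (Gf g y) := by
  simp [Gf, L.norm_map]

theorem Gf_deriv (hg : IsProfile n R μ g dg) {y : E n} (hy : y ≠ 0) :
    ∃ L : E n →L[ℝ] E n, HasFDerivAt (Gf g) L y ∧
      (∀ η, L η = (dg ‖y‖ * (inner ℝ y η / ‖y‖ ^ 2)) • y +
        (g ‖y‖ / ‖y‖) • (η - (inner ℝ y η / ‖y‖ ^ 2) • y)) := by
  have hr : 0 < ‖y‖ := norm_pos_iff.2 hy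
  have hq : HasFDerivAt (fun x : E n => ‖x‖ ^ 2) (2 • innerSL ℝ y) y :=
    (hasStrictFDerivAt_norm_sq y).hasFDerivAt
  have hsq : Real.sqrt (‖y‖ ^ 2) = ‖y‖ := Real.sqrt_sq hr.le
  have hk : HasDerivAt (fun q : ℝ => g (Real.sqrt q) / Real.sqrt q)
      ((dg ‖y‖ * (1 / (2 * ‖y‖)) * ‖y‖ - g ‖y‖ * (1 / (2 * ‖y‖))) / ‖y‖ ^ 2) (‖y‖ ^ 2) := by
    have h1 : HasDerivAt Real.sqrt (1 / (2 * ‖y‖)) (‖y‖ ^ 2) := by
      have := Real.hasDerivAt_sqrt (x := ‖y‖ ^ 2) (by positivity)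
      rwa [hsq] at this
    have h2 : HasDerivAt (fun q => g (Real.sqrt q)) (dg ‖y‖ * (1 / (2 * ‖y‖))) (‖y‖ ^ 2) := by
      have h3 : HasDerivAt g (dg ‖y‖) (Real.sqrt (‖y‖ ^ 2)) := by
        rw [hsq]; exact hg.g_deriv _ hr
      exact h3.comp _ h1
    have h4 := h2.div h1 (by rw [hsq]; exact hr.ne')
    rwa [hsq] at h4
  have hkc := hk.comp_hasFDerivAt y hq
  have hG := hkc.smul (hasFDerivAt_id (𝕜 := ℝ) y)
  have heq : Gf g = fun x : E n => ((fun q : ℝ => g (Real.sqrt q) / Real.sqrt q) ∘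
      fun x : E n => ‖x‖ ^ 2) x • id x := by
    funext x
    simp [Gf, Real.sqrt_sq (norm_nonneg x)]
  refine ⟨_, by rw [heq]; exact hG, fun η => ?_⟩
  simp only [add_apply, smul_apply,
    ContinuousLinearMap.smulRight_apply, Function.comp, hsq, id, ContinuousLinearMap.id_apply,
    innerSL_apply_apply, nsmul_eq_mul, smul_eq_mul]
  rw [smul_sub, add_comm, ← add_sub_assoc, smul_smul]
  rw [add_comm, add_sub_right_comm, ← sub_smul, add_comm]
  congr 2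
  field_simp
  push_cast
  ring

end Pool.Agent.NE
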