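import Pool.Agent.NE.Tools

set_option autoImplicit false

open MeasureTheory Set
open scoped ENNReal

namespace Pool.Agent.NE

/-- Invariance under isometries. -/
lemma iso_inv {n : ℕ} (R : ℝ) (h : ℝ → ℝ) (L : E n ≃ₗᵢ[ℝ] E n) (ξ : E n) :
    ∫ y in Metric.ball (0 : E n) R, h ‖y‖ * (inner ℝ y (L ξ) / ‖y‖) ^ 2 =
      ∫ y in Metric.ball (0 : E n) R, h ‖y‖ * (inner ℝ y ξ / ‖y‖) ^ 2 := by
  have hmp : MeasurePreserving L (volume : Measure (E n)) volume := L.measurePreserving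
  have h1 := hmp.setIntegral_preimage_emb L.toHomeomorph.measurableEmbedding
    (fun y => h ‖y‖ * (inner ℝ y (L ξ) / ‖y‖) ^ 2) (Metric.ball (0 : E n) R)
  have h2 : L ⁻¹' (Metric.ball (0 : E n) R) = Metric.ball (0 : E n) R := by
    ext y; simp
  rw [h2] at h1
  rw [← h1]
  simp

lemma iso_smul {n : ℕ} (R : ℝ) (h : ℝ → ℝ) (t : ℝ) (ξ : E n) :
    ∫ y in Metric.ball (0 : E n) R, h ‖y‖ * (inner ℝ y (t • ξ) / ‖y‖) ^ 2 =
      t ^ 2 * ∫ y in Metric.ball (0 : E n) R, h ‖y‖ * (inner ℝ y ξ / ‖y‖) ^ 2 := by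
  rw [← integral_const_mul]
  congr 1
  funext y
  rw [inner_smul_right]
  ring

lemma iso_basis {n : ℕ} (R : ℝ) (h : ℝ → ℝ) (ξ : E n) (i : Fin n) :
    ∫ y in Metric.ball (0 : E n) R, h ‖y‖ * (inner ℝ y ξ / ‖y‖) ^ 2 =
      ‖ξ‖ ^ 2 * ∫ y in Metric.ball (0 : E n) R,
        h ‖y‖ * (inner ℝ y (EuclideanSpace.single i (1 : ℝ)) / ‖y‖) ^ 2 := by
  rw [← iso_smul]
  have hn : ‖ξ‖ = ‖(‖ξ‖ • (EuclideanSpace.single i (1 : ℝ)) : E n)‖ := by
    rw [norm_smul]; simp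
  have h1 := Submodule.reflection_sub hn
  rw [← h1, iso_inv]

/-- Isotropy of radial integrals over a ball. -/
theorem iso {n : ℕ} (hn : 1 ≤ n) (R : ℝ) (h : ℝ → ℝ)
    (hh : IntegrableOn (fun y : E n => h ‖y‖) (Metric.ball 0 R)) (ξ : E n) :
    ∫ y in Metric.ball (0 : E n) R, h ‖y‖ * (inner ℝ y ξ / ‖y‖) ^ 2 =
      ‖ξ‖ ^ 2 / n * ∫ y in Metric.ball (0 : E n) R, h ‖y‖ := by
  have hn0 : (n : ℝ) ≠ 0 := by positivity
  have : Nonempty (Fin n) := ⟨⟨0, hn⟩⟩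
  have : Nontrivial (E n) := inferInstance
  have hint : ∀ i : Fin n, Integrable (fun y : E n =>
      h ‖y‖ * (inner ℝ y (EuclideanSpace.single i (1 : ℝ)) / ‖y‖) ^ 2)
      (volume.restrict (Metric.ball 0 R)) := by
    intro i
    have hb : Measurable (fun y : E n =>
      (inner ℝ y (EuclideanSpace.single i (1 : ℝ)) / ‖y‖) ^ 2) := by fun_prop
    refine Integrable.mul_bdd (c := 1) hh hb.aestronglyMeasurable
      (Filter.Eventually.of_forall fun y => ?_)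
    rw [norm_pow, norm_div, Real.norm_eq_abs, norm_norm]
    have h1 := abs_real_inner_le_norm y (EuclideanSpace.single i (1 : ℝ))
    simp only [PiLp.norm_single, norm_one, mul_one] at h1
    exact pow_le_one₀ (by positivity) (div_le_one_of_le₀ h1 (norm_nonneg _))
  have hsum : ∑ i : Fin n, ∫ y in Metric.ball (0 : E n) R,
      h ‖y‖ * (inner ℝ y (EuclideanSpace.single i (1 : ℝ)) / ‖y‖) ^ 2 =
      ∫ y in Metric.ball (0 : E n) R, h ‖y‖ := by
    rw [← integral_finsetSum _ (fun i _ => hint i)]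
    refine integral_congr_ae ?_
    have h0 : ∀ᵐ y ∂(volume.restrict (Metric.ball (0 : E n) R)), y ≠ 0 :=
      ae_restrict_of_ae (Measure.ae_ne _ _)
    filter_upwards [h0] with y hy
    have hy' : ‖y‖ ≠ 0 := norm_ne_zero_iff.2 hy
    rw [← Finset.mul_sum]
    have h2 : ∑ i : Fin n, (inner ℝ y (EuclideanSpace.single i (1 : ℝ)) / ‖y‖) ^ 2 = 1 := by
      simp only [div_pow]
      rw [← Finset.sum_div, EuclideanSpace.norm_sq_eq]
      rw [div_eq_one_iff_eq]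
      · refine Finset.sum_congr rfl fun i _ => ?_
        rw [EuclideanSpace.inner_single_right]
        simp
      · rw [← EuclideanSpace.norm_sq_eq]; positivity
    rw [h2, mul_one]
  rw [← hsum, Finset.mul_sum]
  have h3 : ∀ i ∈ Finset.univ, ‖ξ‖ ^ 2 / n * ∫ y in Metric.ball (0 : E n) R,
      h ‖y‖ * (inner ℝ y (EuclideanSpace.single i (1 : ℝ)) / ‖y‖) ^ 2 =
      (1 / n) * ∫ y in Metric.ball (0 : E n) R, h ‖y‖ * (inner ℝ y ξ / ‖y‖) ^ 2 := by
    intro i _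
    rw [iso_basis R h ξ i]
    ring
  rw [Finset.sum_congr rfl h3, Finset.sum_const, Finset.card_univ, Fintype.card_fin, nsmul_eq_mul]
  field_simp

end Pool.Agent.NE
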