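import Pool.Agent.NE.OdeCap

set_option autoImplicit false

open MeasureTheory Set
open scoped ENNReal Topology

namespace Pool.Agent.NE

/-- Existence of the Euclidean profile. -/
theorem exists_profile {n : ℕ} (hn : 1 ≤ n) {R : ℝ} (hR : 0 < R) :
    ∃ (μ : ℝ) (g dg : ℝ → ℝ), IsProfile n R μ g dg := by
  obtain ⟨μ, g0, dg0, h⟩ := exists_cap (κ := 0) (s := fun r => r) (c := fun _ => 1) hn hR le_rfl
    rfl rfl (fun r => hasDerivAt_id' r) (fun r => by simpa using hasDerivAt_const r (1 : ℝ))
    (fun r _ => one_pos)
  have hmem : ∀ r : ℝ, 0 ≤ r → min r R ∈ Icc 0 R := fun r hr => ⟨le_min hr hR.le, min_le_right _ _⟩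
  have hmem' : ∀ r : ℝ, 0 < r → min r R ∈ Ioc 0 R := fun r hr => ⟨lt_min hr hR, min_le_right _ _⟩
  have hcg : ContinuousOn (fun r => g0 (min r R)) (Ici 0) :=
    h.g_cont.comp (by fun_prop) (fun r hr => hmem r hr)
  have hcd : ContinuousOn (fun r => dg0 (min r R)) (Ici 0) :=
    h.dg_cont.comp (by fun_prop) (fun r hr => hmem r hr)
  have hder : ∀ r, 0 < r → HasDerivAt (fun r => g0 (min r R)) (dg0 (min r R)) r := by
    intro r hr
    rcases lt_trichotomy r R with hlt | heq | hgt
    · rw [min_eq_left hlt.le]
      apply (h.g_deriv r ⟨hr, hlt⟩).congr_of_eventuallyEq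
      filter_upwards [Iio_mem_nhds hlt] with x hx
      rw [min_eq_left (le_of_lt hx)]
    · subst heq
      rw [min_self, h.dg_at_R]
      have hl : HasDerivWithinAt g0 0 (Iic r) r := by
        apply hasDerivWithinAt_Iic_of_tendsto_deriv (s := Ioo 0 r)
        · intro x hx
          exact (h.g_deriv x hx).differentiableAt.differentiableWithinAt
        · exact (h.g_cont r ⟨hr.le, le_rfl⟩).mono Ioo_subset_Icc_self
        · exact Ioo_mem_nhdsLT hr
        · have h1 : Filter.Tendsto dg0 (𝓝[<] r) (𝓝 0) := by
            have := (h.dg_cont r ⟨hr.le, le_rfl⟩).tendsto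
            rw [h.dg_at_R] at this
            refine this.mono_left ?_
            rw [← nhdsWithin_Ioo_eq_nhdsLT hr]
            exact nhdsWithin_mono _ Ioo_subset_Icc_self
          refine h1.congr' ?_
          filter_upwards [Ioo_mem_nhdsLT hr] with x hx
          exact (h.g_deriv x hx).deriv.symm
      have h1 : HasDerivWithinAt (fun x => g0 (min x r)) 0 (Iic r) r := by
        apply hl.congr
        · intro x hx
          rw [min_eq_left hx]
        · rw [min_self]
      have h2 : HasDerivWithinAt (fun x => g0 (min x r)) 0 (Ici r) r := by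
        apply (hasDerivWithinAt_const r (Ici r) (g0 r)).congr
        · intro x hx
          rw [min_eq_right hx]
        · rw [min_self]
      have h3 := h1.union h2
      rw [Iic_union_Ici, hasDerivWithinAt_univ] at h3
      exact h3
    · rw [min_eq_right hgt.le, h.dg_at_R]
      apply (hasDerivAt_const r (g0 R)).congr_of_eventuallyEq
      filter_upwards [Ioi_mem_nhds hgt] with x hx
      rw [min_eq_right (le_of_lt hx)]
  have hdp : ∀ r, 0 ≤ r → 0 ≤ dg0 (min r R) := by
    intro r hr
    rcases lt_or_ge r R with h1 | h1
    · rw [min_eq_left h1.le]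
      exact (h.dg_pos r ⟨hr, h1⟩).le
    · rw [min_eq_right h1, h.dg_at_R]
  refine ⟨μ, fun r => g0 (min r R), fun r => dg0 (min r R), ?_⟩
  have hgR : 0 < g0 R := h.g_pos R ⟨hR, le_rfl⟩
  exact {
    R_pos := hR
    μ_pos := h.μ_pos
    g_zero := by simp only [min_eq_left hR.le, h.g_zero]
    g_cont := hcg
    g_deriv := hder
    dg_cont := hcd
    g_pos := fun r hr => h.g_pos _ (hmem' r hr)
    g_const := fun r hr => by simp only [min_eq_right hr, min_self]
    dg_zero := fun r hr => by simp only [min_eq_right hr, h.dg_at_R]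
    dg_nonneg := hdp
    dg_le_one := by
      intro r hr
      have := h.dg_anti (left_mem_Icc.2 hR.le) (hmem r hr) (hmem r hr).1
      rwa [h.dg_at_zero] at this
    dg_anti := by
      intro a ha b hb hab
      exact h.dg_anti (hmem a ha) (hmem b hb) (min_le_min_right R hab)
    ratio_anti := by
      intro a ha b hb hab
      have ha' : 0 < a := ha
      have hb' : 0 < b := hb
      change g0 (min b R) / b ≤ g0 (min a R) / a
      rcases le_or_gt b R with hbR | hbR
      · rw [min_eq_left hbR, min_eq_left (hab.trans hbR)]
        exact h.ratio_anti ⟨ha', hab.trans hbR⟩ ⟨hb', hbR⟩ hab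
      · rw [min_eq_right hbR.le]
        rcases le_or_gt a R with haR | haR
        · rw [min_eq_left haR]
          have h1 : g0 R / R ≤ g0 a / a := h.ratio_anti ⟨ha', haR⟩ ⟨hR, le_rfl⟩ haR
          refine le_trans ?_ h1
          exact div_le_div_of_nonneg_left hgR.le hR hbR.le
        · rw [min_eq_right haR.le]
          exact div_le_div_of_nonneg_left hgR.le ha' hab
    cap := {
      R_pos := hR
      κ_nonneg := le_rfl
      s_zero := rfl
      c_zero := rfl
      s_deriv := h.s_deriv
      c_deriv := h.c_deriv
      c_pos := h.c_pos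
      μ_pos := h.μ_pos
      μ_ge := h.μ_ge
      g_zero := by simp only [min_eq_left hR.le, h.g_zero]
      dg_at_zero := by simp only [min_eq_left hR.le, h.dg_at_zero]
      dg_at_R := by simp only [min_self, h.dg_at_R]
      g_cont := hcg.mono Icc_subset_Ici_self
      dg_cont := hcd.mono Icc_subset_Ici_self
      g_deriv := fun r hr => hder r hr.1
      ode := by
        intro r hr
        have h1 := h.ode r hr
        rw [min_eq_left hr.2.le]
        apply h1.congr_of_eventuallyEq
        filter_upwards [Iio_mem_nhds hr.2] with x hx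
        rw [min_eq_left (le_of_lt hx)]
      g_pos := fun r hr => h.g_pos _ (hmem' r hr.1)
      dg_pos := by
        intro r hr
        simp only [min_eq_left hr.2.le]
        exact h.dg_pos r hr
      dg_anti := by
        intro a ha b hb hab
        exact h.dg_anti (hmem a ha.1) (hmem b hb.1) (min_le_min_right R hab)
      ratio_anti := by
        intro a ha b hb hab
        have := h.ratio_anti ha hb hab
        simpa only [min_eq_left ha.2, min_eq_left hb.2] using this } }

end Pool.Agent.NE
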