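import Pool.Agent.NE.GfLem
import Pool.Agent.NE.FoldLem

set_option autoImplicit false

open MeasureTheory Set
open scoped ENNReal ContDiff

namespace Pool.Agent.NE

variable {n : ℕ} {R μ : ℝ} {g dg : ℝ → ℝ}

/-- The weak gradient of `⟨Φ, ξ⟩` for a Lipschitz map `Φ`. -/
noncomputable def trialGrad (Φ : E n → E n) (ξ x : E n) : E n :=
  ContinuousLinearMap.adjoint (fderiv ℝ Φ x) ξ

theorem measurable_trialGrad (Φ : E n → E n) (ξ : E n) : Measurable (trialGrad Φ ξ) := by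
  have h1 : Measurable (fderiv ℝ Φ) := measurable_fderiv ℝ Φ
  have h2 : Continuous fun L : E n →L[ℝ] E n => ContinuousLinearMap.adjoint L ξ :=
    (ContinuousLinearMap.apply ℝ (E n) ξ).continuous.comp
      (ContinuousLinearMap.adjoint : (E n →L[ℝ] E n) ≃ₗᵢ⋆[ℝ] (E n →L[ℝ] E n)).continuous
  exact h2.measurable.comp h1

theorem norm_trialGrad_le {Φ : E n → E n} (hΦ : LipschitzWith 1 Φ) (ξ x : E n) :
    ‖trialGrad Φ ξ x‖ ≤ ‖ξ‖ := by
  have h1 : ‖fderiv ℝ Φ x‖ ≤ 1 := by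
    have := norm_fderiv_le_of_lipschitz ℝ (x₀ := x) hΦ
    simpa using this
  have h2 : ‖ContinuousLinearMap.adjoint (fderiv ℝ Φ x)‖ ≤ 1 := by
    rw [LinearIsometryEquiv.norm_map]; exact h1
  refine (ContinuousLinearMap.le_opNorm _ _).trans ?_
  exact mul_le_of_le_one_left (norm_nonneg _) h2

theorem inner_trialGrad (Φ : E n → E n) (ξ x v : E n) :
    inner ℝ (trialGrad Φ ξ x) v = inner ℝ (fderiv ℝ Φ x v) ξ := by
  unfold trialGrad
  rw [ContinuousLinearMap.adjoint_inner_left, real_inner_comm]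

theorem isWeakGrad_trial {Ω : Set (E n)} {Φ : E n → E n} (hΦ : LipschitzWith 1 Φ) (ξ : E n) :
    IsWeakGrad Ω (fun x => inner ℝ (Φ x) ξ) (trialGrad Φ ξ) := by
  intro φ h1 h2 h3 v
  have hφL : ∃ D, LipschitzWith D φ :=
    ⟨_, (ContDiff.lipschitzWith_of_hasCompactSupport h2 h1 (by simp)).choose_spec⟩
  obtain ⟨D, hD⟩ := hφL
  have hu : LipschitzWith (Real.toNNReal ‖ξ‖) fun x => inner ℝ (Φ x) ξ := by
    apply LipschitzWith.of_dist_le_mul
    intro x y
    rw [Real.coe_toNNReal _ (norm_nonneg _), Real.dist_eq, ← inner_sub_left]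
    refine (abs_real_inner_le_norm _ _).trans ?_
    have := hΦ.dist_le_mul x y
    rw [dist_eq_norm, NNReal.coe_one, one_mul] at this
    rw [mul_comm]
    gcongr
  have key := hu.integral_lineDeriv_mul_eq (μ := (volume : Measure (E n))) hD h2 v
  have hdφ : ∀ x, lineDeriv ℝ φ x (-v) = -fderiv ℝ φ x v := by
    intro x
    rw [((h1.differentiable (by simp)) x).lineDeriv_eq_fderiv, map_neg]
  have hl : ∀ᵐ x, lineDeriv ℝ (fun x => inner ℝ (Φ x) ξ) x v = inner ℝ (trialGrad Φ ξ x) v := by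
    filter_upwards [hΦ.ae_differentiableAt] with x hx
    have h4 : HasFDerivAt (fun x => inner ℝ (Φ x) ξ)
        ((fderivInnerCLM ℝ (Φ x, ξ)).comp ((fderiv ℝ Φ x).prod 0)) x :=
      hx.hasFDerivAt.inner ℝ (hasFDerivAt_const ξ x)
    rw [h4.differentiableAt.lineDeriv_eq_fderiv, h4.fderiv, inner_trialGrad]
    simp [fderivInnerCLM_apply]
  have e1 : ∫ x in Ω, inner ℝ (Φ x) ξ * fderiv ℝ φ x v =
      ∫ x, inner ℝ (Φ x) ξ * fderiv ℝ φ x v := by
    apply setIntegral_eq_integral_of_forall_compl_eq_zero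
    intro x hx
    have : fderiv ℝ φ x = 0 := by
      have h5 : x ∉ tsupport φ := fun h => hx (h3 h)
      have h6 : x ∉ tsupport (fderiv ℝ φ) := fun h => h5 (tsupport_fderiv_subset ℝ h)
      exact image_eq_zero_of_notMem_tsupport h6
    simp [this]
  have e2 : ∫ x in Ω, inner ℝ (trialGrad Φ ξ x) v * φ x =
      ∫ x, inner ℝ (trialGrad Φ ξ x) v * φ x := by
    apply setIntegral_eq_integral_of_forall_compl_eq_zero
    intro x hx
    have h5 : x ∉ tsupport φ := fun h => hx (h3 h)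
    rw [image_eq_zero_of_notMem_tsupport h5, mul_zero]
  rw [e1, e2]
  have e3 : ∫ x, inner ℝ (trialGrad Φ ξ x) v * φ x =
      ∫ x, lineDeriv ℝ (fun x => inner ℝ (Φ x) ξ) x v * φ x := by
    apply integral_congr_ae
    filter_upwards [hl] with x hx
    rw [hx]
  rw [e3, key, ← integral_neg]
  apply integral_congr_ae
  filter_upwards with x
  rw [hdφ]
  ring

theorem IsWeakGrad.congr {Ω : Set (E n)} {u u' : E n → ℝ} {G G' : E n → E n}
    (h : IsWeakGrad Ω u G) (hu : u' =ᵐ[volume.restrict Ω] u)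
    (hG : G' =ᵐ[volume.restrict Ω] G) : IsWeakGrad Ω u' G' := by
  intro φ h1 h2 h3 v
  have e1 : ∫ x in Ω, u' x * fderiv ℝ φ x v = ∫ x in Ω, u x * fderiv ℝ φ x v := by
    apply integral_congr_ae
    filter_upwards [hu] with x hx
    rw [hx]
  have e2 : ∫ x in Ω, inner ℝ (G' x) v * φ x = ∫ x in Ω, inner ℝ (G x) v * φ x := by
    apply integral_congr_ae
    filter_upwards [hG] with x hx
    rw [hx]
  rw [e1, e2]
  exact h φ h1 h2 h3 v

theorem qa_formula (g dg : ℝ → ℝ) {y : E n} (hyn : 0 < ‖y‖) (ξ : E n) :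
    ‖(dg ‖y‖ * (inner ℝ y ξ / ‖y‖ ^ 2)) • y +
      (g ‖y‖ / ‖y‖) • (ξ - (inner ℝ y ξ / ‖y‖ ^ 2) • y)‖ ^ 2 = qa g dg y ξ := by
  set t := inner ℝ y ξ with ht
  have horth : inner ℝ ((dg ‖y‖ * (t / ‖y‖ ^ 2)) • y)
      ((g ‖y‖ / ‖y‖) • (ξ - (t / ‖y‖ ^ 2) • y)) = 0 := by
    rw [inner_smul_left, inner_smul_right, inner_sub_right, inner_smul_right,
      real_inner_self_eq_norm_sq, ← ht]
    have : t - t / ‖y‖ ^ 2 * ‖y‖ ^ 2 = 0 := by
      rw [div_mul_cancel₀ _ (pow_ne_zero 2 hyn.ne'), sub_self]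
    rw [this]
    simp
  have hpy := norm_add_sq_real ((dg ‖y‖ * (t / ‖y‖ ^ 2)) • y)
    ((g ‖y‖ / ‖y‖) • (ξ - (t / ‖y‖ ^ 2) • y))
  rw [horth, mul_zero, add_zero] at hpy
  have hns : ∀ (a : ℝ) (z : E n), ‖a • z‖ ^ 2 = a ^ 2 * ‖z‖ ^ 2 := by
    intro a z
    rw [norm_smul, mul_pow, Real.norm_eq_abs, sq_abs]
  rw [hpy, hns, hns, norm_sub_sq_real, inner_smul_right, hns, real_inner_comm y ξ, ← ht]
  unfold qa
  rw [← ht]
  field_simp
  ring

/-- `|DΦ(x)ᵀ ξ|²` is the density `qa`. -/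
theorem norm_trialGrad_sq {Ω : Set (E n)} (hΩ : IsOpen Ω) (hg : IsProfile n R μ g dg) (p : E n)
    (q : ℝ) (A ξ : E n) : ∀ᵐ x ∂(volume.restrict Ω),
      ‖trialGrad (fun x => Gf g (fold p q x - A)) ξ x‖ ^ 2 = qa g dg (fold p q x - A) ξ := by
  rcases Nat.eq_zero_or_pos n with hn | hn
  · subst hn
    refine Filter.Eventually.of_forall fun x => ?_
    have h1 : ∀ a b : E 0, a = b := fun a b => Subsingleton.elim a b
    rw [h1 (trialGrad _ ξ x) 0, h1 (fold p q x - A) 0, h1 ξ 0]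
    simp [qa]
  have hne : ∀ᵐ x ∂(volume.restrict Ω), fold p q x - A ≠ 0 := by
    have hN : Nonempty (Fin n) := ⟨⟨0, hn⟩⟩
    have hnt : Nontrivial (E n) := by infer_instance
    have h1 := map_fold_le hΩ.measurableSet p q A
    have h2 : ((volume.restrict Ω).map (fun x => fold p q x - A)) {0} = 0 := by
      have h3 := h1 {0}
      have h4 : ((2 : ℝ≥0∞) • (volume : Measure (E n))) {0} = 0 := by
        rw [Measure.smul_apply, measure_singleton (μ := (volume : Measure (E n))), smul_zero]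
      rw [h4] at h3
      exact le_antisymm h3 bot_le
    have hm : Measurable fun x => fold p q x - A :=
      ((fold_lip p q).continuous.sub continuous_const).measurable
    rw [Measure.map_apply hm (measurableSet_singleton 0)] at h2
    rw [ae_iff]
    simp only [ne_eq, not_not]
    exact h2
  filter_upwards [hne, ae_restrict_of_ae (fold_deriv p q)] with x hx hL
  obtain ⟨L, hL⟩ := hL
  obtain ⟨M, hM, hMf⟩ := Gf_deriv hg hx
  have hd : HasFDerivAt (fun x => Gf g (fold p q x - A))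
      (M.comp (L.toContinuousLinearEquiv : E n →L[ℝ] E n)) x :=
    HasFDerivAt.comp (g := Gf g) (f := fun x => fold p q x - A) x hM (hL.sub_const A)
  set y := fold p q x - A with hy
  have hyn : 0 < ‖y‖ := norm_pos_iff.2 hx
  have hMs : ContinuousLinearMap.adjoint M = M := by
    symm
    rw [ContinuousLinearMap.eq_adjoint_iff]
    intro a b
    rw [hMf, hMf, inner_add_left, inner_add_right]
    simp only [inner_smul_left, inner_smul_right, inner_sub_left, inner_sub_right,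
      RCLike.conj_to_real]
    rw [real_inner_comm a y]
    ring
  have e1 : ‖trialGrad (fun x => Gf g (fold p q x - A)) ξ x‖ = ‖M ξ‖ := by
    unfold trialGrad
    rw [hd.fderiv, ContinuousLinearMap.adjoint_comp, hMs, ContinuousLinearMap.comp_apply]
    have h5 : ContinuousLinearMap.adjoint (L.toContinuousLinearEquiv : E n →L[ℝ] E n) =
        (L.symm.toContinuousLinearEquiv : E n →L[ℝ] E n) := L.adjoint_eq_symm
    rw [h5]
    exact L.symm.norm_map _
  rw [e1, hMf]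
  exact qa_formula g dg hyn ξ

theorem memLp_trial {Ω : Set (E n)} (hb : Bornology.IsBounded Ω) {Φ : E n → E n}
    (hL : LipschitzWith 1 Φ) {C : ℝ} (hC : ∀ x, ‖Φ x‖ ≤ C) (ξ : E n) :
    MemLp (fun x => inner ℝ (Φ x) ξ) 2 (volume.restrict Ω) := by
  have hfin : IsFiniteMeasure (volume.restrict Ω) :=
    ⟨by rw [Measure.restrict_apply_univ]; exact hb.measure_lt_top⟩
  refine MemLp.of_bound (hL.continuous.inner continuous_const).aestronglyMeasurable
    (C * ‖ξ‖) (Filter.Eventually.of_forall fun x => ?_)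
  refine (norm_inner_le_norm (𝕜 := ℝ) _ _).trans ?_
  have := hC x
  gcongr

theorem memLp_trialGrad {Ω : Set (E n)} (hb : Bornology.IsBounded Ω) {Φ : E n → E n}
    (hL : LipschitzWith 1 Φ) (ξ : E n) : MemLp (trialGrad Φ ξ) 2 (volume.restrict Ω) := by
  have hfin : IsFiniteMeasure (volume.restrict Ω) :=
    ⟨by rw [Measure.restrict_apply_univ]; exact hb.measure_lt_top⟩
  exact MemLp.of_bound (measurable_trialGrad Φ ξ).aestronglyMeasurable ‖ξ‖
    (Filter.Eventually.of_forall fun x => norm_trialGrad_le hL ξ x)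

/-- The pair `(⟨Φ, ξ⟩, DΦᵀ ξ)`. -/
noncomputable def trialPair {Ω : Set (E n)} (hb : Bornology.IsBounded Ω) {Φ : E n → E n}
    (hL : LipschitzWith 1 Φ) {C : ℝ} (hC : ∀ x, ‖Φ x‖ ≤ C) (ξ : E n) :
    Lp ℝ 2 (volume.restrict Ω) × Lp (E n) 2 (volume.restrict Ω) :=
  ((memLp_trial hb hL hC ξ).toLp _, (memLp_trialGrad hb hL ξ).toLp _)

theorem trialPair_mem {Ω : Set (E n)} (hb : Bornology.IsBounded Ω) {Φ : E n → E n}
    (hL : LipschitzWith 1 Φ) {C : ℝ} (hC : ∀ x, ‖Φ x‖ ≤ C) (ξ : E n) :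
    trialPair hb hL hC ξ ∈ H1 Ω :=
  IsWeakGrad.congr (isWeakGrad_trial hL ξ) (memLp_trial hb hL hC ξ).coeFn_toLp
    (memLp_trialGrad hb hL ξ).coeFn_toLp

theorem trialPair_add {Ω : Set (E n)} (hb : Bornology.IsBounded Ω) {Φ : E n → E n}
    (hL : LipschitzWith 1 Φ) {C : ℝ} (hC : ∀ x, ‖Φ x‖ ≤ C) (ξ η : E n) :
    trialPair hb hL hC (ξ + η) = trialPair hb hL hC ξ + trialPair hb hL hC η := by
  have e1 : (memLp_trial hb hL hC (ξ + η)).toLp _ =
      (memLp_trial hb hL hC ξ).toLp _ + (memLp_trial hb hL hC η).toLp _ := by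
    rw [← MemLp.toLp_add]
    congr 1
    ext x
    simp [inner_add_right]
  have e2 : (memLp_trialGrad hb hL (ξ + η)).toLp _ =
      (memLp_trialGrad hb hL ξ).toLp _ + (memLp_trialGrad hb hL η).toLp _ := by
    rw [← MemLp.toLp_add]
    congr 1
    ext1 x
    simp [trialGrad]
  exact Prod.ext e1 e2

theorem trialPair_smul {Ω : Set (E n)} (hb : Bornology.IsBounded Ω) {Φ : E n → E n}
    (hL : LipschitzWith 1 Φ) {C : ℝ} (hC : ∀ x, ‖Φ x‖ ≤ C) (c : ℝ) (ξ : E n) :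
    trialPair hb hL hC (c • ξ) = c • trialPair hb hL hC ξ := by
  have e1 : (memLp_trial hb hL hC (c • ξ)).toLp _ = c • (memLp_trial hb hL hC ξ).toLp _ := by
    rw [← MemLp.toLp_const_smul]
    congr 1
    ext x
    simp [inner_smul_right]
  have e2 : (memLp_trialGrad hb hL (c • ξ)).toLp _ =
      c • (memLp_trialGrad hb hL ξ).toLp _ := by
    rw [← MemLp.toLp_const_smul]
    congr 1
    ext1 x
    simp [trialGrad]
  exact Prod.ext e1 e2

/-- The linear map to `H¹`. -/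
noncomputable def trialMap {Ω : Set (E n)} (hb : Bornology.IsBounded Ω) {Φ : E n → E n}
    (hL : LipschitzWith 1 Φ) {C : ℝ} (hC : ∀ x, ‖Φ x‖ ≤ C) : E n →ₗ[ℝ] H1 Ω where
  toFun ξ := ⟨trialPair hb hL hC ξ, trialPair_mem hb hL hC ξ⟩
  map_add' ξ η := Subtype.ext (trialPair_add hb hL hC ξ η)
  map_smul' c ξ := Subtype.ext (trialPair_smul hb hL hC c ξ)

theorem trialMap_fst {Ω : Set (E n)} (hb : Bornology.IsBounded Ω) {Φ : E n → E n}
    (hL : LipschitzWith 1 Φ) {C : ℝ} (hC : ∀ x, ‖Φ x‖ ≤ C) (ξ : E n) :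
    ∀ᵐ x ∂(volume.restrict Ω), ((trialMap hb hL hC ξ).1.1 : E n → ℝ) x = inner ℝ (Φ x) ξ :=
  (memLp_trial hb hL hC ξ).coeFn_toLp

theorem trialMap_snd {Ω : Set (E n)} (hb : Bornology.IsBounded Ω) {Φ : E n → E n}
    (hL : LipschitzWith 1 Φ) {C : ℝ} (hC : ∀ x, ‖Φ x‖ ≤ C) (ξ : E n) :
    ‖(trialMap hb hL hC ξ).1.2‖ ^ 2 = ∫ x in Ω, ‖trialGrad Φ ξ x‖ ^ 2 := by
  have h1 : ‖(memLp_trialGrad hb hL ξ).toLp _‖ ^ 2 = ∫ x in Ω, ‖trialGrad Φ ξ x‖ ^ 2 := by
    rw [← real_inner_self_eq_norm_sq, L2.inner_def]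
    apply integral_congr_ae
    filter_upwards [(memLp_trialGrad hb hL ξ).coeFn_toLp] with x hx
    rw [hx, real_inner_self_eq_norm_sq]
  exact h1

theorem lip_trial (hg : IsProfile n R μ g dg) (p : E n) (q : ℝ) (A : E n) :
    LipschitzWith 1 fun x => Gf g (fold p q x - A) := by
  apply LipschitzWith.of_dist_le_mul
  intro x y
  rw [NNReal.coe_one, one_mul, dist_eq_norm]
  refine (Gf_lip hg _ _).trans ?_
  rw [sub_sub_sub_cancel_right, ← dist_eq_norm]
  have := (fold_lip p q).dist_le_mul x y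
  rwa [NNReal.coe_one, one_mul] at this

/-- The trial functions `⟨G(F(x) - A), ξ⟩` as elements of `H¹(Ω)`, and their Dirichlet energy. -/
theorem exists_trial {Ω : Set (E n)} (hΩ : IsOpen Ω) (hb : Bornology.IsBounded Ω)
    (hg : IsProfile n R μ g dg) (p : E n) (q : ℝ) (A : E n) :
    ∃ v : E n →ₗ[ℝ] H1 Ω,
      (∀ ξ, ∀ᵐ x ∂(volume.restrict Ω),
        ((v ξ).1.1 : E n → ℝ) x = inner ℝ (Gf g (fold p q x - A)) ξ) ∧
      (∀ ξ, ‖(v ξ).1.2‖ ^ 2 = ∫ x in Ω, qa g dg (fold p q x - A) ξ) :=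
  ⟨trialMap hb (lip_trial hg p q A) (fun x => Gf_bound hg (fold p q x - A)),
    fun ξ => trialMap_fst hb (lip_trial hg p q A) (fun x => Gf_bound hg (fold p q x - A)) ξ,
    fun ξ => (trialMap_snd hb (lip_trial hg p q A) (fun x => Gf_bound hg (fold p q x - A)) ξ).trans
      (integral_congr_ae (norm_trialGrad_sq hΩ hg p q A ξ))⟩

end Pool.Agent.NE
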