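import Pool.Agent.NE.Tools

set_option autoImplicit false

open MeasureTheory Set
open scoped ENNReal

namespace Pool.Agent.NE

/-- norm of a combination of an orthogonal family -/
lemma var_norm_sum {ι' Z : Type*} [Fintype ι'] [DecidableEq ι'] [NormedAddCommGroup Z]
    [InnerProductSpace ℝ Z] (f : ι' → Z) (r : ι' → ℝ)
    (h : ∀ i j, inner ℝ (f i) (f j) = if i = j then r i else 0) (c : ι' → ℝ) :
    ‖∑ i, c i • f i‖ ^ 2 = ∑ i, c i ^ 2 * r i := by
  rw [← real_inner_self_eq_norm_sq, sum_inner]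
  refine Finset.sum_congr rfl fun i _ => ?_
  rw [inner_sum]
  simp only [inner_smul_left, inner_smul_right, h, RCLike.conj_to_real]
  rw [Finset.sum_eq_single i]
  · simp; ring
  · intro j _ hj
    simp [Ne.symm hj]
  · simp

/-- the final elementary inequality -/
lemma var_real {n : ℕ} {C δ : ℝ} (hC : 0 ≤ C) (hδ : 0 < δ) (ρ : Fin n → ℝ) (hρ : ∀ i, 0 ≤ ρ i)
    (h : ENNReal.ofReal C ≤ ∑ i, (ENNReal.ofReal (ρ i))⁻¹) :
    ENNReal.ofReal (C / ((1 + δ) * (1 + δ * C))) ≤
      ∑ i, (ENNReal.ofReal ((1 + δ) * (ρ i + δ)))⁻¹ := by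
  have hpos : ∀ i, 0 < (1 + δ) * (ρ i + δ) := fun i => by
    have := hρ i; positivity
  by_cases hex : ∃ i, ρ i * C ≤ 1
  · obtain ⟨i, hi⟩ := hex
    refine le_trans ?_ (Finset.single_le_sum (f := fun i => (ENNReal.ofReal ((1 + δ) * (ρ i + δ)))⁻¹)
      (fun _ _ => zero_le) (Finset.mem_univ i))
    rw [← ENNReal.ofReal_inv_of_pos (hpos i)]
    apply ENNReal.ofReal_le_ofReal
    have h1 : 0 < (1 + δ) * (1 + δ * C) := by positivity
    rw [inv_eq_one_div, div_le_div_iff₀ h1 (hpos i)]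
    have : 0 < 1 + δ := by positivity
    nlinarith
  · push Not at hex
    rcases Nat.eq_zero_or_pos n with hn | hn
    · subst hn
      simp at h ⊢
      have hC0 : C = 0 := le_antisymm h hC
      simp [hC0]
    have hCpos : 0 < C := by
      rcases hC.lt_or_eq with h' | h'
      · exact h'
      · have := hex ⟨0, hn⟩
        rw [← h'] at this
        simp at this
        linarith
    have hρpos : ∀ i, 0 < ρ i := fun i => by
      have h1 := hex i
      rcases (hρ i).lt_or_eq with h' | h'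
      · exact h'
      · rw [← h'] at h1; simp at h1; linarith
    have hsum : C ≤ ∑ i, (ρ i)⁻¹ := by
      have e : ∑ i, (ENNReal.ofReal (ρ i))⁻¹ = ENNReal.ofReal (∑ i, (ρ i)⁻¹) := by
        rw [ENNReal.ofReal_sum_of_nonneg (fun i _ => inv_nonneg.2 (hρ i))]
        exact Finset.sum_congr rfl fun i _ => (ENNReal.ofReal_inv_of_pos (hρpos i)).symm
      rw [e] at h
      exact (ENNReal.ofReal_le_ofReal_iff
        (Finset.sum_nonneg fun i _ => inv_nonneg.2 (hρ i))).1 h
    have e2 : ∑ i, (ENNReal.ofReal ((1 + δ) * (ρ i + δ)))⁻¹ =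
        ENNReal.ofReal (∑ i, ((1 + δ) * (ρ i + δ))⁻¹) := by
      rw [ENNReal.ofReal_sum_of_nonneg (fun i _ => inv_nonneg.2 (hpos i).le)]
      exact Finset.sum_congr rfl fun i _ => (ENNReal.ofReal_inv_of_pos (hpos i)).symm
    rw [e2]
    apply ENNReal.ofReal_le_ofReal
    have h1 : 0 < (1 + δ) * (1 + δ * C) := by positivity
    calc C / ((1 + δ) * (1 + δ * C)) ≤ (∑ i, (ρ i)⁻¹) / ((1 + δ) * (1 + δ * C)) :=
          div_le_div_of_nonneg_right hsum h1.le
      _ = ∑ i, (ρ i)⁻¹ / ((1 + δ) * (1 + δ * C)) := by rw [Finset.sum_div]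
      _ ≤ ∑ i, ((1 + δ) * (ρ i + δ))⁻¹ := by
          refine Finset.sum_le_sum fun i _ => ?_
          rw [← one_div, ← one_div, div_div, div_le_div_iff₀ (mul_pos (hρpos i) h1) (hpos i)]
          have h2 := hex i
          have h3 := hρpos i
          have : 0 < 1 + δ := by positivity
          nlinarith [mul_pos hδ this, mul_nonneg (mul_pos hδ this).le (by linarith : (0:ℝ) ≤ ρ i * C - 1)]

/-- The variational lemma: no eigenfunctions are needed, only trial spaces orthogonal to the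
constant and to an arbitrary `u`. -/
theorem var_main {n : ℕ} (hn : 1 ≤ n) {H X Y : Type*} [AddCommGroup H] [Module ℝ H]
    [NormedAddCommGroup X] [InnerProductSpace ℝ X] [NormedAddCommGroup Y] [InnerProductSpace ℝ Y]
    (ι : H →ₗ[ℝ] X) (D : H →ₗ[ℝ] Y) (e : H) (he : ι e ≠ 0) (hDe : D e = 0) {C : ℝ} (hC : 0 ≤ C)
    (hT : ∀ u : H, inner ℝ (ι u) (ι e) = 0 → ∃ (ξ : Fin n → H) (ρ : Fin n → ℝ),
      (∀ i, 0 ≤ ρ i) ∧
      (∀ i j, inner ℝ (ι (ξ i)) (ι (ξ j)) = if i = j then (1 : ℝ) else 0) ∧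
      (∀ i j, inner ℝ (D (ξ i)) (D (ξ j)) = if i = j then ρ i else 0) ∧
      (∀ i, inner ℝ (ι (ξ i)) (ι e) = 0) ∧ (∀ i, inner ℝ (ι (ξ i)) (ι u) = 0) ∧
      ENNReal.ofReal C ≤ ∑ i, (ENNReal.ofReal (ρ i))⁻¹) :
    ENNReal.ofReal C ≤ ∑ i ∈ Finset.Icc 2 (n + 1), (lam ι D i)⁻¹ := by
  classical
  -- the minimal value `μ₁` on the orthogonal complement of `e`
  set S : Set ℝ := {x | ∃ u : H, ‖ι u‖ = 1 ∧ inner ℝ (ι u) (ι e) = 0 ∧ x = ‖D u‖ ^ 2} with hS
  have hSne : S.Nonempty := by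
    obtain ⟨ξ, ρ, -, h1, -, h3, -, -⟩ := hT 0 (by simp)
    refine ⟨‖D (ξ ⟨0, hn⟩)‖ ^ 2, ξ ⟨0, hn⟩, ?_, h3 _, rfl⟩
    have := h1 ⟨0, hn⟩ ⟨0, hn⟩
    rw [real_inner_self_eq_norm_sq] at this
    simp at this
    rcases this with h | h
    · exact h
    · have := norm_nonneg (ι (ξ ⟨0, hn⟩)); linarith
  have hSbd : BddBelow S := ⟨0, by rintro x ⟨u, -, -, rfl⟩; positivity⟩
  set μ1 : ℝ := sInf S with hμ1
  have hμ1nn : 0 ≤ μ1 := le_csInf hSne (by rintro x ⟨u, -, -, rfl⟩; positivity)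
  have claimA : ∀ v : H, inner ℝ (ι v) (ι e) = 0 → μ1 * ‖ι v‖ ^ 2 ≤ ‖D v‖ ^ 2 := by
    intro v hv
    by_cases h0 : ‖ι v‖ = 0
    · rw [h0]; simp
    · have hpos : 0 < ‖ι v‖ := lt_of_le_of_ne (norm_nonneg _) (Ne.symm h0)
      have hm : ‖D (‖ι v‖⁻¹ • v)‖ ^ 2 ∈ S := by
        refine ⟨‖ι v‖⁻¹ • v, ?_, ?_, rfl⟩
        · rw [map_smul, norm_smul, norm_inv, norm_norm, inv_mul_cancel₀ h0]
        · rw [map_smul, inner_smul_left, hv, mul_zero]
      have hle := csInf_le hSbd hm
      rw [map_smul, norm_smul, norm_inv, norm_norm, mul_pow, inv_pow] at hle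
      have h2 : 0 < ‖ι v‖ ^ 2 := by positivity
      calc μ1 * ‖ι v‖ ^ 2 ≤ ((‖ι v‖ ^ 2)⁻¹ * ‖D v‖ ^ 2) * ‖ι v‖ ^ 2 :=
            mul_le_mul_of_nonneg_right hle h2.le
        _ = ‖D v‖ ^ 2 := by field_simp
  -- the estimate for fixed `δ`
  have main : ∀ δ : ℝ, 0 < δ → ENNReal.ofReal (C / ((1 + δ) * (1 + δ * C))) ≤
      ∑ i ∈ Finset.Icc 2 (n + 1), (lam ι D i)⁻¹ := by
    intro δ hδ
    obtain ⟨x, ⟨u, hu1, hue, rfl⟩, hx⟩ := exists_lt_of_csInf_lt hSne
      (show sInf S < μ1 + δ ^ 2 by rw [← hμ1]; have := pow_pos hδ 2; linarith)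
    obtain ⟨ξ, ρ, hρ, h1, h2, h3, h4, h5⟩ := hT u hue
    refine le_trans (var_real hC hδ ρ hρ h5) ?_
    -- sort
    set σ := Tuple.sort ρ with hσ
    have hmono : Monotone (ρ ∘ σ) := Tuple.monotone_sort ρ
    rw [← Equiv.sum_comp σ (fun i => (ENNReal.ofReal ((1 + δ) * (ρ i + δ)))⁻¹)]
    have hre : ∑ i ∈ Finset.Icc 2 (n + 1), (lam ι D i)⁻¹ =
        ∑ k : Fin n, (lam ι D (k + 2))⁻¹ := by
      rw [Fin.sum_univ_eq_sum_range (fun k => (lam ι D (k + 2))⁻¹) n]
      rw [← Finset.sum_image (s := Finset.range n) (g := fun k => k + 2)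
        (f := fun k => (lam ι D k)⁻¹) (fun a _ b _ h => by simpa using h)]
      apply Finset.sum_congr _ (fun _ _ => rfl)
      ext k
      simp only [Finset.mem_Icc, Finset.mem_image, Finset.mem_range]
      constructor
      · rintro ⟨ha, hb⟩
        exact ⟨k - 2, by omega, by omega⟩
      · rintro ⟨a, ha, rfl⟩
        omega
    rw [hre]
    refine Finset.sum_le_sum fun k _ => ?_
    rw [ENNReal.inv_le_inv]
    -- near minimiser
    have hnear : ∀ w : H, inner ℝ (ι w) (ι e) = 0 → inner ℝ (ι w) (ι u) = 0 →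
        |inner ℝ (D u) (D w)| ≤ δ * ‖D w‖ := by
      intro w hwe hwu
      have hq : ∀ t : ℝ, 0 ≤ (‖D w‖ ^ 2 - μ1 * ‖ι w‖ ^ 2) * (t * t) +
          (2 * inner ℝ (D u) (D w)) * t + (‖D u‖ ^ 2 - μ1) := by
        intro t
        have h := claimA (u + t • w) (by
          rw [map_add, map_smul, inner_add_left, inner_smul_left, hue, hwe]; simp)
        have e1 : ‖ι (u + t • w)‖ ^ 2 = 1 + t ^ 2 * ‖ι w‖ ^ 2 := by
          rw [map_add, map_smul, norm_add_sq_real, hu1, norm_smul, inner_smul_right,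
            real_inner_comm, hwu, mul_pow, Real.norm_eq_abs, sq_abs]
          ring
        have e2 : ‖D (u + t • w)‖ ^ 2 = ‖D u‖ ^ 2 + 2 * (t * inner ℝ (D u) (D w)) +
            t ^ 2 * ‖D w‖ ^ 2 := by
          rw [map_add, map_smul, norm_add_sq_real, norm_smul, inner_smul_right, mul_pow,
            Real.norm_eq_abs, sq_abs]
        rw [e1, e2] at h
        nlinarith
      have hd := discrim_le_zero hq
      unfold discrim at hd
      have hA := claimA w hwe
      have hB := claimA u hue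
      rw [hu1] at hB
      have hw0 : 0 ≤ μ1 * ‖ι w‖ ^ 2 := by positivity
      have h6 : (inner ℝ (D u) (D w)) ^ 2 ≤ (δ * ‖D w‖) ^ 2 := by
        have : (‖D w‖ ^ 2 - μ1 * ‖ι w‖ ^ 2) * (‖D u‖ ^ 2 - μ1) ≤ ‖D w‖ ^ 2 * δ ^ 2 := by
          apply mul_le_mul
          · linarith
          · linarith
          · simp at hB; linarith
          · positivity
        nlinarith
      exact abs_le_of_sq_le_sq h6 (by positivity)
    -- the trial space
    let J := {i : Fin n // i ≤ k}
    let v : Option (Option J) → H := fun a => match a with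
      | none => e
      | some none => u
      | some (some j) => ξ (σ j.1)
    have hcard : Fintype.card (Option (Option J)) = (k : ℕ) + 2 + 1 := by
      rw [Fintype.card_option, Fintype.card_option]
      have : Fintype.card J = k + 1 := by
        rw [Fintype.card_subtype]
        have : (Finset.univ.filter fun i : Fin n => i ≤ k) = Finset.Iic k := by
          ext; simp
        rw [this, Fin.card_Iic]
      rw [this]
    -- norms of a combination
    have hexp : ∀ c : Option (Option J) → ℝ, ∑ a, c a • v a =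
        c none • e + (c (some none) • u + ∑ j : J, c (some (some j)) • ξ (σ j.1)) := by
      intro c
      rw [Fintype.sum_option, Fintype.sum_option]
    have hw : ∀ c : J → ℝ, inner ℝ (ι (∑ j : J, c j • ξ (σ j.1))) (ι e) = 0 ∧
        inner ℝ (ι (∑ j : J, c j • ξ (σ j.1))) (ι u) = 0 ∧
        ‖ι (∑ j : J, c j • ξ (σ j.1))‖ ^ 2 = ∑ j : J, c j ^ 2 ∧
        ‖D (∑ j : J, c j • ξ (σ j.1))‖ ^ 2 = ∑ j : J, c j ^ 2 * ρ (σ j.1) := by
      intro c
      refine ⟨?_, ?_, ?_, ?_⟩
      · rw [map_sum, sum_inner]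
        refine Finset.sum_eq_zero fun j _ => ?_
        rw [map_smul, inner_smul_left, h3, mul_zero]
      · rw [map_sum, sum_inner]
        refine Finset.sum_eq_zero fun j _ => ?_
        rw [map_smul, inner_smul_left, h4, mul_zero]
      · rw [map_sum]
        simp only [map_smul]
        rw [var_norm_sum (fun j : J => ι (ξ (σ j.1))) (fun _ => 1) ?_ c]
        · simp
        · intro i j
          rw [h1]
          by_cases hij : i = j
          · subst hij; simp
          · have : σ i.1 ≠ σ j.1 := fun h => hij (Subtype.ext (σ.injective h))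
            rw [if_neg this, if_neg hij]
      · rw [map_sum]
        simp only [map_smul]
        rw [var_norm_sum (fun j : J => D (ξ (σ j.1))) (fun j => ρ (σ j.1)) ?_ c]
        intro i j
        rw [h2]
        by_cases hij : i = j
        · subst hij; simp
        · have : σ i.1 ≠ σ j.1 := fun h => hij (Subtype.ext (σ.injective h))
          rw [if_neg this, if_neg hij]
    have hιn : ∀ (a b : ℝ) (c : J → ℝ),
        ‖ι (a • e + (b • u + ∑ j : J, c j • ξ (σ j.1)))‖ ^ 2 =
          a ^ 2 * ‖ι e‖ ^ 2 + b ^ 2 + ∑ j : J, c j ^ 2 := by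
      intro a b c
      obtain ⟨w1, w2, w3, w4⟩ := hw c
      set w := ∑ j : J, c j • ξ (σ j.1) with hwdef
      rw [map_add, map_add, map_smul, map_smul, norm_add_sq_real, norm_add_sq_real, w3,
        inner_add_right, inner_smul_left, inner_smul_right, inner_smul_left, inner_smul_left,
        real_inner_comm, hue, real_inner_comm, w1, real_inner_comm, w2, norm_smul, norm_smul, hu1,
        mul_pow, mul_pow, Real.norm_eq_abs, sq_abs, Real.norm_eq_abs, sq_abs]
      simp
      ring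
    have hli : LinearIndependent ℝ v := by
      rw [Fintype.linearIndependent_iff]
      intro c hc
      rw [hexp] at hc
      have h7 := hιn (c none) (c (some none)) (fun j => c (some (some j)))
      rw [hc] at h7
      simp only [map_zero, norm_zero, ne_eq, OfNat.ofNat_ne_zero, not_false_eq_true, zero_pow] at h7
      have h8 : 0 < ‖ι e‖ ^ 2 := by positivity
      have h9 : 0 ≤ ∑ j : J, c (some (some j)) ^ 2 := Finset.sum_nonneg fun _ _ => sq_nonneg _
      have h10 : 0 ≤ c none ^ 2 * ‖ι e‖ ^ 2 := by positivity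
      have h11 : c none ^ 2 * ‖ι e‖ ^ 2 = 0 := by nlinarith [sq_nonneg (c (some none))]
      have h12 : c (some none) ^ 2 = 0 := by nlinarith [sq_nonneg (c (some none))]
      have h13 : ∑ j : J, c (some (some j)) ^ 2 = 0 := by nlinarith [sq_nonneg (c (some none))]
      rw [Finset.sum_eq_zero_iff_of_nonneg (fun _ _ => sq_nonneg _)] at h13
      intro a
      match a with
      | none =>
        rcases mul_eq_zero.1 h11 with h | h
        · exact pow_eq_zero_iff (two_ne_zero) |>.1 h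
        · exact absurd h h8.ne'
      | some none => exact pow_eq_zero_iff (two_ne_zero) |>.1 h12
      | some (some j) => exact pow_eq_zero_iff (two_ne_zero) |>.1 (h13 j (Finset.mem_univ _))
    -- the bound
    unfold lam
    refine iInf₂_le_of_le (Submodule.span ℝ (Set.range v)) ?_ ?_
    · rw [finrank_span_eq_card hli, hcard]
    refine iSup_le fun p => iSup_le fun hp => iSup_le fun _ => ?_
    rw [Submodule.mem_span_range_iff_exists_fun] at hp
    obtain ⟨c, rfl⟩ := hp
    rw [hexp]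
    apply ENNReal.ofReal_le_ofReal
    set a := c none with ha
    set b := c (some none) with hb
    set c' : J → ℝ := fun j => c (some (some j)) with hc'
    obtain ⟨w1, w2, w3, w4⟩ := hw c'
    have h20 := hιn a b c'
    change ‖D (a • e + (b • u + ∑ j : J, c' j • ξ (σ j.1)))‖ ^ 2 /
      ‖ι (a • e + (b • u + ∑ j : J, c' j • ξ (σ j.1)))‖ ^ 2 ≤ (1 + δ) * (ρ (σ k) + δ)
    rw [h20]
    set w := ∑ j : J, c' j • ξ (σ j.1) with hwdef
    have hρk : 0 ≤ ρ (σ k) := hρ _
    have hμρ : μ1 ≤ ρ (σ k) := by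
      have := claimA (ξ (σ k)) (h3 _)
      rw [← real_inner_self_eq_norm_sq, ← real_inner_self_eq_norm_sq, h1, h2] at this
      simpa using this
    have hDn : ‖D (a • e + (b • u + w))‖ ^ 2 = b ^ 2 * ‖D u‖ ^ 2 +
        2 * (b * inner ℝ (D u) (D w)) + ‖D w‖ ^ 2 := by
      rw [map_add, map_add, map_smul, map_smul, hDe, smul_zero, zero_add, norm_add_sq_real,
        inner_smul_left, norm_smul, mul_pow, Real.norm_eq_abs, sq_abs]
      simp
    have hDw : ‖D w‖ ^ 2 ≤ ρ (σ k) * ∑ j : J, c' j ^ 2 := by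
      rw [w4, Finset.mul_sum]
      refine Finset.sum_le_sum fun j _ => ?_
      have : ρ (σ j.1) ≤ ρ (σ k) := hmono j.2
      nlinarith [sq_nonneg (c' j)]
    have hcross : 2 * (b * inner ℝ (D u) (D w)) ≤ δ * (b ^ 2 + ‖D w‖ ^ 2) := by
      have h30 := hnear w w1 w2
      have h31 : b * inner ℝ (D u) (D w) ≤ |b| * (δ * ‖D w‖) := by
        calc b * inner ℝ (D u) (D w) ≤ |b * inner ℝ (D u) (D w)| := le_abs_self _
          _ = |b| * |inner ℝ (D u) (D w)| := abs_mul _ _
          _ ≤ |b| * (δ * ‖D w‖) := mul_le_mul_of_nonneg_left h30 (abs_nonneg _)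
      have h32 : 2 * (|b| * ‖D w‖) ≤ b ^ 2 + ‖D w‖ ^ 2 := by
        have := two_mul_le_add_sq (|b|) ‖D w‖
        rw [sq_abs] at this
        linarith
      nlinarith
    have hsumnn : 0 ≤ ∑ j : J, c' j ^ 2 := Finset.sum_nonneg fun _ _ => sq_nonneg _
    have hnum : ‖D (a • e + (b • u + w))‖ ^ 2 ≤
        (1 + δ) * (ρ (σ k) + δ) * (a ^ 2 * ‖ι e‖ ^ 2 + b ^ 2 + ∑ j : J, c' j ^ 2) := by
      rw [hDn]
      have h40 : b ^ 2 * ‖D u‖ ^ 2 ≤ b ^ 2 * (ρ (σ k) + δ ^ 2) := by
        apply mul_le_mul_of_nonneg_left _ (sq_nonneg b)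
        linarith
      have h41 : 0 ≤ a ^ 2 * ‖ι e‖ ^ 2 := by positivity
      have h42 : 0 ≤ (1 + δ) * (ρ (σ k) + δ) := by positivity
      have h43 : 0 ≤ (1 + δ) * (ρ (σ k) + δ) * (a ^ 2 * ‖ι e‖ ^ 2) := by positivity
      have h44 : 0 ≤ δ * ρ (σ k) * b ^ 2 := by positivity
      have h45 : 0 ≤ (1 + δ) * δ * ∑ j : J, c' j ^ 2 := by positivity
      have h46 : (1 + δ) * ‖D w‖ ^ 2 ≤ (1 + δ) * (ρ (σ k) * ∑ j : J, c' j ^ 2) :=
        mul_le_mul_of_nonneg_left hDw (by positivity)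
      nlinarith
    apply div_le_of_le_mul₀ _ _ hnum
    · positivity
    · positivity
  -- let `δ → 0`
  have hlim : Filter.Tendsto (fun δ : ℝ => ENNReal.ofReal (C / ((1 + δ) * (1 + δ * C))))
      (nhdsWithin 0 (Ioi 0)) (nhds (ENNReal.ofReal C)) := by
    have h50 : ContinuousAt (fun δ : ℝ => ENNReal.ofReal (C / ((1 + δ) * (1 + δ * C)))) 0 := by
      apply ENNReal.continuous_ofReal.continuousAt.comp
      apply ContinuousAt.div continuousAt_const
      · fun_prop
      · simp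
    have := h50.tendsto
    simp only [add_zero, zero_mul, one_mul, div_one] at this
    exact this.mono_left nhdsWithin_le_nhds
  refine le_of_tendsto hlim ?_
  filter_upwards [self_mem_nhdsWithin] with δ hδ
  exact main δ hδ

end Pool.Agent.NE
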