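import Pool.Agent.NE.Mat
import Pool.Agent.NE.Var
import Pool.Agent.NE.Prof
import Pool.Agent.NE.BallH1
import Pool.Agent.NE.Trial
import Pool.Agent.NE.Comp
import Pool.Agent.NE.Centre

set_option autoImplicit false

open MeasureTheory Set
open scoped ENNReal ContDiff

namespace Pool.Agent.NE

/-- First projection of `H¹(Ω)`. -/
noncomputable def iot {n : ℕ} (Ω : Set (E n)) : H1 Ω →ₗ[ℝ] Lp ℝ 2 (volume.restrict Ω) :=
  (LinearMap.fst ℝ _ _).comp (H1 Ω).subtype

/-- Second projection of `H¹(Ω)`. -/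
noncomputable def grd {n : ℕ} (Ω : Set (E n)) : H1 Ω →ₗ[ℝ] Lp (E n) 2 (volume.restrict Ω) :=
  (LinearMap.snd ℝ _ _).comp (H1 Ω).subtype

lemma neumann_eq {n : ℕ} (Ω : Set (E n)) (k : ℕ) : neumann Ω k = lam (iot Ω) (grd Ω) k := rfl

lemma fold_cont' {n : ℕ} (p : E n) (q : ℝ) : Continuous (fold p q) := (fold_lip p q).continuous

lemma Gf_cont {n : ℕ} {R μ : ℝ} {g dg : ℝ → ℝ} (hg : IsProfile n R μ g dg) :
    Continuous (Gf g : E n → E n) := by
  have : LipschitzWith 1 (Gf g : E n → E n) := by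
    apply LipschitzWith.of_dist_le_mul
    intro x y
    rw [dist_eq_norm, dist_eq_norm]
    simpa using Gf_lip hg x y
  exact this.continuous

lemma qa_meas {n : ℕ} {R μ : ℝ} {g dg : ℝ → ℝ} (hg : IsProfile n R μ g dg) (ξ : E n) :
    Measurable (fun y : E n => qa g dg y ξ) := by
  have h1 : Continuous (fun y : E n => g ‖y‖) :=
    hg.g_cont.comp_continuous continuous_norm (fun y => norm_nonneg y)
  have h2 : Continuous (fun y : E n => dg ‖y‖) :=
    hg.dg_cont.comp_continuous continuous_norm (fun y => norm_nonneg y)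
  have h3 : Measurable (fun y : E n => inner ℝ y ξ / ‖y‖) :=
    (continuous_id.inner continuous_const).measurable.div continuous_norm.measurable
  unfold qa
  exact ((h2.measurable.pow_const 2).mul (h3.pow_const 2)).add
    (((h1.measurable.div continuous_norm.measurable).pow_const 2).mul
      (measurable_const.sub (h3.pow_const 2)))

lemma key {n : ℕ} (hn : 1 ≤ n) (Ω : Set (E n)) (hΩ : IsOpen Ω) (hne : Ω.Nonempty)
    (hb : Bornology.IsBounded Ω) {R μ : ℝ} {g dg : ℝ → ℝ} (hg : IsProfile n R μ g dg)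
    (hR : 2 * volume (Metric.ball (0 : E n) R) = volume Ω) :
    ENNReal.ofReal (n * μ⁻¹) ≤ ∑ i ∈ Finset.Icc 2 (n + 1), (neumann Ω i)⁻¹ := by
  have hvt : volume Ω ≠ ⊤ := hb.measure_lt_top.ne
  have hv0 : volume Ω ≠ 0 := (hΩ.measure_pos volume hne).ne'
  have : IsFiniteMeasure (volume.restrict Ω) := ⟨by
    rw [Measure.restrict_apply_univ]; exact hb.measure_lt_top⟩
  obtain ⟨e, he2, he1⟩ := exists_one (n := n) hvt
  have he : iot Ω e ≠ 0 := by
    intro h0
    have h1 : ((e.1.1 : Lp ℝ 2 (volume.restrict Ω)) : E n → ℝ) =ᵐ[volume.restrict Ω] 0 := by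
      have : (e.1.1 : Lp ℝ 2 (volume.restrict Ω)) = 0 := h0
      rw [this]
      exact Lp.coeFn_zero _ _ _
    have h2 : ∀ᵐ x ∂(volume.restrict Ω), False := by
      filter_upwards [h1, he1] with x hx hx'
      rw [hx] at hx'
      simp at hx'
    rw [Filter.eventually_false_iff_eq_bot, ae_eq_bot, Measure.restrict_eq_zero] at h2
    exact hv0 h2
  have hmain := var_main hn (iot Ω) (grd Ω) e he he2 (C := n * μ⁻¹)
    (by have := hg.μ_pos; positivity) ?_
  · simpa [neumann_eq] using hmain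
  intro u _
  have hui : IntegrableOn (u.1.1 : E n → ℝ) Ω := (Lp.memLp u.1.1).integrable (by norm_num)
  obtain ⟨p, q, A, hA, hu⟩ := exists_centre hΩ.measurableSet hb hv0 hg _ hui
  obtain ⟨v, hv1, hv2⟩ := exists_trial hΩ hb hg p q A
  have hTm : Measurable (fun x : E n => fold p q x - A) :=
    ((fold_cont' p q).sub continuous_const).measurable
  set ν : Measure (E n) := (volume.restrict Ω).map (fun x => fold p q x - A) with hν
  have hνu : ν univ = 2 * volume (Metric.ball (0 : E n) R) := by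
    rw [hν, Measure.map_apply hTm MeasurableSet.univ, preimage_univ, Measure.restrict_apply_univ,
      hR]
  obtain ⟨b0, N, hb0, hN, htr, hcA, hcB, hcP⟩ :=
    comp hn hg ν (map_fold_le hΩ.measurableSet p q A) hνu
  have hGc := Gf_cont (n := n) hg
  have hGm : ∀ ξ : E n, Measurable (fun y : E n => inner ℝ (Gf g y) ξ) := fun ξ =>
    (hGc.inner continuous_const).measurable
  have eA : ∀ ξ, ‖grd Ω (v ξ)‖ ^ 2 = ∫ y, qa g dg y ξ ∂ν := by
    intro ξ
    have : ‖grd Ω (v ξ)‖ ^ 2 = ‖(v ξ).1.2‖ ^ 2 := rfl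
    rw [this, hv2 ξ, hν, integral_map hTm.aemeasurable (qa_meas hg ξ).aestronglyMeasurable]
  have eB' : ∀ (ξ : E n) (w : Lp ℝ 2 (volume.restrict Ω)),
      inner ℝ (iot Ω (v ξ)) w = ∫ x in Ω, inner ℝ (Gf g (fold p q x - A)) ξ * w x := by
    intro ξ w
    rw [L2.inner_def]
    apply integral_congr_ae
    filter_upwards [hv1 ξ] with x hx
    have : ((iot Ω (v ξ) : Lp ℝ 2 (volume.restrict Ω)) : E n → ℝ) x =
      inner ℝ (Gf g (fold p q x - A)) ξ := hx
    rw [this]
    simp [mul_comm]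
  have eB : ∀ ξ, ‖iot Ω (v ξ)‖ ^ 2 = ∫ y, (inner ℝ (Gf g y) ξ) ^ 2 ∂ν := by
    intro ξ
    rw [← real_inner_self_eq_norm_sq, eB', hν,
      integral_map hTm.aemeasurable ((hGm ξ).pow_const 2).aestronglyMeasurable]
    apply integral_congr_ae
    filter_upwards [hv1 ξ] with x hx
    have : ((iot Ω (v ξ) : Lp ℝ 2 (volume.restrict Ω)) : E n → ℝ) x =
      inner ℝ (Gf g (fold p q x - A)) ξ := hx
    rw [this]
    ring
  have hinj : Function.Injective ((iot Ω).comp v) := by
    rw [injective_iff_map_eq_zero]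
    intro ξ hξ
    by_contra hne
    have h1 := hcP ξ hne
    rw [← eB ξ] at h1
    have h2 : iot Ω (v ξ) = 0 := hξ
    rw [h2] at h1
    simp at h1
  obtain ⟨ξ, ρ, hρ, h3, h4, h5⟩ := pencil ((iot Ω).comp v) ((grd Ω).comp v) hinj N hN htr
    (a0 := μ * b0) (b0 := b0) (w := (g R / R) ^ 2) (k := g R ^ 2)
    (mul_pos hg.μ_pos hb0) hb0 (sq_nonneg _) (sq_nonneg _)
    (fun ξ => by rw [LinearMap.comp_apply, eA]; exact hcA ξ)
    (fun ξ => by rw [LinearMap.comp_apply, eB]; exact hcB ξ)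
  have hbd : ∀ x ∈ Ω, ‖Gf g (fold p q x - A)‖ ≤ g R := fun x _ => Gf_bound hg _
  have hGF : Continuous (fun x : E n => Gf g (fold p q x - A)) :=
    hGc.comp ((fold_cont' p q).sub continuous_const)
  have hI1 : Integrable (fun x => Gf g (fold p q x - A)) (volume.restrict Ω) := by
    apply Integrable.of_bound hGF.aestronglyMeasurable (g R)
    exact Filter.Eventually.of_forall (fun x => Gf_bound hg _)
  have hI2 : Integrable (fun x => (u.1.1 : E n → ℝ) x • Gf g (fold p q x - A))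
      (volume.restrict Ω) := by
    exact Integrable.smul_bdd hui (g R) hGF.aestronglyMeasurable
      (Filter.Eventually.of_forall (fun x => Gf_bound hg _))
  refine ⟨fun i => v (ξ i), ρ, hρ, h3, h4, fun i => ?_, fun i => ?_, ?_⟩
  · rw [eB']
    have : ∫ x in Ω, inner ℝ (Gf g (fold p q x - A)) (ξ i) * (iot Ω e : E n → ℝ) x =
        ∫ x in Ω, inner ℝ (Gf g (fold p q x - A)) (ξ i) := by
      apply integral_congr_ae
      filter_upwards [he1] with x hx
      have : ((iot Ω e : Lp ℝ 2 (volume.restrict Ω)) : E n → ℝ) x = 1 := hx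
      rw [this, mul_one]
    rw [this]
    have h6 := integral_inner (𝕜 := ℝ) hI1 (ξ i)
    simp_rw [real_inner_comm] at h6 ⊢
    rw [h6, hA, inner_zero_right]
  · rw [eB']
    have : ∫ x in Ω, inner ℝ (Gf g (fold p q x - A)) (ξ i) * (iot Ω u : E n → ℝ) x =
        ∫ x in Ω, inner ℝ (ξ i) ((u.1.1 : E n → ℝ) x • Gf g (fold p q x - A)) := by
      apply integral_congr_ae
      filter_upwards with x
      rw [inner_smul_right, real_inner_comm, mul_comm]
      rfl
    rw [this, integral_inner hI2, hu, inner_zero_right]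
  · have : (n : ℝ) * (b0 / (μ * b0)) = n * μ⁻¹ := by
      have := hg.μ_pos.ne'
      have := hb0.ne'
      field_simp
    rw [this] at h5
    exact h5

theorem main {n : ℕ} (hn : 1 ≤ n) (Ω : Set (E n)) (hΩ : IsOpen Ω) (hne : Ω.Nonempty)
    (hb : Bornology.IsBounded Ω) (c : E n) (R : ℝ)
    (hR : volume (Metric.ball c R) = volume Ω / 2) :
    (n : ℝ≥0∞) * (neumann (Metric.ball c R) 1)⁻¹ ≤
      ∑ i ∈ Finset.Icc 2 (n + 1), (neumann Ω i)⁻¹ := by
  have hv0 : volume Ω ≠ 0 := (hΩ.measure_pos volume hne).ne'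
  have hRpos : 0 < R := by
    by_contra h
    rw [Metric.ball_eq_empty.mpr (not_lt.mp h), measure_empty] at hR
    have := hR.symm
    rw [ENNReal.div_eq_zero_iff] at this
    rcases this with h | h
    · exact hv0 h
    · simp at h
  obtain ⟨μ, g, dg, hg⟩ := exists_profile hn hRpos
  have hball := ball_h1 hn hg c
  have hR' : 2 * volume (Metric.ball (0 : E n) R) = volume Ω := by
    rw [← Measure.addHaar_ball_center volume c R, hR]
    exact ENNReal.mul_div_cancel (by norm_num) (by norm_num)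
  refine le_trans ?_ (key hn Ω hΩ hne hb hg hR')
  have h1 : (n : ℝ≥0∞) * (neumann (Metric.ball c R) 1)⁻¹ ≤ n * (ENNReal.ofReal μ)⁻¹ := by
    gcongr
  refine h1.trans (le_of_eq ?_)
  rw [ENNReal.ofReal_mul (Nat.cast_nonneg n), ENNReal.ofReal_natCast,
    ENNReal.ofReal_inv_of_pos hg.μ_pos]

end Pool.Agent.NE
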