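import Pool.Agent.NE.Tools

set_option autoImplicit false

open MeasureTheory Set
open scoped ENNReal

namespace Pool.Agent.NE

/-- Simultaneous diagonalisation of the forms `‖S ξ‖²` (positive definite) and `‖P ξ‖²`. -/
theorem mat_diag {n : ℕ} {X Y : Type*} [NormedAddCommGroup X] [InnerProductSpace ℝ X]
    [NormedAddCommGroup Y] [InnerProductSpace ℝ Y] (S : E n →ₗ[ℝ] X) (P : E n →ₗ[ℝ] Y)
    (hS : Function.Injective S) :
    ∃ (ξ : Fin n → E n) (ρ : Fin n → ℝ), (∀ i, 0 ≤ ρ i) ∧
      (∀ i j, inner ℝ (S (ξ i)) (S (ξ j)) = if i = j then 1 else 0) ∧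
      (∀ i j, inner ℝ (P (ξ i)) (P (ξ j)) = if i = j then ρ i else 0) ∧
      (∀ η : E n, η = ∑ i, (inner ℝ (S (ξ i)) (S η)) • ξ i) := by
  classical
  let e : E n ≃ₗ[ℝ] LinearMap.range S := LinearEquiv.ofInjective S hS
  let Q : LinearMap.range S →ₗ[ℝ] Y := P ∘ₗ e.symm.toLinearMap
  let Q' : LinearMap.range S →ₗ[ℝ] LinearMap.range Q := Q.rangeRestrict
  let T : LinearMap.range S →ₗ[ℝ] LinearMap.range S := LinearMap.adjoint Q' ∘ₗ Q'
  have hTi : ∀ x y, inner ℝ (T x) y = inner ℝ (Q x) (Q y) := by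
    intro x y
    change inner ℝ (LinearMap.adjoint Q' (Q' x)) y = _
    rw [LinearMap.adjoint_inner_left]
    rfl
  have hT : T.IsSymmetric := by
    intro x y
    rw [hTi, real_inner_comm, ← hTi, real_inner_comm]
  have hfr : Module.finrank ℝ (LinearMap.range S) = n := by
    rw [LinearMap.finrank_range_of_inj hS]; simp
  let b := hT.eigenvectorBasis hfr
  have hb : ∀ i, T (b i) = (hT.eigenvalues hfr i) • b i := fun i => by
    refine (hT.apply_eigenvectorBasis hfr i).trans ?_
    rfl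
  have hSe : ∀ x : LinearMap.range S, S (e.symm x) = (x : X) := by
    intro x
    have : e (e.symm x) = x := e.apply_symm_apply x
    conv_rhs => rw [← this]
    rfl
  have h1 : ∀ i j, inner ℝ (S (e.symm (b i))) (S (e.symm (b j))) = if i = j then (1 : ℝ) else 0 := by
    intro i j
    rw [hSe, hSe]
    have := orthonormal_iff_ite.mp b.orthonormal i j
    simpa using this
  have h2 : ∀ i j, inner ℝ (P (e.symm (b i))) (P (e.symm (b j))) =
      if i = j then (hT.eigenvalues hfr i : ℝ) else 0 := by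
    intro i j
    have := hTi (b i) (b j)
    rw [hb i] at this
    rw [show inner ℝ (P (e.symm (b i))) (P (e.symm (b j))) = inner ℝ (Q (b i)) (Q (b j)) from rfl,
      ← this, real_inner_smul_left]
    have h3 := orthonormal_iff_ite.mp b.orthonormal i j
    rw [h3]
    split_ifs <;> simp
  refine ⟨fun i => e.symm (b i), fun i => hT.eigenvalues hfr i, ?_, h1, h2, ?_⟩
  · intro i
    have := h2 i i
    simp only [if_true] at this
    change 0 ≤ (hT.eigenvalues hfr i : ℝ)
    rw [← this]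
    exact real_inner_self_nonneg
  · intro η
    have h3 := b.sum_repr' (e η)
    have h4 := congrArg e.symm h3
    rw [map_sum, e.symm_apply_apply] at h4
    refine h4.symm.trans (Finset.sum_congr rfl fun i _ => ?_)
    rw [map_smul]
    congr 1
    change inner ℝ (b i) (e η) = inner ℝ (S (e.symm (b i))) (S η)
    rw [hSe]
    rfl

/-- The form of a matrix through the Euclidean linear map. -/
lemma mat_bf_eq {n : ℕ} (N : Matrix (Fin n) (Fin n) ℝ) (ξ η : E n) :
    bf N ξ η = inner ℝ ξ (Matrix.toEuclideanLin N η) := by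
  simp only [bf, PiLp.inner_apply, Matrix.toLpLin_apply, Matrix.mulVec, dotProduct]
  refine Finset.sum_congr rfl fun i _ => ?_
  simp only [RCLike.inner_apply, conj_trivial, Finset.sum_mul]
  refine Finset.sum_congr rfl fun j _ => ?_
  ring

/-- Orthonormal diagonalisation of a symmetric matrix. -/
lemma mat_spec {n : ℕ} (N : Matrix (Fin n) (Fin n) ℝ) (hN : N.IsSymm) :
    ∃ (f : OrthonormalBasis (Fin n) ℝ (E n)) (m : Fin n → ℝ), ∑ j, m j = N.trace ∧
      ∀ η : E n, bf N η η = ∑ j, m j * (inner ℝ (f j) η) ^ 2 := by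
  have hN' : N.IsHermitian := by
    rw [Matrix.IsHermitian, Matrix.conjTranspose_eq_transpose_of_trivial]
    exact hN
  refine ⟨hN'.eigenvectorBasis, hN'.eigenvalues, ?_, ?_⟩
  · have := hN'.trace_eq_sum_eigenvalues
    simpa using this.symm
  · intro η
    rw [mat_bf_eq]
    have hs := Matrix.isSymmetric_toEuclideanLin_iff.mpr hN'
    rw [← hN'.eigenvectorBasis.sum_inner_mul_inner η (Matrix.toEuclideanLin N η)]
    refine Finset.sum_congr rfl fun j _ => ?_
    have h1 : inner ℝ (hN'.eigenvectorBasis j) (Matrix.toEuclideanLin N η) =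
        hN'.eigenvalues j * inner ℝ (hN'.eigenvectorBasis j) η := by
      rw [← hs]
      have h2 : Matrix.toEuclideanLin N (hN'.eigenvectorBasis j) =
          hN'.eigenvalues j • hN'.eigenvectorBasis j := by
        have h3 := hN'.mulVec_eigenvectorBasis j
        ext i
        have h4 := congrFun h3 i
        simpa [Matrix.toLpLin_apply] using h4
      rw [h2, real_inner_smul_left]
    rw [h1, real_inner_comm]
    ring

/-- Simultaneous diagonalisation of the pair of forms `‖P ξ‖²`, `‖S ξ‖²` together with the trace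
inequality `∑ 1 / ρ i ≥ n b0 / a0`. -/
theorem pencil {n : ℕ} {X Y : Type*} [NormedAddCommGroup X] [InnerProductSpace ℝ X]
    [NormedAddCommGroup Y] [InnerProductSpace ℝ Y] (S : E n →ₗ[ℝ] X) (P : E n →ₗ[ℝ] Y)
    (hS : Function.Injective S) (N : Matrix (Fin n) (Fin n) ℝ) (hN : N.IsSymm)
    (htr : N.trace = 0) {a0 b0 w k : ℝ} (ha : 0 < a0) (hb : 0 < b0) (hw : 0 ≤ w) (hk : 0 ≤ k)
    (h1 : ∀ ξ, ‖P ξ‖ ^ 2 ≤ a0 * ‖ξ‖ ^ 2 - w * bf N ξ ξ)
    (h2 : ∀ ξ, b0 * ‖ξ‖ ^ 2 + k * bf N ξ ξ ≤ ‖S ξ‖ ^ 2) :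
    ∃ (ξ : Fin n → E n) (ρ : Fin n → ℝ), (∀ i, 0 ≤ ρ i) ∧
      (∀ i j, inner ℝ (S (ξ i)) (S (ξ j)) = if i = j then 1 else 0) ∧
      (∀ i j, inner ℝ (P (ξ i)) (P (ξ j)) = if i = j then ρ i else 0) ∧
      ENNReal.ofReal (n * (b0 / a0)) ≤ ∑ i, (ENNReal.ofReal (ρ i))⁻¹ := by
  classical
  obtain ⟨ξ, ρ, hρ, hSS, hPP, hexp⟩ := mat_diag S P hS
  refine ⟨ξ, ρ, hρ, hSS, hPP, ?_⟩
  by_cases hz : ∃ i, ρ i = 0
  · obtain ⟨i, hi⟩ := hz
    have h3 : (ENNReal.ofReal (ρ i))⁻¹ = ⊤ := by rw [hi]; simp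
    have h4 : (ENNReal.ofReal (ρ i))⁻¹ ≤ ∑ i, (ENNReal.ofReal (ρ i))⁻¹ :=
      Finset.single_le_sum (f := fun i => (ENNReal.ofReal (ρ i))⁻¹) (fun _ _ => bot_le)
        (Finset.mem_univ i)
    rw [h3, top_le_iff] at h4
    rw [h4]; exact le_top
  push Not at hz
  have hpos : ∀ i, 0 < ρ i := fun i => lt_of_le_of_ne (hρ i) (Ne.symm (hz i))
  -- coordinates
  set c : Fin n → E n → ℝ := fun i η => inner ℝ (S (ξ i)) (S η) with hc
  have hPn : ∀ η : E n, ‖P η‖ ^ 2 = ∑ i, ρ i * c i η ^ 2 := by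
    intro η
    rw [← real_inner_self_eq_norm_sq]
    conv_lhs => rw [hexp η]
    rw [map_sum]
    simp only [map_smul, sum_inner, inner_sum, real_inner_smul_left, real_inner_smul_right, hPP]
    refine Finset.sum_congr rfl fun i _ => ?_
    rw [Finset.sum_eq_single i]
    · simp [hc]; ring
    · intro j _ hj; rw [if_neg hj]; ring
    · intro h; exact absurd (Finset.mem_univ i) h
  have hSn : ∀ η : E n, ‖S η‖ ^ 2 = ∑ i, c i η ^ 2 := by
    intro η
    rw [← real_inner_self_eq_norm_sq]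
    conv_lhs => rw [hexp η]
    rw [map_sum]
    simp only [map_smul, sum_inner, inner_sum, real_inner_smul_left, real_inner_smul_right, hSS]
    refine Finset.sum_congr rfl fun i _ => ?_
    rw [Finset.sum_eq_single i]
    · simp [hc]; ring
    · intro j _ hj; rw [if_neg hj]; ring
    · intro h; exact absurd (Finset.mem_univ i) h
  obtain ⟨f, m, hm, hbf⟩ := mat_spec N hN
  -- values on the eigenvectors of `N`
  have hff : ∀ j, bf N (f j) (f j) = m j := by
    intro j
    rw [hbf, Finset.sum_eq_single j]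
    · rw [real_inner_self_eq_norm_sq, f.norm_eq_one]; ring
    · intro l _ hl
      have := orthonormal_iff_ite.mp f.orthonormal l j
      rw [this, if_neg hl]; ring
    · intro h; exact absurd (Finset.mem_univ j) h
  have hmpos : ∀ j, 0 < a0 - w * m j := by
    intro j
    have h3 := h1 (f j)
    rw [hff, f.norm_eq_one] at h3
    have h4 : 0 < ‖P (f j)‖ ^ 2 := by
      rw [hPn]
      have h5 : ∃ i, c i (f j) ≠ 0 := by
        by_contra hcon
        push Not at hcon
        have h6 := hexp (f j)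
        have h7 : f j = 0 := by
          rw [h6]
          exact Finset.sum_eq_zero fun i _ => by
            rw [show inner ℝ (S (ξ i)) (S (f j)) = c i (f j) from rfl, hcon i, zero_smul]
        have h8 := f.norm_eq_one j
        rw [h7, norm_zero] at h8
        exact zero_ne_one h8
      obtain ⟨i, hi⟩ := h5
      refine Finset.sum_pos' (fun l _ => mul_nonneg (hρ l) (sq_nonneg _)) ⟨i, Finset.mem_univ i, ?_⟩
      exact mul_pos (hpos i) (by positivity)
    nlinarith
  -- the key estimate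
  have hkey : ∀ i, ∑ j, c i (f j) ^ 2 / (a0 - w * m j) ≤ (ρ i)⁻¹ := by
    intro i
    set s := ∑ j, c i (f j) ^ 2 / (a0 - w * m j) with hs
    set η : E n := ∑ j, (c i (f j) / (a0 - w * m j)) • f j with hη
    have hcη : c i η = s := by
      simp only [hc, hη, map_sum, map_smul, inner_sum, real_inner_smul_right, hs]
      refine Finset.sum_congr rfl fun j _ => ?_
      ring
    have hin : ∀ j, inner ℝ (f j) η = c i (f j) / (a0 - w * m j) := by
      intro j
      rw [hη, inner_sum, Finset.sum_eq_single j]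
      · rw [real_inner_smul_right, real_inner_self_eq_norm_sq, f.norm_eq_one]; ring
      · intro l _ hl
        have := orthonormal_iff_ite.mp f.orthonormal j l
        rw [real_inner_smul_right, this, if_neg (Ne.symm hl)]; ring
      · intro h; exact absurd (Finset.mem_univ j) h
    have hn : ‖η‖ ^ 2 = ∑ j, (c i (f j) / (a0 - w * m j)) ^ 2 := by
      rw [← f.sum_sq_norm_inner_right η]
      refine Finset.sum_congr rfl fun j _ => ?_
      rw [hin j, Real.norm_eq_abs, sq_abs]
    have hMM : a0 * ‖η‖ ^ 2 - w * bf N η η = s := by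
      rw [hn, hbf, Finset.mul_sum, Finset.mul_sum, ← Finset.sum_sub_distrib, hs]
      refine Finset.sum_congr rfl fun j _ => ?_
      rw [hin j]
      have := (hmpos j).ne'
      field_simp
    have h3 : ρ i * s ^ 2 ≤ s := by
      calc ρ i * s ^ 2 = ρ i * c i η ^ 2 := by rw [hcη]
        _ ≤ ∑ l, ρ l * c l η ^ 2 :=
            Finset.single_le_sum (f := fun l => ρ l * c l η ^ 2)
              (fun l _ => mul_nonneg (hρ l) (sq_nonneg _)) (Finset.mem_univ i)
        _ = ‖P η‖ ^ 2 := (hPn η).symm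
        _ ≤ a0 * ‖η‖ ^ 2 - w * bf N η η := h1 η
        _ = s := hMM
    have hs0 : 0 ≤ s := Finset.sum_nonneg fun j _ => div_nonneg (sq_nonneg _) (hmpos j).le
    rcases hs0.eq_or_lt with h0 | h0
    · rw [← h0]; exact inv_nonneg.mpr (hρ i)
    · rw [← one_div, le_div_iff₀ (hpos i)]
      have : s * (s * ρ i) ≤ s * 1 := by nlinarith
      exact le_of_mul_le_mul_left this h0
  have hsum : (n : ℝ) * (b0 / a0) ≤ ∑ i, (ρ i)⁻¹ := by
    calc (n : ℝ) * (b0 / a0) = ∑ j : Fin n, (b0 / a0 + m j * ((k * a0 + w * b0) / a0 ^ 2)) := by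
          rw [Finset.sum_add_distrib, ← Finset.sum_mul, hm, htr]
          simp
      _ ≤ ∑ j, ‖S (f j)‖ ^ 2 / (a0 - w * m j) := by
          refine Finset.sum_le_sum fun j _ => ?_
          have h3 := h2 (f j)
          rw [hff, f.norm_eq_one] at h3
          rw [le_div_iff₀ (hmpos j)]
          refine le_trans ?_ h3
          have h4 : (b0 / a0 + m j * ((k * a0 + w * b0) / a0 ^ 2)) * (a0 - w * m j) =
              b0 * 1 ^ 2 + k * m j - (k * a0 + w * b0) * w * m j ^ 2 / a0 ^ 2 := by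
            field_simp
            ring
          rw [h4]
          have h5 : 0 ≤ (k * a0 + w * b0) * w * m j ^ 2 / a0 ^ 2 := by positivity
          linarith
      _ = ∑ j, ∑ i, c i (f j) ^ 2 / (a0 - w * m j) := by
          refine Finset.sum_congr rfl fun j _ => ?_
          rw [hSn, Finset.sum_div]
      _ = ∑ i, ∑ j, c i (f j) ^ 2 / (a0 - w * m j) := Finset.sum_comm
      _ ≤ ∑ i, (ρ i)⁻¹ := Finset.sum_le_sum fun i _ => hkey i
  calc ENNReal.ofReal (n * (b0 / a0)) ≤ ENNReal.ofReal (∑ i, (ρ i)⁻¹) :=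
        ENNReal.ofReal_le_ofReal hsum
    _ = ∑ i, ENNReal.ofReal ((ρ i)⁻¹) :=
        ENNReal.ofReal_sum_of_nonneg fun i _ => inv_nonneg.mpr (hρ i)
    _ = ∑ i, (ENNReal.ofReal (ρ i))⁻¹ :=
        Finset.sum_congr rfl fun i _ => ENNReal.ofReal_inv_of_pos (hpos i)

end Pool.Agent.NE
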