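import Pool.Agent.NE.OdeW

set_option autoImplicit false

open MeasureTheory Set
open scoped ENNReal Topology

namespace Pool.Agent.NE

namespace OdeCap

/-- The standing data of this file. -/
structure Dat (κ R : ℝ) (s c : ℝ → ℝ) : Prop where
  hR : 0 < R
  hκ : 0 ≤ κ
  hs0 : s 0 = 0
  hc0 : c 0 = 1
  hs : ∀ r, HasDerivAt s (c r) r
  hc : ∀ r, HasDerivAt c (-(κ * s r)) r
  hcp : ∀ r ∈ Ico 0 R, 0 < c r

/-- The power series solutions. -/
structure Sol (n : ℕ) (R : ℝ) (s : ℝ → ℝ) (W DW : ℝ → ℝ → ℝ) : Prop where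
  Wc : ContinuousOn (fun z : ℝ × ℝ => W z.1 z.2) (univ ×ˢ Icc 0 R)
  DWc : ContinuousOn (fun z : ℝ × ℝ => DW z.1 z.2) (univ ×ˢ Icc 0 R)
  W0 : ∀ l, W l 0 = 1
  DW0 : ∀ l, DW l 0 = 0
  Wd : ∀ l, ∀ r ∈ Ioo 0 R, HasDerivAt (W l) (DW l r) r
  Wi : ∀ l, ∀ r ∈ Icc 0 R, s r ^ (n + 1) * DW l r =
        -(l * ∫ t in (0 : ℝ)..r, s t ^ (n + 1) * W l t)

variable {n : ℕ} {κ R : ℝ} {s c : ℝ → ℝ} {W DW : ℝ → ℝ → ℝ}

lemma Dat.sq (D : Dat κ R s c) (r : ℝ) : c r ^ 2 + κ * s r ^ 2 = 1 := by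
  have hd : ∀ x, HasDerivAt (fun r => c r ^ 2 + κ * s r ^ 2) 0 x := by
    intro x
    have h1 := ((D.hc x).pow 2).add (((D.hs x).pow 2).const_mul κ)
    convert! h1 using 1
    simp
    ring
  have h : c r ^ 2 + κ * s r ^ 2 = c 0 ^ 2 + κ * s 0 ^ 2 :=
    is_const_of_deriv_eq_zero (f := fun r => c r ^ 2 + κ * s r ^ 2)
      (fun x => (hd x).differentiableAt) (fun x => (hd x).deriv) r 0
  rw [h, D.hs0, D.hc0]
  simp

lemma Dat.s_cont (D : Dat κ R s c) : Continuous s :=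
  continuous_iff_continuousAt.2 fun x => (D.hs x).continuousAt

lemma Dat.c_cont (D : Dat κ R s c) : Continuous c :=
  continuous_iff_continuousAt.2 fun x => (D.hc x).continuousAt

lemma Dat.s_mono (D : Dat κ R s c) : StrictMonoOn s (Icc 0 R) := by
  refine strictMonoOn_of_deriv_pos (convex_Icc 0 R) D.s_cont.continuousOn ?_
  intro x hx
  rw [interior_Icc] at hx
  rw [(D.hs x).deriv]
  exact D.hcp x ⟨hx.1.le, hx.2⟩

lemma Dat.s_pos (D : Dat κ R s c) {r : ℝ} (hr : r ∈ Ioc 0 R) : 0 < s r := by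
  have h := D.s_mono (left_mem_Icc.2 D.hR.le) ⟨hr.1.le, hr.2⟩ hr.1
  rwa [D.hs0] at h

lemma Dat.s_nonneg (D : Dat κ R s c) {r : ℝ} (hr : r ∈ Icc 0 R) : 0 ≤ s r := by
  rcases eq_or_lt_of_le hr.1 with h | h
  · rw [← h, D.hs0]
  · exact (D.s_pos ⟨h, hr.2⟩).le

lemma Dat.c_anti (D : Dat κ R s c) : AntitoneOn c (Icc 0 R) := by
  refine antitoneOn_of_deriv_nonpos (convex_Icc 0 R) D.c_cont.continuousOn
    (fun x _ => (D.hc x).differentiableAt.differentiableWithinAt) ?_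
  intro x hx
  rw [interior_Icc] at hx
  rw [(D.hc x).deriv]
  have := D.s_nonneg ⟨hx.1.le, hx.2.le⟩
  have := mul_nonneg D.hκ this
  linarith

lemma Dat.c_nonneg (D : Dat κ R s c) {r : ℝ} (hr : r ∈ Icc 0 R) : 0 ≤ c r := by
  rcases eq_or_lt_of_le hr.2 with h | h
  · have h1 : ∀ x ∈ Ico 0 R, 0 ≤ c x := fun x hx => (D.hcp x hx).le
    have h2 : ∀ x ∈ closure (Ico 0 R), 0 ≤ c x := by
      intro x hx
      exact closure_minimal (fun y hy => h1 y hy) (isClosed_le continuous_const D.c_cont) hx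
    rw [closure_Ico D.hR.ne] at h2
    exact h2 r hr
  · exact (D.hcp r ⟨hr.1, h⟩).le

lemma Sol.W_cont (H : Sol n R s W DW) (l : ℝ) : ContinuousOn (W l) (Icc 0 R) :=
  H.Wc.comp (f := fun r : ℝ => (l, r)) (by fun_prop) (fun r hr => ⟨mem_univ _, hr⟩)

lemma Sol.DW_cont (H : Sol n R s W DW) (l : ℝ) : ContinuousOn (DW l) (Icc 0 R) :=
  H.DWc.comp (f := fun r : ℝ => (l, r)) (by fun_prop) (fun r hr => ⟨mem_univ _, hr⟩)

lemma Sol.DW_deriv (D : Dat κ R s c) (H : Sol n R s W DW) (l : ℝ) {r : ℝ} (hr : r ∈ Ioo 0 R) :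
    HasDerivAt (DW l) (-((n + 1 : ℝ) * (c r / s r) * DW l r) - l * W l r) r := by
  have hsp : 0 < s r := D.s_pos ⟨hr.1, hr.2.le⟩
  have hfc : ContinuousOn (fun t => s t ^ (n + 1) * W l t) (Icc 0 R) :=
    (D.s_cont.pow _).continuousOn.mul (H.W_cont l)
  have hI : HasDerivAt (fun x => ∫ t in (0 : ℝ)..x, s t ^ (n + 1) * W l t)
      (s r ^ (n + 1) * W l r) r := by
    refine intervalIntegral.integral_hasDerivAt_right ?_ ?_ ?_
    · refine (hfc.mono ?_).intervalIntegrable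
      rw [uIcc_of_le hr.1.le]
      exact Icc_subset_Icc le_rfl hr.2.le
    · exact (hfc.mono Ioo_subset_Icc_self).stronglyMeasurableAtFilter isOpen_Ioo r hr
    · exact hfc.continuousAt (Icc_mem_nhds hr.1 hr.2)
  have hd := (hI.const_mul l).neg.div ((D.hs r).pow (n + 1)) (pow_ne_zero _ hsp.ne')
  have he : (DW l) =ᶠ[𝓝 r] (fun x => (-(l * ∫ t in (0 : ℝ)..x, s t ^ (n + 1) * W l t)) /
      s x ^ (n + 1)) := by
    filter_upwards [Ioo_mem_nhds hr.1 hr.2] with x hx
    have hx' : 0 < s x := D.s_pos ⟨hx.1, hx.2.le⟩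
    rw [← H.Wi l x ⟨hx.1.le, hx.2.le⟩]
    field_simp
  have hd2 : HasDerivAt (fun x => (-(l * ∫ t in (0 : ℝ)..x, s t ^ (n + 1) * W l t)) /
      s x ^ (n + 1)) (-((n + 1 : ℝ) * (c r / s r) * DW l r) - l * W l r) r := by
    convert! hd using 1
    simp only [Pi.neg_apply, Pi.pow_apply]
    rw [← H.Wi l r ⟨hr.1.le, hr.2.le⟩]
    simp only [Nat.add_sub_cancel]
    push_cast
    field_simp
    ring
  exact hd2.congr_of_eventuallyEq he

/-- derivative of `s W` -/
def dgf (s c : ℝ → ℝ) (W DW : ℝ → ℝ → ℝ) (l r : ℝ) : ℝ := c r * W l r + s r * DW l r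

lemma dgf_cont (D : Dat κ R s c) (H : Sol n R s W DW) (l : ℝ) :
    ContinuousOn (dgf s c W DW l) (Icc 0 R) :=
  (D.c_cont.continuousOn.mul (H.W_cont l)).add (D.s_cont.continuousOn.mul (H.DW_cont l))

lemma dgf_zero (D : Dat κ R s c) (H : Sol n R s W DW) (l : ℝ) : dgf s c W DW l 0 = 1 := by
  simp [dgf, D.hs0, D.hc0, H.W0]

lemma g_deriv (D : Dat κ R s c) (H : Sol n R s W DW) (l : ℝ) {r : ℝ} (hr : r ∈ Ioo 0 R) :
    HasDerivAt (fun r => s r * W l r) (dgf s c W DW l r) r :=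
  (D.hs r).mul (H.Wd l r hr)

lemma dg_deriv (D : Dat κ R s c) (H : Sol n R s W DW) (l : ℝ) {r : ℝ} (hr : r ∈ Ioo 0 R) :
    HasDerivAt (dgf s c W DW l)
      (-((κ + l) * s r * W l r) - (n - 1 : ℝ) * c r * DW l r) r := by
  have hsp : 0 < s r := D.s_pos ⟨hr.1, hr.2.le⟩
  have h := ((D.hc r).mul (H.Wd l r hr)).add ((D.hs r).mul (H.DW_deriv D l hr))
  convert! h using 1
  field_simp
  ring

/-- Main lemma: consequences of `g' ≥ 0`. -/
lemma key (_hn : 1 ≤ n) (D : Dat κ R s c) (H : Sol n R s W DW) {l : ℝ} (hl : 0 ≤ l)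
    (hg : ∀ r ∈ Icc 0 R, 0 ≤ dgf s c W DW l r) :
    (∀ r ∈ Icc 0 R, 0 < W l r) ∧ (∀ r ∈ Icc 0 R, DW l r ≤ 0) := by
  have hgc : ContinuousOn (fun r => s r * W l r) (Icc 0 R) :=
    D.s_cont.continuousOn.mul (H.W_cont l)
  have hgm : MonotoneOn (fun r => s r * W l r) (Icc 0 R) := by
    refine monotoneOn_of_deriv_nonneg (convex_Icc 0 R) hgc ?_ ?_
    · intro x hx
      rw [interior_Icc] at hx
      exact (g_deriv D H l hx).differentiableAt.differentiableWithinAt
    · intro x hx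
      rw [interior_Icc] at hx
      rw [(g_deriv D H l hx).deriv]
      exact hg x ⟨hx.1.le, hx.2.le⟩
  have hWpos : ∀ r ∈ Icc 0 R, 0 < W l r := by
    intro r hr
    rcases eq_or_lt_of_le hr.1 with h0 | h0
    · rw [← h0, H.W0]
      norm_num
    · have hc0 : ContinuousWithinAt (W l) (Icc 0 R) 0 := H.W_cont l 0 (left_mem_Icc.2 D.hR.le)
      have he : ∀ᶠ x in 𝓝[Icc 0 R] 0, 0 < W l x := by
        have : (0 : ℝ) < W l 0 := by rw [H.W0]; norm_num
        exact hc0.eventually (lt_mem_nhds this)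
      rw [eventually_nhdsWithin_iff, Metric.eventually_nhds_iff] at he
      obtain ⟨ε, hε, he⟩ := he
      set x := min (ε / 2) r with hx
      have hx0 : 0 < x := lt_min (by positivity) h0
      have hxr : x ≤ r := min_le_right _ _
      have hxI : x ∈ Icc 0 R := ⟨hx0.le, hxr.trans hr.2⟩
      have hWx : 0 < W l x := by
        refine he ?_ hxI
        rw [Real.dist_eq, sub_zero, abs_of_pos hx0]
        have := min_le_left (ε / 2) r
        rw [← hx] at this
        linarith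
      have h1 := hgm hxI hr hxr
      simp only at h1
      have h2 : 0 < s x * W l x := mul_pos (D.s_pos ⟨hx0, hxI.2⟩) hWx
      have h3 : 0 < s r * W l r := lt_of_lt_of_le h2 h1
      exact (mul_pos_iff_of_pos_left (D.s_pos ⟨h0, hr.2⟩)).1 h3
  refine ⟨hWpos, ?_⟩
  intro r hr
  rcases eq_or_lt_of_le hr.1 with h0 | h0
  · rw [← h0, H.DW0]
  · have hs := D.s_pos ⟨h0, hr.2⟩
    have h1 := H.Wi l r hr
    have h2 : 0 ≤ ∫ t in (0 : ℝ)..r, s t ^ (n + 1) * W l t := by
      refine intervalIntegral.integral_nonneg hr.1 ?_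
      intro t ht
      have ht' : t ∈ Icc 0 R := ⟨ht.1, ht.2.trans hr.2⟩
      exact mul_nonneg (pow_nonneg (D.s_nonneg ht') _) (hWpos t ht').le
    have h3 : s r ^ (n + 1) * DW l r ≤ 0 := by
      rw [h1]
      have := mul_nonneg hl h2
      linarith
    by_contra hcon
    push Not at hcon
    have := mul_pos (pow_pos hs (n + 1)) hcon
    linarith

/-- `c ρ ≤ l s / (n + 1)` where `ρ = - w' / w`. -/
lemma rho_bound (hn : 1 ≤ n) (D : Dat κ R s c) (H : Sol n R s W DW) {l : ℝ} (hl : 0 ≤ l)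
    (hg : ∀ r ∈ Icc 0 R, 0 ≤ dgf s c W DW l r) {r : ℝ} (hr : r ∈ Icc 0 R) :
    -(c r * DW l r) * (n + 1) ≤ l * s r * W l r := by
  obtain ⟨hW, hDW⟩ := key hn D H hl hg
  rcases eq_or_lt_of_le hr.1 with h0 | h0
  · rw [← h0, D.hs0, H.DW0]
    simp
  set B : ℝ → ℝ := fun r => l * s r ^ (n + 1) + (n + 1) * (c r * (s r ^ n * (DW l r / W l r)))
    with hB
  have hBc : ContinuousOn B (Icc 0 R) := by
    refine ContinuousOn.add (continuousOn_const.mul (D.s_cont.pow _).continuousOn)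
      (continuousOn_const.mul (D.c_cont.continuousOn.mul
        ((D.s_cont.pow _).continuousOn.mul ((H.DW_cont l).div (H.W_cont l) ?_))))
    intro x hx
    exact (hW x hx).ne'
  have hBd : ∀ x ∈ Ioo 0 R, HasDerivAt B (l * ((n + 1) * s x ^ n * c x) +
      (n + 1) * (-(κ * s x) * (s x ^ n * (DW l x / W l x)) + c x * ((n * s x ^ (n - 1) * c x) *
        (DW l x / W l x) + s x ^ n * (((-((n + 1 : ℝ) * (c x / s x) * DW l x) - l * W l x) * W l x
          - DW l x * DW l x) / (W l x) ^ 2)))) x := by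
    intro x hx
    have hx' : x ∈ Icc 0 R := ⟨hx.1.le, hx.2.le⟩
    have h1 := ((D.hs x).pow (n + 1)).const_mul l
    have h2 := (H.DW_deriv D l hx).div (H.Wd l x hx) (hW x hx').ne'
    have h3 := ((D.hs x).pow n).mul h2
    have h4 := ((D.hc x).mul h3).const_mul ((n : ℝ) + 1)
    convert! h1.add h4 using 1
    simp only [Nat.add_sub_cancel]
    push_cast
    simp
  have hBm : MonotoneOn B (Icc 0 R) := by
    refine monotoneOn_of_deriv_nonneg (convex_Icc 0 R) hBc ?_ ?_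
    · intro x hx
      rw [interior_Icc] at hx
      exact (hBd x hx).differentiableAt.differentiableWithinAt
    · intro x hx
      rw [interior_Icc] at hx
      rw [(hBd x hx).deriv]
      have hx' : x ∈ Icc 0 R := ⟨hx.1.le, hx.2.le⟩
      have hs := D.s_pos ⟨hx.1, hx.2.le⟩
      have hw := hW x hx'
      have hc := D.hcp x ⟨hx.1.le, hx.2⟩
      obtain ⟨m, rfl⟩ : ∃ m, n = m + 1 := ⟨n - 1, by omega⟩
      -- ρ = - DW / W
      obtain ⟨ρ, hρ⟩ : ∃ ρ, ρ = -(DW l x / W l x) := ⟨_, rfl⟩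
      have hDW' : DW l x = -(ρ * W l x) := by
        rw [hρ]; field_simp
      have hρ0 : 0 ≤ ρ := by
        rw [hρ, neg_nonneg]
        exact div_nonpos_of_nonpos_of_nonneg (hDW x hx') hw.le
      have hρs : s x * ρ ≤ c x := by
        have := hg x hx'
        rw [dgf, hDW'] at this
        have h5 : 0 ≤ (c x - s x * ρ) * W l x := by
          calc (0 : ℝ) ≤ _ := this
            _ = _ := by ring
        have := nonneg_of_mul_nonneg_left h5 hw
        linarith
      have e : l * (((m + 1 : ℕ) + 1) * s x ^ (m + 1) * c x) +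
          ((m + 1 : ℕ) + 1) * (-(κ * s x) * (s x ^ (m + 1) * (DW l x / W l x)) +
          c x * (((m + 1 : ℕ) * s x ^ (m + 1 - 1) * c x) *
        (DW l x / W l x) + s x ^ (m + 1) * (((-(((m + 1 : ℕ) + 1 : ℝ) * (c x / s x) * DW l x)
          - l * W l x) * W l x - DW l x * DW l x) / (W l x) ^ 2))) =
          ((m : ℝ) + 2) * s x ^ m * ρ * (κ * s x ^ 2 + c x * (c x - s x * ρ)) := by
        rw [hDW']
        simp only [Nat.add_sub_cancel]
        push_cast
        field_simp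
        ring
      rw [e]
      have h6 : 0 ≤ κ * s x ^ 2 + c x * (c x - s x * ρ) :=
        add_nonneg (mul_nonneg D.hκ (sq_nonneg _)) (mul_nonneg hc.le (by linarith))
      positivity
  have hB0 : B 0 = 0 := by
    simp only [hB, D.hs0, H.DW0]
    simp
  have h7 : B 0 ≤ B r := hBm (left_mem_Icc.2 D.hR.le) hr hr.1
  rw [hB0] at h7
  have hs := D.s_pos ⟨h0, hr.2⟩
  have hw := hW r hr
  have h8 : B r * W l r = s r ^ n * (l * s r * W l r - -(c r * DW l r) * (n + 1)) := by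
    simp only [hB]
    field_simp
    ring
  have h9 : 0 ≤ s r ^ n * (l * s r * W l r - -(c r * DW l r) * (n + 1)) := by
    rw [← h8]
    exact mul_nonneg h7 hw.le
  have := nonneg_of_mul_nonneg_right h9 (pow_pos hs n)
  linarith

/-- `g'' ≤ - w s (κ + 2 l/(n+1))` -/
lemma ddg_neg (hn : 1 ≤ n) (D : Dat κ R s c) (H : Sol n R s W DW) {l : ℝ} (hl : 0 ≤ l)
    (hg : ∀ r ∈ Icc 0 R, 0 ≤ dgf s c W DW l r) {r : ℝ} (hr : r ∈ Icc 0 R) :
    -((κ + l) * s r * W l r) - (n - 1 : ℝ) * c r * DW l r ≤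
      -(s r * W l r * (κ + 2 * l / (n + 1))) := by
  have h := rho_bound hn D H hl hg hr
  have hn1 : (0 : ℝ) ≤ n - 1 := by
    have : (1 : ℝ) ≤ n := by exact_mod_cast hn
    linarith
  have hn2 : (0 : ℝ) < n + 1 := by positivity
  have h1 : -(c r * DW l r) ≤ l * s r * W l r / (n + 1) := by
    rw [le_div_iff₀ hn2]
    exact h
  have h2 := mul_le_mul_of_nonneg_left h1 hn1
  have e : -(s r * W l r * (κ + 2 * l / (n + 1))) = -((κ + l) * s r * W l r) +
      (n - 1 : ℝ) * (l * s r * W l r / (n + 1)) := by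
    field_simp
    ring
  rw [e]
  linarith

lemma dg_anti (hn : 1 ≤ n) (D : Dat κ R s c) (H : Sol n R s W DW) {l : ℝ} (hl : 0 ≤ l)
    (hg : ∀ r ∈ Icc 0 R, 0 ≤ dgf s c W DW l r) : AntitoneOn (dgf s c W DW l) (Icc 0 R) := by
  refine antitoneOn_of_deriv_nonpos (convex_Icc 0 R) (dgf_cont D H l) ?_ ?_
  · intro x hx
    rw [interior_Icc] at hx
    exact (dg_deriv D H l hx).differentiableAt.differentiableWithinAt
  · intro x hx
    rw [interior_Icc] at hx
    rw [(dg_deriv D H l hx).deriv]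
    have hx' : x ∈ Icc 0 R := ⟨hx.1.le, hx.2.le⟩
    refine (ddg_neg hn D H hl hg hx').trans ?_
    have h1 := D.s_nonneg hx'
    have h2 := (key hn D H hl hg).1 x hx'
    have h3 := D.hκ
    rw [neg_nonpos]
    positivity

lemma dg_strictAnti (hn : 1 ≤ n) (D : Dat κ R s c) (H : Sol n R s W DW) {l : ℝ} (hl : 0 < l)
    (hg : ∀ r ∈ Icc 0 R, 0 ≤ dgf s c W DW l r) :
    StrictAntiOn (dgf s c W DW l) (Icc 0 R) := by
  refine strictAntiOn_of_deriv_neg (convex_Icc 0 R) (dgf_cont D H l) ?_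
  intro x hx
  rw [interior_Icc] at hx
  rw [(dg_deriv D H l hx).deriv]
  have hx' : x ∈ Icc 0 R := ⟨hx.1.le, hx.2.le⟩
  refine (ddg_neg hn D H hl.le hg hx').trans_lt ?_
  have h1 := D.s_pos ⟨hx.1, hx.2.le⟩
  have h2 := (key hn D H hl.le hg).1 x hx'
  have h3 := D.hκ
  rw [neg_lt_zero]
  positivity

lemma W_anti (hn : 1 ≤ n) (D : Dat κ R s c) (H : Sol n R s W DW) {l : ℝ} (hl : 0 ≤ l)
    (hg : ∀ r ∈ Icc 0 R, 0 ≤ dgf s c W DW l r) : AntitoneOn (W l) (Icc 0 R) := by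
  refine antitoneOn_of_deriv_nonpos (convex_Icc 0 R) (H.W_cont l) ?_ ?_
  · intro x hx
    rw [interior_Icc] at hx
    exact (H.Wd l x hx).differentiableAt.differentiableWithinAt
  · intro x hx
    rw [interior_Icc] at hx
    rw [(H.Wd l x hx).deriv]
    exact (key hn D H hl hg).2 x ⟨hx.1.le, hx.2.le⟩

/-- for `l = 0` the solution is constant -/
lemma dgf_l_zero (D : Dat κ R s c) (H : Sol n R s W DW) {r : ℝ} (hr : r ∈ Icc 0 R) :
    dgf s c W DW 0 r = c r := by
  have hDW : ∀ x ∈ Icc 0 R, DW 0 x = 0 := by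
    intro x hx
    rcases eq_or_lt_of_le hx.1 with h0 | h0
    · rw [← h0, H.DW0]
    · have h1 := H.Wi 0 x hx
      rw [zero_mul, neg_zero] at h1
      exact (mul_eq_zero.1 h1).resolve_left (pow_ne_zero _ (D.s_pos ⟨h0, hx.2⟩).ne')
  have hW : ∀ x ∈ Icc 0 R, W 0 x = 1 := by
    intro x hx
    have h0I : (0 : ℝ) ∈ Icc 0 R := left_mem_Icc.2 D.hR.le
    have hdiff : DifferentiableOn ℝ (W 0) (interior (Icc 0 R)) := by
      intro y hy
      rw [interior_Icc] at hy
      exact (H.Wd 0 y hy).differentiableAt.differentiableWithinAt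
    have hder : ∀ y ∈ interior (Icc 0 R), deriv (W 0) y = 0 := by
      intro y hy
      rw [interior_Icc] at hy
      rw [(H.Wd 0 y hy).deriv]
      exact hDW y ⟨hy.1.le, hy.2.le⟩
    have h1 := monotoneOn_of_deriv_nonneg (convex_Icc 0 R) (H.W_cont 0) hdiff
      (fun y hy => (hder y hy).ge) h0I hx hx.1
    have h2 := antitoneOn_of_deriv_nonpos (convex_Icc 0 R) (H.W_cont 0) hdiff
      (fun y hy => (hder y hy).le) h0I hx hx.1
    rw [H.W0] at h1 h2
    exact le_antisymm h2 h1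
  rw [dgf, hDW r hr, hW r hr]
  ring

/-- Bound of the parameter. -/
lemma l_bound (hn : 1 ≤ n) (D : Dat κ R s c) (H : Sol n R s W DW) {l : ℝ} (hl : 0 ≤ l)
    (hg : ∀ r ∈ Icc 0 R, 0 ≤ dgf s c W DW l r) :
    l ≤ c R * s R ^ n / ∫ t in (0 : ℝ)..R, s t ^ (n + 1) := by
  obtain ⟨hW, hDW⟩ := key hn D H hl hg
  have hWa := W_anti hn D H hl hg
  have hRI : R ∈ Icc 0 R := right_mem_Icc.2 D.hR.le
  have hI : 0 < ∫ t in (0 : ℝ)..R, s t ^ (n + 1) := by
    refine intervalIntegral.intervalIntegral_pos_of_pos_on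
      ((D.s_cont.pow _).intervalIntegrable _ _) ?_ D.hR
    intro x hx
    exact pow_pos (D.s_pos ⟨hx.1, hx.2.le⟩) _
  rw [le_div_iff₀ hI]
  have hfc : ContinuousOn (fun t => s t ^ (n + 1) * W l t) (Icc 0 R) :=
    (D.s_cont.pow _).continuousOn.mul (H.W_cont l)
  have h1 : W l R * ∫ t in (0 : ℝ)..R, s t ^ (n + 1) ≤
      ∫ t in (0 : ℝ)..R, s t ^ (n + 1) * W l t := by
    rw [← intervalIntegral.integral_const_mul]
    refine intervalIntegral.integral_mono_on D.hR.le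
      ((continuous_const.mul (D.s_cont.pow _)).intervalIntegrable _ _) ?_ ?_
    · refine ContinuousOn.intervalIntegrable ?_
      rwa [uIcc_of_le D.hR.le]
    · intro x hx
      rw [mul_comm]
      exact mul_le_mul_of_nonneg_left (hWa hx hRI hx.2) (pow_nonneg (D.s_nonneg hx) _)
  have h2 := H.Wi l R hRI
  have h3 := hg R hRI
  rw [dgf] at h3
  have h4 : l * (W l R * ∫ t in (0 : ℝ)..R, s t ^ (n + 1)) ≤
      l * ∫ t in (0 : ℝ)..R, s t ^ (n + 1) * W l t := mul_le_mul_of_nonneg_left h1 hl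
  have h5 : 0 ≤ s R ^ n * (c R * W l R + s R * DW l R) :=
    mul_nonneg (pow_nonneg (D.s_nonneg hRI) _) h3
  have h6 : 0 ≤ (c R * s R ^ n - l * ∫ t in (0 : ℝ)..R, s t ^ (n + 1)) * W l R := by
    have h7 : s R ^ n * (c R * W l R + s R * DW l R) =
        c R * s R ^ n * W l R + s R ^ (n + 1) * DW l R := by ring
    rw [h7, h2] at h5
    nlinarith
  have := nonneg_of_mul_nonneg_left h6 (hW R hRI)
  linarith

/-- Assembly of the profile from a parameter. -/
lemma mk_profile (hn : 1 ≤ n) (D : Dat κ R s c) (H : Sol n R s W DW) {l : ℝ} (hl : 0 ≤ l)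
    (hg : ∀ r ∈ Icc 0 R, 0 ≤ dgf s c W DW l r) (hg' : ∀ r ∈ Ico 0 R, 0 < dgf s c W DW l r)
    (hgR : dgf s c W DW l R = 0) (hμ : 0 < l + n * κ) :
    CapProfile n κ s c R (l + n * κ) (fun r => s r * W l r) (dgf s c W DW l) where
  R_pos := D.hR
  κ_nonneg := D.hκ
  s_zero := D.hs0
  c_zero := D.hc0
  s_deriv := D.hs
  c_deriv := D.hc
  c_pos := D.hcp
  μ_pos := hμ
  μ_ge := by linarith
  g_zero := by simp [D.hs0]
  dg_at_zero := dgf_zero D H l
  dg_at_R := hgR
  g_cont := D.s_cont.continuousOn.mul (H.W_cont l)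
  dg_cont := dgf_cont D H l
  g_deriv := fun r hr => g_deriv D H l hr
  ode := by
    intro r hr
    have hsp : 0 < s r := D.s_pos ⟨hr.1, hr.2.le⟩
    have hsq := D.sq r
    convert! dg_deriv D H l hr using 1
    have e : c r ^ 2 = 1 - κ * s r ^ 2 := by linarith
    have e2 : -((n - 1 : ℝ) * (c r / s r) * dgf s c W DW l r) -
        (l + n * κ - (n - 1) / s r ^ 2) * (s r * W l r) =
        -((n - 1 : ℝ) * (c r ^ 2 / s r) * W l r) - (n - 1 : ℝ) * c r * DW l r -
        (l + n * κ - (n - 1) / s r ^ 2) * (s r * W l r) := by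
      rw [dgf]
      field_simp
      ring
    rw [e2, e]
    field_simp
    ring
  g_pos := fun r hr => mul_pos (D.s_pos hr) ((key hn D H hl hg).1 r ⟨hr.1.le, hr.2⟩)
  dg_pos := hg'
  dg_anti := dg_anti hn D H hl hg
  ratio_anti := by
    intro a ha b hb hab
    have h1 := D.s_pos ha
    have h2 := D.s_pos hb
    simp only
    rw [mul_div_cancel_left₀ _ h1.ne', mul_div_cancel_left₀ _ h2.ne']
    exact W_anti hn D H hl hg ⟨ha.1.le, ha.2⟩ ⟨hb.1.le, hb.2⟩ hab

lemma exists_cap_aux (hn : 1 ≤ n) (D : Dat κ R s c) (H : Sol n R s W DW) :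
    ∃ (μ : ℝ) (g dg : ℝ → ℝ), CapProfile n κ s c R μ g dg := by
  have hRI : R ∈ Icc 0 R := right_mem_Icc.2 D.hR.le
  rcases eq_or_lt_of_le (D.c_nonneg hRI) with hcR | hcR
  · -- hemisphere case
    have hκ : 0 < κ := by
      rcases eq_or_lt_of_le D.hκ with h | h
      · exfalso
        have := D.sq R
        rw [← h, ← hcR] at this
        norm_num at this
      · exact h
    have hn0 : (0 : ℝ) < n := by exact_mod_cast hn
    refine ⟨0 + n * κ, _, _, mk_profile hn D H le_rfl ?_ ?_ ?_ ?_⟩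
    · intro r hr
      rw [dgf_l_zero D H hr]
      exact D.c_nonneg hr
    · intro r hr
      rw [dgf_l_zero D H ⟨hr.1, hr.2.le⟩]
      exact D.hcp r hr
    · rw [dgf_l_zero D H hRI, ← hcR]
    · rw [zero_add]; positivity
  · set L : Set ℝ := {l | 0 ≤ l ∧ ∀ r ∈ Icc 0 R, 0 < dgf s c W DW l r} with hL
    have hL0 : (0 : ℝ) ∈ L := by
      refine ⟨le_rfl, ?_⟩
      intro r hr
      rw [dgf_l_zero D H hr]
      exact hcR.trans_le (D.c_anti hr hRI hr.2)
    have hLb : BddAbove L := by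
      refine ⟨c R * s R ^ n / ∫ t in (0 : ℝ)..R, s t ^ (n + 1), ?_⟩
      intro l hl
      exact l_bound hn D H hl.1 (fun r hr => (hl.2 r hr).le)
    set l := sSup L with hl
    have hl0 : 0 ≤ l := le_csSup hLb hL0
    have hlc : l ∈ closure L := csSup_mem_closure ⟨0, hL0⟩ hLb
    -- joint continuity, extended
    have hFc : Continuous (fun z : ℝ × ℝ => dgf s c W DW z.1 (projIcc 0 R D.hR.le z.2)) := by
      have hm : Continuous (fun z : ℝ × ℝ => (z.1, (projIcc 0 R D.hR.le z.2 : ℝ))) := by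
        fun_prop
      have hW : Continuous (fun z : ℝ × ℝ => W z.1 (projIcc 0 R D.hR.le z.2)) :=
        H.Wc.comp_continuous hm (fun z => ⟨mem_univ _, (projIcc 0 R D.hR.le z.2).2⟩)
      have hDW : Continuous (fun z : ℝ × ℝ => DW z.1 (projIcc 0 R D.hR.le z.2)) :=
        H.DWc.comp_continuous hm (fun z => ⟨mem_univ _, (projIcc 0 R D.hR.le z.2).2⟩)
      have hp : Continuous (fun z : ℝ × ℝ => (projIcc 0 R D.hR.le z.2 : ℝ)) := by
        fun_prop
      exact ((D.c_cont.comp hp).mul hW).add ((D.s_cont.comp hp).mul hDW)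
    have hpr : ∀ r ∈ Icc 0 R, ((projIcc 0 R D.hR.le r : Icc (0:ℝ) R) : ℝ) = r := by
      intro r hr
      rw [projIcc_of_mem D.hR.le hr]
    have hg : ∀ r ∈ Icc 0 R, 0 ≤ dgf s c W DW l r := by
      intro r hr
      have hcl : IsClosed {l : ℝ | 0 ≤ dgf s c W DW l r} := by
        have h1 : Continuous (fun l : ℝ => dgf s c W DW l r) := by
          have h2 : Continuous (fun l : ℝ => ((l, r) : ℝ × ℝ)) := by fun_prop
          have h3 := hFc.comp h2
          simp only [Function.comp_def, hpr r hr] at h3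
          exact h3
        exact isClosed_le continuous_const h1
      exact closure_minimal (fun x hx => (hx.2 r hr).le) hcl hlc
    -- there is a zero
    have hz : ∃ r ∈ Icc 0 R, dgf s c W DW l r ≤ 0 := by
      by_contra hcon
      push Not at hcon
      have hev : ∀ᶠ x in 𝓝 l, ∀ r ∈ Icc 0 R,
          0 < dgf s c W DW x (projIcc 0 R D.hR.le r) := by
        refine IsCompact.eventually_forall_of_forall_eventually isCompact_Icc ?_
        intro r hr
        have h1 : 0 < dgf s c W DW l (projIcc 0 R D.hR.le r) := by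
          rw [hpr r hr]
          exact hcon r hr
        exact (hFc.tendsto (l, r)).eventually (lt_mem_nhds h1)
      rw [Metric.eventually_nhds_iff] at hev
      obtain ⟨ε, hε, hev⟩ := hev
      have h3 : l + ε / 2 ∈ L := by
        refine ⟨by positivity, ?_⟩
        intro r hr
        have h4 := hev (y := l + ε / 2) (by
          rw [Real.dist_eq, add_sub_cancel_left, abs_of_pos (by positivity)]
          linarith) r hr
        rwa [hpr r hr] at h4
      have := le_csSup hLb h3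
      rw [← hl] at this
      linarith
    obtain ⟨r0, hr0, hr0z⟩ := hz
    have hlpos : 0 < l := by
      rcases eq_or_lt_of_le hl0 with h | h
      · exfalso
        rw [← h, dgf_l_zero D H hr0] at hr0z
        have := hcR.trans_le (D.c_anti hr0 hRI hr0.2)
        linarith
      · exact h
    have hsa := dg_strictAnti hn D H hlpos hg
    have hr0R : r0 = R := by
      by_contra hne
      have hlt : r0 < R := lt_of_le_of_ne hr0.2 hne
      have h1 := hsa hr0 hRI hlt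
      have h2 := hg R hRI
      linarith
    have hgR : dgf s c W DW l R = 0 := by
      rw [hr0R] at hr0z
      exact le_antisymm hr0z (hg R hRI)
    refine ⟨l + n * κ, _, _, mk_profile hn D H hl0 hg ?_ hgR ?_⟩
    · intro r hr
      have h1 := hsa ⟨hr.1, hr.2.le⟩ hRI hr.2
      rwa [hgR] at h1
    · have := mul_nonneg (Nat.cast_nonneg n : (0 : ℝ) ≤ n) D.hκ
      linarith

end OdeCap

/-- Existence of the profile of the first nonzero Neumann eigenfunctions of a ball. -/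
theorem exists_cap {n : ℕ} (hn : 1 ≤ n) {κ R : ℝ} {s c : ℝ → ℝ} (hR : 0 < R) (hκ : 0 ≤ κ)
    (hs0 : s 0 = 0) (hc0 : c 0 = 1) (hs : ∀ r, HasDerivAt s (c r) r)
    (hc : ∀ r, HasDerivAt c (-(κ * s r)) r) (hcp : ∀ r ∈ Ico 0 R, 0 < c r) :
    ∃ (μ : ℝ) (g dg : ℝ → ℝ), CapProfile n κ s c R μ g dg := by
  obtain ⟨W, DW, h1, h2, h3, h4, h5, h6⟩ := exists_w n hR hκ hs0 hc0 hs hc hcp
  exact OdeCap.exists_cap_aux hn ⟨hR, hκ, hs0, hc0, hs, hc, hcp⟩ ⟨h1, h2, h3, h4, h5, h6⟩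

end Pool.Agent.NE
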