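import Pool.Agent.NE.Tools

set_option autoImplicit false

open MeasureTheory Set
open scoped ENNReal

namespace Pool.Agent.NE

namespace OdeWAux

/-- clamp to `[0,R]` -/
noncomputable def P (R r : ℝ) : ℝ := max 0 (min r R)

/-- weighted average operator -/
noncomputable def Lop (n : ℕ) (R : ℝ) (s : ℝ → ℝ) (f : ℝ → ℝ) (r : ℝ) : ℝ :=
  (s (P R r) ^ (n + 1))⁻¹ * ∫ t in (0 : ℝ)..(P R r), s t ^ (n + 1) * f t

/-- iterated integrals -/
noncomputable def Kf (n : ℕ) (R : ℝ) (s : ℝ → ℝ) : ℕ → ℝ → ℝ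
  | 0 => fun _ => 1
  | k + 1 => fun r => ∫ t in (0 : ℝ)..r, Lop n R s (Kf n R s k) t

theorem P_eq {R r : ℝ} (h : r ∈ Icc 0 R) : P R r = r := by
  unfold P
  rw [min_eq_left h.2, max_eq_right h.1]

theorem P_mem {R : ℝ} (hR : 0 < R) (r : ℝ) : P R r ∈ Icc 0 R :=
  ⟨le_max_left _ _, max_le hR.le (min_le_right _ _)⟩

theorem P_cont (R : ℝ) : Continuous (P R) := by
  unfold P
  exact continuous_const.max (continuous_id.min continuous_const)

section

variable {n : ℕ} {R : ℝ} {s : ℝ → ℝ}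

/-- properties of the warping function that are used -/
structure Warp (R : ℝ) (s : ℝ → ℝ) : Prop where
  R_pos : 0 < R
  cont : Continuous s
  zero : s 0 = 0
  mono : StrictMonoOn s (Icc 0 R)

theorem Warp.pos (h : Warp R s) {r : ℝ} (hr : r ∈ Ioc 0 R) : 0 < s r := by
  have := h.mono ⟨le_rfl, h.R_pos.le⟩ ⟨hr.1.le, hr.2⟩ hr.1
  rwa [h.zero] at this

theorem Warp.nonneg (h : Warp R s) {r : ℝ} (hr : r ∈ Icc 0 R) : 0 ≤ s r := by
  have := h.mono.monotoneOn ⟨le_rfl, h.R_pos.le⟩ hr hr.1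
  rwa [h.zero] at this

theorem Lop_bound (h : Warp R s) {f m : ℝ → ℝ} (hm : Continuous m)
    {r : ℝ} (hr : r ∈ Icc 0 R) (hfm : ∀ t ∈ Icc 0 r, |f t| ≤ m t) :
    |Lop n R s f r| ≤ ∫ t in (0 : ℝ)..r, m t := by
  unfold Lop
  rw [P_eq hr]
  rcases eq_or_lt_of_le hr.1 with h0 | h0
  · rw [← h0]; simp
  · have hsr : 0 < s r := h.pos ⟨h0, hr.2⟩
    have hp : 0 < s r ^ (n + 1) := by positivity
    have h1 : ‖∫ t in (0 : ℝ)..r, s t ^ (n + 1) * f t‖ ≤
        ∫ t in (0 : ℝ)..r, s r ^ (n + 1) * m t := by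
      apply intervalIntegral.norm_integral_le_of_norm_le hr.1
      · refine Filter.Eventually.of_forall fun t ht => ?_
        have htR : t ∈ Icc 0 R := ⟨ht.1.le, ht.2.trans hr.2⟩
        have h2 : 0 ≤ s t := h.nonneg htR
        have h3 : s t ≤ s r := h.mono.monotoneOn htR hr ht.2
        rw [norm_mul, Real.norm_eq_abs, Real.norm_eq_abs, abs_of_nonneg (pow_nonneg h2 _)]
        exact mul_le_mul (pow_le_pow_left₀ h2 h3 _) (hfm t ⟨ht.1.le, ht.2⟩) (abs_nonneg _)
          hp.le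
      · exact (continuous_const.mul hm).intervalIntegrable _ _
    rw [intervalIntegral.integral_const_mul, Real.norm_eq_abs] at h1
    rw [abs_mul, abs_inv, abs_of_pos hp]
    calc (s r ^ (n + 1))⁻¹ * |∫ t in (0 : ℝ)..r, s t ^ (n + 1) * f t|
        ≤ (s r ^ (n + 1))⁻¹ * (s r ^ (n + 1) * ∫ t in (0 : ℝ)..r, m t) :=
          mul_le_mul_of_nonneg_left h1 (inv_nonneg.2 hp.le)
      _ = ∫ t in (0 : ℝ)..r, m t := by
          rw [← mul_assoc, inv_mul_cancel₀ hp.ne', one_mul]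

theorem Lop_cont (h : Warp R s) {f : ℝ → ℝ} (hf : Continuous f) : Continuous (Lop n R s f) := by
  have key : ContinuousOn (fun r => (s r ^ (n + 1))⁻¹ * ∫ t in (0 : ℝ)..r, s t ^ (n + 1) * f t)
      (Icc 0 R) := by
    intro r hr
    rcases eq_or_lt_of_le hr.1 with h0 | h0
    · -- at zero
      subst h0
      obtain ⟨M, hM⟩ := (isCompact_Icc : IsCompact (Icc 0 R)).exists_bound_of_continuousOn
        hf.continuousOn
      have hz : (s 0 ^ (n + 1))⁻¹ * ∫ t in (0 : ℝ)..0, s t ^ (n + 1) * f t = 0 := by simp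
      rw [ContinuousWithinAt, hz]
      have hb : ∀ r ∈ Icc 0 R,
          |(s r ^ (n + 1))⁻¹ * ∫ t in (0 : ℝ)..r, s t ^ (n + 1) * f t| ≤ M * r := by
        intro r hr
        have h1 := Lop_bound (n := n) h (f := f) (m := fun _ => M) continuous_const hr
          (fun t ht => hM t ⟨ht.1, ht.2.trans hr.2⟩)
        unfold Lop at h1
        rw [P_eq hr] at h1
        refine h1.trans (le_of_eq ?_)
        simp [mul_comm]
      refine squeeze_zero_norm' (a := fun r => M * r) ?_ ?_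
      · filter_upwards [self_mem_nhdsWithin] with r hr using hb r hr
      · have : Filter.Tendsto (fun r : ℝ => M * r) (nhdsWithin 0 (Icc 0 R)) (nhds (M * 0)) :=
          ((continuous_const.mul continuous_id).tendsto 0).mono_left nhdsWithin_le_nhds
        simpa using this
    · have hsr : 0 < s r := h.pos ⟨h0, hr.2⟩
      have hint : Continuous fun r => ∫ t in (0 : ℝ)..r, s t ^ (n + 1) * f t :=
        intervalIntegral.continuous_primitive
          (fun a b => ((h.cont.pow _).mul hf).intervalIntegrable a b) 0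
      have h1 : ContinuousAt (fun r => (s r ^ (n + 1))⁻¹ * ∫ t in (0 : ℝ)..r, s t ^ (n + 1) * f t)
          r :=
        ((h.cont.pow _).continuousAt.inv₀ (pow_ne_zero _ hsr.ne')).mul hint.continuousAt
      exact h1.continuousWithinAt
  exact key.comp_continuous (P_cont R) (fun r => P_mem h.R_pos r)

theorem Kf_cont (h : Warp R s) (k : ℕ) : Continuous (Kf n R s k) := by
  induction k with
  | zero => exact continuous_const
  | succ k ih =>
    exact intervalIntegral.continuous_primitive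
      (fun a b => (Lop_cont h ih).intervalIntegrable a b) 0

theorem integral_pow_fact (k : ℕ) (r : ℝ) :
    ∫ t in (0 : ℝ)..r, t ^ k / (k.factorial : ℝ) = r ^ (k + 1) / ((k + 1).factorial : ℝ) := by
  rw [intervalIntegral.integral_div, integral_pow]
  have : (k.factorial : ℝ) ≠ 0 := by positivity
  have h2 : (k + 1 : ℝ) ≠ 0 := by positivity
  rw [Nat.factorial_succ]
  push_cast
  field_simp
  simp

theorem Kf_bound (h : Warp R s) (k : ℕ) : ∀ r ∈ Icc 0 R,
    |Kf n R s k r| ≤ r ^ (2 * k) / ((2 * k).factorial : ℝ) := by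
  induction k with
  | zero => intro r _; simp [Kf]
  | succ k ih =>
    intro r hr
    have h1 : ∀ t ∈ Icc 0 r, |Lop n R s (Kf n R s k) t| ≤
        t ^ (2 * k + 1) / ((2 * k + 1).factorial : ℝ) := by
      intro t ht
      have h2 := Lop_bound (n := n) h (f := Kf n R s k)
        (m := fun t => t ^ (2 * k) / ((2 * k).factorial : ℝ)) (by fun_prop)
        (r := t) ⟨ht.1, ht.2.trans hr.2⟩
        (fun u hu => ih u ⟨hu.1, hu.2.trans (ht.2.trans hr.2)⟩)
      rwa [integral_pow_fact] at h2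
    have h3 : ‖∫ t in (0 : ℝ)..r, Lop n R s (Kf n R s k) t‖ ≤
        ∫ t in (0 : ℝ)..r, t ^ (2 * k + 1) / ((2 * k + 1).factorial : ℝ) := by
      apply intervalIntegral.norm_integral_le_of_norm_le hr.1
      · exact Filter.Eventually.of_forall fun t ht => h1 t ⟨ht.1.le, ht.2⟩
      · exact Continuous.intervalIntegrable (by fun_prop) _ _
    rw [integral_pow_fact] at h3
    exact h3

theorem Lop_Kf_bound (h : Warp R s) (k : ℕ) : ∀ r ∈ Icc 0 R,
    |Lop n R s (Kf n R s k) r| ≤ r ^ (2 * k + 1) / ((2 * k + 1).factorial : ℝ) := by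
  intro r hr
  have h2 := Lop_bound (n := n) h (f := Kf n R s k)
    (m := fun t => t ^ (2 * k) / ((2 * k).factorial : ℝ)) (by fun_prop) hr
    (fun u hu => Kf_bound h k u ⟨hu.1, hu.2.trans hr.2⟩)
  rwa [integral_pow_fact] at h2

/-- the uniform bounds -/
noncomputable def ub (R M : ℝ) (k : ℕ) : ℝ := (M + 1) ^ (2 * k) * (R + 1) ^ (2 * k) / ((2 * k).factorial : ℝ)

noncomputable def ub' (R M : ℝ) (k : ℕ) : ℝ :=
  (M + 1) ^ (2 * k + 1) * (R + 1) ^ (2 * k + 1) / ((2 * k + 1).factorial : ℝ)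

theorem summable_ub (R M : ℝ) : Summable (ub R M) := by
  have h := Real.summable_pow_div_factorial ((M + 1) * (R + 1))
  have h2 := h.comp_injective (i := fun k : ℕ => 2 * k) (fun a b hab => by simpa using hab)
  refine h2.congr fun k => ?_
  simp [ub, mul_pow]

theorem summable_ub' (R M : ℝ) : Summable (ub' R M) := by
  have h := Real.summable_pow_div_factorial ((M + 1) * (R + 1))
  have h2 := h.comp_injective (i := fun k : ℕ => 2 * k + 1) (fun a b hab => by simpa using hab)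
  refine h2.congr fun k => ?_
  simp [ub', mul_pow]

theorem term_bound (h : Warp R s) (k : ℕ) {l M r : ℝ} (hl : |l| ≤ M) (hr : r ∈ Icc 0 R) :
    |(-l) ^ k * Kf n R s k r| ≤ ub R M k := by
  have hM : 0 ≤ M := (abs_nonneg l).trans hl
  have h1 : |(-l) ^ k| ≤ (M + 1) ^ (2 * k) := by
    rw [abs_pow, abs_neg]
    calc |l| ^ k ≤ (M + 1) ^ k := pow_le_pow_left₀ (abs_nonneg _) (by linarith) _
      _ ≤ (M + 1) ^ (2 * k) := pow_le_pow_right₀ (by linarith) (by omega)
  have h2 : |Kf n R s k r| ≤ (R + 1) ^ (2 * k) / ((2 * k).factorial : ℝ) :=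
    (Kf_bound h k r hr).trans (by
      gcongr
      · exact hr.1
      · linarith [hr.2])
  rw [abs_mul, ub, mul_div_assoc]
  exact mul_le_mul h1 h2 (abs_nonneg _) (by positivity)

theorem term_bound' (h : Warp R s) (k : ℕ) {l M r : ℝ} (hl : |l| ≤ M) (hr : r ∈ Icc 0 R) :
    |(-l) ^ (k + 1) * Lop n R s (Kf n R s k) r| ≤ ub' R M k := by
  have hM : 0 ≤ M := (abs_nonneg l).trans hl
  have h1 : |(-l) ^ (k + 1)| ≤ (M + 1) ^ (2 * k + 1) := by
    rw [abs_pow, abs_neg]
    calc |l| ^ (k + 1) ≤ (M + 1) ^ (k + 1) := pow_le_pow_left₀ (abs_nonneg _) (by linarith) _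
      _ ≤ (M + 1) ^ (2 * k + 1) := pow_le_pow_right₀ (by linarith) (by omega)
  have h2 : |Lop n R s (Kf n R s k) r| ≤ (R + 1) ^ (2 * k + 1) / ((2 * k + 1).factorial : ℝ) :=
    (Lop_Kf_bound h k r hr).trans (by
      gcongr
      · exact hr.1
      · linarith [hr.2])
  rw [abs_mul, ub', mul_div_assoc]
  exact mul_le_mul h1 h2 (abs_nonneg _) (by positivity)

/-- the solution -/
noncomputable def W (n : ℕ) (R : ℝ) (s : ℝ → ℝ) (l r : ℝ) : ℝ := ∑' k, (-l) ^ k * Kf n R s k r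

/-- its derivative -/
noncomputable def DW (n : ℕ) (R : ℝ) (s : ℝ → ℝ) (l r : ℝ) : ℝ :=
  ∑' k, (-l) ^ (k + 1) * Lop n R s (Kf n R s k) r

theorem W_summable (h : Warp R s) (l : ℝ) {r : ℝ} (hr : r ∈ Icc 0 R) :
    Summable fun k => (-l) ^ k * Kf n R s k r :=
  Summable.of_norm_bounded (summable_ub R |l|) fun k => term_bound h k le_rfl hr

theorem DW_summable (h : Warp R s) (l : ℝ) {r : ℝ} (hr : r ∈ Icc 0 R) :
    Summable fun k => (-l) ^ (k + 1) * Lop n R s (Kf n R s k) r :=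
  Summable.of_norm_bounded (summable_ub' R |l|) fun k => term_bound' h k le_rfl hr

theorem cont_aux {F : ℝ × ℝ → ℝ} (hF : ∀ M : ℝ, 0 < M → ContinuousOn F (Ioo (-M) M ×ˢ Icc 0 R)) :
    ContinuousOn F (univ ×ˢ Icc 0 R) := by
  intro z hz
  have h1 : z ∈ Ioo (-(|z.1| + 1)) (|z.1| + 1) ×ˢ Icc 0 R := by
    refine ⟨⟨?_, ?_⟩, hz.2⟩
    · linarith [neg_abs_le z.1]
    · linarith [le_abs_self z.1]
  have h2 := hF (|z.1| + 1) (by positivity) z h1
  refine h2.mono_of_mem_nhdsWithin ?_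
  have h3 : Ioo (-(|z.1| + 1)) (|z.1| + 1) ×ˢ Icc 0 R =
      (Ioo (-(|z.1| + 1)) (|z.1| + 1) ×ˢ (univ : Set ℝ)) ∩ (univ ×ˢ Icc 0 R) := by
    ext ⟨a, b⟩; simp
  rw [h3]
  refine Filter.inter_mem (mem_nhdsWithin_of_mem_nhds ?_) self_mem_nhdsWithin
  exact (isOpen_Ioo.prod isOpen_univ).mem_nhds ⟨h1.1, mem_univ _⟩

theorem W_cont (h : Warp R s) :
    ContinuousOn (fun z : ℝ × ℝ => W n R s z.1 z.2) (univ ×ˢ Icc 0 R) := by
  refine cont_aux fun M hM => ?_
  refine continuousOn_tsum (u := ub R M) (fun k => ?_) (summable_ub R M) fun k z hz => ?_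
  · exact (((continuous_fst.neg).pow k).mul ((Kf_cont h k).comp continuous_snd)).continuousOn
  · exact term_bound h k (abs_le.2 ⟨hz.1.1.le, hz.1.2.le⟩) hz.2

theorem DW_cont (h : Warp R s) :
    ContinuousOn (fun z : ℝ × ℝ => DW n R s z.1 z.2) (univ ×ˢ Icc 0 R) := by
  refine cont_aux fun M hM => ?_
  refine continuousOn_tsum (u := ub' R M) (fun k => ?_) (summable_ub' R M) fun k z hz => ?_
  · exact (((continuous_fst.neg).pow (k + 1)).mul
      ((Lop_cont h (Kf_cont h k)).comp continuous_snd)).continuousOn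
  · exact term_bound' h k (abs_le.2 ⟨hz.1.1.le, hz.1.2.le⟩) hz.2

theorem Lop_zero (h : Warp R s) (f : ℝ → ℝ) : Lop n R s f 0 = 0 := by
  unfold Lop
  rw [P_eq ⟨le_rfl, h.R_pos.le⟩]
  simp

theorem Kf_zero (k : ℕ) : Kf n R s (k + 1) 0 = 0 := by
  simp [Kf]

theorem W_zero (h : Warp R s) (l : ℝ) : W n R s l 0 = 1 := by
  unfold W
  rw [(W_summable h l ⟨le_rfl, h.R_pos.le⟩).tsum_eq_zero_add]
  simp only [pow_zero, one_mul, Kf_zero, mul_zero, tsum_zero, add_zero]
  rfl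

theorem DW_zero (h : Warp R s) (l : ℝ) : DW n R s l 0 = 0 := by
  unfold DW
  simp [Lop_zero h]

theorem Kf_deriv (h : Warp R s) (k : ℕ) (r : ℝ) :
    HasDerivAt (Kf n R s (k + 1)) (Lop n R s (Kf n R s k) r) r := by
  have hc := Lop_cont (n := n) h (Kf_cont (n := n) h k)
  exact intervalIntegral.integral_hasDerivAt_right (hc.intervalIntegrable _ _)
    (hc.stronglyMeasurableAtFilter _ _) hc.continuousAt

theorem W_deriv (h : Warp R s) (l : ℝ) {r : ℝ} (hr : r ∈ Ioo 0 R) :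
    HasDerivAt (W n R s l) (DW n R s l r) r := by
  have h1 : HasDerivAt (fun r => ∑' k, (-l) ^ (k + 1) * Kf n R s (k + 1) r) (DW n R s l r) r := by
    unfold DW
    refine hasDerivAt_tsum_of_isPreconnected (summable_ub' R |l|) isOpen_Ioo isPreconnected_Ioo
      (g := fun k r => (-l) ^ (k + 1) * Kf n R s (k + 1) r)
      (g' := fun k r => (-l) ^ (k + 1) * Lop n R s (Kf n R s k) r)
      (fun k y _ => (Kf_deriv h k y).const_mul _)
      (fun k y hy => term_bound' h k le_rfl ⟨hy.1.le, hy.2.le⟩) hr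
      ((W_summable h l ⟨hr.1.le, hr.2.le⟩).comp_injective (Nat.succ_injective)) hr
  have h2 := h1.const_add (1 : ℝ)
  refine h2.congr_of_eventuallyEq ?_
  filter_upwards [isOpen_Ioo.mem_nhds hr] with y hy
  unfold W
  rw [(W_summable h l ⟨hy.1.le, hy.2.le⟩).tsum_eq_zero_add]
  simp [Kf]

theorem W_eq (h : Warp R s) (l : ℝ) {r : ℝ} (hr : r ∈ Icc 0 R) :
    s r ^ (n + 1) * DW n R s l r = -(l * ∫ t in (0 : ℝ)..r, s t ^ (n + 1) * W n R s l t) := by
  have h1 : ∀ k, s r ^ (n + 1) * ((-l) ^ (k + 1) * Lop n R s (Kf n R s k) r) =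
      (-l) * ∫ t in (0 : ℝ)..r, s t ^ (n + 1) * ((-l) ^ k * Kf n R s k t) := by
    intro k
    have h2 : s r ^ (n + 1) * Lop n R s (Kf n R s k) r =
        ∫ t in (0 : ℝ)..r, s t ^ (n + 1) * Kf n R s k t := by
      unfold Lop
      rw [P_eq hr]
      rcases eq_or_lt_of_le hr.1 with h0 | h0
      · rw [← h0]; simp
      · have hsr : 0 < s r := h.pos ⟨h0, hr.2⟩
        rw [← mul_assoc, mul_inv_cancel₀ (pow_ne_zero _ hsr.ne'), one_mul]
    have h3 : (fun t => s t ^ (n + 1) * ((-l) ^ k * Kf n R s k t)) =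
        fun t => (-l) ^ k * (s t ^ (n + 1) * Kf n R s k t) := by
      ext t; ring
    rw [h3, intervalIntegral.integral_const_mul, ← h2]
    ring
  obtain ⟨C, hC⟩ := (isCompact_Icc : IsCompact (Icc 0 R)).exists_bound_of_continuousOn
    ((h.cont.pow (n + 1)).continuousOn)
  have hs : HasSum (fun k => ∫ t in (0 : ℝ)..r, s t ^ (n + 1) * ((-l) ^ k * Kf n R s k t))
      (∫ t in (0 : ℝ)..r, s t ^ (n + 1) * W n R s l t) := by
    refine intervalIntegral.hasSum_integral_of_dominated_convergence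
      (fun k _ => C * ub R |l| k) (fun k => ?_) (fun k => ?_) ?_ ?_ ?_
    · exact (((h.cont.pow _).mul (continuous_const.mul (Kf_cont h k))).aestronglyMeasurable)
    · refine Filter.Eventually.of_forall fun t ht => ?_
      rw [uIoc_of_le hr.1] at ht
      have htR : t ∈ Icc 0 R := ⟨ht.1.le, ht.2.trans hr.2⟩
      rw [norm_mul]
      exact mul_le_mul (hC t htR) (term_bound h k le_rfl htR) (norm_nonneg _)
        ((norm_nonneg _).trans (hC t htR))
    · exact Filter.Eventually.of_forall fun t _ => (summable_ub R |l|).mul_left C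
    · exact intervalIntegrable_const
    · refine Filter.Eventually.of_forall fun t ht => ?_
      rw [uIoc_of_le hr.1] at ht
      have htR : t ∈ Icc 0 R := ⟨ht.1.le, ht.2.trans hr.2⟩
      exact (W_summable h l htR).hasSum.mul_left _
  unfold DW
  rw [← tsum_mul_left]
  simp only [h1]
  rw [tsum_mul_left, hs.tsum_eq]
  ring

end

end OdeWAux

/-- Solutions of `(s^{n+1} w')' = - l s^{n+1} w`, `w(0) = 1`, `w'(0) = 0`, depending continuously on
the parameter `l`, given by a power series in `l`. -/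
theorem exists_w (n : ℕ) {κ R : ℝ} {s c : ℝ → ℝ} (hR : 0 < R) (hκ : 0 ≤ κ) (hs0 : s 0 = 0)
    (hc0 : c 0 = 1) (hs : ∀ r, HasDerivAt s (c r) r) (hc : ∀ r, HasDerivAt c (-(κ * s r)) r)
    (hcp : ∀ r ∈ Ico 0 R, 0 < c r) :
    ∃ W DW : ℝ → ℝ → ℝ,
      ContinuousOn (fun z : ℝ × ℝ => W z.1 z.2) (univ ×ˢ Icc 0 R) ∧
      ContinuousOn (fun z : ℝ × ℝ => DW z.1 z.2) (univ ×ˢ Icc 0 R) ∧
      (∀ l, W l 0 = 1) ∧ (∀ l, DW l 0 = 0) ∧
      (∀ l, ∀ r ∈ Ioo 0 R, HasDerivAt (W l) (DW l r) r) ∧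
      (∀ l, ∀ r ∈ Icc 0 R, s r ^ (n + 1) * DW l r =
        -(l * ∫ t in (0 : ℝ)..r, s t ^ (n + 1) * W l t)) := by
  have hcont : Continuous s := continuous_iff_continuousAt.2 fun r => (hs r).continuousAt
  have hw : OdeWAux.Warp R s := by
    refine ⟨hR, hcont, hs0, ?_⟩
    refine strictMonoOn_of_deriv_pos (convex_Icc 0 R) hcont.continuousOn fun r hr => ?_
    rw [interior_Icc] at hr
    rw [(hs r).deriv]
    exact hcp r ⟨hr.1.le, hr.2⟩
  exact ⟨OdeWAux.W n R s, OdeWAux.DW n R s, OdeWAux.W_cont hw, OdeWAux.DW_cont hw,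
    OdeWAux.W_zero hw, OdeWAux.DW_zero hw, fun l r hr => OdeWAux.W_deriv hw l hr,
    fun l r hr => OdeWAux.W_eq hw l hr⟩

end Pool.Agent.NE
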