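import Pool.Agent.NE.OneD

set_option autoImplicit false

open MeasureTheory Set
open scoped ENNReal

namespace Pool.Agent.NE

variable {n : ℕ} {κ R μ : ℝ} {s c g dg : ℝ → ℝ}

private theorem s_pos (h : CapProfile n κ s c R μ g dg) : ∀ r ∈ Ioc 0 R, 0 < s r := by
  have hmono : StrictMonoOn s (Icc 0 R) := by
    apply strictMonoOn_of_deriv_pos (convex_Icc 0 R)
    · exact fun r _ => (h.s_deriv r).continuousAt.continuousWithinAt
    · intro r hr
      rw [interior_Icc] at hr
      rw [(h.s_deriv r).deriv]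
      exact h.c_pos r ⟨hr.1.le, hr.2⟩
  intro r hr
  have := hmono (left_mem_Icc.2 h.R_pos.le) ⟨hr.1.le, hr.2⟩ hr.1
  rwa [h.s_zero] at this

private theorem c_sq (h : CapProfile n κ s c R μ g dg) (r : ℝ) : c r ^ 2 + κ * s r ^ 2 = 1 := by
  have hd : ∀ x, HasDerivAt (fun x => c x ^ 2 + κ * s x ^ 2) 0 x := by
    intro x
    have h1 := ((h.c_deriv x).pow 2).add (((h.s_deriv x).pow 2).const_mul κ)
    refine h1.congr_deriv ?_
    push_cast
    ring
  have hc : c r ^ 2 + κ * s r ^ 2 = c 0 ^ 2 + κ * s 0 ^ 2 :=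
    is_const_of_deriv_eq_zero (f := fun x => c x ^ 2 + κ * s x ^ 2)
      (fun x => (hd x).differentiableAt) (fun x => (hd x).deriv) r 0
  rw [hc, h.c_zero, h.s_zero]
  ring

/-- One-dimensional Poincare inequality for radial functions. -/
theorem radial (hn : 1 ≤ n) (h : CapProfile n κ s c R μ g dg) (f df : ℝ → ℝ)
    (hf : ContinuousOn f (Icc 0 R)) (hd : ∀ r ∈ Ioo 0 R, HasDerivAt f (df r) r)
    (hdf : ContinuousOn df (Icc 0 R)) (h0 : ∫ r in (0 : ℝ)..R, f r * s r ^ (n - 1) = 0) :
    μ * ∫ r in (0 : ℝ)..R, f r ^ 2 * s r ^ (n - 1) ≤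
      ∫ r in (0 : ℝ)..R, df r ^ 2 * s r ^ (n - 1) := by
  have hR := h.R_pos
  have hsp := s_pos h
  have hcs := c_sq h
  have hsc : Continuous s := continuous_iff_continuousAt.2 fun r => (h.s_deriv r).continuousAt
  have hcc : Continuous c := continuous_iff_continuousAt.2 fun r => (h.c_deriv r).continuousAt
  have hs0 := h.s_zero
  have hc0 := h.c_zero
  have hardy' := fun F dF h1 h2 h3 h4 => hardy hn h F dF h1 h2 h3 h4
  have hsd := h.s_deriv
  have hcd := h.c_deriv
  have hcp := h.c_pos
  have hμ := h.μ_pos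
  clear h
  obtain ⟨m, rfl⟩ : ∃ m, n = m + 1 := ⟨n - 1, by omega⟩
  simp only [Nat.add_sub_cancel] at *
  have hcast : ((m + 1 : ℕ) : ℝ) - 1 = m := by push_cast; ring
  rw [hcast] at hardy'
  -- the primitive
  set G : ℝ → ℝ := fun r => ∫ t in (0 : ℝ)..r, f t * s t ^ m with hG
  have hfs : ContinuousOn (fun t => f t * s t ^ m) (Icc 0 R) := hf.mul (hsc.pow m).continuousOn
  have huIcc : uIcc 0 R = Icc 0 R := uIcc_of_le hR.le
  have hGc : ContinuousOn G (Icc 0 R) := by
    have := intervalIntegral.continuousOn_primitive_interval (μ := volume) (a := 0) (b := R)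
      (f := fun t => f t * s t ^ m) (by rw [huIcc]; exact hfs.integrableOn_Icc)
    rwa [huIcc] at this
  have hG0 : G 0 = 0 := by simp [hG]
  have hGR : G R = 0 := h0
  have hGd : ∀ r ∈ Ioo 0 R, HasDerivAt G (f r * s r ^ m) r := by
    intro r hr
    have hopen : ContinuousOn (fun t => f t * s t ^ m) (Ioo 0 R) := hfs.mono Ioo_subset_Icc_self
    apply intervalIntegral.integral_hasDerivAt_right
    · apply ContinuousOn.intervalIntegrable
      rw [uIcc_of_le hr.1.le]
      exact hfs.mono (Icc_subset_Icc_right hr.2.le)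
    · exact hopen.stronglyMeasurableAtFilter isOpen_Ioo r hr
    · exact hopen.continuousAt (Ioo_mem_nhds hr.1 hr.2)
  -- the quotient
  set q : ℝ → ℝ := fun r => if r = 0 then f 0 / (m + 1) else G r / s r ^ (m + 1) with hq
  have hqd : ∀ r ∈ Ioo 0 R, HasDerivAt q (f r / s r - (m + 1) * c r * q r / s r) r := by
    intro r hr
    have hsr := hsp r ⟨hr.1, hr.2.le⟩
    have h1 := (hGd r hr).div ((hsd r).pow (m + 1)) (pow_pos hsr _).ne'
    have h2 : q =ᶠ[nhds r] fun r => G r / s r ^ (m + 1) := by
      filter_upwards [eventually_ne_nhds hr.1.ne'] with x hx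
      simp [hq, hx]
    refine HasDerivAt.congr_of_eventuallyEq ?_ h2
    refine h1.congr_deriv ?_
    simp only [hq, hr.1.ne', if_false, Nat.add_sub_cancel, Pi.pow_apply]
    push_cast
    field_simp
    ring
  have hqc : ContinuousOn q (Icc 0 R) := by
    intro r hr
    rcases eq_or_lt_of_le hr.1 with hr0 | hr0
    · rw [← hr0]
      have hlim : Filter.Tendsto (fun r => G r / s r ^ (m + 1)) (nhdsWithin 0 (Ioi 0))
          (nhds (f 0 / (m + 1))) := by
        apply HasDerivAt.lhopital_zero_right_on_Ioo (a := 0) (b := R) hR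
          (f' := fun r => f r * s r ^ m) (g' := fun r => (m + 1) * s r ^ m * c r)
        · exact hGd
        · intro x hx
          have := (hsd x).pow (m + 1)
          refine this.congr_deriv ?_
          simp
        · intro x hx
          have h1 := hsp x ⟨hx.1, hx.2.le⟩
          have h2 := hcp x ⟨hx.1.le, hx.2⟩
          positivity
        · have := hGc 0 (left_mem_Icc.2 hR.le)
          have h2 : Filter.Tendsto G (nhdsWithin 0 (Ioo 0 R)) (nhds (G 0)) :=
            this.tendsto.mono_left (nhdsWithin_mono _ Ioo_subset_Icc_self)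
          rw [hG0] at h2
          rwa [nhdsWithin_Ioo_eq_nhdsGT hR] at h2
        · have h2 : Filter.Tendsto (fun r => s r ^ (m + 1)) (nhds 0) (nhds (s 0 ^ (m + 1))) :=
            (hsc.pow (m + 1)).continuousAt
          rw [hs0, zero_pow (Nat.succ_ne_zero m)] at h2
          exact h2.mono_left nhdsWithin_le_nhds
        · have h2 : Filter.Tendsto (fun r => f r / ((m + 1) * c r)) (nhdsWithin 0 (Ioo 0 R))
              (nhds (f 0 / ((m + 1) * c 0))) := by
            apply Filter.Tendsto.div
            · exact (hf 0 (left_mem_Icc.2 hR.le)).tendsto.mono_left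
                (nhdsWithin_mono _ Ioo_subset_Icc_self)
            · exact ((hcc.continuousAt (x := 0)).tendsto.const_mul _).mono_left nhdsWithin_le_nhds
            · rw [hc0]
              positivity
          rw [hc0, mul_one, nhdsWithin_Ioo_eq_nhdsGT hR] at h2
          refine h2.congr' ?_
          have h3 : Ioo 0 R ∈ nhdsWithin (0 : ℝ) (Ioi 0) := Ioo_mem_nhdsGT hR
          filter_upwards [h3] with x hx
          have h1 := hsp x ⟨hx.1, hx.2.le⟩
          have h2 := hcp x ⟨hx.1.le, hx.2⟩
          field_simp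
      have hcw : ContinuousWithinAt q (Ioi 0) 0 := by
        have hq0 : q 0 = f 0 / (m + 1) := by simp [hq]
        unfold ContinuousWithinAt
        rw [hq0]
        refine hlim.congr' ?_
        filter_upwards [self_mem_nhdsWithin] with x hx
        simp [hq, (mem_Ioi.1 hx).ne']
      exact (continuousWithinAt_Ioi_iff_Ici.1 hcw).mono Icc_subset_Ici_self
    · have hsr := hsp r ⟨hr0, hr.2⟩
      have h1 : ContinuousWithinAt (fun r => G r / s r ^ (m + 1)) (Icc 0 R) r :=
        (hGc r hr).div ((hsc.pow (m + 1)).continuousWithinAt) (pow_pos hsr _).ne'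
      refine h1.congr_of_eventuallyEq ?_ (by simp [hq, hr0.ne'])
      filter_upwards [mem_nhdsWithin_of_mem_nhds (eventually_ne_nhds hr0.ne')] with x hx
      have hx' : x ≠ 0 := hx
      simp [hq, hx']
  have hqR : q R = 0 := by simp [hq, hR.ne', hGR]
  -- the function F = s q
  have hFd : ∀ r ∈ Ioo 0 R, HasDerivAt (fun r => s r * q r) (f r - m * c r * q r) r := by
    intro r hr
    have hsr := hsp r ⟨hr.1, hr.2.le⟩
    have h1 := (hsd r).mul (hqd r hr)
    refine h1.congr_deriv ?_
    field_simp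
    ring
  have hdFc : ContinuousOn (fun r => f r - m * c r * q r) (Icc 0 R) :=
    hf.sub ((continuousOn_const.mul hcc.continuousOn).mul hqc)
  have hFc : ContinuousOn (fun r => s r * q r) (Icc 0 R) := hsc.continuousOn.mul hqc
  have hH := hardy' _ _ hFc hFd hdFc (by simp [hs0])
  -- first identity
  have hI1 : ∫ r in (0 : ℝ)..R, ((f r - m * c r * q r) ^ 2 + m * (s r * q r / s r) ^ 2) * s r ^ m =
      ∫ r in (0 : ℝ)..R, f r ^ 2 * s r ^ m := by
    have e1 : ∫ r in (0 : ℝ)..R, ((f r - m * c r * q r) ^ 2 + m * (s r * q r / s r) ^ 2) * s r ^ m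
        = ∫ r in (0 : ℝ)..R, ((f r - m * c r * q r) ^ 2 + m * q r ^ 2) * s r ^ m := by
      apply intervalIntegral.integral_congr_ae
      refine Filter.Eventually.of_forall fun r hr => ?_
      rw [uIoc_of_le hR.le] at hr
      have hsr := hsp r hr
      rw [mul_div_cancel_left₀ _ hsr.ne']
    rw [e1]
    have hc1 : ContinuousOn (fun r => ((f r - m * c r * q r) ^ 2 + m * q r ^ 2) * s r ^ m)
        (Icc 0 R) :=
      ((hdFc.pow 2).add (continuousOn_const.mul (hqc.pow 2))).mul (hsc.pow m).continuousOn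
    have hc2 : ContinuousOn (fun r => f r ^ 2 * s r ^ m) (Icc 0 R) :=
      (hf.pow 2).mul (hsc.pow m).continuousOn
    have hi1 := hc1.intervalIntegrable_of_Icc (μ := volume) hR.le
    have hi2 := hc2.intervalIntegrable_of_Icc (μ := volume) hR.le
    have hΦ := intervalIntegral.integral_eq_sub_of_hasDerivAt_of_le hR.le
      (f := fun r => m * c r * (s r ^ (m + 1) * q r ^ 2))
      (f' := fun r => f r ^ 2 * s r ^ m - ((f r - m * c r * q r) ^ 2 + m * q r ^ 2) * s r ^ m)
      ((continuousOn_const.mul hcc.continuousOn).mul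
        ((hsc.pow (m + 1)).continuousOn.mul (hqc.pow 2))) ?_ (hi2.sub hi1)
    · rw [intervalIntegral.integral_sub hi2 hi1] at hΦ
      simp only [hqR, hs0, zero_pow (Nat.succ_ne_zero m)] at hΦ
      norm_num at hΦ
      linarith
    · intro r hr
      have hsr := hsp r ⟨hr.1, hr.2.le⟩
      have h1 := ((hcd r).const_mul (m : ℝ)).mul
        (((hsd r).pow (m + 1)).mul ((hqd r hr).pow 2))
      refine h1.congr_deriv ?_
      have h2 := hcs r
      have h3 : κ * s r ^ 2 = 1 - c r ^ 2 := by linarith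
      have e2 : (m : ℝ) * -(κ * s r) * (s r ^ (m + 1) * q r ^ 2) =
          -(m * (κ * s r ^ 2) * s r ^ m * q r ^ 2) := by ring
      simp only [Pi.mul_apply, Pi.pow_apply, Nat.add_sub_cancel]
      rw [e2, h3]
      push_cast
      field_simp
      ring
  -- second identity
  have hI2 : ∫ r in (0 : ℝ)..R, f r ^ 2 * s r ^ m =
      -∫ r in (0 : ℝ)..R, df r * (s r * q r) * s r ^ m := by
    have hc1 : ContinuousOn (fun r => df r * (s r * q r) * s r ^ m) (Icc 0 R) :=
      (hdf.mul hFc).mul (hsc.pow m).continuousOn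
    have hc2 : ContinuousOn (fun r => f r ^ 2 * s r ^ m) (Icc 0 R) :=
      (hf.pow 2).mul (hsc.pow m).continuousOn
    have hi1 := hc1.intervalIntegrable_of_Icc (μ := volume) hR.le
    have hi2 := hc2.intervalIntegrable_of_Icc (μ := volume) hR.le
    have hΦ := intervalIntegral.integral_eq_sub_of_hasDerivAt_of_le hR.le
      (f := fun r => f r * G r)
      (f' := fun r => df r * (s r * q r) * s r ^ m + f r ^ 2 * s r ^ m)
      (hf.mul hGc) ?_ (hi1.add hi2)
    · rw [intervalIntegral.integral_add hi1 hi2, hG0, hGR] at hΦ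
      linarith
    · intro r hr
      have hsr := hsp r ⟨hr.1, hr.2.le⟩
      have h1 := (hd r hr).mul (hGd r hr)
      refine h1.congr_deriv ?_
      simp only [hq, hr.1.ne', if_false]
      field_simp
      ring
  rw [hI1] at hH
  -- conclusion
  have hc1 : ContinuousOn (fun r => df r ^ 2 * s r ^ m) (Icc 0 R) :=
    (hdf.pow 2).mul (hsc.pow m).continuousOn
  have hc2 : ContinuousOn (fun r => df r * (s r * q r) * s r ^ m) (Icc 0 R) :=
    (hdf.mul hFc).mul (hsc.pow m).continuousOn
  have hc3 : ContinuousOn (fun r => (s r * q r) ^ 2 * s r ^ m) (Icc 0 R) :=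
    (hFc.pow 2).mul (hsc.pow m).continuousOn
  have hi1 := hc1.intervalIntegrable_of_Icc (μ := volume) hR.le
  have hi2 := hc2.intervalIntegrable_of_Icc (μ := volume) hR.le
  have hi3 := hc3.intervalIntegrable_of_Icc (μ := volume) hR.le
  have hnn : 0 ≤ ∫ r in (0 : ℝ)..R, (df r + μ * (s r * q r)) ^ 2 * s r ^ m := by
    apply intervalIntegral.integral_nonneg hR.le
    intro r hr
    apply mul_nonneg (sq_nonneg _)
    apply pow_nonneg
    rcases eq_or_lt_of_le hr.1 with hr0 | hr0
    · rw [← hr0, hs0]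
    · exact (hsp r ⟨hr0, hr.2⟩).le
  have hexp : ∫ r in (0 : ℝ)..R, (df r + μ * (s r * q r)) ^ 2 * s r ^ m =
      (∫ r in (0 : ℝ)..R, df r ^ 2 * s r ^ m) +
        2 * μ * (∫ r in (0 : ℝ)..R, df r * (s r * q r) * s r ^ m) +
        μ ^ 2 * ∫ r in (0 : ℝ)..R, (s r * q r) ^ 2 * s r ^ m := by
    rw [← intervalIntegral.integral_const_mul, ← intervalIntegral.integral_const_mul,
      ← intervalIntegral.integral_add hi1 (hi2.const_mul _),
      ← intervalIntegral.integral_add (hi1.add (hi2.const_mul _)) (hi3.const_mul _)]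
    apply intervalIntegral.integral_congr
    intro r _
    simp only
    ring
  rw [hexp] at hnn
  have h5 := mul_le_mul_of_nonneg_left hH hμ.le
  nlinarith

end Pool.Agent.NE
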