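import Pool.Agent.NE.SHom
import Pool.Agent.NE.DensC

set_option autoImplicit false

open MeasureTheory Set
open scoped ENNReal ContDiff Gradient

namespace Pool.Agent.NE

private lemma sd_dir_smul {n : ℕ} {r : ℝ} (hr : 0 < r) (θ : Sph n) :
    dir (r • (θ : E (n + 1))) = θ := by
  have hθ : ‖(θ : E (n + 1))‖ = 1 := by simp
  have h0 : r • (θ : E (n + 1)) ≠ 0 := by
    intro h
    have := congrArg norm h
    rw [norm_smul, hθ, norm_zero, Real.norm_of_nonneg hr.le, mul_one] at this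
    exact hr.ne' this
  unfold dir
  rw [dif_neg h0]
  apply Subtype.ext
  simp only
  rw [norm_smul, hθ, Real.norm_of_nonneg hr.le, mul_one, smul_smul, inv_mul_cancel₀ hr.ne',
    one_smul]

private lemma sd_norm_smul {n : ℕ} {r : ℝ} (hr : 0 < r) (θ : Sph n) :
    ‖r • (θ : E (n + 1))‖ = r := by
  have hθ : ‖(θ : E (n + 1))‖ = 1 := by simp
  rw [norm_smul, hθ, Real.norm_of_nonneg hr.le, mul_one]

private lemma sd_mem_cone {n : ℕ} (Ω : Set (Sph n)) {r : ℝ} (hr : 0 < r) (θ : Sph n) :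
    r • (θ : E (n + 1)) ∈ cone Ω ↔ r < 1 ∧ θ ∈ Ω := by
  unfold cone
  rw [mem_ofPred_eq, sd_norm_smul hr, sd_dir_smul hr]
  constructor
  · rintro ⟨_, h1, h2⟩; exact ⟨h1, h2⟩
  · rintro ⟨h1, h2⟩
    refine ⟨?_, h1, h2⟩
    intro h
    have := sd_norm_smul hr θ
    rw [h, norm_zero] at this
    exact hr.ne this

/-- polar coordinates for a nonnegative function on a cone -/
private lemma sd_polar {n : ℕ} {Ω : Set (Sph n)} (hK : MeasurableSet (cone Ω))
    (F : E (n + 1) → ℝ≥0∞) :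
    ∫⁻ x in cone Ω, F x = ∫⁻ p : Sph n × Ioi (0 : ℝ),
      (cone Ω).indicator F (p.2.1 • (p.1 : E (n + 1)))
        ∂((surf n).prod (Measure.volumeIoiPow n)) := by
  have hdim : Module.finrank ℝ (E (n + 1)) - 1 = n := by simp
  have hmp := (volume : Measure (E (n + 1))).measurePreserving_homeomorphUnitSphereProd
  rw [hdim] at hmp
  have hemb := (Homeomorph.measurableEmbedding (homeomorphUnitSphereProd (E (n + 1))))
  have hkey : ∀ x : ({(0 : E (n + 1))}ᶜ : Set (E (n + 1))),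
      (cone Ω).indicator F ((homeomorphUnitSphereProd (E (n + 1)) x).2.1 •
        ((homeomorphUnitSphereProd (E (n + 1)) x).1 : E (n + 1)))
        = (cone Ω).indicator F x.1 := by
    intro x
    have hx : (x.1 : E (n + 1)) ≠ 0 := x.2
    have hx' : ‖(x.1 : E (n + 1))‖ ≠ 0 := norm_ne_zero_iff.2 hx
    congr 1
    simp [smul_smul, hx']
  calc ∫⁻ x in cone Ω, F x = ∫⁻ x, (cone Ω).indicator F x := by
        rw [lintegral_indicator hK]
    _ = ∫⁻ x : ({(0 : E (n + 1))}ᶜ : Set (E (n + 1))), (cone Ω).indicator F x.1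
          ∂((volume : Measure (E (n + 1))).comap (↑)) := by
        rw [lintegral_subtype_comap (measurableSet_singleton _).compl, restrict_compl_singleton]
    _ = ∫⁻ x : ({(0 : E (n + 1))}ᶜ : Set (E (n + 1))),
          (fun p : Sph n × Ioi (0 : ℝ) => (cone Ω).indicator F (p.2.1 • (p.1 : E (n + 1))))
            (homeomorphUnitSphereProd (E (n + 1)) x)
            ∂((volume : Measure (E (n + 1))).comap (↑)) := by
        refine lintegral_congr fun x => ?_
        exact (hkey x).symm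
    _ = _ := hmp.lintegral_comp_emb hemb
          (fun p : Sph n × Ioi (0 : ℝ) => (cone Ω).indicator F (p.2.1 • (p.1 : E (n + 1))))

private lemma sd_radial_pos (n : ℕ) :
    Measure.volumeIoiPow n {r : Ioi (0 : ℝ) | 1 / 2 ≤ r.1 ∧ r.1 < 1} ≠ 0 := by
  intro h
  have h1 : (Iio (⟨1, mem_Ioi.2 one_pos⟩ : Ioi (0 : ℝ))) ⊆
      Iio (⟨1 / 2, mem_Ioi.2 (by norm_num)⟩ : Ioi (0 : ℝ)) ∪
        {r : Ioi (0 : ℝ) | 1 / 2 ≤ r.1 ∧ r.1 < 1} := by
    intro r hr
    have hr' : r.1 < 1 := hr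
    by_cases h2 : r.1 < 1 / 2
    · left; exact h2
    · right; exact ⟨not_lt.1 h2, hr'⟩
  have h2 := (measure_mono h1).trans (measure_union_le (μ := Measure.volumeIoiPow n) _ _)
  rw [h, add_zero, Measure.volumeIoiPow_apply_Iio, Measure.volumeIoiPow_apply_Iio] at h2
  have h3 : (0 : ℝ) < (n : ℝ) + 1 := by positivity
  rw [ENNReal.ofReal_le_ofReal_iff (by positivity)] at h2
  have h4 : ((1 : ℝ) / 2) ^ (n + 1) < 1 := pow_lt_one₀ (by norm_num) (by norm_num) (by omega)
  have h5 : ((1 : ℝ) / 2) ^ (n + 1) / ((n : ℝ) + 1) < (1 : ℝ) ^ (n + 1) / ((n : ℝ) + 1) := by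
    rw [one_pow]
    exact div_lt_div_of_pos_right h4 h3
  exact absurd h2 (not_le.2 h5)

private lemma sd_cone_eq {n : ℕ} {R : ℝ} (hR : 0 < R) (hR' : R ≤ Real.pi / 2) (c : Sph n) :
    cone (cap c R) = {x : E (n + 1) | ‖x‖ < 1 ∧ Real.cos R * ‖x‖ < inner ℝ (c : E (n + 1)) x} := by
  have hc : ‖(c : E (n + 1))‖ = 1 := by simp
  ext x
  simp only [cone, mem_ofPred_eq]
  by_cases hx : x = 0
  · subst hx; simp
  have hxn : 0 < ‖x‖ := norm_pos_iff.2 hx
  have h1 : dir x ∈ cap c R ↔ Real.cos R * ‖x‖ < inner ℝ (c : E (n + 1)) x := by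
    unfold cap dir
    rw [dif_neg hx, mem_ofPred_eq]
    simp only
    rw [InnerProductGeometry.angle_smul_right_of_pos _ _ (inv_pos.2 hxn)]
    have h2 : InnerProductGeometry.angle (c : E (n + 1)) x < R ↔
        Real.cos R < Real.cos (InnerProductGeometry.angle (c : E (n + 1)) x) :=
      (Real.strictAntiOn_cos.lt_iff_gt ⟨hR.le, by linarith [Real.pi_pos]⟩
        ⟨InnerProductGeometry.angle_nonneg _ _, InnerProductGeometry.angle_le_pi _ _⟩).symm
    rw [h2, InnerProductGeometry.cos_angle, hc, one_mul, lt_div_iff₀ hxn]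
  rw [h1]
  constructor
  · rintro ⟨_, h2, h3⟩; exact ⟨h2, h3⟩
  · rintro ⟨h2, h3⟩; exact ⟨hx, h2, h3⟩

private lemma sd_cone_open {n : ℕ} {R : ℝ} (hR : 0 < R) (hR' : R ≤ Real.pi / 2) (c : Sph n) :
    IsOpen (cone (cap c R)) := by
  rw [sd_cone_eq hR hR']
  exact (isOpen_lt continuous_norm continuous_const).inter
    (isOpen_lt (continuous_const.mul continuous_norm) (by fun_prop))

private lemma sd_cone_convex {n : ℕ} {R : ℝ} (hR : 0 < R) (hR' : R ≤ Real.pi / 2) (c : Sph n) :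
    Convex ℝ (cone (cap c R)) := by
  rw [sd_cone_eq hR hR']
  have hcos : 0 ≤ Real.cos R := Real.cos_nonneg_of_neg_pi_div_two_le_of_le (by linarith) hR'
  intro x hx y hy a b ha hb hab
  obtain ⟨hx1, hx2⟩ := hx
  obtain ⟨hy1, hy2⟩ := hy
  have hn : ‖a • x + b • y‖ ≤ a * ‖x‖ + b * ‖y‖ := by
    refine (norm_add_le _ _).trans ?_
    rw [norm_smul, norm_smul, Real.norm_of_nonneg ha, Real.norm_of_nonneg hb]
  refine ⟨?_, ?_⟩
  · refine lt_of_le_of_lt hn ?_
    rcases ha.eq_or_lt with h | h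
    · subst h
      have : b = 1 := by linarith
      subst this; simpa using hy1
    · nlinarith [mul_lt_mul_of_pos_left hx1 h, mul_le_mul_of_nonneg_left hy1.le hb]
  · rw [inner_add_right, real_inner_smul_right, real_inner_smul_right]
    have h1 : Real.cos R * ‖a • x + b • y‖ ≤ Real.cos R * (a * ‖x‖ + b * ‖y‖) :=
      mul_le_mul_of_nonneg_left hn hcos
    rcases ha.eq_or_lt with h | h
    · subst h
      have : b = 1 := by linarith
      subst this
      simpa using hy2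
    · have h2 := mul_lt_mul_of_pos_left hx2 h
      have h3 := mul_le_mul_of_nonneg_left hy2.le hb
      linarith

private lemma sd_cone_nonempty {n : ℕ} {R : ℝ} (hR : 0 < R) (c : Sph n) :
    (cone (cap c R)).Nonempty := by
  refine ⟨(1 / 2 : ℝ) • (c : E (n + 1)), ?_⟩
  rw [sd_mem_cone _ (by norm_num)]
  refine ⟨by norm_num, ?_⟩
  unfold cap
  rw [mem_ofPred_eq, InnerProductGeometry.angle_self (by
    intro h
    have : ‖(c : E (n + 1))‖ = 1 := by simp
    rw [h, norm_zero] at this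
    exact zero_ne_one this)]
  exact hR

private lemma sd_cone_bdd {n : ℕ} (Ω : Set (Sph n)) : Bornology.IsBounded (cone Ω) :=
  Metric.isBounded_ball.subset (fun x hx => by
    rw [mem_ball_zero_iff]; exact hx.2.1 : cone Ω ⊆ Metric.ball 0 1)

private lemma sd_lint_lt {n : ℕ} {K : Set (E n)} {f : E n → ℝ} (hf : Integrable f (volume.restrict K))
    (h0 : ∀ x, 0 ≤ f x) {ε : ℝ} (h : ∫ x in K, f x < ε) :
    ∫⁻ x in K, ENNReal.ofReal (f x) ≤ ENNReal.ofReal ε := by
  rw [← ofReal_integral_eq_lintegral_ofReal hf (Filter.Eventually.of_forall h0)]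
  exact ENNReal.ofReal_le_ofReal h.le

private lemma sd_int_lt {n : ℕ} {Ω : Set (Sph n)} {f : Sph n → ℝ}
    (hf : AEStronglyMeasurable f ((surf n).restrict Ω)) (h0 : ∀ x, 0 ≤ f x) {ε δ : ℝ}
    (hδ : 0 < δ) (hε : δ < ε) (h : ∫⁻ x in Ω, ENNReal.ofReal (f x) ∂(surf n) ≤ ENNReal.ofReal δ) :
    ∫ x in Ω, f x ∂(surf n) < ε := by
  rw [integral_eq_lintegral_of_nonneg_ae (Filter.Eventually.of_forall h0) hf]
  refine lt_of_le_of_lt (ENNReal.toReal_mono ENNReal.ofReal_ne_top h) ?_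
  rwa [ENNReal.toReal_ofReal hδ.le]

private lemma sd_tang {n : ℕ} (x G W : E (n + 1)) (t : ℝ) (hx : ‖x‖ = 1) (hG : inner ℝ G x = 0) :
    ‖G - (W - inner ℝ W x • x)‖ ^ 2 ≤ ‖t • x + G - W‖ ^ 2 := by
  have hxx : inner ℝ x x = (1 : ℝ) := by rw [real_inner_self_eq_norm_sq, hx]; norm_num
  set Y := t • x + G - W with hY
  have h1 : G - (W - inner ℝ W x • x) = Y - inner ℝ Y x • x := by
    have h2 : inner ℝ Y x = t - inner ℝ W x := by
      rw [hY, inner_sub_left, inner_add_left, real_inner_smul_left, hxx, hG]; ring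
    rw [h2, hY, sub_smul]; abel
  rw [h1, norm_sub_sq_real, real_inner_smul_right, norm_smul, hx, Real.norm_eq_abs, mul_one,
    sq_abs]
  nlinarith [sq_nonneg (inner ℝ Y x : ℝ)]

private theorem sd_gen {n : ℕ} {Ω : Set (Sph n)} (hΩo : IsOpen Ω) (hKo : IsOpen (cone Ω))
    (hKc : Convex ℝ (cone Ω)) (hKn : (cone Ω).Nonempty)
    (p : H1S Ω) {ε : ℝ} (hε : 0 < ε) :
    ∃ φ : E (n + 1) → ℝ, ContDiff ℝ ∞ φ ∧
      ∫ x in Ω, ((p.1.1 : Sph n → ℝ) x - φ x) ^ 2 ∂(surf n) < ε ∧
      ∫ x in Ω, ‖(p.1.2 : Sph n → E (n + 1)) x - (∇ φ (x : E (n + 1)) -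
        inner ℝ (∇ φ (x : E (n + 1))) (x : E (n + 1)) • (x : E (n + 1)))‖ ^ 2 ∂(surf n) < ε := by
  have hΩm : MeasurableSet Ω := hΩo.measurableSet
  have hKm : MeasurableSet (cone Ω) := hKo.measurableSet
  obtain ⟨P, hP1, hP2⟩ := hom_ext hΩo p
  set u : Sph n → ℝ := (p.1.1 : Sph n → ℝ) with hu
  set G : Sph n → E (n + 1) := (p.1.2 : Sph n → E (n + 1)) with hG
  have hum : StronglyMeasurable u := Lp.stronglyMeasurable _
  have hGm : StronglyMeasurable G := Lp.stronglyMeasurable _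
  -- choice of the precision
  set m : ℝ≥0∞ := Measure.volumeIoiPow n {r : Ioi (0 : ℝ) | 1 / 2 ≤ r.1 ∧ r.1 < 1} with hm
  have hm0 : m ≠ 0 := sd_radial_pos n
  set δ : ℝ≥0∞ := ENNReal.ofReal (ε / 8) with hδ
  have hδ0 : δ ≠ 0 := by
    rw [hδ, Ne, ENNReal.ofReal_eq_zero, not_le]; positivity
  have hδm : δ * m ≠ 0 := mul_ne_zero hδ0 hm0
  obtain ⟨ε', hε'0, hε'⟩ : ∃ ε' : ℝ, 0 < ε' ∧ 2 * ENNReal.ofReal ε' < δ * m := by
    obtain ⟨y, hy0, hy⟩ : ∃ y : NNReal, 0 < y ∧ (y : ℝ≥0∞) < δ * m :=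
      ENNReal.lt_iff_exists_nnreal_btwn.1 (pos_iff_ne_zero.2 hδm) |>.imp fun y hy =>
        ⟨by exact_mod_cast hy.1, hy.2⟩
    refine ⟨y / 2, by positivity, ?_⟩
    have : 2 * ENNReal.ofReal ((y : ℝ) / 2) = y := by
      rw [← ENNReal.ofReal_ofNat 2, ← ENNReal.ofReal_mul (by norm_num)]
      have : (2 : ℝ) * ((y : ℝ) / 2) = y := by ring
      rw [this, ENNReal.ofReal_coe_nnreal]
    rw [this]; exact hy
  obtain ⟨φ, hφ, hφc, hφ1, hφ2⟩ := densC hKo hKc (sd_cone_bdd Ω) hKn P hε'0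
  have hgc : Continuous (∇ φ) := by
    have h1 : Continuous (fderiv ℝ φ) := hφ.continuous_fderiv (by simp)
    unfold gradient
    exact (LinearIsometryEquiv.continuous _).comp h1
  have hgs : HasCompactSupport (∇ φ) := by
    have h1 : HasCompactSupport (fderiv ℝ φ) := hφc.fderiv (𝕜 := ℝ)
    unfold gradient
    exact h1.comp_left (map_zero _)
  have hI1 : Integrable (fun x => (P.1.1 x - φ x) ^ 2) (volume.restrict (cone Ω)) :=
    ((Lp.memLp P.1.1).sub
      ((hφ.continuous.memLp_of_hasCompactSupport hφc).restrict (cone Ω))).integrable_sq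
  have hI2 : Integrable (fun x => ‖P.1.2 x - ∇ φ x‖ ^ 2) (volume.restrict (cone Ω)) :=
    ((Lp.memLp P.1.2).sub
      ((hgc.memLp_of_hasCompactSupport hgs).restrict (cone Ω))).norm.integrable_sq
  have hL1 := sd_lint_lt hI1 (fun x => sq_nonneg _) hφ1
  have hL2 := sd_lint_lt hI2 (fun x => sq_nonneg _) hφ2
  -- the function on the cone
  set H1f : Sph n × Ioi (0 : ℝ) → ℝ≥0∞ := fun q =>
    ENNReal.ofReal ((q.2.1 * u q.1 - φ (q.2.1 • (q.1 : E (n + 1)))) ^ 2) with hH1
  set H2f : Sph n × Ioi (0 : ℝ) → ℝ≥0∞ := fun q =>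
    ENNReal.ofReal (‖u q.1 • (q.1 : E (n + 1)) + G q.1 - ∇ φ (q.2.1 • (q.1 : E (n + 1)))‖ ^ 2)
    with hH2
  have hsm : Measurable (fun q : Sph n × Ioi (0 : ℝ) => q.2.1 • (q.1 : E (n + 1))) := by
    have : Continuous (fun q : Sph n × Ioi (0 : ℝ) => q.2.1 • (q.1 : E (n + 1))) := by fun_prop
    exact this.measurable
  have hq1 : Measurable (fun q : Sph n × Ioi (0 : ℝ) => (q.1 : E (n + 1))) :=
    measurable_subtype_coe.comp measurable_fst
  have hq2 : Measurable (fun q : Sph n × Ioi (0 : ℝ) => q.2.1) :=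
    measurable_subtype_coe.comp measurable_snd
  have hum' : Measurable (fun q : Sph n × Ioi (0 : ℝ) => u q.1) := hum.measurable.comp measurable_fst
  have hGm' : Measurable (fun q : Sph n × Ioi (0 : ℝ) => G q.1) := hGm.measurable.comp measurable_fst
  have hH1m : Measurable H1f :=
    (((hq2.mul hum').sub (hφ.continuous.measurable.comp hsm)).pow_const 2).ennreal_ofReal
  have hH2m : Measurable H2f :=
    ((((hum'.smul hq1).add hGm').sub (hgc.measurable.comp hsm)).norm.pow_const 2).ennreal_ofReal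
  set T : Set (Sph n × Ioi (0 : ℝ)) := Ω ×ˢ {r : Ioi (0 : ℝ) | r.1 < 1} with hT
  have hTm : MeasurableSet T := hΩm.prod (measurableSet_lt measurable_subtype_coe measurable_const)
  have hC1 : ∫⁻ x in cone Ω, ENNReal.ofReal ((P.1.1 x - φ x) ^ 2) =
      ∫⁻ q, T.indicator H1f q ∂((surf n).prod (Measure.volumeIoiPow n)) := by
    have h1 : ∫⁻ x in cone Ω, ENNReal.ofReal ((P.1.1 x - φ x) ^ 2) =
        ∫⁻ x in cone Ω, ENNReal.ofReal ((‖x‖ * u (dir x) - φ x) ^ 2) := by
      refine lintegral_congr_ae ?_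
      filter_upwards [hP1] with x hx
      rw [hx]
    rw [h1, sd_polar hKm]
    refine lintegral_congr fun q => ?_
    have hr : 0 < q.2.1 := q.2.2
    by_cases hq : q ∈ T
    · rw [indicator_of_mem hq, indicator_of_mem ((sd_mem_cone Ω hr q.1).2 ⟨hq.2, hq.1⟩)]
      simp only [hH1, sd_norm_smul hr, sd_dir_smul hr]
    · rw [indicator_of_notMem hq, indicator_of_notMem]
      intro h
      exact hq ⟨((sd_mem_cone Ω hr q.1).1 h).2, ((sd_mem_cone Ω hr q.1).1 h).1⟩
  have hC2 : ∫⁻ x in cone Ω, ENNReal.ofReal (‖P.1.2 x - ∇ φ x‖ ^ 2) =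
      ∫⁻ q, T.indicator H2f q ∂((surf n).prod (Measure.volumeIoiPow n)) := by
    have h1 : ∫⁻ x in cone Ω, ENNReal.ofReal (‖P.1.2 x - ∇ φ x‖ ^ 2) =
        ∫⁻ x in cone Ω, ENNReal.ofReal
          (‖u (dir x) • (dir x : E (n + 1)) + G (dir x) - ∇ φ x‖ ^ 2) := by
      refine lintegral_congr_ae ?_
      filter_upwards [hP2] with x hx
      rw [hx]
    rw [h1, sd_polar hKm]
    refine lintegral_congr fun q => ?_
    have hr : 0 < q.2.1 := q.2.2
    by_cases hq : q ∈ T
    · rw [indicator_of_mem hq, indicator_of_mem ((sd_mem_cone Ω hr q.1).2 ⟨hq.2, hq.1⟩)]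
      simp only [hH2, sd_dir_smul hr]
    · rw [indicator_of_notMem hq, indicator_of_notMem]
      intro h
      exact hq ⟨((sd_mem_cone Ω hr q.1).1 h).2, ((sd_mem_cone Ω hr q.1).1 h).1⟩
  -- a good radius
  obtain ⟨r, hr1, hr2, hrA⟩ : ∃ r : Ioi (0 : ℝ), 1 / 2 ≤ r.1 ∧ r.1 < 1 ∧
      ∫⁻ θ in Ω, (H1f (θ, r) + H2f (θ, r)) ∂(surf n) ≤ δ := by
    by_contra hcon
    push Not at hcon
    have hsum : ∫⁻ q, T.indicator (fun q => H1f q + H2f q) q
        ∂((surf n).prod (Measure.volumeIoiPow n)) ≤ 2 * ENNReal.ofReal ε' := by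
      have h1 : ∀ q, T.indicator (fun q => H1f q + H2f q) q = T.indicator H1f q + T.indicator H2f q := by
        intro q
        by_cases hq : q ∈ T
        · simp [indicator_of_mem hq]
        · simp [indicator_of_notMem hq]
      rw [lintegral_congr h1, lintegral_add_left (hH1m.indicator hTm), ← hC1, ← hC2, two_mul]
      exact add_le_add hL1 hL2
    have hm12 : Measurable (T.indicator (fun q => H1f q + H2f q)) :=
      (hH1m.add hH2m).indicator hTm
    rw [lintegral_prod_symm' _ hm12] at hsum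
    have hlow : δ * m ≤ ∫⁻ r : Ioi (0 : ℝ), ∫⁻ θ, T.indicator (fun q => H1f q + H2f q) (θ, r)
        ∂(surf n) ∂(Measure.volumeIoiPow n) := by
      have hSm : MeasurableSet {r : Ioi (0 : ℝ) | 1 / 2 ≤ r.1 ∧ r.1 < 1} :=
        (measurableSet_le measurable_const measurable_subtype_coe).inter
          (measurableSet_lt measurable_subtype_coe measurable_const)
      rw [hm, ← setLIntegral_const]
      refine (setLIntegral_mono' hSm (g := fun r => ∫⁻ θ, T.indicator
        (fun q => H1f q + H2f q) (θ, r) ∂(surf n)) ?_).trans (setLIntegral_le_lintegral _ _)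
      intro r hr
      refine (hcon r hr.1 hr.2).le.trans (le_of_eq ?_)
      rw [← lintegral_indicator hΩm]
      refine lintegral_congr fun θ => ?_
      by_cases hθ : θ ∈ Ω
      · rw [indicator_of_mem hθ, indicator_of_mem (show (θ, r) ∈ T from ⟨hθ, hr.2⟩)]
      · rw [indicator_of_notMem hθ, indicator_of_notMem (fun h => hθ h.1)]
    exact absurd (hlow.trans hsum) (not_le.2 hε')
  have hr0 : 0 < r.1 := r.2
  have hA1 : ∫⁻ θ in Ω, H1f (θ, r) ∂(surf n) ≤ δ :=
    (lintegral_mono fun θ => le_self_add).trans hrA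
  have hA2 : ∫⁻ θ in Ω, H2f (θ, r) ∂(surf n) ≤ δ :=
    (lintegral_mono fun θ => le_add_self).trans hrA
  -- the approximation
  refine ⟨fun x => r.1⁻¹ * φ (r.1 • x), ?_, ?_, ?_⟩
  · exact contDiff_const.mul (hφ.comp (contDiff_const_smul r.1))
  · refine sd_int_lt (δ := ε / 2) ?_ (fun x => sq_nonneg _) (by positivity) (by linarith) ?_
    · refine Measurable.aestronglyMeasurable ?_
      have h1 : Continuous (fun x : Sph n => r.1⁻¹ * φ (r.1 • (x : E (n + 1)))) :=
        continuous_const.mul (hφ.continuous.comp (by fun_prop))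
      exact (hum.measurable.sub h1.measurable).pow_const 2
    · calc ∫⁻ x in Ω, ENNReal.ofReal ((u x - r.1⁻¹ * φ (r.1 • (x : E (n + 1)))) ^ 2) ∂(surf n)
          ≤ ∫⁻ x in Ω, 4 * H1f (x, r) ∂(surf n) := by
            refine lintegral_mono fun x => ?_
            have h1 : (u x - r.1⁻¹ * φ (r.1 • (x : E (n + 1)))) ^ 2 =
                r.1⁻¹ ^ 2 * (r.1 * u x - φ (r.1 • (x : E (n + 1)))) ^ 2 := by
              field_simp
            have h2 : r.1⁻¹ ^ 2 ≤ 4 := by
              have h3 : r.1⁻¹ ≤ 2 := by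
                rw [inv_le_comm₀ hr0 (by norm_num)]; linarith
              have h4 : 0 < r.1⁻¹ := inv_pos.2 hr0
              nlinarith
            rw [hH1]
            simp only
            rw [h1, ← ENNReal.ofReal_ofNat 4, ← ENNReal.ofReal_mul (by norm_num)]
            exact ENNReal.ofReal_le_ofReal (mul_le_mul_of_nonneg_right h2 (sq_nonneg _))
        _ = 4 * ∫⁻ x in Ω, H1f (x, r) ∂(surf n) := by
            have hmm : Measurable (fun x : Sph n => H1f (x, r)) :=
              hH1m.comp measurable_prodMk_right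
            rw [lintegral_const_mul _ hmm]
        _ ≤ 4 * δ := by gcongr
        _ = ENNReal.ofReal (ε / 2) := by
            rw [hδ, ← ENNReal.ofReal_ofNat 4, ← ENNReal.ofReal_mul (by norm_num)]
            congr 1; ring
  · have hgrad : ∀ x : E (n + 1), ∇ (fun x => r.1⁻¹ * φ (r.1 • x)) x = ∇ φ (r.1 • x) := by
      intro x
      unfold gradient
      congr 1
      have h1 : HasFDerivAt φ (fderiv ℝ φ (r.1 • x)) (r.1 • x) :=
        ((hφ.differentiable (by simp)) _).hasFDerivAt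
      have h2 : HasFDerivAt (fun x : E (n + 1) => r.1 • x)
          (r.1 • ContinuousLinearMap.id ℝ (E (n + 1))) x := by
        exact (hasFDerivAt_id x).const_smul r.1
      have h3 := (h1.comp x h2).const_mul r.1⁻¹
      have h4 : r.1⁻¹ • (fderiv ℝ φ (r.1 • x)).comp (r.1 • ContinuousLinearMap.id ℝ (E (n + 1))) =
          fderiv ℝ φ (r.1 • x) := by
        ext v
        simp only [_root_.smul_apply, ContinuousLinearMap.comp_apply,
          ContinuousLinearMap.id_apply, map_smul, smul_eq_mul]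
        rw [← mul_assoc, inv_mul_cancel₀ hr0.ne', one_mul]
      rw [h4] at h3
      exact h3.fderiv
    refine sd_int_lt (δ := ε / 8) ?_ (fun x => sq_nonneg _) (by positivity) (by linarith) ?_
    · refine Measurable.aestronglyMeasurable ?_
      simp only [hgrad]
      have h1 : Continuous (fun x : Sph n => ∇ φ (r.1 • (x : E (n + 1)))) :=
        hgc.comp (by fun_prop)
      have h2 : Continuous (fun x : Sph n => ∇ φ (r.1 • (x : E (n + 1))) -
          inner ℝ (∇ φ (r.1 • (x : E (n + 1)))) (x : E (n + 1)) • (x : E (n + 1))) := by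
        have h3 : Continuous (fun x : Sph n =>
            inner ℝ (∇ φ (r.1 • (x : E (n + 1)))) (x : E (n + 1))) :=
          h1.inner continuous_subtype_val
        exact h1.sub (h3.smul continuous_subtype_val)
      exact (hGm.measurable.sub h2.measurable).norm.pow_const 2
    · refine le_trans ?_ hA2
      refine lintegral_mono_ae ?_
      have ht := p.2.1
      filter_upwards [ht] with x hx
      simp only [hgrad, hH2]
      refine ENNReal.ofReal_le_ofReal ?_
      exact sd_tang (x : E (n + 1)) (G x) (∇ φ (r.1 • (x : E (n + 1)))) (u x) (by simp) hx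

/-- Smooth functions are dense in `H¹` of a cap of radius at most `π/2`. -/
theorem densS {n : ℕ} {R : ℝ} (hR : 0 < R) (hR' : R ≤ Real.pi / 2) (c : Sph n)
    (p : H1S (cap c R)) {ε : ℝ} (hε : 0 < ε) :
    ∃ φ : E (n + 1) → ℝ, ContDiff ℝ ∞ φ ∧
      ∫ x in cap c R, ((p.1.1 : Sph n → ℝ) x - φ x) ^ 2 ∂(surf n) < ε ∧
      ∫ x in cap c R, ‖(p.1.2 : Sph n → E (n + 1)) x - (∇ φ (x : E (n + 1)) -
        inner ℝ (∇ φ (x : E (n + 1))) (x : E (n + 1)) • (x : E (n + 1)))‖ ^ 2 ∂(surf n) < ε := by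
  have hangle : Continuous (fun y : Sph n =>
      InnerProductGeometry.angle (c : E (n + 1)) (y : E (n + 1))) := by
    unfold InnerProductGeometry.angle
    refine Real.continuous_arccos.comp ?_
    have h1 : ∀ y : Sph n, ‖(y : E (n + 1))‖ = 1 := fun y => by simp
    simp only [h1, mul_one, div_one]
    fun_prop
  exact sd_gen (isOpen_lt hangle continuous_const) (sd_cone_open hR hR' c)
    (sd_cone_convex hR hR' c) (sd_cone_nonempty hR c) p hε

end Pool.Agent.NE
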