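import Pool.Agent.NE.SBallP
import Pool.Agent.NE.SDens
import Pool.Agent.NE.SBasic

set_option autoImplicit false

open MeasureTheory Set
open scoped ENNReal ContDiff Gradient

namespace Pool.Agent.NE

lemma sbh_norm_sq {α F : Type*} [MeasurableSpace α] [NormedAddCommGroup F] [InnerProductSpace ℝ F]
    {m : Measure α} (u : Lp F 2 m) : ‖u‖ ^ 2 = ∫ x, ‖u x‖ ^ 2 ∂m := by
  rw [← real_inner_self_eq_norm_sq, L2.inner_def]
  exact integral_congr_ae (Filter.Eventually.of_forall fun x => real_inner_self_eq_norm_sq _)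

lemma sbh_norm_one {n : ℕ} (x : Sph n) : ‖(x : E (n + 1))‖ = 1 := by simp

lemma sbh_ne_zero {n : ℕ} (x : Sph n) : (x : E (n + 1)) ≠ 0 := by
  intro h
  have := sbh_norm_one x
  rw [h, norm_zero] at this
  exact zero_ne_one this

lemma sbh_cap_open {n : ℕ} (c : Sph n) (R : ℝ) : IsOpen (cap c R) := by
  have hcont : Continuous (fun y : Sph n =>
      InnerProductGeometry.angle (c : E (n + 1)) (y : E (n + 1))) := by
    rw [continuous_iff_continuousAt]
    intro y
    exact (InnerProductGeometry.continuousAt_angle (sbh_ne_zero c)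
      (sbh_ne_zero y)).comp₂_of_eq continuousAt_const continuous_subtype_val.continuousAt rfl
  exact isOpen_lt hcont continuous_const

/-- tangential norm -/
lemma sbh_tang {n : ℕ} (v : E (n + 1)) (x : Sph n) :
    ‖v - inner ℝ v (x : E (n + 1)) • (x : E (n + 1))‖ ^ 2 =
      ‖v‖ ^ 2 - (inner ℝ v (x : E (n + 1))) ^ 2 := by
  rw [norm_sub_sq_real, norm_smul, sbh_norm_one, inner_smul_right, mul_one, Real.norm_eq_abs,
    sq_abs]
  ring

/-- Sharp Poincare inequality in `H¹` of the cap. -/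
lemma sbh_poincare {n : ℕ} (hn : 1 ≤ n) {R μ : ℝ} {g dg : ℝ → ℝ} (hg : IsSProfile n R μ g dg)
    (c : Sph n) (e : H1S (cap c R))
    (he : ∀ᵐ x ∂((surf n).restrict (cap c R)), (e.1.1 : Sph n → ℝ) x = 1)
    (p : H1S (cap c R)) (hp : inner ℝ e.1.1 p.1.1 = 0) :
    μ * ‖p.1.1‖ ^ 2 ≤ ‖p.1.2‖ ^ 2 := by
  have happ : ∀ k : ℕ, ∃ (f : Lp ℝ 2 ((surf n).restrict (cap c R)))
      (G : Lp (E (n + 1)) 2 ((surf n).restrict (cap c R))),
      ‖p.1.1 - f‖ ^ 2 < 1 / ((k : ℝ) + 1) ∧ ‖p.1.2 - G‖ ^ 2 < 1 / ((k : ℝ) + 1) ∧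
      μ * (‖f‖ ^ 2 - (inner ℝ e.1.1 f) ^ 2 / (surf n).real (cap c R)) ≤ ‖G‖ ^ 2 := by
    intro k
    obtain ⟨φ, h1, h3, h4⟩ := densS hg.R_pos hg.R_le c p (ε := 1 / ((k : ℝ) + 1)) (by positivity)
    have hgc : Continuous (∇ φ) := by
      unfold gradient
      exact (LinearIsometryEquiv.continuous _).comp (h1.continuous_fderiv (by simp))
    have hTc : Continuous (fun x : Sph n => ∇ φ (x : E (n + 1)) -
        inner ℝ (∇ φ (x : E (n + 1))) (x : E (n + 1)) • (x : E (n + 1))) := by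
      have := hgc.comp (continuous_subtype_val (p := fun x => x ∈ Metric.sphere (0 : E (n + 1)) 1))
      have h5 : Continuous (fun x : Sph n => ∇ φ (x : E (n + 1))) := this
      fun_prop
    have hf : MemLp (fun x : Sph n => φ x) 2 ((surf n).restrict (cap c R)) :=
      ((h1.continuous.comp continuous_subtype_val).memLp_of_hasCompactSupport
        (HasCompactSupport.of_compactSpace _)).restrict _
    have hG : MemLp (fun x : Sph n => ∇ φ (x : E (n + 1)) -
        inner ℝ (∇ φ (x : E (n + 1))) (x : E (n + 1)) • (x : E (n + 1))) 2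
        ((surf n).restrict (cap c R)) :=
      (hTc.memLp_of_hasCompactSupport (HasCompactSupport.of_compactSpace _)).restrict _
    have hf2 := hf.coeFn_toLp
    have hG2 := hG.coeFn_toLp
    refine ⟨hf.toLp _, hG.toLp _, ?_, ?_, ?_⟩
    · rw [sbh_norm_sq]
      refine lt_of_eq_of_lt (integral_congr_ae ?_) h3
      filter_upwards [Lp.coeFn_sub p.1.1 (hf.toLp _), hf2] with x hx hx2
      rw [hx, Pi.sub_apply, hx2, Real.norm_eq_abs, sq_abs]
    · rw [sbh_norm_sq]
      refine lt_of_eq_of_lt (integral_congr_ae ?_) h4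
      filter_upwards [Lp.coeFn_sub p.1.2 (hG.toLp _), hG2] with x hx hx2
      rw [hx, Pi.sub_apply, hx2]
    · have hP := ballPS hn hg c φ h1
      have e1 : ‖hf.toLp _‖ ^ 2 = ∫ x in cap c R, φ x ^ 2 ∂(surf n) := by
        rw [sbh_norm_sq]
        refine integral_congr_ae ?_
        filter_upwards [hf2] with x hx2
        rw [hx2, Real.norm_eq_abs, sq_abs]
      have e2 : ‖hG.toLp _‖ ^ 2 = ∫ x in cap c R, (‖∇ φ (x : E (n + 1))‖ ^ 2 -
          (inner ℝ (∇ φ (x : E (n + 1))) (x : E (n + 1))) ^ 2) ∂(surf n) := by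
        rw [sbh_norm_sq]
        refine integral_congr_ae ?_
        filter_upwards [hG2] with x hx2
        rw [hx2, sbh_tang]
      have e3 : inner ℝ e.1.1 (hf.toLp _) = ∫ x in cap c R, φ x ∂(surf n) := by
        rw [L2.inner_def]
        refine integral_congr_ae ?_
        filter_upwards [hf2, he] with x hx2 hx3
        rw [hx2, hx3]
        simp
      rw [e1, e2, e3]
      exact hP
  choose f G hf hG hfG using happ
  have hlim0 : Filter.Tendsto (fun k : ℕ => 1 / ((k : ℝ) + 1)) Filter.atTop (nhds 0) :=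
    tendsto_one_div_add_atTop_nhds_zero_nat
  have sq0 : ∀ {Z : Type} [NormedAddCommGroup Z] (x : Z) (y : ℕ → Z),
      (∀ k, ‖x - y k‖ ^ 2 < 1 / ((k : ℝ) + 1)) → Filter.Tendsto y Filter.atTop (nhds x) := by
    intro Z _ x y h
    rw [tendsto_iff_norm_sub_tendsto_zero]
    have h1 : Filter.Tendsto (fun k => ‖x - y k‖ ^ 2) Filter.atTop (nhds 0) :=
      squeeze_zero (fun k => by positivity) (fun k => (h k).le) hlim0
    have h2 := h1.sqrt
    simp only [Real.sqrt_zero] at h2
    refine h2.congr fun k => ?_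
    rw [Real.sqrt_sq (norm_nonneg _), norm_sub_rev]
  have hft := sq0 p.1.1 f hf
  have hGt := sq0 p.1.2 G hG
  have hL : Filter.Tendsto
      (fun k => μ * (‖f k‖ ^ 2 - (inner ℝ e.1.1 (f k)) ^ 2 / (surf n).real (cap c R)))
      Filter.atTop
      (nhds (μ * (‖p.1.1‖ ^ 2 - (inner ℝ e.1.1 p.1.1) ^ 2 / (surf n).real (cap c R)))) := by
    apply Filter.Tendsto.const_mul
    apply Filter.Tendsto.sub
    · exact (hft.norm).pow 2
    · apply Filter.Tendsto.div_const
      exact (Filter.Tendsto.inner tendsto_const_nhds hft).pow 2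
  have hR : Filter.Tendsto (fun k => ‖G k‖ ^ 2) Filter.atTop (nhds (‖p.1.2‖ ^ 2)) :=
    hGt.norm.pow 2
  have := le_of_tendsto_of_tendsto' hL hR hfG
  rw [hp] at this
  simpa using this

/-- The first nonzero Neumann eigenvalue of a cap is at least the number `μ` of the profile. -/
theorem ball_h1S {n : ℕ} (hn : 1 ≤ n) {R μ : ℝ} {g dg : ℝ → ℝ} (hg : IsSProfile n R μ g dg)
    (c : Sph n) : ENNReal.ofReal μ ≤ neumannS (cap c R) 1 := by
  obtain ⟨e, -, he⟩ := exists_oneS (Ω := cap c R)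
  unfold neumannS
  refine le_iInf₂ fun V hV => ?_
  -- a nonzero element of `V` with mean zero
  let F : H1S (cap c R) →ₗ[ℝ] ℝ :=
    { toFun := fun p => inner ℝ e.1.1 p.1.1
      map_add' := fun p q => by
        change inner ℝ e.1.1 (p.1.1 + q.1.1) = _
        rw [inner_add_right]
      map_smul' := fun t p => by
        change inner ℝ e.1.1 (t • p.1.1) = _
        rw [inner_smul_right]; simp }
  have hfd : FiniteDimensional ℝ V := FiniteDimensional.of_finrank_pos (by omega)
  have hker : LinearMap.ker (F.domRestrict V) ≠ ⊥ := by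
    intro hbot
    have h1 := LinearMap.finrank_range_add_finrank_ker (K := ℝ) (V := V) (V₂ := ℝ) (F.domRestrict V)
    rw [hbot, finrank_bot, hV] at h1
    have h2 : Module.finrank ℝ (LinearMap.range (F.domRestrict V)) ≤ Module.finrank ℝ ℝ :=
      Submodule.finrank_le _
    rw [Module.finrank_self] at h2
    omega
  obtain ⟨q, hq, hq0⟩ := Submodule.exists_mem_ne_zero_of_ne_bot hker
  have hq1 : inner ℝ e.1.1 q.1.1.1 = 0 := hq
  have hqne : q.1 ≠ 0 := fun h => hq0 (Subtype.ext h)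
  refine le_trans ?_ (le_iSup₂_of_le q.1 q.2 (le_iSup_of_le hqne le_rfl))
  apply ENNReal.ofReal_le_ofReal
  have hne : q.1.1.1 ≠ 0 := fun h => hqne (H1S_eq_zero (sbh_cap_open c R) q.1 h)
  have hpos : 0 < ‖q.1.1.1‖ ^ 2 := by
    have := norm_pos_iff.2 hne
    positivity
  rw [le_div_iff₀ hpos]
  exact sbh_poincare hn hg c e he q.1 hq1

end Pool.Agent.NE
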