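import Pool.Agent.NE.STools

set_option autoImplicit false

open MeasureTheory Set
open scoped ENNReal Pointwise

namespace Pool.Agent.NE

lemma rotS_cont {n : ℕ} (L : E (n + 1) ≃ₗᵢ[ℝ] E (n + 1)) : Continuous (rotS L) :=
  Continuous.subtype_mk (L.continuous.comp continuous_subtype_val) _

/-- The surface measure is invariant under linear isometries. -/
theorem rot_mp {n : ℕ} (L : E (n + 1) ≃ₗᵢ[ℝ] E (n + 1)) :
    MeasurePreserving (rotS L) (surf n) (surf n) := by
  refine ⟨(rotS_cont L).measurable, ?_⟩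
  ext s hs
  rw [Measure.map_apply (rotS_cont L).measurable hs,
    Measure.toSphere_apply' _ ((rotS_cont L).measurable hs), Measure.toSphere_apply' _ hs]
  congr 1
  have h : Ioo (0 : ℝ) 1 • ((↑) '' (rotS L ⁻¹' s) : Set (E (n + 1))) =
      L ⁻¹' (Ioo (0 : ℝ) 1 • ((↑) '' s : Set (E (n + 1)))) := by
    ext x
    simp only [mem_preimage, Set.mem_smul, mem_image]
    constructor
    · rintro ⟨t, ht, _, ⟨y, hy, rfl⟩, rfl⟩
      exact ⟨t, ht, _, ⟨rotS L y, hy, rfl⟩, by
        show t • L (y : E (n + 1)) = L (t • (y : E (n + 1)))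
        rw [map_smul]⟩
    · rintro ⟨t, ht, _, ⟨y, hy, rfl⟩, hx⟩
      refine ⟨t, ht, _, ⟨rotS L.symm y, ?_, rfl⟩, ?_⟩
      · show rotS L (rotS L.symm y) ∈ s
        have h1 : rotS L (rotS L.symm y) = y := Subtype.ext (L.apply_symm_apply _)
        rw [h1]; exact hy
      · show t • L.symm (y : E (n + 1)) = x
        rw [← map_smul, hx, L.symm_apply_apply]
  rw [h]
  exact (LinearIsometryEquiv.measurePreserving L).measure_preimage_emb
    L.toHomeomorph.measurableEmbedding _

/-- A linear isometry moving a given point to the pole. -/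
theorem exists_rot {n : ℕ} (c : Sph n) : ∃ L : E (n + 1) ≃ₗᵢ[ℝ] E (n + 1), rotS L c = pole n := by
  refine ⟨Submodule.reflection (Submodule.span ℝ {(c : E (n + 1)) - (pole n : E (n + 1))})ᗮ, ?_⟩
  apply Subtype.ext
  show Submodule.reflection (Submodule.span ℝ {(c : E (n + 1)) - (pole n : E (n + 1))})ᗮ
    (c : E (n + 1)) = (pole n : E (n + 1))
  apply Submodule.reflection_sub
  rw [show ‖(c : E (n + 1))‖ = 1 by simp, show ‖(pole n : E (n + 1))‖ = 1 by simp]

lemma surf_sub {n : ℕ} (p : Submodule ℝ (E (n + 1))) (hp : p ≠ ⊤) {s : Set (Sph n)}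
    (hs : MeasurableSet s) (h : ∀ x ∈ s, (x : E (n + 1)) ∈ p) : surf n s = 0 := by
  rw [Measure.toSphere_apply' _ hs]
  have h1 : (volume : Measure (E (n + 1))) (Ioo (0 : ℝ) 1 • ((↑) '' s : Set (E (n + 1)))) = 0 := by
    refine measure_mono_null ?_ (Measure.addHaar_submodule volume p hp)
    intro x hx
    obtain ⟨t, _, _, ⟨y, hy, rfl⟩, rfl⟩ := Set.mem_smul.1 hx
    exact p.smul_mem t (h y hy)
  rw [h1, mul_zero]

/-- Points and great hyperspheres are null sets. -/
theorem surf_hyper {n : ℕ} (e : Sph n) :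
    surf n {x : Sph n | inner ℝ (e : E (n + 1)) (x : E (n + 1)) = 0} = 0 := by
  refine surf_sub (Submodule.span ℝ {(e : E (n + 1))})ᗮ ?_ ?_ ?_
  · intro h
    have h1 : (e : E (n + 1)) ∈ (Submodule.span ℝ {(e : E (n + 1))})ᗮ := by rw [h]; trivial
    rw [Submodule.mem_orthogonal_singleton_iff_inner_right, real_inner_self_eq_norm_sq,
      show ‖(e : E (n + 1))‖ = 1 by simp] at h1
    norm_num at h1
  · exact (isClosed_eq (continuous_const.inner continuous_subtype_val)
      continuous_const).measurableSet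
  · intro x hx
    rw [Submodule.mem_orthogonal_singleton_iff_inner_right]
    exact hx

theorem surf_point {n : ℕ} (hn : 1 ≤ n) (A : Sph n) : surf n {A} = 0 := by
  refine surf_sub (Submodule.span ℝ {(A : E (n + 1))}) ?_ (measurableSet_singleton A) ?_
  · intro h
    have hA : (A : E (n + 1)) ≠ 0 := by
      intro h0
      have h2 : ‖(A : E (n + 1))‖ = 1 := by simp
      rw [h0, norm_zero] at h2
      norm_num at h2
    have h1 := finrank_span_singleton (K := ℝ) hA
    rw [h, finrank_top, finrank_euclideanSpace_fin] at h1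
    omega
  · intro x hx
    rw [mem_singleton_iff.1 hx]
    exact Submodule.mem_span_singleton_self _

end Pool.Agent.NE
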