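import Pool.Agent.NE.SPolar
import Pool.Agent.NE.SRot

set_option autoImplicit false

open MeasureTheory Set
open scoped ENNReal

namespace Pool.Agent.NE

/-- the surface measure of the sphere of directions -/
private noncomputable abbrev sg (n : ℕ) : Measure (Metric.sphere (0 : E n) 1) :=
  (volume : Measure (E n)).toSphere

/-- the weight in polar coordinates -/
private noncomputable def sw (n : ℕ) (r : ℝ) : ℝ≥0∞ := ENNReal.ofReal (Real.sin r ^ (n - 1))

private lemma sw_meas (n : ℕ) : Measurable (sw n) := by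
  unfold sw
  exact (Real.continuous_sin.pow (n - 1)).measurable.ennreal_ofReal

/-- the radial measure -/
private noncomputable def rm (n : ℕ) : Measure ℝ :=
  (volume.restrict (Ioo 0 Real.pi)).withDensity (sw n)

private lemma sw_le_one {n : ℕ} {r : ℝ} (hr : r ∈ Ioo 0 Real.pi) : Real.sin r ^ (n - 1) ≤ 1 :=
  pow_le_one₀ (Real.sin_pos_of_pos_of_lt_pi hr.1 hr.2).le (Real.sin_le_one r)

private instance (n : ℕ) : IsFiniteMeasure (rm n) := by
  refine ⟨?_⟩
  rw [rm, withDensity_apply _ MeasurableSet.univ, Measure.restrict_univ]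
  calc ∫⁻ a in Ioo 0 Real.pi, sw n a ≤ ∫⁻ a in Ioo 0 Real.pi, 1 := by
        apply setLIntegral_mono measurable_const
        intro r hr
        unfold sw
        exact ENNReal.ofReal_le_one.2 (sw_le_one hr)
    _ = volume (Ioo 0 Real.pi) := by simp
    _ < ⊤ := by simp

private lemma continuous_pt {n : ℕ} :
    Continuous (fun p : ℝ × Metric.sphere (0 : E n) 1 => pt p.1 (p.2 : E n)) := by
  unfold pt
  refine (PiLp.continuous_toLp 2 _).comp ?_
  refine continuous_pi fun i => ?_
  refine Fin.cases ?_ (fun i => ?_) i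
  · simp only [Fin.cons_zero]
    fun_prop
  · simp only [Fin.cons_succ]
    have h : Continuous (fun p : ℝ × Metric.sphere (0 : E n) 1 => (p.2 : E n) i) := by
      have h1 : Continuous (fun p : ℝ × Metric.sphere (0 : E n) 1 => (p.2 : E n)) :=
        continuous_subtype_val.comp continuous_snd
      exact (EuclideanSpace.proj (𝕜 := ℝ) i).continuous.comp h1
    exact (Real.continuous_sin.comp continuous_fst).mul h

private lemma lint_eq {n : ℕ} (hn : 1 ≤ n) (F : E (n + 1) → ℝ≥0∞) (hF : Measurable F) :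
    ∫⁻ x : Sph n, F (x : E (n + 1)) ∂(surf n) =
      ∫⁻ p, F (pt p.1 (p.2 : E n)) ∂((rm n).prod (sg n)) := by
  have hm : Measurable (fun p : ℝ × Metric.sphere (0 : E n) 1 => F (pt p.1 (p.2 : E n))) :=
    hF.comp continuous_pt.measurable
  rw [polarS hn F hF, lintegral_prod _ hm.aemeasurable, rm,
    lintegral_withDensity_eq_lintegral_mul _ (sw_meas n) hm.lintegral_prod_right']
  refine lintegral_congr fun r => ?_
  have hmr : Measurable (fun θ : Metric.sphere (0 : E n) 1 => F (pt r (θ : E n))) :=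
    hm.comp measurable_prodMk_left
  have h5 : ∫⁻ θ : Metric.sphere (0 : E n) 1, F (pt r (θ : E n)) * sw n r ∂(sg n) =
      (∫⁻ θ : Metric.sphere (0 : E n) 1, F (pt r (θ : E n)) ∂(sg n)) * sw n r :=
    lintegral_mul_const (sw n r) hmr
  rw [Pi.mul_apply, mul_comm]
  exact h5

private lemma map_eq {n : ℕ} (hn : 1 ≤ n) :
    (surf n).map (fun x : Sph n => (x : E (n + 1))) =
      ((rm n).prod (sg n)).map (fun p => pt p.1 (p.2 : E n)) := by
  refine Measure.ext_of_lintegral _ fun F hF => ?_
  rw [lintegral_map hF measurable_subtype_coe, lintegral_map hF continuous_pt.measurable]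
  exact lint_eq hn F hF

private lemma int_eq {n : ℕ} (hn : 1 ≤ n) {F : E (n + 1) → ℝ} (hF : StronglyMeasurable F) :
    ∫ x : Sph n, F x ∂(surf n) =
      ∫ p, F (pt p.1 (p.2 : E n)) ∂((rm n).prod (sg n)) := by
  rw [← integral_map (φ := fun x : Sph n => (x : E (n + 1)))
    measurable_subtype_coe.aemeasurable hF.aestronglyMeasurable, map_eq hn,
    integral_map continuous_pt.aemeasurable hF.aestronglyMeasurable]

private lemma norm_pt {n : ℕ} (r : ℝ) (θ : Metric.sphere (0 : E n) 1) :
    ‖pt r (θ : E n)‖ = 1 := by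
  have hθ : ‖(θ : E n)‖ = 1 := by simp
  have h2 : ∑ i, (θ : E n) i ^ 2 = 1 := by
    have := EuclideanSpace.norm_sq_eq (θ : E n)
    rw [hθ] at this
    simpa using this.symm
  have h1 : ‖pt r (θ : E n)‖ ^ 2 = 1 := by
    rw [EuclideanSpace.norm_sq_eq, Fin.sum_univ_succ]
    simp only [pt, Fin.cons_zero, Fin.cons_succ, Real.norm_eq_abs, sq_abs, mul_pow]
    rw [← Finset.mul_sum, h2]
    simp
  have h0 : 0 ≤ ‖pt r (θ : E n)‖ := norm_nonneg _
  nlinarith [h0, h1]

private lemma angle_pt {n : ℕ} {r : ℝ} (h0 : 0 ≤ r) (h1 : r ≤ Real.pi)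
    (θ : Metric.sphere (0 : E n) 1) :
    InnerProductGeometry.angle ((pole n : Sph n) : E (n + 1)) (pt r (θ : E n)) = r := by
  rw [InnerProductGeometry.angle, norm_pt]
  have h2 : inner ℝ ((pole n : Sph n) : E (n + 1)) (pt r (θ : E n)) = Real.cos r := by
    simp [pole, pt, EuclideanSpace.inner_single_left]
  have h3 : ‖((pole n : Sph n) : E (n + 1))‖ = 1 := by simp
  rw [h2, h3, mul_one, div_one, Real.arccos_cos h0 h1]

private lemma meas_angle {n : ℕ} (A : E (n + 1)) :
    Measurable (fun x : E (n + 1) => InnerProductGeometry.angle A x) := by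
  unfold InnerProductGeometry.angle
  refine Real.continuous_arccos.measurable.comp ?_
  fun_prop

private lemma ae_rm {n : ℕ} : ∀ᵐ r ∂(rm n), r ∈ Ioo 0 Real.pi := by
  rw [rm]
  exact (withDensity_absolutelyContinuous _ _).ae_le (ae_restrict_mem measurableSet_Ioo)

private lemma int_rm {n : ℕ} (g : ℝ → ℝ) :
    ∫ r, g r ∂(rm n) = ∫ r in Ioo 0 Real.pi, g r * Real.sin r ^ (n - 1) := by
  rw [rm, integral_withDensity_eq_integral_toReal_smul (sw_meas n)
    (Filter.Eventually.of_forall fun r => ENNReal.ofReal_lt_top)]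
  refine setIntegral_congr_fun measurableSet_Ioo fun r hr => ?_
  have : 0 ≤ Real.sin r ^ (n - 1) :=
    pow_nonneg (Real.sin_pos_of_pos_of_lt_pi hr.1 hr.2).le _
  simp only [sw, ENNReal.toReal_ofReal this, smul_eq_mul]
  ring

private noncomputable def F0 {n : ℕ} (f : E (n + 1) → ℝ) (R : ℝ) (y : E (n + 1)) : ℝ :=
  {y : E (n + 1) | InnerProductGeometry.angle ((pole n : Sph n) : E (n + 1)) y < R}.indicator f y

private lemma F0_sm {n : ℕ} {f : E (n + 1) → ℝ} (hf : Continuous f) (R : ℝ) :
    StronglyMeasurable (F0 f R) := by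
  refine (hf.measurable.indicator ?_).stronglyMeasurable
  exact measurableSet_lt (meas_angle _) measurable_const

private lemma cap_eq {n : ℕ} (hn : 1 ≤ n) (f : E (n + 1) → ℝ) (hf : Continuous f) (R : ℝ) :
    ∫ x in cap (pole n) R, f x ∂(surf n) =
      ∫ p, F0 f R (pt p.1 (p.2 : E n)) ∂((rm n).prod (sg n)) := by
  rw [← int_eq hn (F0_sm hf R)]
  have hm : MeasurableSet (cap (pole n) R) :=
    measurableSet_lt ((meas_angle _).comp measurable_subtype_coe) measurable_const
  rw [← integral_indicator hm]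
  refine integral_congr_ae (Filter.Eventually.of_forall fun x => ?_)
  by_cases hx : x ∈ cap (pole n) R
  · simp only [F0]
    rw [Set.indicator_of_mem hx, Set.indicator_of_mem]
    exact hx
  · simp only [F0]
    rw [Set.indicator_of_notMem hx, Set.indicator_of_notMem]
    exact hx

private lemma F0_pt {n : ℕ} (f : E (n + 1) → ℝ) (R : ℝ) {r : ℝ} (hr : r ∈ Ioo 0 Real.pi)
    (θ : Metric.sphere (0 : E n) 1) :
    F0 f R (pt r (θ : E n)) = (Iio R).indicator (fun r => f (pt r (θ : E n))) r := by
  unfold F0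
  by_cases h : r < R
  · rw [Set.indicator_of_mem, Set.indicator_of_mem]
    · exact h
    · change _ < R
      rwa [angle_pt hr.1.le hr.2.le]
  · rw [Set.indicator_of_notMem, Set.indicator_of_notMem]
    · exact h
    · change ¬ (_ < R)
      rwa [angle_pt hr.1.le hr.2.le]

private lemma F0_int {n : ℕ} {f : E (n + 1) → ℝ} (hf : Continuous f) (R : ℝ) :
    Integrable (fun p : ℝ × Metric.sphere (0 : E n) 1 => F0 f R (pt p.1 (p.2 : E n)))
      ((rm n).prod (sg n)) := by
  obtain ⟨C, hC⟩ : ∃ C, ∀ x ∈ Metric.closedBall (0 : E (n + 1)) 1, ‖f x‖ ≤ C :=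
    (isCompact_closedBall (0 : E (n + 1)) 1).exists_bound_of_continuousOn hf.continuousOn
  refine Integrable.of_bound
    ((F0_sm hf R).comp_measurable continuous_pt.measurable).aestronglyMeasurable C ?_
  refine Filter.Eventually.of_forall fun p => ?_
  have h1 : ‖f (pt p.1 (p.2 : E n))‖ ≤ C := hC _ (by simp [norm_pt])
  refine le_trans ?_ h1
  unfold F0
  exact norm_indicator_le_norm_self _ _

private lemma set_int {R : ℝ} (h0 : 0 < R) (hR : R ≤ Real.pi) (g : ℝ → ℝ) :
    ∫ r in Ioo 0 Real.pi, (Iio R).indicator g r = ∫ r in (0 : ℝ)..R, g r := by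
  rw [setIntegral_indicator measurableSet_Iio]
  have : Ioo 0 Real.pi ∩ Iio R = Ioo 0 R := by
    ext r
    simp only [mem_inter_iff, mem_Ioo, mem_Iio]
    constructor
    · rintro ⟨⟨h1, h2⟩, h3⟩; exact ⟨h1, h3⟩
    · rintro ⟨h1, h3⟩; exact ⟨⟨h1, by linarith⟩, h3⟩
  rw [this, intervalIntegral.integral_of_le h0.le, integral_Ioc_eq_integral_Ioo]

/-- Polar coordinates on a cap around the pole. -/
theorem polar_cap {n : ℕ} (hn : 1 ≤ n) (f : E (n + 1) → ℝ) (hf : Continuous f) {R : ℝ}
    (h0 : 0 < R) (hR : R ≤ Real.pi) :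
    ∫ x in cap (pole n) R, f x ∂(surf n) =
      ∫ r in (0 : ℝ)..R, (∫ θ : Metric.sphere (0 : E n) 1, f (pt r (θ : E n))
        ∂(volume : Measure (E n)).toSphere) * Real.sin r ^ (n - 1) := by
  rw [cap_eq hn f hf R, integral_prod _ (F0_int hf R), int_rm, ← set_int h0 hR]
  refine setIntegral_congr_fun measurableSet_Ioo fun r hr => ?_
  simp only [F0_pt f R hr]
  by_cases h : r < R
  · simp only [Set.indicator_of_mem (show r ∈ Iio R from h)]
  · simp only [Set.indicator_of_notMem (show r ∉ Iio R from h), integral_zero, zero_mul]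

/-- Polar coordinates on a cap around the pole, other order of integration. -/
theorem polar_cap' {n : ℕ} (hn : 1 ≤ n) (f : E (n + 1) → ℝ) (hf : Continuous f) {R : ℝ}
    (h0 : 0 < R) (hR : R ≤ Real.pi) :
    ∫ x in cap (pole n) R, f x ∂(surf n) =
      ∫ θ : Metric.sphere (0 : E n) 1, (∫ r in (0 : ℝ)..R, f (pt r (θ : E n)) *
        Real.sin r ^ (n - 1)) ∂(volume : Measure (E n)).toSphere := by
  rw [cap_eq hn f hf R, integral_prod_symm _ (F0_int hf R)]
  refine integral_congr_ae (Filter.Eventually.of_forall fun θ => ?_)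
  simp only
  rw [int_rm, ← set_int h0 hR]
  refine setIntegral_congr_fun measurableSet_Ioo fun r hr => ?_
  simp only [F0_pt f R hr]
  by_cases h : r < R
  · simp only [Set.indicator_of_mem (show r ∈ Iio R from h)]
  · simp only [Set.indicator_of_notMem (show r ∉ Iio R from h), zero_mul]

/-- Integrals of functions of the distance to a point. -/
theorem radS {n : ℕ} (hn : 1 ≤ n) : ∃ c : ℝ, 0 < c ∧ ∀ (A : Sph n) (h : ℝ → ℝ), Measurable h →
    (∃ M, ∀ r, |h r| ≤ M) →
    ∫ x : Sph n, h (InnerProductGeometry.angle (A : E (n + 1)) (x : E (n + 1))) ∂(surf n) =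
      c * ∫ r in (0 : ℝ)..Real.pi, h r * Real.sin r ^ (n - 1) := by
  haveI : Nonempty (Fin n) := ⟨⟨0, hn⟩⟩
  refine ⟨(sg n).real univ, ?_, ?_⟩
  · rw [Measure.real, ENNReal.toReal_pos_iff]
    refine ⟨?_, measure_lt_top _ _⟩
    rw [Measure.toSphere_apply_univ]
    refine ENNReal.mul_pos ?_ (Metric.measure_ball_pos _ _ one_pos).ne'
    simp only [finrank_euclideanSpace, Fintype.card_fin, ne_eq, Nat.cast_eq_zero]
    omega
  · intro A h hm ⟨M, hM⟩
    obtain ⟨L, hL⟩ := exists_rot A
    have h1 : ∫ x : Sph n, h (InnerProductGeometry.angle (A : E (n + 1)) (x : E (n + 1)))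
        ∂(surf n) = ∫ x : Sph n, h (InnerProductGeometry.angle ((pole n : Sph n) : E (n + 1))
          (x : E (n + 1))) ∂(surf n) := by
      have hF : StronglyMeasurable (fun x : Sph n =>
          h (InnerProductGeometry.angle ((pole n : Sph n) : E (n + 1)) (x : E (n + 1)))) :=
        (hm.comp ((meas_angle _).comp measurable_subtype_coe)).stronglyMeasurable
      have h2 := (rot_mp L).map_eq
      conv_rhs => rw [← h2]
      rw [integral_map (rot_mp L).aemeasurable hF.aestronglyMeasurable]
      refine integral_congr_ae (Filter.Eventually.of_forall fun x => ?_)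
      simp only
      congr 1
      rw [← hL]
      exact (LinearIsometry.angle_map L.toLinearIsometry _ _).symm
    rw [h1, int_eq hn (F := fun x => h (InnerProductGeometry.angle
      ((pole n : Sph n) : E (n + 1)) x)) (hm.comp (meas_angle _)).stronglyMeasurable]
    have hi : Integrable (fun p : ℝ × Metric.sphere (0 : E n) 1 =>
        h (InnerProductGeometry.angle ((pole n : Sph n) : E (n + 1)) (pt p.1 (p.2 : E n))))
        ((rm n).prod (sg n)) := by
      refine Integrable.of_bound (hm.comp ((meas_angle _).comp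
        continuous_pt.measurable)).aestronglyMeasurable M ?_
      exact Filter.Eventually.of_forall fun p => by
        rw [Real.norm_eq_abs]; exact hM _
    rw [integral_prod _ hi, int_rm, intervalIntegral.integral_of_le Real.pi_pos.le,
      integral_Ioc_eq_integral_Ioo, ← integral_const_mul]
    refine setIntegral_congr_fun measurableSet_Ioo fun r hr => ?_
    have h3 : ∀ θ : Metric.sphere (0 : E n) 1,
        h (InnerProductGeometry.angle ((pole n : Sph n) : E (n + 1)) (pt r (θ : E n))) = h r :=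
      fun θ => by rw [angle_pt hr.1.le hr.2.le]
    simp only [h3, integral_const, smul_eq_mul]
    ring

end Pool.Agent.NE
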