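import Pool.Agent.NE.SphP
import Pool.Agent.NE.SPolarC
import Pool.Agent.NE.OneR
import Pool.Agent.NE.SBallPAux

set_option autoImplicit false

open MeasureTheory Set
open scoped ENNReal ContDiff Gradient

namespace Pool.Agent.NE

namespace SBallPAux

/-- the last `n` coordinates -/
noncomputable def tail {n : ℕ} (V : E (n + 1)) : E n := WithLp.toLp 2 (fun i => V (Fin.succ i))

/-- the derivative of `pt` in `r` -/
noncomputable def dpt {n : ℕ} (r : ℝ) (θ : E n) : E (n + 1) :=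
  WithLp.toLp 2 (Fin.cons (-Real.sin r) (fun i => Real.cos r * θ i))

lemma inner_cons {n : ℕ} (V : E (n + 1)) (a b : ℝ) (θ : E n) :
    inner ℝ V (WithLp.toLp 2 (Fin.cons a (fun i => b * θ i)) : E (n + 1)) =
      V 0 * a + b * inner ℝ (tail V) θ := by
  simp only [PiLp.inner_apply, RCLike.inner_apply, conj_trivial, Fin.sum_univ_succ, tail,
    Fin.cons_zero, Fin.cons_succ, Finset.mul_sum]
  congr 1
  · ring
  · exact Finset.sum_congr rfl fun i _ => by ring

lemma norm_sq_cons {n : ℕ} (V : E (n + 1)) : ‖V‖ ^ 2 = V 0 ^ 2 + ‖tail V‖ ^ 2 := by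
  rw [EuclideanSpace.norm_sq_eq, EuclideanSpace.norm_sq_eq, Fin.sum_univ_succ]
  simp [tail]

lemma pt_eq {n : ℕ} (r : ℝ) (θ : E n) :
    pt r θ = (WithLp.toLp 2 (Fin.cons (Real.cos r) (fun i => Real.sin r * θ i)) : E (n + 1)) := rfl

lemma key_identity {n : ℕ} (V : E (n + 1)) (r : ℝ) (θ : E n) :
    (‖V‖ ^ 2 - inner ℝ V (pt r θ) ^ 2) - inner ℝ V (dpt r θ) ^ 2 =
      ‖tail V‖ ^ 2 - inner ℝ (tail V) θ ^ 2 := by
  rw [norm_sq_cons, pt_eq, dpt, inner_cons, inner_cons]
  have := Real.sin_sq_add_cos_sq r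
  linear_combination (- V 0 ^ 2 - inner ℝ (tail V) θ ^ 2) * this

lemma hasDerivAt_pt {n : ℕ} (r : ℝ) (θ : E n) :
    HasDerivAt (fun r => (pt r θ : E (n + 1))) (dpt r θ) r := by
  have h1 : HasDerivAt (fun r => (Fin.cons (Real.cos r) (fun i => Real.sin r * θ i) :
      Fin (n + 1) → ℝ)) (Fin.cons (-Real.sin r) (fun i => Real.cos r * θ i)) r := by
    rw [hasDerivAt_pi]
    intro i
    refine Fin.cases ?_ (fun i => ?_) i
    · simpa using Real.hasDerivAt_cos r
    · simpa using (Real.hasDerivAt_sin r).mul_const (θ i)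
  exact ((EuclideanSpace.equiv (Fin (n + 1)) ℝ).symm.toContinuousLinearMap.hasFDerivAt).comp_hasDerivAt
    r h1

lemma cont_pt {n : ℕ} : Continuous (fun z : ℝ × E n => (pt z.1 z.2 : E (n + 1))) := by
  have h1 : Continuous (fun z : ℝ × E n => (Fin.cons (Real.cos z.1)
      (fun i => Real.sin z.1 * z.2 i) : Fin (n + 1) → ℝ)) := by
    refine continuous_pi fun i => ?_
    refine Fin.cases ?_ (fun i => ?_) i
    · simp only [Fin.cons_zero]; fun_prop
    · simp only [Fin.cons_succ]; fun_prop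
  exact (EuclideanSpace.equiv (Fin (n + 1)) ℝ).symm.continuous.comp h1

lemma cont_dpt {n : ℕ} : Continuous (fun z : ℝ × E n => (dpt z.1 z.2 : E (n + 1))) := by
  have h1 : Continuous (fun z : ℝ × E n => (Fin.cons (-Real.sin z.1)
      (fun i => Real.cos z.1 * z.2 i) : Fin (n + 1) → ℝ)) := by
    refine continuous_pi fun i => ?_
    refine Fin.cases ?_ (fun i => ?_) i
    · simp only [Fin.cons_zero]; fun_prop
    · simp only [Fin.cons_succ]; fun_prop
  exact (EuclideanSpace.equiv (Fin (n + 1)) ℝ).symm.continuous.comp h1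

lemma contDiff_pt {n : ℕ} (r : ℝ) : ContDiff ℝ ∞ (fun x : E n => (pt r x : E (n + 1))) := by
  have h1 : ContDiff ℝ ∞ (fun x : E n => (Fin.cons (Real.cos r)
      (fun i => Real.sin r * x i) : Fin (n + 1) → ℝ)) := by
    rw [contDiff_pi]
    intro i
    refine Fin.cases ?_ (fun i => ?_) i
    · simp only [Fin.cons_zero]; fun_prop
    · simp only [Fin.cons_succ]; fun_prop
  exact (EuclideanSpace.equiv (Fin (n + 1)) ℝ).symm.toContinuousLinearMap.contDiff.comp h1

lemma gradient_pt {n : ℕ} (φ : E (n + 1) → ℝ) (hφ : ContDiff ℝ ∞ φ) (r : ℝ) (x : E n) :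
    ∇ (fun x => φ (pt r x)) x = Real.sin r • tail (∇ φ (pt r x)) := by
  have h1 : DifferentiableAt ℝ φ (pt r x) := hφ.differentiable (by simp) _
  have h2 : DifferentiableAt ℝ (fun x : E n => (pt r x : E (n + 1))) x :=
    (contDiff_pt r).differentiable (by simp) _
  have h3 := h1.hasFDerivAt.comp x h2.hasFDerivAt
  refine ext_inner_right ℝ fun v => ?_
  have h4 : inner ℝ (∇ (fun x => φ (pt r x)) x) v = fderiv ℝ (fun x => φ (pt r x)) x v := by
    simp [gradient]
  have h5 : fderiv ℝ (fun x => φ (pt r x)) x v =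
      fderiv ℝ φ (pt r x) (fderiv ℝ (fun x : E n => (pt r x : E (n + 1))) x v) := by
    have := h3.fderiv
    rw [show (fun x => φ (pt r x)) = φ ∘ (fun x : E n => (pt r x : E (n + 1))) from rfl, this]
    rfl
  have h6 : fderiv ℝ (fun x : E n => (pt r x : E (n + 1))) x v =
      WithLp.toLp 2 (Fin.cons 0 (fun i => Real.sin r * v i)) := by
    have g1 : HasFDerivAt (fun x : E n => (pt r x : E (n + 1)))
        (fderiv ℝ (fun x : E n => (pt r x : E (n + 1))) x) x := h2.hasFDerivAt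
    have g2 : HasDerivAt (fun t : ℝ => (pt r (x + t • v) : E (n + 1)))
        (fderiv ℝ (fun x : E n => (pt r x : E (n + 1))) x v) 0 := by
      have g3 : HasDerivAt (fun t : ℝ => x + t • v) v 0 := by
        simpa using ((hasDerivAt_id (0 : ℝ)).smul_const v).const_add x
      have g4 : HasFDerivAt (fun x : E n => (pt r x : E (n + 1)))
        (fderiv ℝ (fun x : E n => (pt r x : E (n + 1))) x) (x + (0 : ℝ) • v) := by
        simpa using g1
      exact g4.comp_hasDerivAt (0 : ℝ) g3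
    have g5 : HasDerivAt (fun t : ℝ => (pt r (x + t • v) : E (n + 1)))
        (WithLp.toLp 2 (Fin.cons 0 (fun i => Real.sin r * v i))) 0 := by
      have g6 : HasDerivAt (fun t : ℝ => (Fin.cons (Real.cos r)
          (fun i => Real.sin r * (x + t • v) i) : Fin (n + 1) → ℝ))
          (Fin.cons 0 (fun i => Real.sin r * v i)) 0 := by
        rw [hasDerivAt_pi]
        intro i
        refine Fin.cases ?_ (fun i => ?_) i
        · simpa using hasDerivAt_const (0 : ℝ) (Real.cos r)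
        · simp only [Fin.cons_succ, PiLp.add_apply, PiLp.smul_apply, smul_eq_mul]
          have := (((hasDerivAt_id (0 : ℝ)).mul_const (v i)).const_add (x i)).const_mul (Real.sin r)
          simpa using this
      exact ((EuclideanSpace.equiv (Fin (n + 1)) ℝ).symm.toContinuousLinearMap.hasFDerivAt).comp_hasDerivAt
        (0 : ℝ) g6
    exact g2.unique g5
  have h7 : fderiv ℝ φ (pt r x) (WithLp.toLp 2 (Fin.cons 0 (fun i => Real.sin r * v i))) =
      inner ℝ (∇ φ (pt r x)) (WithLp.toLp 2 (Fin.cons 0 (fun i => Real.sin r * v i)) : E (n + 1)) := by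
    simp [gradient]
  rw [h4, h5, h6, h7, inner_cons, real_inner_smul_left]
  ring

lemma continuous_gradient' {m : ℕ} (φ : E m → ℝ) (hφ : ContDiff ℝ ∞ φ) : Continuous (∇ φ) := by
  have h1 : Continuous (fderiv ℝ φ) := hφ.continuous_fderiv (by simp)
  exact (InnerProductSpace.toDual ℝ (E m)).symm.continuous.comp h1

lemma hasDerivAt_phi {n : ℕ} (φ : E (n + 1) → ℝ) (hφ : ContDiff ℝ ∞ φ) (r : ℝ) (θ : E n) :
    HasDerivAt (fun r => φ (pt r θ)) (inner ℝ (∇ φ (pt r θ)) (dpt r θ)) r := by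
  have h1 : DifferentiableAt ℝ φ (pt r θ) := hφ.differentiable (by simp) _
  have h3 := h1.hasFDerivAt.comp_hasDerivAt r (hasDerivAt_pt r θ)
  have h4 : fderiv ℝ φ (pt r θ) (dpt r θ) = inner ℝ (∇ φ (pt r θ)) (dpt r θ) := by
    simp [gradient]
  rw [← h4]
  exact h3

lemma pt_zero {n : ℕ} (θ : E n) : (pt 0 θ : E (n + 1)) = (pole n : E (n + 1)) := by
  ext i
  refine Fin.cases ?_ (fun i => ?_) i
  · simp [pt, pole]
  · simp [pt, pole]

lemma cont_pt_sph {n : ℕ} : Continuous (fun z : ℝ × Metric.sphere (0 : E n) 1 =>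
    (pt z.1 (z.2 : E n) : E (n + 1))) := by
  have h : Continuous (fun z : ℝ × Metric.sphere (0 : E n) 1 => ((z.1, (z.2 : E n)) : ℝ × E n)) :=
    continuous_fst.prodMk (continuous_subtype_val.comp continuous_snd)
  exact Continuous.comp (g := fun z : ℝ × E n => (pt z.1 z.2 : E (n + 1)))
    (f := fun z : ℝ × Metric.sphere (0 : E n) 1 => ((z.1, (z.2 : E n)) : ℝ × E n)) cont_pt h

lemma cont_dpt_sph {n : ℕ} : Continuous (fun z : ℝ × Metric.sphere (0 : E n) 1 =>
    (dpt z.1 (z.2 : E n) : E (n + 1))) := by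
  have h : Continuous (fun z : ℝ × Metric.sphere (0 : E n) 1 => ((z.1, (z.2 : E n)) : ℝ × E n)) :=
    continuous_fst.prodMk (continuous_subtype_val.comp continuous_snd)
  exact Continuous.comp (g := fun z : ℝ × E n => (dpt z.1 z.2 : E (n + 1)))
    (f := fun z : ℝ × Metric.sphere (0 : E n) 1 => ((z.1, (z.2 : E n)) : ℝ × E n)) cont_dpt h

/-- the inequality for the cap around the pole -/
theorem ballPS_pole {n : ℕ} (hn : 1 ≤ n) {R μ : ℝ} {g dg : ℝ → ℝ} (hg : IsSProfile n R μ g dg)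
    (φ : E (n + 1) → ℝ) (hφ : ContDiff ℝ ∞ φ) :
    μ * ((∫ x in cap (pole n) R, φ x ^ 2 ∂(surf n)) -
        (∫ x in cap (pole n) R, φ x ∂(surf n)) ^ 2 / (surf n).real (cap (pole n) R)) ≤
      ∫ x in cap (pole n) R, (‖∇ φ (x : E (n + 1))‖ ^ 2 -
        (inner ℝ (∇ φ (x : E (n + 1))) (x : E (n + 1))) ^ 2) ∂(surf n) := by
  have hR := hg.R_pos
  have hRpi : R ≤ Real.pi := hg.R_le.trans (by linarith [Real.pi_pos])
  have : Nonempty (Fin n) := ⟨⟨0, hn⟩⟩
  have : Nontrivial (E n) := inferInstance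
  set σ := (volume : Measure (E n)).toSphere with hσdef
  have hσ : 0 < σ.real univ := by
    rw [measureReal_def, ENNReal.toReal_pos_iff]
    refine ⟨?_, measure_lt_top _ _⟩
    rw [pos_iff_ne_zero, ne_eq, Measure.measure_univ_eq_zero]
    exact Measure.toSphere_ne_zero _
  have hgc := continuous_gradient' φ hφ
  have hφc := hφ.continuous
  have cQ : Continuous (fun x : E (n + 1) => ‖∇ φ x‖ ^ 2 - (inner ℝ (∇ φ x) x) ^ 2) :=
    (hgc.norm.pow 2).sub ((hgc.inner continuous_id).pow 2)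
  have p1 := polar_cap hn φ hφc hR hRpi
  have p2 := polar_cap hn (fun x => φ x ^ 2) (hφc.pow 2) hR hRpi
  have p3 := polar_cap hn _ cQ hR hRpi
  have p0 := polar_cap (n := n) hn (fun _ => (1 : ℝ)) continuous_const hR hRpi
  have v0 : (surf n).real (cap (pole n) R) =
      ∫ r in (0 : ℝ)..R, σ.real univ * Real.sin r ^ (n - 1) := by
    have : (surf n).real (cap (pole n) R) = ∫ _x in cap (pole n) R, (1 : ℝ) ∂(surf n) := by
      simp
    rw [this, p0]
    simp [hσdef]
  rw [p1, p2, p3, v0]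
  have cpt := cont_pt_sph (n := n)
  have cdpt := cont_dpt_sph (n := n)
  have k1 : Continuous (Function.uncurry fun (r : ℝ) (θ : Metric.sphere (0 : E n) 1) =>
      φ (pt r (θ : E n))) := hφc.comp cpt
  have k2 : Continuous (Function.uncurry fun (r : ℝ) (θ : Metric.sphere (0 : E n) 1) =>
      (inner ℝ (∇ φ (pt r (θ : E n))) (dpt r (θ : E n)) : ℝ)) := (hgc.comp cpt).inner cdpt
  have k3 : Continuous (Function.uncurry fun (r : ℝ) (θ : Metric.sphere (0 : E n) 1) =>
      ‖∇ φ (pt r (θ : E n))‖ ^ 2 - (inner ℝ (∇ φ (pt r (θ : E n))) (pt r (θ : E n)) : ℝ) ^ 2) :=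
    cQ.comp cpt
  have k4 : ∀ (r : ℝ) (θ : Metric.sphere (0 : E n) 1), HasDerivAt (fun r => φ (pt r (θ : E n)))
      (inner ℝ (∇ φ (pt r (θ : E n))) (dpt r (θ : E n)) : ℝ) r := fun r θ =>
    hasDerivAt_phi φ hφ r (θ : E n)
  have k5 : ∀ θ : Metric.sphere (0 : E n) 1, φ (pt 0 (θ : E n)) = φ (pole n : E (n + 1)) := by
    intro θ
    rw [pt_zero]
  have k6 : ∀ r : ℝ, 0 < r → (n - 1 : ℝ) * (∫ θ : Metric.sphere (0 : E n) 1,
      φ (pt r (θ : E n)) ^ 2 ∂σ - (∫ θ : Metric.sphere (0 : E n) 1, φ (pt r (θ : E n)) ∂σ) ^ 2 /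
        σ.real univ) ≤ Real.sin r ^ 2 * ∫ θ : Metric.sphere (0 : E n) 1,
          ((‖∇ φ (pt r (θ : E n))‖ ^ 2 - (inner ℝ (∇ φ (pt r (θ : E n))) (pt r (θ : E n)) : ℝ) ^ 2)
            - (inner ℝ (∇ φ (pt r (θ : E n))) (dpt r (θ : E n)) : ℝ) ^ 2) ∂σ := by
    intro r _
    have hfr : ContDiff ℝ ∞ (fun x : E n => φ (pt r x)) := hφ.comp (contDiff_pt r)
    have h1 := sphP hn (fun x : E n => φ (pt r x)) hfr
    simp only [gradient_pt φ hφ r] at h1
    refine h1.trans (le_of_eq ?_)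
    rw [← integral_const_mul]
    congr 1
    funext θ
    rw [key_identity, norm_smul, real_inner_smul_left, mul_pow, Real.norm_eq_abs, sq_abs]
    ring
  have k7 : ∀ r ∈ Ioc 0 R, 2 / Real.pi * r ≤ Real.sin r := by
    intro r hr
    exact Real.mul_le_sin hr.1.le (hr.2.trans hg.R_le)
  exact BallPAux.coreS (σ := σ) hn hg.cap (by positivity) k7 hσ _ _ _ k1 k2 k3 k4 _ k5 k6

end SBallPAux

open SBallPAux

/-- Sharp Poincare inequality on a spherical cap for smooth functions. -/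
theorem ballPS {n : ℕ} (hn : 1 ≤ n) {R μ : ℝ} {g dg : ℝ → ℝ} (hg : IsSProfile n R μ g dg)
    (c : Sph n) (φ : E (n + 1) → ℝ) (hφ : ContDiff ℝ ∞ φ) :
    μ * ((∫ x in cap c R, φ x ^ 2 ∂(surf n)) -
        (∫ x in cap c R, φ x ∂(surf n)) ^ 2 / (surf n).real (cap c R)) ≤
      ∫ x in cap c R, (‖∇ φ (x : E (n + 1))‖ ^ 2 -
        (inner ℝ (∇ φ (x : E (n + 1))) (x : E (n + 1))) ^ 2) ∂(surf n) := by
  obtain ⟨L, hL⟩ := exists_rot c
  have hLc : L (c : E (n + 1)) = (pole n : E (n + 1)) := congrArg Subtype.val hL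
  have hmp := rot_mp L
  have hemb : MeasurableEmbedding (rotS L) := by
    have hc : Continuous (rotS L) := by
      unfold rotS
      exact Continuous.subtype_mk (L.continuous.comp continuous_subtype_val) _
    refine Continuous.measurableEmbedding hc ?_
    intro x y hxy
    apply Subtype.ext
    exact L.injective (congrArg Subtype.val hxy)
  have hpre : rotS L ⁻¹' cap (pole n) R = cap c R := by
    ext x
    simp only [cap, Set.mem_preimage, Set.mem_ofPred_eq, rotS]
    have h1 := LinearIsometry.angle_map L.toLinearIsometry (c : E (n + 1)) (x : E (n + 1))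
    rw [LinearIsometryEquiv.coe_toLinearIsometry] at h1
    rw [← hLc, h1]
  have tr : ∀ F : Sph n → ℝ, ∫ x in cap c R, F (rotS L x) ∂(surf n) =
      ∫ x in cap (pole n) R, F x ∂(surf n) := by
    intro F
    rw [← hpre]
    exact hmp.setIntegral_preimage_emb hemb F _
  have vol : (surf n).real (cap (pole n) R) = (surf n).real (cap c R) := by
    have := tr (fun _ => (1 : ℝ))
    simpa using this.symm
  have hφ' : ContDiff ℝ ∞ (fun x => φ (L.symm x)) := hφ.comp L.symm.contDiff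
  have h := ballPS_pole hn hg (fun x => φ (L.symm x)) hφ'
  have hgrad : ∀ x, ∇ (fun x => φ (L.symm x)) x = L (∇ φ (L.symm x)) := by
    intro x
    have h1 : DifferentiableAt ℝ φ (L.symm x) := hφ.differentiable (by simp) _
    have h3 := h1.hasFDerivAt.comp x (L.symm.toContinuousLinearEquiv.hasFDerivAt (x := x))
    refine ext_inner_right ℝ fun v => ?_
    have h4 : inner ℝ (∇ (fun x => φ (L.symm x)) x) v = fderiv ℝ (fun x => φ (L.symm x)) x v := by
      simp [gradient]
    have h5 : fderiv ℝ (fun x => φ (L.symm x)) x v = fderiv ℝ φ (L.symm x) (L.symm v) := by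
      have h7 : HasFDerivAt (fun x => φ (L.symm x)) ((fderiv ℝ φ (L.symm x)).comp
        (L.symm.toContinuousLinearEquiv : E (n + 1) →L[ℝ] E (n + 1))) x := h3
      rw [h7.fderiv]
      rfl
    have h6 : fderiv ℝ φ (L.symm x) (L.symm v) = inner ℝ (∇ φ (L.symm x)) (L.symm v) := by
      simp [gradient]
    rw [h4, h5, h6, ← L.inner_map_map (∇ φ (L.symm x)) (L.symm v), L.apply_symm_apply]
  have e1 := tr (fun x => φ (L.symm x) ^ 2)
  have e2 := tr (fun x => φ (L.symm x))
  have e3 := tr (fun x => ‖∇ (fun x => φ (L.symm x)) (x : E (n + 1))‖ ^ 2 -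
        (inner ℝ (∇ (fun x => φ (L.symm x)) (x : E (n + 1))) (x : E (n + 1))) ^ 2)
  rw [← e1, ← e2, ← e3, vol] at h
  have s : ∀ x : Sph n, L.symm (rotS L x : E (n + 1)) = x := fun x => by
    simp [rotS]
  simp only [hgrad, s] at h
  have s2 : ∀ x : Sph n, (inner ℝ (L (∇ φ (x : E (n + 1)))) (rotS L x : E (n + 1)) : ℝ) =
      inner ℝ (∇ φ (x : E (n + 1))) (x : E (n + 1)) := fun x => by
    change inner ℝ (L (∇ φ (x : E (n + 1)))) (L (x : E (n + 1))) = _
    rw [L.inner_map_map]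
  simp only [s2, LinearIsometryEquiv.norm_map] at h
  exact h

end Pool.Agent.NE
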