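import Pool.Agent.NE.SRot

set_option autoImplicit false

open MeasureTheory Set
open scoped ENNReal

namespace Pool.Agent.NE

private lemma SCap_norm {n : ℕ} (c : Sph n) : ‖(c : E (n + 1))‖ = 1 := by simp

private lemma SCap_cos {n : ℕ} (c x : Sph n) :
    Real.cos (InnerProductGeometry.angle (c : E (n + 1)) (x : E (n + 1))) =
      inner ℝ (c : E (n + 1)) (x : E (n + 1)) := by
  rw [InnerProductGeometry.cos_angle, SCap_norm, SCap_norm]
  simp

private lemma SCap_dist {n : ℕ} (c x : Sph n) :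
    dist x c ^ 2 = 2 - 2 * inner ℝ (c : E (n + 1)) (x : E (n + 1)) := by
  rw [Subtype.dist_eq, dist_eq_norm, norm_sub_sq_real, SCap_norm, SCap_norm, real_inner_comm]
  ring

private lemma SCap_cont {n : ℕ} (c : Sph n) :
    Continuous (fun x : Sph n => inner ℝ (c : E (n + 1)) (x : E (n + 1))) := by fun_prop

/-- a unit vector orthogonal to `c` -/
private lemma SCap_exists_orth {n : ℕ} (hn : 1 ≤ n) (c : Sph n) :
    ∃ e : E (n + 1), ‖e‖ = 1 ∧ inner ℝ (c : E (n + 1)) e = 0 := by
  have h1 : ∃ v : E (n + 1), v ∈ (Submodule.span ℝ {(c : E (n + 1))})ᗮ ∧ v ≠ 0 := by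
    by_contra hcon
    push Not at hcon
    have h2 : (Submodule.span ℝ {(c : E (n + 1))})ᗮ = ⊥ := by
      rw [Submodule.eq_bot_iff]
      exact hcon
    rw [Submodule.orthogonal_eq_bot_iff] at h2
    have h3 := finrank_span_singleton (K := ℝ) (v := (c : E (n + 1)))
      (by intro h; have := SCap_norm c; rw [h, norm_zero] at this; exact zero_ne_one this)
    rw [h2, finrank_top] at h3
    simp at h3
    omega
  obtain ⟨v, hv, hv0⟩ := h1
  refine ⟨‖v‖⁻¹ • v, ?_, ?_⟩
  · rw [norm_smul, norm_inv, norm_norm, inv_mul_cancel₀ (norm_ne_zero_iff.mpr hv0)]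
  · rw [inner_smul_right, Submodule.mem_orthogonal_singleton_iff_inner_right.1 hv, mul_zero]

/-- points just below the equator -/
private lemma SCap_exists_band {n : ℕ} (hn : 1 ≤ n) (c : Sph n) {s : ℝ} (hs : 0 < s) :
    ∃ x : Sph n, -s < inner ℝ (c : E (n + 1)) (x : E (n + 1)) ∧
      inner ℝ (c : E (n + 1)) (x : E (n + 1)) < 0 := by
  obtain ⟨e, he, hce⟩ := SCap_exists_orth hn c
  have hN : (1 : ℝ) ≤ ‖e - s • (c : E (n + 1))‖ := by
    have h1 : ‖e - s • (c : E (n + 1))‖ ^ 2 = 1 + s ^ 2 := by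
      rw [norm_sub_sq_real, norm_smul, SCap_norm, he, inner_smul_right, real_inner_comm, hce]
      simp
    have h2 := norm_nonneg (e - s • (c : E (n + 1)))
    nlinarith
  have hN0 : (0 : ℝ) < ‖e - s • (c : E (n + 1))‖ := by linarith
  refine ⟨⟨‖e - s • (c : E (n + 1))‖⁻¹ • (e - s • (c : E (n + 1))), ?_⟩, ?_, ?_⟩
  · rw [mem_sphere_zero_iff_norm, norm_smul, norm_inv, norm_norm, inv_mul_cancel₀ hN0.ne']
  · show -s < inner ℝ (c : E (n + 1)) (‖e - s • (c : E (n + 1))‖⁻¹ • (e - s • (c : E (n + 1))))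
    rw [inner_smul_right, inner_sub_right, inner_smul_right, hce, real_inner_self_eq_norm_sq,
      SCap_norm]
    have h3 : ‖e - s • (c : E (n + 1))‖⁻¹ ≤ 1 := inv_le_one_of_one_le₀ hN
    have h5 : 0 < ‖e - s • (c : E (n + 1))‖⁻¹ := inv_pos.2 hN0
    rcases eq_or_lt_of_le h3 with h4 | h4
    · exfalso
      have h6 : ‖e - s • (c : E (n + 1))‖ = 1 := by
        exact inv_eq_one.1 h4
      have h1 : ‖e - s • (c : E (n + 1))‖ ^ 2 = 1 + s ^ 2 := by
        rw [norm_sub_sq_real, norm_smul, SCap_norm, he, inner_smul_right, real_inner_comm, hce]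
        simp
      rw [h6] at h1
      nlinarith
    · nlinarith
  · show inner ℝ (c : E (n + 1)) (‖e - s • (c : E (n + 1))‖⁻¹ • (e - s • (c : E (n + 1)))) < 0
    rw [inner_smul_right, inner_sub_right, inner_smul_right, hce, real_inner_self_eq_norm_sq,
      SCap_norm]
    have h5 : 0 < ‖e - s • (c : E (n + 1))‖⁻¹ := inv_pos.2 hN0
    nlinarith

/-- the closed hemisphere has at least half of the measure -/
private lemma SCap_half {n : ℕ} (c : Sph n) :
    surf n univ / 2 ≤ surf n {x : Sph n | 0 ≤ inner ℝ (c : E (n + 1)) (x : E (n + 1))} := by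
  have hmp := rot_mp (n := n) (LinearIsometryEquiv.neg ℝ)
  have hm : MeasurableSet {x : Sph n | 0 ≤ inner ℝ (c : E (n + 1)) (x : E (n + 1))} :=
    measurableSet_le measurable_const (SCap_cont c).measurable
  have h1 := hmp.measure_preimage hm.nullMeasurableSet
  have h2 : (univ : Set (Sph n)) ⊆ {x : Sph n | 0 ≤ inner ℝ (c : E (n + 1)) (x : E (n + 1))} ∪
      rotS (LinearIsometryEquiv.neg ℝ) ⁻¹'
        {x : Sph n | 0 ≤ inner ℝ (c : E (n + 1)) (x : E (n + 1))} := by
    intro x _
    rcases le_total 0 (inner ℝ (c : E (n + 1)) (x : E (n + 1))) with h | h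
    · exact Or.inl h
    · right
      show 0 ≤ inner ℝ (c : E (n + 1)) (-(x : E (n + 1)))
      rw [inner_neg_right]
      linarith
  have h3 := (measure_mono h2).trans (measure_union_le (μ := surf n) _ _)
  rw [h1, ← two_mul] at h3
  exact ENNReal.div_le_of_le_mul' h3

/-- A metric ball of the sphere that contains at most half of the measure is a cap of geodesic radius
at most `π/2`. -/
theorem cap_of_ball {n : ℕ} (hn : 1 ≤ n) (c : Sph n) (ρ : ℝ) (h0 : surf n (Metric.ball c ρ) ≠ 0)
    (h : surf n (Metric.ball c ρ) ≤ surf n univ / 2) :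
    ∃ R, 0 < R ∧ R ≤ Real.pi / 2 ∧ Metric.ball c ρ = cap c R := by
  have hρ : 0 < ρ := by
    by_contra hcon
    apply h0
    rw [Metric.ball_eq_empty.2 (not_lt.1 hcon), measure_empty]
  have hmem : ∀ x : Sph n, x ∈ Metric.ball c ρ ↔
      1 - ρ ^ 2 / 2 < inner ℝ (c : E (n + 1)) (x : E (n + 1)) := by
    intro x
    rw [Metric.mem_ball, ← sq_lt_sq₀ dist_nonneg hρ.le, SCap_dist]
    constructor <;> intro h1 <;> linarith
  have hρ2 : ρ ^ 2 ≤ 2 := by
    by_contra hcon
    rw [not_le] at hcon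
    -- the band
    have hband : IsOpen {x : Sph n | 1 - ρ ^ 2 / 2 < inner ℝ (c : E (n + 1)) (x : E (n + 1)) ∧
        inner ℝ (c : E (n + 1)) (x : E (n + 1)) < 0} :=
      (isOpen_lt continuous_const (SCap_cont c)).inter (isOpen_lt (SCap_cont c) continuous_const)
    have hne : {x : Sph n | 1 - ρ ^ 2 / 2 < inner ℝ (c : E (n + 1)) (x : E (n + 1)) ∧
        inner ℝ (c : E (n + 1)) (x : E (n + 1)) < 0}.Nonempty := by
      obtain ⟨x, hx1, hx2⟩ := SCap_exists_band hn c (s := ρ ^ 2 / 2 - 1) (by linarith)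
      exact ⟨x, by linarith, hx2⟩
    have hpos : 0 < surf n _ := hband.measure_pos (surf n) hne
    have hdisj : Disjoint {x : Sph n | 0 ≤ inner ℝ (c : E (n + 1)) (x : E (n + 1))}
        {x : Sph n | 1 - ρ ^ 2 / 2 < inner ℝ (c : E (n + 1)) (x : E (n + 1)) ∧
          inner ℝ (c : E (n + 1)) (x : E (n + 1)) < 0} := by
      rw [Set.disjoint_left]
      intro x hx hx'
      exact absurd hx'.2 (not_lt.2 hx)
    have hsub : {x : Sph n | 0 ≤ inner ℝ (c : E (n + 1)) (x : E (n + 1))} ∪
        {x : Sph n | 1 - ρ ^ 2 / 2 < inner ℝ (c : E (n + 1)) (x : E (n + 1)) ∧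
          inner ℝ (c : E (n + 1)) (x : E (n + 1)) < 0} ⊆ Metric.ball c ρ := by
      rintro x (hx | hx)
      · rw [hmem]
        have : (0 : ℝ) ≤ inner ℝ (c : E (n + 1)) (x : E (n + 1)) := hx
        linarith
      · rw [hmem]; exact hx.1
    have h1 := (measure_mono (μ := surf n) hsub).trans h
    rw [measure_union hdisj hband.measurableSet] at h1
    have h2 := (add_le_add_left (SCap_half c) _).trans h1
    have hfin : surf n univ / 2 ≠ ⊤ := ENNReal.div_ne_top (measure_ne_top _ _) (by norm_num)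
    have h3 : surf n univ / 2 < surf n univ / 2 +
        surf n {x : Sph n | 1 - ρ ^ 2 / 2 < inner ℝ (c : E (n + 1)) (x : E (n + 1)) ∧
          inner ℝ (c : E (n + 1)) (x : E (n + 1)) < 0} := ENNReal.lt_add_right hfin hpos.ne'
    exact absurd h2 (not_le.2 h3)
  refine ⟨Real.arccos (1 - ρ ^ 2 / 2), ?_, ?_, ?_⟩
  · rw [Real.arccos_pos]
    have : 0 < ρ ^ 2 := by positivity
    linarith
  · rw [Real.arccos_le_pi_div_two]
    linarith
  · ext x
    rw [hmem]
    show _ ↔ InnerProductGeometry.angle (c : E (n + 1)) (x : E (n + 1)) < _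
    have hcR : Real.cos (Real.arccos (1 - ρ ^ 2 / 2)) = 1 - ρ ^ 2 / 2 := by
      apply Real.cos_arccos
      · linarith
      · have : 0 < ρ ^ 2 := by positivity
        linarith
    rw [← SCap_cos]
    nth_rewrite 1 [← hcR]
    have ha := Real.arccos_nonneg (1 - ρ ^ 2 / 2)
    have hb := Real.arccos_le_pi (1 - ρ ^ 2 / 2)
    have hc := InnerProductGeometry.angle_nonneg (c : E (n + 1)) (x : E (n + 1))
    have hd := InnerProductGeometry.angle_le_pi (c : E (n + 1)) (x : E (n + 1))
    exact Real.strictAntiOn_cos.lt_iff_gt ⟨ha, hb⟩ ⟨hc, hd⟩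

/-- Two caps of the same radius have the same measure. -/
theorem surf_cap {n : ℕ} (c A : Sph n) (R : ℝ) : surf n (cap c R) = surf n (cap A R) := by
  obtain ⟨L₁, h₁⟩ := exists_rot c
  obtain ⟨L₂, h₂⟩ := exists_rot A
  have hmeas : ∀ B : Sph n, MeasurableSet (cap B R) := by
    intro B
    have hcont : Continuous (fun y : Sph n =>
        InnerProductGeometry.angle (B : E (n + 1)) (y : E (n + 1))) := by
      rw [continuous_iff_continuousAt]
      intro y
      have hB : (B : E (n + 1)) ≠ 0 := by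
        intro h; have := SCap_norm B; rw [h, norm_zero] at this; exact zero_ne_one this
      have hy : (y : E (n + 1)) ≠ 0 := by
        intro h; have := SCap_norm y; rw [h, norm_zero] at this; exact zero_ne_one this
      exact (InnerProductGeometry.continuousAt_angle hB hy).comp₂_of_eq
        continuousAt_const continuous_subtype_val.continuousAt rfl
    exact measurableSet_lt hcont.measurable measurable_const
  have key : ∀ (B : Sph n) (L : E (n + 1) ≃ₗᵢ[ℝ] E (n + 1)), rotS L B = pole n →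
      surf n (cap B R) = surf n (cap (pole n) R) := by
    intro B L hL
    rw [← (rot_mp L).measure_preimage (hmeas (pole n)).nullMeasurableSet]
    congr 1
    ext y
    show _ ↔ InnerProductGeometry.angle (pole n : E (n + 1)) (rotS L y : E (n + 1)) < R
    rw [← hL]
    show _ ↔ InnerProductGeometry.angle (L B) (L y) < R
    have hang : InnerProductGeometry.angle (L B) (L y) =
        InnerProductGeometry.angle (B : E (n + 1)) (y : E (n + 1)) :=
      L.toLinearIsometry.angle_map _ _
    rw [hang]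
    rfl
  rw [key c L₁ h₁, key A L₂ h₂]

end Pool.Agent.NE
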