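import Pool.Agent.NE.STools

set_option autoImplicit false

open MeasureTheory Set
open scoped ENNReal

namespace Pool.Agent.NE

variable {n : ℕ} {R μ : ℝ} {g dg : ℝ → ℝ}

namespace SFL

open InnerProductGeometry

/-- the component of `y` orthogonal to `A` -/
noncomputable def Pr (A y : E (n + 1)) : E (n + 1) := y - inner ℝ A y • A

theorem Gs_eq (A y : E (n + 1)) : Gs g A y = (g (angle A y) / ‖Pr A y‖) • Pr A y := rfl

theorem Pr_sq {A : E (n + 1)} (hA : ‖A‖ = 1) (y : E (n + 1)) :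
    ‖Pr A y‖ ^ 2 = ‖y‖ ^ 2 - inner ℝ A y ^ 2 := by
  unfold Pr
  rw [norm_sub_sq_real, norm_smul, hA, inner_smul_right, real_inner_comm A y, mul_one,
    Real.norm_eq_abs, sq_abs]
  ring

theorem Pr_inner {A : E (n + 1)} (hA : ‖A‖ = 1) (y z : E (n + 1)) :
    inner ℝ (Pr A y) (Pr A z) = inner ℝ y z - inner ℝ A y * inner ℝ A z := by
  unfold Pr
  rw [inner_sub_left, inner_sub_right, inner_sub_right, inner_smul_left, inner_smul_left,
    inner_smul_right, inner_smul_right, real_inner_self_eq_norm_sq, hA, real_inner_comm A y]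
  simp only [RCLike.conj_to_real]
  ring

theorem norm_Pr {A y : E (n + 1)} (hA : ‖A‖ = 1) (hy : ‖y‖ = 1) :
    ‖Pr A y‖ = Real.sin (angle A y) := by
  have h1 := Pr_sq hA y
  have h2 : inner ℝ A y = Real.cos (angle A y) := inner_eq_cos_angle_of_norm_eq_one hA hy
  rw [hy, h2, one_pow, ← Real.sin_sq] at h1
  exact (sq_eq_sq₀ (norm_nonneg _) (sin_angle_nonneg A y)).1 h1

theorem Pr_sub (A y z : E (n + 1)) : Pr A y - Pr A z = Pr A (y - z) := by
  unfold Pr
  rw [inner_sub_right, sub_smul]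
  abel

theorem norm_Pr_le {A : E (n + 1)} (hA : ‖A‖ = 1) (y : E (n + 1)) : ‖Pr A y‖ ≤ ‖y‖ := by
  have h1 := Pr_sq hA y
  have h2 := sq_nonneg (inner ℝ A y)
  exact (sq_le_sq₀ (norm_nonneg _) (norm_nonneg _)).1 (by linarith)

theorem angle_mem (A y : E (n + 1)) : angle A y ∈ Icc 0 Real.pi :=
  ⟨angle_nonneg A y, angle_le_pi A y⟩

theorem g_zero (hg : IsSProfile n R μ g dg) : g 0 = 0 := hg.cap.g_zero

theorem g_pi (hg : IsSProfile n R μ g dg) : g Real.pi = 0 := by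
  have := hg.g_symm 0
  rw [sub_zero] at this
  rw [this, g_zero hg]

theorem g_nonneg (hg : IsSProfile n R μ g dg) {r : ℝ} (hr : r ∈ Icc 0 Real.pi) : 0 ≤ g r := by
  rcases hr.1.eq_or_lt with h | h
  · rw [← h, g_zero hg]
  · rcases hr.2.eq_or_lt with h' | h'
    · rw [h', g_pi hg]
    · exact (hg.g_pos r ⟨h, h'⟩).le

theorem gR_nonneg (hg : IsSProfile n R μ g dg) : 0 ≤ g R :=
  g_nonneg hg ⟨hg.R_pos.le, hg.R_le.trans (by linarith [Real.pi_pos])⟩

theorem g_lip_aux (hg : IsSProfile n R μ g dg) {r s : ℝ} (hr : r ∈ Icc 0 Real.pi)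
    (hs : s ∈ Icc 0 Real.pi) (h : r < s) : |g s - g r| ≤ s - r := by
  obtain ⟨c, hc, hc'⟩ := exists_hasDerivAt_eq_slope g dg h
    (hg.g_cont.mono fun x hx => ⟨hr.1.trans hx.1, hx.2.trans hs.2⟩)
    (fun x hx => hg.g_deriv x ⟨hr.1.trans_lt hx.1, hx.2.trans_le hs.2⟩)
  have h1 := hg.dg_le c ⟨hr.1.trans hc.1.le, hc.2.le.trans hs.2⟩
  have h2 : 0 < s - r := sub_pos.2 h
  have h3 : g s - g r = dg c * (s - r) := by
    rw [hc']
    field_simp
  rw [h3, abs_mul, abs_of_pos h2]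
  exact mul_le_of_le_one_left h2.le h1

theorem g_lip (hg : IsSProfile n R μ g dg) {r s : ℝ} (hr : r ∈ Icc 0 Real.pi)
    (hs : s ∈ Icc 0 Real.pi) : (g r - g s) ^ 2 ≤ (r - s) ^ 2 := by
  rcases lt_trichotomy r s with h | h | h
  · have := abs_le.1 (g_lip_aux hg hr hs h)
    nlinarith
  · rw [h]; simp
  · have := abs_le.1 (g_lip_aux hg hs hr h)
    nlinarith

theorem norm_Gs_le (hg : IsSProfile n R μ g dg) (A y : E (n + 1)) :
    ‖Gs g A y‖ ≤ g (angle A y) := by
  have h0 := g_nonneg hg (angle_mem A y)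
  rw [Gs_eq, norm_smul, norm_div, norm_norm, Real.norm_eq_abs, abs_of_nonneg h0]
  by_cases h : ‖Pr A y‖ = 0
  · rw [h]; simpa using h0
  · rw [div_mul_cancel₀ _ h]

theorem norm_Gs_eq (hg : IsSProfile n R μ g dg) {A y : E (n + 1)} (h : ‖Pr A y‖ ≠ 0) :
    ‖Gs g A y‖ = g (angle A y) := by
  have h0 := g_nonneg hg (angle_mem A y)
  rw [Gs_eq, norm_smul, norm_div, norm_norm, Real.norm_eq_abs, abs_of_nonneg h0,
    div_mul_cancel₀ _ h]

theorem cos_bound {d : ℝ} (h0 : 0 ≤ d) (h1 : d ≤ Real.pi) : d ^ 2 ≤ 4 * (2 - 2 * Real.cos d) := by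
  have hpi := Real.pi_pos
  have h2 := Real.mul_le_sin (x := d / 2) (by linarith) (by linarith)
  have h3 : 2 - 2 * Real.cos d = 4 * Real.sin (d / 2) ^ 2 := by
    have : Real.cos d = 1 - 2 * Real.sin (d / 2) ^ 2 := by
      have h4 := Real.cos_two_mul (d / 2)
      have h5 := Real.sin_sq_add_cos_sq (d / 2)
      rw [mul_div_cancel₀ d two_ne_zero] at h4
      linarith
    rw [this]; ring
  rw [h3]
  have h4 : d / 4 ≤ Real.sin (d / 2) := by
    refine le_trans ?_ h2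
    have h5 : (1 : ℝ) / 2 ≤ 2 / Real.pi := by
      rw [div_le_div_iff₀ (by norm_num) hpi]
      linarith [Real.pi_le_four]
    calc d / 4 = 1 / 2 * (d / 2) := by ring
      _ ≤ 2 / Real.pi * (d / 2) := by gcongr
  have h5 : (d / 4) ^ 2 ≤ Real.sin (d / 2) ^ 2 := pow_le_pow_left₀ (by linarith) h4 2
  nlinarith

end SFL

open SFL InnerProductGeometry

theorem Gs_bound (hg : IsSProfile n R μ g dg) {A : E (n + 1)} (hA : ‖A‖ = 1) (y : E (n + 1)) :
    ‖Gs g A y‖ ≤ g R :=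
  (norm_Gs_le hg A y).trans (hg.g_le _ (angle_mem A y))

theorem Gs_hom {A : E (n + 1)} {t : ℝ} (ht : 0 < t) (y : E (n + 1)) :
    Gs g A (t • y) = Gs g A y := by
  have h1 : Pr A (t • y) = t • Pr A y := by
    unfold Pr
    rw [inner_smul_right, smul_sub, smul_smul]
  rw [Gs_eq, Gs_eq, h1, angle_smul_right_of_pos A y ht, norm_smul, Real.norm_eq_abs,
    abs_of_pos ht, smul_smul]
  congr 1
  by_cases h : ‖Pr A y‖ = 0
  · rw [h]; simp
  · field_simp

theorem Gs_perp {A : E (n + 1)} (hA : ‖A‖ = 1) (y : E (n + 1)) : inner ℝ A (Gs g A y) = 0 := by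
  rw [Gs_eq, inner_smul_right]
  unfold Pr
  rw [inner_sub_right, inner_smul_right, real_inner_self_eq_norm_sq, hA]
  ring

theorem Gs_isom (L : E (n + 1) ≃ₗᵢ[ℝ] E (n + 1)) (A y : E (n + 1)) :
    Gs g (L A) (L y) = L (Gs g A y) := by
  have h1 : Pr (L A) (L y) = L (Pr A y) := by
    unfold Pr
    rw [L.inner_map_map, map_sub, map_smul]
  have h2 : angle (L A) (L y) = angle A y := LinearIsometry.angle_map L.toLinearIsometry _ _
  rw [Gs_eq, Gs_eq, h1, h2, map_smul, L.norm_map]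

theorem Gs_neg (hg : IsSProfile n R μ g dg) {A : E (n + 1)} (hA : ‖A‖ = 1) (y : E (n + 1)) :
    Gs g (-A) y = Gs g A y := by
  have h1 : Pr (-A) y = Pr A y := by
    unfold Pr
    rw [inner_neg_left, neg_smul, smul_neg, neg_neg]
  rw [Gs_eq, Gs_eq, h1, angle_neg_left, hg.g_symm]

theorem Gs_pos (hg : IsSProfile n R μ g dg) {A e y : E (n + 1)} (hA : ‖A‖ = 1) (he : ‖e‖ = 1)
    (hy : ‖y‖ = 1) (h1 : inner ℝ A e = 0) (h2 : 0 < inner ℝ e y) : 0 < inner ℝ (Gs g A y) e := by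
  have h3 : inner ℝ (Pr A y) e = inner ℝ e y := by
    unfold Pr
    rw [inner_sub_left, inner_smul_left, h1, mul_zero, sub_zero, real_inner_comm]
  have h4 : ‖Pr A y‖ ≠ 0 := by
    intro h
    rw [norm_eq_zero] at h
    rw [h, inner_zero_left] at h3
    linarith
  have h5 : 0 < Real.sin (angle A y) := by
    rw [← norm_Pr hA hy]
    exact lt_of_le_of_ne (norm_nonneg _) (Ne.symm h4)
  have h6 : angle A y ∈ Ioo 0 Real.pi := by
    refine ⟨lt_of_le_of_ne (angle_nonneg A y) fun h => ?_,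
      lt_of_le_of_ne (angle_le_pi A y) fun h => ?_⟩
    · rw [← h, Real.sin_zero] at h5
      exact lt_irrefl _ h5
    · rw [h, Real.sin_pi] at h5
      exact lt_irrefl _ h5
  rw [Gs_eq, inner_smul_left, h3, RCLike.conj_to_real]
  exact mul_pos (div_pos (hg.g_pos _ h6) (lt_of_le_of_ne (norm_nonneg _) (Ne.symm h4))) h2

theorem Gs_lip (hg : IsSProfile n R μ g dg) {A y z : E (n + 1)} (hA : ‖A‖ = 1) (hy : ‖y‖ = 1)
    (hz : ‖z‖ = 1) : ‖Gs g A y - Gs g A z‖ ≤ 2 * ‖y - z‖ := by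
  have hyz : ‖Pr A y - Pr A z‖ ≤ ‖y - z‖ := by
    rw [Pr_sub]
    exact norm_Pr_le hA _
  have hn := norm_nonneg (y - z)
  by_cases h1 : ‖Pr A y‖ = 0
  · have e1 : Pr A y = 0 := norm_eq_zero.1 h1
    have e2 : Gs g A y = 0 := by rw [Gs_eq, e1, smul_zero]
    rw [e2, zero_sub, norm_neg]
    have e3 := norm_Gs_le hg A z
    have e4 := hg.g_le_sin _ (angle_mem A z)
    rw [← norm_Pr hA hz] at e4
    rw [e1, zero_sub, norm_neg] at hyz
    linarith
  by_cases h2 : ‖Pr A z‖ = 0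
  · have e1 : Pr A z = 0 := norm_eq_zero.1 h2
    have e2 : Gs g A z = 0 := by rw [Gs_eq, e1, smul_zero]
    rw [e2, sub_zero]
    have e3 := norm_Gs_le hg A y
    have e4 := hg.g_le_sin _ (angle_mem A y)
    rw [← norm_Pr hA hy] at e4
    rw [e1, sub_zero] at hyz
    linarith
  -- the main case
  set r := angle A y with hr
  set s := angle A z with hs
  have hrm : r ∈ Icc 0 Real.pi := angle_mem A y
  have hsm : s ∈ Icc 0 Real.pi := angle_mem A z
  set q := inner ℝ (Pr A y) (Pr A z) / (‖Pr A y‖ * ‖Pr A z‖) with hq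
  have hpos1 : 0 < ‖Pr A y‖ := lt_of_le_of_ne (norm_nonneg _) (Ne.symm h1)
  have hpos2 : 0 < ‖Pr A z‖ := lt_of_le_of_ne (norm_nonneg _) (Ne.symm h2)
  have hq1 : q ≤ 1 := by
    rw [hq, div_le_one (mul_pos hpos1 hpos2)]
    exact real_inner_le_norm _ _
  have hin : inner ℝ (Pr A y) (Pr A z) = Real.sin r * Real.sin s * q := by
    rw [hq, norm_Pr hA hy, norm_Pr hA hz]
    rw [norm_Pr hA hy] at hpos1
    rw [norm_Pr hA hz] at hpos2
    rw [← hr] at hpos1 ⊢
    rw [← hs] at hpos2 ⊢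
    field_simp
  have e1 : ‖Gs g A y - Gs g A z‖ ^ 2 = g r ^ 2 - 2 * (g r * g s * q) + g s ^ 2 := by
    rw [norm_sub_sq_real, norm_Gs_eq hg h1, norm_Gs_eq hg h2, Gs_eq, Gs_eq, inner_smul_left,
      inner_smul_right, RCLike.conj_to_real, hq, ← hr, ← hs]
    field_simp
  have e2 : ‖y - z‖ ^ 2 = 2 - 2 * Real.cos (r - s) + 2 * (Real.sin r * Real.sin s) * (1 - q) := by
    have h3 := Pr_inner hA y z
    rw [hin, inner_eq_cos_angle_of_norm_eq_one hA hy,
      inner_eq_cos_angle_of_norm_eq_one hA hz] at h3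
    rw [norm_sub_sq_real, hy, hz, Real.cos_sub]
    have h4 : inner ℝ y z = Real.sin r * Real.sin s * q + Real.cos r * Real.cos s := by
      rw [h3]; ring
    rw [h4]; ring
  have e3 := g_lip hg hrm hsm
  have e4 : (r - s) ^ 2 ≤ 4 * (2 - 2 * Real.cos (r - s)) := by
    have h5 := cos_bound (d := |r - s|) (abs_nonneg _) (abs_le.2 ⟨by linarith [hrm.1, hsm.2],
      by linarith [hrm.2, hsm.1]⟩)
    rwa [sq_abs, Real.cos_abs] at h5
  have g1 := g_nonneg hg hrm
  have g2 := g_nonneg hg hsm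
  have s1 := hg.g_le_sin r hrm
  have s2 := hg.g_le_sin s hsm
  have e5 : g r * g s ≤ Real.sin r * Real.sin s := mul_le_mul s1 s2 g2 (g1.trans s1)
  have e6 : 0 ≤ Real.sin r * Real.sin s := (mul_nonneg g1 g2).trans e5
  have e7 : g r * g s * (1 - q) ≤ Real.sin r * Real.sin s * (1 - q) :=
    mul_le_mul_of_nonneg_right e5 (by linarith)
  have e8 : 0 ≤ Real.sin r * Real.sin s * (1 - q) := mul_nonneg e6 (by linarith)
  refine abs_le_of_sq_le_sq' ?_ (by positivity) |>.2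
  rw [e1, mul_pow, e2]
  nlinarith

/-- Joint continuity on the product of two spheres. -/
theorem Gs_cont (hg : IsSProfile n R μ g dg) :
    ContinuousOn (fun z : E (n + 1) × E (n + 1) => Gs g z.1 z.2)
      (Metric.sphere 0 1 ×ˢ Metric.sphere 0 1) := by
  rintro ⟨A, y⟩ ⟨hA, hy⟩
  simp only [mem_sphere_zero_iff_norm] at hA hy
  have hA0 : A ≠ 0 := fun h => by rw [h, norm_zero] at hA; exact zero_ne_one hA
  have hy0 : y ≠ 0 := fun h => by rw [h, norm_zero] at hy; exact zero_ne_one hy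
  have hang : ContinuousAt (fun z : E (n + 1) × E (n + 1) => angle z.1 z.2) (A, y) :=
    continuousAt_angle hA0 hy0
  have hP : Continuous fun z : E (n + 1) × E (n + 1) => Pr z.1 z.2 := by
    unfold Pr
    fun_prop
  have hgang : ContinuousAt (fun z : E (n + 1) × E (n + 1) => g (angle z.1 z.2)) (A, y) := by
    rw [← continuousWithinAt_univ]
    exact ContinuousWithinAt.comp (t := Icc 0 Real.pi) (hg.g_cont _ (angle_mem A y))
      hang.continuousWithinAt (fun z _ => angle_mem z.1 z.2)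
  by_cases h : ‖Pr A y‖ = 0
  · have e0 : Gs g A y = 0 := by rw [Gs_eq, norm_eq_zero.1 h, smul_zero]
    have e1 : Filter.Tendsto (fun z : E (n + 1) × E (n + 1) => g (angle z.1 z.2))
        (nhdsWithin (A, y) (Metric.sphere 0 1 ×ˢ Metric.sphere 0 1)) (nhds 0) := by
      have h1 : g (angle A y) = 0 := by
        have h2 := hg.g_le_sin _ (angle_mem A y)
        rw [← norm_Pr hA hy, h] at h2
        exact le_antisymm h2 (g_nonneg hg (angle_mem A y))
      have h3 : Filter.Tendsto (fun z : E (n + 1) × E (n + 1) => g (angle z.1 z.2))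
          (nhds (A, y)) (nhds (g (angle A y))) := hgang
      rw [h1] at h3
      exact h3.mono_left nhdsWithin_le_nhds
    unfold ContinuousWithinAt
    simp only
    rw [e0]
    exact squeeze_zero_norm (fun z => norm_Gs_le hg z.1 z.2) e1
  · refine ContinuousAt.continuousWithinAt ?_
    have h1 : ContinuousAt (fun z : E (n + 1) × E (n + 1) =>
        (g (angle z.1 z.2) / ‖Pr z.1 z.2‖) • Pr z.1 z.2) (A, y) :=
      (hgang.div hP.norm.continuousAt h).smul hP.continuousAt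
    exact h1

end Pool.Agent.NE
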