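import Pool.Agent.NE.STools
import Pool.Agent.NE.SRot
import Pool.Agent.NE.FoldLem

set_option autoImplicit false

open MeasureTheory Set
open scoped ENNReal

namespace Pool.Agent.NE

variable {n : ℕ}

private lemma sph_norm (e : Sph n) : ‖(e : E (n + 1))‖ = 1 := by simp

private lemma fold_of_ge' {e x : E (n + 1)} (h : 0 ≤ inner ℝ e x) : fold e 0 x = x :=
  fold_of_ge h

private lemma fold_of_le' {e x : E (n + 1)} (h : inner ℝ e x ≤ 0) : fold e 0 x = reflL e x := by
  rw [fold_of_le h]; simp

theorem foldS_cont : Continuous (fun z : Sph n × Sph n => foldS z.1 z.2) := by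
  have h1 : Continuous (fun z : Sph n × Sph n =>
      (z.2 : E (n + 1)) + (2 * max (0 - inner ℝ (z.1 : E (n + 1)) (z.2 : E (n + 1))) 0) •
        (z.1 : E (n + 1))) := by
    have c1 : Continuous (fun z : Sph n × Sph n => (z.1 : E (n + 1))) :=
      continuous_subtype_val.comp continuous_fst
    have c2 : Continuous (fun z : Sph n × Sph n => (z.2 : E (n + 1))) :=
      continuous_subtype_val.comp continuous_snd
    have c3 : Continuous (fun z : Sph n × Sph n =>
        inner ℝ (z.1 : E (n + 1)) (z.2 : E (n + 1))) := c1.inner c2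
    have c4 : Continuous (fun z : Sph n × Sph n =>
        2 * max (0 - inner ℝ (z.1 : E (n + 1)) (z.2 : E (n + 1))) 0) := by fun_prop
    exact c2.add (c4.smul c1)
  refine Continuous.subtype_mk (h1.congr ?_) _
  intro z
  unfold fold
  rw [sph_norm z.1]
  simp

theorem foldS_hemi (e x : Sph n) : foldS e x ∈ hemi e := by
  show 0 ≤ inner ℝ (e : E (n + 1)) (fold (e : E (n + 1)) 0 (x : E (n + 1)))
  rcases le_total 0 (inner ℝ (e : E (n + 1)) (x : E (n + 1))) with h | h
  · rw [fold_of_ge' h]; exact h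
  · rw [fold_of_le' h, reflL_apply, sph_norm e, inner_sub_right, inner_smul_right,
      real_inner_self_eq_norm_sq, sph_norm e]
    linarith

/-- Equivariance of the fold under the reflection `y ↦ y - 2 ⟨e, y⟩ e`. -/
theorem foldS_neg (e x : Sph n) :
    (foldS (-e) x : E (n + 1)) = (foldS e x : E (n + 1)) -
      (2 * inner ℝ (e : E (n + 1)) (foldS e x : E (n + 1))) • (e : E (n + 1)) :=
  fold_neg (sph_norm e) (x : E (n + 1))

theorem map_foldS_le {Ω : Set (Sph n)} (hΩ : MeasurableSet Ω) (e : Sph n) :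
    ((surf n).restrict Ω).map (foldS e) ≤ (2 : ℝ≥0∞) • (surf n).restrict (hemi e) := by
  have hF : Measurable (foldS e) :=
    (foldS_cont.comp (Continuous.prodMk continuous_const continuous_id)).measurable
  have hH : MeasurableSet (hemi e) :=
    (isClosed_le continuous_const
      (continuous_const.inner continuous_subtype_val)).measurableSet
  refine Measure.le_iff.mpr fun S hS => ?_
  rw [Measure.map_apply hF hS]
  have h1 : (foldS e) ⁻¹' S ⊆ (S ∩ hemi e) ∪ (rotS (reflL (e : E (n + 1)))) ⁻¹' (S ∩ hemi e) := by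
    intro x hx
    rw [mem_preimage] at hx
    have hh := foldS_hemi e x
    rcases le_total 0 (inner ℝ (e : E (n + 1)) (x : E (n + 1))) with h | h
    · left
      have : foldS e x = x := Subtype.ext (fold_of_ge' h)
      rw [this] at hx hh
      exact ⟨hx, hh⟩
    · right
      have : foldS e x = rotS (reflL (e : E (n + 1))) x := Subtype.ext (fold_of_le' h)
      rw [this] at hx hh
      exact ⟨hx, hh⟩
  calc ((surf n).restrict Ω) ((foldS e) ⁻¹' S)
      ≤ surf n ((foldS e) ⁻¹' S) := Measure.restrict_apply_le _ _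
    _ ≤ surf n ((S ∩ hemi e) ∪ (rotS (reflL (e : E (n + 1)))) ⁻¹' (S ∩ hemi e)) :=
        measure_mono h1
    _ ≤ surf n (S ∩ hemi e) + surf n ((rotS (reflL (e : E (n + 1)))) ⁻¹' (S ∩ hemi e)) :=
        measure_union_le _ _
    _ = surf n (S ∩ hemi e) + surf n (S ∩ hemi e) := by
        rw [(rot_mp (reflL (e : E (n + 1)))).measure_preimage (hS.inter hH).nullMeasurableSet]
    _ = ((2 : ℝ≥0∞) • (surf n).restrict (hemi e)) S := by
        rw [Measure.smul_apply, smul_eq_mul, two_mul, Measure.restrict_apply hS]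

/-- The ambient fold: homogeneity, Lipschitz bound, derivative off the hyperplane. -/
theorem fold_hom (e x : E (n + 1)) {t : ℝ} (ht : 0 ≤ t) : fold e 0 (t • x) = t • fold e 0 x := by
  unfold fold
  rw [inner_smul_right, smul_add, smul_smul]
  have h : max (0 - t * inner ℝ e x) 0 = t * max (0 - inner ℝ e x) 0 := by
    rw [mul_max_of_nonneg _ _ ht]; simp
  rw [h]
  congr 2
  ring

theorem fold_lip0 {e : E (n + 1)} (he : ‖e‖ = 1) (x y : E (n + 1)) :
    ‖fold e 0 x - fold e 0 y‖ ≤ ‖x - y‖ := by
  have := (fold_lip e 0).dist_le_mul x y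
  rwa [NNReal.coe_one, one_mul, dist_eq_norm, dist_eq_norm] at this

theorem fold_deriv0 {e x : E (n + 1)} (he : ‖e‖ = 1) (hx : inner ℝ e x ≠ 0) :
    ∃ L : E (n + 1) ≃ₗᵢ[ℝ] E (n + 1),
      HasFDerivAt (fold e 0) (L.toContinuousLinearEquiv : E (n + 1) →L[ℝ] E (n + 1)) x := by
  rcases lt_or_gt_of_ne hx with h | h
  · refine ⟨reflL e, ?_⟩
    have h1 : HasFDerivAt (fun y : E (n + 1) => reflL e y)
        ((reflL e).toContinuousLinearEquiv : E (n + 1) →L[ℝ] E (n + 1)) x :=
      ((reflL e).toContinuousLinearEquiv : E (n + 1) →L[ℝ] E (n + 1)).hasFDerivAt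
    refine h1.congr_of_eventuallyEq ?_
    have h2 : ∀ᶠ y in nhds x, inner ℝ e y < 0 :=
      (isOpen_lt (continuous_const.inner continuous_id) continuous_const).mem_nhds h
    filter_upwards [h2] with y hy
    exact fold_of_le' hy.le
  · refine ⟨LinearIsometryEquiv.refl ℝ (E (n + 1)), ?_⟩
    refine (hasFDerivAt_id x).congr_of_eventuallyEq ?_
    have h2 : ∀ᶠ y in nhds x, 0 < inner ℝ e y :=
      (isOpen_lt continuous_const (continuous_const.inner continuous_id)).mem_nhds h
    filter_upwards [h2] with y hy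
    exact fold_of_ge' hy.le

end Pool.Agent.NE
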