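import Pool.Agent.NE.STopo
import Pool.Agent.NE.SFieldLem
import Pool.Agent.NE.SFoldLem

set_option autoImplicit false

open MeasureTheory Set
open scoped ENNReal

namespace Pool.Agent.NE

variable {n : ℕ} {R μ : ℝ} {g dg : ℝ → ℝ}

namespace SCentreAux

open Filter Topology

/-- the field in terms of a pair of points of the sphere -/
noncomputable def fld (g : ℝ → ℝ) (w : Sph n × Sph n) (x : Sph n) : E (n + 1) :=
  Gs g (w.2 : E (n + 1)) (foldS w.1 x)

theorem fld_cont (hg : IsSProfile n R μ g dg) (x : Sph n) :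
    Continuous (fun w : Sph n × Sph n => fld g w x) := by
  have h1 : Continuous (fun w : Sph n × Sph n =>
      ((w.2 : E (n + 1)), ((foldS w.1 x : Sph n) : E (n + 1)))) := by
    refine (continuous_subtype_val.comp continuous_snd).prodMk (continuous_subtype_val.comp ?_)
    have h2 := (foldS_cont (n := n)).comp
      (continuous_fst.prodMk continuous_const : Continuous fun w : Sph n × Sph n => (w.1, x))
    exact h2
  have h3 := ContinuousOn.comp_continuous (Gs_cont hg) h1
    fun w => Set.mk_mem_prod w.2.2 (foldS w.1 x).2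
  exact h3

theorem fld_cont_x (hg : IsSProfile n R μ g dg) (w : Sph n × Sph n) :
    Continuous (fun x : Sph n => fld g w x) := by
  have h1 : Continuous (fun x : Sph n =>
      ((w.2 : E (n + 1)), ((foldS w.1 x : Sph n) : E (n + 1)))) := by
    refine continuous_const.prodMk (continuous_subtype_val.comp ?_)
    have h2 := (foldS_cont (n := n)).comp
      (continuous_const.prodMk continuous_id : Continuous fun x : Sph n => (w.1, x))
    exact h2
  have h3 := ContinuousOn.comp_continuous (Gs_cont hg) h1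
    fun x => Set.mk_mem_prod w.2.2 (foldS w.1 x).2
  exact h3

theorem norm_sph (A : Sph n) : ‖(A : E (n + 1))‖ = 1 := by simp

theorem fld_bound (hg : IsSProfile n R μ g dg) (w : Sph n × Sph n) (x : Sph n) :
    ‖fld g w x‖ ≤ g R := Gs_bound hg (norm_sph _) _

/-- the integrated field -/
noncomputable def D (Ω : Set (Sph n)) (u : Sph n → ℝ) (g : ℝ → ℝ) (w : Sph n × Sph n) :
    E (n + 1) := ∫ x in Ω, u x • fld g w x ∂(surf n)

theorem integrable_fld (hg : IsSProfile n R μ g dg) {Ω : Set (Sph n)} {u : Sph n → ℝ}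
    (hu : IntegrableOn u Ω (surf n)) (w : Sph n × Sph n) :
    Integrable (fun x => u x • fld g w x) ((surf n).restrict Ω) := by
  refine Integrable.mono' (hu.norm.mul_const (g R))
    (hu.aestronglyMeasurable.smul (fld_cont_x hg w).aestronglyMeasurable) ?_
  refine Eventually.of_forall fun x => ?_
  rw [norm_smul]
  exact mul_le_mul_of_nonneg_left (fld_bound hg w x) (norm_nonneg _)

theorem D_cont (hg : IsSProfile n R μ g dg) {Ω : Set (Sph n)} {u : Sph n → ℝ}
    (hu : IntegrableOn u Ω (surf n)) : Continuous (D Ω u g) := by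
  refine continuous_of_dominated (bound := fun x => ‖u x‖ * g R) ?_ ?_ (hu.norm.mul_const _) ?_
  · intro w
    exact (integrable_fld hg hu w).aestronglyMeasurable
  · intro w
    refine Eventually.of_forall fun x => ?_
    rw [norm_smul]
    exact mul_le_mul_of_nonneg_left (fld_bound hg w x) (norm_nonneg _)
  · refine Eventually.of_forall fun x => ?_
    exact (fld_cont hg x).const_smul (u x)

theorem D_bound (hg : IsSProfile n R μ g dg) {Ω : Set (Sph n)} {u : Sph n → ℝ}
    (hu : IntegrableOn u Ω (surf n)) (w : Sph n × Sph n) :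
    ‖D Ω u g w‖ ≤ (∫ x in Ω, ‖u x‖ ∂(surf n)) * g R := by
  refine (norm_integral_le_integral_norm _).trans ?_
  rw [← integral_mul_const]
  refine integral_mono (integrable_fld hg hu w).norm (hu.norm.mul_const _) fun x => ?_
  change ‖u x • fld g w x‖ ≤ ‖u x‖ * g R
  rw [norm_smul]
  exact mul_le_mul_of_nonneg_left (fld_bound hg w x) (norm_nonneg _)

theorem D_perp (hg : IsSProfile n R μ g dg) {Ω : Set (Sph n)} {u : Sph n → ℝ}
    (hu : IntegrableOn u Ω (surf n)) (w : Sph n × Sph n) :
    inner ℝ (w.2 : E (n + 1)) (D Ω u g w) = 0 := by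
  unfold D
  rw [← integral_inner (integrable_fld hg hu w)]
  have : (fun x => inner ℝ (w.2 : E (n + 1)) (u x • fld g w x)) = fun _ => 0 := by
    funext x
    rw [real_inner_smul_right, fld, Gs_perp (norm_sph _), mul_zero]
  rw [this, integral_zero]

/-- the reflection in the hyperplane orthogonal to `e` -/
noncomputable def refl (e : Sph n) : E (n + 1) ≃ₗᵢ[ℝ] E (n + 1) :=
  ((ℝ ∙ (e : E (n + 1)))ᗮ).reflection

theorem refl_apply (e : Sph n) (y : E (n + 1)) :
    refl e y = y - (2 * inner ℝ (e : E (n + 1)) y) • (e : E (n + 1)) := by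
  unfold refl
  rw [Submodule.reflection_orthogonal_apply, Submodule.reflection_singleton_apply, norm_sph]
  simp only [RCLike.ofReal_real_eq_id, id, one_pow, div_one]
  rw [neg_sub, two_smul, two_mul, add_smul]

theorem D_refl {Ω : Set (Sph n)} {u : Sph n → ℝ}
    (e A A' : Sph n) (hA : (A' : E (n + 1)) = refl e A) :
    D Ω u g (-e, A') = refl e (D Ω u g (e, A)) := by
  unfold D
  have h := LinearIsometry.integral_comp_comm (μ := (surf n).restrict Ω)
    (refl e).toLinearIsometry (fun x => u x • fld g (e, A) x)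
  have h2 : (refl e) (∫ x in Ω, u x • fld g (e, A) x ∂(surf n)) =
      ∫ x in Ω, (refl e) (u x • fld g (e, A) x) ∂(surf n) := h.symm
  rw [h2]
  refine integral_congr_ae (Eventually.of_forall fun x => ?_)
  change u x • fld g (-e, A') x = refl e (u x • fld g (e, A) x)
  rw [map_smul]
  congr 1
  unfold fld
  simp only
  rw [foldS_neg, hA, ← refl_apply, Gs_isom]

/-- near the equator the integrated field points to the pole -/
theorem exists_eps (hg : IsSProfile n R μ g dg) {Ω : Set (Sph n)}
    (hpos : surf n Ω ≠ 0) :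
    ∃ ε : ℝ, 0 < ε ∧ ∀ e A : Sph n, |inner ℝ (A : E (n + 1)) (e : E (n + 1))| < ε →
      0 < inner ℝ (D Ω (fun _ => 1) g (e, A)) (e : E (n + 1)) := by
  have hu : IntegrableOn (fun _ : Sph n => (1 : ℝ)) Ω (surf n) := integrable_const _
  set T : Set (Sph n × Sph n) :=
    {w | inner ℝ (D Ω (fun _ => 1) g w) (w.1 : E (n + 1)) ≤ 0} with hT
  have hDc : Continuous (D (n := n) Ω (fun _ => 1) g) := D_cont hg hu
  have hTc : IsCompact T := by
    refine IsClosed.isCompact (isClosed_le ?_ continuous_const)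
    exact hDc.inner (continuous_subtype_val.comp continuous_fst)
  have hne : ∀ w ∈ T, inner ℝ (w.2 : E (n + 1)) (w.1 : E (n + 1)) ≠ 0 := by
    rintro ⟨e, A⟩ hw h0
    simp only at h0
    have hw' : inner ℝ (D Ω (fun _ => 1) g (e, A)) (e : E (n + 1)) ≤ 0 := hw
    have hint := integrable_fld hg hu (e, A)
    have h1 : inner ℝ (D Ω (fun _ => 1) g (e, A)) (e : E (n + 1)) =
        ∫ x in Ω, inner ℝ (fld g (e, A) x) (e : E (n + 1)) ∂(surf n) := by
      rw [real_inner_comm]
      unfold D
      rw [← integral_inner hint]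
      refine integral_congr_ae (Eventually.of_forall fun x => ?_)
      change inner ℝ (e : E (n + 1)) ((1 : ℝ) • fld g (e, A) x) = _
      rw [one_smul, real_inner_comm]
    have hpt : ∀ x : Sph n, inner ℝ (e : E (n + 1)) (x : E (n + 1)) ≠ 0 →
        0 < inner ℝ (fld g (e, A) x) (e : E (n + 1)) := by
      intro x hx
      refine Gs_pos hg (norm_sph _) (norm_sph _) (norm_sph _) h0 ?_
      have h2 : 0 ≤ inner ℝ (e : E (n + 1)) ((foldS e x : Sph n) : E (n + 1)) := foldS_hemi e x
      refine lt_of_le_of_ne h2 fun h3 => hx ?_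
      change 0 = inner ℝ (e : E (n + 1)) (fold (e : E (n + 1)) 0 (x : E (n + 1))) at h3
      unfold fold at h3
      rw [norm_sph, inner_add_right, real_inner_smul_right, real_inner_self_eq_norm_sq,
        norm_sph] at h3
      rcases le_total 0 (inner ℝ (e : E (n + 1)) (x : E (n + 1))) with h4 | h4
      · rw [max_eq_right (by linarith)] at h3
        linarith
      · rw [max_eq_left (by linarith)] at h3
        linarith
    have hpos' : 0 < ∫ x in Ω, inner ℝ (fld g (e, A) x) (e : E (n + 1)) ∂(surf n) := by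
      have hi : Integrable (fun x => inner ℝ (fld g (e, A) x) (e : E (n + 1)))
          ((surf n).restrict Ω) := by
        have h5 := hint.const_inner (𝕜 := ℝ) (e : E (n + 1))
        refine h5.congr (Eventually.of_forall fun x => ?_)
        change inner ℝ (e : E (n + 1)) ((1 : ℝ) • fld g (e, A) x) = _
        rw [one_smul, real_inner_comm]
      have hae : ∀ᵐ x : Sph n ∂(surf n).restrict Ω, inner ℝ (e : E (n + 1)) (x : E (n + 1)) ≠ 0 := by
        refine ae_restrict_of_ae ?_
        rw [ae_iff]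
        simp only [ne_eq, not_not]
        exact surf_hyper e
      rw [integral_pos_iff_support_of_nonneg_ae (hae.mono fun x hx => (hpt x hx).le) hi]
      refine lt_of_lt_of_le (pos_iff_ne_zero.2 hpos) ?_
      have h6 : (surf n) Ω = ((surf n).restrict Ω) univ := by rw [Measure.restrict_apply_univ]
      rw [h6]
      refine measure_mono_ae ?_
      refine hae.mono fun x hx _ => ?_
      exact (hpt x hx).ne'
    rw [h1] at hw'
    linarith
  by_cases hTe : T.Nonempty
  · obtain ⟨w₀, hw₀, hmin⟩ := hTc.exists_isMinOn hTe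
      (f := fun w : Sph n × Sph n => |inner ℝ (w.2 : E (n + 1)) (w.1 : E (n + 1))|)
      (by
        refine Continuous.continuousOn ?_
        exact ((continuous_subtype_val.comp continuous_snd).inner
          (continuous_subtype_val.comp continuous_fst)).abs)
    refine ⟨_, abs_pos.2 (hne w₀ hw₀), fun e A h => ?_⟩
    by_contra hcon
    have h1 : (e, A) ∈ T := not_lt.1 hcon
    exact absurd (hmin h1) (not_le.2 h)
  · refine ⟨1, one_pos, fun e A _ => ?_⟩
    by_contra hcon
    exact hTe ⟨(e, A), not_lt.1 hcon⟩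

theorem dir_val {x : E (n + 1)} (hx : x ≠ 0) : ((dir x : Sph n) : E (n + 1)) = ‖x‖⁻¹ • x := by
  unfold dir
  rw [dif_neg hx]

theorem dir_cont : ContinuousOn (dir : E (n + 1) → Sph n) {x | x ≠ 0} := by
  rw [Topology.IsInducing.subtypeVal.continuousOn_iff]
  have h : ContinuousOn (fun x : E (n + 1) => ‖x‖⁻¹ • x) {x | x ≠ 0} := by
    refine ContinuousOn.smul (ContinuousOn.inv₀ continuous_norm.continuousOn ?_)
      continuousOn_id
    intro x hx
    exact norm_ne_zero_iff.2 hx
  exact h.congr fun x hx => dir_val hx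

theorem dir_unit {e : E (n + 1)} (he : ‖e‖ = 1) : ((dir e : Sph n) : E (n + 1)) = e := by
  have h0 : e ≠ 0 := by
    intro h; rw [h, norm_zero] at he; norm_num at he
  rw [dir_val h0, he, inv_one, one_smul]

theorem norm_add_perp {e z : E (n + 1)} (he : ‖e‖ = 1) (hz : inner ℝ e z = 0) :
    ‖e + z‖ ^ 2 = 1 + ‖z‖ ^ 2 := by
  rw [norm_add_sq_real, he, hz]; ring

theorem add_ne {e z : E (n + 1)} (he : ‖e‖ = 1) (hz : inner ℝ e z = 0) : e + z ≠ 0 := by
  intro h
  have := norm_add_perp he hz
  rw [h, norm_zero] at this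
  nlinarith [sq_nonneg ‖z‖]

/-- the tangential field -/
noncomputable def cf (Ω : Set (Sph n)) (u : Sph n → ℝ) (g : ℝ → ℝ)
    (w : E (n + 1) × E (n + 1)) : E (n + 1) :=
  D Ω u g (dir w.1, dir (w.1 + w.2)) - inner ℝ w.1 (D Ω u g (dir w.1, dir (w.1 + w.2))) • w.1

theorem cf_cont (hg : IsSProfile n R μ g dg) {Ω : Set (Sph n)} {u : Sph n → ℝ}
    (hu : IntegrableOn u Ω (surf n)) :
    ContinuousOn (cf Ω u g) {w : E (n + 1) × E (n + 1) | ‖w.1‖ = 1 ∧ inner ℝ w.1 w.2 = 0} := by
  have h1 : ContinuousOn (fun w : E (n + 1) × E (n + 1) => ((dir w.1 : Sph n),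
      (dir (w.1 + w.2) : Sph n))) {w | ‖w.1‖ = 1 ∧ inner ℝ w.1 w.2 = 0} := by
    refine ContinuousOn.prodMk ?_ ?_
    · refine dir_cont.comp continuous_fst.continuousOn ?_
      rintro w ⟨hw1, hw2⟩ h0
      rw [h0, norm_zero] at hw1
      norm_num at hw1
    · refine dir_cont.comp (continuous_fst.add continuous_snd).continuousOn ?_
      rintro w ⟨hw1, hw2⟩
      exact add_ne hw1 hw2
  have h2 : ContinuousOn (fun w : E (n + 1) × E (n + 1) =>
      D Ω u g (dir w.1, dir (w.1 + w.2))) {w | ‖w.1‖ = 1 ∧ inner ℝ w.1 w.2 = 0} :=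
    (D_cont hg hu).comp_continuousOn h1
  have h3 : ContinuousOn (fun w : E (n + 1) × E (n + 1) =>
      inner ℝ w.1 (D Ω u g (dir w.1, dir (w.1 + w.2))))
      {w | ‖w.1‖ = 1 ∧ inner ℝ w.1 w.2 = 0} :=
    ContinuousOn.inner (𝕜 := ℝ) continuous_fst.continuousOn h2
  exact h2.sub (h3.smul continuous_fst.continuousOn)

theorem cf_even {Ω : Set (Sph n)} {u : Sph n → ℝ}
    (e z : E (n + 1)) (he : ‖e‖ = 1) (hz : inner ℝ e z = 0) :
    cf Ω u g (-e, z) = cf Ω u g (e, z) := by
  have hz' : inner ℝ (-e) z = 0 := by rw [inner_neg_left, hz, neg_zero]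
  have he' : ‖-e‖ = 1 := by rw [norm_neg, he]
  have h1 : (dir (-e) : Sph n) = -dir e := by
    apply Subtype.ext
    rw [dir_unit he']
    change -e = -((dir e : Sph n) : E (n + 1))
    rw [dir_unit he]
  have hn : ‖-e + z‖ = ‖e + z‖ := by
    have a := norm_add_perp he hz
    have b := norm_add_perp he' hz'
    have c := norm_nonneg (e + z)
    have d := norm_nonneg (-e + z)
    nlinarith
  have h2 : ((dir (-e + z) : Sph n) : E (n + 1)) = refl (dir e) (dir (e + z) : Sph n) := by
    rw [dir_val (add_ne he' hz'), dir_val (add_ne he hz), hn, refl_apply, dir_unit he,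
      real_inner_smul_right, inner_add_right, real_inner_self_eq_norm_sq, he, hz]
    module
  unfold cf
  simp only
  rw [h1, D_refl (dir e) (dir (e + z)) _ h2, refl_apply, dir_unit he]
  set C := D Ω u g (dir e, dir (e + z)) with hC
  rw [inner_neg_left, inner_sub_right, real_inner_smul_right, real_inner_self_eq_norm_sq, he]
  module

theorem cf_tan {Ω : Set (Sph n)} {u : Sph n → ℝ}
    (e z : E (n + 1)) (he : ‖e‖ = 1) : inner ℝ e (cf Ω u g (e, z)) = 0 := by
  unfold cf
  simp only
  rw [inner_sub_right, real_inner_smul_right, real_inner_self_eq_norm_sq, he]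
  ring

theorem cf_bound (hg : IsSProfile n R μ g dg) {Ω : Set (Sph n)} {u : Sph n → ℝ}
    (hu : IntegrableOn u Ω (surf n)) (e z : E (n + 1)) (he : ‖e‖ = 1) :
    ‖cf Ω u g (e, z)‖ ≤ 2 * ((∫ x in Ω, ‖u x‖ ∂(surf n)) * g R) := by
  unfold cf
  simp only
  have h1 := D_bound hg hu (dir e, dir (e + z))
  set C := D Ω u g (dir e, dir (e + z)) with hC
  refine (norm_sub_le _ _).trans ?_
  rw [norm_smul, he, mul_one, Real.norm_eq_abs]
  have h2 := abs_real_inner_le_norm e C
  rw [he, one_mul] at h2
  linarith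

/-- at a zero of the tangential field the integrated field vanishes -/
theorem D_zero_of_cf (hg : IsSProfile n R μ g dg) {Ω : Set (Sph n)} {u : Sph n → ℝ}
    (hu : IntegrableOn u Ω (surf n)) (e z : E (n + 1)) (he : ‖e‖ = 1) (hz : inner ℝ e z = 0)
    (h : cf Ω u g (e, z) = 0) : D Ω u g (dir e, dir (e + z)) = 0 := by
  have h1 := D_perp hg hu (dir e, dir (e + z))
  simp only at h1
  unfold cf at h
  simp only at h
  set C := D Ω u g (dir e, dir (e + z)) with hC
  have h2 : C = inner ℝ e C • e := sub_eq_zero.1 h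
  rw [dir_val (add_ne he hz), real_inner_smul_left] at h1
  have h3 : ‖e + z‖⁻¹ ≠ 0 := inv_ne_zero (norm_ne_zero_iff.2 (add_ne he hz))
  have h4 : inner ℝ (e + z) C = 0 := (mul_eq_zero.1 h1).resolve_left h3
  rw [h2, real_inner_smul_right, inner_add_left, real_inner_self_eq_norm_sq, he,
    real_inner_comm e z, hz] at h4
  have h5 : inner ℝ e C = 0 := by linarith
  rw [h2, h5, zero_smul]

end SCentreAux

open SCentreAux in
/-- The topological lemma on the sphere. -/
theorem exists_centreS {Ω : Set (Sph n)} (hΩ : MeasurableSet Ω) (hpos : surf n Ω ≠ 0)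
    (hg : IsSProfile n R μ g dg) (u : Sph n → ℝ) (hu : IntegrableOn u Ω (surf n)) :
    ∃ e A : Sph n, ∫ x in Ω, Gs g (A : E (n + 1)) (foldS e x) ∂(surf n) = 0 ∧
      ∫ x in Ω, u x • Gs g (A : E (n + 1)) (foldS e x) ∂(surf n) = 0 := by
  have hu0 : IntegrableOn (fun _ : Sph n => (1 : ℝ)) Ω (surf n) := integrable_const _
  obtain ⟨ε, hε, hεD⟩ := exists_eps hg hpos
  set M := max (2 * ((∫ x in Ω, ‖(1 : ℝ)‖ ∂(surf n)) * g R))
    (2 * ((∫ x in Ω, ‖u x‖ ∂(surf n)) * g R)) with hM
  obtain ⟨e, z, he, hz, h0, h1⟩ := topo2 (N := n + 1) (Nat.succ_le_succ (Nat.zero_le n))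
    (cf Ω (fun _ => 1) g) (cf Ω u g) (cf_cont hg hu0) (cf_cont hg hu)
    (fun e z he hz => cf_even e z he hz) (fun e z he hz => cf_even e z he hz)
    (fun e z he hz => cf_tan e z he) (fun e z he hz => cf_tan e z he) (M := M)
    (fun e z he hz => (cf_bound hg hu0 e z he).trans (le_max_left _ _))
    (fun e z he hz => (cf_bound hg hu e z he).trans (le_max_right _ _)) (K := 2 / ε)
    (by
      intro e z he hz hK
      have hne := add_ne he hz
      have hnp : 0 < ‖e + z‖ := norm_pos_iff.2 hne
      have hn2 := norm_add_perp he hz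
      have hK0 : 0 < 2 / ε := by positivity
      have hnz : 2 / ε ≤ ‖e + z‖ := by
        have := norm_nonneg z
        nlinarith
      have hA : |inner ℝ ((dir (e + z) : Sph n) : E (n + 1)) ((dir e : Sph n) : E (n + 1))| < ε := by
        rw [dir_val hne, dir_unit he, real_inner_smul_left, inner_add_left,
          real_inner_self_eq_norm_sq, he, real_inner_comm, hz, one_pow, add_zero, mul_one,
          abs_of_pos (inv_pos.2 hnp)]
        have h2 : ‖e + z‖⁻¹ ≤ (2 / ε)⁻¹ := inv_anti₀ hK0 hnz
        rw [inv_div] at h2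
        linarith
      have h3 := hεD (dir e) (dir (e + z)) hA
      have h4 := D_perp hg hu0 (dir e, dir (e + z))
      simp only at h4
      rw [dir_unit he] at h3
      unfold cf
      simp only
      set C := D Ω (fun _ => 1) g (dir e, dir (e + z)) with hC
      rw [dir_val hne, real_inner_smul_left] at h4
      have h5 : inner ℝ (e + z) C = 0 :=
        (mul_eq_zero.1 h4).resolve_left (inv_ne_zero hnp.ne')
      rw [inner_add_left] at h5
      rw [inner_sub_left, real_inner_smul_left, hz, mul_zero, sub_zero]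
      have h6 : inner ℝ C e = inner ℝ e C := real_inner_comm _ _
      have h7 : inner ℝ C z = inner ℝ z C := real_inner_comm _ _
      linarith)
  refine ⟨dir e, dir (e + z), ?_, ?_⟩
  · have h2 := D_zero_of_cf hg hu0 e z he hz h0
    unfold D at h2
    simp only [one_smul] at h2
    exact h2
  · exact D_zero_of_cf hg hu e z he hz h1

end Pool.Agent.NE
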