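import Pool.Agent.NE.SIso
import Pool.Agent.NE.SPolarC
import Pool.Agent.NE.OneD

set_option autoImplicit false

open MeasureTheory Set
open scoped ENNReal

namespace Pool.Agent.NE

variable {n : ℕ} {R μ : ℝ} {g dg : ℝ → ℝ}

namespace SCompAux

/-- The distance to the pole. -/
noncomputable abbrev ra (A y : Sph n) : ℝ :=
  InnerProductGeometry.angle (A : E (n + 1)) (y : E (n + 1))

theorem nrm (A : Sph n) : ‖(A : E (n + 1))‖ = 1 := by simp

theorem ne0 (A : Sph n) : (A : E (n + 1)) ≠ 0 := by
  intro h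
  have := nrm A
  rw [h, norm_zero] at this
  norm_num at this

theorem ra_cont (A : Sph n) : Continuous fun y : Sph n => ra A y := by
  unfold ra InnerProductGeometry.angle
  simp only [nrm, mul_one, div_one]
  exact Real.continuous_arccos.comp (continuous_const.inner continuous_subtype_val)

theorem ra_mem (A y : Sph n) : ra A y ∈ Icc 0 Real.pi :=
  ⟨InnerProductGeometry.angle_nonneg _ _, InnerProductGeometry.angle_le_pi _ _⟩

theorem ra_neg (A y : Sph n) : ra A (-y) = Real.pi - ra A y := by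
  have : ((-y : Sph n) : E (n + 1)) = -(y : E (n + 1)) := rfl
  unfold ra
  rw [this, InnerProductGeometry.angle_neg_right]

theorem cos_ra (A y : Sph n) : Real.cos (ra A y) = inner ℝ (A : E (n + 1)) (y : E (n + 1)) := by
  unfold ra
  rw [InnerProductGeometry.cos_angle, nrm, nrm, mul_one, div_one]

theorem nrm_sq (A y : Sph n) : ‖(y : E (n + 1)) - inner ℝ (A : E (n + 1)) (y : E (n + 1)) •
    (A : E (n + 1))‖ ^ 2 = 1 - (inner ℝ (A : E (n + 1)) (y : E (n + 1))) ^ 2 := by
  rw [norm_sub_sq_real, inner_smul_right, norm_smul, nrm, nrm,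
    real_inner_comm (A : E (n + 1)) (y : E (n + 1)), mul_one, Real.norm_eq_abs, sq_abs]
  ring

theorem sin_nonneg (A y : Sph n) : 0 ≤ Real.sin (ra A y) :=
  Real.sin_nonneg_of_nonneg_of_le_pi (ra_mem A y).1 (ra_mem A y).2

theorem nrm_eq (A y : Sph n) : ‖(y : E (n + 1)) - inner ℝ (A : E (n + 1)) (y : E (n + 1)) •
    (A : E (n + 1))‖ = Real.sin (ra A y) := by
  have h1 := nrm_sq A y
  rw [← cos_ra] at h1 ⊢
  have h2 := Real.sin_sq_add_cos_sq (ra A y)
  have h3 := sin_nonneg A y
  have h4 := norm_nonneg ((y : E (n + 1)) - Real.cos (ra A y) • (A : E (n + 1)))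
  rw [← sq_eq_sq₀ h4 h3, h1]
  linarith

theorem tc_eq (A y : Sph n) (ξ : E (n + 1)) :
    tc (A : E (n + 1)) y ξ = inner ℝ (y : E (n + 1)) ξ / Real.sin (ra A y) := by
  unfold tc
  rw [nrm_eq]

theorem inner_perp (A y : Sph n) (ξ : E (n + 1)) (hξ : inner ℝ (A : E (n + 1)) ξ = 0) :
    inner ℝ ((y : E (n + 1)) - inner ℝ (A : E (n + 1)) (y : E (n + 1)) •
    (A : E (n + 1))) ξ = inner ℝ (y : E (n + 1)) ξ := by
  rw [inner_sub_left, inner_smul_left, hξ, mul_zero, sub_zero]

theorem tc_neg (A y : Sph n) (ξ : E (n + 1)) :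
    tc (A : E (n + 1)) (-y : Sph n) ξ = -tc (A : E (n + 1)) y ξ := by
  rw [tc_eq, tc_eq, ra_neg, Real.sin_pi_sub]
  have : ((-y : Sph n) : E (n + 1)) = -(y : E (n + 1)) := rfl
  rw [this, inner_neg_left, neg_div]

theorem tc_meas (A : Sph n) (ξ : E (n + 1)) :
    Measurable fun y : Sph n => tc (A : E (n + 1)) y ξ := by
  simp_rw [tc_eq]
  exact (continuous_subtype_val.inner continuous_const).measurable.div
    (Real.continuous_sin.comp (ra_cont A)).measurable

theorem tc_abs_le (A y : Sph n) (ξ : E (n + 1)) (hξ : inner ℝ (A : E (n + 1)) ξ = 0) :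
    |tc (A : E (n + 1)) y ξ| ≤ ‖ξ‖ := by
  unfold tc
  rw [abs_div, abs_norm, ← inner_perp A y ξ hξ]
  rcases (norm_nonneg ((y : E (n + 1)) - inner ℝ (A : E (n + 1)) (y : E (n + 1)) •
    (A : E (n + 1)))).eq_or_lt with h | h
  · rw [← h, div_zero]
    exact norm_nonneg ξ
  · rw [div_le_iff₀ h, mul_comm]
    exact abs_real_inner_le_norm _ ξ

theorem tc_sq_le (A y : Sph n) (ξ : E (n + 1)) (hξ : inner ℝ (A : E (n + 1)) ξ = 0) :
    tc (A : E (n + 1)) y ξ ^ 2 ≤ ‖ξ‖ ^ 2 := by
  rw [← sq_abs (tc _ _ _)]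
  have := tc_abs_le A y ξ hξ
  gcongr

theorem integrable_of_bdd {α : Type*} [MeasurableSpace α] {ρ : Measure α} [IsFiniteMeasure ρ]
    {f : α → ℝ} (hf : Measurable f) (C : ℝ) (hC : ∀ y, |f y| ≤ C) : Integrable f ρ :=
  Integrable.mono' (integrable_const C) hf.aestronglyMeasurable
    (Filter.Eventually.of_forall hC)

theorem comp_cont {h : ℝ → ℝ} (hh : ContinuousOn h (Icc 0 Real.pi)) (A : Sph n) :
    Continuous fun y : Sph n => h (ra A y) :=
  hh.comp_continuous (ra_cont A) (ra_mem A)

theorem g_nonneg (hg : IsSProfile n R μ g dg) {r : ℝ} (hr : r ∈ Icc 0 Real.pi) : 0 ≤ g r := by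
  rcases hr.1.eq_or_lt with h | h
  · rw [← h, hg.cap.g_zero]
  rcases hr.2.eq_or_lt with h' | h'
  · rw [h', ← sub_zero Real.pi, hg.g_symm, hg.cap.g_zero]
  · exact (hg.g_pos r ⟨h, h'⟩).le

theorem neg_mp : MeasurePreserving (fun y : Sph n => -y) (surf n) (surf n) := by
  have h := rot_mp (n := n) (LinearIsometryEquiv.neg ℝ)
  have e : rotS (n := n) (LinearIsometryEquiv.neg ℝ) = fun y : Sph n => -y := by
    funext y
    exact Subtype.ext rfl
  rwa [e] at h

theorem neg_int (f : Sph n → ℝ) : ∫ y, f (-y) ∂(surf n) = ∫ y, f y ∂(surf n) :=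
  (neg_mp (n := n)).integral_comp (Homeomorph.neg (Sph n)).measurableEmbedding f

theorem hemi_meas (e : Sph n) : MeasurableSet (hemi e) :=
  (isClosed_le continuous_const (continuous_const.inner continuous_subtype_val)).measurableSet

theorem cap_open (A : Sph n) (R : ℝ) : IsOpen (cap A R) :=
  isOpen_lt (ra_cont A) continuous_const

/-- Integrals of even functions over hemispheres. -/
theorem even_hemi (e : Sph n) {h : Sph n → ℝ} (hi : Integrable h (surf n))
    (he : ∀ y, h (-y) = h y) : 2 * ∫ y in hemi e, h y ∂(surf n) = ∫ y, h y ∂(surf n) := by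
  rw [← integral_add_compl (hemi_meas e) hi]
  have h1 : ∫ y in (hemi e)ᶜ, h y ∂(surf n) = ∫ y in hemi e, h y ∂(surf n) := by
    rw [← integral_indicator (hemi_meas e).compl, ← neg_int, ← integral_indicator (hemi_meas e)]
    refine integral_congr_ae ?_
    have h0 : ∀ᵐ y : Sph n ∂(surf n), inner ℝ (e : E (n + 1)) (y : E (n + 1)) ≠ (0 : ℝ) := by
      rw [ae_iff]
      simpa using surf_hyper e
    filter_upwards [h0] with y hy
    have hc : ((-y : Sph n) : E (n + 1)) = -(y : E (n + 1)) := rfl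
    by_cases hy2 : 0 ≤ inner ℝ (e : E (n + 1)) (y : E (n + 1))
    · have h3 : -y ∈ (hemi e)ᶜ := by
        simp only [hemi, mem_compl_iff, mem_ofPred_eq, hc, inner_neg_right, not_le]
        have := lt_of_le_of_ne hy2 (Ne.symm hy)
        linarith
      rw [indicator_of_mem h3, indicator_of_mem (show y ∈ hemi e from hy2), he]
    · have h3 : -y ∉ (hemi e)ᶜ := by
        simp only [hemi, mem_compl_iff, mem_ofPred_eq, hc, inner_neg_right, not_not]
        linarith
      rw [indicator_of_notMem h3, indicator_of_notMem (show y ∉ hemi e from hy2)]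
  rw [h1]
  ring

/-- The union of the two caps. -/
def Es (A : Sph n) (R : ℝ) : Set (Sph n) := {y | ra A y < R ∨ Real.pi - R < ra A y}

theorem Es_meas (A : Sph n) (R : ℝ) : MeasurableSet (Es A R) :=
  ((isOpen_lt (ra_cont A) continuous_const).union
    (isOpen_lt continuous_const (ra_cont A))).measurableSet

/-- The basic comparison. -/
theorem le_twoS (hR' : R ≤ Real.pi / 2) {A e : Sph n} {ν : Measure (Sph n)}
    (hν : ν ≤ (2 : ℝ≥0∞) • (surf n).restrict (hemi e)) {f : Sph n → ℝ}
    (hi : Integrable f ν) (hs : Integrable f (surf n)) (he : ∀ y, f (-y) = f y)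
    (h1 : ∀ᵐ y ∂(surf n), y ∈ Es A R → 0 ≤ f y) (h2 : ∀ y ∉ Es A R, f y ≤ 0) :
    ∫ y, f y ∂ν ≤ 2 * ∫ y in cap A R, f y ∂(surf n) := by
  have hm := Es_meas A R
  have hcm : MeasurableSet (cap A R) := (cap_open A R).measurableSet
  rw [← integral_add_compl hm hi]
  have h3 : ∫ y in (Es A R)ᶜ, f y ∂ν ≤ 0 :=
    setIntegral_nonpos hm.compl fun y hy => h2 y hy
  have h4 : ν.restrict (Es A R) ≤ (2 : ℝ≥0∞) • ((surf n).restrict (hemi e)).restrict (Es A R) := by
    rw [← Measure.restrict_smul]
    exact Measure.restrict_mono le_rfl hν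
  have h5 : ∫ y in Es A R, f y ∂ν ≤
      ∫ y, f y ∂((2 : ℝ≥0∞) • ((surf n).restrict (hemi e)).restrict (Es A R)) := by
    refine integral_mono_measure h4 ?_ ((hs.restrict.restrict).smul_measure (by simp))
    refine Measure.ae_smul_measure ?_ _
    refine (ae_restrict_iff' hm).2 ?_
    exact ae_restrict_of_ae h1
  rw [integral_smul_measure] at h5
  have e2 : (2 : ℝ≥0∞).toReal = 2 := by simp
  rw [e2, smul_eq_mul] at h5
  have h6 : ∫ y in Es A R, f y ∂((surf n).restrict (hemi e)) =
      ∫ y in hemi e, (Es A R).indicator f y ∂(surf n) :=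
    (integral_indicator hm).symm
  have hEeq : ∀ y : Sph n, (-y ∈ Es A R ↔ y ∈ Es A R) := by
    intro y
    simp only [Es, mem_ofPred_eq, ra_neg]
    constructor
    · rintro (h | h)
      · right; linarith
      · left; linarith
    · rintro (h | h)
      · right; linarith
      · left; linarith
  have h7 := even_hemi e (h := (Es A R).indicator f) (hs.indicator hm) (fun y => by
    by_cases hy : y ∈ Es A R
    · rw [indicator_of_mem hy, indicator_of_mem ((hEeq y).2 hy), he]
    · rw [indicator_of_notMem hy, indicator_of_notMem (fun h => hy ((hEeq y).1 h))])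
  have h8 : ∀ y, (Es A R).indicator f y =
      (cap A R).indicator f y + (cap A R).indicator f (-y) := by
    intro y
    by_cases hy : ra A y < R
    · have a1 : y ∈ Es A R := Or.inl hy
      have a2 : y ∈ cap A R := hy
      have a3 : -y ∉ cap A R := by
        intro h
        have h' : ra A (-y) < R := h
        rw [ra_neg] at h'
        linarith
      rw [indicator_of_mem a1, indicator_of_mem a2, indicator_of_notMem a3, add_zero]
    · have a2 : y ∉ cap A R := hy
      by_cases hy2 : Real.pi - R < ra A y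
      · have a1 : y ∈ Es A R := Or.inr hy2
        have a3 : -y ∈ cap A R := by
          show ra A (-y) < R
          rw [ra_neg]
          linarith
        rw [indicator_of_mem a1, indicator_of_notMem a2, indicator_of_mem a3, zero_add, he]
      · have a1 : y ∉ Es A R := by
          rintro (h | h)
          · exact hy h
          · exact hy2 h
        have a3 : -y ∉ cap A R := by
          intro h
          have h' : ra A (-y) < R := h
          rw [ra_neg] at h'
          linarith
        rw [indicator_of_notMem a1, indicator_of_notMem a2, indicator_of_notMem a3, add_zero]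
  have hci : Integrable ((cap A R).indicator f) (surf n) := hs.indicator hcm
  have h9 : ∫ y, (Es A R).indicator f y ∂(surf n) = 2 * ∫ y in cap A R, f y ∂(surf n) := by
    simp_rw [h8]
    have hcn : Integrable (fun y => (cap A R).indicator f (-y)) (surf n) :=
      (neg_mp (n := n)).integrable_comp_of_integrable hci
    rw [integral_add hci hcn, neg_int, integral_indicator hcm]
    ring
  rw [h6] at h5
  rw [h9] at h7
  linarith

/-- The sum of the squares of the components. -/
theorem sum_tc (A y : Sph n) (J : E n →ₗᵢ[ℝ] E (n + 1))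
    (hJ : ∀ η, inner ℝ (A : E (n + 1)) (J η) = 0) (hy : Real.sin (ra A y) ≠ 0) :
    ∑ i, tc (A : E (n + 1)) y (J (EuclideanSpace.single i 1)) ^ 2 = 1 := by
  classical
  let b : Option (Fin n) → E (n + 1) := fun o => o.elim (A : E (n + 1))
    fun i => J (EuclideanSpace.single i 1)
  have hb : Orthonormal ℝ b := by
    constructor
    · rintro (_ | i)
      · exact nrm A
      · show ‖J (EuclideanSpace.single i 1)‖ = 1
        rw [J.norm_map]
        simp
    · rintro (_ | i) (_ | j) hij
      · exact absurd rfl hij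
      · exact hJ _
      · show inner ℝ (J (EuclideanSpace.single i 1)) (A : E (n + 1)) = 0
        rw [real_inner_comm]
        exact hJ _
      · show inner ℝ (J (EuclideanSpace.single i 1)) (J (EuclideanSpace.single j 1)) = 0
        rw [J.inner_map_map]
        have : i ≠ j := fun h => hij (by rw [h])
        rw [EuclideanSpace.inner_single_left]
        simp [this]
  let B := OrthonormalBasis.mk hb (by
    have h1 := hb.linearIndependent.span_eq_top_of_card_eq_finrank' (by simp)
    rw [h1])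
  have h1 := B.sum_sq_norm_inner_right ((y : E (n + 1)) - inner ℝ (A : E (n + 1)) (y : E (n + 1)) •
    (A : E (n + 1)))
  rw [Fintype.sum_option] at h1
  have e0 : B none = (A : E (n + 1)) := by simp [B, b]
  have e1 : ∀ i, B (some i) = J (EuclideanSpace.single i 1) := fun i => by simp [B, b]
  simp_rw [e0, e1] at h1
  have h2 : inner ℝ (A : E (n + 1)) ((y : E (n + 1)) - inner ℝ (A : E (n + 1)) (y : E (n + 1)) •
    (A : E (n + 1))) = 0 := by
    rw [inner_sub_right, inner_smul_right, real_inner_self_eq_norm_sq, nrm]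
    ring
  rw [h2, norm_zero] at h1
  have h3 : ∀ i, tc (A : E (n + 1)) y (J (EuclideanSpace.single i 1)) ^ 2 =
      ‖inner ℝ (J (EuclideanSpace.single i 1)) ((y : E (n + 1)) -
        inner ℝ (A : E (n + 1)) (y : E (n + 1)) • (A : E (n + 1)))‖ ^ 2 / Real.sin (ra A y) ^ 2 := by
    intro i
    rw [tc_eq, div_pow, Real.norm_eq_abs, sq_abs,
      real_inner_comm _ (J (EuclideanSpace.single i 1)), inner_perp A y _ (hJ _)]
  simp_rw [h3]
  rw [← Finset.sum_div, nrm_eq] at *
  rw [div_eq_one_iff_eq (pow_ne_zero 2 hy)]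
  rw [← h1]
  ring

/-- Isotropy on caps. -/
theorem isoC (hn : 1 ≤ n) (A : Sph n) (R : ℝ) (F : ℝ → ℝ)
    (hF : IntegrableOn (fun y : Sph n => F (ra A y)) (cap A R) (surf n)) (ξ : E (n + 1))
    (hξ : inner ℝ (A : E (n + 1)) ξ = 0) :
    ∫ y in cap A R, F (ra A y) * tc (A : E (n + 1)) y ξ ^ 2 ∂(surf n) =
      ‖ξ‖ ^ 2 / n * ∫ y in cap A R, F (ra A y) ∂(surf n) := by
  have hcm : MeasurableSet (cap A R) := (cap_open A R).measurableSet
  have e1 : ∀ y : Sph n, (Iio R).indicator F (ra A y) =
      (cap A R).indicator (fun y => F (ra A y)) y := by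
    intro y
    by_cases hy : ra A y < R
    · rw [indicator_of_mem (show ra A y ∈ Iio R from hy), indicator_of_mem (show y ∈ cap A R from hy)]
    · rw [indicator_of_notMem (show ra A y ∉ Iio R from hy),
        indicator_of_notMem (show y ∉ cap A R from hy)]
  have h1 := isoS hn A ((Iio R).indicator F) (by
    have : (fun y : Sph n => (Iio R).indicator F (ra A y)) =
      (cap A R).indicator (fun y => F (ra A y)) := funext e1
    change Integrable (fun y : Sph n => (Iio R).indicator F (ra A y)) (surf n)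
    rw [this]
    exact hF.integrable_indicator hcm) ξ hξ
  rw [← integral_indicator hcm, ← integral_indicator hcm]
  have e2 : ∀ y : Sph n, (cap A R).indicator (fun y => F (ra A y) * tc (A : E (n + 1)) y ξ ^ 2) y =
      (Iio R).indicator F (ra A y) * tc (A : E (n + 1)) y ξ ^ 2 := by
    intro y
    rw [e1]
    by_cases hy : y ∈ cap A R
    · rw [indicator_of_mem hy, indicator_of_mem hy]
    · rw [indicator_of_notMem hy, indicator_of_notMem hy, zero_mul]
  simp_rw [e2, ← e1]
  exact h1

/-- Radial integrals on caps. -/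
theorem radC (hn : 1 ≤ n) : ∃ c : ℝ, 0 < c ∧ ∀ (A : Sph n) (R : ℝ), 0 < R → R ≤ Real.pi →
    ∀ F : ℝ → ℝ, ContinuousOn F (Ioo 0 R) → (∃ M, ∀ r ∈ Ioo 0 R, |F r| ≤ M) →
    ∫ y in cap A R, F (ra A y) ∂(surf n) = c * ∫ r in (0 : ℝ)..R, F r * Real.sin r ^ (n - 1) := by
  classical
  obtain ⟨c, hc, h⟩ := radS hn
  refine ⟨c, hc, fun A R hR hRp F hF hM => ?_⟩
  obtain ⟨M, hM⟩ := hM
  have hcm : MeasurableSet (cap A R) := (cap_open A R).measurableSet
  have h1 := h A ((Ioo 0 R).indicator F) (by
    have := ContinuousOn.measurable_piecewise (f := F) (g := fun _ => (0 : ℝ)) hF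
      continuousOn_const (measurableSet_Ioo : MeasurableSet (Ioo 0 R))
    rwa [show (fun _ : ℝ => (0 : ℝ)) = 0 from rfl, piecewise_eq_indicator] at this) ⟨max M 0, fun r => by
      by_cases hr : r ∈ Ioo 0 R
      · rw [indicator_of_mem hr]
        exact (hM r hr).trans (le_max_left _ _)
      · rw [indicator_of_notMem hr, abs_zero]
        exact le_max_right _ _⟩
  have e1 : ∫ y in cap A R, F (ra A y) ∂(surf n) =
      ∫ y : Sph n, (Ioo 0 R).indicator F (ra A y) ∂(surf n) := by
    rw [← integral_indicator hcm]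
    refine integral_congr_ae ?_
    have h0 : ∀ᵐ y : Sph n ∂(surf n), y ≠ A := by
      rw [ae_iff]
      simpa using surf_point hn A
    filter_upwards [h0] with y hy
    have hpos : 0 < ra A y := by
      refine lt_of_le_of_ne (ra_mem A y).1 fun h => hy ?_
      have h2 := cos_ra A y
      rw [← h, Real.cos_zero] at h2
      have h3 := (inner_eq_one_iff_of_norm_eq_one (𝕜 := ℝ) (nrm A) (nrm y)).1 h2.symm
      exact Subtype.ext h3.symm
    by_cases hy2 : ra A y < R
    · rw [indicator_of_mem (show y ∈ cap A R from hy2), indicator_of_mem (show ra A y ∈ Ioo 0 R from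
        ⟨hpos, hy2⟩)]
    · rw [indicator_of_notMem (show y ∉ cap A R from hy2),
        indicator_of_notMem (show ra A y ∉ Ioo 0 R from fun h => hy2 h.2)]
  have e2 : ∫ r in (0 : ℝ)..Real.pi, (Ioo 0 R).indicator F r * Real.sin r ^ (n - 1) =
      ∫ r in (0 : ℝ)..R, F r * Real.sin r ^ (n - 1) := by
    have e3 : (fun r : ℝ => (Ioo 0 R).indicator F r * Real.sin r ^ (n - 1)) =
        (Ioo 0 R).indicator fun r => F r * Real.sin r ^ (n - 1) := by
      funext r
      by_cases hr : r ∈ Ioo 0 R
      · rw [indicator_of_mem hr, indicator_of_mem hr]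
      · rw [indicator_of_notMem hr, indicator_of_notMem hr, zero_mul]
    rw [e3, intervalIntegral.integral_of_le Real.pi_pos.le, setIntegral_indicator measurableSet_Ioo,
      intervalIntegral.integral_of_le hR.le, integral_Ioc_eq_integral_Ioo]
    congr 2
    ext r
    simp only [mem_inter_iff, mem_Ioc, mem_Ioo]
    constructor
    · rintro ⟨_, h⟩
      exact h
    · rintro ⟨h1, h2⟩
      exact ⟨⟨h1, by linarith⟩, h1, h2⟩
  rw [e1, ← e2]
  exact h1

/-- Linearity of the components. -/
theorem tc_sum (A y : Sph n) (J : E n →ₗᵢ[ℝ] E (n + 1)) (η : E n) :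
    tc (A : E (n + 1)) y (J η) = ∑ i, tc (A : E (n + 1)) y (J (EuclideanSpace.single i 1)) * η i := by
  have h1 : η = ∑ i, η i • EuclideanSpace.single i (1 : ℝ) := by
    ext j
    simp [Finset.sum_apply, Pi.single_apply]
  have h2 : J η = ∑ i, η i • J (EuclideanSpace.single i (1 : ℝ)) := by
    conv_lhs => rw [h1]
    rw [map_sum]
    simp_rw [map_smul]
  simp_rw [tc_eq]
  rw [h2, inner_sum, Finset.sum_div]
  refine Finset.sum_congr rfl fun i _ => ?_
  rw [inner_smul_right]
  ring

theorem gR_le (hg : IsSProfile n R μ g dg) : R ∈ Icc 0 Real.pi :=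
  ⟨hg.R_pos.le, by linarith [hg.R_le, Real.pi_pos]⟩

theorem gR_pos (hg : IsSProfile n R μ g dg) : 0 < g R :=
  hg.g_pos R ⟨hg.R_pos, by linarith [hg.R_le, Real.pi_pos]⟩

theorem sinR_pos (hg : IsSProfile n R μ g dg) : 0 < Real.sin R :=
  Real.sin_pos_of_pos_of_lt_pi hg.R_pos (by linarith [hg.R_le, Real.pi_pos])

theorem ratio_nonneg (hg : IsSProfile n R μ g dg) {r : ℝ} (hr : r ∈ Icc 0 Real.pi) :
    0 ≤ g r / Real.sin r :=
  div_nonneg (g_nonneg hg hr) (Real.sin_nonneg_of_nonneg_of_le_pi hr.1 hr.2)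

theorem ratio_le_one (hg : IsSProfile n R μ g dg) {r : ℝ} (hr : r ∈ Icc 0 Real.pi) :
    g r / Real.sin r ≤ 1 := by
  rcases (Real.sin_nonneg_of_nonneg_of_le_pi hr.1 hr.2).eq_or_lt with h | h
  · rw [← h, div_zero]
    exact zero_le_one
  · rw [div_le_one h]
    exact hg.g_le_sin r hr

theorem ratio_ge (hg : IsSProfile n R μ g dg) {r : ℝ} (h0 : 0 < r) (hp : r < Real.pi)
    (h : r < R ∨ Real.pi - R < r) : g R / Real.sin R ≤ g r / Real.sin r := by
  rcases h with h | h
  · exact hg.cap.ratio_anti ⟨h0, h.le⟩ ⟨hg.R_pos, le_rfl⟩ h.le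
  · rw [← hg.g_symm r, ← Real.sin_pi_sub r]
    exact hg.cap.ratio_anti ⟨by linarith, by linarith⟩ ⟨hg.R_pos, le_rfl⟩ (by linarith)

theorem ratio_ge' (hg : IsSProfile n R μ g dg) {r : ℝ} (h0 : R ≤ r) (hp : r ≤ Real.pi - R) :
    g r / Real.sin r ≤ g R / Real.sin R := by
  rw [hg.g_const r ⟨h0, hp⟩]
  have h1 : Real.sin R ≤ Real.sin r := by
    rcases le_total r (Real.pi / 2) with h | h
    · exact Real.sin_le_sin_of_le_of_le_pi_div_two (by linarith [hg.R_pos, Real.pi_pos]) h h0
    · rw [← Real.sin_pi_sub r]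
      exact Real.sin_le_sin_of_le_of_le_pi_div_two (by linarith [hg.R_pos, Real.pi_pos])
        (by linarith) (by linarith)
  exact div_le_div_of_nonneg_left (gR_pos hg).le (sinR_pos hg) h1

end SCompAux

open SCompAux

/-- Comparison of the two forms of a folded measure on the sphere with the forms of the cap. -/
theorem compS (hn : 1 ≤ n) (hg : IsSProfile n R μ g dg) (e A : Sph n) (ν : Measure (Sph n))
    (hν : ν ≤ (2 : ℝ≥0∞) • (surf n).restrict (hemi e)) (hu : ν univ = 2 * surf n (cap A R))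
    (J : E n →ₗᵢ[ℝ] E (n + 1)) (hJ : ∀ η, inner ℝ (A : E (n + 1)) (J η) = 0) :
    ∃ (b0 : ℝ) (N : Matrix (Fin n) (Fin n) ℝ), 0 < b0 ∧ N.IsSymm ∧ N.trace = 0 ∧
      (∀ η, ∫ y, qs g dg (A : E (n + 1)) (y : E (n + 1)) (J η) ∂ν ≤
        μ * b0 * ‖η‖ ^ 2 - (g R / Real.sin R) ^ 2 * bf N η η) ∧
      (∀ η, b0 * ‖η‖ ^ 2 + g R ^ 2 * bf N η η ≤
        ∫ y, (inner ℝ (Gs g (A : E (n + 1)) (y : E (n + 1))) (J η)) ^ 2 ∂ν) ∧
      (∀ η, η ≠ 0 → 0 < ∫ y, (inner ℝ (Gs g (A : E (n + 1)) (y : E (n + 1))) (J η)) ^ 2 ∂ν) := by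
  have hR := hg.R_pos
  have hR2 := hg.R_le
  have hpi := Real.pi_pos
  have hn0 : (0 : ℝ) < n := by exact_mod_cast hn
  obtain ⟨c, hc, hrad⟩ := radC hn
  set B := cap A R with hB
  have hBm : MeasurableSet B := (cap_open A R).measurableSet
  have hBfin : surf n B ≠ ⊤ := measure_ne_top _ _
  have hAB : A ∈ B := by
    show InnerProductGeometry.angle (A : E (n + 1)) (A : E (n + 1)) < R
    rw [InnerProductGeometry.angle_self (ne0 A)]
    exact hR
  have hBpos : 0 < surf n B := (cap_open A R).measure_pos _ ⟨A, hAB⟩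
  have hνfin : IsFiniteMeasure ν := ⟨by rw [hu]; exact ENNReal.mul_lt_top (by simp) hBfin.lt_top⟩
  have hνreal : ν.real univ = 2 * (surf n).real B := by
    rw [measureReal_def, hu, ENNReal.toReal_mul]
    simp [measureReal_def]
  have hνac : ν ≪ surf n := by
    refine Measure.AbsolutelyContinuous.trans (Measure.absolutelyContinuous_of_le hν) ?_
    exact Measure.smul_absolutelyContinuous.trans Measure.restrict_le_self.absolutelyContinuous
  have hae0 : ∀ᵐ y : Sph n ∂(surf n), 0 < ra A y ∧ ra A y < Real.pi := by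
    have h0 : ∀ᵐ y : Sph n ∂(surf n), y ≠ A := by
      rw [ae_iff]
      simpa using surf_point hn A
    have h0' : ∀ᵐ y : Sph n ∂(surf n), y ≠ -A := by
      rw [ae_iff]
      simpa using surf_point hn (-A)
    filter_upwards [h0, h0'] with y hy hy'
    have hpos : ∀ z : Sph n, z ≠ A → 0 < ra A z := by
      intro z hz
      refine lt_of_le_of_ne (ra_mem A z).1 fun h => hz ?_
      have h2 := cos_ra A z
      rw [← h, Real.cos_zero] at h2
      have h3 := (inner_eq_one_iff_of_norm_eq_one (𝕜 := ℝ) (nrm A) (nrm z)).1 h2.symm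
      exact Subtype.ext h3.symm
    refine ⟨hpos y hy, ?_⟩
    have h2 := hpos (-y) (fun h => hy' (by rw [← h, neg_neg]))
    rw [ra_neg] at h2
    linarith
  -- the components
  set t : E n → Sph n → ℝ := fun η y => tc (A : E (n + 1)) y (J η) with ht
  have htm : ∀ η, Measurable (t η) := fun η => tc_meas A (J η)
  have ht2 : ∀ η y, t η y ^ 2 ≤ ‖η‖ ^ 2 := fun η y => by
    have := tc_sq_le A y (J η) (hJ η)
    rwa [J.norm_map] at this
  have htn : ∀ η y, t η (-y) ^ 2 = t η y ^ 2 := fun η y => by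
    simp only [ht]
    rw [tc_neg, neg_sq]
  have ht2i : ∀ (ρ : Measure (Sph n)) [IsFiniteMeasure ρ] (η : E n),
      Integrable (fun y => t η y ^ 2) ρ := by
    intro ρ _ η
    refine integrable_of_bdd ((htm η).pow_const 2) (‖η‖ ^ 2) fun y => ?_
    rw [abs_of_nonneg (sq_nonneg _)]
    exact ht2 η y
  set th : Fin n → Sph n → ℝ := fun i y => t (EuclideanSpace.single i 1) y with hth
  have hthm : ∀ i, Measurable (th i) := fun i => htm _
  have hthb : ∀ i y, |th i y| ≤ 1 := by
    intro i y
    have := tc_abs_le A y (J (EuclideanSpace.single i 1)) (hJ _)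
    rw [J.norm_map] at this
    simpa using this
  have hthi : ∀ (ρ : Measure (Sph n)) [IsFiniteMeasure ρ] (i j : Fin n),
      Integrable (fun y => th i y * th j y) ρ := by
    intro ρ _ i j
    refine integrable_of_bdd ((hthm i).mul (hthm j)) 1 fun y => ?_
    rw [abs_mul]
    have h1 := hthb i y
    have h2 := hthb j y
    have h3 := abs_nonneg (th i y)
    have h4 := abs_nonneg (th j y)
    nlinarith
  set N : Matrix (Fin n) (Fin n) ℝ := Matrix.of fun i j =>
    ∫ y, th i y * th j y ∂ν - 2 * ∫ y in B, th i y * th j y ∂(surf n) with hN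
  have hsum : ∀ η y, t η y ^ 2 = ∑ i, ∑ j, th i y * th j y * (η i * η j) := by
    intro η y
    have e : t η y = ∑ i, th i y * η i := tc_sum A y J η
    rw [e, sq, Finset.sum_mul_sum]
    refine Finset.sum_congr rfl fun i _ => Finset.sum_congr rfl fun j _ => ?_
    ring
  have hint : ∀ (ρ : Measure (Sph n)) [IsFiniteMeasure ρ] (η : E n),
      ∫ y, t η y ^ 2 ∂ρ = ∑ i, ∑ j, (∫ y, th i y * th j y ∂ρ) * (η i * η j) := by
    intro ρ _ η
    simp_rw [hsum η]
    rw [integral_finsetSum _ fun i _ => integrable_finsetSum _ fun j _ =>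
      (hthi ρ i j).mul_const _]
    refine Finset.sum_congr rfl fun i _ => ?_
    rw [integral_finsetSum _ fun j _ => (hthi ρ i j).mul_const _]
    refine Finset.sum_congr rfl fun j _ => ?_
    rw [integral_mul_const]
  have hbf : ∀ η, bf N η η = (∫ y, t η y ^ 2 ∂ν) - 2 * ∫ y in B, t η y ^ 2 ∂(surf n) := by
    intro η
    rw [hint ν η, hint ((surf n).restrict B) η]
    simp only [bf, hN, Matrix.of_apply]
    rw [Finset.mul_sum, ← Finset.sum_sub_distrib]
    refine Finset.sum_congr rfl fun i _ => ?_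
    rw [Finset.mul_sum, ← Finset.sum_sub_distrib]
    refine Finset.sum_congr rfl fun j _ => ?_
    ring
  -- constant
  set b0 : ℝ := 2 / n * ∫ y in B, g (ra A y) ^ 2 ∂(surf n) with hb0
  have hgc : Continuous fun y : Sph n => g (ra A y) := comp_cont hg.g_cont A
  have hdgc : Continuous fun y : Sph n => dg (ra A y) := comp_cont hg.dg_cont A
  have hsc : Continuous fun y : Sph n => Real.sin (ra A y) := Real.continuous_sin.comp (ra_cont A)
  have hgR : 0 < g R := gR_pos hg
  have hgb : ∀ y : Sph n, g (ra A y) ^ 2 ≤ g R ^ 2 := by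
    intro y
    have h1 := g_nonneg hg (ra_mem A y)
    have h2 := hg.g_le _ (ra_mem A y)
    gcongr
  have hg2i : ∀ (ρ : Measure (Sph n)) [IsFiniteMeasure ρ],
      Integrable (fun y => g (ra A y) ^ 2) ρ := by
    intro ρ _
    refine integrable_of_bdd (hgc.measurable.pow_const 2) (g R ^ 2) fun y => ?_
    rw [abs_of_nonneg (sq_nonneg _)]
    exact hgb y
  have hb0pos : 0 < b0 := by
    have h1 : 0 < ∫ y in B, g (ra A y) ^ 2 ∂(surf n) := by
      rw [integral_pos_iff_support_of_nonneg (fun y => sq_nonneg _) (hg2i _)]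
      rw [Measure.restrict_apply' hBm]
      have h2 : B \ {A} ⊆ Function.support (fun y : Sph n => g (ra A y) ^ 2) ∩ B := by
        rintro y ⟨h1, h2⟩
        refine ⟨?_, h1⟩
        have h3 : 0 < ra A y := by
          refine lt_of_le_of_ne (ra_mem A y).1 fun h => h2 ?_
          have h2 := cos_ra A y
          rw [← h, Real.cos_zero] at h2
          have h3 := (inner_eq_one_iff_of_norm_eq_one (𝕜 := ℝ) (nrm A) (nrm y)).1 h2.symm
          exact Subtype.ext h3.symm
        have h4 : ra A y < R := h1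
        have := hg.g_pos (ra A y) ⟨h3, by linarith⟩
        simp only [Function.mem_support]
        positivity
      refine lt_of_lt_of_le ?_ (measure_mono h2)
      rw [measure_sdiff_null (surf_point hn A)]
      exact hBpos
    rw [hb0]
    positivity
  -- the ratio
  have hrm : Measurable fun y : Sph n => g (ra A y) / Real.sin (ra A y) :=
    hgc.measurable.div hsc.measurable
  have hrb : ∀ y : Sph n, (g (ra A y) / Real.sin (ra A y)) ^ 2 ≤ 1 := by
    intro y
    exact pow_le_one₀ (ratio_nonneg hg (ra_mem A y)) (ratio_le_one hg (ra_mem A y))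
  have hdb : ∀ y : Sph n, dg (ra A y) ^ 2 ≤ 1 := by
    intro y
    rw [← sq_abs]
    exact pow_le_one₀ (abs_nonneg _) (hg.dg_le _ (ra_mem A y))
  have hr2i : ∀ (ρ : Measure (Sph n)) [IsFiniteMeasure ρ],
      Integrable (fun y => (g (ra A y) / Real.sin (ra A y)) ^ 2) ρ := by
    intro ρ _
    refine integrable_of_bdd (hrm.pow_const 2) 1 fun y => ?_
    rw [abs_of_nonneg (sq_nonneg _)]
    exact hrb y
  have hd2i : ∀ (ρ : Measure (Sph n)) [IsFiniteMeasure ρ],
      Integrable (fun y : Sph n => dg (ra A y) ^ 2) ρ := by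
    intro ρ _
    refine integrable_of_bdd (hdgc.measurable.pow_const 2) 1 fun y => ?_
    rw [abs_of_nonneg (sq_nonneg _)]
    exact hdb y
  have hqe : ∀ (η : E n) (y : Sph n), qs g dg (A : E (n + 1)) y (J η) =
      dg (ra A y) ^ 2 * t η y ^ 2 +
        (g (ra A y) / Real.sin (ra A y)) ^ 2 * (‖η‖ ^ 2 - t η y ^ 2) := by
    intro η y
    simp only [qs, J.norm_map, ht]
  have hqi : ∀ (ρ : Measure (Sph n)) [IsFiniteMeasure ρ] (η : E n),
      Integrable (fun y : Sph n => qs g dg (A : E (n + 1)) y (J η)) ρ := by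
    intro ρ _ η
    simp_rw [hqe]
    refine integrable_of_bdd (f := fun y => dg (ra A y) ^ 2 * t η y ^ 2 +
        (g (ra A y) / Real.sin (ra A y)) ^ 2 * (‖η‖ ^ 2 - t η y ^ 2)) ?_ (‖η‖ ^ 2 + ‖η‖ ^ 2) fun y => ?_
    · exact ((hdgc.measurable.pow_const 2).mul ((htm η).pow_const 2)).add
        ((hrm.pow_const 2).mul (measurable_const.sub ((htm η).pow_const 2)))
    · have h1 := ht2 η y
      have h2 := hdb y
      have h3 := hrb y
      have h4 : (0 : ℝ) ≤ t η y ^ 2 := sq_nonneg _
      have h5 : (0 : ℝ) ≤ dg (ra A y) ^ 2 := sq_nonneg _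
      have h6 : (0 : ℝ) ≤ (g (ra A y) / Real.sin (ra A y)) ^ 2 := sq_nonneg _
      rw [abs_of_nonneg (by nlinarith [mul_nonneg h5 h4, mul_nonneg h6 (sub_nonneg.2 h1)])]
      nlinarith [mul_nonneg h5 h4, mul_nonneg h6 (sub_nonneg.2 h1)]
  have hdn : ∀ y : Sph n, dg (ra A (-y)) ^ 2 = dg (ra A y) ^ 2 := fun y => by
    rw [ra_neg, hg.dg_symm, neg_sq]
  have hgn : ∀ y : Sph n, g (ra A (-y)) = g (ra A y) := fun y => by
    rw [ra_neg, hg.g_symm]
  have hsn : ∀ y : Sph n, Real.sin (ra A (-y)) = Real.sin (ra A y) := fun y => by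
    rw [ra_neg, Real.sin_pi_sub]
  refine ⟨b0, N, hb0pos, ?_, ?_, ?_, ?_, ?_⟩
  · -- symmetry
    ext i j
    simp only [hN, Matrix.transpose_apply, Matrix.of_apply]
    simp_rw [mul_comm (th j _) (th i _)]
  · -- trace
    have h1 : N.trace = (∫ y, (1 : ℝ) ∂ν) - 2 * ∫ y in B, (1 : ℝ) ∂(surf n) := by
      have key : ∀ (ρ : Measure (Sph n)) [IsFiniteMeasure ρ], ρ ≪ surf n →
          ∑ i, ∫ y, th i y * th i y ∂ρ = ∫ y, (1 : ℝ) ∂ρ := by
        intro ρ _ hρ
        rw [← integral_finsetSum _ fun i _ => hthi ρ i i]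
        refine integral_congr_ae ?_
        have h0 : ∀ᵐ y ∂ρ, 0 < ra A y ∧ ra A y < Real.pi := hρ.ae_le hae0
        filter_upwards [h0] with y hy
        have h2 := sum_tc A y J hJ (Real.sin_pos_of_pos_of_lt_pi hy.1 hy.2).ne'
        rw [← h2]
        refine Finset.sum_congr rfl fun i _ => ?_
        simp only [hth, ht]
        ring
      rw [← key ν hνac, ← key ((surf n).restrict B) Measure.restrict_le_self.absolutelyContinuous,
        Finset.mul_sum, ← Finset.sum_sub_distrib]
      rfl
    rw [h1]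
    simp only [integral_const, smul_eq_mul, mul_one]
    rw [hνreal]
    simp [measureReal_def]
  · -- first form
    intro η
    set ar : Sph n → ℝ := fun y => (g R / Real.sin R) ^ 2 * (‖η‖ ^ 2 - t η y ^ 2) with har
    have hari : ∀ (ρ : Measure (Sph n)) [IsFiniteMeasure ρ], Integrable ar ρ := by
      intro ρ _
      exact ((integrable_const _).sub (ht2i ρ η)).const_mul _
    have hfe : ∀ y : Sph n, qs g dg (A : E (n + 1)) y (J η) - ar y =
        dg (ra A y) ^ 2 * t η y ^ 2 + ((g (ra A y) / Real.sin (ra A y)) ^ 2 -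
          (g R / Real.sin R) ^ 2) * (‖η‖ ^ 2 - t η y ^ 2) := by
      intro y
      rw [hqe]
      simp only [har]
      ring
    have h1 := le_twoS hR2 hν (f := fun y => qs g dg (A : E (n + 1)) y (J η) - ar y)
      ((hqi ν η).sub (hari ν)) ((hqi (surf n) η).sub (hari (surf n)))
      (fun y => by
        rw [hfe, hfe, hdn, hgn, hsn, htn])
      (by
        filter_upwards [hae0] with y hy0 hyE
        have h2 := ht2 η y
        rw [hfe]
        have h4 := ratio_ge hg hy0.1 hy0.2 hyE
        have h5 : 0 ≤ g R / Real.sin R := ratio_nonneg hg (gR_le hg)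
        have h6 : 0 ≤ (g (ra A y) / Real.sin (ra A y)) ^ 2 - (g R / Real.sin R) ^ 2 := by
          nlinarith
        have := mul_nonneg h6 (sub_nonneg.2 h2)
        positivity)
      (fun y hy => by
        have hy1 : R ≤ ra A y := by
          by_contra h
          exact hy (Or.inl (not_le.1 h))
        have hy2 : ra A y ≤ Real.pi - R := by
          by_contra h
          exact hy (Or.inr (not_le.1 h))
        have h2 := ht2 η y
        rw [hfe, hg.dg_zero _ ⟨hy1, hy2⟩]
        have h4 := ratio_ge' hg hy1 hy2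
        have h5 := ratio_nonneg hg (ra_mem A y)
        have h6 : 0 ≤ (g R / Real.sin R) ^ 2 - (g (ra A y) / Real.sin (ra A y)) ^ 2 := by
          nlinarith
        have := mul_nonneg h6 (sub_nonneg.2 h2)
        linarith)
    have e1 : ∫ y, (qs g dg (A : E (n + 1)) (y : E (n + 1)) (J η) - ar y) ∂ν =
        (∫ y, qs g dg (A : E (n + 1)) (y : E (n + 1)) (J η) ∂ν) - ∫ y, ar y ∂ν :=
      integral_sub (hqi ν η) (hari ν)
    have e2 : ∫ y in B, (qs g dg (A : E (n + 1)) (y : E (n + 1)) (J η) - ar y) ∂(surf n) =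
        (∫ y in B, qs g dg (A : E (n + 1)) (y : E (n + 1)) (J η) ∂(surf n)) -
          ∫ y in B, ar y ∂(surf n) :=
      integral_sub (hqi ((surf n).restrict B) η) (hari ((surf n).restrict B))
    have e3 : ∀ (ρ : Measure (Sph n)) [IsFiniteMeasure ρ], ∫ y, ar y ∂ρ =
        (g R / Real.sin R) ^ 2 * (ρ.real univ * ‖η‖ ^ 2 - ∫ y, t η y ^ 2 ∂ρ) := by
      intro ρ _
      simp only [har]
      rw [integral_const_mul, integral_sub (integrable_const _) (ht2i ρ η), integral_const,
        smul_eq_mul]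
    have e4 : ∫ y in B, qs g dg (A : E (n + 1)) (y : E (n + 1)) (J η) ∂(surf n) = ‖η‖ ^ 2 / n *
        ∫ y in B, (dg (ra A y) ^ 2 + (n - 1) * (g (ra A y) / Real.sin (ra A y)) ^ 2) ∂(surf n) := by
      have i0 : IntegrableOn (fun y : Sph n => dg (ra A y) ^ 2 -
          (g (ra A y) / Real.sin (ra A y)) ^ 2) B (surf n) :=
        (hd2i ((surf n).restrict B)).sub (hr2i ((surf n).restrict B))
      have i1 := isoC hn A R (fun r => dg r ^ 2 - (g r / Real.sin r) ^ 2) i0 (J η) (hJ η)
      rw [J.norm_map] at i1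
      have i2 : ∫ y in B, qs g dg (A : E (n + 1)) (y : E (n + 1)) (J η) ∂(surf n) =
          (∫ y in B, (dg (ra A y) ^ 2 - (g (ra A y) / Real.sin (ra A y)) ^ 2) *
            tc (A : E (n + 1)) y (J η) ^ 2 ∂(surf n)) +
          ∫ y in B, ‖η‖ ^ 2 * (g (ra A y) / Real.sin (ra A y)) ^ 2 ∂(surf n) := by
        rw [← integral_add]
        · refine integral_congr_ae (Filter.Eventually.of_forall fun y => ?_)
          simp only
          rw [hqe]
          simp only [ht]
          ring
        · refine integrable_of_bdd (f := fun y : Sph n => (dg (ra A y) ^ 2 -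
            (g (ra A y) / Real.sin (ra A y)) ^ 2) * tc (A : E (n + 1)) y (J η) ^ 2) ?_
              (1 * ‖η‖ ^ 2) fun y => ?_
          · exact ((hdgc.measurable.pow_const 2).sub (hrm.pow_const 2)).mul ((htm η).pow_const 2)
          · rw [abs_mul, abs_of_nonneg (sq_nonneg (tc (A : E (n + 1)) y (J η)))]
            have h2 : tc (A : E (n + 1)) y (J η) ^ 2 ≤ ‖η‖ ^ 2 := ht2 η y
            have h3 : |dg (ra A y) ^ 2 - (g (ra A y) / Real.sin (ra A y)) ^ 2| ≤ 1 := by
              have h5 := hdb y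
              have h6 := hrb y
              rw [abs_le]
              constructor <;> nlinarith [sq_nonneg (dg (ra A y)),
                sq_nonneg (g (ra A y) / Real.sin (ra A y))]
            gcongr
        · exact (hr2i ((surf n).restrict B)).const_mul _
      have i3 : ∫ y in B, (dg (ra A y) ^ 2 - (g (ra A y) / Real.sin (ra A y)) ^ 2) ∂(surf n) =
          (∫ y in B, dg (ra A y) ^ 2 ∂(surf n)) -
            ∫ y in B, (g (ra A y) / Real.sin (ra A y)) ^ 2 ∂(surf n) :=
        integral_sub (hd2i ((surf n).restrict B)) (hr2i ((surf n).restrict B))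
      have i4 : ∫ y in B, (dg (ra A y) ^ 2 + (n - 1) * (g (ra A y) / Real.sin (ra A y)) ^ 2)
          ∂(surf n) = (∫ y in B, dg (ra A y) ^ 2 ∂(surf n)) +
            (n - 1) * ∫ y in B, (g (ra A y) / Real.sin (ra A y)) ^ 2 ∂(surf n) := by
        rw [integral_add (hd2i ((surf n).restrict B)) ((hr2i ((surf n).restrict B)).const_mul _),
          integral_const_mul]
      rw [i2, i1, integral_const_mul, i3, i4]
      field_simp
      ring
    have hFb : ∀ r ∈ Ioo 0 R, (g r / Real.sin r) ^ 2 ≤ 1 ∧ dg r ^ 2 ≤ 1 := by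
      intro r hr
      have hr' : r ∈ Icc 0 Real.pi := ⟨hr.1.le, by linarith [hr.2]⟩
      refine ⟨pow_le_one₀ (ratio_nonneg hg hr') (ratio_le_one hg hr'), ?_⟩
      rw [← sq_abs]
      exact pow_le_one₀ (abs_nonneg _) (hg.dg_le _ hr')
    have hsub : Ioo 0 R ⊆ Icc 0 Real.pi := fun r hr => ⟨hr.1.le, by linarith [hr.2]⟩
    have e5 : ∫ y in B, (dg (ra A y) ^ 2 + (n - 1) * (g (ra A y) / Real.sin (ra A y)) ^ 2)
        ∂(surf n) = μ * ∫ y in B, g (ra A y) ^ 2 ∂(surf n) := by
      have j1 := hrad A R hR (by linarith) (fun r => dg r ^ 2 + (n - 1) * (g r / Real.sin r) ^ 2)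
        (by
          have hc1 : ContinuousOn dg (Ioo 0 R) := hg.dg_cont.mono hsub
          have hc2 : ContinuousOn (fun r => g r / Real.sin r) (Ioo 0 R) :=
            (hg.g_cont.mono hsub).div Real.continuous_sin.continuousOn (fun r hr =>
              (Real.sin_pos_of_pos_of_lt_pi hr.1 (by linarith [hr.2])).ne')
          exact (hc1.pow 2).add (continuousOn_const.mul (hc2.pow 2)))
        ⟨1 + (n - 1) * 1, fun r hr => by
          obtain ⟨h1, h2⟩ := hFb r hr
          have h3 : (0 : ℝ) ≤ n - 1 := by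
            have : (1 : ℝ) ≤ n := by exact_mod_cast hn
            linarith
          rw [abs_of_nonneg (by positivity)]
          gcongr⟩
      have j2 := hrad A R hR (by linarith) (fun r => g r ^ 2)
        ((hg.g_cont.mono hsub).pow 2)
        ⟨g R ^ 2, fun r hr => by
          have hr' := hsub hr
          have h1 := g_nonneg hg hr'
          have h2 := hg.g_le _ hr'
          rw [abs_of_nonneg (sq_nonneg _)]
          gcongr⟩
      have j3 := energy hn hg.cap
      rw [j1, j2, j3]
      ring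
    rw [e1, e2, e3 ν, e3 ((surf n).restrict B), e4, e5, hνreal] at h1
    rw [hbf η]
    have e6 : ((surf n).restrict B).real univ = (surf n).real B := by
      simp [measureReal_def]
    rw [e6] at h1
    have e7 : μ * b0 * ‖η‖ ^ 2 = 2 * (‖η‖ ^ 2 / n * (μ * ∫ y in B, g (ra A y) ^ 2 ∂(surf n))) := by
      rw [hb0]
      ring
    rw [e7]
    nlinarith
  · intro η
    have hin : ∀ y : Sph n, (inner ℝ (Gs g (A : E (n + 1)) (y : E (n + 1))) (J η)) ^ 2 =
        g (ra A y) ^ 2 * t η y ^ 2 := by
      intro y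
      simp only [Gs, ht, tc, real_inner_smul_left]
      rw [inner_perp A y _ (hJ η)]
      ring
    simp_rw [hin]
    have hgt : ∀ (ρ : Measure (Sph n)) [IsFiniteMeasure ρ],
        Integrable (fun y => g (ra A y) ^ 2 * t η y ^ 2) ρ := by
      intro ρ _
      refine integrable_of_bdd (f := fun y => g (ra A y) ^ 2 * t η y ^ 2) ?_ (g R ^ 2 * ‖η‖ ^ 2)
        fun y => ?_
      · exact (hgc.measurable.pow_const 2).mul ((htm η).pow_const 2)
      · rw [abs_of_nonneg (by positivity)]
        have h2 := ht2 η y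
        have h3 := hgb y
        gcongr
    have h1 := le_twoS hR2 hν (f := fun y => g R ^ 2 * t η y ^ 2 - g (ra A y) ^ 2 * t η y ^ 2)
      (((ht2i ν η).const_mul _).sub (hgt ν)) (((ht2i (surf n) η).const_mul _).sub (hgt (surf n)))
      (fun y => by rw [hgn, htn])
      (Filter.Eventually.of_forall fun y _ => by
        have h3 := hgb y
        nlinarith [mul_nonneg (sub_nonneg.2 h3) (sq_nonneg (t η y))])
      (fun y hy => by
        have hy1 : R ≤ ra A y := by
          by_contra h
          exact hy (Or.inl (not_le.1 h))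
        have hy2 : ra A y ≤ Real.pi - R := by
          by_contra h
          exact hy (Or.inr (not_le.1 h))
        rw [hg.g_const _ ⟨hy1, hy2⟩, sub_self])
    have e1 : ∫ y, (g R ^ 2 * t η y ^ 2 - g (ra A y) ^ 2 * t η y ^ 2) ∂ν =
        (g R ^ 2 * ∫ y, t η y ^ 2 ∂ν) - ∫ y, g (ra A y) ^ 2 * t η y ^ 2 ∂ν := by
      rw [integral_sub ((ht2i ν η).const_mul _) (hgt ν), integral_const_mul]
    have e2 : ∫ y in B, (g R ^ 2 * t η y ^ 2 - g (ra A y) ^ 2 * t η y ^ 2) ∂(surf n) =
        (g R ^ 2 * ∫ y in B, t η y ^ 2 ∂(surf n)) -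
          ∫ y in B, g (ra A y) ^ 2 * t η y ^ 2 ∂(surf n) := by
      rw [integral_sub ((ht2i ((surf n).restrict B) η).const_mul _) (hgt ((surf n).restrict B)),
        integral_const_mul]
    have e3 : ∫ y in B, g (ra A y) ^ 2 * t η y ^ 2 ∂(surf n) =
        ‖η‖ ^ 2 / n * ∫ y in B, g (ra A y) ^ 2 ∂(surf n) := by
      have i1 := isoC hn A R (fun r => g r ^ 2) (hg2i ((surf n).restrict B)) (J η) (hJ η)
      rw [J.norm_map] at i1
      exact i1
    rw [e1, e2, e3] at h1
    rw [hbf η]
    have e7 : b0 * ‖η‖ ^ 2 = 2 * (‖η‖ ^ 2 / n * ∫ y in B, g (ra A y) ^ 2 ∂(surf n)) := by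
      rw [hb0]
      ring
    rw [e7]
    nlinarith
  · intro η hη
    have hin : ∀ y : Sph n, (inner ℝ (Gs g (A : E (n + 1)) (y : E (n + 1))) (J η)) ^ 2 =
        g (ra A y) ^ 2 * t η y ^ 2 := by
      intro y
      simp only [Gs, ht, tc, real_inner_smul_left]
      rw [inner_perp A y _ (hJ η)]
      ring
    have hgt : Integrable (fun y : Sph n =>
        (inner ℝ (Gs g (A : E (n + 1)) (y : E (n + 1))) (J η)) ^ 2) ν := by
      simp_rw [hin]
      refine integrable_of_bdd (f := fun y => g (ra A y) ^ 2 * t η y ^ 2) ?_ (g R ^ 2 * ‖η‖ ^ 2)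
        fun y => ?_
      · exact (hgc.measurable.pow_const 2).mul ((htm η).pow_const 2)
      · rw [abs_of_nonneg (by positivity)]
        have h2 := ht2 η y
        have h3 := hgb y
        gcongr
    rw [integral_pos_iff_support_of_nonneg (fun y => sq_nonneg _) hgt, pos_iff_ne_zero]
    intro h0
    have hJη : 0 < ‖J η‖ := by
      rw [J.norm_map]
      exact norm_pos_iff.2 hη
    have hnull : ∀ᵐ y : Sph n ∂(surf n), inner ℝ (y : E (n + 1)) (J η) ≠ (0 : ℝ) := by
      have h1 := surf_hyper (n := n) ⟨‖J η‖⁻¹ • J η, by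
        rw [mem_sphere_zero_iff_norm, norm_smul, norm_inv, norm_norm, inv_mul_cancel₀ hJη.ne']⟩
      rw [ae_iff]
      refine measure_mono_null ?_ h1
      intro y hy
      simp only [mem_ofPred_eq, not_not] at hy ⊢
      rw [real_inner_smul_left, real_inner_comm, hy, mul_zero]
    have h2 : ∀ᵐ y ∂ν, y ∈ Function.support (fun y : Sph n =>
        (inner ℝ (Gs g (A : E (n + 1)) (y : E (n + 1))) (J η)) ^ 2) := by
      filter_upwards [hνac.ae_le hnull, hνac.ae_le hae0] with y hy hy0
      simp only [Function.mem_support]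
      rw [hin]
      have h4 := hg.g_pos _ hy0
      have h5 := Real.sin_pos_of_pos_of_lt_pi hy0.1 hy0.2
      have h6 : t η y ≠ 0 := by
        simp only [ht]
        rw [tc_eq]
        exact div_ne_zero hy h5.ne'
      positivity
    have h3 : ν univ = 0 := by
      rw [ae_iff] at h2
      refine measure_mono_null ?_ (measure_union_null h0 h2)
      intro y _
      by_cases hy : y ∈ Function.support (fun y : Sph n =>
        (inner ℝ (Gs g (A : E (n + 1)) (y : E (n + 1))) (J η)) ^ 2)
      · exact Or.inl hy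
      · exact Or.inr hy
    rw [hu] at h3
    simp only [mul_eq_zero] at h3
    rcases h3 with h3 | h3
    · norm_num at h3
    · exact hBpos.ne' h3

end Pool.Agent.NE
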