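import Pool.Agent.NE.Defs

/-!
The Sobolev space `H¹(Ω)` of an open subset `Ω` of the unit sphere `S^n` and the Neumann eigenvalues
of `Ω`, defined by the variational formula.
-/

set_option autoImplicit false

open MeasureTheory Set
open scoped ENNReal ContDiff

namespace Pool.Agent.NE

/-- The unit sphere `S^n` of `ℝ^{n+1}`. -/
abbrev Sph (n : ℕ) := Metric.sphere (0 : E (n + 1)) 1

/-- The surface measure of `S^n`. -/
noncomputable abbrev surf (n : ℕ) : Measure (Sph n) := (volume : Measure (E (n + 1))).toSphere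

/-- For a smooth function `φ` on `ℝ^{n+1}` and a vector `v`, the divergence on `S^n` of the tangential
vector field `φ · (v - ⟨x, v⟩ x)`. -/
noncomputable def sdiv {n : ℕ} (φ : E (n + 1) → ℝ) (v x : E (n + 1)) : ℝ :=
  fderiv ℝ φ x (v - inner ℝ x v • x) - n * (inner ℝ x v * φ x)

/-- `G` is the weak gradient of `u` on the open set `Ω` of `S^n`: it is tangential, and
`∫_Ω u div X = - ∫_Ω ⟨G, X⟩` for all vector fields `X = φ · (v - ⟨x, v⟩ x)`, where `v` is a fixed vector
of `ℝ^{n+1}` and `φ` is a smooth function whose restriction to the sphere has its support in `Ω`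
(here `⟨G, X⟩ = ⟨G, v⟩ φ` because `G` is tangential). -/
def IsWeakGradS {n : ℕ} (Ω : Set (Sph n)) (u : Sph n → ℝ) (G : Sph n → E (n + 1)) : Prop :=
  (∀ᵐ x ∂(surf n).restrict Ω, inner ℝ (G x) (x : E (n + 1)) = 0) ∧
  ∀ φ : E (n + 1) → ℝ, ContDiff ℝ ∞ φ → tsupport (fun x : Sph n => φ x) ⊆ Ω → ∀ v : E (n + 1),
    ∫ x in Ω, u x * sdiv φ v x ∂(surf n) = - ∫ x in Ω, inner ℝ (G x) v * φ x ∂(surf n)

lemma sdiv_cont {n : ℕ} {φ : E (n + 1) → ℝ} (h1 : ContDiff ℝ ∞ φ) (v : E (n + 1)) :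
    Continuous (fun x : Sph n => sdiv φ v x) := by
  have hc : Continuous (fun x : E (n + 1) => sdiv φ v x) := by
    unfold sdiv
    have h2 : Continuous (fun x : E (n + 1) => v - inner ℝ x v • x) := by fun_prop
    have h3 : Continuous (fun x : E (n + 1) => fderiv ℝ φ x (v - inner ℝ x v • x)) :=
      (h1.continuous_fderiv (by simp)).clm_apply h2
    have h4 : Continuous φ := h1.continuous
    fun_prop
  exact hc.comp continuous_subtype_val

lemma integrable_mul_sdiv {n : ℕ} {Ω : Set (Sph n)} {u : Sph n → ℝ}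
    (hu : MemLp u 2 ((surf n).restrict Ω)) {φ : E (n + 1) → ℝ} (h1 : ContDiff ℝ ∞ φ)
    (v : E (n + 1)) : Integrable (fun x => u x * sdiv φ v x) ((surf n).restrict Ω) := by
  have hm : MemLp (fun x : Sph n => sdiv φ v x) 2 ((surf n).restrict Ω) :=
    ((sdiv_cont h1 v).memLp_of_hasCompactSupport
      (HasCompactSupport.of_compactSpace _)).restrict Ω
  exact hu.integrable_mul hm

lemma integrable_inner_mulS {n : ℕ} {Ω : Set (Sph n)} {G : Sph n → E (n + 1)}
    (hG : MemLp G 2 ((surf n).restrict Ω)) {φ : E (n + 1) → ℝ} (h1 : ContDiff ℝ ∞ φ)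
    (v : E (n + 1)) :
    Integrable (fun x : Sph n => inner ℝ (G x) v * φ x) ((surf n).restrict Ω) := by
  have hm : MemLp (fun x : Sph n => φ x) 2 ((surf n).restrict Ω) :=
    ((h1.continuous.comp continuous_subtype_val).memLp_of_hasCompactSupport
      (HasCompactSupport.of_compactSpace _)).restrict Ω
  have hg : MemLp (fun x => inner ℝ (G x) v) 2 ((surf n).restrict Ω) := by
    have := hG.inner_const (𝕜 := ℝ) v
    simpa using this
  exact hg.integrable_mul hm

/-- The Sobolev space `H¹(Ω)` of an open set `Ω ⊆ S^n`, realised as the space of all pairs `(u, ∇u)`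
with `u ∈ L²(Ω)` and `∇u ∈ L²(Ω)` the weak gradient of `u`. -/
noncomputable def H1S {n : ℕ} (Ω : Set (Sph n)) :
    Submodule ℝ (Lp ℝ 2 ((surf n).restrict Ω) × Lp (E (n + 1)) 2 ((surf n).restrict Ω)) where
  carrier := {p | IsWeakGradS Ω p.1 p.2}
  zero_mem' := by
    refine ⟨?_, ?_⟩
    · filter_upwards [Lp.coeFn_zero (E (n + 1)) 2 ((surf n).restrict Ω)] with x hx
      change inner ℝ ((0 : Lp (E (n + 1)) 2 ((surf n).restrict Ω)) x) (x : E (n + 1)) = 0
      rw [hx]; simp
    · intro φ h1 h2 v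
      have e1 : ∫ x in Ω, (0 : Lp ℝ 2 ((surf n).restrict Ω)) x * sdiv φ v x ∂(surf n) = 0 := by
        rw [integral_eq_zero_of_ae]
        filter_upwards [Lp.coeFn_zero ℝ 2 ((surf n).restrict Ω)] with x hx
        rw [hx]; simp
      have e2 : ∫ x in Ω, inner ℝ ((0 : Lp (E (n + 1)) 2 ((surf n).restrict Ω)) x) v * φ x
          ∂(surf n) = 0 := by
        rw [integral_eq_zero_of_ae]
        filter_upwards [Lp.coeFn_zero (E (n + 1)) 2 ((surf n).restrict Ω)] with x hx
        rw [hx]; simp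
      change ∫ x in Ω, (0 : Lp ℝ 2 ((surf n).restrict Ω)) x * sdiv φ v x ∂(surf n) =
        - ∫ x in Ω, inner ℝ ((0 : Lp (E (n + 1)) 2 ((surf n).restrict Ω)) x) v * φ x ∂(surf n)
      rw [e1, e2]; simp
  add_mem' := by
    rintro ⟨u, G⟩ ⟨u', G'⟩ ⟨ht, h⟩ ⟨ht', h'⟩
    refine ⟨?_, ?_⟩
    · filter_upwards [Lp.coeFn_add G G', ht, ht'] with x hx hx1 hx2
      change inner ℝ ((G + G' : Lp (E (n + 1)) 2 ((surf n).restrict Ω)) x) (x : E (n + 1)) = 0
      rw [hx, Pi.add_apply, inner_add_left, hx1, hx2, add_zero]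
    · intro φ h1 h2 v
      have e1 : ∫ x in Ω, (u + u' : Lp ℝ 2 ((surf n).restrict Ω)) x * sdiv φ v x ∂(surf n) =
          ∫ x in Ω, (u x * sdiv φ v x + u' x * sdiv φ v x) ∂(surf n) := by
        apply integral_congr_ae
        filter_upwards [Lp.coeFn_add u u'] with x hx
        rw [hx]; simp [add_mul]
      have e2 : ∫ x in Ω, inner ℝ ((G + G' : Lp (E (n + 1)) 2 ((surf n).restrict Ω)) x) v * φ x
          ∂(surf n) = ∫ x in Ω, (inner ℝ (G x) v * φ x + inner ℝ (G' x) v * φ x) ∂(surf n) := by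
        apply integral_congr_ae
        filter_upwards [Lp.coeFn_add G G'] with x hx
        rw [hx]; simp [add_mul, inner_add_left]
      change ∫ x in Ω, (u + u' : Lp ℝ 2 ((surf n).restrict Ω)) x * sdiv φ v x ∂(surf n) =
        - ∫ x in Ω, inner ℝ ((G + G' : Lp (E (n + 1)) 2 ((surf n).restrict Ω)) x) v * φ x ∂(surf n)
      rw [e1, e2, integral_add (integrable_mul_sdiv (Lp.memLp u) h1 v)
        (integrable_mul_sdiv (Lp.memLp u') h1 v),
        integral_add (integrable_inner_mulS (Lp.memLp G) h1 v)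
        (integrable_inner_mulS (Lp.memLp G') h1 v)]
      have := h φ h1 h2 v
      have h' := h' φ h1 h2 v
      simp only at this h'
      rw [this, h']; ring
  smul_mem' := by
    rintro t ⟨u, G⟩ ⟨ht, h⟩
    refine ⟨?_, ?_⟩
    · filter_upwards [Lp.coeFn_smul t G, ht] with x hx hx1
      change inner ℝ ((t • G : Lp (E (n + 1)) 2 ((surf n).restrict Ω)) x) (x : E (n + 1)) = 0
      rw [hx, Pi.smul_apply, real_inner_smul_left, hx1, mul_zero]
    · intro φ h1 h2 v
      have e1 : ∫ x in Ω, (t • u : Lp ℝ 2 ((surf n).restrict Ω)) x * sdiv φ v x ∂(surf n) =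
          ∫ x in Ω, t * (u x * sdiv φ v x) ∂(surf n) := by
        apply integral_congr_ae
        filter_upwards [Lp.coeFn_smul t u] with x hx
        rw [hx]; simp [mul_assoc]
      have e2 : ∫ x in Ω, inner ℝ ((t • G : Lp (E (n + 1)) 2 ((surf n).restrict Ω)) x) v * φ x
          ∂(surf n) = ∫ x in Ω, t * (inner ℝ (G x) v * φ x) ∂(surf n) := by
        apply integral_congr_ae
        filter_upwards [Lp.coeFn_smul t G] with x hx
        rw [hx]; simp [mul_assoc, inner_smul_left]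
      change ∫ x in Ω, (t • u : Lp ℝ 2 ((surf n).restrict Ω)) x * sdiv φ v x ∂(surf n) =
        - ∫ x in Ω, inner ℝ ((t • G : Lp (E (n + 1)) 2 ((surf n).restrict Ω)) x) v * φ x ∂(surf n)
      rw [e1, e2, integral_const_mul, integral_const_mul]
      have := h φ h1 h2 v
      simp only at this
      rw [this]; ring

/-- The Neumann eigenvalue `μ_k(Ω)`, `k = 0, 1, 2, …`, of `Ω ⊆ S^n`: the infimum, over all linear
subspaces `V` of `H¹(Ω)` of dimension `k + 1`, of the supremum over nonzero `u ∈ V` of the Rayleigh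
quotient `∫_Ω |∇u|² / ∫_Ω u²`. -/
noncomputable def neumannS {n : ℕ} (Ω : Set (Sph n)) (k : ℕ) : ℝ≥0∞ :=
  ⨅ (V : Submodule ℝ (H1S Ω)) (_ : Module.finrank ℝ V = k + 1),
    ⨆ (p : H1S Ω) (_ : p ∈ V) (_ : p ≠ 0), ENNReal.ofReal (‖p.1.2‖ ^ 2 / ‖p.1.1‖ ^ 2)

end Pool.Agent.NE
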