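import Pool.Agent.NE.STools

set_option autoImplicit false

open MeasureTheory Set
open scoped ENNReal NNReal ContDiff Gradient

namespace Pool.Agent.NE

lemma SDiv_dir_of_ne {n : ℕ} {x : E (n + 1)} (hx : x ≠ 0) :
    (dir x : E (n + 1)) = ‖x‖⁻¹ • x := by
  simp [dir, hx]

/-- Product polar coordinates, with no measurability assumptions. -/
lemma SDiv_polar {n : ℕ} (a : Sph n → ℝ) (b : ℝ → ℝ) :
    ∫ x : E (n + 1), a (dir x) * b ‖x‖ =
      (∫ θ : Sph n, a θ ∂(surf n)) * ∫ r in Ioi (0 : ℝ), b r * r ^ n := by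
  have hdim : Module.finrank ℝ (E (n + 1)) = n + 1 := by simp
  have hmp := (volume : Measure (E (n + 1))).measurePreserving_homeomorphUnitSphereProd
  rw [hdim] at hmp
  have hemb := (Homeomorph.measurableEmbedding (homeomorphUnitSphereProd (E (n + 1))))
  have hkey : ∀ x : ({(0 : E (n + 1))}ᶜ : Set (E (n + 1))),
      a (dir x.1) * b ‖x.1‖ = a ((homeomorphUnitSphereProd (E (n + 1)) x).1) *
        b ((homeomorphUnitSphereProd (E (n + 1)) x).2 : ℝ) := by
    intro x
    have hx : (x.1 : E (n + 1)) ≠ 0 := x.2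
    congr 2
    · apply Subtype.ext
      rw [SDiv_dir_of_ne hx]
      simp
    · simp
  calc ∫ x : E (n + 1), a (dir x) * b ‖x‖
      = ∫ x : ({(0 : E (n + 1))}ᶜ : Set (E (n + 1))), a (dir x.1) * b ‖x.1‖
          ∂((volume : Measure (E (n + 1))).comap (↑)) := by
        rw [integral_subtype_comap (measurableSet_singleton _).compl
          (fun x : E (n + 1) => a (dir x) * b ‖x‖), restrict_compl_singleton]
    _ = ∫ x : ({(0 : E (n + 1))}ᶜ : Set (E (n + 1))),
          (fun q : Sph n × Ioi (0 : ℝ) => a q.1 * b (q.2 : ℝ))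
            (homeomorphUnitSphereProd (E (n + 1)) x)
          ∂((volume : Measure (E (n + 1))).comap (↑)) := by
        refine integral_congr_ae (Filter.Eventually.of_forall fun x => ?_)
        exact hkey x
    _ = ∫ q : Sph n × Ioi (0 : ℝ), a q.1 * b (q.2 : ℝ)
          ∂((surf n).prod (Measure.volumeIoiPow (n + 1 - 1))) :=
        hmp.integral_comp hemb (fun q : Sph n × Ioi (0 : ℝ) => a q.1 * b (q.2 : ℝ))
    _ = (∫ θ : Sph n, a θ ∂(surf n)) * ∫ r : Ioi (0 : ℝ), b r
          ∂(Measure.volumeIoiPow (n + 1 - 1)) :=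
        integral_prod_mul a (fun r : Ioi (0 : ℝ) => b r)
    _ = _ := by
        congr 1
        simp only [Measure.volumeIoiPow, ENNReal.ofReal, Nat.add_sub_cancel]
        rw [integral_withDensity_eq_integral_smul,
          integral_subtype_comap measurableSet_Ioi fun a ↦ Real.toNNReal (a ^ n) • b a,
          setIntegral_congr_fun measurableSet_Ioi fun x hx ↦ ?_]
        · rw [NNReal.smul_def, Real.coe_toNNReal _ (pow_nonneg hx.out.le _), smul_eq_mul, mul_comm]
        · exact (measurable_subtype_coe.pow_const _).real_toNNReal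

/-- null sets of the sphere -/
lemma SDiv_null {n : ℕ} {N : Set (E (n + 1))}
    (hN : ∀ᵐ x : E (n + 1), 1 < ‖x‖ → (dir x : E (n + 1)) ∉ N) :
    ∀ᵐ θ : Sph n ∂(surf n), (θ : E (n + 1)) ∉ N := by
  have hdim : Module.finrank ℝ (E (n + 1)) = n + 1 := by simp
  have hmp := (volume : Measure (E (n + 1))).measurePreserving_homeomorphUnitSphereProd
  rw [hdim] at hmp
  have hemb := (Homeomorph.measurableEmbedding (homeomorphUnitSphereProd (E (n + 1))))
  set T : Set (Sph n × Ioi (0 : ℝ)) :=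
    {θ : Sph n | (θ : E (n + 1)) ∈ N} ×ˢ {r : Ioi (0 : ℝ) | (1 : ℝ) < r} with hT
  have h1 : ((surf n).prod (Measure.volumeIoiPow (n + 1 - 1))) T = 0 := by
    rw [← hmp.measure_preimage_emb hemb T, comap_subtype_coe_apply (measurableSet_singleton _).compl]
    refine measure_mono_null ?_ (ae_iff.1 hN)
    rintro _ ⟨x, hx, rfl⟩
    have hx0 : (x.1 : E (n + 1)) ≠ 0 := x.2
    have hx1 : ((homeomorphUnitSphereProd (E (n + 1)) x).1 : E (n + 1)) ∈ N := hx.1
    have hx2 : (1 : ℝ) < (homeomorphUnitSphereProd (E (n + 1)) x).2 := hx.2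
    simp only [homeomorphUnitSphereProd_apply_fst_coe, homeomorphUnitSphereProd_apply_snd_coe]
      at hx1 hx2
    simp only [mem_ofPred_eq, not_forall, not_not]
    refine ⟨hx2, ?_⟩
    rw [SDiv_dir_of_ne hx0]
    exact hx1
  rw [hT, Measure.prod_prod, mul_eq_zero] at h1
  rcases h1 with h1 | h1
  · rw [ae_iff]
    simpa using h1
  · exfalso
    have h2 : (Measure.volumeIoiPow (n + 1 - 1)) (Iio (⟨3, by norm_num⟩ : Ioi (0 : ℝ))) ≤
        (Measure.volumeIoiPow (n + 1 - 1)) (Iio (⟨2, by norm_num⟩ : Ioi (0 : ℝ))) := by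
      calc _ ≤ (Measure.volumeIoiPow (n + 1 - 1)) (Iio (⟨2, by norm_num⟩ : Ioi (0 : ℝ)) ∪
              {r : Ioi (0 : ℝ) | (1 : ℝ) < r}) := by
            refine measure_mono fun r _ => ?_
            rcases lt_or_ge r (⟨2, by norm_num⟩ : Ioi (0 : ℝ)) with h | h
            · exact Or.inl h
            · right
              have : (2 : ℝ) ≤ r := h
              have h3 : (1 : ℝ) < r := by linarith
              exact h3
        _ ≤ _ := (measure_union_le _ _).trans (by rw [h1, add_zero])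
    rw [Measure.volumeIoiPow_apply_Iio, Measure.volumeIoiPow_apply_Iio,
      ENNReal.ofReal_le_ofReal_iff (by positivity)] at h2
    have h3 : (2 : ℝ) ^ (n + 1 - 1 + 1) < 3 ^ (n + 1 - 1 + 1) :=
      pow_lt_pow_left₀ (by norm_num) (by norm_num) (by simp)
    have h4 : (0 : ℝ) < ((n + 1 - 1 : ℕ) : ℝ) + 1 := by positivity
    rw [div_le_div_iff_of_pos_right h4] at h2
    exact absurd h2 (not_le.2 h3)

section hom

variable {n : ℕ} {ψ : E (n + 1) → ℝ} (hom : ∀ t : ℝ, 0 < t → ∀ x, ψ (t • x) = ψ x)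
  {C : ℝ≥0} (hl : LipschitzOnWith C ψ (Metric.sphere 0 1))

include hom in
lemma SDiv_dir (x : E (n + 1)) (hx : x ≠ 0) : ψ x = ψ (dir x : E (n + 1)) := by
  rw [SDiv_dir_of_ne hx, hom _ (inv_pos.2 (norm_pos_iff.2 hx))]

include hom in
lemma SDiv_fderiv {t : ℝ} (ht : 0 < t) (x : E (n + 1)) :
    t • fderiv ℝ ψ (t • x) = fderiv ℝ ψ x := by
  rw [← fderiv_comp_smul]
  congr 1
  funext y
  exact hom t ht y

include hom in
lemma SDiv_diff {t : ℝ} (ht : 0 < t) (x : E (n + 1)) (h : DifferentiableAt ℝ ψ (t • x)) :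
    DifferentiableAt ℝ ψ x := by
  have h1 : DifferentiableAt ℝ (fun y : E (n + 1) => ψ (t • y)) x :=
    DifferentiableAt.comp x h (by fun_prop)
  have h2 : (fun y : E (n + 1) => ψ (t • y)) = ψ := by
    funext y; exact hom t ht y
  rwa [h2] at h1

lemma SDiv_dirlip {x y : E (n + 1)} (hx : x ≠ 0) (hy : y ≠ 0) :
    ‖(dir x : E (n + 1)) - (dir y : E (n + 1))‖ ≤ 2 / ‖x‖ * ‖x - y‖ := by
  have hx' : 0 < ‖x‖ := norm_pos_iff.2 hx
  have hy' : 0 < ‖y‖ := norm_pos_iff.2 hy
  rw [SDiv_dir_of_ne hx, SDiv_dir_of_ne hy]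
  have h1 : ‖x‖⁻¹ • x - ‖y‖⁻¹ • y = ‖x‖⁻¹ • (x - y) + (‖x‖⁻¹ - ‖y‖⁻¹) • y := by
    rw [smul_sub, sub_smul]; abel
  rw [h1]
  have h2 : ‖(‖x‖⁻¹ - ‖y‖⁻¹) • y‖ ≤ ‖x‖⁻¹ * ‖x - y‖ := by
    rw [norm_smul]
    have h3 : ‖x‖⁻¹ - ‖y‖⁻¹ = (‖y‖ - ‖x‖) * ‖x‖⁻¹ * ‖y‖⁻¹ := by
      field_simp
    rw [h3, norm_mul, norm_mul, norm_inv, norm_norm, norm_inv, norm_norm, mul_assoc, mul_assoc,
      inv_mul_cancel₀ hy'.ne', mul_one, mul_comm]
    have h4 : ‖(‖y‖ - ‖x‖)‖ ≤ ‖x - y‖ := by
      rw [norm_sub_rev x y]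
      exact abs_norm_sub_norm_le y x
    exact mul_le_mul_of_nonneg_left h4 (inv_nonneg.2 hx'.le)
  calc _ ≤ ‖‖x‖⁻¹ • (x - y)‖ + ‖(‖x‖⁻¹ - ‖y‖⁻¹) • y‖ := norm_add_le _ _
    _ ≤ ‖x‖⁻¹ * ‖x - y‖ + ‖x‖⁻¹ * ‖x - y‖ := by
        refine add_le_add ?_ h2
        rw [norm_smul, norm_inv, norm_norm]
    _ = _ := by field_simp; ring

include hom hl in
lemma SDiv_lip {x y : E (n + 1)} (hx : x ≠ 0) (hy : y ≠ 0) :
    ‖ψ x - ψ y‖ ≤ C * (2 / ‖x‖ * ‖x - y‖) := by
  rw [SDiv_dir hom x hx, SDiv_dir hom y hy]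
  refine (hl.norm_sub_le (dir x).2 (dir y).2).trans ?_
  exact mul_le_mul_of_nonneg_left (SDiv_dirlip hx hy) C.2

include hom hl in
lemma SDiv_bound (x : Sph n) : ‖fderiv ℝ ψ (x : E (n + 1))‖ ≤ 2 * C := by
  have hx1 : ‖(x : E (n + 1))‖ = 1 := by simp
  have hx : (x : E (n + 1)) ≠ 0 := by
    intro h; rw [h] at hx1; simp at hx1
  refine norm_fderiv_le_of_lip' ℝ (by positivity) ?_
  filter_upwards [isOpen_ne.mem_nhds hx] with y hy
  have := SDiv_lip hom hl hx hy
  rw [hx1, norm_sub_rev, norm_sub_rev (x : E (n + 1)) y] at this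
  linarith

end hom


/-- the cutoff -/
noncomputable def SDiv_bump : ContDiffBump (2 : ℝ) := ⟨1 / 2, 1, by norm_num, by norm_num⟩

/-- the cutoff as a function -/
noncomputable irreducible_def SDiv_chi : ℝ → ℝ := fun s => SDiv_bump s

lemma SDiv_chi_smooth : ContDiff ℝ ∞ SDiv_chi := by
  have h : SDiv_chi = fun s => SDiv_bump s := by
    funext s; rw [SDiv_chi_def]
  rw [h]
  exact SDiv_bump.contDiff

lemma SDiv_chi_nonneg (s : ℝ) : 0 ≤ SDiv_chi s := by
  rw [SDiv_chi_def]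
  exact SDiv_bump.nonneg

lemma SDiv_chi_one {s : ℝ} (hs : |s - 2| ≤ 1 / 2) : SDiv_chi s = 1 := by
  rw [SDiv_chi_def]
  apply SDiv_bump.one_of_mem_closedBall
  rw [Metric.mem_closedBall, Real.dist_eq]
  exact hs

lemma SDiv_chi_zero {s : ℝ} (hs : 1 ≤ |s - 2|) : SDiv_chi s = 0 := by
  rw [SDiv_chi_def]
  apply SDiv_bump.zero_of_le_dist
  rw [Real.dist_eq]
  exact hs

lemma SDiv_chi_deriv_zero {s : ℝ} (hs : 1 < |s - 2|) : deriv SDiv_chi s = 0 := by
  have h : SDiv_chi =ᶠ[nhds s] fun _ => 0 := by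
    have ho : IsOpen {t : ℝ | 1 < |t - 2|} := isOpen_lt continuous_const (by fun_prop)
    filter_upwards [ho.mem_nhds hs] with t ht
    exact SDiv_chi_zero (le_of_lt ht)
  rw [h.deriv_eq, deriv_const]

/-- radial integration by parts -/
lemma SDiv_radial (n : ℕ) :
    ∫ r in Ioi (0 : ℝ), (2 * r * deriv SDiv_chi (r ^ 2)) * r ^ n =
      -n * ∫ r in Ioi (0 : ℝ), (r⁻¹ * SDiv_chi (r ^ 2)) * r ^ n := by
  have hχ : ContDiff ℝ ∞ SDiv_chi := SDiv_chi_smooth
  set F : ℝ → ℝ := fun r => SDiv_chi (r ^ 2) * r ^ n with hF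
  have hFc : ContDiff ℝ ∞ F := by
    rw [hF]
    exact (hχ.comp (by fun_prop)).mul (by fun_prop)
  have hsupp : ∀ r : ℝ, 2 < |r| → 1 < |r ^ 2 - 2| := by
    intro r hr
    have : 4 < r ^ 2 := by
      rw [← sq_abs]; nlinarith
    rw [abs_of_pos (by linarith)]
    linarith
  have hcs : HasCompactSupport F := by
    refine HasCompactSupport.intro (isCompact_Icc (a := -2) (b := 2)) fun r hr => ?_
    have : 2 < |r| := by
      by_contra h
      push Not at h
      exact hr (abs_le.1 h)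
    simp [hF, SDiv_chi_zero (le_of_lt (hsupp r this))]
  have h0 : F 0 = 0 := by
    simp only [hF]
    rw [SDiv_chi_zero (by norm_num), zero_mul]
  have key := HasCompactSupport.integral_Ioi_deriv_eq (hFc.of_le (by simp)) hcs 0
  rw [h0, neg_zero] at key
  have hd : ∀ r : ℝ, deriv F r = (2 * r * deriv SDiv_chi (r ^ 2)) * r ^ n +
      SDiv_chi (r ^ 2) * (n * r ^ (n - 1)) := by
    intro r
    have h1 : HasDerivAt (fun r : ℝ => SDiv_chi (r ^ 2)) (deriv SDiv_chi (r ^ 2) * (2 * r)) r := by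
      have h2 : HasDerivAt SDiv_chi (deriv SDiv_chi (r ^ 2)) (r ^ 2) :=
        ((hχ.differentiable (by simp)) _).hasDerivAt
      have h3 : HasDerivAt (fun r : ℝ => r ^ 2) (2 * r) r := by
        simpa using hasDerivAt_pow 2 r
      exact HasDerivAt.comp (h := fun r : ℝ => r ^ 2) (h₂ := SDiv_chi) r h2 h3
    have := (h1.mul (hasDerivAt_pow n r)).deriv
    rw [hF]
    rw [show (fun r : ℝ => SDiv_chi (r ^ 2) * r ^ n) =
      (fun r : ℝ => SDiv_chi (r ^ 2)) * (fun r : ℝ => r ^ n) from rfl, this]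
    ring
  have hχd : Continuous (deriv SDiv_chi) := hχ.continuous_deriv (by simp)
  have i1 : IntegrableOn (fun r : ℝ => (2 * r * deriv SDiv_chi (r ^ 2)) * r ^ n) (Ioi 0) := by
    apply Integrable.integrableOn
    apply Continuous.integrable_of_hasCompactSupport
    · exact ((by fun_prop : Continuous fun r : ℝ => 2 * r).mul (hχd.comp (by fun_prop))).mul
        (by fun_prop)
    · refine HasCompactSupport.intro (isCompact_Icc (a := -2) (b := 2)) fun r hr => ?_
      have : 2 < |r| := by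
        by_contra h
        push Not at h
        exact hr (abs_le.1 h)
      rw [SDiv_chi_deriv_zero (hsupp r this)]
      ring
  have i2 : IntegrableOn (fun r : ℝ => SDiv_chi (r ^ 2) * (n * r ^ (n - 1))) (Ioi 0) := by
    apply Integrable.integrableOn
    apply Continuous.integrable_of_hasCompactSupport
    · exact (hχ.continuous.comp (by fun_prop)).mul (by fun_prop)
    · refine HasCompactSupport.intro (isCompact_Icc (a := -2) (b := 2)) fun r hr => ?_
      have : 2 < |r| := by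
        by_contra h
        push Not at h
        exact hr (abs_le.1 h)
      rw [SDiv_chi_zero (le_of_lt (hsupp r this))]
      ring
  simp only [hd] at key
  rw [integral_add i1 i2] at key
  have h3 : ∫ r in Ioi (0 : ℝ), SDiv_chi (r ^ 2) * (n * r ^ (n - 1)) =
      n * ∫ r in Ioi (0 : ℝ), (r⁻¹ * SDiv_chi (r ^ 2)) * r ^ n := by
    rw [← integral_const_mul]
    refine setIntegral_congr_fun measurableSet_Ioi fun r hr => ?_
    have hr' : (r : ℝ) ≠ 0 := ne_of_gt hr
    rcases Nat.eq_zero_or_pos n with h | h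
    · subst h; simp
    · obtain ⟨m, rfl⟩ : ∃ m, n = m + 1 := ⟨n - 1, by omega⟩
      simp only [Nat.add_sub_cancel]
      field_simp
      ring
  rw [h3] at key
  linarith

lemma SDiv_radial_pos (n : ℕ) :
    0 < ∫ r in Ioi (0 : ℝ), (r⁻¹ * SDiv_chi (r ^ 2)) * r ^ n := by
  have hint : IntegrableOn (fun r : ℝ => (r⁻¹ * SDiv_chi (r ^ 2)) * r ^ n) (Ioi 0) := by
    have h1 : IntegrableOn (fun r : ℝ => (r⁻¹ * SDiv_chi (r ^ 2)) * r ^ n) (Icc (1 / 2) 2) := by
      apply ContinuousOn.integrableOn_compact isCompact_Icc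
      apply ContinuousOn.mul
      · apply ContinuousOn.mul
        · apply ContinuousOn.inv₀ continuousOn_id
          intro x hx
          have := hx.1
          simp only [id]
          intro h
          rw [h] at this
          norm_num at this
        · exact (SDiv_chi_smooth.continuous.comp (by fun_prop)).continuousOn
      · fun_prop
    refine h1.of_forall_sdiff_eq_zero measurableSet_Ioi fun r hr => ?_
    have hr0 : (0 : ℝ) < r := hr.1
    have : r < 1 / 2 ∨ 2 < r := by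
      by_contra h
      push Not at h
      exact hr.2 ⟨h.1, h.2⟩
    have h3 : 1 ≤ |r ^ 2 - 2| := by
      rcases this with h | h
      · rw [abs_of_neg (by nlinarith)]; nlinarith
      · rw [abs_of_pos (by nlinarith)]; nlinarith
    rw [SDiv_chi_zero h3]
    ring
  rw [setIntegral_pos_iff_support_of_nonneg_ae _ hint]
  · have hsub : Ioo (1.3 : ℝ) 1.5 ⊆
        Function.support (fun r : ℝ => (r⁻¹ * SDiv_chi (r ^ 2)) * r ^ n) ∩ Ioi 0 := by
      intro r hr
      have h0 : (0 : ℝ) < r := by have := hr.1; linarith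
      refine ⟨?_, h0⟩
      have h1 : SDiv_chi (r ^ 2) = 1 := by
        apply SDiv_chi_one
        rw [abs_le]
        constructor <;> nlinarith [hr.1, hr.2]
      rw [Function.mem_support, h1]
      positivity
    refine lt_of_lt_of_le ?_ (measure_mono hsub)
    rw [Real.volume_Ioo]
    norm_num
  · filter_upwards [ae_restrict_mem measurableSet_Ioi] with r hr
    have h0 : (0 : ℝ) < r := hr
    have := SDiv_chi_nonneg (r ^ 2)
    simp only [Pi.zero_apply]
    positivity

/-- Divergence theorem on the sphere for Lipschitz functions that are homogeneous of degree zero. -/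
theorem sphere_div {n : ℕ} (ψ : E (n + 1) → ℝ) (hom : ∀ t : ℝ, 0 < t → ∀ x, ψ (t • x) = ψ x)
    {C : ℝ≥0} (hl : LipschitzOnWith C ψ (Metric.sphere 0 1)) :
    (∀ᵐ x : Sph n ∂(surf n), DifferentiableAt ℝ ψ (x : E (n + 1))) ∧
    (∀ x : Sph n, ‖fderiv ℝ ψ (x : E (n + 1))‖ ≤ 2 * C) ∧
    ∀ v, ∫ x : Sph n, fderiv ℝ ψ (x : E (n + 1)) v ∂(surf n) =
      n * ∫ x : Sph n, ψ x * inner ℝ (x : E (n + 1)) v ∂(surf n) := by
  -- a global Lipschitz function equal to `ψ` on `|x| ≥ 1/2`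
  have hlip : LipschitzOnWith (4 * C) ψ {x | 1 / 2 ≤ ‖x‖} := by
    refine LipschitzOnWith.of_dist_le_mul fun x hx y hy => ?_
    have hx1 : (1 : ℝ) / 2 ≤ ‖x‖ := hx
    have hy1 : (1 : ℝ) / 2 ≤ ‖y‖ := hy
    have hx0 : 0 < ‖x‖ := by linarith
    have hy0 : 0 < ‖y‖ := by linarith
    rw [dist_eq_norm, dist_eq_norm]
    refine (SDiv_lip hom hl (norm_pos_iff.1 hx0) (norm_pos_iff.1 hy0)).trans ?_
    have h1 : 2 / ‖x‖ ≤ 4 := by
      rw [div_le_iff₀ hx0]; linarith
    have h2 : 2 / ‖x‖ * ‖x - y‖ ≤ 4 * ‖x - y‖ :=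
      mul_le_mul_of_nonneg_right h1 (norm_nonneg _)
    calc (C : ℝ) * (2 / ‖x‖ * ‖x - y‖) ≤ C * (4 * ‖x - y‖) := mul_le_mul_of_nonneg_left h2 C.2
      _ = _ := by push_cast; ring
  obtain ⟨f, hf, hfe⟩ := hlip.extend_real
  have hnear : ∀ x : E (n + 1), 1 / 2 < ‖x‖ → ψ =ᶠ[nhds x] f := by
    intro x hx
    have ho : IsOpen {y : E (n + 1) | 1 / 2 < ‖y‖} := isOpen_lt continuous_const continuous_norm
    filter_upwards [ho.mem_nhds hx] with y hy
    exact hfe (le_of_lt hy)
  have hdiff : ∀ᵐ x : E (n + 1), 1 / 2 < ‖x‖ → DifferentiableAt ℝ ψ x := by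
    filter_upwards [hf.ae_differentiableAt (μ := volume)] with x hx h
    exact hx.congr_of_eventuallyEq (hnear x h)
  refine ⟨?_, SDiv_bound hom hl, ?_⟩
  · have h1 : ∀ᵐ x : E (n + 1), 1 < ‖x‖ → (dir x : E (n + 1)) ∉ {y | ¬ DifferentiableAt ℝ ψ y} := by
      filter_upwards [hdiff] with x hx h
      have hx0 : 0 < ‖x‖ := by linarith
      simp only [not_not]
      rw [SDiv_dir_of_ne (norm_pos_iff.1 hx0)]
      refine SDiv_diff hom hx0 _ ?_
      rw [smul_smul, mul_inv_cancel₀ hx0.ne', one_smul]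
      exact hx (by linarith)
    filter_upwards [SDiv_null h1] with θ hθ
    simpa using hθ
  · intro v
    set g : E (n + 1) → ℝ := fun x => SDiv_chi (‖x‖ ^ 2) with hg
    have hχ : ContDiff ℝ ∞ SDiv_chi := SDiv_chi_smooth
    have hgc : ContDiff ℝ ∞ g := hχ.comp (contDiff_norm_sq ℝ)
    have hgs : HasCompactSupport g := by
      refine HasCompactSupport.intro (isCompact_closedBall (0 : E (n + 1)) 2) fun x hx => ?_
      have : 2 < ‖x‖ := by
        rw [mem_closedBall_zero_iff, not_le] at hx; exact hx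
      refine SDiv_chi_zero ?_
      rw [abs_of_pos (by nlinarith)]
      nlinarith
    obtain ⟨D, hD⟩ := hgc.lipschitzWith_of_hasCompactSupport hgs (by simp)
    have key := hf.integral_lineDeriv_mul_eq hD hgs v (μ := volume)
    have hL : ∫ x, lineDeriv ℝ f x v * g x =
        ∫ x : E (n + 1), (fun θ : Sph n => fderiv ℝ ψ (θ : E (n + 1)) v) (dir x) *
          (fun r : ℝ => r⁻¹ * SDiv_chi (r ^ 2)) ‖x‖ := by
      refine integral_congr_ae ?_
      filter_upwards [hdiff] with x hx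
      by_cases h : 1 ≤ |‖x‖ ^ 2 - 2|
      · simp [hg, SDiv_chi_zero h]
      · push Not at h
        have h1 : 1 < ‖x‖ ^ 2 := by
          have := (abs_lt.1 h).1; linarith
        have h2 : 1 < ‖x‖ := by
          by_contra hcon
          push Not at hcon
          nlinarith [norm_nonneg x]
        have h3 : 0 < ‖x‖ := by linarith
        have h4 : 1 / 2 < ‖x‖ := by linarith
        have h5 : lineDeriv ℝ f x v = fderiv ℝ ψ x v := by
          rw [← (hx h4).lineDeriv_eq_fderiv]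
          exact ((hnear x h4).lineDeriv_eq).symm
        have h6 := SDiv_fderiv hom (inv_pos.2 h3) x
        rw [h5, ← h6]
        simp only [hg]
        rw [SDiv_dir_of_ne (norm_pos_iff.1 h3)]
        simp only [FunLike.coe_smul, Pi.smul_apply, smul_eq_mul]
        ring
    have hR : ∫ x, lineDeriv ℝ g x (-v) * f x =
        ∫ x : E (n + 1), (fun θ : Sph n => -(ψ θ * inner ℝ (θ : E (n + 1)) v)) (dir x) *
          (fun r : ℝ => 2 * r * deriv SDiv_chi (r ^ 2)) ‖x‖ := by
      refine integral_congr_ae (Filter.Eventually.of_forall fun x => ?_)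
      have h1 : HasFDerivAt g (deriv SDiv_chi (‖x‖ ^ 2) • (2 • (innerSL ℝ x))) x := by
        have h2 : HasDerivAt SDiv_chi (deriv SDiv_chi (‖x‖ ^ 2)) (‖x‖ ^ 2) :=
          ((hχ.differentiable (by simp)) _).hasDerivAt
        have h3 := (hasStrictFDerivAt_norm_sq x).hasFDerivAt
        exact h2.comp_hasFDerivAt x h3
      have h4 : lineDeriv ℝ g x (-v) = -(deriv SDiv_chi (‖x‖ ^ 2) * (2 * inner ℝ x v)) := by
        rw [h1.differentiableAt.lineDeriv_eq_fderiv, h1.fderiv]
        simp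
      simp only [h4]
      by_cases h : 1 < |‖x‖ ^ 2 - 2|
      · simp [SDiv_chi_deriv_zero h]
      · push Not at h
        have h1 : 1 ≤ ‖x‖ ^ 2 := by
          have := (abs_le.1 h).1; linarith
        have h2 : 1 ≤ ‖x‖ := by
          by_contra hcon
          push Not at hcon
          nlinarith [norm_nonneg x]
        have h3 : 0 < ‖x‖ := by linarith
        have h5 : f x = ψ (dir x : E (n + 1)) := by
          rw [← hfe (show x ∈ {x | 1 / 2 ≤ ‖x‖} from by
            simp only [mem_ofPred_eq]; linarith), SDiv_dir hom x (norm_pos_iff.1 h3)]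
        rw [h5]
        have h6 : inner ℝ x v = ‖x‖ * inner ℝ (dir x : E (n + 1)) v := by
          rw [SDiv_dir_of_ne (norm_pos_iff.1 h3), real_inner_smul_left]
          field_simp
        rw [h6]
        ring
    rw [hL, hR, SDiv_polar (fun θ : Sph n => fderiv ℝ ψ (θ : E (n + 1)) v)
      (fun r : ℝ => r⁻¹ * SDiv_chi (r ^ 2)),
      SDiv_polar (fun θ : Sph n => -(ψ θ * inner ℝ (θ : E (n + 1)) v))
        (fun r : ℝ => 2 * r * deriv SDiv_chi (r ^ 2)), SDiv_radial, integral_neg] at key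
    have hpos := SDiv_radial_pos n
    have h7 : (∫ x : Sph n, fderiv ℝ ψ (x : E (n + 1)) v ∂(surf n) -
      n * ∫ x : Sph n, ψ x * inner ℝ (x : E (n + 1)) v ∂(surf n)) *
        (∫ r in Ioi (0 : ℝ), (r⁻¹ * SDiv_chi (r ^ 2)) * r ^ n) = 0 := by
      linear_combination key
    rcases mul_eq_zero.1 h7 with h | h
    · linarith
    · exact absurd h hpos.ne'

end Pool.Agent.NE
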