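import Pool.Agent.NE.STools

set_option autoImplicit false

open MeasureTheory Set
open scoped ENNReal

namespace Pool.Agent.NE

variable {n : ℕ} {R μ : ℝ} {g dg : ℝ → ℝ}

/-- the projection along `A` -/
noncomputable def SFieldD_P {n : ℕ} (A : E (n + 1)) : E (n + 1) →L[ℝ] E (n + 1) :=
  ContinuousLinearMap.id ℝ (E (n + 1)) - (innerSL ℝ A).smulRight A

lemma SFieldD_P_apply (A x : E (n + 1)) : SFieldD_P A x = x - inner ℝ A x • A := by
  simp [SFieldD_P]

lemma SFieldD_norm {y : E (n + 1)} (hy : ‖y‖ = 1) :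
    HasFDerivAt (fun x : E (n + 1) => ‖x‖) (innerSL ℝ y) y := by
  have h1 := (hasFDerivAt_id (𝕜 := ℝ) y).norm_sq
  have h2 := h1.sqrt (by simp [hy])
  have h3 : (fun x : E (n + 1) => ‖x‖) = fun x => √(‖id x‖ ^ 2) := by
    funext x; simp
  rw [h3]
  refine h2.congr_fderiv ?_
  ext v
  simp [hy]

lemma SFieldD_normP {A y : E (n + 1)} (hs : ‖SFieldD_P A y‖ ≠ 0) :
    HasFDerivAt (fun x : E (n + 1) => ‖SFieldD_P A x‖)
      ((1 / ‖SFieldD_P A y‖) • (innerSL ℝ (SFieldD_P A y)).comp (SFieldD_P A)) y := by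
  have h1 := ((SFieldD_P A).hasFDerivAt (x := y)).norm_sq
  have h2 := h1.sqrt (by positivity)
  have h3 : (fun x : E (n + 1) => ‖SFieldD_P A x‖) = fun x => √(‖SFieldD_P A x‖ ^ 2) := by
    funext x; rw [Real.sqrt_sq (norm_nonneg _)]
  rw [h3]
  refine h2.congr_fderiv ?_
  ext v
  rw [Real.sqrt_sq (norm_nonneg _)]
  simp
  field_simp

lemma SFieldD_cos {A y : E (n + 1)} (hA : ‖A‖ = 1) (hy : ‖y‖ = 1) :
    HasFDerivAt (fun x : E (n + 1) => inner ℝ A x / (‖A‖ * ‖x‖))
      (innerSL ℝ A - inner ℝ A y • innerSL ℝ y) y := by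
  have h1 : HasFDerivAt (fun x : E (n + 1) => inner ℝ A x) (innerSL ℝ A) y :=
    (innerSL ℝ A).hasFDerivAt
  have h2 := (hasDerivAt_inv (x := ‖y‖) (by rw [hy]; exact one_ne_zero)).comp_hasFDerivAt y
    (SFieldD_norm hy)
  have h3 := h1.mul h2
  have h4 : (fun x : E (n + 1) => inner ℝ A x / (‖A‖ * ‖x‖)) =
      fun x => inner ℝ A x * ((fun t : ℝ => t⁻¹) ∘ fun x => ‖x‖) x := by
    funext x; simp [hA, div_eq_mul_inv]
  rw [h4]
  refine h3.congr_fderiv ?_
  ext v
  simp [hy]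
  ring

/-- Derivative of the field away from the poles. -/
theorem Gs_deriv (hg : IsSProfile n R μ g dg) {A y : E (n + 1)} (hA : ‖A‖ = 1) (hy : ‖y‖ = 1)
    (h1 : y ≠ A) (h2 : y ≠ -A) :
    ∃ L : E (n + 1) →L[ℝ] E (n + 1), HasFDerivAt (Gs g A) L y ∧
      ∀ ξ, inner ℝ A ξ = 0 → ‖(ContinuousLinearMap.adjoint L) ξ‖ ^ 2 = qs g dg A y ξ := by
  set c : ℝ := inner ℝ A y with hc
  have hAA : inner ℝ A A = (1 : ℝ) := by rw [real_inner_self_eq_norm_sq, hA]; norm_num
  have hyy : inner ℝ y y = (1 : ℝ) := by rw [real_inner_self_eq_norm_sq, hy]; norm_num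
  have hyA : inner ℝ y A = c := by rw [real_inner_comm]
  have hc1 : c ≠ 1 := by
    intro h
    exact h1 ((inner_eq_one_iff_of_norm_eq_one (𝕜 := ℝ) hA hy).1 h).symm
  have hc2 : c ≠ -1 := by
    intro h
    have h3 : inner ℝ (-A) y = (1 : ℝ) := by rw [inner_neg_left, ← hc, h]; norm_num
    exact h2 ((inner_eq_one_iff_of_norm_eq_one (𝕜 := ℝ) (by rw [norm_neg, hA]) hy).1 h3).symm
  have habs : |c| ≤ 1 := by
    have := abs_real_inner_le_norm A y
    rwa [hA, hy, one_mul] at this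
  have hlt : c ^ 2 < 1 := by
    rw [abs_le] at habs
    have h3 : -1 < c := lt_of_le_of_ne habs.1 (Ne.symm hc2)
    have h4 : c < 1 := lt_of_le_of_ne habs.2 hc1
    nlinarith
  set s : ℝ := ‖SFieldD_P A y‖ with hs
  have hs2 : s ^ 2 = 1 - c ^ 2 := by
    rw [hs, ← real_inner_self_eq_norm_sq, SFieldD_P_apply]
    simp only [inner_sub_left, inner_sub_right, real_inner_smul_left, real_inner_smul_right, hAA,
      hyy, hyA, ← hc]
    ring
  have hs0 : 0 < s := by
    rcases (norm_nonneg (SFieldD_P A y)).lt_or_eq with h | h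
    · exact h
    · exfalso
      rw [← hs] at h
      rw [← h] at hs2
      nlinarith
  have hsne : s ≠ 0 := hs0.ne'
  have hsqrt : √(1 - c ^ 2) = s := by rw [← hs2, Real.sqrt_sq hs0.le]
  set r : ℝ := InnerProductGeometry.angle A y with hr
  have hr1 : r = Real.arccos c := by
    rw [hr, InnerProductGeometry.angle, hA, hy, mul_one, div_one]
  have hsin : Real.sin r = s := by rw [hr1, Real.sin_arccos, hsqrt]
  have hrI : r ∈ Ioo 0 Real.pi := by
    rw [hr1]
    refine ⟨Real.arccos_pos.2 ?_, ?_⟩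
    · rw [abs_le] at habs; exact lt_of_le_of_ne habs.2 hc1
    · rw [← Real.arccos_neg_one]
      apply Real.arccos_lt_arccos (le_refl _) _ _
      · rw [abs_le] at habs; exact lt_of_le_of_ne habs.1 (Ne.symm hc2)
      · rw [abs_le] at habs; exact habs.2
  -- derivative of the angle
  have hcosd := SFieldD_cos hA hy
  have hval : (fun x : E (n + 1) => inner ℝ A x / (‖A‖ * ‖x‖)) y = c := by
    simp only [hA, hy, mul_one, div_one]; exact hc.symm
  have hang : HasFDerivAt (fun x => InnerProductGeometry.angle A x)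
      ((-(1 / s)) • (innerSL ℝ A - c • innerSL ℝ y)) y := by
    have h3 : HasDerivAt Real.arccos (-(1 / s))
        ((fun x : E (n + 1) => inner ℝ A x / (‖A‖ * ‖x‖)) y) := by
      rw [hval, ← hsqrt]
      exact Real.hasDerivAt_arccos hc2 hc1
    exact h3.comp_hasFDerivAt y hcosd
  have hgd : HasFDerivAt (fun x => g (InnerProductGeometry.angle A x))
      (dg r • ((-(1 / s)) • (innerSL ℝ A - c • innerSL ℝ y))) y :=
    (hg.g_deriv r hrI).comp_hasFDerivAt y hang
  have hinv := (hasDerivAt_inv (x := s) hsne).comp_hasFDerivAt y (SFieldD_normP (A := A) hsne)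
  have hk := hgd.mul hinv
  have hGs := hk.smul ((SFieldD_P A).hasFDerivAt (x := y))
  have hfun : Gs g A = (fun x => g (InnerProductGeometry.angle A x) *
      ((fun t : ℝ => t⁻¹) ∘ fun x => ‖SFieldD_P A x‖) x) • fun x => SFieldD_P A x := by
    funext x
    simp only [Gs, Pi.smul_apply', SFieldD_P_apply, Function.comp, div_eq_mul_inv]
  refine ⟨_, by rw [hfun]; exact hGs, ?_⟩
  intro ξ hξ
  have hξA : inner ℝ ξ A = (0 : ℝ) := by rw [real_inner_comm]; exact hξ
  set q : ℝ := inner ℝ y ξ with hq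
  have hξy : inner ℝ ξ y = q := by rw [real_inner_comm]
  set W : E (n + 1) := (g r / s) • ξ + (-q * dg r / s ^ 2 + q * g r * c / s ^ 3) • A +
    (q * dg r * c / s ^ 2 - q * g r / s ^ 3) • y with hW
  have hadj : ∀ v, inner ℝ ((ContinuousLinearMap.adjoint
      ((fun x => g (InnerProductGeometry.angle A x) *
      ((fun t : ℝ => t⁻¹) ∘ fun x => ‖SFieldD_P A x‖) x) y • SFieldD_P A +
      (g (InnerProductGeometry.angle A y) • ((-(s ^ 2)⁻¹) • (1 / s) •
        (innerSL ℝ (SFieldD_P A y)).comp (SFieldD_P A)) +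
        ((fun t : ℝ => t⁻¹) ∘ fun x => ‖SFieldD_P A x‖) y •
        (dg r • ((-(1 / s)) • (innerSL ℝ A - c • innerSL ℝ y)))).smulRight (SFieldD_P A y))) ξ) v =
      inner ℝ W v := by
    intro v
    rw [ContinuousLinearMap.adjoint_inner_left]
    simp only [add_apply, smul_apply,
      ContinuousLinearMap.smulRight_apply, sub_apply,
      ContinuousLinearMap.comp_apply, innerSL_apply_apply, inner_add_right, inner_add_left,
      real_inner_smul_right, real_inner_smul_left, Function.comp, smul_eq_mul, SFieldD_P_apply,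
      inner_sub_left, inner_sub_right, ← hr, hξA, hξy, hAA, hyA, ← hc, hW]
    rw [← SFieldD_P_apply, ← hs]
    field_simp
    ring
  have hLW : (ContinuousLinearMap.adjoint
      ((fun x => g (InnerProductGeometry.angle A x) *
      ((fun t : ℝ => t⁻¹) ∘ fun x => ‖SFieldD_P A x‖) x) y • SFieldD_P A +
      (g (InnerProductGeometry.angle A y) • ((-(s ^ 2)⁻¹) • (1 / s) •
        (innerSL ℝ (SFieldD_P A y)).comp (SFieldD_P A)) +
        ((fun t : ℝ => t⁻¹) ∘ fun x => ‖SFieldD_P A x‖) y •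
        (dg r • ((-(1 / s)) • (innerSL ℝ A - c • innerSL ℝ y)))).smulRight (SFieldD_P A y))) ξ
        = W := ext_inner_right ℝ hadj
  refine (congrArg (fun z => ‖z‖ ^ 2) hLW).trans ?_
  show ‖W‖ ^ 2 = _
  rw [← real_inner_self_eq_norm_sq, hW]
  simp only [inner_add_right, inner_add_left, real_inner_smul_right, real_inner_smul_left, hξA,
    hξ, hAA, hyy, hyA, hξy, ← hc, ← hq]
  rw [qs, tc, ← SFieldD_P_apply, ← hs, ← hr, ← hq, hsin, real_inner_self_eq_norm_sq]
  have hc2' : c ^ 2 = 1 - s ^ 2 := by linarith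
  field_simp
  linear_combination (2 * g r * s * q ^ 2 * dg r * c - g r ^ 2 * q ^ 2 -
    s ^ 2 * q ^ 2 * dg r ^ 2) * hc2'

end Pool.Agent.NE
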