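import Pool.Agent.NE.STools

set_option autoImplicit false

open MeasureTheory Set
open scoped ENNReal ContDiff Gradient

namespace Pool.Agent.NE

namespace SHom

variable {n : ℕ}

/-- the point 1 -/
def one' : Ioi (0 : ℝ) := ⟨1, mem_Ioi.2 one_pos⟩

/-- Polar coordinates as a map. -/
noncomputable def T (n : ℕ) (p : Sph n × Ioi (0 : ℝ)) : E (n + 1) := p.2.1 • (p.1 : E (n + 1))

lemma T_cont : Continuous (T n) := by
  unfold T
  fun_prop

lemma T_eq : T n = Subtype.val ∘ (homeomorphUnitSphereProd (E (n + 1))).symm := by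
  funext p
  simp [T]

lemma T_emb : MeasurableEmbedding (T n) := by
  rw [T_eq]
  exact (MeasurableEmbedding.subtype_coe (measurableSet_singleton _).compl).comp
    (homeomorphUnitSphereProd (E (n + 1))).symm.measurableEmbedding

lemma T_mp : MeasurePreserving (T n) ((surf n).prod (Measure.volumeIoiPow n))
    (volume : Measure (E (n + 1))) := by
  have hdim : Module.finrank ℝ (E (n + 1)) - 1 = n := by simp
  have hmp := (volume : Measure (E (n + 1))).measurePreserving_homeomorphUnitSphereProd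
  rw [hdim] at hmp
  have h1 : MeasurePreserving (homeomorphUnitSphereProd (E (n + 1))).symm
      ((surf n).prod (Measure.volumeIoiPow n)) ((volume : Measure (E (n + 1))).comap (↑)) := by
    have := hmp.symm (homeomorphUnitSphereProd (E (n + 1))).toMeasurableEquiv
    exact this
  have h2 : MeasurePreserving (Subtype.val : ({(0 : E (n + 1))}ᶜ : Set (E (n + 1))) → E (n + 1))
      ((volume : Measure (E (n + 1))).comap (↑)) (volume : Measure (E (n + 1))) := by
    refine ⟨measurable_subtype_coe, ?_⟩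
    rw [(MeasurableEmbedding.subtype_coe (measurableSet_singleton _).compl).map_comap,
      Subtype.range_coe, restrict_compl_singleton]
  rw [T_eq]
  exact h2.comp h1

lemma norm_T (p : Sph n × Ioi (0 : ℝ)) : ‖T n p‖ = p.2.1 := by
  have h : ‖(p.1 : E (n + 1))‖ = 1 := by simp
  have h2 : (0 : ℝ) < p.2.1 := p.2.2
  rw [T, norm_smul, h, mul_one, Real.norm_of_nonneg h2.le]

lemma dir_T (p : Sph n × Ioi (0 : ℝ)) : dir (T n p) = p.1 := by
  have h2 : (0 : ℝ) < p.2.1 := p.2.2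
  have h0 : T n p ≠ 0 := by
    rw [← norm_ne_zero_iff, norm_T]; exact h2.ne'
  apply Subtype.ext
  rw [dir, dif_neg h0]
  simp only [norm_T]
  rw [T, smul_smul, inv_mul_cancel₀ h2.ne', one_smul]

lemma T_preimage (Ω : Set (Sph n)) :
    T n ⁻¹' (cone Ω) = Ω ×ˢ (Iio one') := by
  ext p
  have h2 : (0 : ℝ) < p.2.1 := p.2.2
  have h0 : T n p ≠ 0 := by
    rw [← norm_ne_zero_iff, norm_T]; exact h2.ne'
  simp only [mem_preimage, cone, mem_ofPred_eq, norm_T, dir_T, mem_prod, mem_Iio]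
  constructor
  · rintro ⟨_, h3, h4⟩
    exact ⟨h4, h3⟩
  · rintro ⟨h3, h4⟩
    exact ⟨h0, h4, h3⟩

/-- radial measure -/
noncomputable def nu (n : ℕ) : Measure (Ioi (0 : ℝ)) :=
  (Measure.volumeIoiPow n).restrict (Iio one')

instance : IsFiniteMeasure (nu n) := by
  refine ⟨?_⟩
  rw [nu, Measure.restrict_apply_univ, Measure.volumeIoiPow_apply_Iio]
  exact ENNReal.ofReal_lt_top

lemma nu_integral (g : ℝ → ℝ) :
    ∫ x : Ioi (0 : ℝ), g x.1 ∂(nu n) = ∫ r in (0 : ℝ)..1, g r * r ^ n := by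
  have h1 : ∫ x : Ioi (0 : ℝ), g x.1 ∂(nu n) =
      ∫ x : Ioi (0 : ℝ), (Iio (1 : ℝ)).indicator g x.1 ∂(Measure.volumeIoiPow n) := by
    rw [nu, ← integral_indicator measurableSet_Iio]
    refine integral_congr_ae (Filter.Eventually.of_forall fun x => ?_)
    by_cases hx : x.1 < 1
    · simp only
      rw [indicator_of_mem (show x ∈ Iio one' from hx),
        indicator_of_mem (show x.1 ∈ Iio (1 : ℝ) from hx)]
    · simp only
      rw [indicator_of_notMem (show x ∉ Iio one' from hx),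
        indicator_of_notMem (show x.1 ∉ Iio (1 : ℝ) from hx)]
  rw [h1]
  have h2 : ∫ x : Ioi (0 : ℝ), (Iio (1 : ℝ)).indicator g x.1 ∂(Measure.volumeIoiPow n) =
      ∫ r in Ioi (0 : ℝ), (Iio (1 : ℝ)).indicator g r * r ^ n := by
    simp only [Measure.volumeIoiPow, ENNReal.ofReal]
    rw [integral_withDensity_eq_integral_smul,
      integral_subtype_comap measurableSet_Ioi
        fun a ↦ Real.toNNReal (a ^ n) • (Iio (1 : ℝ)).indicator g a,
      setIntegral_congr_fun measurableSet_Ioi fun x hx ↦ ?_]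
    · rw [NNReal.smul_def, Real.coe_toNNReal _ (pow_nonneg hx.out.le _), smul_eq_mul, mul_comm]
    · exact (measurable_subtype_coe.pow_const _).real_toNNReal
  rw [h2, intervalIntegral.integral_of_le zero_le_one, integral_Ioc_eq_integral_Ioo]
  have h3 : ∀ r : ℝ, (Iio (1 : ℝ)).indicator g r * r ^ n =
      (Iio (1 : ℝ)).indicator (fun r => g r * r ^ n) r := by
    intro r
    by_cases hr : r ∈ Iio (1 : ℝ)
    · rw [indicator_of_mem hr, indicator_of_mem hr]
    · rw [indicator_of_notMem hr, indicator_of_notMem hr, zero_mul]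
  simp only [h3]
  rw [integral_indicator measurableSet_Iio, Measure.restrict_restrict measurableSet_Iio]
  congr 2
  ext x
  simp [and_comm]

lemma cone_meas {Ω : Set (Sph n)} (hΩ : MeasurableSet Ω) : MeasurableSet (cone Ω) := by
  have h1 : cone Ω = T n '' (Ω ×ˢ (Iio one')) := by
    rw [← T_preimage, image_preimage_eq_inter_range]
    symm
    rw [inter_eq_left]
    intro x hx
    have h0 : x ≠ 0 := hx.1
    refine ⟨(homeomorphUnitSphereProd (E (n + 1)) ⟨x, h0⟩), ?_⟩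
    rw [T_eq]
    simp
  rw [h1]
  exact T_emb.measurableSet_image.2 (hΩ.prod measurableSet_Iio)

lemma cone_mp {Ω : Set (Sph n)} (hΩ : MeasurableSet Ω) :
    MeasurePreserving (T n) (((surf n).restrict Ω).prod (nu n))
      ((volume : Measure (E (n + 1))).restrict (cone Ω)) := by
  have h := (T_mp (n := n)).restrict_preimage (cone_meas hΩ)
  rw [T_preimage, ← Measure.prod_restrict] at h
  exact h

lemma fderiv_scale {Φ : E (n + 1) → ℝ} (hΦ : ContDiff ℝ ∞ Φ) (r : ℝ) (x w : E (n + 1)) :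
    fderiv ℝ (fun y => Φ (r • y)) x w = r * fderiv ℝ Φ (r • x) w := by
  have h1 : HasFDerivAt Φ (fderiv ℝ Φ (r • x)) (r • x) :=
    ((hΦ.differentiable (by simp)) (r • x)).hasFDerivAt
  have h2 : HasFDerivAt (fun y : E (n + 1) => r • y)
      (r • ContinuousLinearMap.id ℝ (E (n + 1))) x := (hasFDerivAt_id x).const_smul r
  have h3 : HasFDerivAt (fun y => Φ (r • y))
      ((fderiv ℝ Φ (r • x)).comp (r • ContinuousLinearMap.id ℝ (E (n + 1)))) x := h1.comp x h2
  rw [h3.fderiv]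
  simp

lemma sdiv_scale {Φ : E (n + 1) → ℝ} (hΦ : ContDiff ℝ ∞ Φ) (r : ℝ) (v x : E (n + 1)) :
    sdiv (fun y => Φ (r • y)) v x = r * fderiv ℝ Φ (r • x) v -
      inner ℝ x v * (r * fderiv ℝ Φ (r • x) x + n * Φ (r • x)) := by
  rw [sdiv, fderiv_scale hΦ, map_sub, map_smul, smul_eq_mul]
  ring

lemma tsupp {Ω : Set (Sph n)} {Φ : E (n + 1) → ℝ} (h : tsupport Φ ⊆ cone Ω) {r : ℝ}
    (hr : 0 < r) : tsupport (fun θ : Sph n => Φ (r • (θ : E (n + 1)))) ⊆ Ω := by
  have h1 : tsupport (fun θ : Sph n => Φ (r • (θ : E (n + 1)))) ⊆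
      (fun θ : Sph n => r • (θ : E (n + 1))) ⁻¹' (tsupport Φ) := by
    apply closure_minimal
    · intro θ hθ
      exact subset_tsupport Φ hθ
    · exact (isClosed_tsupport Φ).preimage (by fun_prop)
  intro θ hθ
  have h2 : T n (θ, ⟨r, hr⟩) ∈ cone Ω := h (h1 hθ)
  have h3 : (θ, (⟨r, hr⟩ : Ioi (0 : ℝ))) ∈ T n ⁻¹' (cone Ω) := h2
  rw [T_preimage] at h3
  exact h3.1

lemma radial {Ω : Set (Sph n)} {Φ : E (n + 1) → ℝ} (hΦ : ContDiff ℝ ∞ Φ)
    (h : tsupport Φ ⊆ cone Ω) (θ : Sph n) :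
    ∫ r : Ioi (0 : ℝ), (r.1 * fderiv ℝ Φ (r.1 • (θ : E (n + 1))) θ +
      n * Φ (r.1 • (θ : E (n + 1))) + Φ (r.1 • (θ : E (n + 1)))) ∂(nu n) = 0 := by
  rw [nu_integral (fun r => r * fderiv ℝ Φ (r • (θ : E (n + 1))) θ +
      n * Φ (r • (θ : E (n + 1))) + Φ (r • (θ : E (n + 1))))]
  have hd : ∀ r : ℝ, HasDerivAt (fun r : ℝ => r ^ (n + 1) * Φ (r • (θ : E (n + 1))))
      ((r * fderiv ℝ Φ (r • (θ : E (n + 1))) θ +
      n * Φ (r • (θ : E (n + 1))) + Φ (r • (θ : E (n + 1)))) * r ^ n) r := by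
    intro r
    have h1 : HasFDerivAt Φ (fderiv ℝ Φ (r • (θ : E (n + 1)))) (r • (θ : E (n + 1))) :=
      ((hΦ.differentiable (by simp)) _).hasFDerivAt
    have h2 : HasDerivAt (fun r : ℝ => r • (θ : E (n + 1))) (θ : E (n + 1)) r := by
      simpa using (hasDerivAt_id' r).smul_const (θ : E (n + 1))
    have h3 : HasDerivAt (fun r : ℝ => Φ (r • (θ : E (n + 1))))
        (fderiv ℝ Φ (r • (θ : E (n + 1))) θ) r := h1.comp_hasDerivAt r h2
    have h4 := (hasDerivAt_pow (n + 1) r).mul h3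
    convert! h4 using 1
    push_cast
    ring
  have hc : Continuous (fun r : ℝ => (r * fderiv ℝ Φ (r • (θ : E (n + 1))) θ +
      n * Φ (r • (θ : E (n + 1))) + Φ (r • (θ : E (n + 1)))) * r ^ n) := by
    have h1 : Continuous Φ := hΦ.continuous
    have h2 : Continuous (fderiv ℝ Φ) := hΦ.continuous_fderiv (by simp)
    fun_prop
  rw [intervalIntegral.integral_eq_sub_of_hasDerivAt (fun r _ => hd r)
    (hc.intervalIntegrable _ _)]
  have h1 : Φ ((1 : ℝ) • (θ : E (n + 1))) = 0 := by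
    by_contra hne
    have h2 : T n (θ, one') ∈ cone Ω := h (subset_tsupport Φ hne)
    have h3 : ‖T n (θ, one')‖ < 1 := h2.2.1
    rw [norm_T] at h3
    exact absurd h3 (lt_irrefl _)
  rw [h1]
  simp

lemma int_mul {Ω : Set (Sph n)} {f : Sph n → ℝ} (hf : Integrable f ((surf n).restrict Ω))
    {b : Sph n × Ioi (0 : ℝ) → ℝ} (hb : Continuous b) {C : ℝ}
    (hC : ∀ᵐ p ∂(((surf n).restrict Ω).prod (nu n)), ‖b p‖ ≤ C) :
    Integrable (fun p : Sph n × Ioi (0 : ℝ) => f p.1 * b p)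
      (((surf n).restrict Ω).prod (nu n)) := by
  have h1 : Integrable (fun p : Sph n × Ioi (0 : ℝ) => f p.1)
      (((surf n).restrict Ω).prod (nu n)) := hf.comp_fst _
  exact h1.mul_bdd hb.aestronglyMeasurable hC

lemma ae_lt {Ω : Set (Sph n)} :
    ∀ᵐ p ∂(((surf n).restrict Ω).prod (nu n)), p.2.1 < 1 := by
  have h1 : ∀ᵐ r ∂(nu n), r.1 < 1 := by
    rw [nu]
    filter_upwards [ae_restrict_mem measurableSet_Iio] with r hr
    exact hr
  exact Measure.quasiMeasurePreserving_snd.ae h1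

theorem weak {Ω : Set (Sph n)} (hΩ : IsOpen Ω) {u : Sph n → ℝ} {G : Sph n → E (n + 1)}
    (hu : MemLp u 2 ((surf n).restrict Ω)) (hG : MemLp G 2 ((surf n).restrict Ω))
    (hw : IsWeakGradS Ω u G) :
    IsWeakGrad (cone Ω) (fun x => ‖x‖ * u (dir x))
      (fun x => u (dir x) • (dir x : E (n + 1)) + G (dir x)) := by
  intro Φ hΦ hΦc hΦs v
  have hmp := cone_mp (n := n) hΩ.measurableSet
  rw [← hmp.integral_comp T_emb, ← hmp.integral_comp T_emb]
  simp only [norm_T, dir_T]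
  have hc1 : Continuous Φ := hΦ.continuous
  have hc2 : Continuous (fderiv ℝ Φ) := hΦ.continuous_fderiv (by simp)
  obtain ⟨C1, hC1⟩ := hΦc.exists_bound_of_continuous hc1
  obtain ⟨C2, hC2⟩ := (hΦc.fderiv (𝕜 := ℝ)).exists_bound_of_continuous hc2
  have hui : Integrable u ((surf n).restrict Ω) := hu.integrable (by norm_num)
  have hGi : Integrable (fun θ : Sph n => inner ℝ (G θ) v) ((surf n).restrict Ω) := by
    have := (hG.inner_const (𝕜 := ℝ) v).integrable (by norm_num)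
    simpa using this
  have huv : Integrable (fun θ : Sph n => u θ * inner ℝ (θ : E (n + 1)) v)
      ((surf n).restrict Ω) := by
    have hc : Continuous (fun θ : Sph n => inner ℝ (θ : E (n + 1)) v) := by fun_prop
    refine hui.mul_bdd (c := ‖v‖) hc.aestronglyMeasurable
      (Filter.Eventually.of_forall fun θ => ?_)
    have := norm_inner_le_norm (𝕜 := ℝ) (θ : E (n + 1)) v
    simpa using this
  have hTc := T_cont (n := n)
  have hTn : ∀ p : Sph n × Ioi (0 : ℝ), T n p = p.2.1 • (p.1 : E (n + 1)) := fun p => rfl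
  -- the functions
  have iA : Integrable (fun p : Sph n × Ioi (0 : ℝ) => u p.1 * (p.2.1 * fderiv ℝ Φ (T n p) v))
      (((surf n).restrict Ω).prod (nu n)) := by
    refine int_mul hui (by fun_prop) (C := C2 * ‖v‖) ?_
    filter_upwards [ae_lt] with p hp
    have h0 : (0 : ℝ) < p.2.1 := p.2.2
    rw [norm_mul, Real.norm_of_nonneg h0.le]
    have h1 : ‖fderiv ℝ Φ (T n p) v‖ ≤ C2 * ‖v‖ :=
      (fderiv ℝ Φ (T n p)).le_of_opNorm_le (hC2 _) v
    calc p.2.1 * ‖fderiv ℝ Φ (T n p) v‖ ≤ 1 * ‖fderiv ℝ Φ (T n p) v‖ := by gcongr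
      _ ≤ C2 * ‖v‖ := by rw [one_mul]; exact h1
  have iB : Integrable (fun p : Sph n × Ioi (0 : ℝ) => inner ℝ (G p.1) v * Φ (T n p))
      (((surf n).restrict Ω).prod (nu n)) :=
    int_mul hGi (by fun_prop) (C := C1) (Filter.Eventually.of_forall fun p => hC1 _)
  have iD1 : Integrable (fun p : Sph n × Ioi (0 : ℝ) =>
      (u p.1 * inner ℝ (p.1 : E (n + 1)) v) * (p.2.1 * fderiv ℝ Φ (T n p) p.1))
      (((surf n).restrict Ω).prod (nu n)) := by
    refine int_mul huv (by fun_prop) (C := C2) ?_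
    filter_upwards [ae_lt] with p hp
    have h0 : (0 : ℝ) < p.2.1 := p.2.2
    rw [norm_mul, Real.norm_of_nonneg h0.le]
    have h1 : ‖fderiv ℝ Φ (T n p) p.1‖ ≤ C2 * ‖(p.1 : E (n + 1))‖ :=
      (fderiv ℝ Φ (T n p)).le_of_opNorm_le (hC2 _) _
    have h2 : ‖(p.1 : E (n + 1))‖ = 1 := by simp
    rw [h2, mul_one] at h1
    calc p.2.1 * ‖fderiv ℝ Φ (T n p) p.1‖ ≤ 1 * ‖fderiv ℝ Φ (T n p) p.1‖ := by gcongr
      _ ≤ C2 := by rw [one_mul]; exact h1
  have iD2 : Integrable (fun p : Sph n × Ioi (0 : ℝ) =>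
      (u p.1 * inner ℝ (p.1 : E (n + 1)) v) * Φ (T n p))
      (((surf n).restrict Ω).prod (nu n)) :=
    int_mul huv (by fun_prop) (C := C1) (Filter.Eventually.of_forall fun p => hC1 _)
  have iAB : Integrable (fun p : Sph n × Ioi (0 : ℝ) =>
      u p.1 * (p.2.1 * fderiv ℝ Φ (T n p) v) + inner ℝ (G p.1) v * Φ (T n p))
      (((surf n).restrict Ω).prod (nu n)) := iA.add iB
  have iD : Integrable (fun p : Sph n × Ioi (0 : ℝ) =>
      (u p.1 * inner ℝ (p.1 : E (n + 1)) v) * (p.2.1 * fderiv ℝ Φ (T n p) p.1) +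
      n * ((u p.1 * inner ℝ (p.1 : E (n + 1)) v) * Φ (T n p)))
      (((surf n).restrict Ω).prod (nu n)) := iD1.add (iD2.const_mul (n : ℝ))
  -- first identity
  have e1 : ∫ p : Sph n × Ioi (0 : ℝ), (u p.1 * (p.2.1 * fderiv ℝ Φ (T n p) v) +
      inner ℝ (G p.1) v * Φ (T n p) -
      ((u p.1 * inner ℝ (p.1 : E (n + 1)) v) * (p.2.1 * fderiv ℝ Φ (T n p) p.1) +
      n * ((u p.1 * inner ℝ (p.1 : E (n + 1)) v) * Φ (T n p))))
      ∂(((surf n).restrict Ω).prod (nu n)) = 0 := by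
    have hi := (iA.add iB).sub (iD1.add (iD2.const_mul (n : ℝ)))
    simp only [Pi.add_def, Pi.sub_def] at hi
    rw [integral_prod_symm _ hi]
    apply integral_eq_zero_of_ae
    refine Filter.Eventually.of_forall fun r => ?_
    have hr : (0 : ℝ) < r.1 := r.2
    have h1 : ContDiff ℝ ∞ (fun y : E (n + 1) => Φ (r.1 • y)) :=
      hΦ.comp (contDiff_const_smul r.1)
    have h2 := hw.2 (fun y => Φ (r.1 • y)) h1 (tsupp hΦs hr) v
    have h3 := integrable_mul_sdiv hu h1 v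
    have h4 := integrable_inner_mulS hG h1 v
    have h5 : ∫ θ in Ω, (u θ * sdiv (fun y => Φ (r.1 • y)) v θ +
        inner ℝ (G θ) v * Φ (r.1 • (θ : E (n + 1)))) ∂(surf n) = 0 := by
      rw [integral_add h3 h4, h2]
      ring
    refine (integral_congr_ae (Filter.Eventually.of_forall fun θ => ?_)).trans h5
    simp only [sdiv_scale hΦ, hTn]
    ring
  have e2 : ∫ p : Sph n × Ioi (0 : ℝ), 
      ((u p.1 * inner ℝ (p.1 : E (n + 1)) v) * (p.2.1 * fderiv ℝ Φ (T n p) p.1) +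
      n * ((u p.1 * inner ℝ (p.1 : E (n + 1)) v) * Φ (T n p)) +
      (u p.1 * inner ℝ (p.1 : E (n + 1)) v) * Φ (T n p))
      ∂(((surf n).restrict Ω).prod (nu n)) = 0 := by
    have hi := (iD1.add (iD2.const_mul (n : ℝ))).add iD2
    simp only [Pi.add_def] at hi
    rw [integral_prod _ hi]
    apply integral_eq_zero_of_ae
    refine Filter.Eventually.of_forall fun θ => ?_
    have h1 := radial hΦ hΦs θ
    have h2 : ∫ r : Ioi (0 : ℝ), (u θ * inner ℝ (θ : E (n + 1)) v) *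
      (r.1 * fderiv ℝ Φ (r.1 • (θ : E (n + 1))) θ +
      n * Φ (r.1 • (θ : E (n + 1))) + Φ (r.1 • (θ : E (n + 1)))) ∂(nu n) = 0 := by
      rw [integral_const_mul, h1, mul_zero]
    refine (integral_congr_ae (Filter.Eventually.of_forall fun r => ?_)).trans h2
    simp only [hTn]
    ring
  have e3 : ∫ p : Sph n × Ioi (0 : ℝ), p.2.1 * u p.1 * fderiv ℝ Φ (T n p) v
      ∂(((surf n).restrict Ω).prod (nu n)) =
      ∫ p : Sph n × Ioi (0 : ℝ), u p.1 * (p.2.1 * fderiv ℝ Φ (T n p) v)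
      ∂(((surf n).restrict Ω).prod (nu n)) :=
    integral_congr_ae (Filter.Eventually.of_forall fun p => by simp only; ring)
  have e4 : ∫ p : Sph n × Ioi (0 : ℝ),
      inner ℝ (u p.1 • (p.1 : E (n + 1)) + G p.1) v * Φ (T n p)
      ∂(((surf n).restrict Ω).prod (nu n)) =
      ∫ p : Sph n × Ioi (0 : ℝ), (inner ℝ (G p.1) v * Φ (T n p) +
        (u p.1 * inner ℝ (p.1 : E (n + 1)) v) * Φ (T n p))
      ∂(((surf n).restrict Ω).prod (nu n)) :=
    integral_congr_ae (Filter.Eventually.of_forall fun p => by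
      simp only [inner_add_left, real_inner_smul_left]; ring)
  rw [e3, e4, integral_add iB iD2]
  rw [integral_sub iAB iD, integral_add iA iB] at e1
  rw [integral_add iD iD2] at e2
  linarith

end SHom

/-- The extension `|x| u(x/|x|)` of `u ∈ H¹(Ω)`, `Ω ⊆ S^n`, to the truncated cone over `Ω`. -/
theorem hom_ext {n : ℕ} {Ω : Set (Sph n)} (hΩ : IsOpen Ω) (p : H1S Ω) :
    ∃ P : H1 (cone Ω),
      (∀ᵐ x ∂(volume.restrict (cone Ω)), (P.1.1 : E (n + 1) → ℝ) x =
        ‖x‖ * (p.1.1 : Sph n → ℝ) (dir x)) ∧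
      (∀ᵐ x ∂(volume.restrict (cone Ω)), (P.1.2 : E (n + 1) → E (n + 1)) x =
        (p.1.1 : Sph n → ℝ) (dir x) • (dir x : E (n + 1)) +
          (p.1.2 : Sph n → E (n + 1)) (dir x)) := by
  have hu : MemLp (p.1.1 : Sph n → ℝ) 2 ((surf n).restrict Ω) := Lp.memLp _
  have hG : MemLp (p.1.2 : Sph n → E (n + 1)) 2 ((surf n).restrict Ω) := Lp.memLp _
  have hw : IsWeakGradS Ω (p.1.1 : Sph n → ℝ) (p.1.2 : Sph n → E (n + 1)) := p.2
  set u := (p.1.1 : Sph n → ℝ) with hudef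
  set G := (p.1.2 : Sph n → E (n + 1)) with hGdef
  have hmp := SHom.cone_mp (n := n) hΩ.measurableSet
  have hf1 : MemLp (fun x : E (n + 1) => ‖x‖ * u (dir x)) 2 (volume.restrict (cone Ω)) := by
    rw [← hmp.map_eq, SHom.T_emb.memLp_map_measure_iff]
    have h1 : MemLp (fun q : Sph n × Ioi (0 : ℝ) => u q.1) 2
        (((surf n).restrict Ω).prod (SHom.nu n)) := hu.comp_fst _
    refine h1.mono ?_ ?_
    · have h2 : AEStronglyMeasurable (fun q : Sph n × Ioi (0 : ℝ) => q.2.1 * u q.1)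
          (((surf n).restrict Ω).prod (SHom.nu n)) :=
        (by fun_prop : Continuous (fun q : Sph n × Ioi (0 : ℝ) => q.2.1)).aestronglyMeasurable.mul
          h1.aestronglyMeasurable
      refine h2.congr (Filter.Eventually.of_forall fun q => ?_)
      simp only [Function.comp_apply, SHom.norm_T, SHom.dir_T]
    · filter_upwards [SHom.ae_lt] with q hq
      have h0 : (0 : ℝ) < q.2.1 := q.2.2
      simp only [Function.comp_apply, SHom.norm_T, SHom.dir_T, norm_mul,
        Real.norm_of_nonneg h0.le]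
      calc q.2.1 * ‖u q.1‖ ≤ 1 * ‖u q.1‖ := by gcongr
        _ = ‖u q.1‖ := one_mul _
  have hf2 : MemLp (fun x : E (n + 1) => u (dir x) • (dir x : E (n + 1)) + G (dir x)) 2
      (volume.restrict (cone Ω)) := by
    rw [← hmp.map_eq, SHom.T_emb.memLp_map_measure_iff]
    have h1 : MemLp (fun θ : Sph n => u θ • (θ : E (n + 1)) + G θ) 2
        ((surf n).restrict Ω) := by
      refine MemLp.add ?_ hG
      refine hu.mono ?_ ?_
      · exact hu.aestronglyMeasurable.smul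
          (by fun_prop : Continuous (fun θ : Sph n => (θ : E (n + 1)))).aestronglyMeasurable
      · refine Filter.Eventually.of_forall fun θ => ?_
        rw [norm_smul]
        simp
    have h2 : MemLp (fun q : Sph n × Ioi (0 : ℝ) => u q.1 • (q.1 : E (n + 1)) + G q.1) 2
        (((surf n).restrict Ω).prod (SHom.nu n)) := h1.comp_fst _
    refine (memLp_congr_ae (Filter.Eventually.of_forall fun q => ?_)).1 h2
    simp only [Function.comp_apply, SHom.dir_T]
  have hweak := SHom.weak hΩ hu hG hw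
  refine ⟨⟨(hf1.toLp _, hf2.toLp _), ?_⟩, hf1.coeFn_toLp, hf2.coeFn_toLp⟩
  change IsWeakGrad (cone Ω) (hf1.toLp _ : E (n + 1) → ℝ) (hf2.toLp _ : E (n + 1) → E (n + 1))
  intro Φ h1 h2 h3 v
  have h4 := hweak Φ h1 h2 h3 v
  have e1 : ∫ x in cone Ω, (hf1.toLp _ : E (n + 1) → ℝ) x * fderiv ℝ Φ x v =
      ∫ x in cone Ω, ‖x‖ * u (dir x) * fderiv ℝ Φ x v := by
    refine integral_congr_ae ?_
    filter_upwards [hf1.coeFn_toLp] with x hx
    rw [hx]
  have e2 : ∫ x in cone Ω, inner ℝ ((hf2.toLp _ : E (n + 1) → E (n + 1)) x) v * Φ x =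
      ∫ x in cone Ω, inner ℝ (u (dir x) • (dir x : E (n + 1)) + G (dir x)) v * Φ x := by
    refine integral_congr_ae ?_
    filter_upwards [hf2.coeFn_toLp] with x hx
    rw [hx]
  rw [e1, e2]
  exact h4

end Pool.Agent.NE
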