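import Pool.Agent.NE.SRot

set_option autoImplicit false

open MeasureTheory Set
open scoped ENNReal

namespace Pool.Agent.NE

private lemma angle_rot {n : ℕ} (L : E (n + 1) ≃ₗᵢ[ℝ] E (n + 1)) {A : E (n + 1)} (hL : L A = A)
    (x : E (n + 1)) :
    InnerProductGeometry.angle A (L x) = InnerProductGeometry.angle A x := by
  conv_lhs => rw [← hL]
  exact L.toLinearIsometry.angle_map A x

private lemma inner_rot {n : ℕ} (L : E (n + 1) ≃ₗᵢ[ℝ] E (n + 1)) {A : E (n + 1)} (hL : L A = A)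
    (x : E (n + 1)) : inner ℝ A (L x) = inner ℝ A x := by
  conv_lhs => rw [← hL]
  exact L.inner_map_map A x

lemma isoS_tc_rot {n : ℕ} (L : E (n + 1) ≃ₗᵢ[ℝ] E (n + 1)) {A : E (n + 1)} (hL : L A = A)
    (x ξ : E (n + 1)) : tc A (L x) (L ξ) = tc A x ξ := by
  unfold tc
  rw [L.inner_map_map, inner_rot L hL]
  have h : L x - inner ℝ A x • A = L (x - inner ℝ A x • A) := by
    rw [map_sub, map_smul, hL]
  rw [h, L.norm_map]

private lemma isoS_inv {n : ℕ} (A : Sph n) (h : ℝ → ℝ) (L : E (n + 1) ≃ₗᵢ[ℝ] E (n + 1))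
    (hL : L (A : E (n + 1)) = A) (ξ : E (n + 1)) :
    ∫ x : Sph n, h (InnerProductGeometry.angle (A : E (n + 1)) (x : E (n + 1))) *
        tc (A : E (n + 1)) x (L ξ) ^ 2 ∂(surf n) =
      ∫ x : Sph n, h (InnerProductGeometry.angle (A : E (n + 1)) (x : E (n + 1))) *
        tc (A : E (n + 1)) x ξ ^ 2 ∂(surf n) := by
  have hemb : MeasurableEmbedding (rotS L) := by
    have : Topology.IsClosedEmbedding (rotS L) :=
      (rotS_cont L).isClosedEmbedding (fun x y hxy => by
        apply Subtype.ext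
        have : L (x : E (n + 1)) = L (y : E (n + 1)) := congrArg Subtype.val hxy
        exact L.injective this)
    exact this.measurableEmbedding
  rw [← (rot_mp L).integral_comp hemb]
  refine integral_congr_ae (Filter.Eventually.of_forall fun x => ?_)
  show h (InnerProductGeometry.angle (A : E (n + 1)) (L (x : E (n + 1)))) *
    tc (A : E (n + 1)) (L (x : E (n + 1))) (L ξ) ^ 2 = _
  rw [angle_rot L hL, isoS_tc_rot L hL]

private lemma isoS_smul {n : ℕ} (A : Sph n) (h : ℝ → ℝ) (t : ℝ) (ξ : E (n + 1)) :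
    ∫ x : Sph n, h (InnerProductGeometry.angle (A : E (n + 1)) (x : E (n + 1))) *
        tc (A : E (n + 1)) x (t • ξ) ^ 2 ∂(surf n) =
      t ^ 2 * ∫ x : Sph n, h (InnerProductGeometry.angle (A : E (n + 1)) (x : E (n + 1))) *
        tc (A : E (n + 1)) x ξ ^ 2 ∂(surf n) := by
  rw [← integral_const_mul]
  congr 1
  funext x
  unfold tc
  rw [inner_smul_right]
  ring

private lemma isoS_unit {n : ℕ} (A : Sph n) (h : ℝ → ℝ) (ξ η : E (n + 1))
    (hξ : inner ℝ (A : E (n + 1)) ξ = 0) (hη : inner ℝ (A : E (n + 1)) η = 0) (h1 : ‖η‖ = 1) :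
    ∫ x : Sph n, h (InnerProductGeometry.angle (A : E (n + 1)) (x : E (n + 1))) *
        tc (A : E (n + 1)) x ξ ^ 2 ∂(surf n) =
      ‖ξ‖ ^ 2 * ∫ x : Sph n, h (InnerProductGeometry.angle (A : E (n + 1)) (x : E (n + 1))) *
        tc (A : E (n + 1)) x η ^ 2 ∂(surf n) := by
  rw [← isoS_smul]
  have hn : ‖ξ‖ = ‖(‖ξ‖ • η : E (n + 1))‖ := by
    rw [norm_smul, h1]; simp
  have h2 := Submodule.reflection_sub hn
  have hA : (Submodule.reflection (Submodule.span ℝ {ξ - ‖ξ‖ • η})ᗮ) (A : E (n + 1)) = A := by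
    rw [Submodule.reflection_eq_self_iff, Submodule.mem_orthogonal_singleton_iff_inner_left,
      inner_sub_right, inner_smul_right, hξ, hη]
    simp
  rw [← h2, isoS_inv A h _ hA]

lemma isoS_tc_abs_le {n : ℕ} (A x η : E (n + 1)) (hη : inner ℝ A η = 0) (h1 : ‖η‖ = 1) :
    |tc A x η| ≤ 1 := by
  unfold tc
  rw [abs_div, abs_norm]
  refine div_le_one_of_le₀ ?_ (norm_nonneg _)
  have h2 : inner ℝ x η = inner ℝ (x - inner ℝ A x • A) η := by
    rw [inner_sub_left, real_inner_smul_left, hη]; simp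
  rw [h2]
  have := abs_real_inner_le_norm (x - inner ℝ A x • A) η
  rwa [h1, mul_one] at this

lemma isoS_ae_ne_poles {n : ℕ} (hn : 1 ≤ n) (A : Sph n) :
    ∀ᵐ x : Sph n ∂(surf n), (x : E (n + 1)) - inner ℝ (A : E (n + 1)) (x : E (n + 1)) •
      (A : E (n + 1)) ≠ 0 := by
  have h1 : ∀ᵐ x : Sph n ∂(surf n), x ∉ ({A} : Set (Sph n)) := measure_eq_zero_iff_ae_notMem.1
    (surf_point hn A)
  have h2 : ∀ᵐ x : Sph n ∂(surf n), x ∉ ({-A} : Set (Sph n)) := measure_eq_zero_iff_ae_notMem.1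
    (surf_point hn (-A))
  filter_upwards [h1, h2] with x hx1 hx2 h0
  rw [sub_eq_zero] at h0
  have hn1 : ‖(x : E (n + 1))‖ = 1 := by simp
  have hA : ‖(A : E (n + 1))‖ = 1 := by simp
  have h3 : |inner ℝ (A : E (n + 1)) (x : E (n + 1))| = 1 := by
    have := congrArg norm h0
    rw [norm_smul, hn1, hA, mul_one, Real.norm_eq_abs] at this
    exact this.symm
  rcases (abs_eq (by norm_num : (0 : ℝ) ≤ 1)).1 h3 with h4 | h4
  · apply hx1
    rw [h4, one_smul] at h0
    exact mem_singleton_iff.2 (Subtype.ext h0)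
  · apply hx2
    rw [h4, neg_one_smul] at h0
    exact mem_singleton_iff.2 (Subtype.ext h0)

/-- Isotropy of integrals of functions of the distance to `A`. -/
theorem isoS {n : ℕ} (hn : 1 ≤ n) (A : Sph n) (h : ℝ → ℝ)
    (hh : Integrable (fun x : Sph n =>
      h (InnerProductGeometry.angle (A : E (n + 1)) (x : E (n + 1)))) (surf n))
    (ξ : E (n + 1)) (hξ : inner ℝ (A : E (n + 1)) ξ = 0) :
    ∫ x : Sph n, h (InnerProductGeometry.angle (A : E (n + 1)) (x : E (n + 1))) *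
        tc (A : E (n + 1)) x ξ ^ 2 ∂(surf n) =
      ‖ξ‖ ^ 2 / n *
        ∫ x : Sph n, h (InnerProductGeometry.angle (A : E (n + 1)) (x : E (n + 1))) ∂(surf n) := by
  have hn0 : (n : ℝ) ≠ 0 := by positivity
  have hAn : ‖(A : E (n + 1))‖ = 1 := by simp
  have hA0 : (A : E (n + 1)) ≠ 0 := by
    intro h0; rw [h0, norm_zero] at hAn; norm_num at hAn
  have : Fact (Module.finrank ℝ (E (n + 1)) = n + 1) := ⟨finrank_euclideanSpace_fin⟩
  let b := OrthonormalBasis.fromOrthogonalSpanSingleton (𝕜 := ℝ) n hA0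
  have hb : ∀ i, inner ℝ (A : E (n + 1)) ((b i : (ℝ ∙ (A : E (n + 1)))ᗮ) : E (n + 1)) = 0 :=
    fun i => (Submodule.mem_orthogonal_singleton_iff_inner_right.1 (b i).2)
  have hb1 : ∀ i, ‖((b i : (ℝ ∙ (A : E (n + 1)))ᗮ) : E (n + 1))‖ = 1 := fun i =>
    b.orthonormal.1 i
  have hint : ∀ i : Fin n, Integrable (fun x : Sph n =>
      h (InnerProductGeometry.angle (A : E (n + 1)) (x : E (n + 1))) *
        tc (A : E (n + 1)) x (b i : (ℝ ∙ (A : E (n + 1)))ᗮ) ^ 2) (surf n) := by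
    intro i
    have hm : Measurable (fun x : Sph n =>
        tc (A : E (n + 1)) x (b i : (ℝ ∙ (A : E (n + 1)))ᗮ) ^ 2) := by
      have h1 : Continuous (fun x : Sph n => (x : E (n + 1))) := continuous_subtype_val
      have h2 : Continuous (fun x : Sph n => inner ℝ (x : E (n + 1))
          ((b i : (ℝ ∙ (A : E (n + 1)))ᗮ) : E (n + 1))) := h1.inner continuous_const
      have h3 : Continuous (fun x : Sph n => inner ℝ (A : E (n + 1)) (x : E (n + 1))) :=
        continuous_const.inner h1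
      have h4 : Continuous (fun x : Sph n => ‖(x : E (n + 1)) -
          inner ℝ (A : E (n + 1)) (x : E (n + 1)) • (A : E (n + 1))‖) :=
        (h1.sub (h3.smul continuous_const)).norm
      exact (h2.measurable.div h4.measurable).pow_const 2
    refine Integrable.mul_bdd (c := 1) hh hm.aestronglyMeasurable
      (Filter.Eventually.of_forall fun x => ?_)
    rw [norm_pow, Real.norm_eq_abs]
    exact pow_le_one₀ (abs_nonneg _) (isoS_tc_abs_le _ _ _ (hb i) (hb1 i))
  have hsum : ∑ i : Fin n, ∫ x : Sph n,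
      h (InnerProductGeometry.angle (A : E (n + 1)) (x : E (n + 1))) *
        tc (A : E (n + 1)) x (b i : (ℝ ∙ (A : E (n + 1)))ᗮ) ^ 2 ∂(surf n) =
      ∫ x : Sph n, h (InnerProductGeometry.angle (A : E (n + 1)) (x : E (n + 1))) ∂(surf n) := by
    rw [← integral_finsetSum _ (fun i _ => hint i)]
    refine integral_congr_ae ?_
    filter_upwards [isoS_ae_ne_poles hn A] with x hx
    rw [← Finset.mul_sum]
    have hv : (x : E (n + 1)) - inner ℝ (A : E (n + 1)) (x : E (n + 1)) • (A : E (n + 1)) ∈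
        (ℝ ∙ (A : E (n + 1)))ᗮ := by
      rw [Submodule.mem_orthogonal_singleton_iff_inner_right, inner_sub_right, inner_smul_right,
        real_inner_self_eq_norm_sq, hAn]
      ring
    have h2 : ∑ i : Fin n, tc (A : E (n + 1)) x (b i : (ℝ ∙ (A : E (n + 1)))ᗮ) ^ 2 = 1 := by
      unfold tc
      simp only [div_pow]
      rw [← Finset.sum_div, div_eq_one_iff_eq (by positivity)]
      have h3 := b.sum_sq_norm_inner_left ⟨_, hv⟩
      have h4 : ‖(⟨_, hv⟩ : (ℝ ∙ (A : E (n + 1)))ᗮ)‖ = ‖(x : E (n + 1)) -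
        inner ℝ (A : E (n + 1)) (x : E (n + 1)) • (A : E (n + 1))‖ := rfl
      rw [h4] at h3
      rw [← h3]
      refine Finset.sum_congr rfl fun i _ => ?_
      rw [Real.norm_eq_abs, sq_abs, Submodule.coe_inner]
      congr 1
      show inner ℝ (x : E (n + 1)) ((b i : (ℝ ∙ (A : E (n + 1)))ᗮ) : E (n + 1)) =
        inner ℝ ((x : E (n + 1)) - inner ℝ (A : E (n + 1)) (x : E (n + 1)) • (A : E (n + 1)))
          ((b i : (ℝ ∙ (A : E (n + 1)))ᗮ) : E (n + 1))
      rw [inner_sub_left, real_inner_smul_left, hb i]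
      simp
    rw [h2, mul_one]
  rw [← hsum, Finset.mul_sum]
  have h3 : ∀ i ∈ Finset.univ, ‖ξ‖ ^ 2 / n * ∫ x : Sph n,
      h (InnerProductGeometry.angle (A : E (n + 1)) (x : E (n + 1))) *
        tc (A : E (n + 1)) x (b i : (ℝ ∙ (A : E (n + 1)))ᗮ) ^ 2 ∂(surf n) =
      (1 / n) * ∫ x : Sph n, h (InnerProductGeometry.angle (A : E (n + 1)) (x : E (n + 1))) *
        tc (A : E (n + 1)) x ξ ^ 2 ∂(surf n) := by
    intro i _
    rw [isoS_unit A h ξ _ hξ (hb i) (hb1 i)]
    ring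
  rw [Finset.sum_congr rfl h3, Finset.sum_const, Finset.card_univ, Fintype.card_fin, nsmul_eq_mul]
  field_simp

end Pool.Agent.NE
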