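import Pool.Agent.NE.SDiv

set_option autoImplicit false

open MeasureTheory Set
open scoped ENNReal NNReal ContDiff Gradient

namespace Pool.Agent.NE

lemma slip_fderiv_self {n : ℕ} (ψ : E (n + 1) → ℝ)
    (hom : ∀ t : ℝ, 0 < t → ∀ x, ψ (t • x) = ψ x) (x : E (n + 1)) : fderiv ℝ ψ x x = 0 := by
  by_cases hd : DifferentiableAt ℝ ψ x
  · have h1 : HasDerivAt (fun t : ℝ => (1 + t) • x) ((1 : ℝ) • x) 0 :=
      ((hasDerivAt_id (0 : ℝ)).const_add 1).smul_const x
    have h2 : HasDerivAt (fun t : ℝ => ψ ((1 + t) • x)) (fderiv ℝ ψ x ((1 : ℝ) • x)) 0 := by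
      have h3 : HasFDerivAt ψ (fderiv ℝ ψ x) ((1 + (0 : ℝ)) • x) := by
        simpa using hd.hasFDerivAt
      exact h3.comp_hasDerivAt (0 : ℝ) h1
    have h4 : HasDerivAt (fun t : ℝ => ψ ((1 + t) • x)) 0 0 := by
      refine (hasDerivAt_const (0 : ℝ) (ψ x)).congr_of_eventuallyEq ?_
      filter_upwards [Ioi_mem_nhds (show (-1 : ℝ) < 0 by norm_num)] with t ht
      exact hom _ (by have : -1 < t := ht; linarith) x
    simpa using h2.unique h4
  · rw [fderiv_zero_of_not_differentiableAt hd]; simp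

lemma slip_hasFDerivAt_dir {n : ℕ} (x : E (n + 1)) (hx : ‖x‖ = 1) :
    ∃ L : E (n + 1) →L[ℝ] E (n + 1), HasFDerivAt (fun y : E (n + 1) => ‖y‖⁻¹ • y) L x ∧
      ∀ v, L v = v - inner ℝ x v • x := by
  have h0 : HasFDerivAt (fun y : E (n + 1) => ‖y‖ ^ 2) (2 • innerSL ℝ x) x :=
    (hasStrictFDerivAt_norm_sq x).hasFDerivAt
  have h1 : HasFDerivAt (fun y : E (n + 1) => √(‖y‖ ^ 2))
      ((1 / (2 * √(‖x‖ ^ 2))) • (2 • innerSL ℝ x)) x := h0.sqrt (by simp [hx])
  have h2 : HasFDerivAt (fun y : E (n + 1) => ‖y‖)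
      ((1 / (2 * √(‖x‖ ^ 2))) • (2 • innerSL ℝ x)) x := by
    simpa [Real.sqrt_sq (norm_nonneg _)] using h1
  have h3 : HasFDerivAt (fun y : E (n + 1) => ‖y‖⁻¹)
      ((-(‖x‖ ^ 2)⁻¹) • ((1 / (2 * √(‖x‖ ^ 2))) • (2 • innerSL ℝ x))) x :=
    (hasDerivAt_inv (by rw [hx]; norm_num)).comp_hasFDerivAt x h2
  have h4 := h3.smul (hasFDerivAt_id x)
  refine ⟨_, h4, fun v => ?_⟩
  simp [hx, innerSL_apply_apply]
  module

lemma slip_ext {n : ℕ} {φ : E (n + 1) → ℝ} (hφ : ContDiff ℝ ∞ φ) (x : E (n + 1)) (hx : ‖x‖ = 1) :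
    DifferentiableAt ℝ (fun y => φ (‖y‖⁻¹ • y)) x ∧
    ∀ v, fderiv ℝ (fun y => φ (‖y‖⁻¹ • y)) x v = fderiv ℝ φ x (v - inner ℝ x v • x) := by
  obtain ⟨L, hL, hv⟩ := slip_hasFDerivAt_dir x hx
  have h1 : HasFDerivAt φ (fderiv ℝ φ x) ((fun y : E (n + 1) => ‖y‖⁻¹ • y) x) := by
    simpa [hx] using (hφ.differentiable (by simp) x).hasFDerivAt
  have h2 : HasFDerivAt (fun y => φ (‖y‖⁻¹ • y)) ((fderiv ℝ φ x).comp L) x :=
    HasFDerivAt.comp x h1 hL
  refine ⟨h2.differentiableAt, fun v => ?_⟩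
  have h3 : fderiv ℝ (fun y => φ (‖y‖⁻¹ • y)) x = (fderiv ℝ φ x).comp L := h2.fderiv
  rw [h3, ContinuousLinearMap.comp_apply, hv]

lemma slip_lip {n : ℕ} {φ : E (n + 1) → ℝ} (hφ : ContDiff ℝ ∞ φ) :
    ∃ K : ℝ≥0, LipschitzOnWith K φ (Metric.sphere 0 1) := by
  have hc : Continuous (fun x => ‖fderiv ℝ φ x‖₊) := (hφ.continuous_fderiv (by simp)).nnnorm
  obtain ⟨K, hK⟩ := (isCompact_closedBall (0 : E (n + 1)) 1).bddAbove_image hc.continuousOn
  refine ⟨K, LipschitzOnWith.mono ?_ Metric.sphere_subset_closedBall⟩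
  refine (convex_closedBall (0 : E (n + 1)) 1).lipschitzOnWith_of_nnnorm_fderiv_le
    (fun x _ => hφ.differentiable (by simp) x) (fun x hx => hK ⟨x, hx, rfl⟩)

lemma slip_mul_lip {n : ℕ} {ψ φ : E (n + 1) → ℝ} {C K : ℝ≥0}
    (hl : LipschitzOnWith C ψ (Metric.sphere 0 1)) (hk : LipschitzOnWith K φ (Metric.sphere 0 1)) :
    ∃ D : ℝ≥0, LipschitzOnWith D (fun x => ψ x * φ x) (Metric.sphere 0 1) := by
  obtain ⟨A, hA⟩ := (isCompact_sphere (0 : E (n + 1)) 1).exists_bound_of_continuousOn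
    hl.continuousOn
  obtain ⟨B, hB⟩ := (isCompact_sphere (0 : E (n + 1)) 1).exists_bound_of_continuousOn
    hk.continuousOn
  refine ⟨(|A| * K + |B| * C).toNNReal, LipschitzOnWith.of_dist_le_mul fun x hx y hy => ?_⟩
  rw [Real.coe_toNNReal _ (by positivity), Real.dist_eq]
  have h1 := hl.dist_le_mul x hx y hy
  have h2 := hk.dist_le_mul x hx y hy
  rw [Real.dist_eq] at h1 h2
  have h3 : |ψ x| ≤ |A| := (hA x hx).trans (le_abs_self A)
  have h4 : |φ y| ≤ |B| := (hB y hy).trans (le_abs_self B)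
  calc |ψ x * φ x - ψ y * φ y| = |ψ x * (φ x - φ y) + φ y * (ψ x - ψ y)| := by ring_nf
    _ ≤ |ψ x * (φ x - φ y)| + |φ y * (ψ x - ψ y)| := abs_add_le _ _
    _ = |ψ x| * |φ x - φ y| + |φ y| * |ψ x - ψ y| := by rw [abs_mul, abs_mul]
    _ ≤ |A| * (K * dist x y) + |B| * (C * dist x y) := by gcongr
    _ = _ := by ring

/-- The classical gradient of a Lipschitz function, homogeneous of degree zero, is its weak gradient
on the sphere. -/
theorem weakGrad_of_lip {n : ℕ} {Ω : Set (Sph n)} (ψ : E (n + 1) → ℝ)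
    (hom : ∀ t : ℝ, 0 < t → ∀ x, ψ (t • x) = ψ x) {C : ℝ≥0}
    (hl : LipschitzOnWith C ψ (Metric.sphere 0 1)) :
    IsWeakGradS Ω (fun x => ψ x) (fun x => ∇ ψ (x : E (n + 1))) := by
  have hgr : ∀ x v : E (n + 1), inner ℝ (∇ ψ x) v = fderiv ℝ ψ x v := fun x v => by
    rw [gradient, InnerProductSpace.toDual_symm_apply]
  refine ⟨Filter.Eventually.of_forall fun x => by rw [hgr, slip_fderiv_self ψ hom], ?_⟩
  intro φ hφ hsupp v
  -- the product with the extension of `φ`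
  set φt : E (n + 1) → ℝ := fun y => φ (‖y‖⁻¹ • y) with hφt
  have hsph : ∀ x ∈ Metric.sphere (0 : E (n + 1)) 1, φt x = φ x := fun x hx => by
    have : ‖x‖ = 1 := by simpa using hx
    simp [hφt, this]
  have homt : ∀ t : ℝ, 0 < t → ∀ x, φt (t • x) = φt x := fun t ht x => by
    simp only [hφt]
    congr 1
    rw [norm_smul, Real.norm_of_nonneg ht.le, mul_inv, smul_smul]
    congr 1
    field_simp
  obtain ⟨K, hK⟩ := slip_lip hφ
  have hKt : LipschitzOnWith K φt (Metric.sphere 0 1) := by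
    intro x hx y hy
    rw [hsph x hx, hsph y hy]
    exact hK hx hy
  obtain ⟨D, hD⟩ := slip_mul_lip hl hKt
  obtain ⟨d1, b1, e1⟩ := sphere_div ψ hom hl
  obtain ⟨-, b2, e2⟩ := sphere_div (fun x => ψ x * φt x)
    (fun t ht x => by rw [hom t ht, homt t ht]) hD
  -- pointwise
  have hpt : ∀ᵐ x : Sph n ∂(surf n), fderiv ℝ (fun x => ψ x * φt x) (x : E (n + 1)) v =
      ψ x * fderiv ℝ φ x (v - inner ℝ (x : E (n + 1)) v • (x : E (n + 1))) +
        inner ℝ (∇ ψ (x : E (n + 1))) v * φ x := by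
    filter_upwards [d1] with x hx
    have hx1 : ‖(x : E (n + 1))‖ = 1 := by simp
    obtain ⟨f1, f2⟩ := slip_ext hφ (x : E (n + 1)) hx1
    have := (hx.hasFDerivAt.mul f1.hasFDerivAt).fderiv
    have h3 : fderiv ℝ (fun x => ψ x * φt x) (x : E (n + 1)) =
      ψ x • fderiv ℝ φt x + φt x • fderiv ℝ ψ x := this
    rw [h3, add_apply, smul_apply,
      smul_apply, hsph x x.2, hgr, smul_eq_mul, smul_eq_mul]
    have h4 : fderiv ℝ φt (x : E (n + 1)) v = _ := f2 v
    rw [h4]; ring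
  have hψc : Continuous (fun x : Sph n => ψ x) :=
    continuousOn_iff_continuous_domRestrict.1 hl.continuousOn
  have hφc : Continuous (fun x : Sph n => φ x) := hφ.continuous.comp continuous_subtype_val
  have hφm : Continuous (fun x : Sph n => ψ x * φ x * inner ℝ (x : E (n + 1)) v) :=
    (hψc.mul hφc).mul (continuous_subtype_val.inner continuous_const)
  have hint : ∀ f : Sph n → ℝ, Continuous f → Integrable f (surf n) := fun f hf =>
    hf.integrable_of_hasCompactSupport (HasCompactSupport.of_compactSpace _)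
  have hi1 : Integrable (fun x : Sph n => inner ℝ (∇ ψ (x : E (n + 1))) v * φ x) (surf n) := by
    obtain ⟨B, hB⟩ := (isCompact_univ : IsCompact (univ : Set (Sph n))).exists_bound_of_continuousOn
      hφc.continuousOn
    refine Integrable.mono' (integrable_const (2 * (C : ℝ) * ‖v‖ * B)) ?_ ?_
    · have h1 : Measurable fun x : E (n + 1) => fderiv ℝ ψ x v :=
        measurable_fderiv_apply_const ℝ ψ v
      have h2 : Measurable fun x : Sph n => inner ℝ (∇ ψ (x : E (n + 1))) v * φ x := by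
        simp_rw [hgr]
        exact (h1.comp measurable_subtype_coe).mul hφc.measurable
      exact h2.aestronglyMeasurable
    · refine Filter.Eventually.of_forall fun x => ?_
      rw [hgr, norm_mul]
      have h1 : ‖fderiv ℝ ψ (x : E (n + 1)) v‖ ≤ 2 * C * ‖v‖ :=
        ((fderiv ℝ ψ (x : E (n + 1))).le_opNorm v).trans (by gcongr; exact b1 x)
      have h2 := hB x (mem_univ x)
      gcongr
  have hsd : ∀ x : Sph n, sdiv φ v x =
      fderiv ℝ φ x (v - inner ℝ (x : E (n + 1)) v • (x : E (n + 1))) -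
        n * (inner ℝ (x : E (n + 1)) v * φ x) := fun x => rfl
  -- outside `Ω`
  have hout : ∀ x : Sph n, x ∉ Ω → φ x = 0 ∧ sdiv φ v x = 0 := by
    intro x hx
    have hx1 : ‖(x : E (n + 1))‖ = 1 := by simp
    have hnot : x ∉ tsupport (fun x : Sph n => φ x) := fun h => hx (hsupp h)
    have hev := notMem_tsupport_iff_eventuallyEq.1 hnot
    have h0 : φ x = 0 := hev.eq_of_nhds
    refine ⟨h0, ?_⟩
    rw [hsd, h0, mul_zero, mul_zero, sub_zero]
    obtain ⟨f1, f2⟩ := slip_ext hφ (x : E (n + 1)) hx1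
    rw [← f2 v]
    have hz : (fun y => φ (‖y‖⁻¹ • y)) =ᶠ[nhds (x : E (n + 1))] fun _ => (0 : ℝ) := by
      rw [Filter.EventuallyEq, nhds_subtype_eq_comap] at hev
      obtain ⟨U, hU, hUs⟩ := Filter.mem_comap.1 hev
      have hcont : ContinuousAt (fun y : E (n + 1) => ‖y‖⁻¹ • y) (x : E (n + 1)) := by
        obtain ⟨L, hL, -⟩ := slip_hasFDerivAt_dir (x : E (n + 1)) hx1
        exact hL.continuousAt
      have hmem : U ∈ nhds ((fun y : E (n + 1) => ‖y‖⁻¹ • y) (x : E (n + 1))) := by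
        simpa [hx1] using hU
      have hne : ∀ᶠ y in nhds (x : E (n + 1)), y ≠ 0 :=
        isOpen_ne.mem_nhds (by intro h; rw [h] at hx1; simp at hx1)
      filter_upwards [hcont hmem, hne] with y hy hy0
      have hn1 : ‖(‖y‖⁻¹ • y)‖ = 1 := by
        rw [norm_smul, norm_inv, norm_norm, inv_mul_cancel₀ (norm_ne_zero_iff.mpr hy0)]
      have := hUs (show (⟨‖y‖⁻¹ • y, by simpa using hn1⟩ : Sph n) ∈ Subtype.val ⁻¹' U from hy)
      exact this
    rw [hz.fderiv_eq]; simp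
  rw [setIntegral_eq_integral_of_forall_compl_eq_zero
      (fun x hx => by rw [(hout x hx).2, mul_zero]),
    setIntegral_eq_integral_of_forall_compl_eq_zero
      (fun x hx => by rw [(hout x hx).1, mul_zero])]
  have key := e2 v
  rw [integral_congr_ae hpt] at key
  have hcs : Continuous (fun x : Sph n => ψ x * sdiv φ v x) := hψc.mul (sdiv_cont hφ v)
  have hsplit : ∀ x : Sph n,
      ψ x * fderiv ℝ φ x (v - inner ℝ (x : E (n + 1)) v • (x : E (n + 1))) +
        inner ℝ (∇ ψ (x : E (n + 1))) v * φ x =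
      (ψ x * sdiv φ v x + n * (ψ x * φ x * inner ℝ (x : E (n + 1)) v)) +
        inner ℝ (∇ ψ (x : E (n + 1))) v * φ x := fun x => by rw [hsd]; ring
  simp_rw [hsplit] at key
  have hc2 : Continuous (fun x : Sph n => (n : ℝ) * (ψ x * φ x * inner ℝ (x : E (n + 1)) v)) :=
    continuous_const.mul hφm
  have hc3 : Continuous (fun x : Sph n => ψ x * sdiv φ v x +
      (n : ℝ) * (ψ x * φ x * inner ℝ (x : E (n + 1)) v)) := hcs.add hc2
  rw [integral_add (hint _ hc3) hi1, integral_add (hint _ hcs) (hint _ hc2),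
    integral_const_mul] at key
  have h5 : ∫ x : Sph n, ψ x * φt x * inner ℝ (x : E (n + 1)) v ∂(surf n) =
      ∫ x : Sph n, ψ x * φ x * inner ℝ (x : E (n + 1)) v ∂(surf n) := by
    apply integral_congr_ae
    refine Filter.Eventually.of_forall fun x => ?_
    simp only [hsph x x.2]
  rw [h5] at key
  linarith

end Pool.Agent.NE
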