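import Pool.Agent.NE.STools
import Pool.Agent.NE.OdeCap

set_option autoImplicit false

open MeasureTheory Set
open scoped ENNReal Topology

namespace Pool.Agent.NE

/-- Existence of the spherical profile. -/
theorem exists_sprofile {n : ℕ} (hn : 1 ≤ n) {R : ℝ} (hR : 0 < R) (hR' : R ≤ Real.pi / 2) :
    ∃ (μ : ℝ) (g dg : ℝ → ℝ), IsSProfile n R μ g dg := by
  have hpi := Real.pi_pos
  obtain ⟨μ, g0, dg0, h⟩ := exists_cap (κ := 1) (s := Real.sin) (c := Real.cos) hn hR zero_le_one
    Real.sin_zero Real.cos_zero (fun r => Real.hasDerivAt_sin r)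
    (fun r => by simpa using Real.hasDerivAt_cos r)
    (fun r hr => Real.cos_pos_of_mem_Ioo ⟨by linarith [hr.1], by linarith [hr.2]⟩)
  have hmem : ∀ r : ℝ, 0 ≤ r → min r R ∈ Icc 0 R := fun r hr => ⟨le_min hr hR.le, min_le_right _ _⟩
  have hmem' : ∀ r : ℝ, 0 < r → min r R ∈ Ioc 0 R := fun r hr => ⟨lt_min hr hR, min_le_right _ _⟩
  have hcg : ContinuousOn (fun r => g0 (min r R)) (Ici 0) :=
    h.g_cont.comp (by fun_prop) (fun r hr => hmem r hr)
  have hcd : ContinuousOn (fun r => dg0 (min r R)) (Ici 0) :=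
    h.dg_cont.comp (by fun_prop) (fun r hr => hmem r hr)
  have hder : ∀ r, 0 < r → HasDerivAt (fun r => g0 (min r R)) (dg0 (min r R)) r := by
    intro r hr
    rcases lt_trichotomy r R with hlt | heq | hgt
    · rw [min_eq_left hlt.le]
      apply (h.g_deriv r ⟨hr, hlt⟩).congr_of_eventuallyEq
      filter_upwards [Iio_mem_nhds hlt] with x hx
      rw [min_eq_left (le_of_lt hx)]
    · subst heq
      rw [min_self, h.dg_at_R]
      have hl : HasDerivWithinAt g0 0 (Iic r) r := by
        apply hasDerivWithinAt_Iic_of_tendsto_deriv (s := Ioo 0 r)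
        · intro x hx
          exact (h.g_deriv x hx).differentiableAt.differentiableWithinAt
        · exact (h.g_cont r ⟨hr.le, le_rfl⟩).mono Ioo_subset_Icc_self
        · exact Ioo_mem_nhdsLT hr
        · have h1 : Filter.Tendsto dg0 (𝓝[<] r) (𝓝 0) := by
            have := (h.dg_cont r ⟨hr.le, le_rfl⟩).tendsto
            rw [h.dg_at_R] at this
            refine this.mono_left ?_
            rw [← nhdsWithin_Ioo_eq_nhdsLT hr]
            exact nhdsWithin_mono _ Ioo_subset_Icc_self
          refine h1.congr' ?_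
          filter_upwards [Ioo_mem_nhdsLT hr] with x hx
          exact (h.g_deriv x hx).deriv.symm
      have h1 : HasDerivWithinAt (fun x => g0 (min x r)) 0 (Iic r) r := by
        apply hl.congr
        · intro x hx
          rw [min_eq_left hx]
        · rw [min_self]
      have h2 : HasDerivWithinAt (fun x => g0 (min x r)) 0 (Ici r) r := by
        apply (hasDerivWithinAt_const r (Ici r) (g0 r)).congr
        · intro x hx
          rw [min_eq_right hx]
        · rw [min_self]
      have h3 := h1.union h2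
      rw [Iic_union_Ici, hasDerivWithinAt_univ] at h3
      exact h3
    · rw [min_eq_right hgt.le, h.dg_at_R]
      apply (hasDerivAt_const r (g0 R)).congr_of_eventuallyEq
      filter_upwards [Ioi_mem_nhds hgt] with x hx
      rw [min_eq_right (le_of_lt hx)]
  have hdp : ∀ r, 0 ≤ r → 0 ≤ dg0 (min r R) := by
    intro r hr
    rcases lt_or_ge r R with h1 | h1
    · rw [min_eq_left h1.le]
      exact (h.dg_pos r ⟨hr, h1⟩).le
    · rw [min_eq_right h1, h.dg_at_R]
  have hd1 : ∀ r, 0 ≤ r → dg0 (min r R) ≤ 1 := by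
    intro r hr
    have := h.dg_anti (left_mem_Icc.2 hR.le) (hmem r hr) (hmem r hr).1
    rwa [h.dg_at_zero] at this
  have hgR : 0 < g0 R := h.g_pos R ⟨hR, le_rfl⟩
  -- monotonicity of g0
  have hmono : MonotoneOn g0 (Icc 0 R) := by
    apply monotoneOn_of_deriv_nonneg (convex_Icc 0 R) h.g_cont
    · intro x hx
      rw [interior_Icc] at hx
      exact (h.g_deriv x hx).differentiableAt.differentiableWithinAt
    · intro x hx
      rw [interior_Icc] at hx
      rw [(h.g_deriv x hx).deriv]
      exact (h.dg_pos x ⟨hx.1.le, hx.2⟩).le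
  -- the limit at zero
  have hr0 : HasDerivWithinAt g0 1 (Ici 0) 0 := by
    apply hasDerivWithinAt_Ici_of_tendsto_deriv (s := Ioo 0 R)
    · intro x hx
      exact (h.g_deriv x hx).differentiableAt.differentiableWithinAt
    · exact (h.g_cont 0 ⟨le_rfl, hR.le⟩).mono Ioo_subset_Icc_self
    · exact Ioo_mem_nhdsGT hR
    · have h1 : Filter.Tendsto dg0 (𝓝[>] 0) (𝓝 1) := by
        have := (h.dg_cont 0 ⟨le_rfl, hR.le⟩).tendsto
        rw [h.dg_at_zero] at this
        refine this.mono_left ?_
        rw [← nhdsWithin_Ioo_eq_nhdsGT hR]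
        exact nhdsWithin_mono _ Ioo_subset_Icc_self
      refine h1.congr' ?_
      filter_upwards [Ioo_mem_nhdsGT hR] with x hx
      exact (h.g_deriv x hx).deriv.symm
  have hlim0 : Filter.Tendsto (fun r => g0 r / Real.sin r) (𝓝[>] 0) (𝓝 1) := by
    have h1 : Filter.Tendsto (fun r => g0 r / r) (𝓝[>] 0) (𝓝 1) := by
      have h2 := hr0.Ioi_of_Ici
      rw [hasDerivWithinAt_iff_tendsto_slope' (by simp)] at h2
      refine h2.congr' ?_
      filter_upwards [self_mem_nhdsWithin] with x hx
      rw [slope_def_field, h.g_zero, sub_zero, sub_zero]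
    have h2 : Filter.Tendsto (fun r => Real.sin r / r) (𝓝[>] 0) (𝓝 1) := by
      have h3 : HasDerivWithinAt Real.sin 1 (Ioi 0) 0 := by
        simpa using (Real.hasDerivAt_sin 0).hasDerivWithinAt (s := Ioi 0)
      rw [hasDerivWithinAt_iff_tendsto_slope' (by simp)] at h3
      refine h3.congr' ?_
      filter_upwards [self_mem_nhdsWithin] with x hx
      rw [slope_def_field, Real.sin_zero, sub_zero, sub_zero]
    have h3 := h1.div h2 one_ne_zero
    rw [div_one] at h3
    refine h3.congr' ?_
    filter_upwards [self_mem_nhdsWithin] with x hx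
    have hx' : (0 : ℝ) < x := hx
    change g0 x / x / (Real.sin x / x) = g0 x / Real.sin x
    rw [div_div_div_cancel_right₀ hx'.ne']
  have hle0 : ∀ r ∈ Icc 0 R, g0 r ≤ Real.sin r := by
    intro r hr
    rcases eq_or_lt_of_le hr.1 with h0 | h0
    · rw [← h0, h.g_zero, Real.sin_zero]
    · have hs : 0 < Real.sin r := Real.sin_pos_of_pos_of_lt_pi h0 (by linarith [hr.2])
      have h1 : g0 r / Real.sin r ≤ 1 := by
        refine ge_of_tendsto hlim0 ?_
        filter_upwards [Ioo_mem_nhdsGT h0] with x hx
        exact h.ratio_anti ⟨hx.1, hx.2.le.trans hr.2⟩ ⟨h0, hr.2⟩ hx.2.le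
      rwa [div_le_one hs] at h1
  -- the functions
  have hA : ∀ r, r ≤ Real.pi / 2 → min (Real.pi - r) R = R := fun r hr =>
    min_eq_right (by linarith)
  set g : ℝ → ℝ := fun r => g0 (min r R) + g0 (min (Real.pi - r) R) - g0 R with hgdef
  set dg : ℝ → ℝ := fun r => dg0 (min r R) - dg0 (min (Real.pi - r) R) with hdgdef
  have hgs : ∀ r, g (Real.pi - r) = g r := by
    intro r
    simp only [hgdef, sub_sub_cancel]
    ring
  have hdgs : ∀ r, dg (Real.pi - r) = -dg r := by
    intro r
    simp only [hdgdef, sub_sub_cancel]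
    ring
  have hg1 : ∀ r, r ≤ Real.pi / 2 → g r = g0 (min r R) := by
    intro r hr
    simp only [hgdef, hA r hr]
    ring
  have hdg1 : ∀ r, r ≤ Real.pi / 2 → dg r = dg0 (min r R) := by
    intro r hr
    simp only [hdgdef, hA r hr, h.dg_at_R]
    ring
  have hgR' : g R = g0 R := by rw [hg1 R hR', min_self]
  have hcont1 : ContinuousOn g (Icc 0 Real.pi) := by
    have h1 : ContinuousOn (fun r => g0 (min (Real.pi - r) R)) (Icc 0 Real.pi) := by
      refine hcg.comp (f := fun r => Real.pi - r) (by fun_prop) ?_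
      intro r hr
      simp only [mem_Ici]
      linarith [hr.2]
    exact ((hcg.mono Icc_subset_Ici_self).add h1).sub continuousOn_const
  have hcont2 : ContinuousOn dg (Icc 0 Real.pi) := by
    have h1 : ContinuousOn (fun r => dg0 (min (Real.pi - r) R)) (Icc 0 Real.pi) := by
      refine hcd.comp (f := fun r => Real.pi - r) (by fun_prop) ?_
      intro r hr
      simp only [mem_Ici]
      linarith [hr.2]
    exact (hcd.mono Icc_subset_Ici_self).sub h1
  have hderg : ∀ r ∈ Ioo 0 Real.pi, HasDerivAt g (dg r) r := by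
    intro r hr
    have h1 := hder r hr.1
    have h2 : HasDerivAt (fun r => g0 (min (Real.pi - r) R)) (-dg0 (min (Real.pi - r) R)) r := by
      have h3 : HasDerivAt (fun r : ℝ => Real.pi - r) (-1) r := by
        simpa using (hasDerivAt_id' r).const_sub Real.pi
      have h4 := (hder (Real.pi - r) (by linarith [hr.2])).comp r h3
      rw [mul_neg_one] at h4
      exact h4
    have h3 := (h1.add h2).sub_const (g0 R)
    have h4 : dg0 (min r R) + -dg0 (min (Real.pi - r) R) = dg r := by
      simp only [hdgdef]; ring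
    rw [h4] at h3
    exact h3
  have hwlog : ∀ P : ℝ → Prop, (∀ r, 0 ≤ r → r ≤ Real.pi / 2 → P r) →
      (∀ r, P (Real.pi - r) → P r) → ∀ r ∈ Icc 0 Real.pi, P r := by
    intro P h1 h2 r hr
    rcases le_total r (Real.pi / 2) with h3 | h3
    · exact h1 r hr.1 h3
    · exact h2 r (h1 _ (by linarith [hr.2]) (by linarith))
  have hminle : ∀ r ∈ Icc 0 R, min r R = r := fun r hr => min_eq_left hr.2
  have hgI : ∀ r ∈ Icc 0 R, g r = g0 r := fun r hr => by
    rw [hg1 r (hr.2.trans hR'), hminle r hr]
  have hdgI : ∀ r ∈ Icc 0 R, dg r = dg0 r := fun r hr => by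
    rw [hdg1 r (hr.2.trans hR'), hminle r hr]
  refine ⟨μ, g, dg, ?_⟩
  exact {
    R_pos := hR
    R_le := hR'
    μ_pos := h.μ_pos
    cap := {
      R_pos := hR
      κ_nonneg := zero_le_one
      s_zero := Real.sin_zero
      c_zero := Real.cos_zero
      s_deriv := h.s_deriv
      c_deriv := h.c_deriv
      c_pos := h.c_pos
      μ_pos := h.μ_pos
      μ_ge := h.μ_ge
      g_zero := by rw [hgI 0 ⟨le_rfl, hR.le⟩, h.g_zero]
      dg_at_zero := by rw [hdgI 0 ⟨le_rfl, hR.le⟩, h.dg_at_zero]
      dg_at_R := by rw [hdgI R ⟨hR.le, le_rfl⟩, h.dg_at_R]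
      g_cont := h.g_cont.congr hgI
      dg_cont := h.dg_cont.congr hdgI
      g_deriv := fun r hr => hderg r ⟨hr.1, by linarith [hr.2]⟩
      ode := by
        intro r hr
        have h1 := h.ode r hr
        rw [hgI r ⟨hr.1.le, hr.2.le⟩, hdgI r ⟨hr.1.le, hr.2.le⟩]
        apply h1.congr_of_eventuallyEq
        filter_upwards [Ioo_mem_nhds hr.1 hr.2] with x hx
        exact hdgI x ⟨hx.1.le, hx.2.le⟩
      g_pos := fun r hr => by
        rw [hgI r ⟨hr.1.le, hr.2⟩]
        exact h.g_pos r hr
      dg_pos := fun r hr => by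
        rw [hdgI r ⟨hr.1, hr.2.le⟩]
        exact h.dg_pos r hr
      dg_anti := by
        intro a ha b hb hab
        rw [hdgI a ha, hdgI b hb]
        exact h.dg_anti ha hb hab
      ratio_anti := by
        intro a ha b hb hab
        have := h.ratio_anti ha hb hab
        simp only at this ⊢
        rw [hgI a ⟨ha.1.le, ha.2⟩, hgI b ⟨hb.1.le, hb.2⟩]
        exact this }
    g_symm := hgs
    dg_symm := hdgs
    g_const := by
      intro r hr
      rw [hgR']
      simp only [hgdef, min_eq_right hr.1, min_eq_right (show R ≤ Real.pi - r by linarith [hr.2])]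
      ring
    dg_zero := by
      intro r hr
      simp only [hdgdef, min_eq_right hr.1,
        min_eq_right (show R ≤ Real.pi - r by linarith [hr.2])]
      ring
    g_cont := hcont1
    dg_cont := hcont2
    g_deriv := hderg
    g_pos := by
      intro r hr
      rcases le_total r (Real.pi / 2) with h3 | h3
      · rw [hg1 r h3]
        exact h.g_pos _ (hmem' r hr.1)
      · rw [← hgs r, hg1 _ (by linarith)]
        exact h.g_pos _ (hmem' _ (by linarith [hr.2]))
    g_le_sin := by
      apply hwlog
      · intro r h0 h1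
        rw [hg1 r h1]
        rcases le_total r R with h2 | h2
        · rw [min_eq_left h2]
          exact hle0 r ⟨h0, h2⟩
        · rw [min_eq_right h2]
          exact (hle0 R ⟨hR.le, le_rfl⟩).trans
            (Real.sin_le_sin_of_le_of_le_pi_div_two (by linarith) h1 h2)
      · intro r h1
        rw [hgs, Real.sin_pi_sub] at h1
        exact h1
    g_le := by
      apply hwlog
      · intro r h0 h1
        rw [hg1 r h1, hgR']
        exact hmono (hmem r h0) ⟨hR.le, le_rfl⟩ (hmem r h0).2
      · intro r h1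
        rw [hgs] at h1
        exact h1
    dg_le := by
      apply hwlog
      · intro r h0 h1
        rw [hdg1 r h1, abs_of_nonneg (hdp r h0)]
        exact hd1 r h0
      · intro r h1
        rw [hdgs, abs_neg] at h1
        exact h1
    lim_one := by
      refine hlim0.congr' ?_
      filter_upwards [Ioo_mem_nhdsGT hR] with x hx
      rw [hgI x ⟨hx.1.le, hx.2.le⟩] }

end Pool.Agent.NE
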