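import Pool.Agent.NE.SLip
import Pool.Agent.NE.SFieldLem
import Pool.Agent.NE.SFieldD
import Pool.Agent.NE.SFoldLem

set_option autoImplicit false

open MeasureTheory Set
open scoped ENNReal NNReal ContDiff Gradient

namespace Pool.Agent.NE

variable {n : ℕ} {R μ : ℝ} {g dg : ℝ → ℝ}

/-- The ambient trial map `x ↦ G_A(F_e(x))`, homogeneous of degree zero. -/
noncomputable def sTrialMap (g : ℝ → ℝ) (e A : Sph n) (x : E (n + 1)) : E (n + 1) :=
  Gs g (A : E (n + 1)) (fold (e : E (n + 1)) 0 x)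

/-- The weak gradient of `⟨Φ, ξ⟩` on the sphere. -/
noncomputable def sTrialGrad (Φ : E (n + 1) → E (n + 1)) (ξ x : E (n + 1)) : E (n + 1) :=
  ContinuousLinearMap.adjoint (fderiv ℝ Φ x) ξ

theorem measurable_sTrialGrad (Φ : E (n + 1) → E (n + 1)) (ξ : E (n + 1)) :
    Measurable fun x : Sph n => sTrialGrad Φ ξ (x : E (n + 1)) := by
  have h1 : Measurable (fderiv ℝ Φ) := measurable_fderiv ℝ Φ
  have h2 : Continuous fun L : E (n + 1) →L[ℝ] E (n + 1) => ContinuousLinearMap.adjoint L ξ :=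
    (ContinuousLinearMap.apply ℝ (E (n + 1)) ξ).continuous.comp
      (ContinuousLinearMap.adjoint :
        (E (n + 1) →L[ℝ] E (n + 1)) ≃ₗᵢ⋆[ℝ] (E (n + 1) →L[ℝ] E (n + 1))).continuous
  exact (h2.measurable.comp h1).comp measurable_subtype_coe

theorem sTrialMap_hom (e A : Sph n) {t : ℝ} (ht : 0 < t) (x : E (n + 1)) :
    sTrialMap g e A (t • x) = sTrialMap g e A x := by
  unfold sTrialMap
  rw [fold_hom _ _ ht.le, Gs_hom ht]

theorem norm_fold_unit (e : Sph n) {x : E (n + 1)} (hx : ‖x‖ = 1) :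
    ‖fold (e : E (n + 1)) 0 x‖ = 1 := by
  have h : x ∈ Metric.sphere (0 : E (n + 1)) 1 := by simpa using hx
  have h2 := (foldS e ⟨x, h⟩).2
  exact mem_sphere_zero_iff_norm.1 h2

theorem sTrialMap_lip (hg : IsSProfile n R μ g dg) (e A : Sph n) {x y : E (n + 1)}
    (hx : ‖x‖ = 1) (hy : ‖y‖ = 1) :
    ‖sTrialMap g e A x - sTrialMap g e A y‖ ≤ 2 * ‖x - y‖ := by
  have h1 := Gs_lip hg (A := (A : E (n + 1))) (by simp) (norm_fold_unit e hx)
    (norm_fold_unit e hy)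
  have h2 := fold_lip0 (e := (e : E (n + 1))) (by simp) x y
  unfold sTrialMap
  linarith

theorem sTrialMap_bound (hg : IsSProfile n R μ g dg) (e A : Sph n) (x : E (n + 1)) :
    ‖sTrialMap g e A x‖ ≤ g R :=
  Gs_bound hg (by simp) _

theorem norm_fderiv_sTrialMap (hg : IsSProfile n R μ g dg) (e A : Sph n) {x : E (n + 1)}
    (hx : ‖x‖ = 1) : ‖fderiv ℝ (sTrialMap g e A) x‖ ≤ 4 := by
  by_cases hd : DifferentiableAt ℝ (sTrialMap g e A) x
  · refine hd.hasFDerivAt.le_of_lip' (by norm_num) ?_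
    have hx0 : x ≠ 0 := by
      intro h; rw [h, norm_zero] at hx; norm_num at hx
    filter_upwards [isOpen_ne.mem_nhds hx0] with y hy
    have hy0 : 0 < ‖y‖ := norm_pos_iff.2 hy
    have h1 : sTrialMap g e A (‖y‖⁻¹ • y) = sTrialMap g e A y :=
      sTrialMap_hom e A (inv_pos.2 hy0) y
    have hy1 : ‖‖y‖⁻¹ • y‖ = 1 := by
      rw [norm_smul, norm_inv, norm_norm, inv_mul_cancel₀ hy0.ne']
    rw [← h1]
    have h2 := sTrialMap_lip hg e A hy1 hx
    have h3 : ‖‖y‖⁻¹ • y - x‖ ≤ 2 * ‖y - x‖ := by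
      have e1 : ‖y‖⁻¹ • y - x = (‖y‖⁻¹ • y - y) + (y - x) := by abel
      have e2 : ‖‖y‖⁻¹ • y - y‖ = |1 - ‖y‖| := by
        have : ‖y‖⁻¹ • y - y = (‖y‖⁻¹ - 1) • y := by rw [sub_smul, one_smul]
        rw [this, norm_smul, Real.norm_eq_abs]
        conv_lhs => rw [← abs_of_pos hy0]
        rw [← abs_mul, sub_mul, abs_of_pos hy0, inv_mul_cancel₀ hy0.ne', one_mul]
      have e3 : |1 - ‖y‖| ≤ ‖y - x‖ := by
        rw [← hx, norm_sub_rev y x]
        exact abs_norm_sub_norm_le x y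
      rw [e1]
      refine (norm_add_le _ _).trans ?_
      rw [e2]
      linarith
    linarith
  · rw [fderiv_zero_of_not_differentiableAt hd, norm_zero]
    norm_num

theorem norm_sTrialGrad_le (hg : IsSProfile n R μ g dg) (e A : Sph n) (ξ : E (n + 1))
    {x : E (n + 1)} (hx : ‖x‖ = 1) : ‖sTrialGrad (sTrialMap g e A) ξ x‖ ≤ 4 * ‖ξ‖ := by
  have h2 : ‖ContinuousLinearMap.adjoint (fderiv ℝ (sTrialMap g e A) x)‖ ≤ 4 := by
    rw [LinearIsometryEquiv.norm_map]; exact norm_fderiv_sTrialMap hg e A hx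
  refine (ContinuousLinearMap.le_opNorm _ _).trans ?_
  gcongr

/-- At almost every point of the sphere, the derivative of the trial map exists, and the square
of the norm of the gradient of `⟨Φ, ξ⟩` is `qs`. -/
theorem sTrialMap_ae (hn : 1 ≤ n) {Ω : Set (Sph n)} (hΩ : IsOpen Ω) (hg : IsSProfile n R μ g dg)
    (e A : Sph n) : ∀ᵐ x : Sph n ∂((surf n).restrict Ω),
      DifferentiableAt ℝ (sTrialMap g e A) (x : E (n + 1)) ∧
      ∀ ξ, inner ℝ (A : E (n + 1)) ξ = 0 →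
        ‖sTrialGrad (sTrialMap g e A) ξ (x : E (n + 1))‖ ^ 2 =
          qs g dg (A : E (n + 1)) (foldS e x) ξ := by
  have h1 : ∀ᵐ x : Sph n ∂((surf n).restrict Ω), inner ℝ (e : E (n + 1)) (x : E (n + 1)) ≠ 0 := by
    refine ae_restrict_of_ae ?_
    rw [ae_iff]
    simpa using surf_hyper e
  have hcont : Continuous fun x : Sph n => foldS e x :=
    foldS_cont.comp (continuous_const.prodMk continuous_id)
  have h2 : ∀ B : Sph n, ∀ᵐ x ∂((surf n).restrict Ω), foldS e x ≠ B := by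
    intro B
    have h3 := map_foldS_le hΩ.measurableSet e {B}
    have h4 : ((2 : ℝ≥0∞) • (surf n).restrict (hemi e)) {B} = 0 := by
      rw [Measure.smul_apply]
      have h5 : ((surf n).restrict (hemi e)) {B} ≤ 0 :=
        (Measure.restrict_apply_le _ _).trans (surf_point hn B).le
      rw [le_antisymm h5 bot_le, smul_zero]
    rw [h4, Measure.map_apply hcont.measurable (measurableSet_singleton B)] at h3
    rw [ae_iff]
    simp only [ne_eq, not_not]
    exact le_antisymm h3 bot_le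
  filter_upwards [h1, h2 A, h2 (-A)] with x hx1 hx2 hx3
  have hy : ‖fold (e : E (n + 1)) 0 (x : E (n + 1))‖ = 1 := norm_fold_unit e (by simp)
  obtain ⟨L, hL⟩ := fold_deriv0 (e := (e : E (n + 1))) (by simp) hx1
  obtain ⟨M, hM, hMf⟩ := Gs_deriv hg (A := (A : E (n + 1))) (by simp) hy
    (fun h => hx2 (Subtype.ext h)) (fun h => hx3 (Subtype.ext h))
  have hd : HasFDerivAt (sTrialMap g e A)
      (M.comp (L.toContinuousLinearEquiv : E (n + 1) →L[ℝ] E (n + 1))) (x : E (n + 1)) :=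
    HasFDerivAt.comp (g := Gs g (A : E (n + 1))) (f := fold (e : E (n + 1)) 0)
      (x : E (n + 1)) hM hL
  refine ⟨hd.differentiableAt, fun ξ hξ => ?_⟩
  have h6 := hMf ξ hξ
  have e1 : ‖sTrialGrad (sTrialMap g e A) ξ (x : E (n + 1))‖ =
      ‖(ContinuousLinearMap.adjoint M) ξ‖ := by
    unfold sTrialGrad
    rw [hd.fderiv, ContinuousLinearMap.adjoint_comp, ContinuousLinearMap.comp_apply]
    have h5 : ContinuousLinearMap.adjoint
        (L.toContinuousLinearEquiv : E (n + 1) →L[ℝ] E (n + 1)) =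
        (L.symm.toContinuousLinearEquiv : E (n + 1) →L[ℝ] E (n + 1)) := L.adjoint_eq_symm
    rw [h5]
    exact L.symm.norm_map _
  rw [e1, h6]
  rfl

theorem isWeakGradS_trial (hn : 1 ≤ n) {Ω : Set (Sph n)} (hΩ : IsOpen Ω)
    (hg : IsSProfile n R μ g dg) (e A : Sph n) (ξ : E (n + 1)) :
    IsWeakGradS Ω (fun x => inner ℝ (sTrialMap g e A x) ξ)
      (fun x => sTrialGrad (sTrialMap g e A) ξ x) := by
  have hhom : ∀ t : ℝ, 0 < t → ∀ x : E (n + 1),
      inner ℝ (sTrialMap g e A (t • x)) ξ = (inner ℝ (sTrialMap g e A x) ξ : ℝ) := by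
    intro t ht x
    rw [sTrialMap_hom e A ht]
  have hlip : LipschitzOnWith (Real.toNNReal (2 * ‖ξ‖))
      (fun x : E (n + 1) => (inner ℝ (sTrialMap g e A x) ξ : ℝ)) (Metric.sphere 0 1) := by
    apply LipschitzOnWith.of_dist_le_mul
    intro x hx y hy
    rw [Real.coe_toNNReal _ (by positivity), Real.dist_eq, ← inner_sub_left]
    refine (abs_real_inner_le_norm _ _).trans ?_
    have h1 := sTrialMap_lip hg e A (x := x) (y := y) (by simpa using hx) (by simpa using hy)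
    rw [dist_eq_norm]
    nlinarith [norm_nonneg ξ]
  have h := weakGrad_of_lip (Ω := Ω) _ hhom hlip
  have hae : (fun x : Sph n => ∇ (fun x : E (n + 1) => (inner ℝ (sTrialMap g e A x) ξ : ℝ))
      (x : E (n + 1))) =ᵐ[(surf n).restrict Ω]
      fun x : Sph n => sTrialGrad (sTrialMap g e A) ξ (x : E (n + 1)) := by
    filter_upwards [sTrialMap_ae hn hΩ hg e A] with x hx
    have h4 : HasFDerivAt (fun x => (inner ℝ (sTrialMap g e A x) ξ : ℝ))
        ((fderivInnerCLM ℝ (sTrialMap g e A x, ξ)).comp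
          ((fderiv ℝ (sTrialMap g e A) x).prod 0)) (x : E (n + 1)) :=
      hx.1.hasFDerivAt.inner ℝ (hasFDerivAt_const ξ (x : E (n + 1)))
    refine ext_inner_right ℝ fun v => ?_
    unfold gradient
    rw [InnerProductSpace.toDual_symm_apply, h4.fderiv]
    unfold sTrialGrad
    rw [ContinuousLinearMap.adjoint_inner_left, real_inner_comm]
    simp [fderivInnerCLM_apply]
  refine ⟨?_, ?_⟩
  · filter_upwards [h.1, hae] with x h1 h2
    rw [← h2]; exact h1
  · intro φ h1 h2 v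
    rw [h.2 φ h1 h2 v]
    congr 1
    apply integral_congr_ae
    filter_upwards [hae] with x hx
    rw [← hx]

theorem sTrial_weakGrad_congr {Ω : Set (Sph n)} {u u' : Sph n → ℝ} {G G' : Sph n → E (n + 1)}
    (h : IsWeakGradS Ω u G) (hu : u' =ᵐ[(surf n).restrict Ω] u)
    (hG : G' =ᵐ[(surf n).restrict Ω] G) : IsWeakGradS Ω u' G' := by
  refine ⟨?_, ?_⟩
  · filter_upwards [h.1, hG] with x h1 h2
    rw [h2]; exact h1
  intro φ h1 h2 v
  have e1 : ∫ x in Ω, u' x * sdiv φ v x ∂(surf n) = ∫ x in Ω, u x * sdiv φ v x ∂(surf n) := by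
    apply integral_congr_ae
    filter_upwards [hu] with x hx
    rw [hx]
  have e2 : ∫ x in Ω, inner ℝ (G' x) v * φ x ∂(surf n) =
      ∫ x in Ω, inner ℝ (G x) v * φ x ∂(surf n) := by
    apply integral_congr_ae
    filter_upwards [hG] with x hx
    rw [hx]
  rw [e1, e2]
  exact h.2 φ h1 h2 v

theorem memLp_sTrial {Ω : Set (Sph n)} (hg : IsSProfile n R μ g dg) (e A : Sph n)
    (ξ : E (n + 1)) :
    MemLp (fun x : Sph n => (inner ℝ (sTrialMap g e A x) ξ : ℝ)) 2 ((surf n).restrict Ω) := by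
  have hc : Continuous fun x : Sph n => sTrialMap g e A (x : E (n + 1)) := by
    have hl : LipschitzWith 2 fun x : Sph n => sTrialMap g e A (x : E (n + 1)) := by
      apply LipschitzWith.of_dist_le_mul
      intro x y
      rw [dist_eq_norm]
      have := sTrialMap_lip hg e A (x := x) (y := y) (by simp) (by simp)
      rw [Subtype.dist_eq, dist_eq_norm]
      simpa using this
    exact hl.continuous
  refine MemLp.of_bound (hc.inner continuous_const).aestronglyMeasurable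
    (g R * ‖ξ‖) (Filter.Eventually.of_forall fun x => ?_)
  refine (norm_inner_le_norm (𝕜 := ℝ) _ _).trans ?_
  have := sTrialMap_bound hg e A x
  gcongr

theorem memLp_sTrialGrad {Ω : Set (Sph n)} (hg : IsSProfile n R μ g dg) (e A : Sph n)
    (ξ : E (n + 1)) :
    MemLp (fun x : Sph n => sTrialGrad (sTrialMap g e A) ξ (x : E (n + 1))) 2
      ((surf n).restrict Ω) :=
  MemLp.of_bound (measurable_sTrialGrad _ ξ).aestronglyMeasurable (4 * ‖ξ‖)
    (Filter.Eventually.of_forall fun x => norm_sTrialGrad_le hg e A ξ (by simp))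

/-- The pair `(⟨Φ, ξ⟩, DΦᵀ ξ)`. -/
noncomputable def sTrialPair (Ω : Set (Sph n)) (hg : IsSProfile n R μ g dg) (e A : Sph n)
    (ξ : E (n + 1)) : Lp ℝ 2 ((surf n).restrict Ω) × Lp (E (n + 1)) 2 ((surf n).restrict Ω) :=
  ((memLp_sTrial hg e A ξ).toLp _, (memLp_sTrialGrad hg e A ξ).toLp _)

theorem sTrialPair_mem (hn : 1 ≤ n) {Ω : Set (Sph n)} (hΩ : IsOpen Ω)
    (hg : IsSProfile n R μ g dg) (e A : Sph n) (ξ : E (n + 1)) :
    sTrialPair Ω hg e A ξ ∈ H1S Ω :=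
  sTrial_weakGrad_congr (isWeakGradS_trial hn hΩ hg e A ξ) (memLp_sTrial hg e A ξ).coeFn_toLp
    (memLp_sTrialGrad hg e A ξ).coeFn_toLp

theorem sTrialPair_add (Ω : Set (Sph n)) (hg : IsSProfile n R μ g dg) (e A : Sph n)
    (ξ η : E (n + 1)) :
    sTrialPair Ω hg e A (ξ + η) = sTrialPair Ω hg e A ξ + sTrialPair Ω hg e A η := by
  have e1 : (memLp_sTrial (Ω := Ω) hg e A (ξ + η)).toLp _ =
      (memLp_sTrial hg e A ξ).toLp _ + (memLp_sTrial hg e A η).toLp _ := by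
    rw [← MemLp.toLp_add]
    congr 1
    ext x
    simp [inner_add_right]
  have e2 : (memLp_sTrialGrad (Ω := Ω) hg e A (ξ + η)).toLp _ =
      (memLp_sTrialGrad hg e A ξ).toLp _ + (memLp_sTrialGrad hg e A η).toLp _ := by
    rw [← MemLp.toLp_add]
    congr 1
    ext1 x
    simp [sTrialGrad]
  exact Prod.ext e1 e2

theorem sTrialPair_smul (Ω : Set (Sph n)) (hg : IsSProfile n R μ g dg) (e A : Sph n)
    (c : ℝ) (ξ : E (n + 1)) :
    sTrialPair Ω hg e A (c • ξ) = c • sTrialPair Ω hg e A ξ := by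
  have e1 : (memLp_sTrial (Ω := Ω) hg e A (c • ξ)).toLp _ =
      c • (memLp_sTrial hg e A ξ).toLp _ := by
    rw [← MemLp.toLp_const_smul]
    congr 1
    ext x
    simp [inner_smul_right]
  have e2 : (memLp_sTrialGrad (Ω := Ω) hg e A (c • ξ)).toLp _ =
      c • (memLp_sTrialGrad hg e A ξ).toLp _ := by
    rw [← MemLp.toLp_const_smul]
    congr 1
    ext1 x
    simp [sTrialGrad]
  exact Prod.ext e1 e2

/-- The linear map to `H¹`. -/
noncomputable def sTrialLin (hn : 1 ≤ n) {Ω : Set (Sph n)} (hΩ : IsOpen Ω)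
    (hg : IsSProfile n R μ g dg) (e A : Sph n) : E (n + 1) →ₗ[ℝ] H1S Ω where
  toFun ξ := ⟨sTrialPair Ω hg e A ξ, sTrialPair_mem hn hΩ hg e A ξ⟩
  map_add' ξ η := Subtype.ext (sTrialPair_add Ω hg e A ξ η)
  map_smul' c ξ := Subtype.ext (sTrialPair_smul Ω hg e A c ξ)

theorem sTrialLin_fst (hn : 1 ≤ n) {Ω : Set (Sph n)} (hΩ : IsOpen Ω)
    (hg : IsSProfile n R μ g dg) (e A : Sph n) (ξ : E (n + 1)) :
    ∀ᵐ x ∂((surf n).restrict Ω), ((sTrialLin hn hΩ hg e A ξ).1.1 : Sph n → ℝ) x =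
      inner ℝ (sTrialMap g e A x) ξ :=
  (memLp_sTrial hg e A ξ).coeFn_toLp

theorem sTrialLin_snd (hn : 1 ≤ n) {Ω : Set (Sph n)} (hΩ : IsOpen Ω)
    (hg : IsSProfile n R μ g dg) (e A : Sph n) (ξ : E (n + 1)) :
    ‖(sTrialLin hn hΩ hg e A ξ).1.2‖ ^ 2 =
      ∫ x in Ω, ‖sTrialGrad (sTrialMap g e A) ξ (x : E (n + 1))‖ ^ 2 ∂(surf n) := by
  have h1 : ‖(memLp_sTrialGrad (Ω := Ω) hg e A ξ).toLp _‖ ^ 2 =
      ∫ x in Ω, ‖sTrialGrad (sTrialMap g e A) ξ (x : E (n + 1))‖ ^ 2 ∂(surf n) := by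
    rw [← real_inner_self_eq_norm_sq, L2.inner_def]
    apply integral_congr_ae
    filter_upwards [(memLp_sTrialGrad (Ω := Ω) hg e A ξ).coeFn_toLp] with x hx
    rw [hx, real_inner_self_eq_norm_sq]
  exact h1

/-- The trial functions `⟨G_A(F_e(x)), ξ⟩` as elements of `H¹(Ω)`, and their Dirichlet energy. -/
theorem exists_trialS (hn : 1 ≤ n) {Ω : Set (Sph n)} (hΩ : IsOpen Ω)
    (hg : IsSProfile n R μ g dg) (e A : Sph n) :
    ∃ v : E (n + 1) →ₗ[ℝ] H1S Ω,
      (∀ ξ, ∀ᵐ x ∂((surf n).restrict Ω),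
        ((v ξ).1.1 : Sph n → ℝ) x = inner ℝ (Gs g (A : E (n + 1)) (foldS e x)) ξ) ∧
      (∀ ξ, inner ℝ (A : E (n + 1)) ξ = 0 →
        ‖(v ξ).1.2‖ ^ 2 = ∫ x in Ω, qs g dg (A : E (n + 1)) (foldS e x) ξ ∂(surf n)) := by
  refine ⟨sTrialLin hn hΩ hg e A, fun ξ => sTrialLin_fst hn hΩ hg e A ξ, fun ξ hξ => ?_⟩
  refine (sTrialLin_snd hn hΩ hg e A ξ).trans (integral_congr_ae ?_)
  filter_upwards [sTrialMap_ae hn hΩ hg e A] with x hx
  exact hx.2 ξ hξ

end Pool.Agent.NE
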