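import Pool.Agent.NE.Mat
import Pool.Agent.NE.Var
import Pool.Agent.NE.SProf
import Pool.Agent.NE.SBallH1
import Pool.Agent.NE.STrial
import Pool.Agent.NE.SComp
import Pool.Agent.NE.SCentre
import Pool.Agent.NE.SCap

set_option autoImplicit false

open MeasureTheory Set
open scoped ENNReal ContDiff

namespace Pool.Agent.NE

/-- First projection of `H¹(Ω)`. -/
noncomputable def iotS {n : ℕ} (Ω : Set (Sph n)) :
    H1S Ω →ₗ[ℝ] Lp ℝ 2 ((surf n).restrict Ω) :=
  (LinearMap.fst ℝ _ _).comp (H1S Ω).subtype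

/-- Second projection of `H¹(Ω)`. -/
noncomputable def grdS {n : ℕ} (Ω : Set (Sph n)) :
    H1S Ω →ₗ[ℝ] Lp (E (n + 1)) 2 ((surf n).restrict Ω) :=
  (LinearMap.snd ℝ _ _).comp (H1S Ω).subtype

lemma neumannS_eq {n : ℕ} (Ω : Set (Sph n)) (k : ℕ) :
    neumannS Ω k = lam (iotS Ω) (grdS Ω) k := rfl

lemma Gs_cont1 {n : ℕ} {R μ : ℝ} {g dg : ℝ → ℝ} (hg : IsSProfile n R μ g dg) (A : Sph n) :
    Continuous (fun y : Sph n => Gs g (A : E (n + 1)) (y : E (n + 1))) := by
  have h := Gs_cont (n := n) hg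
  have h2 : Continuous (fun y : Sph n => ((A : E (n + 1)), (y : E (n + 1)))) :=
    (continuous_const (y := (A : E (n + 1)))).prodMk (continuous_subtype_val (p := fun x : E (n + 1) => x ∈ Metric.sphere (0 : E (n + 1)) 1))
  have h3 : ∀ y : Sph n, ((A : E (n + 1)), (y : E (n + 1))) ∈ Metric.sphere (0 : E (n + 1)) 1 ×ˢ Metric.sphere (0 : E (n + 1)) 1 :=
    fun y => mk_mem_prod A.2 y.2
  have h4 : Continuous ((fun z : E (n + 1) × E (n + 1) => Gs g z.1 z.2) ∘
    (fun y : Sph n => ((A : E (n + 1)), (y : E (n + 1))))) := h.comp_continuous h2 h3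
  exact h4

lemma foldS_cont1 {n : ℕ} (e : Sph n) : Continuous (foldS e : Sph n → Sph n) :=
  foldS_cont.comp (continuous_const.prodMk continuous_id)

lemma qs_meas {n : ℕ} {R μ : ℝ} {g dg : ℝ → ℝ} (hg : IsSProfile n R μ g dg) (A : Sph n)
    (ξ : E (n + 1)) :
    Measurable (fun y : Sph n => qs g dg (A : E (n + 1)) (y : E (n + 1)) ξ) := by
  have ha : Continuous (fun y : Sph n =>
      InnerProductGeometry.angle (A : E (n + 1)) (y : E (n + 1))) := by
    unfold InnerProductGeometry.angle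
    have h1 : ∀ y : Sph n, ‖(y : E (n + 1))‖ = 1 := fun y => by simp
    simp only [h1, mul_one, div_one]
    exact Real.continuous_arccos.comp (continuous_const.inner continuous_subtype_val)
  have hI : ∀ y : Sph n,
      InnerProductGeometry.angle (A : E (n + 1)) (y : E (n + 1)) ∈ Icc 0 Real.pi := fun y =>
    ⟨InnerProductGeometry.angle_nonneg _ _, InnerProductGeometry.angle_le_pi _ _⟩
  have h1 := hg.g_cont.comp_continuous ha hI
  have h2 := hg.dg_cont.comp_continuous ha hI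
  have h3 : Measurable (fun y : Sph n => tc (A : E (n + 1)) (y : E (n + 1)) ξ) := by
    unfold tc
    have c1 : Continuous (fun y : Sph n => inner ℝ (y : E (n + 1)) ξ) :=
      continuous_subtype_val.inner continuous_const
    have c2 : Continuous (fun y : Sph n =>
        ‖(y : E (n + 1)) - inner ℝ (A : E (n + 1)) (y : E (n + 1)) • (A : E (n + 1))‖) := by
      have c3 : Continuous (fun y : Sph n => (y : E (n + 1))) := continuous_subtype_val
      fun_prop
    exact c1.measurable.div c2.measurable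
  have h4 : Continuous (fun y : Sph n =>
      Real.sin (InnerProductGeometry.angle (A : E (n + 1)) (y : E (n + 1)))) :=
    Real.continuous_sin.comp ha
  unfold qs
  exact ((h2.measurable.pow_const 2).mul (h3.pow_const 2)).add
    (((h1.measurable.div h4.measurable).pow_const 2).mul
      (measurable_const.sub (h3.pow_const 2)))

/-- A linear isometry of `ℝⁿ` onto the orthogonal complement of a unit vector. -/
lemma exists_J {n : ℕ} (A : Sph n) :
    ∃ J : E n →ₗᵢ[ℝ] E (n + 1), ∀ η, inner ℝ (A : E (n + 1)) (J η) = 0 := by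
  have hA : (A : E (n + 1)) ≠ 0 := by
    intro h
    have h1 : ‖(A : E (n + 1))‖ = 1 := by simp
    rw [h] at h1
    simp at h1
  have hfr : Module.finrank ℝ (ℝ ∙ (A : E (n + 1)))ᗮ = n := by
    have : Fact (Module.finrank ℝ (E (n + 1)) = n + 1) := ⟨by simp⟩
    exact Submodule.finrank_orthogonal_span_singleton hA
  let b := (stdOrthonormalBasis ℝ (ℝ ∙ (A : E (n + 1)))ᗮ).reindex (finCongr hfr)
  refine ⟨(Submodule.subtypeₗᵢ _).comp b.repr.symm.toLinearIsometry, fun η => ?_⟩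
  have h1 : ((b.repr.symm η : (ℝ ∙ (A : E (n + 1)))ᗮ) : E (n + 1)) ∈ (ℝ ∙ (A : E (n + 1)))ᗮ :=
    (b.repr.symm η).2
  exact (Submodule.mem_orthogonal_singleton_iff_inner_right.mp h1)

lemma keyS {n : ℕ} (hn : 1 ≤ n) (Ω : Set (Sph n)) (hΩ : IsOpen Ω) (hv0 : surf n Ω ≠ 0)
    {R μ : ℝ} {g dg : ℝ → ℝ} (hg : IsSProfile n R μ g dg)
    (hR : ∀ A : Sph n, 2 * surf n (cap A R) = surf n Ω) :
    ENNReal.ofReal (n * μ⁻¹) ≤ ∑ i ∈ Finset.Icc 2 (n + 1), (neumannS Ω i)⁻¹ := by
  obtain ⟨e0, he2, he1⟩ := exists_oneS (n := n) (Ω := Ω)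
  have he : iotS Ω e0 ≠ 0 := by
    intro h0
    have h1 : ((e0.1.1 : Lp ℝ 2 ((surf n).restrict Ω)) : Sph n → ℝ) =ᵐ[(surf n).restrict Ω] 0 := by
      have : (e0.1.1 : Lp ℝ 2 ((surf n).restrict Ω)) = 0 := h0
      rw [this]
      exact Lp.coeFn_zero _ _ _
    have h2 : ∀ᵐ x ∂((surf n).restrict Ω), False := by
      filter_upwards [h1, he1] with x hx hx'
      rw [hx] at hx'
      simp at hx'
    rw [Filter.eventually_false_iff_eq_bot, ae_eq_bot, Measure.restrict_eq_zero] at h2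
    exact hv0 h2
  have hmain := var_main hn (iotS Ω) (grdS Ω) e0 he he2 (C := n * μ⁻¹)
    (by have := hg.μ_pos; positivity) ?_
  · simpa [neumannS_eq] using hmain
  intro u _
  have hui : IntegrableOn (u.1.1 : Sph n → ℝ) Ω (surf n) :=
    (Lp.memLp u.1.1).integrable (by norm_num)
  obtain ⟨e, A, hA, hu⟩ := exists_centreS hΩ.measurableSet hv0 hg _ hui
  obtain ⟨v0, hv1, hv2⟩ := exists_trialS hn hΩ hg e A
  obtain ⟨J, hJ⟩ := exists_J A
  have hTm : Measurable (foldS e : Sph n → Sph n) := (foldS_cont1 e).measurable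
  set ν : Measure (Sph n) := ((surf n).restrict Ω).map (foldS e) with hν
  have hνu : ν univ = 2 * surf n (cap A R) := by
    rw [hν, Measure.map_apply hTm MeasurableSet.univ, preimage_univ, Measure.restrict_apply_univ,
      hR]
  obtain ⟨b0, N, hb0, hN, htr, hcA, hcB, hcP⟩ :=
    compS hn hg e A ν (map_foldS_le hΩ.measurableSet e) hνu J hJ
  have hGc := Gs_cont1 hg A
  have hGm : ∀ ξ : E (n + 1), Measurable (fun y : Sph n =>
      inner ℝ (Gs g (A : E (n + 1)) (y : E (n + 1))) ξ) := fun ξ =>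
    (hGc.inner continuous_const).measurable
  have eA : ∀ η, ‖grdS Ω (v0 (J η))‖ ^ 2 =
      ∫ y, qs g dg (A : E (n + 1)) (y : E (n + 1)) (J η) ∂ν := by
    intro η
    have : ‖grdS Ω (v0 (J η))‖ ^ 2 = ‖(v0 (J η)).1.2‖ ^ 2 := rfl
    rw [this, hv2 (J η) (hJ η), hν,
      integral_map hTm.aemeasurable (qs_meas hg A (J η)).aestronglyMeasurable]
  have eB' : ∀ (ξ : E (n + 1)) (w : Lp ℝ 2 ((surf n).restrict Ω)),
      inner ℝ (iotS Ω (v0 ξ)) w =
        ∫ x in Ω, inner ℝ (Gs g (A : E (n + 1)) (foldS e x : E (n + 1))) ξ * w x ∂(surf n) := by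
    intro ξ w
    rw [L2.inner_def]
    apply integral_congr_ae
    filter_upwards [hv1 ξ] with x hx
    have : ((iotS Ω (v0 ξ) : Lp ℝ 2 ((surf n).restrict Ω)) : Sph n → ℝ) x =
      inner ℝ (Gs g (A : E (n + 1)) (foldS e x : E (n + 1))) ξ := hx
    rw [this]
    simp [mul_comm]
  have eB : ∀ η, ‖iotS Ω (v0 (J η))‖ ^ 2 =
      ∫ y, (inner ℝ (Gs g (A : E (n + 1)) (y : E (n + 1))) (J η)) ^ 2 ∂ν := by
    intro η
    rw [← real_inner_self_eq_norm_sq, eB', hν,
      integral_map hTm.aemeasurable ((hGm (J η)).pow_const 2).aestronglyMeasurable]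
    apply integral_congr_ae
    filter_upwards [hv1 (J η)] with x hx
    have : ((iotS Ω (v0 (J η)) : Lp ℝ 2 ((surf n).restrict Ω)) : Sph n → ℝ) x =
      inner ℝ (Gs g (A : E (n + 1)) (foldS e x : E (n + 1))) (J η) := hx
    rw [this]
    ring
  set v : E n →ₗ[ℝ] H1S Ω := v0.comp J.toLinearMap with hv
  have hinj : Function.Injective ((iotS Ω).comp v) := by
    rw [injective_iff_map_eq_zero]
    intro η hη
    by_contra hne
    have h1 := hcP η hne
    rw [← eB η] at h1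
    have h2 : iotS Ω (v0 (J η)) = 0 := hη
    rw [h2] at h1
    simp at h1
  obtain ⟨ξ, ρ, hρ, h3, h4, h5⟩ := pencil ((iotS Ω).comp v) ((grdS Ω).comp v) hinj N hN htr
    (a0 := μ * b0) (b0 := b0) (w := (g R / Real.sin R) ^ 2) (k := g R ^ 2)
    (mul_pos hg.μ_pos hb0) hb0 (sq_nonneg _) (sq_nonneg _)
    (fun η => by
      have := eA η
      change ‖grdS Ω (v0 (J η))‖ ^ 2 ≤ _
      rw [this]; exact hcA η)
    (fun η => by
      have := eB η
      change _ ≤ ‖iotS Ω (v0 (J η))‖ ^ 2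
      rw [this]; exact hcB η)
  have hGF : Continuous (fun x : Sph n => Gs g (A : E (n + 1)) (foldS e x : E (n + 1))) :=
    hGc.comp (foldS_cont1 e)
  have hA1 : ‖(A : E (n + 1))‖ = 1 := by simp
  have hI1 : Integrable (fun x : Sph n => Gs g (A : E (n + 1)) (foldS e x : E (n + 1)))
      ((surf n).restrict Ω) := by
    apply Integrable.of_bound hGF.aestronglyMeasurable (g R)
    exact Filter.Eventually.of_forall (fun x => Gs_bound hg hA1 _)
  have hI2 : Integrable (fun x : Sph n =>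
      (u.1.1 : Sph n → ℝ) x • Gs g (A : E (n + 1)) (foldS e x : E (n + 1)))
      ((surf n).restrict Ω) := by
    exact Integrable.smul_bdd hui (g R) hGF.aestronglyMeasurable
      (Filter.Eventually.of_forall (fun x => Gs_bound hg hA1 _))
  refine ⟨fun i => v (ξ i), ρ, hρ, h3, h4, fun i => ?_, fun i => ?_, ?_⟩
  · have h7 := eB' (J (ξ i)) (iotS Ω e0)
    change inner ℝ (iotS Ω (v0 (J (ξ i)))) _ = 0
    rw [h7]
    have : ∫ x in Ω, inner ℝ (Gs g (A : E (n + 1)) (foldS e x : E (n + 1))) (J (ξ i)) *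
        (iotS Ω e0 : Sph n → ℝ) x ∂(surf n) =
        ∫ x in Ω, inner ℝ (J (ξ i)) (Gs g (A : E (n + 1)) (foldS e x : E (n + 1)))
          ∂(surf n) := by
      apply integral_congr_ae
      filter_upwards [he1] with x hx
      have : ((iotS Ω e0 : Lp ℝ 2 ((surf n).restrict Ω)) : Sph n → ℝ) x = 1 := hx
      rw [this, mul_one, real_inner_comm]
    rw [this, integral_inner hI1, hA, inner_zero_right]
  · have h7 := eB' (J (ξ i)) (iotS Ω u)
    change inner ℝ (iotS Ω (v0 (J (ξ i)))) _ = 0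
    rw [h7]
    have : ∫ x in Ω, inner ℝ (Gs g (A : E (n + 1)) (foldS e x : E (n + 1))) (J (ξ i)) *
        (iotS Ω u : Sph n → ℝ) x ∂(surf n) =
        ∫ x in Ω, inner ℝ (J (ξ i))
          ((u.1.1 : Sph n → ℝ) x • Gs g (A : E (n + 1)) (foldS e x : E (n + 1))) ∂(surf n) := by
      apply integral_congr_ae
      filter_upwards with x
      rw [inner_smul_right, real_inner_comm, mul_comm]
      rfl
    rw [this, integral_inner hI2, hu, inner_zero_right]
  · have : (n : ℝ) * (b0 / (μ * b0)) = n * μ⁻¹ := by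
      have := hg.μ_pos.ne'
      have := hb0.ne'
      field_simp
    rw [this] at h5
    exact h5

theorem mainS {n : ℕ} (hn : 1 ≤ n) (Ω : Set (Sph n)) (hΩ : IsOpen Ω) (hne : Ω.Nonempty)
    (c : Sph n) (ρ : ℝ) (hρ : surf n (Metric.ball c ρ) = surf n Ω / 2) :
    (n : ℝ≥0∞) * (neumannS (Metric.ball c ρ) 1)⁻¹ ≤
      ∑ i ∈ Finset.Icc 2 (n + 1), (neumannS Ω i)⁻¹ := by
  have hv0 : surf n Ω ≠ 0 := (hΩ.measure_pos (surf n) hne).ne'
  have h0 : surf n (Metric.ball c ρ) ≠ 0 := by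
    rw [hρ]
    intro h
    rw [ENNReal.div_eq_zero_iff] at h
    rcases h with h | h
    · exact hv0 h
    · simp at h
  obtain ⟨R, hR0, hR1, hRc⟩ := cap_of_ball hn c ρ h0 (by
    rw [hρ]
    gcongr
    exact subset_univ _)
  obtain ⟨μ, g, dg, hg⟩ := exists_sprofile hn hR0 hR1
  have hball := ball_h1S hn hg c
  rw [← hRc] at hball
  have hR' : ∀ A : Sph n, 2 * surf n (cap A R) = surf n Ω := by
    intro A
    rw [surf_cap A c R, ← hRc, hρ]
    exact ENNReal.mul_div_cancel (by norm_num) (by norm_num)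
  refine le_trans ?_ (keyS hn Ω hΩ hv0 hg hR')
  have h1 : (n : ℝ≥0∞) * (neumannS (Metric.ball c ρ) 1)⁻¹ ≤ n * (ENNReal.ofReal μ)⁻¹ := by
    gcongr
  refine h1.trans (le_of_eq ?_)
  rw [ENNReal.ofReal_mul (Nat.cast_nonneg n), ENNReal.ofReal_natCast,
    ENNReal.ofReal_inv_of_pos hg.μ_pos]

end Pool.Agent.NE
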