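import Pool.Agent.NE.STools

set_option autoImplicit false

open MeasureTheory Set
open scoped ENNReal

namespace Pool.Agent.NE

/-- the point `(t, y)` of `ℝ × ℝ^n = ℝ^{n+1}` -/
noncomputable def SPolar_cpt {n : ℕ} (q : ℝ × E n) : E (n + 1) :=
  WithLp.toLp 2 (Fin.cons q.1 (fun i => q.2 i))

lemma SPolar_cpt_cont {n : ℕ} : Continuous (SPolar_cpt (n := n)) := by
  unfold SPolar_cpt
  refine (PiLp.continuous_toLp 2 _).comp ?_
  refine continuous_pi fun i => ?_
  refine Fin.cases ?_ (fun j => ?_) i
  · exact continuous_fst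
  · simp only [Fin.cons_succ]
    fun_prop

lemma SPolar_mp {n : ℕ} : MeasurePreserving (SPolar_cpt (n := n)) volume volume := by
  have h1 := PiLp.volume_preserving_ofLp (Fin n)
  have h2 : MeasurePreserving (fun q : ℝ × E n => (q.1, WithLp.ofLp q.2)) volume volume :=
    (MeasurePreserving.id (volume : Measure ℝ)).prod h1
  have h3 := (volume_preserving_piFinSuccAbove (fun _ : Fin (n + 1) => ℝ) 0).symm
  have h4 := PiLp.volume_preserving_toLp (Fin (n + 1))
  have h5 := h4.comp (h3.comp h2)
  have h6 : (SPolar_cpt (n := n)) = (WithLp.toLp 2 ∘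
      ⇑(MeasurableEquiv.piFinSuccAbove (fun _ : Fin (n + 1) => ℝ) 0).symm ∘
      fun q => (q.1, q.2.ofLp)) := by
    funext q
    simp only [SPolar_cpt, Function.comp_apply]
    congr 1
    funext i
    refine Fin.cases ?_ (fun j => ?_) i
    · simp [MeasurableEquiv.piFinSuccAbove, Fin.insertNthEquiv]
    · simp [MeasurableEquiv.piFinSuccAbove, Fin.insertNthEquiv]
  rw [h6]
  exact h5

lemma SPolar_pt {n : ℕ} (r : ℝ) (θ : E n) :
    pt r θ = SPolar_cpt (Real.cos r, Real.sin r • θ) := rfl

lemma SPolar_smul {n : ℕ} (c t : ℝ) (y : E n) :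
    SPolar_cpt (c * t, c • y) = c • SPolar_cpt (t, y) := by
  ext i
  refine Fin.cases ?_ (fun j => ?_) i
  · simp [SPolar_cpt]
  · simp [SPolar_cpt]

lemma SPolar_norm {n : ℕ} (r : ℝ) (θ : Metric.sphere (0 : E n) 1) : ‖pt r (θ : E n)‖ = 1 := by
  have h : ‖(θ : E n)‖ = 1 := by simp
  have h2 : ∑ i, (θ : E n) i ^ 2 = 1 := by
    have := EuclideanSpace.real_norm_sq_eq (θ : E n)
    rw [h] at this
    linarith
  have h3 : ‖pt r (θ : E n)‖ ^ 2 = 1 := by
    rw [EuclideanSpace.real_norm_sq_eq, Fin.sum_univ_succ]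
    simp only [pt, Fin.cons_zero, Fin.cons_succ, mul_pow]
    rw [← Finset.mul_sum, h2, mul_one, Real.cos_sq_add_sin_sq]
  have h4 : 0 ≤ ‖pt r (θ : E n)‖ := norm_nonneg _
  nlinarith

/-- Polar coordinates in `ℝ^n`, for nonnegative functions. -/
lemma SPolar_polar {n : ℕ} (hn : 1 ≤ n) (F : E n → ℝ≥0∞) (hF : Measurable F) :
    ∫⁻ x, F x = ∫⁻ s in Ioi (0 : ℝ), ENNReal.ofReal (s ^ (n - 1)) *
      ∫⁻ θ : Metric.sphere (0 : E n) 1, F (s • (θ : E n)) ∂(volume : Measure (E n)).toSphere := by
  have : Nonempty (Fin n) := ⟨⟨0, hn⟩⟩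
  have hdim : Module.finrank ℝ (E n) = n := by simp
  have hmp := (volume : Measure (E n)).measurePreserving_homeomorphUnitSphereProd
  rw [hdim] at hmp
  have hemb := (Homeomorph.measurableEmbedding (homeomorphUnitSphereProd (E n)))
  have hkey : ∀ x : ({(0 : E n)}ᶜ : Set (E n)),
      F ((homeomorphUnitSphereProd (E n) x).2.1 • ((homeomorphUnitSphereProd (E n) x).1 : E n))
        = F x.1 := by
    intro x
    have hx : (x.1 : E n) ≠ 0 := x.2
    have hx' : ‖(x.1 : E n)‖ ≠ 0 := norm_ne_zero_iff.2 hx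
    congr 1
    simp [smul_smul, hx']
  have hmeas : Measurable (fun q : ℝ × Metric.sphere (0 : E n) 1 => F (q.1 • (q.2 : E n))) := by
    refine hF.comp ?_
    exact (continuous_fst.smul (continuous_subtype_val.comp continuous_snd)).measurable
  have hmeas1 : Measurable (fun s : ℝ => ∫⁻ θ : Metric.sphere (0 : E n) 1, F (s • (θ : E n))
      ∂(volume : Measure (E n)).toSphere) := hmeas.lintegral_prod_right'
  have hmeas2 : Measurable (fun q : Metric.sphere (0 : E n) 1 × Ioi (0 : ℝ) =>
      F (q.2.1 • (q.1 : E n))) := by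
    refine hF.comp ?_
    exact ((continuous_subtype_val.comp continuous_snd).smul
      (continuous_subtype_val.comp continuous_fst)).measurable
  calc ∫⁻ x, F x = ∫⁻ x in ({(0 : E n)}ᶜ : Set (E n)), F x := by
        rw [restrict_compl_singleton]
    _ = ∫⁻ x : ({(0 : E n)}ᶜ : Set (E n)), F x.1 ∂((volume : Measure (E n)).comap (↑)) := by
        rw [lintegral_subtype_comap (measurableSet_singleton _).compl F]
    _ = ∫⁻ x : ({(0 : E n)}ᶜ : Set (E n)),
          (fun q : Metric.sphere (0 : E n) 1 × Ioi (0 : ℝ) => F (q.2.1 • (q.1 : E n)))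
            (homeomorphUnitSphereProd (E n) x) ∂((volume : Measure (E n)).comap (↑)) := by
        refine lintegral_congr fun x => ?_
        exact (hkey x).symm
    _ = ∫⁻ q : Metric.sphere (0 : E n) 1 × Ioi (0 : ℝ), F (q.2.1 • (q.1 : E n))
          ∂((volume : Measure (E n)).toSphere.prod (Measure.volumeIoiPow (n - 1))) :=
        hmp.lintegral_comp hmeas2
    _ = ∫⁻ s : Ioi (0 : ℝ), (∫⁻ θ : Metric.sphere (0 : E n) 1, F (s.1 • (θ : E n))
          ∂(volume : Measure (E n)).toSphere) ∂(Measure.volumeIoiPow (n - 1)) := by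
        rw [lintegral_prod_symm' _ hmeas2]
    _ = ∫⁻ s : Ioi (0 : ℝ), ENNReal.ofReal (s.1 ^ (n - 1)) *
          (∫⁻ θ : Metric.sphere (0 : E n) 1, F (s.1 • (θ : E n))
          ∂(volume : Measure (E n)).toSphere) ∂((volume : Measure ℝ).comap (↑)) := by
        rw [Measure.volumeIoiPow, lintegral_withDensity_eq_lintegral_mul]
        · rfl
        · exact (measurable_subtype_coe.pow_const _).ennreal_ofReal
        · exact hmeas1.comp measurable_subtype_coe
    _ = _ := by
        rw [lintegral_subtype_comap measurableSet_Ioi (fun s : ℝ => ENNReal.ofReal (s ^ (n - 1)) *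
          (∫⁻ θ : Metric.sphere (0 : E n) 1, F (s • (θ : E n))
          ∂(volume : Measure (E n)).toSphere))]

/-- Polar coordinates on the sphere with pole `e_0`. -/
theorem polarS {n : ℕ} (hn : 1 ≤ n) (f : E (n + 1) → ℝ≥0∞) (hf : Measurable f) :
    ∫⁻ x : Sph n, f x ∂(surf n) =
      ∫⁻ r in Ioo 0 Real.pi, ∫⁻ θ : Metric.sphere (0 : E n) 1,
        f (pt r (θ : E n)) * ENNReal.ofReal (Real.sin r ^ (n - 1))
          ∂(volume : Measure (E n)).toSphere := by
  classical
  -- the cutoff
  let F : E (n + 1) → ℝ≥0∞ := fun x => (Metric.ball (0 : E (n + 1)) 1).indicator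
    (fun x => f (‖x‖⁻¹ • x)) x
  have hF : Measurable F := by
    refine Measurable.indicator (hf.comp ?_) measurableSet_ball
    fun_prop
  let χ : ℝ → ℝ≥0∞ := (Iio (1 : ℝ)).indicator 1
  have hχ : Measurable χ := measurable_one.indicator measurableSet_Iio
  have hFs : ∀ s : ℝ, 0 < s → ∀ x : E (n + 1), ‖x‖ = 1 → F (s • x) = χ s * f x := by
    intro s hs x hx
    have hnorm : ‖s • x‖ = s := by rw [norm_smul, hx, mul_one, Real.norm_of_nonneg hs.le]
    by_cases h1 : s < 1
    · have hm : s • x ∈ Metric.ball (0 : E (n + 1)) 1 := by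
        rw [mem_ball_zero_iff, hnorm]; exact h1
      simp only [F, χ]
      rw [indicator_of_mem hm, indicator_of_mem (show s ∈ Iio (1 : ℝ) from h1), hnorm, smul_smul,
        inv_mul_cancel₀ hs.ne', one_smul, Pi.one_apply, one_mul]
    · have hm : s • x ∉ Metric.ball (0 : E (n + 1)) 1 := by
        rw [mem_ball_zero_iff, hnorm]; exact h1
      simp only [F, χ]
      rw [indicator_of_notMem hm, indicator_of_notMem (show s ∉ Iio (1 : ℝ) from h1), zero_mul]
  let c : ℝ≥0∞ := ∫⁻ s in Ioi (0 : ℝ), ENNReal.ofReal (s ^ n) * χ s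
  have hcm : Measurable (fun s : ℝ => ENNReal.ofReal (s ^ n) * χ s) :=
    (by fun_prop : Measurable fun s : ℝ => ENNReal.ofReal (s ^ n)).mul hχ
  -- first computation
  have h1 : ∫⁻ x, F x = c * ∫⁻ x : Sph n, f x ∂(surf n) := by
    rw [SPolar_polar (by omega) F hF]
    simp only [c]
    rw [← lintegral_mul_const _ hcm]
    refine setLIntegral_congr_fun measurableSet_Ioi fun s hs => ?_
    simp only [Nat.add_sub_cancel]
    rw [mul_assoc, ← lintegral_const_mul (χ s)
      (by exact hf.comp measurable_subtype_coe : Measurable fun x : Sph n => f x)]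
    congr 1
    refine lintegral_congr fun θ => ?_
    exact hFs s hs _ (by simp)
  -- second computation
  let H : ℝ × ℝ → ℝ≥0∞ := fun q => (univ ×ˢ Ioi (0 : ℝ)).indicator (fun q : ℝ × ℝ =>
    ENNReal.ofReal (q.2 ^ (n - 1)) * ∫⁻ θ : Metric.sphere (0 : E n) 1,
      F (SPolar_cpt (q.1, q.2 • (θ : E n))) ∂(volume : Measure (E n)).toSphere) q
  have hHm : Measurable H := by
    refine Measurable.indicator ?_ (MeasurableSet.univ.prod measurableSet_Ioi)
    refine Measurable.mul (by fun_prop) ?_
    have : Measurable (fun q : (ℝ × ℝ) × Metric.sphere (0 : E n) 1 =>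
        F (SPolar_cpt (q.1.1, q.1.2 • (q.2 : E n)))) := by
      refine hF.comp (SPolar_cpt_cont.comp ?_).measurable
      exact (continuous_fst.comp continuous_fst).prodMk
        ((continuous_snd.comp continuous_fst).smul (continuous_subtype_val.comp continuous_snd))
    exact this.lintegral_prod_right'
  have h2 : ∫⁻ x, F x = ∫⁻ q : ℝ × ℝ, H q := by
    rw [← SPolar_mp.lintegral_comp hF]
    have hm1 : Measurable (fun q : ℝ × E n => F (SPolar_cpt q)) :=
      hF.comp SPolar_cpt_cont.measurable
    rw [Measure.volume_eq_prod, lintegral_prod _ hm1.aemeasurable, Measure.volume_eq_prod,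
      lintegral_prod _ hHm.aemeasurable]
    refine lintegral_congr fun t => ?_
    rw [SPolar_polar hn (fun y => F (SPolar_cpt (t, y)))
      (hF.comp (SPolar_cpt_cont.comp (by fun_prop)).measurable)]
    rw [← lintegral_indicator measurableSet_Ioi]
    refine lintegral_congr fun s => ?_
    by_cases hs : s ∈ Ioi (0 : ℝ)
    · rw [indicator_of_mem hs]
      simp only [H]
      rw [indicator_of_mem (show (t, s) ∈ univ ×ˢ Ioi (0 : ℝ) from ⟨mem_univ _, hs⟩)]
    · rw [indicator_of_notMem hs]
      simp only [H]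
      rw [indicator_of_notMem (show (t, s) ∉ univ ×ˢ Ioi (0 : ℝ) from fun h => hs h.2)]
  have hangle : Measurable (fun r : ℝ => ∫⁻ θ : Metric.sphere (0 : E n) 1,
        f (pt r (θ : E n)) * ENNReal.ofReal (Real.sin r ^ (n - 1))
          ∂(volume : Measure (E n)).toSphere) := by
    have : Measurable (fun q : ℝ × Metric.sphere (0 : E n) 1 =>
        f (pt q.1 (q.2 : E n)) * ENNReal.ofReal (Real.sin q.1 ^ (n - 1))) := by
      refine Measurable.mul (hf.comp ?_) (by fun_prop)
      have : Continuous (fun q : ℝ × Metric.sphere (0 : E n) 1 =>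
          SPolar_cpt (Real.cos q.1, Real.sin q.1 • (q.2 : E n))) := by
        refine SPolar_cpt_cont.comp ?_
        exact (Real.continuous_cos.comp continuous_fst).prodMk
          ((Real.continuous_sin.comp continuous_fst).smul
            (continuous_subtype_val.comp continuous_snd))
      exact this.measurable
    exact this.lintegral_prod_right'
  have h3 : ∫⁻ q : ℝ × ℝ, H q = c * ∫⁻ r in Ioo 0 Real.pi, ∫⁻ θ : Metric.sphere (0 : E n) 1,
        f (pt r (θ : E n)) * ENNReal.ofReal (Real.sin r ^ (n - 1))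
          ∂(volume : Measure (E n)).toSphere := by
    rw [← lintegral_comp_polarCoord_symm H]
    have htarget : polarCoord.target = Ioi (0 : ℝ) ×ˢ Ioo (-Real.pi) Real.pi := rfl
    have hpm : Measurable (fun q : ℝ × ℝ => ENNReal.ofReal q.1 • H (polarCoord.symm q)) := by
      refine Measurable.mul (by fun_prop) (hHm.comp continuous_polarCoord_symm.measurable)
    rw [htarget, Measure.volume_eq_prod, ← Measure.prod_restrict,
      lintegral_prod _ hpm.aemeasurable]
    simp only [c]
    rw [← lintegral_mul_const _ hcm]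
    refine setLIntegral_congr_fun measurableSet_Ioi fun ρ hρ => ?_
    have hρ' : (0 : ℝ) < ρ := hρ
    rw [← lintegral_const_mul _ hangle]
    -- replace the domain
    rw [← lintegral_indicator measurableSet_Ioo, ← lintegral_indicator measurableSet_Ioo]
    refine lintegral_congr fun r => ?_
    have hsymm : polarCoord.symm (ρ, r) = (ρ * Real.cos r, ρ * Real.sin r) := rfl
    by_cases hr : r ∈ Ioo 0 Real.pi
    · have hr2 : r ∈ Ioo (-Real.pi) Real.pi := ⟨by linarith [hr.1, Real.pi_pos], hr.2⟩
      rw [indicator_of_mem hr, indicator_of_mem hr2, hsymm]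
      have hsin : 0 < Real.sin r := Real.sin_pos_of_mem_Ioo hr
      simp only [H]
      rw [indicator_of_mem (show (ρ * Real.cos r, ρ * Real.sin r) ∈ univ ×ˢ Ioi (0 : ℝ) from
        ⟨mem_univ _, mul_pos hρ' hsin⟩)]
      simp only [smul_eq_mul]
      have h5 : ∀ θ : Metric.sphere (0 : E n) 1,
          F (SPolar_cpt (ρ * Real.cos r, (ρ * Real.sin r) • (θ : E n))) =
            χ ρ * f (pt r (θ : E n)) := by
        intro θ
        rw [mul_smul, SPolar_smul, ← SPolar_pt]
        exact hFs ρ hρ' _ (SPolar_norm r θ)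
      have hfm : Measurable (fun θ : Metric.sphere (0 : E n) 1 => f (pt r (θ : E n))) := by
        refine hf.comp ?_
        have : Continuous (fun θ : Metric.sphere (0 : E n) 1 =>
            SPolar_cpt (Real.cos r, Real.sin r • (θ : E n))) := by
          refine SPolar_cpt_cont.comp ?_
          have h7 : Continuous (fun θ : Metric.sphere (0 : E n) 1 => Real.sin r • (θ : E n)) :=
            continuous_subtype_val.const_smul (Real.sin r)
          exact continuous_const.prodMk h7
        exact this.measurable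
      rw [lintegral_congr h5, lintegral_const_mul _ hfm, lintegral_mul_const _ hfm]
      have hpow : ENNReal.ofReal ((ρ * Real.sin r) ^ (n - 1)) =
          ENNReal.ofReal (ρ ^ (n - 1)) * ENNReal.ofReal (Real.sin r ^ (n - 1)) := by
        rw [mul_pow, ENNReal.ofReal_mul (pow_nonneg hρ'.le _)]
      have hpow2 : ENNReal.ofReal (ρ ^ n) = ENNReal.ofReal ρ * ENNReal.ofReal (ρ ^ (n - 1)) := by
        rw [← ENNReal.ofReal_mul hρ'.le, ← pow_succ']
        congr 2
        omega
      rw [hpow, hpow2]
      ring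
    · rw [indicator_of_notMem hr]
      by_cases hr2 : r ∈ Ioo (-Real.pi) Real.pi
      · rw [indicator_of_mem hr2, hsymm]
        have hr0 : r ≤ 0 := by
          by_contra h
          exact hr ⟨not_le.1 h, hr2.2⟩
        have hsin : Real.sin r ≤ 0 := Real.sin_nonpos_of_nonpos_of_neg_pi_le hr0 hr2.1.le
        simp only [H]
        rw [indicator_of_notMem (show (ρ * Real.cos r, ρ * Real.sin r) ∉ univ ×ˢ Ioi (0 : ℝ) from
          fun h => absurd h.2 (not_lt.2 (mul_nonpos_of_nonneg_of_nonpos hρ'.le hsin)))]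
        simp
      · rw [indicator_of_notMem hr2]
  -- the constant
  have hc0 : c ≠ 0 := by
    intro h0
    have := (lintegral_eq_zero_iff hcm).1 h0
    rw [Filter.EventuallyEq, ae_restrict_iff' measurableSet_Ioi] at this
    have h4 : (volume : Measure ℝ) (Ioo 0 1) = 0 := by
      refine measure_mono_null (fun s hs => ?_) this
      intro h5
      have h6 := h5 hs.1
      simp only [Pi.zero_apply, χ] at h6
      rw [indicator_of_mem (show s ∈ Iio (1 : ℝ) from hs.2), Pi.one_apply, mul_one,
        ENNReal.ofReal_eq_zero] at h6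
      exact absurd h6 (not_le.2 (pow_pos hs.1 n))
    simp at h4
  have hctop : c ≠ ⊤ := by
    have hle : c ≤ ∫⁻ s in Ioi (0 : ℝ), (Iio (1 : ℝ)).indicator 1 s := by
      refine setLIntegral_mono (measurable_one.indicator measurableSet_Iio) fun s hs => ?_
      simp only [χ]
      by_cases h1 : s ∈ Iio (1 : ℝ)
      · rw [indicator_of_mem h1, Pi.one_apply, mul_one]
        refine (ENNReal.ofReal_le_ofReal (pow_le_one₀ (le_of_lt hs) (le_of_lt h1))).trans ?_
        simp
      · rw [indicator_of_notMem h1, mul_zero]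
    refine ne_top_of_le_ne_top ?_ hle
    rw [lintegral_indicator_one measurableSet_Iio, Measure.restrict_apply measurableSet_Iio]
    have : Iio (1 : ℝ) ∩ Ioi 0 = Ioo 0 1 := by
      ext x; simp [and_comm]
    rw [this]
    simp
  have h5 : c * ∫⁻ x : Sph n, f x ∂(surf n) = c * ∫⁻ r in Ioo 0 Real.pi,
      ∫⁻ θ : Metric.sphere (0 : E n) 1,
        f (pt r (θ : E n)) * ENNReal.ofReal (Real.sin r ^ (n - 1))
          ∂(volume : Measure (E n)).toSphere := by
    rw [← h1, h2, h3]
  exact (ENNReal.mul_right_inj hc0 hctop).1 h5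

end Pool.Agent.NE
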