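import Pool.Agent.NE.Tools
import Pool.Agent.NE.SDefs

set_option autoImplicit false

open MeasureTheory Set
open scoped ENNReal ContDiff

namespace Pool.Agent.NE

/-- The field `g(r) θ`, where `y = cos r · A + sin r · θ` are polar coordinates with pole `A` on the
unit sphere; it is extended to a homogeneous function of degree zero. -/
noncomputable def Gs {n : ℕ} (g : ℝ → ℝ) (A y : E (n + 1)) : E (n + 1) :=
  (g (InnerProductGeometry.angle A y) / ‖y - inner ℝ A y • A‖) • (y - inner ℝ A y • A)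

/-- The component `⟨θ, ξ⟩` for `ξ` orthogonal to `A`. -/
noncomputable def tc {n : ℕ} (A y ξ : E (n + 1)) : ℝ :=
  inner ℝ y ξ / ‖y - inner ℝ A y • A‖

/-- The density `|∇⟨G, ξ⟩|²` on the unit sphere, for `ξ` orthogonal to `A`. -/
noncomputable def qs {n : ℕ} (g dg : ℝ → ℝ) (A y ξ : E (n + 1)) : ℝ :=
  dg (InnerProductGeometry.angle A y) ^ 2 * tc A y ξ ^ 2 +
    (g (InnerProductGeometry.angle A y) / Real.sin (InnerProductGeometry.angle A y)) ^ 2 *
      (‖ξ‖ ^ 2 - tc A y ξ ^ 2)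

/-- Open spherical cap of (geodesic) radius `R`. -/
def cap {n : ℕ} (A : Sph n) (R : ℝ) : Set (Sph n) :=
  {y | InnerProductGeometry.angle (A : E (n + 1)) (y : E (n + 1)) < R}

/-- The closed hemisphere `⟨e, y⟩ ≥ 0`. -/
def hemi {n : ℕ} (e : Sph n) : Set (Sph n) := {y | 0 ≤ inner ℝ (e : E (n + 1)) (y : E (n + 1))}

/-- Spherical profile on `[0, π]`, symmetric about `π/2`, constant on `[R, π - R]`. -/
structure IsSProfile (n : ℕ) (R μ : ℝ) (g dg : ℝ → ℝ) : Prop where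
  R_pos : 0 < R
  R_le : R ≤ Real.pi / 2
  μ_pos : 0 < μ
  cap : CapProfile n 1 Real.sin Real.cos R μ g dg
  g_symm : ∀ r, g (Real.pi - r) = g r
  dg_symm : ∀ r, dg (Real.pi - r) = -dg r
  g_const : ∀ r ∈ Icc R (Real.pi - R), g r = g R
  dg_zero : ∀ r ∈ Icc R (Real.pi - R), dg r = 0
  g_cont : ContinuousOn g (Icc 0 Real.pi)
  dg_cont : ContinuousOn dg (Icc 0 Real.pi)
  g_deriv : ∀ r ∈ Ioo 0 Real.pi, HasDerivAt g (dg r) r
  g_pos : ∀ r ∈ Ioo 0 Real.pi, 0 < g r
  g_le_sin : ∀ r ∈ Icc 0 Real.pi, g r ≤ Real.sin r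
  g_le : ∀ r ∈ Icc 0 Real.pi, g r ≤ g R
  dg_le : ∀ r ∈ Icc 0 Real.pi, |dg r| ≤ 1
  lim_one : Filter.Tendsto (fun r => g r / Real.sin r) (nhdsWithin 0 (Ioi 0)) (nhds 1)

/-- The fold `x ↦ x` if `⟨e, x⟩ ≥ 0` and `x ↦ x - 2 ⟨e, x⟩ e` otherwise, on the sphere. -/
noncomputable def foldS {n : ℕ} (e x : Sph n) : Sph n :=
  ⟨fold (e : E (n + 1)) 0 (x : E (n + 1)), by
    have he : ‖(e : E (n + 1))‖ = 1 := by simp
    have hx : ‖(x : E (n + 1))‖ = 1 := by simp
    rw [mem_sphere_zero_iff_norm, fold, he, ← sq_eq_sq₀ (norm_nonneg _) (by norm_num),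
      norm_add_sq_real, inner_smul_right, norm_smul, he, hx,
      real_inner_comm (e : E (n + 1)) (x : E (n + 1))]
    rcases le_total 0 (inner ℝ (e : E (n + 1)) (x : E (n + 1))) with h | h
    · rw [max_eq_right (by linarith)]; simp
    · rw [max_eq_left (by linarith)]
      simp only [one_pow, div_one, mul_one, Real.norm_eq_abs, sq_abs]
      ring⟩

/-- The action of a linear isometry on the sphere. -/
noncomputable def rotS {n : ℕ} (L : E (n + 1) ≃ₗᵢ[ℝ] E (n + 1)) (x : Sph n) : Sph n :=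
  ⟨L x, by
    simp⟩

/-- The point of `S^n` with polar coordinates `(r, θ)` with respect to the pole `e_0`. -/
noncomputable def pt {n : ℕ} (r : ℝ) (θ : E n) : E (n + 1) :=
  WithLp.toLp 2 (Fin.cons (Real.cos r) (fun i => Real.sin r * θ i))

/-- The pole `e_0`. -/
noncomputable def pole (n : ℕ) : Sph n := ⟨EuclideanSpace.single 0 1, by simp⟩

/-- The direction `x / |x|` (the pole for `x = 0`). -/
noncomputable def dir {n : ℕ} (x : E (n + 1)) : Sph n :=
  open Classical in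
  if h : x = 0 then pole n else ⟨‖x‖⁻¹ • x, by
    rw [mem_sphere_zero_iff_norm, norm_smul, norm_inv, norm_norm,
      inv_mul_cancel₀ (norm_ne_zero_iff.mpr h)]⟩

/-- The open truncated cone over `Ω`. -/
def cone {n : ℕ} (Ω : Set (Sph n)) : Set (E (n + 1)) := {x | x ≠ 0 ∧ ‖x‖ < 1 ∧ dir x ∈ Ω}

end Pool.Agent.NE
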