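import Pool.Agent.NE.Tools
import Pool.Agent.NE.EvB

set_option autoImplicit false

open MeasureTheory Set
open scoped ENNReal

namespace Pool.Agent.NE

lemma stopo_cont {W : Type*} [TopologicalSpace W] {N : ℕ} {m : W → ℝ} (hm : Continuous m)
    (hm0 : ∀ w, 0 ≤ m w) {g : W → E N} {U : Set W} (hU : IsOpen U) (hUm : ∀ w, w ∉ U → m w = 0)
    (hg : ContinuousOn g U) {B : W → ℝ} (hB : Continuous B) (hgB : ∀ w ∈ U, ‖g w‖ ≤ B w) :
    Continuous (fun w => m w • g w) := by
  rw [continuous_iff_continuousAt]
  intro w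
  by_cases hw : w ∈ U
  · exact hm.continuousAt.smul (hg.continuousAt (hU.mem_nhds hw))
  · have h0 : m w = 0 := hUm w hw
    have h1 : Filter.Tendsto (fun v => m v * |B v|) (nhds w) (nhds 0) := by
      have h2 : Continuous (fun v => m v * |B v|) := hm.mul hB.abs
      have h3 := h2.tendsto w
      simp only [h0, zero_mul] at h3
      exact h3
    show Filter.Tendsto (fun v => m v • g v) (nhds w) (nhds (m w • g w))
    rw [h0, zero_smul]
    refine squeeze_zero_norm (fun v => ?_) h1
    by_cases hv : v ∈ U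
    · rw [norm_smul, Real.norm_of_nonneg (hm0 v)]
      exact mul_le_mul_of_nonneg_left ((hgB v hv).trans (le_abs_self _)) (hm0 v)
    · rw [hUm v hv, zero_smul, norm_zero, zero_mul]

/-- first half of the coordinates -/
noncomputable def tX {N : ℕ} (w : Fin (N + N) → ℝ) : E N :=
  WithLp.toLp 2 (fun i => w (Fin.castAdd N i))

/-- second half of the coordinates -/
noncomputable def tZ {N : ℕ} (w : Fin (N + N) → ℝ) : E N :=
  WithLp.toLp 2 (fun i => w (Fin.natAdd N i))

/-- sup norm of the first half -/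
noncomputable def tm {N : ℕ} (w : Fin (N + N) → ℝ) : ℝ :=
  ‖(fun i : Fin N => w (Fin.castAdd N i))‖

/-- direction of the first half -/
noncomputable def te {N : ℕ} (w : Fin (N + N) → ℝ) : E N := ‖tX w‖⁻¹ • tX w

/-- the component of the second half orthogonal to the direction -/
noncomputable def tp {N : ℕ} (w : Fin (N + N) → ℝ) : E N :=
  tZ w - (inner ℝ (te w) (tZ w) : ℝ) • te w

lemma tX_cont {N : ℕ} : Continuous (tX : (Fin (N + N) → ℝ) → E N) := by
  unfold tX
  exact (PiLp.continuous_toLp 2 _).comp (continuous_pi fun i => continuous_apply _)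

lemma tZ_cont {N : ℕ} : Continuous (tZ : (Fin (N + N) → ℝ) → E N) := by
  unfold tZ
  exact (PiLp.continuous_toLp 2 _).comp (continuous_pi fun i => continuous_apply _)

lemma tm_cont {N : ℕ} : Continuous (tm : (Fin (N + N) → ℝ) → ℝ) := by
  unfold tm
  exact (continuous_pi fun i => continuous_apply _).norm

lemma tm_nonneg {N : ℕ} (w : Fin (N + N) → ℝ) : 0 ≤ tm w := norm_nonneg _

lemma tm_zero {N : ℕ} {w : Fin (N + N) → ℝ} (h : tX w = 0) : tm w = 0 := by
  unfold tm
  rw [norm_eq_zero]
  funext i
  have h1 : (tX w) i = (0 : E N) i := by rw [h]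
  exact h1

lemma te_norm {N : ℕ} {w : Fin (N + N) → ℝ} (h : tX w ≠ 0) : ‖te w‖ = 1 := by
  unfold te
  rw [norm_smul, norm_inv, norm_norm, inv_mul_cancel₀ (norm_ne_zero_iff.2 h)]

lemma te_cont {N : ℕ} : ContinuousOn (te : (Fin (N + N) → ℝ) → E N) {w | tX w ≠ 0} := by
  unfold te
  exact (ContinuousOn.inv₀ tX_cont.norm.continuousOn
    (fun w hw => norm_ne_zero_iff.2 hw)).smul tX_cont.continuousOn

lemma tp_inner {N : ℕ} {w : Fin (N + N) → ℝ} (h : tX w ≠ 0) :
    inner ℝ (te w) (tp w) = 0 := by
  unfold tp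
  rw [inner_sub_right, inner_smul_right, real_inner_self_eq_norm_sq, te_norm h]
  ring

lemma ti_cont {N : ℕ} : ContinuousOn
    (fun w : Fin (N + N) → ℝ => (inner ℝ (te w) (tZ w) : ℝ) • te w) {w | tX w ≠ 0} :=
  ContinuousOn.smul (ContinuousOn.inner (𝕜 := ℝ) te_cont tZ_cont.continuousOn) te_cont

lemma tp_cont {N : ℕ} : ContinuousOn (tp : (Fin (N + N) → ℝ) → E N) {w | tX w ≠ 0} := by
  unfold tp
  exact tZ_cont.continuousOn.sub ti_cont

lemma tU_open {N : ℕ} : IsOpen {w : Fin (N + N) → ℝ | tX w ≠ 0} :=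
  isOpen_ne_fun tX_cont continuous_const

lemma tZ_decomp {N : ℕ} {w : Fin (N + N) → ℝ} (h : tX w ≠ 0) :
    ‖tZ w‖ ^ 2 = ‖tp w‖ ^ 2 + (inner ℝ (te w) (tZ w) : ℝ) ^ 2 := by
  have h1 : tZ w = tp w + (inner ℝ (te w) (tZ w) : ℝ) • te w := by unfold tp; simp
  have h2 : ‖tZ w‖ ^ 2 = ‖tp w + (inner ℝ (te w) (tZ w) : ℝ) • te w‖ ^ 2 := by rw [← h1]
  rw [h2, norm_add_sq_real, inner_smul_right, real_inner_comm (te w) (tp w), tp_inner h,
    norm_smul, te_norm h, mul_one, Real.norm_eq_abs, sq_abs]
  ring

/-- Common zero of two tangent fields `c0 e z`, `c1 e z` (with `z` tangent at `e`) which are even in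
`e`, one of which points inwards for large `z`. -/
theorem topo2 {N : ℕ} (hN : 1 ≤ N) (c0 c1 : E N × E N → E N)
    (h0 : ContinuousOn c0 {w | ‖w.1‖ = 1 ∧ inner ℝ w.1 w.2 = 0})
    (h1 : ContinuousOn c1 {w | ‖w.1‖ = 1 ∧ inner ℝ w.1 w.2 = 0})
    (he0 : ∀ e z : E N, ‖e‖ = 1 → inner ℝ e z = 0 → c0 (-e, z) = c0 (e, z))
    (he1 : ∀ e z : E N, ‖e‖ = 1 → inner ℝ e z = 0 → c1 (-e, z) = c1 (e, z))
    (ht0 : ∀ e z : E N, ‖e‖ = 1 → inner ℝ e z = 0 → inner ℝ e (c0 (e, z)) = 0)
    (ht1 : ∀ e z : E N, ‖e‖ = 1 → inner ℝ e z = 0 → inner ℝ e (c1 (e, z)) = 0)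
    {M : ℝ} (hM0 : ∀ e z : E N, ‖e‖ = 1 → inner ℝ e z = 0 → ‖c0 (e, z)‖ ≤ M)
    (hM1 : ∀ e z : E N, ‖e‖ = 1 → inner ℝ e z = 0 → ‖c1 (e, z)‖ ≤ M)
    {K : ℝ} (hK : ∀ e z : E N, ‖e‖ = 1 → inner ℝ e z = 0 → K ≤ ‖z‖ → inner ℝ (c0 (e, z)) z < 0) :
    ∃ e z : E N, ‖e‖ = 1 ∧ inner ℝ e z = 0 ∧ c0 (e, z) = 0 ∧ c1 (e, z) = 0 := by
  by_contra hno
  obtain ⟨K1, hK1, hK1p⟩ : ∃ K1 : ℝ, K ≤ K1 ∧ 1 ≤ K1 := ⟨max K 1, le_max_left _ _, le_max_right _ _⟩
  obtain ⟨M1, hM1', hM1p⟩ : ∃ M1 : ℝ, M ≤ M1 ∧ 0 ≤ M1 := ⟨max M 0, le_max_left _ _, le_max_right _ _⟩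
  set L : ℝ := 2 * K1 * (M1 + 1) with hL
  have hLpos : 0 < L := by positivity
  have hin : ∀ w : Fin (N + N) → ℝ, tX w ≠ 0 → inner ℝ (te w) (L • tp w) = 0 := by
    intro w hw
    rw [inner_smul_right, tp_inner hw, mul_zero]
  -- the map
  set F1 : (Fin (N + N) → ℝ) → E N := fun w => tm w • c1 (te w, L • tp w) with hF1
  set F2 : (Fin (N + N) → ℝ) → E N := fun w => -(tm w • c0 (te w, L • tp w)) + (1 - tm w) • tZ w +
    tm w • ((inner ℝ (te w) (tZ w) : ℝ) • te w) with hF2
  have hmaps : MapsTo (fun w : Fin (N + N) → ℝ => (te w, L • tp w)) {w | tX w ≠ 0}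
      {w : E N × E N | ‖w.1‖ = 1 ∧ inner ℝ w.1 w.2 = 0} := fun w hw => ⟨te_norm hw, hin w hw⟩
  have hpair : ContinuousOn (fun w : Fin (N + N) → ℝ => (te w, L • tp w)) {w | tX w ≠ 0} :=
    te_cont.prodMk (tp_cont.const_smul L)
  have hnotU : ∀ w : Fin (N + N) → ℝ, w ∉ {w : Fin (N + N) → ℝ | tX w ≠ 0} → tm w = 0 := by
    intro w hw
    exact tm_zero (not_not.1 hw)
  have hF1c : Continuous F1 :=
    stopo_cont tm_cont tm_nonneg tU_open hnotU (h1.comp hpair hmaps) (B := fun _ => M)
      continuous_const (fun w hw => hM1 _ _ (te_norm hw) (hin w hw))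
  have hF2c : Continuous F2 := by
    refine ((stopo_cont tm_cont tm_nonneg tU_open hnotU (h0.comp hpair hmaps) (B := fun _ => M)
      continuous_const (fun w hw => hM0 _ _ (te_norm hw) (hin w hw))).neg.add
      ((continuous_const.sub tm_cont).smul tZ_cont)).add
      (stopo_cont tm_cont tm_nonneg tU_open hnotU
        ti_cont (B := fun w => ‖tZ w‖)
        tZ_cont.norm (fun w hw => ?_))
    rw [norm_smul, te_norm hw, mul_one]
    have := norm_inner_le_norm (𝕜 := ℝ) (te w) (tZ w)
    rw [te_norm hw, one_mul] at this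
    exact this
  set f : (Fin (N + N) → ℝ) → (Fin (N + N) → ℝ) := fun w =>
    Fin.append (fun i => F1 w i) (fun i => F2 w i) with hf
  set s : Fin (N + N) → ℝ := Fin.append (fun _ => -1) (fun _ => 1) with hs
  have hsl : ∀ i : Fin N, s (Fin.castAdd N i) = -1 := fun i => by rw [hs, Fin.append_left]
  have hsr : ∀ i : Fin N, s (Fin.natAdd N i) = 1 := fun i => by rw [hs, Fin.append_right]
  refine no_sym (N := N + N) s ?_ ⟨Fin.castAdd N ⟨0, by omega⟩, hsl _⟩ f ?_ ?_ ?_
  · intro i
    refine Fin.addCases (fun j => Or.inr (hsl j)) (fun j => Or.inl (hsr j)) i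
  · apply Continuous.continuousOn
    refine continuous_pi (fun i => ?_)
    refine Fin.addCases (fun j => ?_) (fun j => ?_) i
    · have e : (fun w => f w (Fin.castAdd N j)) = fun w => F1 w j := by
        funext w; rw [hf]; simp only [Fin.append_left]
      rw [e]
      exact (EuclideanSpace.proj j).continuous.comp hF1c
    · have e : (fun w => f w (Fin.natAdd N j)) = fun w => F2 w j := by
        funext w; rw [hf]; simp only [Fin.append_right]
      rw [e]
      exact (EuclideanSpace.proj j).continuous.comp hF2c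
  · intro w _
    have eX : tX (fun i => s i * w i) = -tX w := by
      unfold tX
      ext i
      show s (Fin.castAdd N i) * w (Fin.castAdd N i) = -w (Fin.castAdd N i)
      rw [hsl]; ring
    have eZ : tZ (fun i => s i * w i) = tZ w := by
      unfold tZ
      ext i
      show s (Fin.natAdd N i) * w (Fin.natAdd N i) = w (Fin.natAdd N i)
      rw [hsr]; ring
    have em : tm (fun i => s i * w i) = tm w := by
      unfold tm
      have : (fun i : Fin N => s (Fin.castAdd N i) * w (Fin.castAdd N i)) =
          -(fun i : Fin N => w (Fin.castAdd N i)) := by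
        funext i; rw [hsl]; simp
      rw [this, norm_neg]
    have ee : te (fun i => s i * w i) = -te w := by
      unfold te
      rw [eX, norm_neg, smul_neg]
    have ep : tp (fun i => s i * w i) = tp w := by
      unfold tp
      rw [eZ, ee, inner_neg_left, neg_smul_neg]
    have g1 : F1 (fun i => s i * w i) = F1 w := by
      rw [hF1]
      simp only
      rw [em, ee, ep]
      by_cases hX : tX w = 0
      · rw [tm_zero hX, zero_smul, zero_smul]
      · rw [he1 _ _ (te_norm hX) (hin w hX)]
    have g2 : F2 (fun i => s i * w i) = F2 w := by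
      rw [hF2]
      simp only
      rw [em, ee, ep, eZ, inner_neg_left, neg_smul_neg]
      by_cases hX : tX w = 0
      · rw [tm_zero hX]; simp
      · rw [he0 _ _ (te_norm hX) (hin w hX)]
    rw [hf]
    simp only
    rw [g1, g2]
  · intro w hw t ht hzero
    obtain ⟨htl, htu⟩ := ht
    have z1 : (1 - t) • tX w + t • F1 w = 0 := by
      ext i
      have := congrFun hzero (Fin.castAdd N i)
      rw [hf] at this
      simp only [Pi.add_apply, Pi.smul_apply, Fin.append_left, smul_eq_mul, Pi.zero_apply] at this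
      simpa [tX] using this
    have z2 : (1 - t) • tZ w + t • F2 w = 0 := by
      ext i
      have := congrFun hzero (Fin.natAdd N i)
      rw [hf] at this
      simp only [Pi.add_apply, Pi.smul_apply, Fin.append_right, smul_eq_mul, Pi.zero_apply] at this
      simpa [tZ] using this
    obtain ⟨hw1, i, hi⟩ := hw
    have hm1 : tm w ≤ 1 := by
      unfold tm
      rw [pi_norm_le_iff_of_nonneg zero_le_one]
      intro j
      rw [Real.norm_eq_abs]
      exact hw1 _
    have hm0 := tm_nonneg w
    rcases (by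
      refine Fin.addCases (motive := fun i => |w i| = 1 → (tm w = 1 ∨ 1 ≤ ‖tZ w‖)) ?_ ?_ i hi
      · intro j hj
        left
        refine le_antisymm hm1 ?_
        unfold tm
        rw [← hj, ← Real.norm_eq_abs]
        exact norm_le_pi_norm (fun i : Fin N => w (Fin.castAdd N i)) j
      · intro j hj
        right
        rw [← hj, ← Real.norm_eq_abs]
        exact PiLp.norm_apply_le (tZ w) j : tm w = 1 ∨ 1 ≤ ‖tZ w‖) with hm | hZ
    · have hX : tX w ≠ 0 := by
        intro hX
        rw [tm_zero hX] at hm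
        norm_num at hm
      have hn := te_norm hX
      have hI := hin w hX
      have hXe : tX w = ‖tX w‖ • te w := by
        unfold te
        rw [smul_smul, mul_inv_cancel₀ (norm_ne_zero_iff.2 hX), one_smul]
      have a1 : (1 - t) * ‖tX w‖ = 0 := by
        have := congrArg (fun v => inner ℝ (te w) v) z1
        simp only [inner_add_right, inner_smul_right, inner_zero_right] at this
        rw [hF1] at this
        simp only [inner_smul_right, ht1 _ _ hn hI, mul_zero, add_zero] at this
        rw [hXe, inner_smul_right, real_inner_self_eq_norm_sq, hn] at this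
        linarith
      have ht1' : t = 1 := by
        rcases mul_eq_zero.1 a1 with h | h
        · linarith
        · exact absurd (norm_eq_zero.1 h) hX
      rw [ht1', sub_self, zero_smul, zero_add, one_smul] at z1 z2
      have b1 : c1 (te w, L • tp w) = 0 := by
        rw [hF1] at z1
        simp only [hm, one_smul] at z1
        exact z1
      have b0 : c0 (te w, L • tp w) = 0 := by
        rw [hF2] at z2
        simp only [hm, one_smul, sub_self, zero_smul, add_zero] at z2
        have := congrArg (fun v => inner ℝ (c0 (te w, L • tp w)) v) z2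
        simp only [inner_add_right, inner_neg_right, inner_smul_right, inner_zero_right] at this
        rw [real_inner_comm (te w) (c0 (te w, L • tp w)), ht0 _ _ hn hI, mul_zero, add_zero,
          real_inner_self_eq_norm_sq] at this
        have h2 : ‖c0 (te w, L • tp w)‖ = 0 := by
          have : ‖c0 (te w, L • tp w)‖ ^ 2 = 0 := by linarith
          exact pow_eq_zero_iff (two_ne_zero) |>.1 this
        exact norm_eq_zero.1 h2
      exact hno ⟨te w, L • tp w, hn, hI, b0, b1⟩
    · have hz := congrArg (fun v => inner ℝ v (tZ w)) z2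
      simp only [inner_zero_left] at hz
      rw [hF2] at hz
      simp only [inner_add_left, inner_smul_left, inner_neg_left, RCLike.conj_to_real,
        real_inner_self_eq_norm_sq] at hz
      by_cases hX : tX w = 0
      · rw [tm_zero hX] at hz
        nlinarith [hz, sq_nonneg ‖tZ w‖]
      · have hn := te_norm hX
        have hI := hin w hX
        have hdec := tZ_decomp hX
        have hc : inner ℝ (c0 (te w, L • tp w)) (tZ w) = inner ℝ (c0 (te w, L • tp w)) (tp w) := by
          unfold tp
          rw [inner_sub_right, inner_smul_right,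
            real_inner_comm (te w) (c0 (te w, L • (tZ w - (inner ℝ (te w) (tZ w) : ℝ) • te w)))]
          have := ht0 _ _ hn hI
          unfold tp at this
          rw [this]
          ring
        rw [hc] at hz
        set a := (inner ℝ (te w) (tZ w) : ℝ) with ha
        set b := (inner ℝ (c0 (te w, L • tp w)) (tp w) : ℝ) with hb
        set m := tm w with hmdef
        have hZ2 : 1 ≤ ‖tZ w‖ ^ 2 := by nlinarith
        have hkey : ∀ r : ℝ, 0 < r → (1 - t) * ‖tZ w‖ ^ 2 + t * r ≠ 0 := by
          intro r hr h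
          have k1 : 0 ≤ (1 - t) * ‖tZ w‖ ^ 2 := mul_nonneg (by linarith) (by linarith)
          have k2 : 0 ≤ t * r := mul_nonneg htl hr.le
          have k3 : (1 - t) * ‖tZ w‖ ^ 2 = 0 := by linarith
          rcases mul_eq_zero.1 k3 with k4 | k4
          · have : t = 1 := by linarith
            rw [this] at k2 h
            nlinarith
          · linarith
        refine hkey (-(m * b) + (1 - m) * ‖tZ w‖ ^ 2 + m * (a * a)) ?_ (by linarith [hz])
        by_cases hbig : K ≤ ‖L • tp w‖
        · have h3 := hK _ _ hn hI hbig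
          rw [inner_smul_right] at h3
          have h4 : b < 0 := by
            by_contra h5
            have h5 := not_lt.1 h5
            have : 0 ≤ L * b := mul_nonneg hLpos.le h5
            linarith
          have h6 : 0 ≤ m * (a * a) := mul_nonneg hm0 (mul_self_nonneg a)
          have h7 : (1 - m) * 1 ≤ (1 - m) * ‖tZ w‖ ^ 2 :=
            mul_le_mul_of_nonneg_left hZ2 (by linarith)
          rcases hm0.eq_or_lt with h8 | h8
          · rw [← h8] at h6 h7 ⊢
            linarith
          · have h9 : 0 < m * (-b) := mul_pos h8 (by linarith)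
            linarith
        · have hbig := not_le.1 hbig
          rw [norm_smul, Real.norm_of_nonneg hLpos.le] at hbig
          set δ := ‖tp w‖ with hδ
          have hδ0 : 0 ≤ δ := norm_nonneg _
          have h3 : 2 * (M1 + 1) * δ < 1 := by
            have h4 : K1 * (2 * (M1 + 1) * δ) < K1 * 1 := by
              have : L * δ = K1 * (2 * (M1 + 1) * δ) := by rw [hL]; ring
              rw [← this]; linarith
            exact lt_of_mul_lt_mul_left h4 (by linarith)
          have h5 : b ≤ M1 * δ := by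
            have h6 := real_inner_le_norm (c0 (te w, L • tp w)) (tp w)
            have h7 := hM0 _ _ hn hI
            calc b ≤ ‖c0 (te w, L • tp w)‖ * ‖tp w‖ := h6
              _ ≤ M1 * δ := mul_le_mul_of_nonneg_right (h7.trans hM1') hδ0
          have h8 : 0 ≤ M1 * δ := mul_nonneg hM1p hδ0
          have h9 : δ * δ ≤ δ := by nlinarith
          have h10 : m * b ≤ m * (M1 * δ) := mul_le_mul_of_nonneg_left h5 hm0
          have h11 : a * a = ‖tZ w‖ ^ 2 - δ * δ := by rw [hdec]; ring
          have h12 : m * (M1 * δ + δ * δ) ≤ 1 * (M1 * δ + δ * δ) :=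
            mul_le_mul_of_nonneg_right hm1 (by positivity)
          rw [h11]
          nlinarith [h10, h12, h9, h3, hZ2]

end Pool.Agent.NE
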