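import Pool.Agent.NE.Tools

/-! Gaussian measure in polar coordinates (auxiliary file of module NE/SphP). -/

set_option autoImplicit false

open MeasureTheory Set ProbabilityTheory
open scoped ENNReal RealInnerProductSpace

namespace Pool.Agent.NE.SphPAux

/-- the Gaussian weight -/
noncomputable def W {n : ℕ} (x : E n) : ℝ := Real.exp (-(1 / 2) * ‖x‖ ^ 2)

lemma W_pos {n : ℕ} (x : E n) : 0 < W x := Real.exp_pos _

lemma continuous_W {n : ℕ} : Continuous (W : E n → ℝ) := by unfold W; fun_prop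

lemma integrable_cexp {n : ℕ} (t : E n) : Integrable (fun v : E n =>
    Complex.exp (-((1 / 2 : ℂ)) * (‖v‖ : ℂ) ^ 2 + Complex.I * (⟪t, v⟫ : ℝ))) := by
  have h := GaussianFourier.integrable_cexp_neg_mul_sq_norm_add (V := E n) (b := 1 / 2)
    (by norm_num) Complex.I t
  exact h

lemma integrable_W {n : ℕ} : Integrable (W : E n → ℝ) := by
  have h := (integrable_cexp (0 : E n)).norm
  refine h.congr (Filter.Eventually.of_forall fun v => ?_)
  simp only [Complex.norm_exp, W]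
  congr 1
  have : (-((1 / 2 : ℂ)) * (‖v‖ : ℂ) ^ 2 + Complex.I * ((⟪(0 : E n), v⟫ : ℝ) : ℂ)) =
      ((-(1 / 2) * ‖v‖ ^ 2 : ℝ) : ℂ) := by
    rw [inner_zero_left]; push_cast; ring
  rw [this, Complex.ofReal_re]

/-- the normalising constant -/
noncomputable def Z (n : ℕ) : ℝ := ∫ x : E n, W x

lemma Z_pos (n : ℕ) : 0 < Z n := by
  unfold Z
  rw [integral_pos_iff_support_of_nonneg (fun x => (W_pos x).le) integrable_W]
  have : Function.support (W : E n → ℝ) = univ := by
    ext x; simp [(W_pos x).ne']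
  rw [this]
  exact Measure.measure_univ_pos.mpr (NeZero.ne _)

lemma Z_complex (n : ℕ) : ((Z n : ℝ) : ℂ) =
    (Real.pi / (1 / 2 : ℂ)) ^ (Module.finrank ℝ (E n) / 2 : ℂ) := by
  have h := GaussianFourier.integral_cexp_neg_mul_sq_norm (V := E n) (b := 1 / 2) (by norm_num)
  rw [← h]
  unfold Z
  rw [← integral_complex_ofReal]
  refine integral_congr_ae (Filter.Eventually.of_forall fun v => ?_)
  simp only [W]
  push_cast
  rfl

/-- the standard Gaussian measure has density `W / Z` -/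
theorem stdGaussian_eq (n : ℕ) : stdGaussian (E n) =
    (volume : Measure (E n)).withDensity (fun x => ENNReal.ofReal ((Z n)⁻¹ * W x)) := by
  have hint : Integrable (fun x : E n => (Z n)⁻¹ * W x) := integrable_W.const_mul _
  haveI : IsFiniteMeasure ((volume : Measure (E n)).withDensity
      (fun x => ENNReal.ofReal ((Z n)⁻¹ * W x))) :=
    isFiniteMeasure_withDensity_ofReal hint.2
  apply Measure.ext_of_charFun
  ext t
  rw [charFun_stdGaussian, charFun_apply]
  have hm : Measurable fun x : E n => ENNReal.ofReal ((Z n)⁻¹ * W x) :=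
    ((continuous_W.const_mul _).measurable).ennreal_ofReal
  rw [integral_withDensity_eq_integral_toReal_smul hm
    (Filter.Eventually.of_forall fun x => ENNReal.ofReal_lt_top)]
  have hZ := Z_pos n
  have e : ∀ x : E n, (ENNReal.ofReal ((Z n)⁻¹ * W x)).toReal •
      Complex.exp (((⟪x, t⟫ : ℝ) : ℂ) * Complex.I) =
      ((Z n : ℝ) : ℂ)⁻¹ * Complex.exp (-((1 / 2 : ℂ)) * (‖x‖ : ℂ) ^ 2 +
        Complex.I * ((⟪t, x⟫ : ℝ) : ℂ)) := by
    intro x
    rw [ENNReal.toReal_ofReal (mul_nonneg (inv_nonneg.mpr hZ.le) (W_pos x).le),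
      Complex.real_smul, real_inner_comm x t]
    unfold W
    rw [Complex.exp_add]
    push_cast
    rw [mul_comm Complex.I]
    ring
  simp only [e]
  have h := GaussianFourier.integral_cexp_neg_mul_sq_norm_add (V := E n) (b := 1 / 2)
    (by norm_num) Complex.I t
  rw [integral_const_mul]
  have h' : ∫ x : E n, Complex.exp (-((1 / 2 : ℂ)) * (‖x‖ : ℂ) ^ 2 +
        Complex.I * ((⟪t, x⟫ : ℝ) : ℂ)) = (Real.pi / (1 / 2 : ℂ)) ^
        (Module.finrank ℝ (E n) / 2 : ℂ) * Complex.exp (Complex.I ^ 2 * ‖t‖ ^ 2 /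
        (4 * (1 / 2 : ℂ))) := h
  rw [h', ← Z_complex]
  have hZ' : ((Z n : ℝ) : ℂ) ≠ 0 := by exact_mod_cast hZ.ne'
  rw [← mul_assoc, inv_mul_cancel₀ hZ', one_mul]
  congr 1
  rw [Complex.I_sq]
  ring

/-- polar coordinates for products of a radial function and a function of the direction -/
theorem polar {n : ℕ} (hn : 1 ≤ n) (φ : ℝ → ℝ) (h : E n → ℝ) :
    ∫ x : E n, φ ‖x‖ * h (‖x‖⁻¹ • x) =
      (∫ r : Ioi (0 : ℝ), φ (r : ℝ) ∂(Measure.volumeIoiPow (n - 1))) *
      ∫ θ : Metric.sphere (0 : E n) 1, h (θ : E n) ∂(volume : Measure (E n)).toSphere := by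
  haveI : Nonempty (Fin n) := ⟨⟨0, hn⟩⟩
  haveI : Nontrivial (E n) := inferInstance
  have hdim : Module.finrank ℝ (E n) = n := by simp
  have hmp := (volume : Measure (E n)).measurePreserving_homeomorphUnitSphereProd
  rw [hdim] at hmp
  have h0 : ∫ x : E n, φ ‖x‖ * h (‖x‖⁻¹ • x) =
      ∫ x in ({0}ᶜ : Set (E n)), φ ‖x‖ * h (‖x‖⁻¹ • x) := by
    rw [restrict_compl_singleton]
  rw [h0, ← integral_subtype_comap (measurableSet_singleton (0 : E n)).compl]
  have h1 : ∀ x : ({0}ᶜ : Set (E n)), φ ‖(x : E n)‖ * h (‖(x : E n)‖⁻¹ • (x : E n)) =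
      (fun p : Metric.sphere (0 : E n) 1 × Ioi (0 : ℝ) => h (p.1 : E n) * φ (p.2 : ℝ))
        (homeomorphUnitSphereProd (E n) x) := by
    intro x
    simp [mul_comm]
  simp only [h1]
  rw [hmp.integral_comp (homeomorphUnitSphereProd (E n)).measurableEmbedding
    (fun p : Metric.sphere (0 : E n) 1 × Ioi (0 : ℝ) => h (p.1 : E n) * φ (p.2 : ℝ)),
    integral_prod_mul (fun θ : Metric.sphere (0 : E n) 1 => h (θ : E n))
      (fun r : Ioi (0 : ℝ) => φ (r : ℝ)), mul_comm]

/-- the radial moments -/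
noncomputable def J (n : ℕ) (φ : ℝ → ℝ) : ℝ :=
  ∫ r : Ioi (0 : ℝ), ((Z n)⁻¹ * Real.exp (-(1 / 2) * (r : ℝ) ^ 2)) * φ (r : ℝ)
    ∂(Measure.volumeIoiPow (n - 1))

/-- the Gaussian measure in polar coordinates -/
theorem gauss_polar {n : ℕ} (hn : 1 ≤ n) (φ : ℝ → ℝ) (h : E n → ℝ) :
    ∫ x : Fin n → ℝ, φ ‖(WithLp.toLp 2 x : E n)‖ *
        h (‖(WithLp.toLp 2 x : E n)‖⁻¹ • (WithLp.toLp 2 x : E n))
        ∂(Measure.pi fun _ : Fin n => gaussianReal 0 1) =
      J n φ * ∫ θ : Metric.sphere (0 : E n) 1, h (θ : E n) ∂(volume : Measure (E n)).toSphere := by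
  have hmap := map_pi_eq_stdGaussian (ι := Fin n)
  have e1 : ∫ x : Fin n → ℝ, φ ‖(WithLp.toLp 2 x : E n)‖ *
        h (‖(WithLp.toLp 2 x : E n)‖⁻¹ • (WithLp.toLp 2 x : E n))
        ∂(Measure.pi fun _ : Fin n => gaussianReal 0 1) =
      ∫ y : E n, φ ‖y‖ * h (‖y‖⁻¹ • y) ∂(stdGaussian (E n)) := by
    rw [← hmap]
    exact (integral_map_equiv (MeasurableEquiv.toLp 2 (Fin n → ℝ))
      (fun y : E n => φ ‖y‖ * h (‖y‖⁻¹ • y))).symm
  have hm : Measurable fun x : E n => ENNReal.ofReal ((Z n)⁻¹ * W x) :=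
    ((continuous_W.const_mul _).measurable).ennreal_ofReal
  rw [e1, stdGaussian_eq, integral_withDensity_eq_integral_toReal_smul hm
    (Filter.Eventually.of_forall fun x => ENNReal.ofReal_lt_top)]
  have hZ := Z_pos n
  have e : ∀ x : E n, (ENNReal.ofReal ((Z n)⁻¹ * W x)).toReal • (φ ‖x‖ * h (‖x‖⁻¹ • x)) =
      (fun r : ℝ => ((Z n)⁻¹ * Real.exp (-(1 / 2) * r ^ 2)) * φ r) ‖x‖ * h (‖x‖⁻¹ • x) := by
    intro x
    rw [ENNReal.toReal_ofReal (mul_nonneg (inv_nonneg.mpr hZ.le) (W_pos x).le), smul_eq_mul]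
    simp only [W]
    ring
  simp only [e]
  rw [polar hn (fun r : ℝ => ((Z n)⁻¹ * Real.exp (-(1 / 2) * r ^ 2)) * φ r) h]
  rfl

/-- total mass -/
theorem J_zero {n : ℕ} (hn : 1 ≤ n) :
    J n (fun _ => 1) * (volume : Measure (E n)).toSphere.real univ = 1 := by
  have h := gauss_polar hn (fun _ => 1) (fun _ => 1)
  simp only [mul_one, integral_const, smul_eq_mul, probReal_univ] at h
  rw [← h]

/-- second moment -/
theorem J_two {n : ℕ} (hn : 1 ≤ n) :
    J n (fun r => r ^ 2) * (volume : Measure (E n)).toSphere.real univ = n := by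
  have h := gauss_polar hn (fun r => r ^ 2) (fun _ => 1)
  simp only [mul_one, integral_const, smul_eq_mul] at h
  rw [← h]
  have e : ∀ x : Fin n → ℝ, ‖(WithLp.toLp 2 x : E n)‖ ^ 2 = ∑ i, x i ^ 2 := by
    intro x
    rw [EuclideanSpace.real_norm_sq_eq]
  simp only [e]
  have hsq : Integrable (fun x : ℝ => x ^ 2) (gaussianReal 0 1) := by
    have := (memLp_id_gaussianReal (μ := 0) (v := 1) 2).integrable_sq
    simpa using this
  rw [integral_finsetSum _ (fun i _ => integrable_comp_eval (i := i) hsq)]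
  have hv : ∫ x : ℝ, x ^ 2 ∂(gaussianReal 0 1) = 1 := by
    have h1 := variance_id_gaussianReal (μ := 0) (v := 1)
    rw [variance_eq_integral measurable_id.aemeasurable] at h1
    simpa using h1
  have : ∀ i : Fin n, ∫ x : Fin n → ℝ, x i ^ 2 ∂(Measure.pi fun _ : Fin n => gaussianReal 0 1) = 1 := by
    intro i
    have h3 := integral_comp_eval (μ := fun _ : Fin n => gaussianReal 0 1) (i := i)
      (f := fun x : ℝ => x ^ 2) hsq.aestronglyMeasurable
    exact h3.trans hv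
  simp [this]

end Pool.Agent.NE.SphPAux
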