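import Pool.Agent.NE.Tools
import Pool.Agent.NE.GaussN
import Pool.Agent.NE.SphPAux

set_option autoImplicit false

open MeasureTheory Set ProbabilityTheory
open scoped ENNReal ContDiff Gradient

namespace Pool.Agent.NE

namespace SphPAux

lemma continuous_grad {n : ℕ} {f : E n → ℝ} (hf : ContDiff ℝ ∞ f) : Continuous (fun x => ∇ f x) := by
  unfold gradient
  exact (LinearIsometryEquiv.continuous _).comp (hf.continuous_fderiv (by simp))

/-- integrability of continuous functions on the sphere -/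
lemma integrable_sphere {n : ℕ} {g : E n → ℝ} (hg : Continuous g) :
    Integrable (fun θ : Metric.sphere (0 : E n) 1 => g θ) (volume : Measure (E n)).toSphere := by
  have hc : Continuous (fun θ : Metric.sphere (0 : E n) 1 => g θ) :=
    hg.comp continuous_subtype_val
  exact hc.integrable_of_hasCompactSupport (HasCompactSupport.of_compactSpace _)

/-- the vector field `w` -/
noncomputable def wf {n : ℕ} (h : E n → ℝ) (g : E n → E n) (θ : E n) : E n :=
  h θ • θ + g θ - (inner ℝ (g θ) θ : ℝ) • θ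

lemma wf_continuous {n : ℕ} {h : E n → ℝ} {g : E n → E n} (hh : Continuous h)
    (hg : Continuous g) : Continuous (wf h g) := by
  unfold wf; fun_prop

lemma wf_norm_sq {n : ℕ} (h : E n → ℝ) (g : E n → E n) {θ : E n} (hθ : ‖θ‖ = 1) :
    ‖wf h g θ‖ ^ 2 = h θ ^ 2 + (‖g θ‖ ^ 2 - (inner ℝ (g θ) θ) ^ 2) := by
  have e : wf h g θ = (h θ - inner ℝ (g θ) θ) • θ + g θ := by
    unfold wf; rw [sub_smul]; abel
  rw [e, norm_add_sq_real, norm_smul, inner_smul_left, hθ, real_inner_comm]
  simp only [Real.norm_eq_abs, mul_one, sq_abs, conj_trivial]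
  ring

/-- the derivative along coordinate lines -/
lemma hasDerivAt_line {n : ℕ} {h : E n → ℝ} {g : E n → E n}
    (hd : ∀ y, HasGradientAt h (g y) y) (i : Fin n) (x : Fin n → ℝ) (t : ℝ)
    (hx : (WithLp.toLp 2 (Function.update x i t) : E n) ≠ 0) :
    HasDerivAt (fun s => ‖(WithLp.toLp 2 (Function.update x i s) : E n)‖ *
      h (‖(WithLp.toLp 2 (Function.update x i s) : E n)‖⁻¹ •
        (WithLp.toLp 2 (Function.update x i s) : E n)))
      (wf h g (‖(WithLp.toLp 2 (Function.update x i t) : E n)‖⁻¹ •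
        (WithLp.toLp 2 (Function.update x i t) : E n)) i) t := by
  set y : ℝ → E n := fun s => WithLp.toLp 2 (Function.update x i s) with hy
  set e : E n := WithLp.toLp 2 (Pi.single i (1 : ℝ)) with he
  have hy' : HasDerivAt y e t := by
    have h1 := hasDerivAt_update x i t
    have h2 := ((EuclideanSpace.equiv (Fin n) ℝ).symm : (Fin n → ℝ) →L[ℝ] E n).hasFDerivAt
      (x := Function.update x i t)
    exact h2.comp_hasDerivAt t h1
  have hyt : y t ≠ 0 := hx
  have hr : 0 < ‖y t‖ := norm_pos_iff.mpr hyt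
  have hin : ∀ v : E n, inner ℝ v e = v i := by
    intro v
    rw [he, PiLp.inner_apply]
    simp [Pi.single_apply]
  -- derivative of the norm
  have hr' : HasDerivAt (fun s => ‖y s‖) (y t i / ‖y t‖) t := by
    have h1 := (hy'.norm_sq).sqrt (by positivity)
    have h2 : (fun s => Real.sqrt (‖y s‖ ^ 2)) = fun s => ‖y s‖ := by
      funext s; exact Real.sqrt_sq (norm_nonneg _)
    rw [h2] at h1
    convert h1 using 1
    rw [hin, Real.sqrt_sq (norm_nonneg _)]
    field_simp
  have hinv : HasDerivAt (fun s => ‖y s‖⁻¹) (-(y t i / ‖y t‖) / ‖y t‖ ^ 2) t := hr'.fun_inv hr.ne'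
  have hθ : HasDerivAt (fun s => ‖y s‖⁻¹ • y s)
      (‖y t‖⁻¹ • e + (-(y t i / ‖y t‖) / ‖y t‖ ^ 2) • y t) t := hinv.smul hy'
  have hh : HasDerivAt (fun s => h (‖y s‖⁻¹ • y s))
      (inner ℝ (g (‖y t‖⁻¹ • y t)) (‖y t‖⁻¹ • e + (-(y t i / ‖y t‖) / ‖y t‖ ^ 2) • y t)) t := by
    have h1 := ((hd (‖y t‖⁻¹ • y t)).hasFDerivAt).comp_hasDerivAt t hθ
    exact h1.congr_deriv (by simp)
  have hF := hr'.mul hh
  change HasDerivAt (fun s => ‖y s‖ * h (‖y s‖⁻¹ • y s)) (wf h g (‖y t‖⁻¹ • y t) i) t
  refine hF.congr_deriv ?_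
  rw [inner_add_right, inner_smul_right, inner_smul_right, hin]
  simp only [wf, PiLp.sub_apply, PiLp.add_apply, PiLp.smul_apply, smul_eq_mul, inner_smul_right]
  field_simp
  ring


lemma norm_inv_smul_le {n : ℕ} (y : E n) : ‖‖y‖⁻¹ • y‖ ≤ 1 := by
  rw [norm_smul, norm_inv, norm_norm]
  by_cases h : ‖y‖ = 0
  · simp [h]
  · rw [inv_mul_cancel₀ h]

lemma norm_inv_smul_eq {n : ℕ} {y : E n} (hy : y ≠ 0) : ‖‖y‖⁻¹ • y‖ = 1 := by
  rw [norm_smul, norm_inv, norm_norm, inv_mul_cancel₀ (norm_ne_zero_iff.mpr hy)]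

/-- bound of a continuous function on the closed unit ball -/
lemma exists_bound {n : ℕ} {h : E n → ℝ} (hh : Continuous h) :
    ∃ K, 0 ≤ K ∧ ∀ θ : E n, ‖θ‖ ≤ 1 → |h θ| ≤ K := by
  obtain ⟨K, hK⟩ := (isCompact_closedBall (0 : E n) 1).exists_bound_of_continuousOn
    hh.continuousOn
  refine ⟨max K 0, le_max_right _ _, fun θ hθ => ?_⟩
  exact (hK θ (by simpa using hθ)).trans (le_max_left _ _)

/-- the case of mean zero -/
lemma sphP_mean_zero {n : ℕ} (hn : 2 ≤ n) (h : E n → ℝ) (hh : ContDiff ℝ ∞ h)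
    (h0 : ∫ θ : Metric.sphere (0 : E n) 1, h θ ∂(volume : Measure (E n)).toSphere = 0) :
    (n - 1 : ℝ) * (∫ θ : Metric.sphere (0 : E n) 1, h θ ^ 2 ∂(volume : Measure (E n)).toSphere) ≤
      ∫ θ : Metric.sphere (0 : E n) 1, (‖∇ h (θ : E n)‖ ^ 2 - (inner ℝ (∇ h (θ : E n)) (θ : E n)) ^ 2)
        ∂(volume : Measure (E n)).toSphere := by
  set g : E n → E n := fun x => ∇ h x with hg
  have hgc : Continuous g := continuous_grad hh
  have hhc : Continuous h := hh.continuous
  have hwc : Continuous (wf h g) := wf_continuous hhc hgc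
  have hd : ∀ y, HasGradientAt h (g y) y := fun y =>
    (hh.differentiable (by simp)).differentiableAt.hasGradientAt
  obtain ⟨K, hK0, hK⟩ := exists_bound hhc
  obtain ⟨L, hL0, hL⟩ := exists_bound (h := fun θ => ‖wf h g θ‖) hwc.norm
  set T : (Fin n → ℝ) →L[ℝ] E n :=
    ((EuclideanSpace.equiv (Fin n) ℝ).symm : (Fin n → ℝ) →L[ℝ] E n) with hT
  have hTle : ∀ x : Fin n → ℝ, ‖(WithLp.toLp 2 x : E n)‖ ≤ ‖T‖ * ‖x‖ := fun x => T.le_opNorm x
  have hTc : Continuous (fun x : Fin n → ℝ => (WithLp.toLp 2 x : E n)) := T.continuous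
  set F : (Fin n → ℝ) → ℝ := fun x => ‖(WithLp.toLp 2 x : E n)‖ *
    h (‖(WithLp.toLp 2 x : E n)‖⁻¹ • (WithLp.toLp 2 x : E n)) with hF
  set DF : Fin n → (Fin n → ℝ) → ℝ := fun i x =>
    wf h g (‖(WithLp.toLp 2 x : E n)‖⁻¹ • (WithLp.toLp 2 x : E n)) i with hDF
  have hθm : Measurable (fun x : Fin n → ℝ =>
      ‖(WithLp.toLp 2 x : E n)‖⁻¹ • (WithLp.toLp 2 x : E n)) :=
    (hTc.measurable.norm.inv).smul hTc.measurable
  have hFm : Measurable F := hTc.measurable.norm.mul (hhc.measurable.comp hθm)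
  have hwm : Measurable (fun x : Fin n → ℝ =>
      wf h g (‖(WithLp.toLp 2 x : E n)‖⁻¹ • (WithLp.toLp 2 x : E n))) :=
    hwc.measurable.comp hθm
  have hDFm : ∀ i, Measurable (DF i) := by
    intro i
    have hp : Continuous (fun v : E n => v i) := by fun_prop
    exact hp.measurable.comp hwm
  have hT0 : 0 ≤ ‖T‖ := norm_nonneg _
  have hle : ∀ x i, |DF i x| ≤ L := by
    intro x i
    have h1 := hL _ (norm_inv_smul_le (WithLp.toLp 2 x : E n))
    have h2 := PiLp.norm_apply_le
      (wf h g (‖(WithLp.toLp 2 x : E n)‖⁻¹ • (WithLp.toLp 2 x : E n))) i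
    rw [abs_norm] at h1
    exact h2.trans h1
  have key := gaussN hn F DF hFm hDFm (C := K * ‖T‖ + L) ?_ ?_ ?_
  · -- now polar coordinates
    have hn1 : 1 ≤ n := by omega
    have e1 : ∫ x, F x ^ 2 ∂(Measure.pi fun _ : Fin n => gaussianReal 0 1) =
        J n (fun r => r ^ 2) * ∫ θ : Metric.sphere (0 : E n) 1, h θ ^ 2
          ∂(volume : Measure (E n)).toSphere := by
      rw [← gauss_polar hn1 (fun r => r ^ 2) (fun θ => h θ ^ 2)]
      refine integral_congr_ae (Filter.Eventually.of_forall fun x => ?_)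
      simp only [hF]; ring
    have e2 : ∫ x, F x ∂(Measure.pi fun _ : Fin n => gaussianReal 0 1) = 0 := by
      have := gauss_polar hn1 (fun r => r) h
      rw [h0, mul_zero] at this
      exact this
    have e3 : ∑ i, ∫ x, DF i x ^ 2 ∂(Measure.pi fun _ : Fin n => gaussianReal 0 1) =
        J n (fun _ => 1) * ∫ θ : Metric.sphere (0 : E n) 1, ‖wf h g θ‖ ^ 2
          ∂(volume : Measure (E n)).toSphere := by
      rw [← gauss_polar hn1 (fun _ => 1) (fun θ => ‖wf h g θ‖ ^ 2), ← integral_finsetSum]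
      · refine integral_congr_ae (Filter.Eventually.of_forall fun x => ?_)
        simp only [hDF, one_mul]
        rw [EuclideanSpace.real_norm_sq_eq]
      · intro i _
        refine Integrable.of_bound ((hDFm i).pow_const 2).aestronglyMeasurable (L ^ 2)
          (Filter.Eventually.of_forall fun x => ?_)
        rw [norm_pow, Real.norm_eq_abs]
        exact pow_le_pow_left₀ (abs_nonneg _) (hle x i) 2
    have e4 : ∫ θ : Metric.sphere (0 : E n) 1, ‖wf h g θ‖ ^ 2
          ∂(volume : Measure (E n)).toSphere =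
        (∫ θ : Metric.sphere (0 : E n) 1, h θ ^ 2 ∂(volume : Measure (E n)).toSphere) +
        ∫ θ : Metric.sphere (0 : E n) 1, (‖g (θ : E n)‖ ^ 2 - (inner ℝ (g (θ : E n)) (θ : E n)) ^ 2)
        ∂(volume : Measure (E n)).toSphere := by
      rw [← integral_add (integrable_sphere (g := fun θ => h θ ^ 2) (by fun_prop))
        (integrable_sphere (g := fun θ => ‖g θ‖ ^ 2 - (inner ℝ (g θ) θ) ^ 2) (by fun_prop))]
      refine integral_congr_ae (Filter.Eventually.of_forall fun θ => ?_)
      exact wf_norm_sq h g (by simp)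
    rw [e1, e2, e3, e4] at key
    have hJ0 := J_zero hn1
    have hJ2 := J_two hn1
    set A := (volume : Measure (E n)).toSphere.real univ with hA
    have hA0 : 0 < A := by
      rcases (measureReal_nonneg : 0 ≤ A).lt_or_eq with h1 | h1
      · exact h1
      · rw [hA, ← h1, mul_zero] at hJ0
        exact absurd hJ0 (by norm_num)
    set I1 := ∫ θ : Metric.sphere (0 : E n) 1, h θ ^ 2 ∂(volume : Measure (E n)).toSphere
    set I2 := ∫ θ : Metric.sphere (0 : E n) 1,
      (‖g (θ : E n)‖ ^ 2 - (inner ℝ (g (θ : E n)) (θ : E n)) ^ 2)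
        ∂(volume : Measure (E n)).toSphere
    have h5 := mul_le_mul_of_nonneg_left key hA0.le
    have h6 : A * (J n (fun r => r ^ 2) * I1 - 0 ^ 2) = n * I1 := by
      rw [← hJ2]; ring
    have h7 : A * (J n (fun _ => 1) * (I1 + I2)) = I1 + I2 := by
      have : A * (J n (fun _ => 1) * (I1 + I2)) = (J n (fun _ => 1) * A) * (I1 + I2) := by ring
      rw [this, hJ0, one_mul]
    rw [h6, h7] at h5
    linarith
  · intro x
    have h1 := hK _ (norm_inv_smul_le (WithLp.toLp 2 x : E n))
    simp only [hF]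
    rw [abs_mul, abs_norm]
    have h2 : ‖(WithLp.toLp 2 x : E n)‖ * |h (‖(WithLp.toLp 2 x : E n)‖⁻¹ •
        (WithLp.toLp 2 x : E n))| ≤ (‖T‖ * ‖x‖) * K :=
      mul_le_mul (hTle x) h1 (abs_nonneg _) (by positivity)
    have h3 : 0 ≤ K * ‖T‖ := by positivity
    have h4 : 0 ≤ ‖x‖ := norm_nonneg _
    nlinarith
  · intro i x
    have := hle x i
    have h3 : 0 ≤ K * ‖T‖ := by positivity
    linarith
  · intro i x hx
    obtain ⟨j, hji, hj⟩ := hx
    have hne : ∀ t, (WithLp.toLp 2 (Function.update x i t) : E n) ≠ 0 := by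
      intro t h1
      have h2 := congrArg (fun v : E n => v j) h1
      simp [Function.update_of_ne hji] at h2
      exact hj h2
    refine ⟨fun t => hasDerivAt_line hd i x t (hne t), ?_⟩
    have hu : Continuous (fun t => (WithLp.toLp 2 (Function.update x i t) : E n)) :=
      hTc.comp (continuous_const.update i continuous_id)
    have h1 : Continuous (fun t => ‖(WithLp.toLp 2 (Function.update x i t) : E n)‖⁻¹ •
        (WithLp.toLp 2 (Function.update x i t) : E n)) :=
      (hu.norm.inv₀ (fun t => norm_ne_zero_iff.mpr (hne t))).smul hu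
    have hp : Continuous (fun v : E n => v i) := by fun_prop
    exact hp.comp (hwc.comp h1)

end SphPAux

open SphPAux in
/-- Poincare inequality on the unit sphere of `ℝⁿ` with the sharp constant `n - 1`. -/
theorem sphP {n : ℕ} (hn : 1 ≤ n) (f : E n → ℝ) (hf : ContDiff ℝ ∞ f) :
    (n - 1 : ℝ) * (∫ θ : Metric.sphere (0 : E n) 1, f θ ^ 2 ∂(volume : Measure (E n)).toSphere -
        (∫ θ : Metric.sphere (0 : E n) 1, f θ ∂(volume : Measure (E n)).toSphere) ^ 2 /
          (volume : Measure (E n)).toSphere.real univ) ≤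
      ∫ θ : Metric.sphere (0 : E n) 1, (‖∇ f (θ : E n)‖ ^ 2 - (inner ℝ (∇ f (θ : E n)) (θ : E n)) ^ 2)
        ∂(volume : Measure (E n)).toSphere := by
  rcases Nat.lt_or_ge 1 n with h2 | h1
  · -- subtract the mean
    have hn1 : 1 ≤ n := by omega
    have hJ0 := J_zero hn1
    set A := (volume : Measure (E n)).toSphere.real univ with hA
    have hA0 : 0 < A := by
      rcases (measureReal_nonneg : 0 ≤ A).lt_or_eq with h1 | h1
      · exact h1
      · rw [hA, ← h1, mul_zero] at hJ0
        exact absurd hJ0 (by norm_num)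
    set S := ∫ θ : Metric.sphere (0 : E n) 1, f θ ∂(volume : Measure (E n)).toSphere with hS
    have hfc : Continuous f := hf.continuous
    have hfi := integrable_sphere hfc
    have hfi2 := integrable_sphere (g := fun θ => f θ ^ 2) (by fun_prop)
    have hh : ContDiff ℝ ∞ (fun θ => f θ - S / A) := hf.sub contDiff_const
    have hgrad : ∀ θ : E n, ∇ (fun θ => f θ - S / A) θ = ∇ f θ := by
      intro θ
      unfold gradient
      rw [fderiv_sub_const]
    have h0 : ∫ θ : Metric.sphere (0 : E n) 1, (f θ - S / A) ∂(volume : Measure (E n)).toSphere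
        = 0 := by
      rw [integral_sub hfi (integrable_const _), integral_const, ← hS, ← hA, smul_eq_mul]
      field_simp
      ring
    have key := sphP_mean_zero h2 (fun θ => f θ - S / A) hh h0
    simp only [hgrad] at key
    have h3 : ∫ θ : Metric.sphere (0 : E n) 1, (f θ - S / A) ^ 2
        ∂(volume : Measure (E n)).toSphere =
        ∫ θ : Metric.sphere (0 : E n) 1, f θ ^ 2 ∂(volume : Measure (E n)).toSphere -
          S ^ 2 / A := by
      have e : ∀ θ : Metric.sphere (0 : E n) 1, (f θ - S / A) ^ 2 =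
          f θ ^ 2 - (2 * (S / A) * f θ - (S / A) ^ 2) := fun θ => by ring
      simp only [e]
      have i1 : Integrable (fun θ : Metric.sphere (0 : E n) 1 => 2 * (S / A) * f θ - (S / A) ^ 2)
          (volume : Measure (E n)).toSphere := (hfi.const_mul _).sub (integrable_const _)
      rw [integral_sub hfi2 i1,
        integral_sub (hfi.const_mul _) (integrable_const _), integral_const_mul, integral_const,
        ← hS, ← hA, smul_eq_mul]
      field_simp
      ring
    rw [h3] at key
    exact key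
  · have hn : n = 1 := by omega
    have e : ((n : ℝ) - 1) = 0 := by rw [hn]; norm_num
    rw [e, zero_mul]
    refine integral_nonneg fun θ => ?_
    have h1 := abs_real_inner_le_norm (∇ f (θ : E n)) (θ : E n)
    have h2 : ‖(θ : E n)‖ = 1 := by simp
    rw [h2, mul_one] at h1
    have h3 := sq_le_sq.mpr (h1.trans (le_abs_self _))
    simpa using h3

end Pool.Agent.NE
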